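import Pool.Agent.T2H29.TA.Base

/-!
# Basic facts on the lattices
-/

set_option autoImplicit false
set_option linter.unusedSectionVars false

namespace Pool.Agent.T2H29.TA

open Finset NumberField NumberField.InfinitePlace Module MeasureTheory
open Pool.Agent.T2H29.SW
open scoped RealInnerProductSpace ContDiff

variable (K : Type) [Field K] [NumberField K]

theorem A1_Ds_det (s : InfinitePlace K → ℝ) :
    (Ds K s).det = Real.exp (∑ w, (mult w : ℝ) * s w) := by
  unfold Ds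
  rw [Matrix.det_diagonal, prod_plc K (fun w => Real.exp (s w)), Real.exp_sum]
  refine prod_congr rfl fun w _ => ?_
  rw [← Real.exp_nat_mul]

theorem Ds_det_ne (s : InfinitePlace K → ℝ) : (Ds K s).det ≠ 0 := by
  rw [A1_Ds_det]
  exact (Real.exp_pos _).ne'

open scoped Classical in
theorem A1_lam_scale (s : InfinitePlace K → ℝ) (v v' : EK K)
    (h : ∀ i, v' i = Real.exp (s (plc K i)) * v i) (w : InfinitePlace K) :
    lamK K w v' = ((Real.exp (s w) : ℝ) : ℂ) * lamK K w v := by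
  by_cases hr : IsReal w
  · rw [lamK_real K hr, lamK_real K hr, h]
    have e1 : plc K ((eI K).symm (Sum.inl ⟨w, hr⟩)) = w := by
      unfold plc
      rw [Equiv.apply_symm_apply]
      rfl
    rw [e1]
    push_cast
    ring
  · have hc := not_isReal_iff_isComplex.1 hr
    have e1 : ∀ j, plc K ((eI K).symm (Sum.inr (⟨w, hc⟩, j))) = w := by
      intro j
      unfold plc
      rw [Equiv.apply_symm_apply]
      rfl
    rw [lamK_complex K hc, lamK_complex K hc, h, h, e1, e1]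
    push_cast
    ring

theorem A1_Ds_mulVec (s : InfinitePlace K → ℝ) (A : Matrix (Fin (dg K)) (Fin (dg K)) ℝ)
    (x : Fin (dg K) → ℝ) (i : Fin (dg K)) :
    (Ds K s * A).mulVec x i = Real.exp (s (plc K i)) * A.mulVec x i := by
  rw [← Matrix.mulVec_mulVec]
  unfold Ds
  rw [Matrix.mulVec_diagonal]

theorem lam_Ds (s : InfinitePlace K → ℝ) (A : Matrix (Fin (dg K)) (Fin (dg K)) ℝ)
    (z : Fin (dg K) → ℤ) (w : InfinitePlace K) :
    lamK K w (vc (Ds K s * A) z) = ((Real.exp (s w) : ℝ) : ℂ) * lamK K w (vc A z) := by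
  refine A1_lam_scale K s _ _ (fun i => ?_) w
  exact A1_Ds_mulVec K s A (cz z) i

theorem Mv_Ds (s : InfinitePlace K → ℝ) (A : Matrix (Fin (dg K)) (Fin (dg K)) ℝ) :
    Mv (Ds K s * A) = Mv A * Real.exp (-(∑ w, (mult w : ℝ) * s w)) := by
  rw [Mv_mul, mul_comm]
  congr 1
  unfold Mv
  rw [A1_Ds_det, abs_of_pos (Real.exp_pos _), Real.exp_neg]

theorem A1_Ds_mul (s s' : InfinitePlace K → ℝ) : Ds K s * Ds K s' = Ds K (s + s') := by
  unfold Ds
  rw [Matrix.diagonal_mul_diagonal]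
  congr 1
  funext i
  rw [← Real.exp_add]
  rfl

theorem A1_Ds_zero : Ds K 0 = 1 := by
  unfold Ds
  simp

theorem A1_Ds_inv (s : InfinitePlace K → ℝ) : (Ds K s)⁻¹ = Ds K (-s) := by
  refine Matrix.inv_eq_right_inv ?_
  rw [A1_Ds_mul, add_neg_cancel, A1_Ds_zero]

theorem A1_Ds_transpose (s : InfinitePlace K → ℝ) : (Ds K s).transpose = Ds K s := by
  unfold Ds
  rw [Matrix.diagonal_transpose]

theorem du_Ds (s : InfinitePlace K → ℝ) {A : Matrix (Fin (dg K)) (Fin (dg K)) ℝ}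
    (_hA : A.det ≠ 0) : du (Ds K s * A) = Ds K (-s) * du A := by
  unfold du
  rw [Matrix.mul_inv_rev, Matrix.transpose_mul, A1_Ds_inv, A1_Ds_transpose]

theorem GB_AX {B : ℝ} (hB : CBI K B) {I : Ideal (𝓞 K)} (hI : I ≠ ⊥)
    (b : Basis (Fin (dg K)) ℤ I) (x : LS K) : GB K B (AX b x) := by
  refine ⟨det_AX_ne hI b x, fun s => ?_⟩
  set x' : LS K := (UE K).symm (fun w => UU K x w + 2 * s w) with hx'
  have h1 : UU K x' = fun w => UU K x w + 2 * s w := by
    rw [← UE_apply, hx']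
    exact (UE K).apply_symm_apply _
  have h2 : Ds K s * AX b x = AX b x' := by
    ext i j
    have e1 : (Ds K s * AX b x) i j = Real.exp (s (plc K i)) * AX b x i j := by
      unfold Ds
      rw [Matrix.diagonal_mul]
    have e2 : AX b x i j = √(Real.exp (UU K x (plc K i))) * co K i (((b j : I) : 𝓞 K) : K) := rfl
    have e3 : AX b x' i j = √(Real.exp (UU K x' (plc K i))) * co K i (((b j : I) : 𝓞 K) : K) := rfl
    rw [e1, e2, e3, h1, ← mul_assoc]
    congr 1
    beta_reduce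
    rw [Real.exp_add, Real.sqrt_mul (Real.exp_pos _).le, mul_comm]
    congr 1
    symm
    rw [show 2 * s (plc K i) = s (plc K i) + s (plc K i) by ring, Real.exp_add,
      Real.sqrt_mul_self (Real.exp_pos _).le]
  rw [h2]
  exact hB I hI b x'

theorem GB_du {B : ℝ} {A : Matrix (Fin (dg K)) (Fin (dg K)) ℝ} (h : GB K B A) :
    GB K B (du A) := by
  refine ⟨du_det_ne h.1, fun s => ?_⟩
  have h1 : Ds K s * du A = du (Ds K (-s) * A) := by
    rw [du_Ds K (-s) h.1, neg_neg]
  rw [h1]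
  refine CB.du ?_ (h.2 (-s))
  rw [Matrix.det_mul]
  exact mul_ne_zero (Ds_det_ne K _) h.1

theorem GB_Ds {B : ℝ} {A : Matrix (Fin (dg K)) (Fin (dg K)) ℝ} (h : GB K B A)
    (s : InfinitePlace K → ℝ) : GB K B (Ds K s * A) := by
  refine ⟨?_, fun s' => ?_⟩
  · rw [Matrix.det_mul]
    exact mul_ne_zero (Ds_det_ne K _) h.1
  · rw [← Matrix.mul_assoc, A1_Ds_mul]
    exact h.2 _

theorem A1_cpol (a b : ℂ) : ‖a + b‖ ^ 2 - ‖a - b‖ ^ 2 = 4 * ((starRingEnd ℂ) a * b).re := by
  rw [Complex.sq_norm, Complex.sq_norm, Complex.normSq_apply, Complex.normSq_apply]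
  simp only [Complex.add_re, Complex.add_im, Complex.sub_re, Complex.sub_im, Complex.mul_re,
    Complex.conj_re, Complex.conj_im]
  ring

theorem lamK_inner (ξ v : EK K) :
    ⟪ξ, v⟫ = ∑ w, (mult w : ℝ) * ((starRingEnd ℂ) (lamK K w ξ) * lamK K w v).re := by
  have h1 : ⟪ξ, v⟫ = (‖ξ + v‖ ^ 2 - ‖ξ - v‖ ^ 2) / 4 := by
    rw [@norm_add_sq_real, @norm_sub_sq_real]
    ring
  rw [h1, lamK_norm, lamK_norm, ← sum_sub_distrib, sum_div]
  refine sum_congr rfl fun w _ => ?_
  rw [map_add, map_sub, ← mul_sub, A1_cpol]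
  ring

theorem lamK_Rl (v : EK K) (w : InfinitePlace K) : Rl (tp K w) (lamK K w v) := by
  classical
  intro h
  have hr : IsReal w := by
    unfold tp at h
    exact of_decide_eq_true h
  rw [lamK_real K hr, Complex.ofReal_im]

theorem mult_nr (w : InfinitePlace K) : mult w = nr (tp K w) := by
  classical
  by_cases hr : IsReal w
  · have h : tp K w = true := by
      unfold tp
      exact decide_eq_true hr
    rw [h, mult_isReal ⟨w, hr⟩]
    rfl
  · have h : tp K w = false := by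
      unfold tp
      exact decide_eq_false hr
    rw [h, mult_isComplex ⟨w, not_isReal_iff_isComplex.1 hr⟩]
    rfl

theorem A1_Rl_real {u : InfinitePlace K → ℂ} (hu : ∀ w, Rl (tp K w) (u w)) :
    ∀ w, IsReal w → (u w).im = 0 := by
  classical
  intro w hr
  refine hu w ?_
  unfold tp
  exact decide_eq_true hr

theorem exists_ofL : ∃ g : (InfinitePlace K → ℂ) → EK K, Continuous g ∧
    ∀ u, (∀ w, Rl (tp K w) (u w)) → ∀ w, lamK K w (g u) = u w := by
  refine ⟨fun u => Tm K u (vx 0 1), ?_, fun u hu w => ?_⟩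
  · refine (PiLp.continuous_toLp 2 _).comp (continuous_pi fun i => ?_)
    show Continuous fun u => cTm K u (vx 0 1) (eI K i)
    rcases eI K i with w | ⟨w, j⟩
    · simp only [cTm]
      fun_prop
    · simp only [cTm]
      split_ifs <;> fun_prop
  · rw [lamK_Tm K (A1_Rl_real K hu), lamK_vx]
    unfold sg
    simp

theorem lamK_norm_le (v : EK K) (w : InfinitePlace K) : ‖lamK K w v‖ ≤ ‖v‖ := by
  have h1 : ‖lamK K w v‖ ^ 2 ≤ ‖v‖ ^ 2 := by
    rw [lamK_norm]
    have h2 : ‖lamK K w v‖ ^ 2 ≤ (mult w : ℝ) * ‖lamK K w v‖ ^ 2 := by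
      have h3 : (1 : ℝ) ≤ mult w := by exact_mod_cast (mult_pos (w := w))
      exact le_mul_of_one_le_left (by positivity) h3
    refine h2.trans ?_
    exact single_le_sum (f := fun w : InfinitePlace K => (mult w : ℝ) * ‖lamK K w v‖ ^ 2)
      (fun _ _ => by positivity) (mem_univ w)
  exact (pow_le_pow_iff_left₀ (norm_nonneg _) (norm_nonneg _) two_ne_zero).1 h1

theorem norm_le_lamK {v : EK K} {R : ℝ} (h : ∀ w, ‖lamK K w v‖ ≤ R) :
    ‖v‖ ^ 2 ≤ dg K * R ^ 2 := by
  rw [lamK_norm, ← sum_mult_real, sum_mul]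
  refine sum_le_sum fun w _ => ?_
  exact mul_le_mul_of_nonneg_left (pow_le_pow_left₀ (norm_nonneg _) (h w) 2) (by positivity)

theorem vc_add' (A : Matrix (Fin (dg K)) (Fin (dg K)) ℝ) (z z' : Fin (dg K) → ℤ) :
    vc A (z + z') = vc A z + vc A z' := by
  unfold vc
  rw [← WithLp.toLp_add, ← Matrix.mulVec_add]
  congr 2
  funext i
  simp [cz]

end Pool.Agent.T2H29.TA
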