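import Pool.Agent.T2H29.TA.Base

/-!
# The square of a Fourier transform
-/

set_option autoImplicit false
set_option linter.unusedSectionVars false

namespace Pool.Agent.T2H29.TA

open Finset NumberField NumberField.InfinitePlace Module MeasureTheory
open Pool.Agent.T2H29.SW
open scoped RealInnerProductSpace ContDiff

variable (K : Type) [Field K] [NumberField K]

lemma A6_sq {E : Type} [NormedAddCommGroup E] [InnerProductSpace ℝ E] [FiniteDimensional ℝ E]
    [MeasurableSpace E] [BorelSpace E] {F : E → ℂ} (hF : Continuous F) (hc : HasCompactSupport F) :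
    (∫ x, F x) * (starRingEnd ℂ) (∫ x, F x) = 2 ^ finrank ℝ E *
      ∫ w, ∫ z, F (z + w) * (starRingEnd ℂ) (F (z - w)) := by
  have h1 : ∀ y : E, ∫ x, F x = 2 ^ finrank ℝ E * ∫ w, F (y + (2 : ℝ) • w) := fun y => by
    rw [Measure.integral_comp_smul volume (fun x => F (y + x)) (2 : ℝ),
      integral_add_left_eq_self (fun x => F x) y, Complex.real_smul, ← mul_assoc, abs_of_pos
      (by positivity)]
    push_cast
    rw [mul_inv_cancel₀ (pow_ne_zero _ two_ne_zero), one_mul]
  have hint : Integrable (Function.uncurry fun (y w : E) =>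
      F (y + (2 : ℝ) • w) * (starRingEnd ℂ) (F y)) (volume.prod volume) := by
    refine Continuous.integrable_of_hasCompactSupport ?_ ?_
    · exact (hF.comp (by fun_prop)).mul (Complex.continuous_conj.comp (hF.comp continuous_fst))
    · refine HasCompactSupport.intro (K := (fun p : E × E => (p.1, (1 / 2 : ℝ) • (p.2 - p.1))) ''
        (tsupport F ×ˢ tsupport F)) ((hc.isCompact.prod hc.isCompact).image (by fun_prop)) ?_
      rintro ⟨y, w⟩ h
      simp only [Function.uncurry]
      by_contra hne
      apply h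
      have a := left_ne_zero_of_mul hne
      have b : F y ≠ 0 := fun hy => right_ne_zero_of_mul hne (by rw [hy, map_zero])
      refine ⟨(y, y + (2 : ℝ) • w), ⟨subset_tsupport _ b, subset_tsupport _ a⟩, ?_⟩
      simp only [add_sub_cancel_left, smul_smul]
      norm_num
  calc (∫ x, F x) * (starRingEnd ℂ) (∫ x, F x)
      = ∫ y, (∫ x, F x) * (starRingEnd ℂ) (F y) := by
        rw [← integral_conj, integral_const_mul]
    _ = ∫ y, (2 ^ finrank ℝ E * ∫ w, F (y + (2 : ℝ) • w) * (starRingEnd ℂ) (F y)) := by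
        refine integral_congr_ae (Filter.Eventually.of_forall fun y => ?_)
        simp only
        rw [integral_mul_const, ← mul_assoc, ← h1 y]
    _ = 2 ^ finrank ℝ E * ∫ w, ∫ y, F (y + (2 : ℝ) • w) * (starRingEnd ℂ) (F y) := by
        rw [integral_const_mul, integral_integral_swap hint]
    _ = 2 ^ finrank ℝ E * ∫ w, ∫ z, F (z + w) * (starRingEnd ℂ) (F (z - w)) := by
        congr 1
        refine integral_congr_ae (Filter.Eventually.of_forall fun w => ?_)
        simp only
        rw [← integral_sub_right_eq_self (fun y => F (y + (2 : ℝ) • w) * (starRingEnd ℂ) (F y)) w]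
        refine integral_congr_ae (Filter.Eventually.of_forall fun z => ?_)
        simp only
        rw [two_smul, ← add_assoc, sub_add_cancel]

theorem TTs {E : Type} [NormedAddCommGroup E] [InnerProductSpace ℝ E] [FiniteDimensional ℝ E]
    [MeasurableSpace E] [BorelSpace E] {U : E → ℂ} (hU : Continuous U) (hc : HasCompactSupport U)
    (ξ : E) : ‖FT U ξ‖ ^ 2 ≤ 2 ^ finrank ℝ E *
      ∫ w, ‖∫ z, U (z + w) * (starRingEnd ℂ) (U (z - w))‖ := by
  have hF : Continuous fun x => U x * e (-⟪x, ξ⟫) :=
    hU.mul (e_continuous.comp (continuous_id.inner continuous_const).neg)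
  have h1 := A6_sq hF hc.mul_right
  have h2 : ‖FT U ξ‖ ^ 2 = ‖(∫ x, U x * e (-⟪x, ξ⟫)) *
      (starRingEnd ℂ) (∫ x, U x * e (-⟪x, ξ⟫))‖ := by
    rw [norm_mul, RCLike.norm_conj, FT, sq]
  rw [h2, h1, norm_mul, norm_pow]
  have h3 : ‖(2 : ℂ)‖ = 2 := by simp
  rw [h3]
  refine mul_le_mul_of_nonneg_left ?_ (by positivity)
  refine (norm_integral_le_integral_norm _).trans (le_of_eq ?_)
  refine integral_congr_ae (Filter.Eventually.of_forall fun w => ?_)
  simp only
  have h4 : ∀ z : E, U (z + w) * e (-⟪z + w, ξ⟫) * (starRingEnd ℂ) (U (z - w) * e (-⟪z - w, ξ⟫)) =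
      e (-(2 * ⟪w, ξ⟫)) * (U (z + w) * (starRingEnd ℂ) (U (z - w))) := fun z => by
    rw [map_mul, e_conj]
    have h5 : e (-(2 * ⟪w, ξ⟫)) = e (-⟪z + w, ξ⟫) * e (- -⟪z - w, ξ⟫) := by
      rw [← e_add]
      congr 1
      rw [inner_add_left, inner_sub_left]
      ring
    rw [h5]
    ring
  simp only [h4]
  rw [integral_const_mul, norm_mul, e_norm, one_mul]

end Pool.Agent.T2H29.TA
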