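import Pool.Agent.T2H29.TA.A5
import Pool.Agent.T2H29.TA.A6

/-!
# Local Fourier integrals of characters
-/

set_option autoImplicit false
set_option linter.unusedSectionVars false

namespace Pool.Agent.T2H29.TA

open Finset NumberField NumberField.InfinitePlace Module MeasureTheory
open Pool.Agent.T2H29.SW
open scoped RealInnerProductSpace ContDiff

section
variable {E : Type} [NormedAddCommGroup E] [InnerProductSpace ℝ E] [FiniteDimensional ℝ E]
    [MeasurableSpace E] [BorelSpace E]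

/-- the integral over the shifts -/
theorem A10_abs {U : E → ℂ} (hU : Continuous U) (hc : HasCompactSupport U) {C L : ℝ}
    (hL : 0 < L)
    (h0 : ∀ w, ‖∫ z, U (z + w) * (starRingEnd ℂ) (U (z - w))‖ ≤ C)
    (h1 : ∀ w, (L * ‖w‖) ^ (finrank ℝ E + 1) *
      ‖∫ z, U (z + w) * (starRingEnd ℂ) (U (z - w))‖ ≤ C) (ξ : E) :
    ‖FT U ξ‖ ^ 2 ≤ 2 ^ finrank ℝ E * (2 ^ (finrank ℝ E + 1) * C *
      ∫ x : E, (1 + ‖x‖) ^ (-((finrank ℝ E : ℝ) + 1))) * (L ^ finrank ℝ E)⁻¹ := by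
  set n := finrank ℝ E with hn
  have hi : Integrable fun x : E => (1 + ‖x‖) ^ (-((n : ℝ) + 1)) :=
    integrable_one_add_norm (by rw [← hn]; linarith)
  have hi2 : Integrable fun x : E => (1 + ‖L • x‖) ^ (-((n : ℝ) + 1)) :=
    hi.comp_smul hL.ne'
  have h2 : ∀ w : E, ‖∫ z, U (z + w) * (starRingEnd ℂ) (U (z - w))‖ ≤
      2 ^ (n + 1) * C * (1 + ‖L • w‖) ^ (-((n : ℝ) + 1)) := by
    intro w
    have h3 : 0 < 1 + ‖L • w‖ := by positivity
    have e1 : (1 + ‖L • w‖) ^ (-((n : ℝ) + 1)) = ((1 + ‖L • w‖) ^ (n + 1))⁻¹ := by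
      rw [Real.rpow_neg h3.le]
      congr 1
      rw [← Real.rpow_natCast]
      congr 1
      push_cast
      ring
    rw [e1, le_mul_inv_iff₀ (by positivity)]
    have h4 := h0 w
    have h5 := h1 w
    set Y := ‖∫ z, U (z + w) * (starRingEnd ℂ) (U (z - w))‖ with hY
    have hY0 : 0 ≤ Y := norm_nonneg _
    have e2 : ‖L • w‖ = L * ‖w‖ := by rw [norm_smul, Real.norm_of_nonneg hL.le]
    rw [e2]
    have h6 : (1 + L * ‖w‖) ^ (n + 1) ≤ 2 ^ n * (1 + (L * ‖w‖) ^ (n + 1)) := by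
      have := add_pow_le (zero_le_one (α := ℝ)) (by positivity : 0 ≤ L * ‖w‖) (n + 1)
      simpa using this
    calc Y * (1 + L * ‖w‖) ^ (n + 1) ≤ Y * (2 ^ n * (1 + (L * ‖w‖) ^ (n + 1))) :=
          mul_le_mul_of_nonneg_left h6 hY0
      _ = 2 ^ n * (Y + (L * ‖w‖) ^ (n + 1) * Y) := by ring
      _ ≤ 2 ^ n * (C + C) := by gcongr
      _ = _ := by ring
  have h3 : ∫ w, ‖∫ z, U (z + w) * (starRingEnd ℂ) (U (z - w))‖ ≤
      2 ^ (n + 1) * C * ((L ^ n)⁻¹ * ∫ x : E, (1 + ‖x‖) ^ (-((n : ℝ) + 1))) := by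
    calc ∫ w, ‖∫ z, U (z + w) * (starRingEnd ℂ) (U (z - w))‖
        ≤ ∫ w : E, 2 ^ (n + 1) * C * (1 + ‖L • w‖) ^ (-((n : ℝ) + 1)) :=
          integral_mono_of_nonneg (Filter.Eventually.of_forall fun w => norm_nonneg _)
            (hi2.const_mul _) (Filter.Eventually.of_forall h2)
      _ = _ := by
          rw [integral_const_mul,
            Measure.integral_comp_smul volume (fun x : E => (1 + ‖x‖) ^ (-((n : ℝ) + 1))) L,
            smul_eq_mul, abs_of_pos (by positivity)]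
  calc ‖FT U ξ‖ ^ 2 ≤ _ := TTs hU hc ξ
    _ ≤ 2 ^ n * (2 ^ (n + 1) * C * ((L ^ n)⁻¹ * ∫ x : E, (1 + ‖x‖) ^ (-((n : ℝ) + 1)))) :=
        mul_le_mul_of_nonneg_left h3 (by positivity)
    _ = _ := by ring

end

/-- the cut-off on the unit sphere -/
theorem A10_kappa {E : Type} [NormedAddCommGroup E] [InnerProductSpace ℝ E]
    [FiniteDimensional ℝ E] : ∃ κ : E → ℝ, ContDiff ℝ ∞ κ ∧
    (∀ x, κ x ≠ 0 → 1 / 2 ≤ ‖x‖ ^ 2 ∧ ‖x‖ ^ 2 ≤ 3 / 2) ∧ ∀ x, ‖x‖ = 1 → κ x = 1 := by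
  set f : ContDiffBump (1 : ℝ) := ⟨1 / 4, 1 / 2, by norm_num, by norm_num⟩ with hf
  refine ⟨fun x => f (‖x‖ ^ 2), f.contDiff.comp (contDiff_norm_sq ℝ), fun x hx => ?_,
    fun x hx => ?_⟩
  · have h1 : ‖x‖ ^ 2 ∈ Function.support (f : ℝ → ℝ) := hx
    rw [f.support_eq, Metric.mem_ball, Real.dist_eq, abs_lt] at h1
    have h2 : f.rOut = 1 / 2 := rfl
    rw [h2] at h1
    constructor <;> linarith [h1.1, h1.2]
  · refine f.one_of_mem_closedBall ?_
    simp only [hx]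
    norm_num

lemma A10_div {X : Type} [NormedAddCommGroup X] [NormedSpace ℝ X] {f g : X → ℂ} {s : Set X}
    (hf : ContDiffOn ℝ ∞ f s) (hg : ContDiffOn ℝ ∞ g s) (h0 : ∀ x ∈ s, g x ≠ 0) :
    ContDiffOn ℝ ∞ (fun x => f x / g x) s := by
  simp only [div_eq_mul_inv]
  exact hf.mul (hg.inv h0)

/-- the structure of a local field -/
structure A10LF {E J : Type} [NormedAddCommGroup E] [InnerProductSpace ℝ E] [Fintype J]
    (ι : E →L[ℝ] ℂ) (v : J → E) (a : J → ℂ) : Prop where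
  nrm : ∀ x, ‖ι x‖ = ‖x‖
  hmul : ∀ x y, ∃ z, ι z = ι x * ι y
  hdiv : ∀ x y, ∃ z, ι z = ι x / ι y
  hX : ∀ x, ∑ j, a j * (((ι x * ι (v j)).re : ℝ) : ℂ) = ι x

section
variable {E J : Type} [NormedAddCommGroup E] [InnerProductSpace ℝ E] [FiniteDimensional ℝ E]
    [MeasurableSpace E] [BorelSpace E] [Fintype J] {ι : E →L[ℝ] ℂ} {v : J → E} {a : J → ℂ}

lemma A10LF.ne (h : A10LF ι v a) {x : E} (hx : x ≠ 0) : ι x ≠ 0 := by
  rw [← norm_ne_zero_iff, h.nrm, norm_ne_zero_iff]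
  exact hx

/-- the differentiation property of a character with parameter `c0` -/
def A10Ch (ι : E →L[ℝ] ℂ) (u : ℂ → ℂ) (c0 : E) : Prop :=
  (∀ z, ‖u z‖ ≤ 1) ∧ ∀ x : E, x ≠ 0 → ∃ u' : E →L[ℝ] ℂ, HasFDerivAt (fun x => u (ι x)) u' x ∧
    ∀ w, u' w = u (ι x) * (Complex.I * (((ι c0 * (ι w / ι x)).re : ℝ) : ℂ))

/-- decay at the frequency zero -/
theorem A10_dec (h : A10LF ι v a) {g : ℂ → ℂ} (hg : CIg {z | z ≠ 0} g) (N : ℕ) :
    ∃ C : ℝ, 0 ≤ C ∧ ∀ (u : ℂ → ℂ) (c0 : E), A10Ch ι u c0 → c0 ≠ 0 →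
      ‖c0‖ ^ N * ‖∫ x, u (ι x) * g (ι x)‖ ≤ C := by
  obtain ⟨κ, hκ1, hκ2, hκ3⟩ := A10_kappa (E := E)
  set Ω : Set (E × E) := {q | q.1 ≠ 0 ∧ q.2 ≠ 0} with hΩ
  have hΩo : IsOpen Ω := (isOpen_ne_fun continuous_fst continuous_const).inter
    (isOpen_ne_fun continuous_snd continuous_const)
  set R : E × E → ℂ := fun q => ι q.1 / ι q.2 with hR
  have hRs : ContDiffOn ℝ ∞ R Ω := by
    have h1 : ContDiff ℝ ∞ fun q : E × E => ι q.1 := ι.contDiff.comp contDiff_fst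
    have h2 : ContDiff ℝ ∞ fun q : E × E => ι q.2 := ι.contDiff.comp contDiff_snd
    exact A10_div h1.contDiffOn h2.contDiffOn fun q hq => h.ne hq.2
  have hR0 : ∀ q ∈ Ω, R q ≠ 0 := fun q hq => div_ne_zero (h.ne hq.1) (h.ne hq.2)
  set G : E × E → ℂ := fun q => g (ι q.2) * ((κ q.1 : ℝ) : ℂ) with hG
  obtain ⟨Rg, hRg⟩ := hg.cs.isCompact.isBounded.subset_closedBall (0 : ℂ)
  have hgR : ∀ z, z ∈ tsupport g → ‖z‖ ≤ Rg := fun z hz => by
    have := hRg hz
    simpa using this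
  set S : Set (E × E) := {q | 1 / 2 ≤ ‖q.1‖ ^ 2 ∧ ‖q.1‖ ^ 2 ≤ 3 / 2 ∧ ι q.2 ∈ tsupport g} with hS
  have hSc : IsClosed S := by
    have c1 : Continuous fun q : E × E => ‖q.1‖ ^ 2 := by fun_prop
    refine IsClosed.inter (isClosed_le continuous_const c1)
      (IsClosed.inter (isClosed_le c1 continuous_const) ?_)
    exact (isClosed_tsupport g).preimage (ι.continuous.comp continuous_snd)
  have hGS : ∀ q, G q ≠ 0 → q ∈ S := by
    intro q hq
    have h1 : g (ι q.2) ≠ 0 := left_ne_zero_of_mul hq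
    have h2 : κ q.1 ≠ 0 := by
      have := right_ne_zero_of_mul hq
      exact_mod_cast this
    obtain ⟨h3, h4⟩ := hκ2 _ h2
    exact ⟨h3, h4, subset_tsupport _ h1⟩
  have hSb : S ⊆ Metric.closedBall 0 (max Rg 2) := by
    intro q hq
    rw [mem_closedBall_zero_iff, Prod.norm_def]
    refine max_le ?_ ?_
    · refine le_max_of_le_right ?_
      have := hq.2.1
      nlinarith [norm_nonneg q.1]
    · refine le_max_of_le_left ?_
      rw [← h.nrm]
      exact hgR _ hq.2.2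
  have hGC : CIg Ω G := by
    refine ⟨?_, ?_, ?_⟩
    · have h1 : ContDiff ℝ ∞ fun q : E × E => g (ι q.2) :=
        hg.sm.comp (ι.contDiff.comp contDiff_snd)
      have h2 : ContDiff ℝ ∞ fun q : E × E => ((κ q.1 : ℝ) : ℂ) :=
        Complex.ofRealCLM.contDiff.comp (hκ1.comp contDiff_fst)
      exact h1.mul h2
    · refine HasCompactSupport.intro (isCompact_closedBall (0 : E × E) (max Rg 2)) fun q hq => ?_
      by_contra hne
      exact hq (hSb (hGS q hne))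
    · have h1 : tsupport G ⊆ S := closure_minimal (fun q hq => hGS q hq) hSc
      refine h1.trans fun q hq => ?_
      refine ⟨fun h0 => ?_, fun h0 => ?_⟩
      · have := hq.1
        rw [h0, norm_zero] at this
        norm_num at this
      · have h2 := hg.ts hq.2.2
        rw [h0, map_zero] at h2
        exact h2 rfl
  obtain ⟨C, hC0, hC⟩ := NS (volume : Measure E) v a hΩo hRs hR0 N hGC
  refine ⟨C, hC0, fun u c0 hu hc0 => ?_⟩
  have hl : 0 < ‖c0‖ := norm_pos_iff.2 hc0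
  set e0 : E := ‖c0‖⁻¹ • c0 with he0
  have he1 : ‖e0‖ = 1 := by
    rw [he0, norm_smul, norm_inv, norm_norm, inv_mul_cancel₀ hl.ne']
  have he2 : ι c0 = (‖c0‖ : ℂ) * ι e0 := by
    rw [he0, map_smul, Complex.real_smul, ← mul_assoc, ← Complex.ofReal_mul,
      mul_inv_cancel₀ hl.ne', Complex.ofReal_one, one_mul]
  have h1 := hC e0 ‖c0‖ (fun x => u (ι x)) hl (fun z => hu.1 _) (fun z hz => ?_)
  · have e1 : (fun z => u (ι z) * G (e0, z)) = fun x => u (ι x) * g (ι x) := by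
      funext z
      simp only [hG]
      rw [hκ3 _ he1]
      simp
    rw [e1] at h1
    exact h1
  · obtain ⟨u', hu1, hu2⟩ := hu.2 z hz.2
    refine ⟨u', hu1, ?_⟩
    obtain ⟨y, hy⟩ := h.hdiv e0 z
    have e1 : ∀ j, u' (v j) = u (ι z) * Complex.I * ‖c0‖ *
        (((ι y * ι (v j)).re : ℝ) : ℂ) := by
      intro j
      rw [hu2, hy, he2]
      have : (((‖c0‖ : ℂ) * ι e0 * (ι (v j) / ι z)).re : ℝ) =
          ‖c0‖ * (ι e0 / ι z * ι (v j)).re := by
        rw [← Complex.re_ofReal_mul]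
        congr 1
        ring
      rw [this]
      push_cast
      ring
    calc ∑ j, a j * u' (v j) = u (ι z) * Complex.I * ‖c0‖ *
          ∑ j, a j * (((ι y * ι (v j)).re : ℝ) : ℂ) := by
          rw [mul_sum]
          refine sum_congr rfl fun j _ => ?_
          rw [e1]
          ring
      _ = _ := by
          rw [h.hX, hy]
          simp only [hR]
          ring

/-- the supremum bound -/
theorem A10_sup (h : A10LF ι v a) {g : ℂ → ℂ} (hg : CIg {z | z ≠ 0} g) :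
    ∃ C : ℝ, 0 ≤ C ∧ ∀ (u : ℂ → ℂ) (c0 : E), A10Ch ι u c0 → c0 ≠ 0 →
      Continuous (fun x => u (ι x) * g (ι x)) → ∀ ξ : E,
      ‖FT (fun x => u (ι x) * g (ι x)) ξ‖ ^ 2 ≤ C * (‖c0‖ ^ finrank ℝ E)⁻¹ := by
  obtain ⟨κ, hκ1, hκ2, hκ3⟩ := A10_kappa (E := E)
  set n := finrank ℝ E with hn
  set Ω : Set ((E × E) × E) := {q | q.1.2 ≠ 0 ∧ q.2 + q.1.1 ≠ 0 ∧ q.2 - q.1.1 ≠ 0} with hΩ
  have hΩo : IsOpen Ω := by
    refine (isOpen_ne_fun (by fun_prop) continuous_const).inter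
      ((isOpen_ne_fun (by fun_prop) continuous_const).inter
      (isOpen_ne_fun (by fun_prop) continuous_const))
  set R : (E × E) × E → ℂ := fun q => ι ((-2 : ℝ) • q.1.2) / ι (q.2 + q.1.1) / ι (q.2 - q.1.1)
    with hR
  have hp : ContDiff ℝ ∞ fun q : (E × E) × E => ι (q.2 + q.1.1) :=
    ι.contDiff.comp (contDiff_snd.add (contDiff_fst.comp contDiff_fst))
  have hm : ContDiff ℝ ∞ fun q : (E × E) × E => ι (q.2 - q.1.1) :=
    ι.contDiff.comp (contDiff_snd.sub (contDiff_fst.comp contDiff_fst))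
  have hRs : ContDiffOn ℝ ∞ R Ω := by
    have h1 : ContDiff ℝ ∞ fun q : (E × E) × E => ι ((-2 : ℝ) • q.1.2) :=
      ι.contDiff.comp ((contDiff_snd.comp contDiff_fst).const_smul _)
    exact A10_div (A10_div h1.contDiffOn hp.contDiffOn fun q hq => h.ne hq.2.1) hm.contDiffOn
      fun q hq => h.ne hq.2.2
  have hR0 : ∀ q ∈ Ω, R q ≠ 0 := fun q hq =>
    div_ne_zero (div_ne_zero (h.ne (smul_ne_zero (by norm_num) hq.1)) (h.ne hq.2.1))
      (h.ne hq.2.2)
  set G : (E × E) × E → ℂ := fun q => g (ι (q.2 + q.1.1)) *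
    (starRingEnd ℂ) (g (ι (q.2 - q.1.1))) * ((κ q.1.2 : ℝ) : ℂ) with hG
  obtain ⟨Rg, hRg⟩ := hg.cs.isCompact.isBounded.subset_closedBall (0 : ℂ)
  have hgR : ∀ z, z ∈ tsupport g → ‖z‖ ≤ Rg := fun z hz => by
    have := hRg hz
    simpa using this
  set S : Set ((E × E) × E) := {q | 1 / 2 ≤ ‖q.1.2‖ ^ 2 ∧ ‖q.1.2‖ ^ 2 ≤ 3 / 2 ∧
    ι (q.2 + q.1.1) ∈ tsupport g ∧ ι (q.2 - q.1.1) ∈ tsupport g} with hS
  have hSc : IsClosed S := by
    have c1 : Continuous fun q : (E × E) × E => ‖q.1.2‖ ^ 2 := by fun_prop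
    refine IsClosed.inter (isClosed_le continuous_const c1)
      (IsClosed.inter (isClosed_le c1 continuous_const) (IsClosed.inter ?_ ?_))
    · exact (isClosed_tsupport g).preimage hp.continuous
    · exact (isClosed_tsupport g).preimage hm.continuous
  have hGS : ∀ q, G q ≠ 0 → q ∈ S := by
    intro q hq
    have h0 := left_ne_zero_of_mul hq
    have h1 : g (ι (q.2 + q.1.1)) ≠ 0 := left_ne_zero_of_mul h0
    have h1' : g (ι (q.2 - q.1.1)) ≠ 0 := by
      have := right_ne_zero_of_mul h0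
      exact (map_ne_zero _).1 this
    have h2 : κ q.1.2 ≠ 0 := by
      have := right_ne_zero_of_mul hq
      exact_mod_cast this
    obtain ⟨h3, h4⟩ := hκ2 _ h2
    exact ⟨h3, h4, subset_tsupport _ h1, subset_tsupport _ h1'⟩
  have hSb : S ⊆ Metric.closedBall 0 (max Rg 2) := by
    intro q hq
    have h1 : ‖q.2 + q.1.1‖ ≤ Rg := by
      rw [← h.nrm]
      exact hgR _ hq.2.2.1
    have h2 : ‖q.2 - q.1.1‖ ≤ Rg := by
      rw [← h.nrm]
      exact hgR _ hq.2.2.2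
    have h3 : ‖q.2‖ ≤ Rg := by
      have e1 : (2 : ℝ) • q.2 = (q.2 + q.1.1) + (q.2 - q.1.1) := by
        rw [two_smul]
        abel
      have e2 : 2 * ‖q.2‖ = ‖(q.2 + q.1.1) + (q.2 - q.1.1)‖ := by
        rw [← e1, norm_smul]
        norm_num
      have := norm_add_le (q.2 + q.1.1) (q.2 - q.1.1)
      linarith
    have h4 : ‖q.1.1‖ ≤ Rg := by
      have e1 : (2 : ℝ) • q.1.1 = (q.2 + q.1.1) - (q.2 - q.1.1) := by
        rw [two_smul]
        abel
      have e2 : 2 * ‖q.1.1‖ = ‖(q.2 + q.1.1) - (q.2 - q.1.1)‖ := by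
        rw [← e1, norm_smul]
        norm_num
      have := norm_sub_le (q.2 + q.1.1) (q.2 - q.1.1)
      linarith
    rw [mem_closedBall_zero_iff, Prod.norm_def, Prod.norm_def]
    refine max_le (max_le ?_ ?_) ?_
    · exact le_max_of_le_left h4
    · refine le_max_of_le_right ?_
      have := hq.2.1
      nlinarith [norm_nonneg q.1.2]
    · exact le_max_of_le_left h3
  have hGC : CIg Ω G := by
    refine ⟨?_, ?_, ?_⟩
    · have h1 : ContDiff ℝ ∞ fun q : (E × E) × E => g (ι (q.2 + q.1.1)) := hg.sm.comp hp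
      have h1' : ContDiff ℝ ∞ fun q : (E × E) × E => (starRingEnd ℂ) (g (ι (q.2 - q.1.1))) :=
        Complex.conjCLE.contDiff.comp (hg.sm.comp hm)
      have h2 : ContDiff ℝ ∞ fun q : (E × E) × E => ((κ q.1.2 : ℝ) : ℂ) :=
        Complex.ofRealCLM.contDiff.comp (hκ1.comp (contDiff_snd.comp contDiff_fst))
      exact (h1.mul h1').mul h2
    · refine HasCompactSupport.intro (isCompact_closedBall (0 : (E × E) × E) (max Rg 2))
        fun q hq => ?_
      by_contra hne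
      exact hq (hSb (hGS q hne))
    · have h1 : tsupport G ⊆ S := closure_minimal (fun q hq => hGS q hq) hSc
      refine h1.trans fun q hq => ?_
      refine ⟨fun h0 => ?_, fun h0 => ?_, fun h0 => ?_⟩
      · have := hq.1
        rw [h0, norm_zero] at this
        norm_num at this
      · have h2 := hg.ts hq.2.2.1
        rw [h0, map_zero] at h2
        exact h2 rfl
      · have h2 := hg.ts hq.2.2.2
        rw [h0, map_zero] at h2
        exact h2 rfl
  obtain ⟨C1, hC10, hC1⟩ := NS (volume : Measure E) v a hΩo hRs hR0 (n + 1) hGC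
  -- the trivial bound
  have hgc : Continuous fun x : E => g (ι x) := hg.sm.continuous.comp ι.continuous
  have hgcs : HasCompactSupport fun x : E => g (ι x) := by
    refine HasCompactSupport.intro (isCompact_closedBall (0 : E) Rg) fun x hx => ?_
    by_contra hne
    refine hx ?_
    rw [mem_closedBall_zero_iff, ← h.nrm]
    exact hgR _ (subset_tsupport _ hne)
  obtain ⟨M, hM⟩ := hgc.bounded_above_of_compact_support hgcs
  have hM0 : 0 ≤ M := (norm_nonneg _).trans (hM 0)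
  have hgi : Integrable fun x : E => ‖g (ι x)‖ :=
    (hgc.integrable_of_hasCompactSupport hgcs).norm
  set I0 := ∫ x : E, ‖g (ι x)‖ with hI0
  have hI00 : 0 ≤ I0 := integral_nonneg fun x => norm_nonneg _
  set C := C1 + M * I0 with hC
  have hC0 : 0 ≤ C := by positivity
  refine ⟨2 ^ n * (2 ^ (n + 1) * C * ∫ x : E, (1 + ‖x‖) ^ (-((n : ℝ) + 1))), ?_,
    fun u c0 hu hc0 hcont ξ => ?_⟩
  · have : 0 ≤ ∫ x : E, (1 + ‖x‖) ^ (-((n : ℝ) + 1)) := integral_nonneg fun x => by positivity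
    positivity
  have hl : 0 < ‖c0‖ := norm_pos_iff.2 hc0
  refine A10_abs hcont hgcs.mul_left hl (fun w => ?_) (fun w => ?_) ξ
  · have h1 : ∀ z, ‖u (ι (z + w)) * g (ι (z + w)) *
        (starRingEnd ℂ) (u (ι (z - w)) * g (ι (z - w)))‖ ≤ M * ‖g (ι (z + w))‖ := by
      intro z
      rw [norm_mul, norm_mul, RCLike.norm_conj, norm_mul]
      have h2 := hu.1 (ι (z + w))
      have h3 := hu.1 (ι (z - w))
      have h4 := hM (z - w)
      calc ‖u (ι (z + w))‖ * ‖g (ι (z + w))‖ * (‖u (ι (z - w))‖ * ‖g (ι (z - w))‖)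
          ≤ 1 * ‖g (ι (z + w))‖ * (1 * M) := by gcongr
        _ = _ := by ring
    calc ‖∫ z, u (ι (z + w)) * g (ι (z + w)) *
          (starRingEnd ℂ) (u (ι (z - w)) * g (ι (z - w)))‖
        ≤ ∫ z, M * ‖g (ι (z + w))‖ :=
          norm_integral_le_of_norm_le ((hgi.comp_add_right w).const_mul M)
            (Filter.Eventually.of_forall h1)
      _ = M * I0 := by
          rw [integral_const_mul, integral_add_right_eq_self (fun x => ‖g (ι x)‖) w]
      _ ≤ C := by linarith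
  · by_cases hw : w = 0
    · rw [hw, norm_zero, mul_zero, zero_pow (by omega), zero_mul]
      exact hC0
    have hw0 : 0 < ‖w‖ := norm_pos_iff.2 hw
    obtain ⟨y0, hy0⟩ := h.hmul c0 w
    have hlam : 0 < ‖c0‖ * ‖w‖ := by positivity
    set lam := ‖c0‖ * ‖w‖ with hlamd
    set e0 : E := lam⁻¹ • y0 with he0
    have he1 : ‖e0‖ = 1 := by
      rw [he0, norm_smul, ← h.nrm y0, hy0, norm_mul, h.nrm, h.nrm, norm_inv,
        Real.norm_of_nonneg hlam.le, ← hlamd, inv_mul_cancel₀ hlam.ne']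
    have he2 : ι c0 * ι w = (lam : ℂ) * ι e0 := by
      rw [he0, map_smul, Complex.real_smul, ← mul_assoc, ← Complex.ofReal_mul,
        mul_inv_cancel₀ hlam.ne', Complex.ofReal_one, one_mul, hy0]
    have h1 := hC1 (w, e0) lam (fun x => u (ι (x + w)) * (starRingEnd ℂ) (u (ι (x - w)))) hlam
      (fun z => ?_) (fun z hz => ?_)
    · have e1 : (fun z => u (ι (z + w)) * (starRingEnd ℂ) (u (ι (z - w))) * G ((w, e0), z)) =
          fun z => u (ι (z + w)) * g (ι (z + w)) *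
          (starRingEnd ℂ) (u (ι (z - w)) * g (ι (z - w))) := by
        funext z
        simp only [hG]
        rw [hκ3 _ he1, map_mul]
        simp only [Complex.ofReal_one]
        ring
      rw [e1] at h1
      refine h1.trans ?_
      have : 0 ≤ M * I0 := by positivity
      linarith
    · rw [norm_mul, RCLike.norm_conj]
      exact mul_le_one₀ (hu.1 _) (norm_nonneg _) (hu.1 _)
    · obtain ⟨-, hz1, hz2⟩ := hz
      simp only at hz1 hz2
      obtain ⟨u1, hu1, hu1'⟩ := hu.2 _ hz1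
      obtain ⟨u2, hu2, hu2'⟩ := hu.2 _ hz2
      have hd1 : HasFDerivAt (fun x => u (ι (x + w))) u1 z :=
        (hasFDerivAt_comp_add_right (f := fun x => u (ι x)) w).2 hu1
      have hd2 : HasFDerivAt (fun x => u (ι (x - w))) u2 z :=
        (hasFDerivAt_comp_sub (f := fun x => u (ι x)) w).2 hu2
      have hd3 : HasFDerivAt (fun x => (starRingEnd ℂ) (u (ι (x - w))))
          ((Complex.conjCLE : ℂ →L[ℝ] ℂ).comp u2) z :=
        (Complex.conjCLE : ℂ →L[ℝ] ℂ).hasFDerivAt.comp z hd2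
      have hd4 := hd1.mul hd3
      refine ⟨_, hd4, ?_⟩
      obtain ⟨y1, hy1⟩ := h.hdiv ((-2 : ℝ) • e0) (z + w)
      obtain ⟨y, hy⟩ := h.hdiv y1 (z - w)
      have hi1 := h.ne hz1
      have hi2 := h.ne hz2
      have e1 : ∀ j, (u (ι (z + w)) • ((Complex.conjCLE : ℂ →L[ℝ] ℂ).comp u2) +
          (starRingEnd ℂ) (u (ι (z - w))) • u1) (v j) = u (ι (z + w)) *
          (starRingEnd ℂ) (u (ι (z - w))) * Complex.I * lam *
          (((ι y * ι (v j)).re : ℝ) : ℂ) := by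
        intro j
        simp only [add_apply, _root_.smul_apply, ContinuousLinearMap.comp_apply, smul_eq_mul]
        rw [hu1', hu2']
        have e3 : (Complex.conjCLE : ℂ →L[ℝ] ℂ) (u (ι (z - w)) * (Complex.I *
            (((ι c0 * (ι (v j) / ι (z - w))).re : ℝ) : ℂ))) =
            (starRingEnd ℂ) (u (ι (z - w))) * (-Complex.I *
            (((ι c0 * (ι (v j) / ι (z - w))).re : ℝ) : ℂ)) := by
          change (starRingEnd ℂ) _ = _
          rw [map_mul, map_mul, Complex.conj_I, Complex.conj_ofReal]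
        rw [e3]
        have e4 : (lam : ℝ) * (ι y * ι (v j)).re = (ι c0 * (ι (v j) / ι (z + w))).re -
            (ι c0 * (ι (v j) / ι (z - w))).re := by
          rw [← Complex.re_ofReal_mul, ← Complex.sub_re]
          congr 1
          rw [hy, hy1, map_smul, Complex.real_smul]
          have e5 : ι (z - w) = ι (z + w) - 2 * ι w := by
            rw [map_sub, map_add]
            ring
          have e6 : (lam : ℂ) * (((-2 : ℝ) : ℂ) * ι e0 / ι (z + w) / ι (z - w) * ι (v j)) =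
              -2 * ((lam : ℂ) * ι e0) / ι (z + w) / ι (z - w) * ι (v j) := by
            push_cast
            ring
          rw [e6, ← he2]
          field_simp
          rw [e5]
          ring
        have e7 : (lam : ℂ) * (((ι y * ι (v j)).re : ℝ) : ℂ) =
            (((ι c0 * (ι (v j) / ι (z + w))).re : ℝ) : ℂ) -
            (((ι c0 * (ι (v j) / ι (z - w))).re : ℝ) : ℂ) := by
          rw [← Complex.ofReal_mul, e4, Complex.ofReal_sub]
        linear_combination (-(u (ι (z + w)) * (starRingEnd ℂ) (u (ι (z - w))) * Complex.I)) * e7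
      calc ∑ j, a j * (u (ι (z + w)) • ((Complex.conjCLE : ℂ →L[ℝ] ℂ).comp u2) +
          (starRingEnd ℂ) (u (ι (z - w))) • u1) (v j) = u (ι (z + w)) *
            (starRingEnd ℂ) (u (ι (z - w))) * Complex.I * lam *
            ∑ j, a j * (((ι y * ι (v j)).re : ℝ) : ℂ) := by
            rw [mul_sum]
            refine sum_congr rfl fun j _ => ?_
            rw [e1]
            ring
        _ = _ := by
            rw [h.hX, hy, hy1]
            ring

end

lemma A10_lfR : A10LF (E := ℝ) (J := Unit) Complex.ofRealCLM (fun _ => 1) (fun _ => 1) := by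
  refine ⟨fun x => by simp, fun x y => ⟨x * y, by simp⟩, fun x y => ⟨x / y, by simp⟩,
    fun x => ?_⟩
  simp

lemma A10_lfC : A10LF (E := ℂ) (J := Fin 2) (ContinuousLinearMap.id ℝ ℂ) ![1, Complex.I]
    ![1, -Complex.I] := by
  refine ⟨fun x => rfl, fun x y => ⟨x * y, rfl⟩, fun x y => ⟨x / y, rfl⟩, fun x => ?_⟩
  rw [Fin.sum_univ_two]
  apply Complex.ext
  · simp
  · simp

lemma A10_chR (k : ℤ) (τ : ℝ) : A10Ch Complex.ofRealCLM (uu k τ) τ := by
  refine ⟨uu_norm k τ, fun x hx => ?_⟩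
  have hx' : (x : ℂ) ≠ 0 := by exact_mod_cast hx
  obtain ⟨u', h1, h2⟩ := uu_deriv k τ hx'
  refine ⟨u'.comp Complex.ofRealCLM, HasFDerivAt.comp x h1 Complex.ofRealCLM.hasFDerivAt,
    fun w => ?_⟩
  simp only [ContinuousLinearMap.comp_apply, Complex.ofRealCLM_apply, h2]
  rw [← Complex.ofReal_div, Complex.ofReal_re, ← Complex.ofReal_mul, Complex.ofReal_re]
  push_cast
  ring

lemma A10_chC (k : ℤ) (τ : ℝ) : A10Ch (ContinuousLinearMap.id ℝ ℂ) (uu k τ)
    ((τ : ℂ) - k * Complex.I) := by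
  refine ⟨uu_norm k τ, fun x hx => ?_⟩
  obtain ⟨u', h1, h2⟩ := uu_deriv k τ hx
  refine ⟨u', h1, fun w => ?_⟩
  simp only [ContinuousLinearMap.id_apply, h2]
  congr 1
  apply Complex.ext
  · simp
  · simp
    ring

lemma A10_famR : Fam (E := ℝ) (Θ := ℤ × ℝ) (Λ := Unit) (fun θ x => uu θ.1 θ.2 (x : ℂ))
    (fun θ => 1 + |θ.2|) {x | x ≠ 0} (fun θ _ => Complex.I * θ.2)
    (fun _ w x => ((w / x : ℝ) : ℂ)) := by
  refine ⟨isOpen_ne, fun θ => ?_, fun θ x => uu_norm _ _ _, fun θ x hx => ?_, fun l w => ?_,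
    fun θ l => ?_⟩
  · have := abs_nonneg θ.2
    linarith
  · obtain ⟨u', h1, h2⟩ := (A10_chR θ.1 θ.2).2 x hx
    refine ⟨u', h1, fun w => ?_⟩
    rw [h2]
    simp only [univ_unique, sum_singleton, Complex.ofRealCLM_apply]
    rw [← Complex.ofReal_div, ← Complex.ofReal_mul, Complex.ofReal_re]
    push_cast
    ring
  · have h1 : ContDiffOn ℝ ∞ (fun x : ℝ => w / x) {x | x ≠ 0} :=
      contDiffOn_const.div contDiffOn_id fun x hx => hx
    exact Complex.ofRealCLM.contDiff.comp_contDiffOn h1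
  · rw [norm_mul, Complex.norm_I, Complex.norm_real, Real.norm_eq_abs]
    linarith

lemma A10_famC : Fam (E := ℂ) (Θ := ℤ × ℝ) (Λ := Fin 2) (fun θ => uu θ.1 θ.2)
    (fun θ => 1 + (|(θ.1 : ℝ)| + |θ.2|)) {x | x ≠ 0}
    (fun θ => ![(θ.1 : ℂ), Complex.I * θ.2 - θ.1])
    ![fun w x => w / x, fun w x => (((w / x).re : ℝ) : ℂ)] := by
  refine ⟨isOpen_ne, fun θ => ?_, fun θ x => uu_norm _ _ _, fun θ x hx => ?_, fun l w => ?_,
    fun θ l => ?_⟩
  · have := abs_nonneg θ.2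
    have := abs_nonneg (θ.1 : ℝ)
    linarith
  · obtain ⟨u', h1, h2⟩ := uu_deriv θ.1 θ.2 hx
    refine ⟨u', h1, fun w => ?_⟩
    rw [h2]
    simp [Fin.sum_univ_two]
  · have h1 : ContDiffOn ℝ ∞ (fun x : ℂ => w / x) {x | x ≠ 0} :=
      A10_div contDiffOn_const contDiffOn_id fun x hx => hx
    fin_cases l
    · exact h1
    · exact (Complex.ofRealCLM.comp Complex.reCLM).contDiff.comp_contDiffOn h1
  · have := abs_nonneg θ.2
    have := abs_nonneg (θ.1 : ℝ)
    have h3 : ‖(θ.1 : ℂ)‖ = |(θ.1 : ℝ)| := by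
      rw [← Complex.ofReal_intCast, Complex.norm_real, Real.norm_eq_abs]
    fin_cases l
    · change ‖(θ.1 : ℂ)‖ ≤ _
      rw [h3]
      linarith
    · change ‖Complex.I * θ.2 - θ.1‖ ≤ _
      refine (norm_sub_le _ _).trans ?_
      rw [h3, norm_mul, Complex.norm_I, Complex.norm_real, Real.norm_eq_abs]
      linarith

lemma A10_CIR {g : ℂ → ℂ} (hg : CIg {z | z ≠ 0} g) : CI {x : ℝ | x ≠ 0} fun x : ℝ => g x := by
  refine ⟨hg.sm.comp Complex.ofRealCLM.contDiff, ?_, ?_⟩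
  · exact hg.cs.comp_isClosedEmbedding Complex.isUniformEmbedding_ofReal.isClosedEmbedding
  · refine (tsupport_comp_subset_preimage g Complex.continuous_ofReal).trans fun x hx => ?_
    have h1 := hg.ts hx
    intro h0
    rw [h0] at h1
    exact h1 Complex.ofReal_zero

lemma A10_CIC {g : ℂ → ℂ} (hg : CIg {z | z ≠ 0} g) : CI {x : ℂ | x ≠ 0} g :=
  ⟨hg.sm, hg.cs, hg.ts⟩

lemma A10_FLR (f : ℂ → ℂ) (ζ : ℂ) : FL true f ζ = FT (fun x : ℝ => f x) ζ.re := by
  unfold FL LI FT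
  refine integral_congr_ae (Filter.Eventually.of_forall fun x => ?_)
  simp only [nr]
  congr 3
  simp

lemma A10_FLC (f : ℂ → ℂ) (ζ : ℂ) : FL false f ζ = FT f ((2 : ℝ) • ζ) := by
  unfold FL LI FT
  refine integral_congr_ae (Filter.Eventually.of_forall fun x => ?_)
  simp only [nr]
  congr 3
  rw [real_inner_smul_right, Complex.inner]
  simp

lemma A10_FT0 {E : Type} [NormedAddCommGroup E] [InnerProductSpace ℝ E] [FiniteDimensional ℝ E]
    [MeasurableSpace E] [BorelSpace E] (f : E → ℂ) : FT f 0 = ∫ x, f x := by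
  unfold FT
  refine integral_congr_ae (Filter.Eventually.of_forall fun x => ?_)
  simp [e]

lemma A10_sqrt {x C y : ℝ} (hx : 0 ≤ x) (hC : 0 ≤ C) (h : x ^ 2 ≤ C * y⁻¹) :
    x ≤ (√C + 1) * (√y)⁻¹ := by
  have h1 : x ≤ √C * (√y)⁻¹ := by
    rw [← Real.sqrt_sq hx, ← Real.sqrt_inv, ← Real.sqrt_mul hC]
    exact Real.sqrt_le_sqrt h
  have h2 : 0 ≤ (√y)⁻¹ := by positivity
  linarith

theorem sup0 (r : Bool) {g : ℂ → ℂ} (hg : CIg {z | z ≠ 0} g) : ∃ C : ℝ, 0 < C ∧
    ∀ (k : ℤ) (τ : ℝ) (ζ : ℂ), 1 ≤ |τ| →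
    ‖FL r (fun z => uu k τ z * g z) ζ‖ ≤ C * (√(|τ| ^ nr r))⁻¹ := by
  cases r with
  | true =>
    obtain ⟨C, hC0, hC⟩ := A10_sup A10_lfR hg
    refine ⟨√C + 1, by positivity, fun k τ ζ hτ => ?_⟩
    have hτ0 : τ ≠ 0 := fun h0 => by
      rw [h0, abs_zero] at hτ
      linarith
    rw [A10_FLR]
    refine A10_sqrt (norm_nonneg _) hC0 ?_
    have h1 := hC (uu k τ) τ (A10_chR k τ) hτ0 (A10_famR.cont (A10_CIR hg) (k, τ)) ζ.re
    simpa [nr] using h1
  | false =>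
    obtain ⟨C, hC0, hC⟩ := A10_sup A10_lfC hg
    refine ⟨√C + 1, by positivity, fun k τ ζ hτ => ?_⟩
    have h2 : |τ| ≤ ‖(τ : ℂ) - k * Complex.I‖ := by
      have := Complex.abs_re_le_norm ((τ : ℂ) - k * Complex.I)
      simpa using this
    have hc0 : (τ : ℂ) - k * Complex.I ≠ 0 := fun h0 => by
      rw [h0, norm_zero] at h2
      linarith
    rw [A10_FLC]
    refine A10_sqrt (norm_nonneg _) hC0 ?_
    have h1 := hC (uu k τ) _ (A10_chC k τ) hc0 (A10_famC.cont (A10_CIC hg) (k, τ)) ((2 : ℝ) • ζ)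
    refine h1.trans (mul_le_mul_of_nonneg_left ?_ hC0)
    rw [Complex.finrank_real_complex]
    refine inv_anti₀ (by positivity) ?_
    exact pow_le_pow_left₀ (abs_nonneg _) h2 2

theorem dec0 (r : Bool) {g : ℂ → ℂ} (hg : CIg {z | z ≠ 0} g) (N : ℕ) : ∃ C : ℝ, 0 < C ∧
    ∀ (k : ℤ) (τ : ℝ) (ζ : ℂ), Rl r ζ →
    (1 + ‖ζ‖) ^ N * ‖FL r (fun z => uu k τ z * g z) ζ‖ ≤ C * (1 + ‖cp r k τ‖) ^ N := by
  cases r with
  | true =>
    obtain ⟨C, hC0, hC⟩ := A10_famR.decay_all N (A10_CIR hg)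
    refine ⟨C + 1, by positivity, fun k τ ζ hζ => ?_⟩
    have h1 := hC (k, τ) ζ.re
    have h2 : ‖ζ‖ = ‖ζ.re‖ := by
      have h3 : ζ = (ζ.re : ℂ) := by
        apply Complex.ext
        · simp
        · simpa using hζ rfl
      nth_rewrite 1 [h3]
      rw [Complex.norm_real]
    rw [A10_FLR, h2]
    refine h1.trans ?_
    have h3 : ‖cp true k τ‖ = |τ| := by
      simp [cp]
    rw [h3]
    have : 0 ≤ (1 + |τ|) ^ N := by positivity
    simp only
    nlinarith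
  | false =>
    obtain ⟨C, hC0, hC⟩ := A10_famC.decay_all N (A10_CIC hg)
    refine ⟨C * 2 ^ N + 1, by positivity, fun k τ ζ hζ => ?_⟩
    have h1 := hC (k, τ) ((2 : ℝ) • ζ)
    rw [A10_FLC]
    have h2 : ‖ζ‖ ≤ ‖(2 : ℝ) • ζ‖ := by
      rw [norm_smul, Real.norm_of_nonneg (by norm_num : (0 : ℝ) ≤ 2)]
      linarith [norm_nonneg ζ]
    have h3 : |τ| ≤ ‖cp false k τ‖ := by
      have := Complex.abs_re_le_norm ((τ : ℂ) - k * Complex.I)
      simpa [cp] using this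
    have h4 : |(k : ℝ)| ≤ ‖cp false k τ‖ := by
      have := Complex.abs_im_le_norm ((τ : ℂ) - k * Complex.I)
      simpa [cp] using this
    have h5 : 1 + (|(k : ℝ)| + |τ|) ≤ 2 * (1 + ‖cp false k τ‖) := by linarith
    have h6 := abs_nonneg τ
    have h7 := abs_nonneg (k : ℝ)
    calc (1 + ‖ζ‖) ^ N * ‖FT (fun z => uu k τ z * g z) ((2 : ℝ) • ζ)‖
        ≤ (1 + ‖(2 : ℝ) • ζ‖) ^ N * ‖FT (fun z => uu k τ z * g z) ((2 : ℝ) • ζ)‖ := by
          gcongr
      _ ≤ C * (1 + (|(k : ℝ)| + |τ|)) ^ N := h1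
      _ ≤ C * (2 * (1 + ‖cp false k τ‖)) ^ N := by gcongr
      _ = C * 2 ^ N * (1 + ‖cp false k τ‖) ^ N := by rw [mul_pow]; ring
      _ ≤ _ := by
          have : 0 ≤ (1 + ‖cp false k τ‖) ^ N := by positivity
          nlinarith

theorem dec00 (r : Bool) {g : ℂ → ℂ} (hg : CIg {z | z ≠ 0} g) (N : ℕ) : ∃ C : ℝ, 0 < C ∧
    ∀ (k : ℤ) (τ : ℝ), 1 ≤ |τ| →
    |τ| ^ N * ‖FL r (fun z => uu k τ z * g z) 0‖ ≤ C := by
  cases r with
  | true =>
    obtain ⟨C, hC0, hC⟩ := A10_dec A10_lfR hg N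
    refine ⟨C + 1, by positivity, fun k τ hτ => ?_⟩
    have hτ0 : τ ≠ 0 := fun h0 => by
      rw [h0, abs_zero] at hτ
      linarith
    have h1 := hC (uu k τ) τ (A10_chR k τ) hτ0
    rw [A10_FLR, Complex.zero_re, A10_FT0]
    rw [Real.norm_eq_abs] at h1
    refine h1.trans (by linarith)
  | false =>
    obtain ⟨C, hC0, hC⟩ := A10_dec A10_lfC hg N
    refine ⟨C + 1, by positivity, fun k τ hτ => ?_⟩
    have h2 : |τ| ≤ ‖(τ : ℂ) - k * Complex.I‖ := by
      have := Complex.abs_re_le_norm ((τ : ℂ) - k * Complex.I)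
      simpa using this
    have hc0 : (τ : ℂ) - k * Complex.I ≠ 0 := fun h0 => by
      rw [h0, norm_zero] at h2
      linarith
    have h1 := hC (uu k τ) _ (A10_chC k τ) hc0
    rw [A10_FLC, smul_zero, A10_FT0]
    refine (mul_le_mul_of_nonneg_right (pow_le_pow_left₀ (abs_nonneg _) h2 N)
      (norm_nonneg _)).trans ?_
    refine h1.trans (by linarith)

end Pool.Agent.T2H29.TA
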