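import Pool.Agent.T2H29.TA.A11e

/-!
# Duality
-/

set_option autoImplicit false
set_option linter.unusedSectionVars false

namespace Pool.Agent.T2H29.TA

open Finset NumberField NumberField.InfinitePlace Module MeasureTheory
open Pool.Agent.T2H29.SW
open scoped RealInnerProductSpace ContDiff

variable (K : Type) [Field K] [NumberField K]

namespace A11

lemma vc_zero' (A : Matrix (Fin (dg K)) (Fin (dg K)) ℝ) : vc A 0 = 0 := by
  have := vc_add' K A 0 0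
  rw [add_zero] at this
  simpa using this

/-- the term at zero -/
lemma zero_term (N0 : ℕ) : ∃ C : ℝ, 0 < C ∧ ∀ (θ : Par (InfinitePlace K)) (T : ℝ),
    (∀ w, LC (tp K w) T (θ.1 w) (θ.2 w)) →
    ∏ w, ‖FL (tp K w) (fun z => uu (θ.1 w) (θ.2 w) z * ((bmp (‖z‖ ^ 2) : ℝ) : ℂ)) 0‖ ≤
      C * (2 / T) ^ N0 := by
  have hex := fun w : InfinitePlace K => dec00 (tp K w) b0_TB.CIg N0
  choose C hC0 hC using hex
  refine ⟨∏ w, C w, prod_pos fun w _ => hC0 w, fun θ T hL => ?_⟩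
  obtain ⟨w0⟩ := (inferInstance : Nonempty (InfinitePlace K))
  have hT2 : 2 ≤ T := (hL w0).1
  have hT0 : 0 < T := by linarith
  have h1 : ∀ w, ‖FL (tp K w) (fun z => uu (θ.1 w) (θ.2 w) z * ((bmp (‖z‖ ^ 2) : ℝ) : ℂ)) 0‖ ≤
      C w * (2 / T) ^ N0 := by
    intro w
    obtain ⟨-, hτ, -⟩ := hL w
    have h2 := hC w (θ.1 w) (θ.2 w) (by linarith)
    have h3 : (T / 2) ^ N0 ≤ |θ.2 w| ^ N0 := pow_le_pow_left₀ (by positivity) hτ _
    have h4 : (T / 2) ^ N0 * ‖FL (tp K w) (fun z => uu (θ.1 w) (θ.2 w) z *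
        ((bmp (‖z‖ ^ 2) : ℝ) : ℂ)) 0‖ ≤ C w :=
      (mul_le_mul_of_nonneg_right h3 (norm_nonneg _)).trans h2
    have h5 : (2 / T) ^ N0 = ((T / 2) ^ N0)⁻¹ := by rw [← inv_pow, inv_div]
    rw [h5, ← div_eq_mul_inv, le_div_iff₀ (by positivity), mul_comm]
    exact h4
  have h6 : (2 / T) ^ N0 ≤ 1 := pow_le_one₀ (by positivity) ((div_le_one hT0).2 hT2)
  have h7 : 0 ≤ (2 / T) ^ N0 := by positivity
  calc _ ≤ ∏ w, (C w * (2 / T) ^ N0) := prod_le_prod (fun w _ => norm_nonneg _) fun w _ => h1 w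
    _ = (∏ w, C w) * ((2 / T) ^ N0) ^ (Fintype.card (InfinitePlace K)) := by
        rw [prod_mul_distrib, prod_const, card_univ]
    _ ≤ _ := by
        refine mul_le_mul_of_nonneg_left ?_ (prod_nonneg fun w _ => (hC0 w).le)
        exact pow_le_of_le_one h7 h6 Fintype.card_ne_zero

lemma Mv_aP (A : Matrix (Fin (dg K)) (Fin (dg K)) ℝ) (P : InfinitePlace K → ℝ × ℝ) :
    Mv (aP K A P) = (Mv A)⁻¹ * ∏ w, Real.exp (mult w * (P w).1) := by
  unfold aP
  rw [Mv_Ds, Mv_du, ← Real.exp_sum]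
  congr 2
  rw [← sum_neg_distrib]
  refine sum_congr rfl fun w _ => ?_
  ring

/-- the bound of the integral -/
lemma main_int {B : ℝ} (h : CoreT K B) {ε : ℝ} (hε : 0 < ε) (A1 : ℕ) : ∃ C T0 : ℝ, 0 < C ∧
    2 ≤ T0 ∧ ∀ A, GB K B A → ∀ (θ : Par (InfinitePlace K)) (T : ℝ), T0 ≤ T →
    (∀ w, LC (tp K w) T (θ.1 w) (θ.2 w)) → ∀ v0 : EK K,
    ‖∫ P, cP K θ P * Xi K θ v0 A P‖ ≤ C * (√(Mv A)⁻¹ * T ^ ((dg K : ℝ) / 6 - 1 / 3000) *
        T ^ (-((dg K : ℝ) / 2) + (1 + ε) * (1 / 2) * dg K) +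
      (Mv A)⁻¹ * (8 * Real.pi / T) ^ A1 * T ^ (-((dg K : ℝ) / 2) + (1 + ε) * 1 * dg K) +
      (Mv A)⁻¹ ^ 501 * ((T ^ ((dg K : ℝ) * (1 / 2 + 1 / 1000))) ^ 500)⁻¹ *
        T ^ (-((dg K : ℝ) / 2) + (1 + ε) * 501 * dg K)) := by
  obtain ⟨Cx, T0, hCx0, hT0, hCx⟩ := Xi_bound K h A1
  obtain ⟨Ca, hCa0, hCa⟩ := int_wt K hε (a := 1 / 2) (by norm_num) 0
  obtain ⟨Cb, hCb0, hCb⟩ := int_wt K hε (a := 1) (by norm_num) A1
  obtain ⟨Cc, hCc0, hCc⟩ := int_wt K hε (a := 501) (by norm_num) 0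
  refine ⟨Cx * (Ca + Cb + Cc), T0, by positivity, hT0, fun A hA θ T hT hL v0 => ?_⟩
  have hTp : 0 < T := by linarith
  obtain ⟨hia, hIa⟩ := hCa θ T hL
  obtain ⟨hib, hIb⟩ := hCb θ T hL
  obtain ⟨hic, hIc⟩ := hCc θ T hL
  have hM : 0 < Mv A := Mv_pos hA.1
  set M := Mv A with hMdef
  set Ga : (InfinitePlace K → ℝ × ℝ) → ℝ := fun P => ∏ w, (‖mc (tp K w) (θ.1 w) (θ.2 w) (P w)‖ *
        (Real.exp (1 / 2 * mult w * (P w).1) * (1 + |(P w).2|) ^ 0)) with hGa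
  set Gb : (InfinitePlace K → ℝ × ℝ) → ℝ := fun P => ∏ w, (‖mc (tp K w) (θ.1 w) (θ.2 w) (P w)‖ *
        (Real.exp (1 * mult w * (P w).1) * (1 + |(P w).2|) ^ A1)) with hGb
  set Gc : (InfinitePlace K → ℝ × ℝ) → ℝ := fun P => ∏ w, (‖mc (tp K w) (θ.1 w) (θ.2 w) (P w)‖ *
        (Real.exp (501 * mult w * (P w).1) * (1 + |(P w).2|) ^ 0)) with hGc
  set t1 := √M⁻¹ * T ^ ((dg K : ℝ) / 6 - 1 / 3000) with ht1
  set t2 := M⁻¹ * (8 * Real.pi / T) ^ A1 with ht2
  set t3 := M⁻¹ ^ 501 * ((T ^ ((dg K : ℝ) * (1 / 2 + 1 / 1000))) ^ 500)⁻¹ with ht3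
  have ht10 : 0 ≤ t1 := by positivity
  have ht20 : 0 ≤ t2 := by
    have := Real.pi_pos
    positivity
  have ht30 : 0 ≤ t3 := by positivity
  have hb : ∀ P, ‖cP K θ P * Xi K θ v0 A P‖ ≤ Cx * (t1 * Ga P + t2 * Gb P + t3 * Gc P) := by
    intro P
    rw [norm_mul, cP_norm]
    have h1 := hCx A hA θ T hT hL v0 P
    rw [Mv_aP, ← hMdef] at h1
    set E := ∏ w : InfinitePlace K, Real.exp (mult w * (P w).1) with hE
    have hE0 : 0 < E := prod_pos fun w _ => Real.exp_pos _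
    have hE1 : √E = ∏ w : InfinitePlace K, Real.exp (1 / 2 * mult w * (P w).1) := by
      rw [hE, ← Real.exp_sum, ← Real.exp_sum, ← Real.exp_half, sum_div]
      congr 1
      refine sum_congr rfl fun w _ => ?_
      ring
    have hE2 : E = ∏ w : InfinitePlace K, Real.exp (1 * mult w * (P w).1) := by
      rw [hE]
      refine prod_congr rfl fun w _ => ?_
      rw [one_mul]
    have hE3 : E ^ 501 = ∏ w : InfinitePlace K, Real.exp (501 * mult w * (P w).1) := by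
      rw [hE, ← prod_pow]
      refine prod_congr rfl fun w _ => ?_
      rw [← Real.exp_nat_mul]
      congr 1
      push_cast
      ring
    set m := ∏ w, ‖mc (tp K w) (θ.1 w) (θ.2 w) (P w)‖ with hm
    have hm0 : 0 ≤ m := prod_nonneg fun w _ => norm_nonneg _
    have e1 : Ga P = m * √E := by
      rw [hE1, hm, hGa, ← prod_mul_distrib]
      refine prod_congr rfl fun w _ => ?_
      rw [pow_zero, mul_one]
    have e2 : Gb P = m * E * ∏ w, (1 + |(P w).2|) ^ A1 := by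
      rw [hE2, hm, hGb, ← prod_mul_distrib, ← prod_mul_distrib]
      refine prod_congr rfl fun w _ => ?_
      ring
    have e3 : Gc P = m * E ^ 501 := by
      rw [hE3, hm, hGc, ← prod_mul_distrib]
      refine prod_congr rfl fun w _ => ?_
      rw [pow_zero, mul_one]
    rw [Real.sqrt_mul (by positivity), mul_pow] at h1
    refine (mul_le_mul_of_nonneg_left h1 hm0).trans (le_of_eq ?_)
    rw [e1, e2, e3, ht1, ht2, ht3]
    ring
  have hig : Integrable fun P => Cx * (t1 * Ga P + t2 * Gb P + t3 * Gc P) :=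
    (((hia.const_mul t1).add (hib.const_mul t2)).add (hic.const_mul t3)).const_mul Cx
  have hq1 := Real.rpow_pos_of_pos hTp (-((dg K : ℝ) / 2) + (1 + ε) * (1 / 2) * dg K)
  have hq2 := Real.rpow_pos_of_pos hTp (-((dg K : ℝ) / 2) + (1 + ε) * 1 * dg K)
  have hq3 := Real.rpow_pos_of_pos hTp (-((dg K : ℝ) / 2) + (1 + ε) * 501 * dg K)
  set q1 := T ^ (-((dg K : ℝ) / 2) + (1 + ε) * (1 / 2) * dg K) with hq1d
  set q2 := T ^ (-((dg K : ℝ) / 2) + (1 + ε) * 1 * dg K) with hq2d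
  set q3 := T ^ (-((dg K : ℝ) / 2) + (1 + ε) * 501 * dg K) with hq3d
  calc ‖∫ P, cP K θ P * Xi K θ v0 A P‖ ≤ ∫ P, Cx * (t1 * Ga P + t2 * Gb P + t3 * Gc P) :=
        norm_integral_le_of_norm_le hig (Filter.Eventually.of_forall hb)
    _ = Cx * (t1 * (∫ P, Ga P) + t2 * (∫ P, Gb P) + t3 * ∫ P, Gc P) := by
        rw [integral_const_mul, integral_add _ (hic.const_mul t3), integral_add (hia.const_mul t1)
          (hib.const_mul t2), integral_const_mul, integral_const_mul, integral_const_mul]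
        exact (hia.const_mul t1).add (hib.const_mul t2)
    _ ≤ Cx * (t1 * (Ca * q1) + t2 * (Cb * q2) + t3 * (Cc * q3)) := by
        refine mul_le_mul_of_nonneg_left ?_ hCx0.le
        exact add_le_add (add_le_add (mul_le_mul_of_nonneg_left hIa ht10)
          (mul_le_mul_of_nonneg_left hIb ht20)) (mul_le_mul_of_nonneg_left hIc ht30)
    _ ≤ Cx * (t1 * ((Ca + Cb + Cc) * q1) + t2 * ((Ca + Cb + Cc) * q2) +
        t3 * ((Ca + Cb + Cc) * q3)) := by
        gcongr <;> linarith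
    _ = _ := by rw [ht1, ht2, ht3]; ring

end A11

open A11 in
theorem duality {B : ℝ} (hB : 1 ≤ B) (h : CoreT K B) : CoreD K B := by
  have hN1 : (1 : ℝ) ≤ dg K := by
    have : 1 ≤ dg K := NeZero.one_le
    exact_mod_cast this
  have hN0 : (0 : ℝ) < dg K := by linarith
  set ε : ℝ := 1 / (21000 * dg K) with hεd
  have hε : 0 < ε := by positivity
  have hεN : ε * dg K = 1 / 21000 := by
    rw [hεd]
    field_simp
  obtain ⟨C1, T1, hC10, hT1, hC1⟩ := h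
  obtain ⟨Cm, T2, hCm0, hT2, hCm⟩ := main_int K ⟨C1, T1, hC10, hT1, hC1⟩ hε (dg K + 1)
  obtain ⟨Cz, hCz0, hCz⟩ := zero_term K (5 * dg K)
  obtain ⟨c, hc0, hc⟩ := FT_prod K
  have hpi := Real.pi_pos
  refine ⟨C1 + c * Cz * 2 ^ (5 * dg K) + c * Cm * (1 + (8 * Real.pi) ^ (dg K + 1) + 1),
    max T1 T2, by positivity, hT1.trans (le_max_left _ _), ?_⟩
  intro A hA v0 θ T hT hθ hM5
  have hTT1 : T1 ≤ T := (le_max_left _ _).trans hT
  have hTT2 : T2 ≤ T := (le_max_right _ _).trans hT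
  have hT2' : 2 ≤ T := hT2.trans hTT2
  have hT0 : 0 < T := by linarith
  have hT1' : 1 ≤ T := by linarith
  have hL : ∀ w, LC (tp K w) T (θ.1 w) (θ.2 w) := fun w => ⟨hT2', (hθ w).1, (hθ w).2⟩
  have hM : 0 < Mv A := Mv_pos hA.1
  set M := Mv A with hMdef
  set X := T ^ ((dg K : ℝ) / 6 - 1 / 3500) with hXd
  have hX1 : 1 ≤ X := Real.one_le_rpow hT1' (by linarith)
  have hs0 : 0 ≤ √M := Real.sqrt_nonneg _
  have hR1 : 1 ≤ (1 + √M) * X := by nlinarith
  have hp1 : 0 ≤ c * Cz * 2 ^ (5 * dg K) := by positivity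
  have hp2 : 0 ≤ c * Cm * (1 + (8 * Real.pi) ^ (dg K + 1) + 1) := by positivity
  by_cases hcase : M ≤ T ^ ((dg K : ℝ) * (1 / 2 + 1 / 1000))
  · have h1 := hC1 A hA v0 0 θ T hTT1 (fun w => ⟨by linarith [(hθ w).1], by linarith [(hθ w).2]⟩) hcase
    simp only [inner_zero_left, e_zero, mul_one] at h1
    have h2 : T ^ ((dg K : ℝ) / 6 - 1 / 3000) ≤ X :=
      Real.rpow_le_rpow_of_exponent_le hT1' (by linarith)
    calc _ ≤ C1 * (1 + √M) * T ^ ((dg K : ℝ) / 6 - 1 / 3000) := h1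
      _ ≤ C1 * (1 + √M) * X := mul_le_mul_of_nonneg_left h2 (by positivity)
      _ = C1 * ((1 + √M) * X) := by ring
      _ ≤ (C1 + c * Cz * 2 ^ (5 * dg K) + c * Cm * (1 + (8 * Real.pi) ^ (dg K + 1) + 1)) *
          ((1 + √M) * X) := mul_le_mul_of_nonneg_right (by linarith) (by linarith)
      _ = _ := by ring
  · rw [not_le] at hcase
    obtain ⟨hsum, hpois⟩ := pois K hA.1 (Wt_sm K θ) (Wt_cs K θ) v0
    rw [hpois]
    set f : (Fin (dg K) → ℤ) → ℂ := fun ζ => e ⟪v0, vc (du A) ζ⟫ *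
      FT (Wt (lamK K) θ) (vc (du A) ζ) with hf
    have hfs : Summable f := by
      refine Summable.of_norm (hsum.congr fun ζ => ?_)
      simp only [hf]
      rw [norm_mul, e_norm, one_mul]
    have hFT : ∀ ξ, FT (Wt (lamK K) θ) ξ = (c : ℂ) * ∏ w, FL (tp K w)
        (fun z => uu (θ.1 w) (θ.2 w) z * ((bmp (‖z‖ ^ 2) : ℝ) : ℂ)) (lamK K w ξ) := fun ξ =>
      hc (fun w z => uu (θ.1 w) (θ.2 w) z * ((bmp (‖z‖ ^ 2) : ℝ) : ℂ)) ξ
    have hdA : GB K B (du A) := GB_du K hA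
    have hterm : ∀ ζ, (if ζ = 0 then 0 else f ζ) = (c : ℂ) * ∫ P, Fz K θ v0 A ζ P := by
      intro ζ
      split_ifs with hζ
      · rw [hζ]
        simp only [Fz_zero, integral_zero, mul_zero]
      · rw [(Fz_int K hL v0 A fun w => lam_ne K B hdA hζ w).2.1]
        simp only [hf]
        rw [hFT]
        ring
    have hsplit : ∑' ζ, f ζ = f 0 + (c : ℂ) * ∫ P, cP K θ P * Xi K θ v0 A P := by
      rw [hfs.tsum_eq_add_tsum_ite 0]
      congr 1
      simp_rw [hterm]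
      rw [tsum_mul_left, exch K hL v0 hA]
      simp_rw [Fz_sum]
    rw [hsplit]
    -- the term at zero
    have hf0 : ‖f 0‖ ≤ c * (Cz * (2 / T) ^ (5 * dg K)) := by
      simp only [hf]
      rw [norm_mul, e_norm, one_mul, hFT, norm_mul, Complex.norm_real, Real.norm_of_nonneg hc0.le,
        norm_prod]
      refine mul_le_mul_of_nonneg_left ?_ hc0.le
      have := hCz θ T hL
      rw [vc_zero']
      simpa using this
    have hz : M * ‖f 0‖ ≤ c * Cz * 2 ^ (5 * dg K) := by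
      have h1 : T ^ (5 * (dg K : ℝ)) = T ^ (5 * dg K) := by
        rw [← Real.rpow_natCast]
        push_cast
        rfl
      rw [h1] at hM5
      calc M * ‖f 0‖ ≤ T ^ (5 * dg K) * (c * (Cz * (2 / T) ^ (5 * dg K))) :=
            mul_le_mul hM5 hf0 (norm_nonneg _) (by positivity)
        _ = c * Cz * 2 ^ (5 * dg K) := by
            rw [div_pow]
            field_simp
    have hm := hCm A hA θ T hTT2 hL v0
    -- the three terms
    have hk1 : M * √M⁻¹ = √M := by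
      rw [Real.sqrt_inv]
      nth_rewrite 1 [← Real.mul_self_sqrt hM.le]
      have : √M ≠ 0 := (Real.sqrt_pos.2 hM).ne'
      field_simp
    have hk2 : T ^ ((dg K : ℝ) / 6 - 1 / 3000) *
        T ^ (-((dg K : ℝ) / 2) + (1 + ε) * (1 / 2) * dg K) ≤ X := by
      rw [← Real.rpow_add hT0]
      refine Real.rpow_le_rpow_of_exponent_le hT1' ?_
      have : (1 + ε) * (1 / 2) * (dg K : ℝ) = dg K / 2 + (ε * dg K) / 2 := by ring
      rw [this, hεN]
      linarith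
    have hk3 : (8 * Real.pi / T) ^ (dg K + 1) * T ^ (-((dg K : ℝ) / 2) + (1 + ε) * 1 * dg K) ≤
        (8 * Real.pi) ^ (dg K + 1) := by
      rw [div_pow, div_mul_eq_mul_div, div_le_iff₀ (by positivity)]
      refine mul_le_mul_of_nonneg_left ?_ (by positivity)
      rw [← Real.rpow_natCast T (dg K + 1)]
      refine Real.rpow_le_rpow_of_exponent_le hT1' ?_
      have : (1 + ε) * 1 * (dg K : ℝ) = dg K + ε * dg K := by ring
      rw [this, hεN]
      push_cast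
      linarith
    have hk4 : M * (M⁻¹ ^ 501 * ((T ^ ((dg K : ℝ) * (1 / 2 + 1 / 1000))) ^ 500)⁻¹ *
        T ^ (-((dg K : ℝ) / 2) + (1 + ε) * 501 * dg K)) ≤ 1 := by
      set κ := (dg K : ℝ) * (1 / 2 + 1 / 1000) with hκ
      have hTk : 0 < T ^ κ := Real.rpow_pos_of_pos hT0 _
      have h1 : M * M⁻¹ ^ 501 = (M ^ 500)⁻¹ := by
        rw [inv_pow, pow_succ M 500]
        field_simp
      have h2 : (M ^ 500)⁻¹ ≤ ((T ^ κ) ^ 500)⁻¹ :=
        inv_anti₀ (by positivity) (pow_le_pow_left₀ hTk.le hcase.le _)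
      have h3 : ((T ^ κ) ^ 500)⁻¹ = T ^ (-(500 * κ)) := by
        rw [← Real.rpow_natCast, ← Real.rpow_mul hT0.le, ← Real.rpow_neg hT0.le]
        congr 1
        push_cast
        ring
      calc _ = (M * M⁻¹ ^ 501) * ((T ^ κ) ^ 500)⁻¹ *
            T ^ (-((dg K : ℝ) / 2) + (1 + ε) * 501 * dg K) := by ring
        _ ≤ ((T ^ κ) ^ 500)⁻¹ * ((T ^ κ) ^ 500)⁻¹ *
            T ^ (-((dg K : ℝ) / 2) + (1 + ε) * 501 * dg K) := by
            rw [h1]
            gcongr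
        _ = T ^ (-(500 * κ) + -(500 * κ) + (-((dg K : ℝ) / 2) + (1 + ε) * 501 * dg K)) := by
            rw [h3, ← Real.rpow_add hT0, ← Real.rpow_add hT0]
        _ ≤ 1 := by
            refine Real.rpow_le_one_of_one_le_of_nonpos hT1' ?_
            have : (1 + ε) * 501 * (dg K : ℝ) = 501 * dg K + 501 * (ε * dg K) := by ring
            rw [this, hεN, hκ]
            linarith
    have hmain : M * ‖∫ P, cP K θ P * Xi K θ v0 A P‖ ≤
        Cm * (√M * X + (8 * Real.pi) ^ (dg K + 1) + 1) := by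
      calc M * ‖∫ P, cP K θ P * Xi K θ v0 A P‖ ≤ M * (Cm * (√M⁻¹ * T ^ ((dg K : ℝ) / 6 - 1 / 3000) *
            T ^ (-((dg K : ℝ) / 2) + (1 + ε) * (1 / 2) * dg K) +
            M⁻¹ * (8 * Real.pi / T) ^ (dg K + 1) * T ^ (-((dg K : ℝ) / 2) + (1 + ε) * 1 * dg K) +
            M⁻¹ ^ 501 * ((T ^ ((dg K : ℝ) * (1 / 2 + 1 / 1000))) ^ 500)⁻¹ *
            T ^ (-((dg K : ℝ) / 2) + (1 + ε) * 501 * dg K))) :=
            mul_le_mul_of_nonneg_left hm hM.le
        _ = Cm * ((M * √M⁻¹) * (T ^ ((dg K : ℝ) / 6 - 1 / 3000) *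
            T ^ (-((dg K : ℝ) / 2) + (1 + ε) * (1 / 2) * dg K)) +
            (M * M⁻¹) * ((8 * Real.pi / T) ^ (dg K + 1) *
              T ^ (-((dg K : ℝ) / 2) + (1 + ε) * 1 * dg K)) +
            M * (M⁻¹ ^ 501 * ((T ^ ((dg K : ℝ) * (1 / 2 + 1 / 1000))) ^ 500)⁻¹ *
            T ^ (-((dg K : ℝ) / 2) + (1 + ε) * 501 * dg K))) := by ring
        _ ≤ Cm * (√M * X + 1 * (8 * Real.pi) ^ (dg K + 1) + 1) := by
            rw [hk1, mul_inv_cancel₀ hM.ne']
            refine mul_le_mul_of_nonneg_left ?_ hCm0.le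
            refine add_le_add (add_le_add ?_ ?_) hk4
            · exact mul_le_mul_of_nonneg_left hk2 hs0
            · exact mul_le_mul_of_nonneg_left hk3 zero_le_one
        _ = _ := by rw [one_mul]
    have hfin : √M * X + (8 * Real.pi) ^ (dg K + 1) + 1 ≤
        (1 + (8 * Real.pi) ^ (dg K + 1) + 1) * ((1 + √M) * X) := by
      have h1 : √M * X ≤ 1 * ((1 + √M) * X) := by nlinarith
      have h2 : (8 * Real.pi) ^ (dg K + 1) ≤ (8 * Real.pi) ^ (dg K + 1) * ((1 + √M) * X) :=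
        le_mul_of_one_le_right (by positivity) hR1
      have h3 : (1 + (8 * Real.pi) ^ (dg K + 1) + 1) * ((1 + √M) * X) = 1 * ((1 + √M) * X) +
          (8 * Real.pi) ^ (dg K + 1) * ((1 + √M) * X) + 1 * ((1 + √M) * X) := by ring
      rw [h3]
      linarith
    rw [norm_mul, Complex.norm_real, Real.norm_of_nonneg hM.le]
    calc M * ‖f 0 + (c : ℂ) * ∫ P, cP K θ P * Xi K θ v0 A P‖ ≤
        M * (‖f 0‖ + c * ‖∫ P, cP K θ P * Xi K θ v0 A P‖) := by
          refine mul_le_mul_of_nonneg_left ((norm_add_le _ _).trans (le_of_eq ?_)) hM.le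
          rw [norm_mul (c : ℂ), Complex.norm_real, Real.norm_of_nonneg hc0.le]
      _ = M * ‖f 0‖ + c * (M * ‖∫ P, cP K θ P * Xi K θ v0 A P‖) := by ring
      _ ≤ c * Cz * 2 ^ (5 * dg K) + c * (Cm * (√M * X + (8 * Real.pi) ^ (dg K + 1) + 1)) :=
          add_le_add hz (mul_le_mul_of_nonneg_left hmain hc0.le)
      _ ≤ c * Cz * 2 ^ (5 * dg K) * ((1 + √M) * X) +
          c * (Cm * ((1 + (8 * Real.pi) ^ (dg K + 1) + 1) * ((1 + √M) * X))) := by
          refine add_le_add (le_mul_of_one_le_right hp1 hR1) ?_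
          exact mul_le_mul_of_nonneg_left (mul_le_mul_of_nonneg_left hfin hCm0.le) hc0.le
      _ ≤ C1 * ((1 + √M) * X) + (c * Cz * 2 ^ (5 * dg K) * ((1 + √M) * X) +
          c * (Cm * ((1 + (8 * Real.pi) ^ (dg K + 1) + 1) * ((1 + √M) * X)))) :=
          le_add_of_nonneg_left (by positivity)
      _ = _ := by ring

end Pool.Agent.T2H29.TA
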