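import Pool.Agent.T2H29.TA.A10

/-!
# Duality: local integrals
-/

set_option autoImplicit false
set_option linter.unusedSectionVars false

namespace Pool.Agent.T2H29.TA

open Finset NumberField NumberField.InfinitePlace Module MeasureTheory
open Pool.Agent.T2H29.SW
open scoped RealInnerProductSpace ContDiff

namespace A11

/-- the measure of the local field on `ℂ` -/
noncomputable def mu (r : Bool) : Measure ℂ := match r with
  | true => (volume : Measure ℝ).map (fun x : ℝ => (x : ℂ))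
  | false => volume

lemma cemb : Topology.IsClosedEmbedding (fun x : ℝ => (x : ℂ)) :=
  Complex.isometry_ofReal.isClosedEmbedding

lemma memb : MeasurableEmbedding (fun x : ℝ => (x : ℂ)) := cemb.measurableEmbedding

lemma LI_eq (r : Bool) (f : ℂ → ℂ) : LI r f = ∫ z, f z ∂(mu r) := by
  cases r
  · rfl
  · exact (memb.integral_map f).symm

instance mu_fin (r : Bool) : IsFiniteMeasureOnCompacts (mu r) := by
  cases r
  · show IsFiniteMeasureOnCompacts (volume : Measure ℂ)
    infer_instance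
  · refine ⟨fun K hK => ?_⟩
    show (volume : Measure ℝ).map (fun x : ℝ => (x : ℂ)) K < ⊤
    rw [memb.map_apply]
    exact (cemb.isCompact_preimage hK).measure_lt_top

/-- substitution -/
lemma LI_mul (r : Bool) {c : ℂ} (hc : c ≠ 0) (hr : Rl r c) (f : ℂ → ℂ) :
    LI r (fun z => f (c * z)) = (((‖c‖ ^ nr r)⁻¹ : ℝ) : ℂ) * LI r f := by
  have h0 : (0 : ℝ) < ‖c‖ := norm_pos_iff.2 hc
  cases r
  · show ∫ z : ℂ, f (c * z) = (((‖c‖ ^ 2)⁻¹ : ℝ) : ℂ) * ∫ z : ℂ, f z
    have h0' : (‖c‖ : ℂ) ≠ 0 := by exact_mod_cast h0.ne'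
    have ha : c / ‖c‖ ∈ Submonoid.unitSphere ℂ := by
      refine mem_sphere_zero_iff_norm.2 ?_
      rw [norm_div, Complex.norm_real, norm_norm, div_self h0.ne']
    let a : Circle := ⟨c / ‖c‖, ha⟩
    have e1 : ∀ z : ℂ, c * z = ‖c‖ • (rotation a z) := by
      intro z
      rw [rotation_apply, Complex.real_smul, ← mul_assoc]
      congr 1
      show c = ‖c‖ * (c / ‖c‖)
      field_simp
    simp_rw [e1]
    have h1 := (rotation a).measurePreserving.integral_comp
      (rotation a).toHomeomorph.measurableEmbedding (fun z => f (‖c‖ • z))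
    rw [h1, Measure.integral_comp_smul, Complex.finrank_real_complex, abs_of_pos (by positivity),
      Complex.real_smul]
  · show ∫ x : ℝ, f (c * x) = (((‖c‖ ^ 1)⁻¹ : ℝ) : ℂ) * ∫ x : ℝ, f x
    have hc1 : c = (c.re : ℂ) := by
      apply Complex.ext
      · simp
      · simpa using hr rfl
    have hn : ‖c‖ = |c.re| := by
      rw [hc1, Complex.norm_real]
      simp
    have e1 : ∀ x : ℝ, c * x = ((c.re * x : ℝ) : ℂ) := by
      intro x
      rw [Complex.ofReal_mul, ← hc1]
    simp_rw [e1]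
    rw [Measure.integral_comp_mul_left (fun x : ℝ => f (x : ℂ)) c.re, Complex.real_smul, abs_inv,
      pow_one, hn]

/-- test functions -/
structure TB (b : ℝ → ℂ) : Prop where
  sm : ContDiff ℝ ∞ b
  cs : HasCompactSupport b
  ts : tsupport b ⊆ Set.Ioi 0

/-- the differential operator -/
noncomputable def td (r : Bool) (b : ℝ → ℂ) (t : ℝ) : ℂ := -(nr r : ℂ) * b t - 2 * t * deriv b t

lemma TB.td {b : ℝ → ℂ} (h : TB b) (r : Bool) : TB (td r b) := by
  have h1 : Function.support (A11.td r b) ⊆ tsupport b := by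
    intro t ht
    by_contra h2
    apply ht
    have h3 : b t = 0 := image_eq_zero_of_notMem_tsupport h2
    have h4 : deriv b t = 0 := by
      by_contra h5
      exact h2 (support_deriv_subset h5)
    unfold A11.td
    rw [h3, h4]
    ring
  have h2 : tsupport (A11.td r b) ⊆ tsupport b := closure_minimal h1 (isClosed_tsupport _)
  refine ⟨?_, ?_, h2.trans h.ts⟩
  · have h3 : ContDiff ℝ ∞ (deriv b) := (contDiff_infty_iff_deriv.1 h.sm).2
    have h4 : ContDiff ℝ ∞ (fun t : ℝ => (t : ℂ)) := Complex.ofRealCLM.contDiff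
    exact (contDiff_const.mul h.sm).sub ((contDiff_const.mul h4).mul h3)
  · exact h.cs.of_isClosed_subset (isClosed_tsupport _) h2

lemma TB.bd {b : ℝ → ℂ} (h : TB b) : ∃ C : ℝ, 0 < C ∧ ∀ t, ‖b t‖ ≤ C := by
  obtain ⟨C, hC⟩ := h.sm.continuous.bounded_above_of_compact_support h.cs
  exact ⟨|C| + 1, by positivity, fun t => (hC t).trans ((le_abs_self C).trans (by linarith))⟩

lemma TB.rad {b : ℝ → ℂ} (h : TB b) : ∃ R : ℝ, 0 < R ∧ ∀ t, R < t → b t = 0 := by
  obtain ⟨R, hR⟩ := h.cs.isBounded.subset_closedBall 0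
  refine ⟨|R| + 1, by positivity, fun t ht => ?_⟩
  refine image_eq_zero_of_notMem_tsupport fun h1 => ?_
  have h2 := hR h1
  rw [Metric.mem_closedBall, dist_zero_right, Real.norm_eq_abs] at h2
  linarith [le_abs_self t, le_abs_self R]

lemma TB.zero {b : ℝ → ℂ} (h : TB b) : b 0 = 0 :=
  image_eq_zero_of_notMem_tsupport fun h1 => lt_irrefl (0 : ℝ) (h.ts h1)

lemma TB.CIg {b : ℝ → ℂ} (h : TB b) : CIg {z : ℂ | z ≠ 0} (fun z : ℂ => b (‖z‖ ^ 2)) := by
  obtain ⟨R, hR0, hR⟩ := h.rad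
  have h1 : tsupport (fun z : ℂ => b (‖z‖ ^ 2)) ⊆ {z | ‖z‖ ^ 2 ∈ tsupport b} := by
    refine closure_minimal (fun z hz => ?_) ?_
    · exact subset_tsupport _ hz
    · exact (isClosed_tsupport b).preimage (by fun_prop)
  refine ⟨h.sm.comp (contDiff_norm_sq ℝ), ?_, ?_⟩
  · refine HasCompactSupport.intro (isCompact_closedBall (0 : ℂ) (√R)) fun z hz => ?_
    refine hR _ ?_
    rw [Metric.mem_closedBall, dist_zero_right, not_le] at hz
    exact (Real.sqrt_lt' (lt_of_le_of_lt (Real.sqrt_nonneg _) hz)).1 hz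
  · intro z hz h0
    have h2 := h.ts (h1 hz)
    rw [h0] at h2
    simp at h2

/-- the kernel -/
noncomputable def kr (r : Bool) (k : ℤ) (τ : ℝ) (z : ℂ) : ℂ := uu k τ z * e (-(nr r * z.re))

lemma kr_norm (r : Bool) (k : ℤ) (τ : ℝ) (z : ℂ) : ‖kr r k τ z‖ ≤ 1 := by
  unfold kr
  rw [norm_mul, e_norm, mul_one]
  exact uu_norm _ _ _

lemma kr_meas (r : Bool) (k : ℤ) (τ : ℝ) : Measurable (kr r k τ) := by
  unfold kr uu
  refine Measurable.mul (Measurable.mul ?_ ?_) (e_continuous.measurable.comp (by fun_prop))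
  · exact measurable_id.pow_const k
  · refine Complex.measurable_exp.comp (measurable_const.mul (Complex.measurable_ofReal.comp ?_))
    exact (Real.measurable_log.comp (by fun_prop)).div_const _

/-- the function `D` -/
noncomputable def Dd (r : Bool) (k : ℤ) (τ : ℝ) (b : ℝ → ℂ) (x : ℝ) : ℂ :=
  ∫ z, kr r k τ z * (((Real.exp (-(nr r * x)) : ℝ) : ℂ) *
    b (‖z‖ ^ 2 * Real.exp (-(2 * x)))) ∂(mu r)

lemma uu_conj (k : ℤ) (τ : ℝ) {z : ℂ} (hz : z ≠ 0) :
    uu k (-τ) z * uu k τ ((starRingEnd ℂ) z) = 1 := by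
  have h0 : 0 < ‖z‖ := norm_pos_iff.2 hz
  unfold uu
  rw [log_half, log_half, RCLike.norm_conj, mul_mul_mul_comm, ← Complex.exp_add, ← mul_zpow,
    Complex.mul_conj, Complex.normSq_eq_norm_sq]
  have h1 : (((‖z‖ ^ 2 : ℝ) : ℂ)) ^ k = Complex.exp (2 * k * (Real.log ‖z‖ : ℝ)) := by
    have h2 : ((‖z‖ ^ 2 : ℝ) : ℂ) = Complex.exp (2 * (Real.log ‖z‖ : ℝ)) := by
      rw [Complex.ofReal_pow, sq, two_mul, Complex.exp_add, ← Complex.ofReal_exp, Real.exp_log h0]
    rw [h2, ← Complex.exp_int_mul]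
    congr 1
    ring
  rw [h1, ← Complex.exp_add, ← Complex.exp_zero]
  congr 1
  push_cast
  ring

/-- the local integral in terms of `D` -/
lemma FL_eq (r : Bool) (k : ℤ) (τ : ℝ) {b : ℝ → ℂ} (h : TB b) {z : ℂ} (hz : z ≠ 0)
    (hr : Rl r z) : FL r (fun w => uu k τ w * b (‖w‖ ^ 2)) z =
      uu k (-τ) z * Dd r k τ b (Real.log ‖z‖) := by
  have h0 : 0 < ‖z‖ := norm_pos_iff.2 hz
  set c := (starRingEnd ℂ) z with hc
  have hc0 : c ≠ 0 := (map_ne_zero (starRingEnd ℂ)).2 hz
  have hcr : Rl r c := fun hh => by simpa [hc] using hr hh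
  have hcn : ‖c‖ = ‖z‖ := RCLike.norm_conj z
  have h1 := LI_mul r hc0 hcr (fun w => kr r k τ w * b (‖w‖ ^ 2 * Real.exp (-(2 * Real.log ‖z‖))))
  have h2 : Dd r k τ b (Real.log ‖z‖) = (((‖c‖ ^ nr r)⁻¹ : ℝ) : ℂ) *
      LI r (fun w => kr r k τ w * b (‖w‖ ^ 2 * Real.exp (-(2 * Real.log ‖z‖)))) := by
    unfold Dd
    rw [LI_eq, ← integral_const_mul]
    refine integral_congr_ae (Filter.Eventually.of_forall fun w => ?_)
    simp only
    have h3 : Real.exp (-(nr r * Real.log ‖z‖)) = (‖c‖ ^ nr r)⁻¹ := by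
      rw [Real.exp_neg, Real.exp_nat_mul, Real.exp_log h0, hcn]
    rw [h3]
    ring
  rw [h2, ← h1]
  unfold FL
  rw [LI_eq, LI_eq, ← integral_const_mul]
  refine integral_congr_ae (Filter.Eventually.of_forall fun w => ?_)
  simp only
  have h4 : ‖c * w‖ ^ 2 * Real.exp (-(2 * Real.log ‖z‖)) = ‖w‖ ^ 2 := by
    have : Real.exp (2 * Real.log ‖z‖) = ‖z‖ ^ 2 := by
      rw [two_mul, Real.exp_add, Real.exp_log h0, sq]
    rw [Real.exp_neg, this, norm_mul, hcn, mul_pow]
    field_simp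
  rw [h4]
  by_cases hw : w = 0
  · rw [hw, norm_zero, zero_pow two_ne_zero, h.zero]
    ring
  · unfold kr
    rw [uu_mul hc0 hw]
    have h5 := uu_conj k τ hz
    rw [← hc] at h5
    linear_combination (-(uu k τ w * b (‖w‖ ^ 2) * e (-(nr r * (c * w).re)))) * h5

lemma Dd_norm (r : Bool) (k : ℤ) (τ : ℝ) {b : ℝ → ℂ} (h : TB b) (x : ℝ) :
    ‖Dd r k τ b x‖ = ‖FL r (fun w => uu k τ w * b (‖w‖ ^ 2)) ((Real.exp x : ℝ) : ℂ)‖ := by
  have h1 : ((Real.exp x : ℝ) : ℂ) ≠ 0 := by exact_mod_cast (Real.exp_pos x).ne'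
  have h2 : Rl r ((Real.exp x : ℝ) : ℂ) := fun _ => Complex.ofReal_im _
  rw [FL_eq r k τ h h1 h2, norm_mul, uu_norm_of h1, one_mul, Complex.norm_real,
    Real.norm_of_nonneg (Real.exp_pos x).le, Real.log_exp]

/-- the derivative of `D` -/
lemma Dd_deriv (r : Bool) (k : ℤ) (τ : ℝ) {b : ℝ → ℂ} (h : TB b) (x : ℝ) :
    HasDerivAt (Dd r k τ b) (Dd r k τ (td r b) x) x := by
  obtain ⟨C, hC0, hC⟩ := (h.td r).bd
  obtain ⟨R, hR0, hR⟩ := (h.td r).rad
  set S := Metric.closedBall (0 : ℂ) (√(R * Real.exp (2 * (x + 1)))) with hS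
  have hmS : MeasurableSet S := Metric.isClosed_closedBall.measurableSet
  have hfin : mu r S < ⊤ := (isCompact_closedBall _ _).measure_lt_top
  have hF : ∀ (b : ℝ → ℂ), TB b → ∀ y, Measurable fun z => kr r k τ z *
      (((Real.exp (-(nr r * y)) : ℝ) : ℂ) * b (‖z‖ ^ 2 * Real.exp (-(2 * y)))) := by
    intro b hb y
    refine (kr_meas r k τ).mul (measurable_const.mul ?_)
    exact (hb.sm.continuous.comp (by fun_prop)).measurable
  have hout : ∀ (b : ℝ → ℂ) (R : ℝ), (∀ t, R < t → b t = 0) → 0 < R → ∀ y, ∀ z : ℂ, 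
      z ∉ Metric.closedBall (0 : ℂ) (√(R * Real.exp (2 * y))) →
      b (‖z‖ ^ 2 * Real.exp (-(2 * y))) = 0 := by
    intro b R hR hR0 y z hz
    refine hR _ ?_
    rw [Metric.mem_closedBall, dist_zero_right, not_le] at hz
    have h1 := (Real.sqrt_lt' (lt_of_le_of_lt (Real.sqrt_nonneg _) hz)).1 hz
    rw [Real.exp_neg, ← div_eq_mul_inv, lt_div_iff₀ (Real.exp_pos _)]
    exact h1
  have key := hasDerivAt_integral_of_dominated_loc_of_deriv_le (μ := mu r) (𝕜 := ℝ)
    (F := fun y z => kr r k τ z *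
      (((Real.exp (-(nr r * y)) : ℝ) : ℂ) * b (‖z‖ ^ 2 * Real.exp (-(2 * y)))))
    (F' := fun y z => kr r k τ z *
      (((Real.exp (-(nr r * y)) : ℝ) : ℂ) * td r b (‖z‖ ^ 2 * Real.exp (-(2 * y)))))
    (x₀ := x) (s := Metric.ball x 1) (bound := S.indicator fun _ => Real.exp (nr r * (|x| + 1)) * C)
    (Metric.ball_mem_nhds x one_pos) (Filter.Eventually.of_forall fun y =>
      (hF b h y).aestronglyMeasurable) ?_ (hF _ (h.td r) x).aestronglyMeasurable ?_ ?_ ?_
  · exact key.2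
  · -- integrability
    obtain ⟨C1, hC10, hC1⟩ := h.bd
    obtain ⟨R1, hR10, hR1⟩ := h.rad
    set S1 := Metric.closedBall (0 : ℂ) (√(R1 * Real.exp (2 * x))) with hS1
    have hmS1 : MeasurableSet S1 := Metric.isClosed_closedBall.measurableSet
    have hfin1 : mu r S1 < ⊤ := (isCompact_closedBall _ _).measure_lt_top
    have hi : Integrable (S1.indicator fun _ => Real.exp (-(nr r * x)) * C1) (mu r) :=
      (integrable_indicator_iff hmS1).2 (integrableOn_const hfin1.ne)
    refine hi.mono' (hF b h x).aestronglyMeasurable (Filter.Eventually.of_forall fun z => ?_)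
    by_cases hz : z ∈ S1
    · rw [Set.indicator_of_mem hz, norm_mul, norm_mul, Complex.norm_real,
        Real.norm_of_nonneg (Real.exp_pos _).le]
      refine (mul_le_mul (kr_norm _ _ _ _) ?_ (by positivity) zero_le_one).trans_eq (one_mul _)
      exact mul_le_mul_of_nonneg_left (hC1 _) (Real.exp_pos _).le
    · rw [Set.indicator_of_notMem hz, hout b R1 hR1 hR10 x z hz]
      simp
  · refine Filter.Eventually.of_forall fun z y hy => ?_
    rw [Metric.mem_ball, Real.dist_eq, abs_lt] at hy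
    by_cases hz : z ∈ S
    · rw [Set.indicator_of_mem hz, norm_mul, norm_mul, Complex.norm_real,
        Real.norm_of_nonneg (Real.exp_pos _).le]
      refine (mul_le_mul (kr_norm _ _ _ _) ?_ (by positivity) zero_le_one).trans_eq (one_mul _)
      refine mul_le_mul ?_ (hC _) (norm_nonneg _) (Real.exp_pos _).le
      refine Real.exp_le_exp.2 ?_
      rw [← mul_neg]
      refine mul_le_mul_of_nonneg_left ?_ (Nat.cast_nonneg _)
      linarith [neg_abs_le x]
    · have h1 : z ∉ Metric.closedBall (0 : ℂ) (√(R * Real.exp (2 * y))) := by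
        intro h2
        apply hz
        refine Metric.closedBall_subset_closedBall ?_ h2
        refine Real.sqrt_le_sqrt ?_
        refine mul_le_mul_of_nonneg_left (Real.exp_le_exp.2 ?_) hR0.le
        linarith
      rw [Set.indicator_of_notMem hz, hout _ R hR hR0 y z h1]
      simp
  · exact (integrable_indicator_iff hmS).2 (integrableOn_const hfin.ne)
  · refine Filter.Eventually.of_forall fun z y _ => ?_
    have h1 : HasDerivAt (fun y : ℝ => Real.exp (-(nr r * y))) (Real.exp (-(nr r * y)) * (-(nr r))) y := by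
      have := ((hasDerivAt_id y).const_mul (nr r : ℝ)).neg.exp
      simpa using this
    have h2 : HasDerivAt (fun y : ℝ => ‖z‖ ^ 2 * Real.exp (-(2 * y)))
        (‖z‖ ^ 2 * (Real.exp (-(2 * y)) * (-2))) y := by
      have := (((hasDerivAt_id y).const_mul (2 : ℝ)).neg.exp).const_mul (‖z‖ ^ 2)
      simpa using this
    have hb : HasDerivAt b (deriv b (‖z‖ ^ 2 * Real.exp (-(2 * y)))) (‖z‖ ^ 2 * Real.exp (-(2 * y))) :=
      (h.sm.differentiable (by norm_num)).differentiableAt.hasDerivAt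
    have h3 := HasDerivAt.scomp y hb h2
    have h4 := (h1.ofReal_comp.mul h3).const_mul (kr r k τ z)
    refine HasDerivAt.congr_deriv h4 ?_
    simp only [td, Complex.real_smul, Function.comp]
    push_cast
    ring

lemma Dd_cont (r : Bool) (k : ℤ) (τ : ℝ) {b : ℝ → ℂ} (h : TB b) : Continuous (Dd r k τ b) :=
  continuous_iff_continuousAt.2 fun x => (Dd_deriv r k τ h x).continuousAt

end A11

end Pool.Agent.T2H29.TA
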