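import Pool.Agent.T2H29.TA.A11a

/-!
# Duality: the Mellin decomposition
-/

set_option autoImplicit false
set_option linter.unusedSectionVars false

namespace Pool.Agent.T2H29.TA

open Finset NumberField NumberField.InfinitePlace Module MeasureTheory
open Pool.Agent.T2H29.SW
open scoped RealInnerProductSpace ContDiff FourierTransform

namespace A11

/-- the conditions on the parameters -/
def LC (r : Bool) (T : ℝ) (k : ℤ) (τ : ℝ) : Prop := 2 ≤ T ∧ T / 2 ≤ |τ| ∧ ‖cp r k τ‖ ≤ 4 * T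

lemma nr_le (r : Bool) : nr r ≤ 2 := by cases r <;> simp [nr]
lemma nr_pos (r : Bool) : 1 ≤ nr r := by cases r <;> simp [nr]

lemma Dd_bound (r : Bool) {ε : ℝ} (hε : 0 < ε) {b : ℝ → ℂ} (h : TB b) (N : ℕ) : ∃ C : ℝ, 0 < C ∧
    ∀ T k τ, LC r T k τ → ∀ x, ‖Dd r k τ b x‖ ≤
      C * (√(T ^ nr r))⁻¹ * ((1 + Real.exp x / T ^ (1 + ε)) ^ N)⁻¹ := by
  obtain ⟨C1, hC10, hC1⟩ := sup0 r h.CIg
  obtain ⟨N2, hN, hN2⟩ : ∃ N2 : ℕ, N ≤ N2 ∧ 1 ≤ ε * N2 := by
    refine ⟨max N ⌈1 / ε⌉₊, le_max_left _ _, ?_⟩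
    have h1 : 1 / ε ≤ (max N ⌈1 / ε⌉₊ : ℕ) := (Nat.le_ceil _).trans (by exact_mod_cast le_max_right _ _)
    rw [div_le_iff₀ hε] at h1
    linarith
  obtain ⟨C2, hC20, hC2⟩ := dec0 r h.CIg N2
  refine ⟨2 * C1 * 2 ^ N + C2 * 5 ^ N2 * 2 ^ N, by positivity, ?_⟩
  rintro T k τ ⟨hT, hτ, hcp⟩ x
  have hT0 : 0 < T := by linarith
  set s := Real.exp x with hs
  have hs0 : 0 < s := Real.exp_pos x
  set T1 := T ^ (1 + ε) with hT1
  have hT10 : 0 < T1 := Real.rpow_pos_of_pos hT0 _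
  have hsq0 : 0 < √(T ^ nr r) := Real.sqrt_pos.2 (by positivity)
  rw [Dd_norm r k τ h x]
  set Y := ‖FL r (fun w => uu k τ w * b (‖w‖ ^ 2)) ((Real.exp x : ℝ) : ℂ)‖ with hY
  have hY0 : 0 ≤ Y := norm_nonneg _
  have hZ0 : 0 < ((1 + s / T1) ^ N)⁻¹ := by positivity
  by_cases hsT : s ≤ T1
  · have h1 := hC1 k τ ((Real.exp x : ℝ) : ℂ) (by linarith)
    have h2 : √(T ^ nr r) / 2 ≤ √(|τ| ^ nr r) := by
      rw [div_le_iff₀ two_pos]
      refine Real.sqrt_le_iff.2 ⟨by positivity, ?_⟩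
      rw [mul_pow, Real.sq_sqrt (by positivity)]
      have h3 : (T / 2) ^ nr r ≤ |τ| ^ nr r := pow_le_pow_left₀ (by positivity) hτ _
      rw [div_pow, div_le_iff₀ (by positivity)] at h3
      refine h3.trans ?_
      refine mul_le_mul_of_nonneg_left ?_ (by positivity)
      exact pow_le_pow_right₀ (by norm_num) (nr_le r)
    have h3 : (√(|τ| ^ nr r))⁻¹ ≤ 2 * (√(T ^ nr r))⁻¹ := by
      have h4 := inv_anti₀ (by positivity) h2
      rwa [inv_div, div_eq_mul_inv] at h4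
    have h4 : 1 ≤ 2 ^ N * ((1 + s / T1) ^ N)⁻¹ := by
      rw [← div_eq_mul_inv, le_div_iff₀ (by positivity), one_mul]
      refine pow_le_pow_left₀ (by positivity) ?_ _
      have : s / T1 ≤ 1 := (div_le_one hT10).2 hsT
      linarith
    calc Y ≤ C1 * (√(|τ| ^ nr r))⁻¹ := h1
      _ ≤ C1 * (2 * (√(T ^ nr r))⁻¹) := mul_le_mul_of_nonneg_left h3 hC10.le
      _ ≤ C1 * (2 * (√(T ^ nr r))⁻¹) * (2 ^ N * ((1 + s / T1) ^ N)⁻¹) :=
          le_mul_of_one_le_right (by positivity) h4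
      _ ≤ C1 * (2 * (√(T ^ nr r))⁻¹) * (2 ^ N * ((1 + s / T1) ^ N)⁻¹) +
          C2 * 5 ^ N2 * 2 ^ N * (√(T ^ nr r))⁻¹ * ((1 + s / T1) ^ N)⁻¹ :=
          le_add_of_nonneg_right (by positivity)
      _ = _ := by ring
  · rw [not_le] at hsT
    have h1 := hC2 k τ ((Real.exp x : ℝ) : ℂ) (fun _ => Complex.ofReal_im _)
    have h2 : s ^ N2 * Y ≤ C2 * (5 * T) ^ N2 := by
      refine (mul_le_mul_of_nonneg_right ?_ hY0).trans (h1.trans ?_)
      · refine pow_le_pow_left₀ hs0.le ?_ _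
        rw [Complex.norm_real, Real.norm_of_nonneg hs0.le]
        linarith
      · refine mul_le_mul_of_nonneg_left (pow_le_pow_left₀ (by positivity) ?_ _) hC20.le
        linarith
    have h3 : Y ≤ C2 * 5 ^ N2 * (T / s) ^ N2 := by
      rw [div_pow, mul_div_assoc', le_div_iff₀ (by positivity)]
      calc Y * s ^ N2 = s ^ N2 * Y := mul_comm _ _
        _ ≤ _ := h2
        _ = _ := by rw [mul_pow]; ring
    have h4 : T / s = T1 / s * T ^ (-ε) := by
      have : T = T1 * T ^ (-ε) := by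
        rw [hT1, ← Real.rpow_add hT0]
        simp
      nth_rewrite 1 [this]
      ring
    have h5 : (T ^ (-ε)) ^ N2 ≤ T⁻¹ := by
      rw [← Real.rpow_natCast, ← Real.rpow_mul hT0.le, ← Real.rpow_neg_one]
      refine Real.rpow_le_rpow_of_exponent_le (by linarith) ?_
      linarith
    have h6 : T⁻¹ ≤ (√(T ^ nr r))⁻¹ := by
      refine inv_anti₀ hsq0 ?_
      refine Real.sqrt_le_iff.2 ⟨hT0.le, ?_⟩
      exact pow_le_pow_right₀ (by linarith) (nr_le r)
    have h7 : T1 / s ≤ 1 := (div_le_one hs0).2 hsT.le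
    have h8 : (T1 / s) ^ N2 ≤ (T1 / s) ^ N := pow_le_pow_of_le_one (by positivity) h7 hN
    have h9 : (T1 / s) ^ N ≤ 2 ^ N * ((1 + s / T1) ^ N)⁻¹ := by
      rw [← div_eq_mul_inv, ← div_pow]
      refine pow_le_pow_left₀ (by positivity) ?_ _
      rw [div_le_div_iff₀ hs0 (by positivity)]
      have : T1 * (s / T1) = s := by field_simp
      rw [mul_add, this]
      linarith
    have h10 : (T / s) ^ N2 ≤ (√(T ^ nr r))⁻¹ * (2 ^ N * ((1 + s / T1) ^ N)⁻¹) := by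
      rw [h4, mul_pow, mul_comm]
      exact mul_le_mul (h5.trans h6) (h8.trans h9) (by positivity) (by positivity)
    calc Y ≤ C2 * 5 ^ N2 * (T / s) ^ N2 := h3
      _ ≤ C2 * 5 ^ N2 * ((√(T ^ nr r))⁻¹ * (2 ^ N * ((1 + s / T1) ^ N)⁻¹)) :=
          mul_le_mul_of_nonneg_left h10 (by positivity)
      _ ≤ 2 * C1 * 2 ^ N * (√(T ^ nr r))⁻¹ * ((1 + s / T1) ^ N)⁻¹ +
          C2 * 5 ^ N2 * ((√(T ^ nr r))⁻¹ * (2 ^ N * ((1 + s / T1) ^ N)⁻¹)) :=
          le_add_of_nonneg_left (by positivity)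
      _ = _ := by ring

/-- test functions on the line -/
structure TC (β : ℝ → ℂ) : Prop where
  sm : ContDiff ℝ ∞ β
  cs : HasCompactSupport β

lemma TC.dv {β : ℝ → ℂ} (h : TC β) : TC (deriv β) :=
  ⟨(contDiff_infty_iff_deriv.1 h.sm).2, h.cs.deriv⟩

lemma Fx_int (r : Bool) (k : ℤ) (τ : ℝ) {b β : ℝ → ℂ} (h : TB b) (hβ : TC β) (u : ℝ) :
    Continuous (fun x => Dd r k τ b (u + x) * β x) ∧
    HasCompactSupport (fun x => Dd r k τ b (u + x) * β x) ∧
    Integrable (fun x => Dd r k τ b (u + x) * β x) := by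
  have h1 : Continuous (fun x => Dd r k τ b (u + x) * β x) :=
    ((Dd_cont r k τ h).comp (by fun_prop)).mul hβ.sm.continuous
  have h2 : HasCompactSupport (fun x => Dd r k τ b (u + x) * β x) := hβ.cs.mul_left
  exact ⟨h1, h2, h1.integrable_of_hasCompactSupport h2⟩

/-- decay -/
lemma Mb (r : Bool) {ε : ℝ} (hε : 0 < ε) (N2 N : ℕ) : ∀ b β : ℝ → ℂ, TB b → TC β →
    ∃ C : ℝ, 0 < C ∧ ∀ T k τ, LC r T k τ → ∀ u σ : ℝ,
    |σ| ^ N * ‖FT (fun x => Dd r k τ b (u + x) * β x) σ‖ ≤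
      C * (√(T ^ nr r))⁻¹ * ((1 + Real.exp u / T ^ (1 + ε)) ^ N2)⁻¹ := by
  induction N with
  | zero =>
    intro b β hb hβ
    obtain ⟨C0, hC00, hC0⟩ := Dd_bound r hε hb N2
    have hc : Continuous fun x => Real.exp (N2 * |x|) * ‖β x‖ := by
      have := hβ.sm.continuous
      fun_prop
    have hcs : HasCompactSupport fun x => Real.exp (N2 * |x|) * ‖β x‖ := hβ.cs.norm.mul_left
    have hi : Integrable fun x => Real.exp (N2 * |x|) * ‖β x‖ := hc.integrable_of_hasCompactSupport hcs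
    set I := ∫ x, Real.exp (N2 * |x|) * ‖β x‖ with hI
    have hI0 : 0 ≤ I := integral_nonneg fun x => by positivity
    refine ⟨C0 * (I + 1), by positivity, fun T k τ hL u σ => ?_⟩
    have hT0 : 0 < T := by linarith [hL.1]
    set T1 := T ^ (1 + ε) with hT1
    have hT10 : 0 < T1 := Real.rpow_pos_of_pos hT0 _
    set c := C0 * (√(T ^ nr r))⁻¹ * ((1 + Real.exp u / T1) ^ N2)⁻¹ with hcdef
    have hc0 : 0 ≤ c := by positivity
    rw [pow_zero, one_mul]
    refine (FT_norm_le _ σ).trans ?_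
    have h1 : ∀ x, ‖Dd r k τ b (u + x) * β x‖ ≤ c * (Real.exp (N2 * |x|) * ‖β x‖) := by
      intro x
      rw [norm_mul, ← mul_assoc]
      refine mul_le_mul_of_nonneg_right ((hC0 T k τ hL (u + x)).trans ?_) (norm_nonneg _)
      rw [hcdef, mul_assoc (C0 * (√(T ^ nr r))⁻¹)]
      refine mul_le_mul_of_nonneg_left ?_ (by positivity)
      rw [inv_mul_eq_div, le_div_iff₀ (by positivity), inv_mul_le_iff₀ (by positivity), mul_comm,
        Real.exp_nat_mul, ← mul_pow]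
      refine pow_le_pow_left₀ (by positivity) ?_ _
      have h2 : 1 ≤ Real.exp |x| := Real.one_le_exp (abs_nonneg x)
      have h3 : Real.exp u ≤ Real.exp |x| * Real.exp (u + x) := by
        rw [← Real.exp_add]
        refine Real.exp_le_exp.2 ?_
        linarith [neg_abs_le x]
      have h4 : Real.exp u / T1 ≤ Real.exp |x| * (Real.exp (u + x) / T1) := by
        rw [mul_div_assoc']
        exact div_le_div_of_nonneg_right h3 hT10.le
      rw [mul_add, mul_one]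
      linarith
    calc ∫ x, ‖Dd r k τ b (u + x) * β x‖ ≤ ∫ x, c * (Real.exp (N2 * |x|) * ‖β x‖) :=
          integral_mono (Fx_int r k τ hb hβ u).2.2.norm (hi.const_mul c) h1
      _ = c * I := integral_const_mul _ _
      _ ≤ c * (I + 1) := mul_le_mul_of_nonneg_left (by linarith) hc0
      _ = _ := by rw [hcdef]; ring
  | succ N ih =>
    intro b β hb hβ
    obtain ⟨C1, hC10, hC1⟩ := ih _ β (hb.td r) hβ
    obtain ⟨C2, hC20, hC2⟩ := ih b _ hb hβ.dv
    refine ⟨C1 + C2, by positivity, fun T k τ hL u σ => ?_⟩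
    obtain ⟨hc, hcs, hi⟩ := Fx_int r k τ hb hβ u
    obtain ⟨hc1, hcs1, hi1⟩ := Fx_int r k τ (hb.td r) hβ u
    obtain ⟨hc2, hcs2, hi2⟩ := Fx_int r k τ hb hβ.dv u
    have hd : ∀ x, HasDerivAt (fun x => Dd r k τ b (u + x) * β x)
        (Dd r k τ (td r b) (u + x) * β x + Dd r k τ b (u + x) * deriv β x) x := by
      intro x
      have h1 : HasDerivAt (fun x => Dd r k τ b (u + x)) (Dd r k τ (td r b) (u + x)) x :=
        (Dd_deriv r k τ hb (u + x)).comp_const_add u x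
      exact h1.mul (hβ.sm.differentiable (by norm_num)).differentiableAt.hasDerivAt
    have h1 := FT_fderiv (E := ℝ) (F := fun x => Dd r k τ b (u + x) * β x)
      (D := fun x => Dd r k τ (td r b) (u + x) * β x + Dd r k τ b (u + x) * deriv β x)
      (fun x => (hd x).differentiableAt) hcs (v := 1) (fun x => by
        rw [fderiv_eq_smul_deriv, one_smul, (hd x).deriv]) (hc1.add hc2) σ
    have h2 : FT (fun x => Dd r k τ (td r b) (u + x) * β x + Dd r k τ b (u + x) * deriv β x) σ =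
        FT (fun x => Dd r k τ (td r b) (u + x) * β x) σ +
        FT (fun x => Dd r k τ b (u + x) * deriv β x) σ := by
      have hec : Continuous fun x : ℝ => e (-⟪x, σ⟫) := e_continuous.comp (by fun_prop)
      unfold FT
      rw [← integral_add]
      · refine integral_congr_ae (Filter.Eventually.of_forall fun x => ?_)
        simp only
        ring
      · exact (hc1.mul hec).integrable_of_hasCompactSupport hcs1.mul_right
      · exact (hc2.mul hec).integrable_of_hasCompactSupport hcs2.mul_right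
    rw [h2] at h1
    have h3 : ‖(2 * Real.pi * Complex.I * ⟪(1 : ℝ), σ⟫ : ℂ)‖ = 2 * Real.pi * |σ| := by
      rw [norm_mul, norm_mul, norm_mul, Complex.norm_I, Complex.norm_real,
          Complex.norm_real, Real.norm_of_nonneg Real.pi_pos.le, Real.norm_eq_abs]
      simp
    have h4 : |σ| * ‖FT (fun x => Dd r k τ b (u + x) * β x) σ‖ ≤
        ‖FT (fun x => Dd r k τ (td r b) (u + x) * β x) σ‖ +
        ‖FT (fun x => Dd r k τ b (u + x) * deriv β x) σ‖ := by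
      have h5 := norm_add_le (FT (fun x => Dd r k τ (td r b) (u + x) * β x) σ)
        (FT (fun x => Dd r k τ b (u + x) * deriv β x) σ)
      rw [h1, norm_mul, h3] at h5
      refine le_trans ?_ h5
      refine mul_le_mul_of_nonneg_right ?_ (norm_nonneg _)
      have : (1 : ℝ) ≤ 2 * Real.pi := by linarith [Real.pi_gt_three]
      exact le_mul_of_one_le_left (abs_nonneg _) this
    calc |σ| ^ (N + 1) * ‖FT (fun x => Dd r k τ b (u + x) * β x) σ‖ = |σ| ^ N *
          (|σ| * ‖FT (fun x => Dd r k τ b (u + x) * β x) σ‖) := by ring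
      _ ≤ |σ| ^ N * (‖FT (fun x => Dd r k τ (td r b) (u + x) * β x) σ‖ +
        ‖FT (fun x => Dd r k τ b (u + x) * deriv β x) σ‖) :=
          mul_le_mul_of_nonneg_left h4 (by positivity)
      _ = |σ| ^ N * ‖FT (fun x => Dd r k τ (td r b) (u + x) * β x) σ‖ +
        |σ| ^ N * ‖FT (fun x => Dd r k τ b (u + x) * deriv β x) σ‖ := mul_add _ _ _
      _ ≤ _ := add_le_add (hC1 T k τ hL u σ) (hC2 T k τ hL u σ)
      _ = _ := by ring

/-- the pointwise bound -/
lemma Mb' (r : Bool) {ε : ℝ} (hε : 0 < ε) (N2 N : ℕ) {b β : ℝ → ℂ} (hb : TB b) (hβ : TC β) :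
    ∃ C : ℝ, 0 < C ∧ ∀ T k τ, LC r T k τ → ∀ u σ : ℝ,
    ‖FT (fun x => Dd r k τ b (u + x) * β x) σ‖ ≤
      C * (√(T ^ nr r))⁻¹ * (((1 + |σ|) ^ N)⁻¹ * ((1 + Real.exp u / T ^ (1 + ε)) ^ N2)⁻¹) := by
  obtain ⟨C0, hC00, hC0⟩ := Mb r hε N2 0 b β hb hβ
  obtain ⟨C1, hC10, hC1⟩ := Mb r hε N2 N b β hb hβ
  refine ⟨2 ^ N * (C0 + C1), by positivity, fun T k τ hL u σ => ?_⟩
  have h0 := hC0 T k τ hL u σ
  have h1 := hC1 T k τ hL u σ
  rw [pow_zero, one_mul] at h0
  set Y := ‖FT (fun x => Dd r k τ b (u + x) * β x) σ‖ with hY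
  have hY0 : 0 ≤ Y := norm_nonneg _
  set Q := (√(T ^ nr r))⁻¹ * ((1 + Real.exp u / T ^ (1 + ε)) ^ N2)⁻¹ with hQ
  have h2 : (1 + |σ|) ^ N ≤ 2 ^ N * (1 + |σ| ^ N) := by
    have h3 : 1 + |σ| ≤ 2 * max 1 |σ| := by
      linarith [le_max_left 1 |σ|, le_max_right 1 |σ|]
    refine (pow_le_pow_left₀ (by positivity) h3 N).trans ?_
    rw [mul_pow]
    refine mul_le_mul_of_nonneg_left ?_ (by positivity)
    rcases le_total 1 |σ| with h4 | h4
    · rw [max_eq_right h4]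
      linarith
    · rw [max_eq_left h4, one_pow]
      have : 0 ≤ |σ| ^ N := by positivity
      linarith
  have h3 : (1 + |σ|) ^ N * Y ≤ 2 ^ N * (C0 + C1) * Q := by
    calc (1 + |σ|) ^ N * Y ≤ 2 ^ N * (1 + |σ| ^ N) * Y := mul_le_mul_of_nonneg_right h2 hY0
      _ = 2 ^ N * (Y + |σ| ^ N * Y) := by ring
      _ ≤ 2 ^ N * (C0 * (√(T ^ nr r))⁻¹ * ((1 + Real.exp u / T ^ (1 + ε)) ^ N2)⁻¹ +
          C1 * (√(T ^ nr r))⁻¹ * ((1 + Real.exp u / T ^ (1 + ε)) ^ N2)⁻¹) :=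
          mul_le_mul_of_nonneg_left (add_le_add h0 h1) (by positivity)
      _ = _ := by rw [hQ]; ring
  have h4 : 0 < (1 + |σ|) ^ N := by positivity
  calc Y = ((1 + |σ|) ^ N)⁻¹ * ((1 + |σ|) ^ N * Y) := by field_simp
    _ ≤ ((1 + |σ|) ^ N)⁻¹ * (2 ^ N * (C0 + C1) * Q) := mul_le_mul_of_nonneg_left h3 (by positivity)
    _ = _ := by rw [hQ]; ring

end A11

end Pool.Agent.T2H29.TA
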