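import Pool.Agent.T2H29.TA.A11b

/-!
# Duality: the local theorem
-/

set_option autoImplicit false
set_option linter.unusedSectionVars false

namespace Pool.Agent.T2H29.TA

open Finset NumberField NumberField.InfinitePlace Module MeasureTheory
open Pool.Agent.T2H29.SW
open scoped RealInnerProductSpace ContDiff FourierTransform

namespace A11

/-- the basic test function -/
noncomputable def b0 (t : ℝ) : ℂ := ((bmp t : ℝ) : ℂ)

/-- the basic test function on the line -/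
noncomputable def β0 (x : ℝ) : ℂ := ((bmp (Real.exp x ^ 2) : ℝ) : ℂ)

lemma b0_TB : TB b0 := by
  have h1 : Function.support b0 ⊆ Set.Icc (1 / 2) (3 / 2) := by
    intro t ht
    have h2 : bmp t ≠ 0 := by
      intro h3
      apply ht
      unfold b0
      rw [h3]
      simp
    obtain ⟨h3, h4⟩ := bmp_supp h2
    exact ⟨h3.le, h4.le⟩
  have h2 : tsupport b0 ⊆ Set.Icc (1 / 2) (3 / 2) := closure_minimal h1 isClosed_Icc
  refine ⟨?_, ?_, fun t ht => ?_⟩
  · exact Complex.ofRealCLM.contDiff.comp bmp.contDiff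
  · exact isCompact_Icc.of_isClosed_subset (isClosed_tsupport _) h2
  · have := (h2 ht).1
    show 0 < t
    linarith

lemma β0_out {x : ℝ} (h : 1 < |x|) : β0 x = 0 := by
  by_contra h1
  have h2 : bmp (Real.exp x ^ 2) ≠ 0 := by
    intro h3
    apply h1
    unfold β0
    rw [h3]
    simp
  obtain ⟨h3, h4⟩ := bmp_supp h2
  rcases lt_abs.1 h with h5 | h5
  · have h6 : 1 + x ≤ Real.exp x := by linarith [Real.add_one_le_exp x]
    nlinarith
  · have h6 : 1 + (-x) ≤ Real.exp (-x) := by linarith [Real.add_one_le_exp (-x)]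
    have h7 : Real.exp x * Real.exp (-x) = 1 := by rw [← Real.exp_add]; simp
    have h8 : 0 < Real.exp x := Real.exp_pos x
    nlinarith

lemma β0_TC : TC β0 := by
  refine ⟨?_, ?_⟩
  · exact Complex.ofRealCLM.contDiff.comp (bmp.contDiff.comp (Real.contDiff_exp.pow 2))
  · refine HasCompactSupport.intro (isCompact_Icc (a := (-1 : ℝ)) (b := 1)) fun x hx => ?_
    refine β0_out ?_
    by_contra h
    rw [not_lt, abs_le] at h
    exact hx ⟨h.1, h.2⟩

/-- the constant -/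
noncomputable def c1 : ℝ := ∫ x : ℝ, bmp (Real.exp x ^ 2) ^ 2

lemma c1_pos : 0 < c1 := by
  have hc : Continuous fun x : ℝ => bmp (Real.exp x ^ 2) ^ 2 := by
    have := bmp.continuous
    fun_prop
  refine hc.integral_pos_of_hasCompactSupport_nonneg_nonzero (x := 0) ?_ ?_ ?_
  · refine HasCompactSupport.intro (isCompact_Icc (a := (-1 : ℝ)) (b := 1)) fun x hx => ?_
    have h1 : β0 x = 0 := by
      refine β0_out ?_
      by_contra h
      rw [not_lt, abs_le] at h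
      exact hx ⟨h.1, h.2⟩
    unfold β0 at h1
    have h2 : bmp (Real.exp x ^ 2) = 0 := by exact_mod_cast h1
    rw [h2]
    simp
  · intro x
    positivity
  · have h1 : bmp (Real.exp 0 ^ 2) = 1 := by
      rw [Real.exp_zero, one_pow]
      exact bmp.one_of_mem_closedBall (Metric.mem_closedBall_self bmp.rIn_pos.le)
    rw [h1]
    norm_num

/-- the coefficients -/
noncomputable def mc (r : Bool) (k : ℤ) (τ : ℝ) (p : ℝ × ℝ) : ℂ :=
  ((c1⁻¹ : ℝ) : ℂ) * FT (fun x => Dd r k τ b0 (p.1 + x) * β0 x) p.2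

/-- the weights -/
noncomputable def Wl (s : ℝ) (p : ℝ × ℝ) : ℂ :=
  e (p.2 * (Real.log s - p.1)) * ((bmp ((s * Real.exp (-p.1)) ^ 2) : ℝ) : ℂ)

lemma Wl_eq {s : ℝ} (hs : 0 < s) (p : ℝ × ℝ) : Wl s p =
    e (p.2 * (Real.log s - p.1)) * β0 (Real.log s - p.1) := by
  unfold Wl β0
  rw [sub_eq_add_neg (Real.log s), Real.exp_add, Real.exp_log hs]

lemma FT_cont2 (r : Bool) (k : ℤ) (τ : ℝ) :
    Continuous fun p : ℝ × ℝ => FT (fun x => Dd r k τ b0 (p.1 + x) * β0 x) p.2 := by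
  have h1 : ∀ p : ℝ × ℝ, FT (fun x => Dd r k τ b0 (p.1 + x) * β0 x) p.2 =
      ∫ x in Set.Icc (-1 : ℝ) 1, Dd r k τ b0 (p.1 + x) * β0 x * e (-⟪x, p.2⟫) := by
    intro p
    unfold FT
    rw [setIntegral_eq_integral_of_forall_compl_eq_zero]
    intro x hx
    rw [β0_out, mul_zero, zero_mul]
    by_contra h
    rw [not_lt, abs_le] at h
    exact hx ⟨h.1, h.2⟩
  simp_rw [h1]
  refine continuous_parametric_integral_of_continuous ?_ isCompact_Icc
  have h2 := Dd_cont r k τ b0_TB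
  have h3 := β0_TC.sm.continuous
  have h4 := e_continuous
  fun_prop

lemma mc_cont (r : Bool) (k : ℤ) (τ : ℝ) : Continuous (mc r k τ) :=
  continuous_const.mul (FT_cont2 r k τ)

lemma mc_bound (r : Bool) {ε : ℝ} (hε : 0 < ε) (N2 N : ℕ) : ∃ C : ℝ, 0 < C ∧
    ∀ T k τ, LC r T k τ → ∀ p : ℝ × ℝ, ‖mc r k τ p‖ ≤
      C * (√(T ^ nr r))⁻¹ * (((1 + |p.2|) ^ N)⁻¹ * ((1 + Real.exp p.1 / T ^ (1 + ε)) ^ N2)⁻¹) := by
  obtain ⟨C, hC0, hC⟩ := Mb' r hε N2 N b0_TB β0_TC
  have h0 := c1_pos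
  refine ⟨c1⁻¹ * C, by positivity, fun T k τ hL p => ?_⟩
  unfold mc
  rw [norm_mul, Complex.norm_real, Real.norm_of_nonneg (by positivity)]
  refine (mul_le_mul_of_nonneg_left (hC T k τ hL p.1 p.2) (by positivity)).trans (le_of_eq ?_)
  ring

lemma int_inv2 : Integrable fun σ : ℝ => ((1 + |σ|) ^ 2)⁻¹ := by
  refine integrable_inv_one_add_sq.mono' ?_ (Filter.Eventually.of_forall fun σ => ?_)
  · refine Measurable.aestronglyMeasurable ?_
    fun_prop
  · rw [Real.norm_of_nonneg (by positivity)]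
    refine inv_anti₀ (by positivity) ?_
    nlinarith [abs_nonneg σ, sq_abs σ]

/-- inversion -/
lemma inv (r : Bool) {T : ℝ} {k : ℤ} {τ : ℝ} (hL : LC r T k τ) (u x : ℝ) :
    Dd r k τ b0 (u + x) * β0 x =
      ∫ σ, FT (fun x => Dd r k τ b0 (u + x) * β0 x) σ * e (σ * x) := by
  obtain ⟨C, hC0, hC⟩ := Mb' r one_pos 0 2 b0_TB β0_TC
  obtain ⟨hc, hcs, hi⟩ := Fx_int r k τ b0_TB β0_TC u
  have h3 : Integrable (𝓕 (fun x => Dd r k τ b0 (u + x) * β0 x)) := by
    rw [← FT_eq]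
    refine (int_inv2.const_mul (C * (√(T ^ nr r))⁻¹)).mono' ?_
      (Filter.Eventually.of_forall fun σ => ?_)
    · exact ((FT_cont2 r k τ).comp (Continuous.prodMk_right u)).aestronglyMeasurable
    · have := hC T k τ hL u σ
      simpa using this
  have h4 := hc.fourierInv_fourier_eq hi h3
  have h5 := congrFun h4 x
  rw [Real.fourierInv_eq', ← FT_eq] at h5
  rw [← h5]
  refine integral_congr_ae (Filter.Eventually.of_forall fun ξ => ?_)
  simp only [smul_eq_mul]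
  rw [mul_comm]
  congr 1
  unfold e
  congr 1
  simp
  ring

/-- integrability of the pieces -/
lemma Wl_int (r : Bool) {ε : ℝ} (hε : 0 < ε) (N : ℕ) : ∃ C : ℝ, 0 < C ∧
    ∀ T k τ, LC r T k τ → ∀ s : ℝ, 0 < s → Integrable (fun p => mc r k τ p * Wl s p) ∧
      ∫ p, ‖mc r k τ p * Wl s p‖ ≤ C * ((1 + s / T ^ (1 + ε)) ^ N)⁻¹ := by
  obtain ⟨C, hC0, hC⟩ := mc_bound r hε N 2
  have hi0 : Integrable fun x => ‖β0 x‖ :=
    (β0_TC.sm.continuous.integrable_of_hasCompactSupport β0_TC.cs).norm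
  set I := ∫ x, ‖β0 x‖ with hI
  have hI0 : 0 ≤ I := integral_nonneg fun x => norm_nonneg _
  set J := ∫ σ : ℝ, ((1 + |σ|) ^ 2)⁻¹ with hJ
  have hJ0 : 0 ≤ J := integral_nonneg fun x => by positivity
  refine ⟨C * Real.exp 1 ^ N * (I * J + 1), by positivity, fun T k τ hL s hs => ?_⟩
  have hT0 : 0 < T := by linarith [hL.1]
  set T1 := T ^ (1 + ε) with hT1
  have hT10 : 0 < T1 := Real.rpow_pos_of_pos hT0 _
  have hsq : (√(T ^ nr r))⁻¹ ≤ 1 := by
    refine inv_le_one_of_one_le₀ ?_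
    rw [Real.one_le_sqrt]
    exact one_le_pow₀ (by linarith [hL.1])
  set Q := C * Real.exp 1 ^ N * ((1 + s / T1) ^ N)⁻¹ with hQ
  have hQ0 : 0 ≤ Q := by positivity
  have hb : ∀ p : ℝ × ℝ, ‖mc r k τ p * Wl s p‖ ≤
      Q * (‖β0 (Real.log s - p.1)‖ * ((1 + |p.2|) ^ 2)⁻¹) := by
    intro p
    rw [norm_mul, Wl_eq hs, norm_mul, e_norm, one_mul]
    by_cases h1 : 1 < |Real.log s - p.1|
    · rw [β0_out h1]
      simp
    · rw [not_lt, abs_le] at h1
      have h2 : ((1 + Real.exp p.1 / T1) ^ N)⁻¹ ≤ Real.exp 1 ^ N * ((1 + s / T1) ^ N)⁻¹ := by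
        rw [← div_eq_mul_inv, le_div_iff₀ (by positivity), inv_mul_le_iff₀ (by positivity),
          mul_comm, ← mul_pow]
        refine pow_le_pow_left₀ (by positivity) ?_ _
        have h3 : 1 ≤ Real.exp 1 := Real.one_le_exp zero_le_one
        have h4 : s ≤ Real.exp 1 * Real.exp p.1 := by
          rw [← Real.exp_add]
          nth_rewrite 1 [← Real.exp_log hs]
          refine Real.exp_le_exp.2 ?_
          linarith [h1.2]
        have h5 : s / T1 ≤ Real.exp 1 * (Real.exp p.1 / T1) := by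
          rw [mul_div_assoc']
          exact div_le_div_of_nonneg_right h4 hT10.le
        rw [mul_add, mul_one]
        linarith
      calc ‖mc r k τ p‖ * ‖β0 (Real.log s - p.1)‖ ≤
          C * (√(T ^ nr r))⁻¹ * (((1 + |p.2|) ^ 2)⁻¹ * ((1 + Real.exp p.1 / T1) ^ N)⁻¹) *
            ‖β0 (Real.log s - p.1)‖ := mul_le_mul_of_nonneg_right (hC T k τ hL p) (norm_nonneg _)
        _ ≤ C * 1 * (((1 + |p.2|) ^ 2)⁻¹ * (Real.exp 1 ^ N * ((1 + s / T1) ^ N)⁻¹)) *
            ‖β0 (Real.log s - p.1)‖ := by gcongr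
        _ = _ := by rw [hQ]; ring
  have hi1 : Integrable fun p : ℝ × ℝ => ‖β0 (Real.log s - p.1)‖ * ((1 + |p.2|) ^ 2)⁻¹ := by
    have := hi0.comp_sub_left (Real.log s)
    exact this.mul_prod int_inv2
  have hI2 : ∫ p : ℝ × ℝ, ‖β0 (Real.log s - p.1)‖ * ((1 + |p.2|) ^ 2)⁻¹ = I * J := by
    rw [Measure.volume_eq_prod, integral_prod_mul (fun x : ℝ => ‖β0 (Real.log s - x)‖)
      (fun y : ℝ => ((1 + |y|) ^ 2)⁻¹), integral_sub_left_eq_self (fun x => ‖β0 x‖)]
  have hW : Measurable (Wl s) := by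
    unfold Wl
    have h4 := e_continuous
    have h5 := bmp.continuous
    refine Continuous.measurable ?_
    fun_prop
  have hm : AEStronglyMeasurable (fun p => mc r k τ p * Wl s p) :=
    ((mc_cont r k τ).measurable.mul hW).aestronglyMeasurable
  have hi2 : Integrable (fun p => mc r k τ p * Wl s p) :=
    (hi1.const_mul Q).mono' hm (Filter.Eventually.of_forall hb)
  refine ⟨hi2, ?_⟩
  calc ∫ p, ‖mc r k τ p * Wl s p‖ ≤
      ∫ p : ℝ × ℝ, Q * (‖β0 (Real.log s - p.1)‖ * ((1 + |p.2|) ^ 2)⁻¹) :=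
        integral_mono hi2.norm (hi1.const_mul Q) hb
    _ = Q * (I * J) := by rw [integral_const_mul, hI2]
    _ ≤ Q * (I * J + 1) := mul_le_mul_of_nonneg_left (by linarith) hQ0
    _ = _ := by rw [hQ]; ring

/-- the decomposition -/
lemma FL_dec (r : Bool) {T : ℝ} {k : ℤ} {τ : ℝ} (hL : LC r T k τ) {z : ℂ} (hz : z ≠ 0)
    (hr : Rl r z) : FL r (fun w => uu k τ w * ((bmp (‖w‖ ^ 2) : ℝ) : ℂ)) z =
      uu k (-τ) z * ∫ p : ℝ × ℝ, mc r k τ p * Wl ‖z‖ p := by
  have hs : 0 < ‖z‖ := norm_pos_iff.2 hz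
  have h1 := FL_eq r k τ b0_TB hz hr
  have h2 : (fun w : ℂ => uu k τ w * ((bmp (‖w‖ ^ 2) : ℝ) : ℂ)) = fun w => uu k τ w * b0 (‖w‖ ^ 2) := rfl
  rw [h2, h1]
  congr 1
  obtain ⟨C, -, hC⟩ := Wl_int r one_pos 0
  have hi := (hC T k τ hL ‖z‖ hs).1
  rw [Measure.volume_eq_prod] at hi ⊢
  rw [integral_prod _ hi]
  set ℓ := Real.log ‖z‖ with hℓ
  have h3 : ∀ u : ℝ, ∫ σ : ℝ, mc r k τ (u, σ) * Wl ‖z‖ (u, σ) =
      ((c1⁻¹ : ℝ) : ℂ) * Dd r k τ b0 ℓ * (β0 (ℓ - u) * β0 (ℓ - u)) := by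
    intro u
    have h4 := inv r hL u (ℓ - u)
    have h5 : ∀ σ : ℝ, mc r k τ (u, σ) * Wl ‖z‖ (u, σ) = ((c1⁻¹ : ℝ) : ℂ) * β0 (ℓ - u) *
        (FT (fun x => Dd r k τ b0 (u + x) * β0 x) σ * e (σ * (ℓ - u))) := by
      intro σ
      rw [Wl_eq hs]
      unfold mc
      simp only
      ring
    simp_rw [h5]
    rw [integral_const_mul, ← h4, add_sub_cancel]
    ring
  simp_rw [h3]
  rw [integral_const_mul, integral_sub_left_eq_self (fun x => β0 x * β0 x)]
  have h6 : ∫ x, β0 x * β0 x = ((c1 : ℝ) : ℂ) := by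
    unfold c1
    rw [← integral_complex_ofReal]
    refine integral_congr_ae (Filter.Eventually.of_forall fun x => ?_)
    simp only [β0]
    push_cast
    ring
  rw [h6]
  have h7 : (c1 : ℂ) ≠ 0 := by exact_mod_cast c1_pos.ne'
  push_cast
  field_simp

/-- integrability of `exp (a v) / (1 + exp v) ^ N` -/
lemma int_h {a : ℝ} (ha : 0 < a) {N : ℕ} (hN : a + 1 ≤ N) :
    Integrable fun v : ℝ => Real.exp (a * v) * ((1 + Real.exp v) ^ N)⁻¹ := by
  set c := min a 1 with hc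
  have hc0 : 0 < c := lt_min ha one_pos
  have hca : c ≤ a := min_le_left _ _
  have hc1 : c ≤ 1 := min_le_right _ _
  have h1 : ∀ v : ℝ, Real.exp (a * v) * ((1 + Real.exp v) ^ N)⁻¹ ≤ 2 / c ^ 2 * (1 + v ^ 2)⁻¹ := by
    intro v
    have h2 : Real.exp (a * v) * ((1 + Real.exp v) ^ N)⁻¹ ≤ Real.exp (-(c * |v|)) := by
      have h3 : 0 < Real.exp v := Real.exp_pos v
      rcases le_total v 0 with hv | hv
      · have h4 : ((1 + Real.exp v) ^ N)⁻¹ ≤ 1 :=
          inv_le_one_of_one_le₀ (one_le_pow₀ (by linarith))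
        have h5 : Real.exp (a * v) ≤ Real.exp (-(c * |v|)) := by
          refine Real.exp_le_exp.2 ?_
          rw [abs_of_nonpos hv]
          nlinarith
        calc _ ≤ Real.exp (a * v) * 1 := mul_le_mul_of_nonneg_left h4 (Real.exp_pos _).le
          _ = Real.exp (a * v) := mul_one _
          _ ≤ _ := h5
      · have h4 : Real.exp ((a + 1) * v) ≤ (1 + Real.exp v) ^ N := by
          calc Real.exp ((a + 1) * v) ≤ Real.exp (N * v) :=
                Real.exp_le_exp.2 (mul_le_mul_of_nonneg_right hN hv)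
            _ = Real.exp v ^ N := Real.exp_nat_mul v N
            _ ≤ _ := pow_le_pow_left₀ h3.le (by linarith) _
        have h5 : ((1 + Real.exp v) ^ N)⁻¹ ≤ Real.exp (-((a + 1) * v)) := by
          rw [Real.exp_neg]
          exact inv_anti₀ (Real.exp_pos _) h4
        calc _ ≤ Real.exp (a * v) * Real.exp (-((a + 1) * v)) :=
              mul_le_mul_of_nonneg_left h5 (Real.exp_pos _).le
          _ = Real.exp (-v) := by
              rw [← Real.exp_add]
              congr 1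
              ring
          _ ≤ _ := by
              refine Real.exp_le_exp.2 ?_
              rw [abs_of_nonneg hv]
              nlinarith
    refine h2.trans ?_
    have h6 := Real.quadratic_le_exp_of_nonneg (x := c * |v|) (by positivity)
    have h7 : c ^ 2 / 2 * (1 + v ^ 2) ≤ Real.exp (c * |v|) := by
      refine le_trans ?_ h6
      have h8 : (c * |v|) ^ 2 = c ^ 2 * v ^ 2 := by rw [mul_pow, sq_abs]
      rw [h8]
      have h9 : 0 ≤ c * |v| := by positivity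
      nlinarith
    rw [Real.exp_neg]
    have h10 := inv_anti₀ (by positivity) h7
    refine h10.trans (le_of_eq ?_)
    rw [mul_inv, inv_div]
  refine (integrable_inv_one_add_sq.const_mul (2 / c ^ 2)).mono' ?_
    (Filter.Eventually.of_forall fun v => ?_)
  · refine Continuous.aestronglyMeasurable ?_
    refine Continuous.mul (by fun_prop) (Continuous.inv₀ (by fun_prop) fun x => ?_)
    positivity
  · rw [Real.norm_of_nonneg (by positivity)]
    exact h1 v

/-- the weighted integrals -/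
lemma mc_wt (r : Bool) {ε : ℝ} (hε : 0 < ε) {a : ℝ} (ha : 0 < a) (A : ℕ) : ∃ C : ℝ, 0 < C ∧
    ∀ T k τ, LC r T k τ →
      Integrable (fun p : ℝ × ℝ => ‖mc r k τ p‖ * (Real.exp (a * p.1) * (1 + |p.2|) ^ A)) ∧
      ∫ p : ℝ × ℝ, ‖mc r k τ p‖ * (Real.exp (a * p.1) * (1 + |p.2|) ^ A) ≤
        C * (√(T ^ nr r))⁻¹ * (T ^ (1 + ε)) ^ a := by
  obtain ⟨N, hN⟩ := exists_nat_ge (a + 1)
  obtain ⟨C, hC0, hC⟩ := mc_bound r hε N (A + 2)
  have hih := int_h ha hN
  set I := ∫ v : ℝ, Real.exp (a * v) * ((1 + Real.exp v) ^ N)⁻¹ with hI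
  have hI0 : 0 ≤ I := integral_nonneg fun x => by positivity
  set J := ∫ σ : ℝ, ((1 + |σ|) ^ 2)⁻¹ with hJ
  have hJ0 : 0 ≤ J := integral_nonneg fun x => by positivity
  refine ⟨C * (I * J + 1), by positivity, fun T k τ hL => ?_⟩
  have hT0 : 0 < T := by linarith [hL.1]
  set T1 := T ^ (1 + ε) with hT1
  have hT10 : 0 < T1 := Real.rpow_pos_of_pos hT0 _
  set L := Real.log T1 with hLdef
  have hb : ∀ p : ℝ × ℝ, ‖mc r k τ p‖ * (Real.exp (a * p.1) * (1 + |p.2|) ^ A) ≤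
      C * (√(T ^ nr r))⁻¹ * T1 ^ a * ((Real.exp (a * (p.1 - L)) * ((1 + Real.exp (p.1 - L)) ^ N)⁻¹) *
        ((1 + |p.2|) ^ 2)⁻¹) := by
    intro p
    have h1 : Real.exp (p.1 - L) = Real.exp p.1 / T1 := by
      rw [Real.exp_sub, hLdef, Real.exp_log hT10]
    have h2 : Real.exp (a * p.1) = T1 ^ a * Real.exp (a * (p.1 - L)) := by
      rw [Real.rpow_def_of_pos hT10, ← hLdef, ← Real.exp_add]
      congr 1
      ring
    rw [h1]
    calc ‖mc r k τ p‖ * (Real.exp (a * p.1) * (1 + |p.2|) ^ A) ≤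
        C * (√(T ^ nr r))⁻¹ * (((1 + |p.2|) ^ (A + 2))⁻¹ * ((1 + Real.exp p.1 / T1) ^ N)⁻¹) *
          (Real.exp (a * p.1) * (1 + |p.2|) ^ A) :=
          mul_le_mul_of_nonneg_right (hC T k τ hL p) (by positivity)
      _ = _ := by
          rw [h2, pow_add]
          have : (1 + |p.2|) ^ A ≠ 0 := by positivity
          field_simp
  have hi1 : Integrable fun p : ℝ × ℝ => (Real.exp (a * (p.1 - L)) *
      ((1 + Real.exp (p.1 - L)) ^ N)⁻¹) * ((1 + |p.2|) ^ 2)⁻¹ :=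
    (hih.comp_sub_right L).mul_prod int_inv2
  have hI2 : ∫ p : ℝ × ℝ, (Real.exp (a * (p.1 - L)) *
      ((1 + Real.exp (p.1 - L)) ^ N)⁻¹) * ((1 + |p.2|) ^ 2)⁻¹ = I * J := by
    rw [Measure.volume_eq_prod, integral_prod_mul (fun x : ℝ => Real.exp (a * (x - L)) *
      ((1 + Real.exp (x - L)) ^ N)⁻¹) (fun y : ℝ => ((1 + |y|) ^ 2)⁻¹),
      integral_sub_right_eq_self (fun x => Real.exp (a * x) * ((1 + Real.exp x) ^ N)⁻¹)]
  have hm : AEStronglyMeasurable
      (fun p : ℝ × ℝ => ‖mc r k τ p‖ * (Real.exp (a * p.1) * (1 + |p.2|) ^ A)) := by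
    have := mc_cont r k τ
    refine Continuous.aestronglyMeasurable ?_
    fun_prop
  have hi2 : Integrable (fun p : ℝ × ℝ => ‖mc r k τ p‖ * (Real.exp (a * p.1) * (1 + |p.2|) ^ A)) := by
    refine (hi1.const_mul (C * (√(T ^ nr r))⁻¹ * T1 ^ a)).mono' hm
      (Filter.Eventually.of_forall fun p => ?_)
    rw [Real.norm_of_nonneg (by positivity)]
    exact hb p
  refine ⟨hi2, ?_⟩
  calc _ ≤ ∫ p : ℝ × ℝ, C * (√(T ^ nr r))⁻¹ * T1 ^ a * ((Real.exp (a * (p.1 - L)) *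
        ((1 + Real.exp (p.1 - L)) ^ N)⁻¹) * ((1 + |p.2|) ^ 2)⁻¹) :=
        integral_mono hi2 (hi1.const_mul _) hb
    _ = C * (√(T ^ nr r))⁻¹ * T1 ^ a * (I * J) := by rw [integral_const_mul, hI2]
    _ ≤ C * (√(T ^ nr r))⁻¹ * T1 ^ a * (I * J + 1) :=
        mul_le_mul_of_nonneg_left (by linarith) (by positivity)
    _ = _ := by ring

end A11

end Pool.Agent.T2H29.TA
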