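import Pool.Agent.T2H29.TA.A1

/-!
# Counting lattice points
-/

set_option autoImplicit false
set_option linter.unusedSectionVars false

namespace Pool.Agent.T2H29.TA

open Finset NumberField NumberField.InfinitePlace Module MeasureTheory
open Pool.Agent.T2H29.SW
open scoped RealInnerProductSpace ContDiff

variable (K : Type) [Field K] [NumberField K]

/-! ## auxiliary facts -/

lemma a2_lam (s : InfinitePlace K → ℝ) (v : EK K) (w : InfinitePlace K) :
    lamK K w (WithLp.toLp 2 ((Ds K s).mulVec v.ofLp)) =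
      ((Real.exp (s w) : ℝ) : ℂ) * lamK K w v := by
  classical
  set o : Fin (dg K) := ⟨0, Nat.pos_of_ne_zero (NeZero.ne (dg K))⟩ with ho
  set A : Matrix (Fin (dg K)) (Fin (dg K)) ℝ := Matrix.of fun i _ => v.ofLp i with hA
  have e0 : ∀ M : Matrix (Fin (dg K)) (Fin (dg K)) ℝ,
      M.mulVec (cz (Pi.single o (1 : ℤ))) = fun i => M i o := by
    intro M
    have : cz (Pi.single o (1 : ℤ)) = Pi.single o (1 : ℝ) := by
      funext i
      unfold cz
      by_cases h : i = o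
      · subst h; simp
      · simp [h]
    rw [this, Matrix.mulVec_single_one]
    rfl
  have h := lam_Ds K s A (Pi.single o (1 : ℤ)) w
  unfold vc at h
  rw [← Matrix.mulVec_mulVec, e0 A] at h
  exact h

lemma a2_lam2 (s : InfinitePlace K → ℝ) (v : EK K) :
    ∑ i, ((Ds K s).mulVec v.ofLp) i ^ 2 =
      ∑ w, (mult w : ℝ) * (Real.exp (s w) * ‖lamK K w v‖) ^ 2 := by
  have h := lamK_norm K (WithLp.toLp 2 ((Ds K s).mulVec v.ofLp))
  rw [EuclideanSpace.norm_sq_eq] at h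
  have e1 : ∑ i, ((Ds K s).mulVec v.ofLp) i ^ 2 =
      ∑ i, ‖(WithLp.toLp 2 ((Ds K s).mulVec v.ofLp) : EK K) i‖ ^ 2 := by
    refine sum_congr rfl fun i _ => ?_
    simp
  rw [e1, h]
  refine sum_congr rfl fun w _ => ?_
  rw [a2_lam, norm_mul, Complex.norm_real, Real.norm_of_nonneg (Real.exp_pos _).le]

/-- the centre -/
noncomputable def a2c (A : Matrix (Fin (dg K)) (Fin (dg K)) ℝ) (v0 : EK K) : Fin (dg K) → ℝ :=
  -(A⁻¹.mulVec v0.ofLp)

lemma a2_q {A : Matrix (Fin (dg K)) (Fin (dg K)) ℝ} (hA : A.det ≠ 0) (s : InfinitePlace K → ℝ)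
    (v0 : EK K) (z : Fin (dg K) → ℤ) : q (Ds K s * A) (cz z - a2c K A v0) =
      ∑ w, (mult w : ℝ) * (Real.exp (s w) * ‖lamK K w (v0 + vc A z)‖) ^ 2 := by
  rw [← a2_lam2]
  unfold q
  have h : (Ds K s * A).mulVec (cz z - a2c K A v0) = (Ds K s).mulVec (v0 + vc A z).ofLp := by
    rw [← Matrix.mulVec_mulVec]
    congr 1
    unfold a2c
    rw [sub_neg_eq_add, Matrix.mulVec_add, Matrix.mulVec_mulVec,
      Matrix.mul_nonsing_inv _ (isUnit_iff_ne_zero.2 hA), Matrix.one_mulVec, WithLp.ofLp_add,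
      add_comm]
    rfl
  rw [h]

lemma a2_q0 (s : InfinitePlace K → ℝ) (A : Matrix (Fin (dg K)) (Fin (dg K)) ℝ)
    (z : Fin (dg K) → ℤ) : q (Ds K s * A) (cz z) =
      ∑ w, (mult w : ℝ) * (Real.exp (s w) * ‖lamK K w (vc A z)‖) ^ 2 := by
  rw [← a2_lam2]
  unfold q
  rw [← Matrix.mulVec_mulVec]
  rfl

lemma a2_Mv (A : Matrix (Fin (dg K)) (Fin (dg K)) ℝ) {R : InfinitePlace K → ℝ}
    (hR : ∀ w, 0 < R w) : Mv (Ds K (fun w => -Real.log (R w)) * A) =
      Mv A * ∏ w, R w ^ mult w := by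
  rw [Mv_Ds]
  congr 1
  have e1 : -(∑ w, (mult w : ℝ) * -Real.log (R w)) = ∑ w, Real.log (R w ^ mult w) := by
    rw [← sum_neg_distrib]
    refine sum_congr rfl fun w _ => ?_
    rw [Real.log_pow]; ring
  rw [e1, Real.exp_sum]
  refine prod_congr rfl fun w _ => ?_
  rw [Real.exp_log (pow_pos (hR w) _)]

lemma a2_exp {x : ℝ} (hx : 0 < x) : Real.exp (-Real.log x) = x⁻¹ := by
  rw [Real.exp_neg, Real.exp_log hx]

lemma a2_mult : ∑ w : InfinitePlace K, (mult w : ℝ) = dg K := by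
  have h := InfinitePlace.sum_mult_eq (K := K)
  exact_mod_cast h

lemma a2_qle {R : InfinitePlace K → ℝ} (hR : ∀ w, 0 < R w) {x : InfinitePlace K → ℝ}
    (hx0 : ∀ w, 0 ≤ x w) (hx : ∀ w, x w ≤ R w) :
    ∑ w : InfinitePlace K, (mult w : ℝ) * (Real.exp (-Real.log (R w)) * x w) ^ 2 ≤ dg K := by
  rw [← a2_mult]
  refine sum_le_sum fun w _ => ?_
  rw [a2_exp (hR w)]
  have h1 : (R w)⁻¹ * x w ≤ 1 := by
    rw [inv_mul_le_iff₀ (hR w), mul_one]
    exact hx w
  have h2 : ((R w)⁻¹ * x w) ^ 2 ≤ 1 :=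
    pow_le_one₀ (mul_nonneg (inv_nonneg.2 (hR w).le) (hx0 w)) h1
  have h3 : (0 : ℝ) ≤ mult w := by positivity
  calc (mult w : ℝ) * ((R w)⁻¹ * x w) ^ 2 ≤ mult w * 1 := mul_le_mul_of_nonneg_left h2 h3
    _ = _ := mul_one _

lemma a2_det {A : Matrix (Fin (dg K)) (Fin (dg K)) ℝ} (hA : A.det ≠ 0)
    (s : InfinitePlace K → ℝ) : (Ds K s * A).det ≠ 0 := by
  rw [Matrix.det_mul]
  exact mul_ne_zero (Ds_det_ne K s) hA

lemma a2_B {B : ℝ} {A : Matrix (Fin (dg K)) (Fin (dg K)) ℝ} (hA : A.det ≠ 0) (h : CB B A) :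
    0 < B := by
  have h1 := h 1 one_pos 0
  rw [one_smul] at h1
  have h2 := (gs_summable hA (0 : Fin (dg K) → ℝ)).le_tsum 0 (fun z _ => (gs_pos _ _ _).le)
  rw [gs_zero] at h2
  have h3 := Mv_pos hA
  by_contra hB
  push Not at hB
  nlinarith

/-- the number of points in a box -/
theorem cnt_le (B : ℝ) : ∃ C : ℝ, 0 < C ∧ ∀ A, GB K B A → ∀ (v0 : EK K)
    (R : InfinitePlace K → ℝ), (∀ w, 0 < R w) → ∀ S : Finset (Fin (dg K) → ℤ),
    (∀ z ∈ S, ∀ w, ‖lamK K w (v0 + vc A z)‖ ≤ R w) →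
    (S.card : ℝ) ≤ C * (1 + Mv A * ∏ w, R w ^ mult w) := by
  refine ⟨(|B| + 1) * Real.exp (Real.pi * dg K), by positivity, ?_⟩
  intro A hA v0 R hR S hS
  set s : InfinitePlace K → ℝ := fun w => -Real.log (R w) with hs
  have hd := a2_det K hA.1 s
  have hCB := hA.2 s
  have hB := a2_B K hd hCB
  have h1 := hCB.one (a2c K A v0)
  rw [hs, a2_Mv K A hR, ← hs] at h1
  have h2 : ∀ z ∈ S, Real.exp (-(Real.pi * dg K)) ≤ gs (Ds K s * A) (a2c K A v0) z := by
    intro z hz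
    unfold gs
    rw [a2_q K hA.1, Real.exp_le_exp]
    have := a2_qle K hR (fun w => norm_nonneg (lamK K w (v0 + vc A z))) (hS z hz)
    have hpi := Real.pi_pos
    simp only [hs]
    nlinarith
  have h3 : (S.card : ℝ) * Real.exp (-(Real.pi * dg K)) ≤ ∑' z, gs (Ds K s * A) (a2c K A v0) z := by
    calc (S.card : ℝ) * Real.exp (-(Real.pi * dg K)) = ∑ z ∈ S, Real.exp (-(Real.pi * dg K)) := by
          rw [sum_const, nsmul_eq_mul]
      _ ≤ ∑ z ∈ S, gs (Ds K s * A) (a2c K A v0) z := sum_le_sum h2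
      _ ≤ _ := (gs_summable hd _).sum_le_tsum _ fun z _ => (gs_pos _ _ _).le
  have h4 := h3.trans h1
  set M := Mv A * ∏ w, R w ^ mult w with hM
  have hM0 : 0 < M := mul_pos (Mv_pos hA.1) (prod_pos fun w _ => pow_pos (hR w) _)
  have e1 : Real.exp (-(Real.pi * dg K)) * Real.exp (Real.pi * dg K) = 1 := by
    rw [← Real.exp_add]; simp
  calc (S.card : ℝ) = (S.card * Real.exp (-(Real.pi * dg K))) * Real.exp (Real.pi * dg K) := by
        rw [mul_assoc, e1, mul_one]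
    _ ≤ (B * (1 + M)) * Real.exp (Real.pi * dg K) :=
        mul_le_mul_of_nonneg_right h4 (Real.exp_pos _).le
    _ ≤ ((|B| + 1) * (1 + M)) * Real.exp (Real.pi * dg K) := by
        refine mul_le_mul_of_nonneg_right ?_ (Real.exp_pos _).le
        refine mul_le_mul_of_nonneg_right ?_ (by linarith)
        have := le_abs_self B
        linarith
    _ = _ := by ring

theorem cnt_fin {A : Matrix (Fin (dg K)) (Fin (dg K)) ℝ} (hA : A.det ≠ 0) (v0 : EK K) (R : ℝ) :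
    {z : Fin (dg K) → ℤ | ∀ w, ‖lamK K w (v0 + vc A z)‖ ≤ R}.Finite := by
  set R' := max R 1 with hR'
  have hR'0 : 0 < R' := lt_of_lt_of_le one_pos (le_max_right _ _)
  have hd := a2_det K hA (fun _ => -Real.log R')
  have h1 := (gs_summable hd (a2c K A v0)).tendsto_cofinite_zero
  have h2 : ∀ᶠ z in Filter.cofinite, gs (Ds K (fun _ => -Real.log R') * A) (a2c K A v0) z <
      Real.exp (-(Real.pi * dg K)) :=
    h1.eventually_lt_const (Real.exp_pos _)
  rw [Filter.eventually_cofinite] at h2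
  refine h2.subset fun z hz => ?_
  simp only [Set.mem_ofPred_eq, not_lt]
  unfold gs
  rw [a2_q K hA, Real.exp_le_exp]
  have := a2_qle K (R := fun _ => R') (fun _ => hR'0)
    (fun w => norm_nonneg (lamK K w (v0 + vc A z))) (fun w => (hz w).trans (le_max_left _ _))
  have hpi := Real.pi_pos
  nlinarith

theorem cnt_ne (B : ℝ) : ∃ C : ℝ, 0 < C ∧ ∀ A, GB K B A →
    ∀ (R : InfinitePlace K → ℝ), (∀ w, 0 < R w) → ∀ S : Finset (Fin (dg K) → ℤ),
    (∀ z ∈ S, z ≠ 0 ∧ ∀ w, ‖lamK K w (vc A z)‖ ≤ R w) →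
    (S.card : ℝ) ≤ C * (Mv A * ∏ w, R w ^ mult w) := by
  obtain ⟨C, hC, h⟩ := cnt_le K B
  -- the separation constant
  set κ : ℝ := Real.exp (-(2 * Real.pi)) / (4 * B ^ 2) with hκ
  set n : ℕ := dg K with hn
  refine ⟨C * (1 + ((Real.sqrt (κ / n)) ^ n)⁻¹), by positivity, ?_⟩
  intro A hA R hR S hS
  set s : InfinitePlace K → ℝ := fun w => -Real.log (R w) with hs
  have hd := a2_det K hA.1 s
  have hCB := hA.2 s
  have hB := a2_B K hd hCB
  have hn0 : (0 : ℝ) < n := by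
    have : 0 < n := Nat.pos_of_ne_zero (NeZero.ne (dg K))
    exact_mod_cast this
  have hκ0 : 0 < κ := by positivity
  set M := Mv A * ∏ w, R w ^ mult w with hM
  have hM0 : 0 < M := mul_pos (Mv_pos hA.1) (prod_pos fun w _ => pow_pos (hR w) _)
  rcases S.eq_empty_or_nonempty with rfl | ⟨z, hz⟩
  · rw [card_empty, Nat.cast_zero]
    positivity
  -- separation
  have hm : (0 : ℝ) < M ^ ((n : ℝ)⁻¹) := Real.rpow_pos_of_pos hM0 _
  have hmM : (M ^ ((n : ℝ)⁻¹)) ^ Fintype.card (Fin (dg K)) = Mv (Ds K s * A) := by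
    rw [hs, a2_Mv K A hR, ← hM, Fintype.card_fin, ← hn, ← Real.rpow_natCast,
      ← Real.rpow_mul hM0.le, inv_mul_cancel₀ hn0.ne', Real.rpow_one]
  have h1 := sep hd hCB (hS z hz).1 hm hmM
  rw [← hκ, a2_q0] at h1
  have h2 := h1.trans (a2_qle K hR (fun w => norm_nonneg (lamK K w (vc A z))) (hS z hz).2)
  set m := M ^ ((n : ℝ)⁻¹) with hmdef
  have h3 : κ / n ≤ m ^ 2 := by
    rw [div_le_iff₀ (by positivity)] at h2 ⊢
    linarith
  have h4 : Real.sqrt (κ / n) ≤ m := by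
    rw [Real.sqrt_le_left hm.le]
    exact h3
  have h5 : (Real.sqrt (κ / n)) ^ n ≤ M := by
    have : M = m ^ n := by
      rw [hmdef, ← Real.rpow_natCast, ← Real.rpow_mul hM0.le, inv_mul_cancel₀ hn0.ne',
        Real.rpow_one]
    rw [this]
    exact pow_le_pow_left₀ (Real.sqrt_nonneg _) h4 n
  have hκn : 0 < (Real.sqrt (κ / n)) ^ n := by positivity
  have h6 : (1 : ℝ) ≤ ((Real.sqrt (κ / n)) ^ n)⁻¹ * M := by
    rw [le_inv_mul_iff₀ hκn, mul_one]
    exact h5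
  have h7 := h A hA 0 R hR S (fun z hz w => by
    rw [zero_add]; exact (hS z hz).2 w)
  refine h7.trans ?_
  rw [← hM, mul_assoc]
  refine mul_le_mul_of_nonneg_left ?_ hC.le
  linarith

lemma a2_poisson {A : Matrix (Fin (dg K)) (Fin (dg K)) ℝ} (hA : A.det ≠ 0) :
    Mv A ≤ ∑' z, gs A 0 z := by
  have h := gs_poisson hA 0 0
  simp only [Pi.zero_apply, zero_mul, sum_const_zero, e_zero, mul_one] at h
  have h2 : (∑' z, gs A 0 z : ℝ) = |A.det|⁻¹ * ∑' y, gs (du A) 0 y := by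
    have e1 : ((∑' z, gs A 0 z : ℝ) : ℂ) = ((|A.det|⁻¹ * ∑' y, gs (du A) 0 y : ℝ) : ℂ) := by
      push_cast
      rw [h]
      push_cast
      rfl
    exact_mod_cast e1
  rw [h2]
  have h3 := (gs_summable (du_det_ne hA) (0 : Fin (dg K) → ℝ)).le_tsum 0
    (fun z _ => (gs_pos _ _ _).le)
  rw [gs_zero] at h3
  show |A.det|⁻¹ ≤ _
  exact le_mul_of_one_le_right (inv_nonneg.2 (abs_nonneg _)) h3

theorem cnt_ge (B : ℝ) : ∃ c C : ℝ, 0 < c ∧ 0 < C ∧ ∀ A, GB K B A →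
    ∀ (R : InfinitePlace K → ℝ), (∀ w, 0 < R w) → C ≤ Mv A * ∏ w, R w ^ mult w →
    ∃ S : Finset (Fin (dg K) → ℤ), (∀ z ∈ S, ∀ w, ‖lamK K w (vc A z)‖ ≤ R w) ∧
    c * (Mv A * ∏ w, R w ^ mult w) ≤ S.card := by
  set n : ℕ := dg K with hn
  -- the scale
  set b : ℝ := 4 * (|B| + 1) * 2 ^ n with hb
  have hb0 : 0 < b := by positivity
  set t : ℝ := √b with ht
  have ht0 : 0 < t := Real.sqrt_pos.2 hb0
  have htb : t ^ 2 = b := Real.sq_sqrt hb0.le
  refine ⟨1 / (2 * t ^ n), t ^ n, by positivity, by positivity, ?_⟩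
  intro A hA R hR hC
  set s : InfinitePlace K → ℝ := fun w => -Real.log (R w) with hs
  set A' := Ds K s * A with hA'
  have hd : A'.det ≠ 0 := a2_det K hA.1 s
  have hCB : CB B A' := hA.2 s
  have hB := a2_B K hd hCB
  set M := Mv A * ∏ w, R w ^ mult w with hM
  have hM0 : 0 < M := mul_pos (Mv_pos hA.1) (prod_pos fun w _ => pow_pos (hR w) _)
  have hMA : Mv A' = M := by rw [hA', hs, a2_Mv K A hR]
  have hfin : {z : Fin (dg K) → ℤ | ∀ w, ‖lamK K w (0 + vc A' z)‖ ≤ 1}.Finite :=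
    cnt_fin K hd 0 1
  have hlam : ∀ z w, ‖lamK K w (vc A' z)‖ = (R w)⁻¹ * ‖lamK K w (vc A z)‖ := by
    intro z w
    rw [hA', lam_Ds, norm_mul, Complex.norm_real, Real.norm_of_nonneg (Real.exp_pos _).le, hs,
      a2_exp (hR w)]
  refine ⟨hfin.toFinset, ?_, ?_⟩
  · intro z hz w
    rw [Set.Finite.mem_toFinset] at hz
    have h1 := hz w
    rw [zero_add, hlam, inv_mul_le_iff₀ (hR w), mul_one] at h1
    exact h1
  -- the Gaussian sums
  have hdt : (t • A').det ≠ 0 := smul_det_ne ht0.ne' hd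
  set u : ℝ := t / √2 with hu
  have hu0 : 0 < u := by positivity
  have hu2 : u ^ 2 = t ^ 2 / 2 := by
    rw [hu, div_pow, Real.sq_sqrt (by norm_num : (0 : ℝ) ≤ 2)]
  have hdu : (u • A').det ≠ 0 := smul_det_ne hu0.ne' hd
  have h1 : Mv (t • A') ≤ ∑' z, gs (t • A') 0 z := a2_poisson K hdt
  have hMt : Mv (t • A') = M / t ^ n := by rw [Mv_smul ht0, hMA, Fintype.card_fin]
  have hMu : Mv (u • A') ≤ 2 ^ n * (M / t ^ n) := by
    rw [Mv_smul hu0, hMA, Fintype.card_fin, ← hn, hu, div_pow, div_div_eq_mul_div,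
      mul_comm M, mul_div_assoc]
    refine mul_le_mul_of_nonneg_right ?_ (by positivity)
    refine pow_le_pow_left₀ (by positivity) ?_ n
    rw [Real.sqrt_le_left (by norm_num)]
    norm_num
  set E : ℝ := Real.exp (-(Real.pi * t ^ 2 / 2)) with hE
  have hE0 : 0 < E := Real.exp_pos _
  have hEb : E ≤ 1 / b := by
    rw [hE, Real.exp_neg, ← one_div]
    refine one_div_le_one_div_of_le hb0 ?_
    have h2 := Real.add_one_le_exp (Real.pi * t ^ 2 / 2)
    have h3 := Real.pi_gt_three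
    rw [htb] at h2 ⊢
    nlinarith
  have h2 : ∀ z, gs (t • A') 0 z ≤ (if z ∈ hfin.toFinset then 1 else 0) +
      E * gs (u • A') 0 z := by
    intro z
    by_cases hz : z ∈ hfin.toFinset
    · rw [if_pos hz]
      have h3 : gs (t • A') 0 z ≤ 1 := by
        unfold gs
        rw [Real.exp_le_one_iff]
        have := q_nonneg (t • A') (cz z - 0)
        have := Real.pi_pos
        nlinarith
      have := mul_pos hE0 (gs_pos (u • A') 0 z)
      linarith
    · rw [if_neg hz, zero_add]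
      rw [Set.Finite.mem_toFinset, Set.mem_ofPred_eq] at hz
      push Not at hz
      obtain ⟨w, hw⟩ := hz
      rw [zero_add] at hw
      have h3 : 1 ≤ q A' (cz z) := by
        rw [← vc_norm, lamK_norm]
        refine le_trans ?_ (single_le_sum (f := fun w => (mult w : ℝ) * ‖lamK K w (vc A' z)‖ ^ 2)
          (fun w _ => by positivity) (mem_univ w))
        have h4 : (1 : ℝ) ≤ mult w := by exact_mod_cast mult_pos
        have h5 : 1 ≤ ‖lamK K w (vc A' z)‖ ^ 2 := one_le_pow₀ hw.le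
        show (1 : ℝ) ≤ (mult w : ℝ) * ‖lamK K w (vc A' z)‖ ^ 2
        nlinarith
      unfold gs
      rw [hE, ← Real.exp_add, Real.exp_le_exp, sub_zero, q_smul, q_smul, hu2]
      have := Real.pi_pos
      have h6 : 0 ≤ Real.pi * t ^ 2 / 2 := by positivity
      nlinarith
  have hs1 : Summable fun z : Fin (dg K) → ℤ => (if z ∈ hfin.toFinset then (1 : ℝ) else 0) :=
    summable_of_hasFiniteSupport (hfin.toFinset.finite_toSet.subset fun z hz => by
      simp only [Function.mem_support, ne_eq, ite_eq_right_iff, one_ne_zero, imp_false,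
        not_not] at hz
      exact hz)
  have hs2 := (gs_summable hdu (0 : Fin (dg K) → ℝ)).mul_left E
  have h3 := (gs_summable hdt (0 : Fin (dg K) → ℝ)).tsum_le_tsum h2 (hs1.add hs2)
  rw [hs1.tsum_add hs2, tsum_mul_left] at h3
  have h4 : ∑' z : Fin (dg K) → ℤ, (if z ∈ hfin.toFinset then (1 : ℝ) else 0) =
      hfin.toFinset.card := by
    rw [tsum_eq_sum (s := hfin.toFinset) (fun z hz => if_neg hz)]
    rw [sum_congr rfl (fun z hz => if_pos hz), sum_const, nsmul_eq_mul, mul_one]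
  rw [h4] at h3
  have h5 := hCB u hu0 0
  have hX0 : 0 < M / t ^ n := by positivity
  have hX1 : 1 ≤ M / t ^ n := by
    rw [le_div_iff₀ (by positivity), one_mul]
    exact hC
  set X := M / t ^ n with hX
  have h6 : E * ∑' z, gs (u • A') 0 z ≤ X / 2 := by
    have h7 : ∑' z, gs (u • A') 0 z ≤ (|B| + 1) * (2 ^ n * (2 * X)) := by
      refine h5.trans ?_
      have hB1 : B ≤ |B| + 1 := by have := le_abs_self B; linarith
      have h2n : (1 : ℝ) ≤ 2 ^ n := one_le_pow₀ (by norm_num)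
      refine mul_le_mul hB1 ?_ (by have := Mv_pos hdu; linarith) (by positivity)
      nlinarith
    calc E * ∑' z, gs (u • A') 0 z ≤ (1 / b) * ((|B| + 1) * (2 ^ n * (2 * X))) := by
          refine mul_le_mul hEb h7 (tsum_nonneg fun z => (gs_pos _ _ _).le) (by positivity)
      _ = X / 2 := by
          rw [hb]
          field_simp
          ring
  rw [hMt] at h1
  have h8 : X / 2 ≤ hfin.toFinset.card := by linarith
  calc 1 / (2 * t ^ n) * M = X / 2 := by rw [hX]; field_simp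
    _ ≤ _ := h8

lemma a2_shell {N : ℕ} {X : ℝ} (hX : 0 ≤ X) : ∃ J : ℕ, X ≤ 2 ^ J ∧
    ((1 + X) ^ N)⁻¹ ≤ 2 ^ N * ((2 : ℝ) ^ (J * N))⁻¹ := by
  obtain ⟨J0, hJ0⟩ := pow_unbounded_of_one_lt X (by norm_num : (1 : ℝ) < 2)
  have hex : ∃ J : ℕ, X ≤ 2 ^ J := ⟨J0, hJ0.le⟩
  classical
  refine ⟨Nat.find hex, Nat.find_spec hex, ?_⟩
  rcases Nat.eq_zero_or_pos (Nat.find hex) with h0 | h0
  · rw [h0]
    simp only [zero_mul, pow_zero, inv_one, mul_one]
    have h1 : (1 : ℝ) ≤ (1 + X) ^ N := one_le_pow₀ (by linarith)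
    have h2 : (1 : ℝ) ≤ 2 ^ N := one_le_pow₀ (by norm_num)
    exact (inv_le_one_of_one_le₀ h1).trans h2
  · obtain ⟨j, hj⟩ : ∃ j, Nat.find hex = j + 1 := ⟨Nat.find hex - 1, by omega⟩
    have h1 : ¬ X ≤ 2 ^ j := Nat.find_min hex (by omega)
    push Not at h1
    rw [hj]
    have h2 : (2 : ℝ) ^ N * ((2 : ℝ) ^ ((j + 1) * N))⁻¹ = (((2 : ℝ) ^ j) ^ N)⁻¹ := by
      rw [← pow_mul, add_mul, one_mul, pow_add]
      field_simp
    rw [h2]
    refine inv_anti₀ (by positivity) ?_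
    refine pow_le_pow_left₀ (by positivity) (by linarith) N

lemma a2_geo (J : ℕ) : ∑ j ∈ range J, ((2 : ℝ) ^ j)⁻¹ ≤ 2 := by
  have h1 : ∀ J : ℕ, ∑ j ∈ range J, ((2 : ℝ) ^ j)⁻¹ = 2 - 2 * ((2 : ℝ) ^ J)⁻¹ := by
    intro J
    induction J with
    | zero => simp
    | succ J ih =>
      rw [sum_range_succ, ih, pow_succ]
      field_simp
      ring
  rw [h1]
  have : 0 < 2 * ((2 : ℝ) ^ J)⁻¹ := by positivity
  linarith

theorem sum_dec (B : ℝ) (N : ℕ) (hN : dg K + 1 ≤ N) : ∃ C : ℝ, 0 < C ∧ ∀ A, GB K B A →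
    ∀ (v0 : EK K) (R : InfinitePlace K → ℝ), (∀ w, 0 < R w) →
    (Summable fun z : Fin (dg K) → ℤ => ∏ w, ((1 + ‖lamK K w (v0 + vc A z)‖ / R w) ^ N)⁻¹) ∧
    ∑' z : Fin (dg K) → ℤ, ∏ w, ((1 + ‖lamK K w (v0 + vc A z)‖ / R w) ^ N)⁻¹ ≤
      C * (1 + Mv A * ∏ w, R w ^ mult w) := by
  classical
  obtain ⟨C, hC, h⟩ := cnt_le K B
  set n : ℕ := dg K with hn
  refine ⟨2 ^ N * (2 * C), by positivity, ?_⟩
  intro A hA v0 R hR
  set M := Mv A * ∏ w, R w ^ mult w with hM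
  have hM0 : 0 < M := mul_pos (Mv_pos hA.1) (prod_pos fun w _ => pow_pos (hR w) _)
  have hx0 : ∀ z w, 0 ≤ ‖lamK K w (v0 + vc A z)‖ / R w := fun z w =>
    div_nonneg (norm_nonneg _) (hR w).le
  have hf0 : ∀ z : Fin (dg K) → ℤ, 0 ≤ ∏ w, ((1 + ‖lamK K w (v0 + vc A z)‖ / R w) ^ N)⁻¹ := by
    intro z
    refine prod_nonneg fun w _ => inv_nonneg.2 (pow_nonneg ?_ _)
    have := hx0 z w
    linarith
  -- the pointwise bound
  have hpt : ∀ z : Fin (dg K) → ℤ, ∃ J : ℕ, (∀ w, ‖lamK K w (v0 + vc A z)‖ ≤ 2 ^ J * R w) ∧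
      ∏ w, ((1 + ‖lamK K w (v0 + vc A z)‖ / R w) ^ N)⁻¹ ≤ 2 ^ N * ((2 : ℝ) ^ (J * N))⁻¹ := by
    intro z
    obtain ⟨w0, -, hw0⟩ := exists_max_image univ (fun w => ‖lamK K w (v0 + vc A z)‖ / R w)
      univ_nonempty
    obtain ⟨J, hJ1, hJ2⟩ := a2_shell (N := N) (hx0 z w0)
    refine ⟨J, fun w => ?_, ?_⟩
    · have := (hw0 w (mem_univ w)).trans hJ1
      rwa [div_le_iff₀ (hR w)] at this
    · refine le_trans ?_ hJ2
      rw [← mul_prod_erase univ _ (mem_univ w0)]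
      refine mul_le_of_le_one_right ?_ ?_
      · refine inv_nonneg.2 (pow_nonneg ?_ _)
        have := hx0 z w0
        linarith
      · refine prod_le_one (fun w _ => ?_) fun w _ => ?_
        · refine inv_nonneg.2 (pow_nonneg ?_ _)
          have := hx0 z w
          linarith
        · refine inv_le_one_of_one_le₀ (one_le_pow₀ ?_)
          have := hx0 z w
          linarith
  choose J hJ1 hJ2 using hpt
  -- finite sums
  have hfs : ∀ S : Finset (Fin (dg K) → ℤ),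
      ∑ z ∈ S, ∏ w, ((1 + ‖lamK K w (v0 + vc A z)‖ / R w) ^ N)⁻¹ ≤ 2 ^ N * (2 * C) * (1 + M) := by
    intro S
    set L := S.sup J + 1 with hL
    have hJL : ∀ z ∈ S, J z ∈ range L := by
      intro z hz
      rw [mem_range]
      have := le_sup (f := J) hz
      omega
    have h1 : ∀ z ∈ S, ∏ w, ((1 + ‖lamK K w (v0 + vc A z)‖ / R w) ^ N)⁻¹ ≤
        ∑ j ∈ range L, 2 ^ N * (if (∀ w, ‖lamK K w (v0 + vc A z)‖ ≤ 2 ^ j * R w) then
          ((2 : ℝ) ^ (j * N))⁻¹ else 0) := by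
      intro z hz
      refine (hJ2 z).trans ?_
      refine le_trans ?_ (single_le_sum (fun j _ => ?_) (hJL z hz))
      · rw [if_pos (hJ1 z)]
      · split_ifs
        · positivity
        · simp
    refine (sum_le_sum h1).trans ?_
    rw [sum_comm]
    have h2 : ∀ j ∈ range L, ∑ z ∈ S, 2 ^ N *
        (if (∀ w, ‖lamK K w (v0 + vc A z)‖ ≤ 2 ^ j * R w) then ((2 : ℝ) ^ (j * N))⁻¹ else 0) ≤
        2 ^ N * (C * (1 + M)) * ((2 : ℝ) ^ j)⁻¹ := by
      intro j _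
      rw [← mul_sum, ← sum_filter, sum_const, nsmul_eq_mul]
      have h3 := h A hA v0 (fun w => 2 ^ j * R w) (fun w => mul_pos (by positivity) (hR w))
        (S.filter fun z => ∀ w, ‖lamK K w (v0 + vc A z)‖ ≤ 2 ^ j * R w)
        (fun z hz w => (mem_filter.1 hz).2 w)
      have h4 : ∏ w, (2 ^ j * R w) ^ mult w = 2 ^ (j * n) * ∏ w, R w ^ mult w := by
        simp_rw [mul_pow]
        rw [prod_mul_distrib]
        congr 1
        rw [prod_pow_eq_pow_sum, InfinitePlace.sum_mult_eq, ← pow_mul]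
      rw [h4] at h3
      have h5 : Mv A * (2 ^ (j * n) * ∏ w, R w ^ mult w) = 2 ^ (j * n) * M := by rw [hM]; ring
      rw [h5] at h3
      have h6 : (1 : ℝ) + 2 ^ (j * n) * M ≤ 2 ^ (j * n) * (1 + M) := by
        have : (1 : ℝ) ≤ 2 ^ (j * n) := one_le_pow₀ (by norm_num)
        nlinarith
      have h7 : (2 : ℝ) ^ (j * n) * ((2 : ℝ) ^ (j * N))⁻¹ ≤ ((2 : ℝ) ^ j)⁻¹ := by
        rw [← div_eq_mul_inv, div_le_iff₀ (by positivity), ← div_eq_inv_mul,
          le_div_iff₀ (by positivity), ← pow_add]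
        refine pow_le_pow_right₀ (by norm_num) ?_
        calc j * n + j = j * (n + 1) := by ring
          _ ≤ j * N := Nat.mul_le_mul_left _ hN
      calc 2 ^ N * (((S.filter fun z => ∀ w, ‖lamK K w (v0 + vc A z)‖ ≤ 2 ^ j * R w).card : ℝ) *
            ((2 : ℝ) ^ (j * N))⁻¹) ≤ 2 ^ N * ((C * (2 ^ (j * n) * (1 + M))) *
            ((2 : ℝ) ^ (j * N))⁻¹) := by
            refine mul_le_mul_of_nonneg_left ?_ (by positivity)
            refine mul_le_mul_of_nonneg_right ?_ (by positivity)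
            exact h3.trans (mul_le_mul_of_nonneg_left h6 hC.le)
        _ = 2 ^ N * (C * (1 + M)) * (2 ^ (j * n) * ((2 : ℝ) ^ (j * N))⁻¹) := by ring
        _ ≤ _ := mul_le_mul_of_nonneg_left h7 (by positivity)
    refine (sum_le_sum h2).trans ?_
    rw [← mul_sum]
    calc 2 ^ N * (C * (1 + M)) * ∑ j ∈ range L, ((2 : ℝ) ^ j)⁻¹ ≤ 2 ^ N * (C * (1 + M)) * 2 :=
          mul_le_mul_of_nonneg_left (a2_geo L) (by positivity)
      _ = _ := by ring
  have hsum := summable_of_sum_le hf0 hfs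
  exact ⟨hsum, hsum.tsum_le_of_sum_le hfs⟩

theorem lam_ne (B : ℝ) {A : Matrix (Fin (dg K)) (Fin (dg K)) ℝ} (h : GB K B A)
    {z : Fin (dg K) → ℤ} (hz : z ≠ 0) (w : InfinitePlace K) : lamK K w (vc A z) ≠ 0 := by
  classical
  intro h0
  obtain ⟨C, hC, hc⟩ := cnt_ne K B
  have hMv := Mv_pos h.1
  -- the other factors
  set P : ℝ := ∏ v ∈ univ.erase w, (‖lamK K v (vc A z)‖ + 1) ^ mult v with hP
  have hP0 : 0 < P := prod_pos fun v _ => pow_pos (by positivity) _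
  set ε : ℝ := min 1 (1 / (2 * (C * (Mv A * P)))) with hε
  have hε0 : 0 < ε := lt_min one_pos (by positivity)
  have h1 := hc A h (fun v => if v = w then ε else ‖lamK K v (vc A z)‖ + 1) (fun v => by
    split_ifs
    · exact hε0
    · positivity) {z} (fun z' hz' => by
      rw [mem_singleton] at hz'
      subst hz'
      refine ⟨hz, fun v => ?_⟩
      split_ifs with hv
      · rw [hv, h0, norm_zero]
        exact hε0.le
      · linarith)
  rw [card_singleton, Nat.cast_one, ← mul_prod_erase univ _ (mem_univ w)] at h1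
  rw [if_pos rfl] at h1
  have h2 : ∏ v ∈ univ.erase w, (if v = w then ε else ‖lamK K v (vc A z)‖ + 1) ^ mult v = P := by
    refine prod_congr rfl fun v hv => ?_
    rw [if_neg (ne_of_mem_erase hv)]
  rw [h2] at h1
  have h3 : ε ^ mult w ≤ ε := by
    calc ε ^ mult w ≤ ε ^ 1 := pow_le_pow_of_le_one hε0.le (min_le_left _ _) mult_pos
      _ = ε := pow_one _
  have h4 : C * (Mv A * (ε ^ mult w * P)) ≤ 1 / 2 := by
    calc C * (Mv A * (ε ^ mult w * P)) = ε ^ mult w * (C * (Mv A * P)) := by ring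
      _ ≤ ε * (C * (Mv A * P)) := mul_le_mul_of_nonneg_right h3 (by positivity)
      _ ≤ (1 / (2 * (C * (Mv A * P)))) * (C * (Mv A * P)) :=
          mul_le_mul_of_nonneg_right (min_le_right _ _) (by positivity)
      _ = 1 / 2 := by field_simp
  linarith

lemma a2_shell2 {x R : ℝ} (hx : 0 < x) (hR : 0 < R) (hxR : x ≤ R) :
    ∃ j : ℕ, x ≤ R * ((2 : ℝ) ^ j)⁻¹ ∧ R * ((2 : ℝ) ^ (j + 1))⁻¹ < x := by
  have hex : ∃ j : ℕ, R * ((2 : ℝ) ^ (j + 1))⁻¹ < x := by
    obtain ⟨j, hj⟩ := pow_unbounded_of_one_lt (R / x) (by norm_num : (1 : ℝ) < 2)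
    refine ⟨j, ?_⟩
    rw [div_lt_iff₀ hx] at hj
    rw [← div_eq_mul_inv, div_lt_iff₀ (by positivity), pow_succ]
    nlinarith [mul_pos hx (pow_pos (by norm_num : (0 : ℝ) < 2) j)]
  classical
  refine ⟨Nat.find hex, ?_, Nat.find_spec hex⟩
  rcases Nat.eq_zero_or_pos (Nat.find hex) with h0 | h0
  · rw [h0]
    simpa using hxR
  · have h1 := Nat.find_min hex (m := Nat.find hex - 1) (by omega)
    push Not at h1
    have h2 : Nat.find hex - 1 + 1 = Nat.find hex := by omega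
    rwa [h2] at h1

lemma a2_geo2 (J : ℕ) : ∑ j ∈ range J, (√(1 / 2 : ℝ)) ^ j ≤ 4 := by
  set r : ℝ := √(1 / 2 : ℝ) with hr
  have hr0 : 0 ≤ r := Real.sqrt_nonneg _
  have hr2 : r ^ 2 = 1 / 2 := Real.sq_sqrt (by norm_num)
  have hr1 : r ≤ 3 / 4 := by
    rw [hr, Real.sqrt_le_left (by norm_num)]
    norm_num
  have h1 : ∀ J : ℕ, (1 - r) * ∑ j ∈ range J, r ^ j = 1 - r ^ J := by
    intro J
    induction J with
    | zero => simp
    | succ J ih =>
      rw [sum_range_succ, mul_add, ih, pow_succ]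
      ring
  have h2 := h1 J
  have h3 : 0 ≤ r ^ J := pow_nonneg hr0 J
  have h4 : 0 ≤ ∑ j ∈ range J, r ^ j := sum_nonneg fun j _ => pow_nonneg hr0 j
  nlinarith

lemma a2_fac {m : ℕ} (hm1 : 1 ≤ m) (hm2 : m ≤ 2) (j : ℕ) :
    √(((2 : ℝ) ^ (j + 1)) ^ m) * (((2 : ℝ) ^ j)⁻¹) ^ m ≤ 2 * (√(1 / 2 : ℝ)) ^ j := by
  set r : ℝ := √(1 / 2 : ℝ) with hr
  have hr0 : 0 ≤ r := Real.sqrt_nonneg _
  have hr2 : r ^ 2 = 1 / 2 := Real.sq_sqrt (by norm_num)
  refine le_of_sq_le_sq ?_ (by positivity)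
  rw [mul_pow, Real.sq_sqrt (by positivity), mul_pow, ← pow_mul r, mul_comm j 2, pow_mul, hr2]
  have e1 : ((2 : ℝ) ^ (j + 1)) ^ m * ((((2 : ℝ) ^ j)⁻¹) ^ m) ^ 2 =
      2 ^ m * (((1 / 2 : ℝ) ^ j) ^ m) := by
    rw [← pow_mul (((2 : ℝ) ^ j)⁻¹) m 2, mul_comm m 2, pow_mul, ← mul_pow, ← mul_pow]
    congr 1
    rw [pow_succ, one_div, inv_pow]
    field_simp
    try rw [← mul_pow]
    try norm_num
  rw [e1]
  have h1 : (2 : ℝ) ^ m ≤ 2 ^ 2 := pow_le_pow_right₀ (by norm_num) hm2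
  have h2 : ((1 / 2 : ℝ) ^ j) ^ m ≤ ((1 / 2 : ℝ) ^ j) ^ 1 :=
    pow_le_pow_of_le_one (by positivity) (pow_le_one₀ (by norm_num) (by norm_num)) hm1
  rw [pow_one] at h2
  exact mul_le_mul h1 h2 (by positivity) (by norm_num)

theorem sum_sing (B : ℝ) : ∃ C : ℝ, 0 < C ∧ ∀ A, GB K B A →
    ∀ (R : InfinitePlace K → ℝ), (∀ w, 0 < R w) → ∀ S : Finset (Fin (dg K) → ℤ),
    (∀ z ∈ S, z ≠ 0 ∧ ∀ w, ‖lamK K w (vc A z)‖ ≤ R w) →
    ∑ z ∈ S, ∏ w, (√(‖lamK K w (vc A z)‖ ^ mult w))⁻¹ ≤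
      C * (Mv A * ∏ w, √(R w ^ mult w)) := by
  classical
  obtain ⟨C, hC, hc⟩ := cnt_ne K B
  refine ⟨C * ∏ _w : InfinitePlace K, (8 : ℝ), by positivity, ?_⟩
  intro A hA R hR S hS
  have hMv := Mv_pos hA.1
  have hlam : ∀ z ∈ S, ∀ w, 0 < ‖lamK K w (vc A z)‖ := fun z hz w =>
    norm_pos_iff.2 (lam_ne K B hA (hS z hz).1 w)
  -- shells
  have hsh : ∀ z : Fin (dg K) → ℤ, ∀ w, ∃ j : ℕ, z ∈ S → ‖lamK K w (vc A z)‖ ≤ R w * ((2 : ℝ) ^ j)⁻¹ ∧
      R w * ((2 : ℝ) ^ (j + 1))⁻¹ < ‖lamK K w (vc A z)‖ := by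
    intro z w
    by_cases hz : z ∈ S
    · obtain ⟨j, h1, h2⟩ := a2_shell2 (hlam z hz w) (hR w) ((hS z hz).2 w)
      exact ⟨j, fun _ => ⟨h1, h2⟩⟩
    · exact ⟨0, fun h => absurd h hz⟩
  choose j hj using hsh
  set L := (S.sup fun z => univ.sup fun w => j z w) + 1 with hL
  have hjL : ∀ z ∈ S, ∀ w, j z w ∈ range L := by
    intro z hz w
    rw [mem_range]
    have h1 := le_sup (f := fun z => univ.sup fun w => j z w) hz
    have h2 := le_sup (f := fun w => j z w) (mem_univ w)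
    omega
  -- the factors
  set F : InfinitePlace K → ℕ → ℝ := fun w i => (√(R w ^ mult w))⁻¹ *
    √(((2 : ℝ) ^ (i + 1)) ^ mult w) with hF
  have hF0 : ∀ w i, 0 ≤ F w i := fun w i => by rw [hF]; positivity
  have h1 : ∀ z ∈ S, ∀ w, (√(‖lamK K w (vc A z)‖ ^ mult w))⁻¹ ≤
      ∑ i ∈ range L, (if ‖lamK K w (vc A z)‖ ≤ R w * ((2 : ℝ) ^ i)⁻¹ then F w i else 0) := by
    intro z hz w
    refine le_trans ?_ (single_le_sum (fun i _ => ?_) (hjL z hz w))
    · rw [if_pos (hj z w hz).1, hF]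
      simp only
      have h2 := (hj z w hz).2
      rw [← inv_inv (√(((2 : ℝ) ^ (j z w + 1)) ^ mult w)), ← mul_inv]
      have hRw := hR w
      refine inv_anti₀ (by positivity) ?_
      rw [← Real.sqrt_inv, ← Real.sqrt_mul (by positivity), ← inv_pow, ← mul_pow]
      refine Real.sqrt_le_sqrt ?_
      exact pow_le_pow_left₀ (by positivity) h2.le _
    · split_ifs
      · exact hF0 w i
      · exact le_rfl
  have h2 : ∀ z ∈ S, ∏ w, (√(‖lamK K w (vc A z)‖ ^ mult w))⁻¹ ≤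
      ∑ p ∈ Fintype.piFinset (fun _ : InfinitePlace K => range L),
        (if (∀ w, ‖lamK K w (vc A z)‖ ≤ R w * ((2 : ℝ) ^ p w)⁻¹) then ∏ w, F w (p w) else 0) := by
    intro z hz
    refine (prod_le_prod (fun w _ => by positivity) fun w _ => h1 z hz w).trans ?_
    rw [Finset.prod_univ_sum]
    refine le_of_eq (sum_congr rfl fun p _ => ?_)
    by_cases h3 : ∀ w, ‖lamK K w (vc A z)‖ ≤ R w * ((2 : ℝ) ^ p w)⁻¹
    · rw [if_pos h3]
      exact prod_congr rfl fun w _ => if_pos (h3 w)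
    · rw [if_neg h3]
      push Not at h3
      obtain ⟨w, hw⟩ := h3
      exact prod_eq_zero (mem_univ w) (if_neg (not_le.2 hw))
  refine (sum_le_sum h2).trans ?_
  rw [sum_comm]
  have h3 : ∀ p ∈ Fintype.piFinset (fun _ : InfinitePlace K => range L),
      ∑ z ∈ S, (if (∀ w, ‖lamK K w (vc A z)‖ ≤ R w * ((2 : ℝ) ^ p w)⁻¹) then ∏ w, F w (p w) else 0) ≤
      C * Mv A * ∏ w, (√(R w ^ mult w) * (2 * (√(1 / 2 : ℝ)) ^ p w)) := by
    intro p _
    rw [← sum_filter, sum_const, nsmul_eq_mul]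
    have h4 := hc A hA (fun w => R w * ((2 : ℝ) ^ p w)⁻¹) (fun w => mul_pos (hR w) (by positivity))
      (S.filter fun z => ∀ w, ‖lamK K w (vc A z)‖ ≤ R w * ((2 : ℝ) ^ p w)⁻¹)
      (fun z hz => ⟨(hS z (mem_filter.1 hz).1).1, (mem_filter.1 hz).2⟩)
    calc ((S.filter fun z => ∀ w, ‖lamK K w (vc A z)‖ ≤ R w * ((2 : ℝ) ^ p w)⁻¹).card : ℝ) *
          ∏ w, F w (p w) ≤ (C * (Mv A * ∏ w, (R w * ((2 : ℝ) ^ p w)⁻¹) ^ mult w)) *
          ∏ w, F w (p w) := mul_le_mul_of_nonneg_right h4 (prod_nonneg fun w _ => hF0 w _)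
      _ = C * Mv A * ∏ w, ((R w * ((2 : ℝ) ^ p w)⁻¹) ^ mult w * F w (p w)) := by
          have h9 : ∏ w, ((R w * ((2 : ℝ) ^ p w)⁻¹) ^ mult w * F w (p w)) =
              (∏ w, (R w * ((2 : ℝ) ^ p w)⁻¹) ^ mult w) * ∏ w, F w (p w) := prod_mul_distrib
          rw [h9]
          generalize ∏ w, F w (p w) = Y
          generalize ∏ w, (R w * ((2 : ℝ) ^ p w)⁻¹) ^ mult w = X
          ring
      _ ≤ _ := by
          refine mul_le_mul_of_nonneg_left ?_ (by positivity)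
          refine prod_le_prod (fun w _ => ?_) fun w _ => ?_
          · have := hR w
            have := hF0 w (p w)
            positivity
          · have hRw := hR w
            have hm1 : 1 ≤ mult w := mult_pos
            have hm2 : mult w ≤ 2 := by
              unfold InfinitePlace.mult
              split_ifs <;> norm_num
            have h5 := a2_fac hm1 hm2 (p w)
            have h6 : R w ^ mult w * (√(R w ^ mult w))⁻¹ = √(R w ^ mult w) := by
              have h7 : 0 < √(R w ^ mult w) := Real.sqrt_pos.2 (by positivity)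
              have h8 := Real.mul_self_sqrt (show 0 ≤ R w ^ mult w by positivity)
              field_simp
              rw [pow_two, h8]
            calc (R w * ((2 : ℝ) ^ p w)⁻¹) ^ mult w * F w (p w) =
                (R w ^ mult w * (√(R w ^ mult w))⁻¹) *
                (√(((2 : ℝ) ^ (p w + 1)) ^ mult w) * (((2 : ℝ) ^ p w)⁻¹) ^ mult w) := by
                  rw [hF, mul_pow]; ring
              _ ≤ _ := by
                  rw [h6]
                  exact mul_le_mul_of_nonneg_left h5 (Real.sqrt_nonneg _)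
  refine (sum_le_sum h3).trans ?_
  rw [← mul_sum]
  have h4 : ∑ p ∈ Fintype.piFinset (fun _ : InfinitePlace K => range L),
      ∏ w, (√(R w ^ mult w) * (2 * (√(1 / 2 : ℝ)) ^ p w)) =
      ∏ w, ∑ i ∈ range L, (√(R w ^ mult w) * (2 * (√(1 / 2 : ℝ)) ^ i)) :=
    (Finset.prod_univ_sum (fun _ => range L)
      (fun w i => √(R w ^ mult w) * (2 * (√(1 / 2 : ℝ)) ^ i))).symm
  rw [h4]
  have h5 : ∏ w, ∑ i ∈ range L, (√(R w ^ mult w) * (2 * (√(1 / 2 : ℝ)) ^ i)) ≤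
      ∏ w, (√(R w ^ mult w) * 8) := by
    refine prod_le_prod (fun w _ => sum_nonneg fun i _ => by positivity) fun w _ => ?_
    rw [← mul_sum, ← mul_sum]
    refine mul_le_mul_of_nonneg_left ?_ (Real.sqrt_nonneg _)
    have := a2_geo2 L
    linarith
  calc C * Mv A * ∏ w, ∑ i ∈ range L, (√(R w ^ mult w) * (2 * (√(1 / 2 : ℝ)) ^ i)) ≤
      C * Mv A * ∏ w, (√(R w ^ mult w) * 8) := mul_le_mul_of_nonneg_left h5 (by positivity)
    _ = _ := by rw [prod_mul_distrib]; ring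

end Pool.Agent.T2H29.TA
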