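import Pool.Agent.T2H29.TA.Base

/-!
# Poisson summation
-/

set_option autoImplicit false
set_option linter.unusedSectionVars false

namespace Pool.Agent.T2H29.TA

open Finset NumberField NumberField.InfinitePlace Module MeasureTheory
open Pool.Agent.T2H29.SW
open scoped RealInnerProductSpace ContDiff

section gen

variable {ι : Type} [Fintype ι] [DecidableEq ι]

/-- decay of the Fourier transform of a test function -/
theorem a3_decay {f : EuclideanSpace ℝ ι → ℂ} (hf : ContDiff ℝ ∞ f) (hc : HasCompactSupport f)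
    (N : ℕ) : ∃ C : ℝ, 0 ≤ C ∧ ∀ ξ, (1 + ‖ξ‖) ^ N * ‖FT f ξ‖ ≤ C := by
  let F : SchwartzMap (EuclideanSpace ℝ ι) ℂ := hc.toSchwartzMap hf
  let G : SchwartzMap (EuclideanSpace ℝ ι) ℂ := FourierTransform.fourier F
  have hG : ∀ ξ, G ξ = FT f ξ := by
    intro ξ
    rw [FT_eq]
    rfl
  have h1 := SchwartzMap.one_add_le_sup_seminorm_apply (𝕜 := ℝ) (m := (N, 0)) (k := N) (n := 0)
    le_rfl le_rfl G
  refine ⟨_, le_trans (by positivity) (h1 0), fun ξ => ?_⟩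
  have h2 := h1 ξ
  rw [norm_iteratedFDeriv_zero, hG] at h2
  exact h2

theorem a3_prod_le (x : ι → ℝ) : ∏ i, (1 + x i ^ 2) ≤ (1 + ∑ i, x i ^ 2) ^ Fintype.card ι := by
  rw [← card_univ, ← prod_const]
  refine prod_le_prod (fun i _ => by positivity) fun i _ => ?_
  have h1 : x i ^ 2 ≤ ∑ i, x i ^ 2 :=
    single_le_sum (f := fun i => x i ^ 2) (fun j _ => sq_nonneg _) (mem_univ i)
  linarith

theorem a3_sum1 : Summable fun m : ℤ => (1 + (m : ℝ) ^ 2)⁻¹ := by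
  have h1 : Summable fun m : ℤ => 1 / (m : ℝ) ^ 2 := Real.summable_one_div_int_pow.2 (by norm_num)
  refine Summable.of_norm_bounded_eventually (g := fun m : ℤ => 1 / (m : ℝ) ^ 2) h1 ?_
  rw [Filter.eventually_cofinite]
  refine (Set.finite_singleton (0 : ℤ)).subset fun m hm => ?_
  rw [Set.mem_singleton_iff]
  by_contra h0
  apply hm
  have h2 : (0 : ℝ) < (m : ℝ) ^ 2 := by positivity
  rw [Real.norm_of_nonneg (by positivity), inv_eq_one_div]
  exact one_div_le_one_div_of_le h2 (by linarith)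

theorem a3_summable {A : Matrix ι ι ℝ} (hA : A.det ≠ 0) {f : EuclideanSpace ℝ ι → ℂ}
    (hf : ContDiff ℝ ∞ f) (hc : HasCompactSupport f) :
    Summable fun ζ : ι → ℤ => ‖FT f (vc A ζ)‖ := by
  set n := Fintype.card ι with hn
  obtain ⟨C, hC0, hC⟩ := a3_decay hf hc (2 * n)
  obtain ⟨k, hk, h⟩ := q_coer hA
  have hs := (summable_pi (ι := ι) (f := fun m : ℤ => (1 + (m : ℝ) ^ 2)⁻¹)
    (fun m => by positivity) a3_sum1).mul_left (C * (1 + k) ^ n)
  refine Summable.of_nonneg_of_le (fun ζ => norm_nonneg _) (fun ζ => ?_) hs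
  have h1 := hC (vc A ζ)
  have h2 := h (cz ζ)
  have h3 : ∏ i, (1 + (ζ i : ℝ) ^ 2) ≤ (1 + ∑ i, (ζ i : ℝ) ^ 2) ^ n := a3_prod_le fun i => (ζ i : ℝ)
  have h4 : (1 + ∑ i, (ζ i : ℝ) ^ 2) ≤ (1 + k) * (1 + ‖vc A ζ‖) ^ 2 := by
    have e1 : ∑ i, cz ζ i ^ 2 = ∑ i, (ζ i : ℝ) ^ 2 := rfl
    rw [← vc_norm, e1] at h2
    have h5 := norm_nonneg (vc A ζ)
    have h6 := mul_nonneg hk.le h5
    nlinarith
  have h5 : (1 + ∑ i, (ζ i : ℝ) ^ 2) ^ n ≤ (1 + k) ^ n * (1 + ‖vc A ζ‖) ^ (2 * n) := by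
    rw [pow_mul, ← mul_pow]
    refine pow_le_pow_left₀ ?_ h4 n
    have : 0 ≤ ∑ i, (ζ i : ℝ) ^ 2 := sum_nonneg fun _ _ => sq_nonneg _
    linarith
  have h6 : 0 < ∏ i, (1 + (ζ i : ℝ) ^ 2) := prod_pos fun i _ => by positivity
  have h7 : C * (1 + k) ^ n * ∏ i, (1 + (ζ i : ℝ) ^ 2)⁻¹ =
      C * (1 + k) ^ n / ∏ i, (1 + (ζ i : ℝ) ^ 2) := by
    rw [prod_inv_distrib]; rfl
  rw [h7, le_div_iff₀ h6]
  calc ‖FT f (vc A ζ)‖ * ∏ i, (1 + (ζ i : ℝ) ^ 2)
      ≤ ‖FT f (vc A ζ)‖ * ((1 + k) ^ n * (1 + ‖vc A ζ‖) ^ (2 * n)) :=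
        mul_le_mul_of_nonneg_left (h3.trans h5) (norm_nonneg _)
    _ = (1 + k) ^ n * ((1 + ‖vc A ζ‖) ^ (2 * n) * ‖FT f (vc A ζ)‖) := by ring
    _ ≤ (1 + k) ^ n * C := mul_le_mul_of_nonneg_left h1 (by positivity)
    _ = C * (1 + k) ^ n := mul_comm _ _

theorem a3_supp {A : Matrix ι ι ℝ} (hA : A.det ≠ 0) {f : EuclideanSpace ℝ ι → ℂ}
    (hc : HasCompactSupport f) (v0 : EuclideanSpace ℝ ι) : ∃ r : ℝ, 0 ≤ r ∧ ∀ x : ι → ℝ,
    f (v0 + WithLp.toLp 2 (A.mulVec x)) ≠ 0 → ∀ i, |x i| ≤ r := by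
  obtain ⟨k, hk, h⟩ := q_coer hA
  obtain ⟨R, hR⟩ := (hc.isCompact.isBounded).exists_norm_le
  refine ⟨k * (|R| + ‖v0‖) ^ 2 + 1, by positivity, fun x hx i => ?_⟩
  have h1 : ‖v0 + WithLp.toLp 2 (A.mulVec x)‖ ≤ R := hR _ (subset_tsupport _ hx)
  have h2 : ‖WithLp.toLp 2 (A.mulVec x)‖ ≤ |R| + ‖v0‖ := by
    have e1 : WithLp.toLp 2 (A.mulVec x) = (v0 + WithLp.toLp 2 (A.mulVec x)) - v0 := by abel
    rw [e1]
    refine (norm_sub_le _ _).trans ?_
    have := le_abs_self R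
    linarith
  have h3 : ‖WithLp.toLp 2 (A.mulVec x)‖ ^ 2 = q A x := by
    rw [EuclideanSpace.norm_sq_eq]
    unfold q
    refine sum_congr rfl fun i _ => ?_
    simp
  have h4 : x i ^ 2 ≤ k * (|R| + ‖v0‖) ^ 2 := by
    have h5 := single_le_sum (f := fun i => x i ^ 2) (fun j _ => sq_nonneg _) (mem_univ i)
    have h6 := h x
    rw [← h3] at h6
    have h7 : ‖WithLp.toLp 2 (A.mulVec x)‖ ^ 2 ≤ (|R| + ‖v0‖) ^ 2 :=
      pow_le_pow_left₀ (norm_nonneg _) h2 2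
    have h8 := mul_le_mul_of_nonneg_left h7 hk.le
    exact h5.trans (h6.trans h8)
  rw [← sq_abs] at h4
  nlinarith [abs_nonneg (x i)]

theorem a3_FT {A : Matrix ι ι ℝ} (hA : A.det ≠ 0) (f : EuclideanSpace ℝ ι → ℂ)
    (v0 : EuclideanSpace ℝ ι) (y : ι → ℤ) :
    ∫ x : ι → ℝ, f (v0 + WithLp.toLp 2 (A.mulVec x)) * e (-(∑ i, (y i : ℝ) * x i)) =
      (Mv A : ℂ) * (e ⟪v0, vc (du A) y⟫ * FT f (vc (du A) y)) := by
  have hu : IsUnit A.det := isUnit_iff_ne_zero.2 hA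
  let G : (ι → ℝ) → ℂ := fun l => f (v0 + WithLp.toLp 2 l) *
    e (-⟪WithLp.toLp 2 l, vc (du A) y⟫)
  have h1 : ∀ x : ι → ℝ, f (v0 + WithLp.toLp 2 (A.mulVec x)) * e (-(∑ i, (y i : ℝ) * x i)) =
      G (A.mulVec x) := by
    intro x
    change _ = f (v0 + WithLp.toLp 2 (A.mulVec x)) * e (-⟪WithLp.toLp 2 (A.mulVec x), vc (du A) y⟫)
    congr 3
    have h2 : (⟪WithLp.toLp 2 (A.mulVec x), vc (du A) y⟫ : ℝ) =
        dotProduct (A.mulVec x) ((du A).mulVec (cz y)) := by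
      rw [PiLp.inner_apply]
      refine sum_congr rfl fun i _ => ?_
      simp [vc, mul_comm]
    rw [h2, dotProduct_comm, Matrix.dotProduct_mulVec]
    unfold du
    rw [← Matrix.mulVec_transpose, Matrix.mulVec_mulVec, ← Matrix.transpose_mul,
      Matrix.nonsing_inv_mul _ hu, Matrix.transpose_one, Matrix.one_mulVec]
    rfl
  simp_rw [h1]
  have h3 := cov hA G
  rw [h3]
  unfold Mv
  congr 1
  have h4 : ∫ l : ι → ℝ, G l = ∫ v : EuclideanSpace ℝ ι, f (v0 + v) * e (-⟪v, vc (du A) y⟫) := by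
    have h5 := (EuclideanSpace.volume_preserving_symm_measurableEquiv_toLp ι).integral_comp' G
    rw [← h5]
    rfl
  rw [h4]
  have h6 : ∀ v : EuclideanSpace ℝ ι, f (v0 + v) * e (-⟪v, vc (du A) y⟫) =
      (fun v => e ⟪v0, vc (du A) y⟫ * (f v * e (-⟪v, vc (du A) y⟫))) (v0 + v) := by
    intro v
    simp only
    rw [inner_add_left, neg_add, e_add]
    have h7 : e ⟪v0, vc (du A) y⟫ * e (-⟪v0, vc (du A) y⟫) = 1 := by
      rw [← e_add, add_neg_cancel, e_zero]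
    linear_combination -(f (v0 + v) * e (-⟪v, vc (du A) y⟫)) * h7
  simp_rw [h6]
  rw [integral_add_left_eq_self (fun v => e ⟪v0, vc (du A) y⟫ * (f v * e (-⟪v, vc (du A) y⟫))) v0,
    integral_const_mul]
  rfl

theorem a3_pois {A : Matrix ι ι ℝ} (hA : A.det ≠ 0) {f : EuclideanSpace ℝ ι → ℂ}
    (hf : ContDiff ℝ ∞ f) (hc : HasCompactSupport f) (v0 : EuclideanSpace ℝ ι) :
    ∑' z : ι → ℤ, f (v0 + vc A z) =
      (Mv A : ℂ) * ∑' ζ : ι → ℤ, e ⟪v0, vc (du A) ζ⟫ * FT f (vc (du A) ζ) := by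
  classical
  set F : (ι → ℝ) → ℂ := fun x => f (v0 + WithLp.toLp 2 (A.mulVec x)) with hF
  obtain ⟨r, hr0, hr⟩ := a3_supp hA hc v0
  have hFc : Continuous F := by
    refine hf.continuous.comp (continuous_const.add ?_)
    exact (PiLp.continuous_toLp 2 _).comp
      (Continuous.matrix_mulVec continuous_const continuous_id)
  have hFs : HasCompactSupport F := by
    refine HasCompactSupport.intro (isCompact_closedBall (0 : ι → ℝ) r) fun x hx => ?_
    by_contra h0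
    apply hx
    rw [mem_closedBall_zero_iff, pi_norm_le_iff_of_nonneg hr0]
    exact fun i => hr x h0 i
  have hFi : Integrable F := hFc.integrable_of_hasCompactSupport hFs
  obtain ⟨M, hM⟩ := hFs.exists_bound_of_continuous hFc
  have hd : Dom F := by
    intro R
    let S : Finset (ι → ℤ) := Fintype.piFinset fun _ => Finset.Icc (-⌈r + R⌉) ⌈r + R⌉
    refine ⟨fun z => if z ∈ S then M else 0, ?_, fun x hx z => ?_⟩
    · exact summable_of_ne_finset_zero (s := S) fun z hz => if_neg hz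
    · by_cases hz : F (x - cz z) = 0
      · rw [hz, norm_zero]
        change 0 ≤ if z ∈ S then M else 0
        split_ifs
        · exact (norm_nonneg _).trans (hM 0)
        · exact le_rfl
      · have h1 := hr _ hz
        have h2 : z ∈ S := by
          rw [Fintype.mem_piFinset]
          intro i
          have h3 : |x i - z i| ≤ r := h1 i
          have h4 := hx i
          have h5 : |(z i : ℝ)| ≤ r + R := by
            have := abs_sub_abs_le_abs_sub (z i : ℝ) (x i)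
            rw [abs_sub_comm (z i : ℝ) (x i)] at this
            linarith
          rw [abs_le] at h5
          rw [Finset.mem_Icc]
          have h6 := Int.le_ceil (r + R)
          constructor
          · have : ((-⌈r + R⌉ : ℤ) : ℝ) ≤ z i := by push_cast; linarith
            exact_mod_cast this
          · have : ((z i : ℤ) : ℝ) ≤ (⌈r + R⌉ : ℝ) := by linarith
            exact_mod_cast this
        simp only [h2, if_true]
        exact hM _
  have hft := a3_FT hA f v0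
  have hs : Summable fun y : ι → ℤ => ‖∫ x : ι → ℝ, F x * e (-(∑ i, (y i : ℝ) * x i))‖ := by
    have h1 := (a3_summable (du_det_ne hA) hf hc).mul_left ‖(Mv A : ℂ)‖
    refine h1.congr fun y => ?_
    rw [hft y, norm_mul, norm_mul, e_norm, one_mul]
  have h := (poisson hFc hFi hd hs 0).tsum_eq
  rw [← (Equiv.neg (ι → ℤ)).tsum_eq (fun z : ι → ℤ => f (v0 + vc A z))]
  have e2 : ∀ z : ι → ℤ, f (v0 + vc A (Equiv.neg _ z)) = F (0 - cz z) := by
    intro z
    rw [hF]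
    simp only
    unfold vc
    congr 4
    funext i
    simp [cz]
  simp_rw [e2]
  rw [← h, ← tsum_mul_left]
  refine tsum_congr fun y => ?_
  rw [hft]
  simp [e_zero]

end gen

variable (K : Type) [Field K] [NumberField K]

theorem pois {A : Matrix (Fin (dg K)) (Fin (dg K)) ℝ} (hA : A.det ≠ 0) {f : EK K → ℂ}
    (hf : ContDiff ℝ ∞ f) (hc : HasCompactSupport f) (v0 : EK K) :
    (Summable fun ζ : Fin (dg K) → ℤ => ‖FT f (vc (du A) ζ)‖) ∧
    ∑' z : Fin (dg K) → ℤ, f (v0 + vc A z) =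
      (Mv A : ℂ) * ∑' ζ : Fin (dg K) → ℤ, e ⟪v0, vc (du A) ζ⟫ * FT f (vc (du A) ζ) :=
  ⟨a3_summable (du_det_ne hA) hf hc, a3_pois hA hf hc v0⟩

end Pool.Agent.T2H29.TA
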