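import Pool.Agent.T2H29.TA.A1

/-!
# The product formula
-/

set_option autoImplicit false
set_option linter.unusedSectionVars false

namespace Pool.Agent.T2H29.TA

open Finset NumberField NumberField.InfinitePlace Module MeasureTheory
open Pool.Agent.T2H29.SW
open scoped RealInnerProductSpace ContDiff

variable (K : Type) [Field K] [NumberField K]

open scoped Classical in
/-- the coordinates as a linear map to the mixed space -/
noncomputable def A4_lin : EK K →ₗ[ℝ] mixedEmbedding.mixedSpace K where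
  toFun v := (fun w => v ((eI K).symm (Sum.inl w)), fun w => lamK K w.1 v)
  map_add' v v' := by
    ext w
    · simp
    · simp
  map_smul' c v := by
    ext w
    · simp
    · simp

open scoped Classical in
theorem A4_inj : Function.Injective (A4_lin K) := by
  intro v v' h
  refine lamK_inj K fun w => ?_
  by_cases hr : IsReal w
  · rw [lamK_real K hr, lamK_real K hr]
    have h1 := congrFun (congrArg Prod.fst h) ⟨w, hr⟩
    have h2 : v ((eI K).symm (Sum.inl ⟨w, hr⟩)) = v' ((eI K).symm (Sum.inl ⟨w, hr⟩)) := h1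
    rw [h2]
  · exact congrFun (congrArg Prod.snd h) ⟨w, not_isReal_iff_isComplex.1 hr⟩

theorem A4_finrank : finrank ℝ (EK K) = finrank ℝ (mixedEmbedding.mixedSpace K) := by
  rw [mixedEmbedding.finrank, finrank_euclideanSpace, Fintype.card_fin]

/-- the coordinates as an isomorphism to the mixed space -/
noncomputable def A4_eq : EK K ≃L[ℝ] mixedEmbedding.mixedSpace K :=
  (LinearEquiv.ofInjectiveOfFinrankEq (A4_lin K) (A4_inj K) (A4_finrank K)).toContinuousLinearEquiv

theorem A4_eq_apply (v : EK K) : A4_eq K v = A4_lin K v := rfl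

open scoped Classical in
theorem A4_change : ∃ c : ℝ, 0 < c ∧ ∀ G : mixedEmbedding.mixedSpace K → ℂ,
    ∫ v, G (A4_lin K v) = (c : ℂ) * ∫ u, G u := by
  set μ' : Measure (mixedEmbedding.mixedSpace K) := Measure.map (A4_eq K) volume with hμ'
  have : μ'.IsAddHaarMeasure := (A4_eq K).isAddHaarMeasure_map volume
  have h1 := Measure.isAddLeftInvariant_eq_smul μ'
    (volume : Measure (mixedEmbedding.mixedSpace K))
  set κ := Measure.addHaarScalarFactor μ' (volume : Measure (mixedEmbedding.mixedSpace K)) with hκ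
  have hκ0 : 0 < κ := Measure.addHaarScalarFactor_pos_of_isAddHaarMeasure _ _
  have hme : MeasurableEmbedding (A4_eq K) := (A4_eq K).toHomeomorph.measurableEmbedding
  refine ⟨κ, hκ0, fun G => ?_⟩
  have h2 := hme.integral_map (μ := volume) G
  rw [← hμ', h1] at h2
  have h3 : ∫ u, G u ∂(κ • (volume : Measure (mixedEmbedding.mixedSpace K))) =
      (κ : ℂ) * ∫ u, G u := by
    rw [show (κ • (volume : Measure (mixedEmbedding.mixedSpace K))) =
        ((κ : ENNReal) • volume) from rfl,
      integral_smul_measure, ENNReal.coe_toReal, Complex.real_smul]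
  rw [h3] at h2
  exact h2.symm

open scoped Classical in
theorem A4_tp_real (w : {w : InfinitePlace K // IsReal w}) : tp K w.1 = true := by
  unfold tp
  exact decide_eq_true w.2

open scoped Classical in
theorem A4_tp_complex (w : {w : InfinitePlace K // IsComplex w}) : tp K w.1 = false := by
  unfold tp
  exact decide_eq_false (not_isReal_iff_isComplex.2 w.2)

open scoped Classical in
theorem A4_split (F1 : ({w : InfinitePlace K // IsReal w} → ℝ) → ℂ)
    (F2 : ({w : InfinitePlace K // IsComplex w} → ℂ) → ℂ) :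
    ∫ u : mixedEmbedding.mixedSpace K, F1 u.1 * F2 u.2 = (∫ x, F1 x) * ∫ z, F2 z :=
  integral_prod_mul F1 F2

open scoped Classical in
theorem A4_real (f : InfinitePlace K → ℂ → ℂ) :
    ∫ x : {w : InfinitePlace K // IsReal w} → ℝ, ∏ w, f w.1 ((x w : ℝ) : ℂ) =
      ∏ w : {w : InfinitePlace K // IsReal w}, LI (tp K w.1) (f w.1) := by
  have h := integral_fintype_prod_volume_eq_prod
    (fun (w : {w : InfinitePlace K // IsReal w}) (x : ℝ) => f w.1 (x : ℂ))
  refine h.trans ?_
  refine prod_congr rfl fun w _ => ?_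
  rw [A4_tp_real]
  rfl

open scoped Classical in
theorem A4_complex (f : InfinitePlace K → ℂ → ℂ) :
    ∫ z : {w : InfinitePlace K // IsComplex w} → ℂ, ∏ w, f w.1 (z w) =
      ∏ w : {w : InfinitePlace K // IsComplex w}, LI (tp K w.1) (f w.1) := by
  have h := integral_fintype_prod_volume_eq_prod
    (fun (w : {w : InfinitePlace K // IsComplex w}) (z : ℂ) => f w.1 z)
  refine h.trans ?_
  refine prod_congr rfl fun w _ => ?_
  rw [A4_tp_complex]
  rfl

open scoped Classical in
theorem A4_pt (f : InfinitePlace K → ℂ → ℂ) (v : EK K) : ∏ w, f w (lamK K w v) =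
    (∏ w : {w : InfinitePlace K // IsReal w}, f w.1 (((A4_lin K v).1 w : ℝ) : ℂ)) *
      ∏ w : {w : InfinitePlace K // IsComplex w}, f w.1 ((A4_lin K v).2 w) := by
  rw [prod_eq_prod_mul_prod]
  refine congrArg₂ (· * ·) ?_ rfl
  refine prod_congr rfl fun w _ => ?_
  rw [lamK_real K w.2]
  rfl

theorem prod_int : ∃ c : ℝ, 0 < c ∧ ∀ f : InfinitePlace K → ℂ → ℂ,
    ∫ v : EK K, ∏ w, f w (lamK K w v) = (c : ℂ) * ∏ w, LI (tp K w) (f w) := by
  classical
  obtain ⟨c, hc, h⟩ := A4_change K
  refine ⟨c, hc, fun f => ?_⟩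
  have h1 := h fun u => (∏ w : {w : InfinitePlace K // IsReal w}, f w.1 ((u.1 w : ℝ) : ℂ)) *
      ∏ w : {w : InfinitePlace K // IsComplex w}, f w.1 (u.2 w)
  have h2 := A4_split K (fun x => ∏ w : {w : InfinitePlace K // IsReal w}, f w.1 ((x w : ℝ) : ℂ))
    (fun z => ∏ w : {w : InfinitePlace K // IsComplex w}, f w.1 (z w))
  rw [A4_real, A4_complex] at h2
  rw [h2] at h1
  rw [prod_eq_prod_mul_prod, ← h1]
  refine integral_congr_ae (Filter.Eventually.of_forall fun v => ?_)
  exact A4_pt K f v

theorem FT_prod : ∃ c : ℝ, 0 < c ∧ ∀ (f : InfinitePlace K → ℂ → ℂ) (ξ : EK K),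
    FT (fun v : EK K => ∏ w, f w (lamK K w v)) ξ =
      (c : ℂ) * ∏ w, FL (tp K w) (f w) (lamK K w ξ) := by
  obtain ⟨c, hc, h⟩ := prod_int K
  refine ⟨c, hc, fun f ξ => ?_⟩
  have h1 : ∀ v : EK K, (∏ w, f w (lamK K w v)) * e (-⟪v, ξ⟫) =
      ∏ w, (fun z : ℂ => f w z *
        e (-(nr (tp K w) * ((starRingEnd ℂ) (lamK K w ξ) * z).re))) (lamK K w v) := by
    intro v
    rw [prod_mul_distrib, ← e_sum]
    congr 2
    rw [real_inner_comm, lamK_inner, sum_neg_distrib]
    congr 1
    refine sum_congr rfl fun w _ => ?_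
    rw [mult_nr]
  unfold FT
  simp_rw [h1]
  exact h fun w z => f w z * e (-(nr (tp K w) * ((starRingEnd ℂ) (lamK K w ξ) * z).re))

end Pool.Agent.T2H29.TA
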