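import Pool.Agent.T2H29.TA.Props
import Pool.Agent.T2H29.TA.A2
import Pool.Agent.T2H29.TA.A3
import Pool.Agent.T2H29.TA.A4
import Pool.Agent.T2H29.TA.A11c

/-!
# Duality: the global part
-/

set_option autoImplicit false
set_option linter.unusedSectionVars false

namespace Pool.Agent.T2H29.TA

open Finset NumberField NumberField.InfinitePlace Module MeasureTheory
open Pool.Agent.T2H29.SW
open scoped RealInnerProductSpace ContDiff

namespace A11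

lemma uu_smooth (k : ℤ) (τ : ℝ) : ContDiffOn ℝ ∞ (uu k τ) {z : ℂ | z ≠ 0} := by
  intro z hz
  refine ContDiffAt.contDiffWithinAt ?_
  have hz' : z ≠ 0 := hz
  have hq : z.re ^ 2 + z.im ^ 2 ≠ 0 := by
    have h1 : z.re ^ 2 + z.im ^ 2 = ‖z‖ ^ 2 := by
      rw [Complex.sq_norm, Complex.normSq_apply]; ring
    rw [h1]
    exact pow_ne_zero _ (norm_ne_zero_iff.2 hz')
  have h1 : ContDiffAt ℝ ∞ (fun z : ℂ => z ^ k) z := by
    cases k with
    | ofNat n =>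
      simp only [Int.ofNat_eq_natCast, zpow_natCast]
      exact contDiffAt_id.pow n
    | negSucc n =>
      simp only [zpow_negSucc]
      exact (contDiffAt_id.pow (n + 1)).inv (pow_ne_zero _ hz')
  have hre : ContDiffAt ℝ ∞ (fun z : ℂ => z.re) z := Complex.reCLM.contDiff.contDiffAt
  have him : ContDiffAt ℝ ∞ (fun z : ℂ => z.im) z := Complex.imCLM.contDiff.contDiffAt
  have h2 : ContDiffAt ℝ ∞ (fun z : ℂ => Real.log (z.re ^ 2 + z.im ^ 2) / 2) z :=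
    (((hre.pow 2).add (him.pow 2)).log hq).div_const 2
  have h3 : ContDiffAt ℝ ∞ (fun z : ℂ => ((Real.log (z.re ^ 2 + z.im ^ 2) / 2 : ℝ) : ℂ)) z :=
    Complex.ofRealCLM.contDiff.contDiffAt.comp z h2
  exact h1.mul (contDiffAt_const.mul h3).cexp

lemma f0_sm (k : ℤ) (τ : ℝ) :
    ContDiff ℝ ∞ (fun z : ℂ => uu k τ z * ((bmp (‖z‖ ^ 2) : ℝ) : ℂ)) := by
  have h1 := b0_TB.CIg
  have h2 : CI {z : ℂ | z ≠ 0} (fun z : ℂ => b0 (‖z‖ ^ 2)) := ⟨h1.sm, h1.cs, h1.ts⟩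
  exact (h2.mul_smooth isOpen_ne (uu_smooth k τ)).sm

variable (K : Type) [Field K] [NumberField K]

lemma Wt_sm (θ : Par (InfinitePlace K)) : ContDiff ℝ ∞ (Wt (lamK K) θ) := by
  unfold Wt
  exact contDiff_prod fun w _ => (f0_sm (θ.1 w) (θ.2 w)).comp (lamK K w).contDiff

lemma Wt_cs (θ : Par (InfinitePlace K)) : HasCompactSupport (Wt (lamK K) θ) := by
  refine HasCompactSupport.intro (isCompact_closedBall (0 : EK K) (√(dg K * 2 ^ 2))) fun v hv => ?_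
  by_contra h0
  apply hv
  rw [Metric.mem_closedBall, dist_zero_right]
  refine Real.le_sqrt_of_sq_le (norm_le_lamK K fun w => ?_)
  have h1 := (Wt_supp h0 w).2
  nlinarith [norm_nonneg (lamK K w v)]

lemma Wt_zero (θ : Par (InfinitePlace K)) (v : EK K) (hv : ∃ w, lamK K w v = 0) :
    Wt (lamK K) θ v = 0 := by
  obtain ⟨w, hw⟩ := hv
  by_contra h0
  have h1 := (Wt_supp h0 w).1
  rw [hw] at h1
  norm_num at h1

/-- the scaled lattice -/
noncomputable def aP (A : Matrix (Fin (dg K)) (Fin (dg K)) ℝ) (P : InfinitePlace K → ℝ × ℝ) :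
    Matrix (Fin (dg K)) (Fin (dg K)) ℝ := Ds K (fun w => -(P w).1) * du A

/-- the shifted parameters -/
noncomputable def tP (θ : Par (InfinitePlace K)) (P : InfinitePlace K → ℝ × ℝ) :
    Par (InfinitePlace K) := (θ.1, fun w => -θ.2 w + 2 * Real.pi * (P w).2)

/-- the frequency -/
noncomputable def nP (v0 : EK K) (P : InfinitePlace K → ℝ × ℝ) : EK K :=
  Tm K (fun w => ((Real.exp (P w).1 : ℝ) : ℂ)) v0

/-- the coefficients -/
noncomputable def cP (θ : Par (InfinitePlace K)) (P : InfinitePlace K → ℝ × ℝ) : ℂ :=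
  ∏ w, (mc (tp K w) (θ.1 w) (θ.2 w) (P w) * Complex.exp (-(Complex.I * θ.2 w * (P w).1)))

/-- the terms -/
noncomputable def Fz (θ : Par (InfinitePlace K)) (v0 : EK K)
    (A : Matrix (Fin (dg K)) (Fin (dg K)) ℝ) (ζ : Fin (dg K) → ℤ)
    (P : InfinitePlace K → ℝ × ℝ) : ℂ :=
  cP K θ P * (Wt (lamK K) (tP K θ P) (0 + vc (aP K A P) ζ) * e ⟪nP K v0 P, vc (aP K A P) ζ⟫)

lemma cP_norm (θ : Par (InfinitePlace K)) (P : InfinitePlace K → ℝ × ℝ) :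
    ‖cP K θ P‖ = ∏ w, ‖mc (tp K w) (θ.1 w) (θ.2 w) (P w)‖ := by
  unfold cP
  rw [norm_prod]
  refine prod_congr rfl fun w _ => ?_
  rw [norm_mul, Complex.norm_exp]
  simp

lemma inner_eq (v0 : EK K) (A : Matrix (Fin (dg K)) (Fin (dg K)) ℝ) (ζ : Fin (dg K) → ℤ)
    (P : InfinitePlace K → ℝ × ℝ) : ⟪nP K v0 P, vc (aP K A P) ζ⟫ = ⟪v0, vc (du A) ζ⟫ := by
  rw [lamK_inner, lamK_inner]
  refine sum_congr rfl fun w _ => ?_
  unfold nP aP
  rw [lamK_Tm K (fun w _ => Complex.ofReal_im _), lam_Ds]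
  congr 1
  have h1 : Real.exp (P w).1 * Real.exp (-(P w).1) = 1 := by rw [← Real.exp_add]; simp
  have h2 : ((Real.exp (P w).1 : ℝ) : ℂ) * ((Real.exp (-(P w).1) : ℝ) : ℂ) = 1 := by
    exact_mod_cast h1
  rw [map_mul, Complex.conj_ofReal]
  congr 1
  linear_combination ((starRingEnd ℂ) (lamK K w v0) * lamK K w (vc (du A) ζ)) * h2

/-- the local identity -/
lemma loc_id (k : ℤ) (τ : ℝ) {ξ : ℂ} (hξ : ξ ≠ 0) (p : ℝ × ℝ) :
    Complex.exp (-(Complex.I * τ * p.1)) *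
      (uu k (-τ + 2 * Real.pi * p.2) (((Real.exp (-p.1) : ℝ) : ℂ) * ξ) *
        ((bmp (‖((Real.exp (-p.1) : ℝ) : ℂ) * ξ‖ ^ 2) : ℝ) : ℂ)) =
      uu k (-τ) ξ * Wl ‖ξ‖ p := by
  have h0 : 0 < ‖ξ‖ := norm_pos_iff.2 hξ
  have he : 0 < Real.exp (-p.1) := Real.exp_pos _
  have he' : ((Real.exp (-p.1) : ℝ) : ℂ) ≠ 0 := by exact_mod_cast he.ne'
  have hn : ‖((Real.exp (-p.1) : ℝ) : ℂ) * ξ‖ = ‖ξ‖ * Real.exp (-p.1) := by
    rw [norm_mul, Complex.norm_real, Real.norm_of_nonneg he.le, mul_comm]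
  rw [uu_add k (-τ) (2 * Real.pi * p.2) (mul_ne_zero he' hξ), uu_mul he' hξ, uu_pos he, hn,
    Real.log_exp, Real.log_mul h0.ne' he.ne', Real.log_exp]
  unfold Wl e
  have h1 : Complex.exp (-(Complex.I * τ * p.1)) * Complex.exp (Complex.I * (-τ : ℝ) * (-p.1 : ℝ)) = 1 := by
    rw [← Complex.exp_add, ← Complex.exp_zero]
    congr 1
    push_cast
    ring
  have h2 : Complex.exp (Complex.I * (2 * Real.pi * p.2 : ℝ) * ((Real.log ‖ξ‖ + -p.1 : ℝ) : ℂ)) =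
      Complex.exp (2 * Real.pi * Complex.I * (p.2 * (Real.log ‖ξ‖ - p.1) : ℝ)) := by
    congr 1
    push_cast
    ring
  rw [h2]
  linear_combination (uu k (-τ) ξ * Complex.exp (2 * Real.pi * Complex.I *
    (p.2 * (Real.log ‖ξ‖ - p.1) : ℝ)) * ((bmp ((‖ξ‖ * Real.exp (-p.1)) ^ 2) : ℝ) : ℂ)) * h1

lemma Fz_eq (θ : Par (InfinitePlace K)) (v0 : EK K)
    (A : Matrix (Fin (dg K)) (Fin (dg K)) ℝ) {ζ : Fin (dg K) → ℤ}
    (hζ : ∀ w, lamK K w (vc (du A) ζ) ≠ 0) (P : InfinitePlace K → ℝ × ℝ) :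
    Fz K θ v0 A ζ P = e ⟪v0, vc (du A) ζ⟫ * ∏ w, (uu (θ.1 w) (-θ.2 w) (lamK K w (vc (du A) ζ)) *
      (mc (tp K w) (θ.1 w) (θ.2 w) (P w) * Wl ‖lamK K w (vc (du A) ζ)‖ (P w))) := by
  unfold Fz
  rw [inner_eq, zero_add]
  unfold cP Wt
  rw [← mul_assoc, mul_comm, ← prod_mul_distrib]
  congr 1
  refine prod_congr rfl fun w _ => ?_
  unfold aP
  rw [lam_Ds]
  have h1 := loc_id (θ.1 w) (θ.2 w) (hζ w) (P w)
  simp only [tP]
  linear_combination (mc (tp K w) (θ.1 w) (θ.2 w) (P w)) * h1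

/-- the integral of a term -/
lemma Fz_int {θ : Par (InfinitePlace K)} {T : ℝ}
    (hL : ∀ w, LC (tp K w) T (θ.1 w) (θ.2 w)) (v0 : EK K)
    (A : Matrix (Fin (dg K)) (Fin (dg K)) ℝ) {ζ : Fin (dg K) → ℤ}
    (hζ : ∀ w, lamK K w (vc (du A) ζ) ≠ 0) :
    Integrable (Fz K θ v0 A ζ) ∧
    ∫ P, Fz K θ v0 A ζ P = e ⟪v0, vc (du A) ζ⟫ * ∏ w, FL (tp K w)
      (fun z => uu (θ.1 w) (θ.2 w) z * ((bmp (‖z‖ ^ 2) : ℝ) : ℂ)) (lamK K w (vc (du A) ζ)) ∧
    ∫ P, ‖Fz K θ v0 A ζ P‖ = ∏ w, ∫ p, ‖mc (tp K w) (θ.1 w) (θ.2 w) p *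
      Wl ‖lamK K w (vc (du A) ζ)‖ p‖ := by
  have hpos : ∀ w, 0 < ‖lamK K w (vc (du A) ζ)‖ := fun w => norm_pos_iff.2 (hζ w)
  have hi : ∀ w, Integrable (fun p => mc (tp K w) (θ.1 w) (θ.2 w) p *
      Wl ‖lamK K w (vc (du A) ζ)‖ p) := by
    intro w
    obtain ⟨C, -, hC⟩ := Wl_int (tp K w) one_pos 0
    exact (hC T _ _ (hL w) _ (hpos w)).1
  have hi2 : ∀ w, Integrable (fun p => uu (θ.1 w) (-θ.2 w) (lamK K w (vc (du A) ζ)) *
      (mc (tp K w) (θ.1 w) (θ.2 w) p * Wl ‖lamK K w (vc (du A) ζ)‖ p)) := fun w =>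
    (hi w).const_mul _
  have hF : Fz K θ v0 A ζ = fun P => e ⟪v0, vc (du A) ζ⟫ *
      ∏ w, (uu (θ.1 w) (-θ.2 w) (lamK K w (vc (du A) ζ)) *
      (mc (tp K w) (θ.1 w) (θ.2 w) (P w) * Wl ‖lamK K w (vc (du A) ζ)‖ (P w))) :=
    funext fun P => Fz_eq K θ v0 A hζ P
  refine ⟨?_, ?_, ?_⟩
  · rw [hF]
    exact (Integrable.fintype_prod hi2).const_mul _
  · rw [hF, integral_const_mul]
    congr 1
    rw [integral_fintype_prod_volume_eq_prod (fun w p => uu (θ.1 w) (-θ.2 w) (lamK K w (vc (du A) ζ)) *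
      (mc (tp K w) (θ.1 w) (θ.2 w) p * Wl ‖lamK K w (vc (du A) ζ)‖ p))]
    refine prod_congr rfl fun w _ => ?_
    rw [integral_const_mul, FL_dec (tp K w) (hL w) (hζ w) (lamK_Rl K _ w)]
  · have h1 : ∀ P, ‖Fz K θ v0 A ζ P‖ = ∏ w, ‖mc (tp K w) (θ.1 w) (θ.2 w) (P w) *
        Wl ‖lamK K w (vc (du A) ζ)‖ (P w)‖ := by
      intro P
      rw [hF]
      simp only
      rw [norm_mul, e_norm, one_mul, norm_prod]
      refine prod_congr rfl fun w _ => ?_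
      rw [norm_mul, uu_norm_of (hζ w), one_mul]
    simp_rw [h1]
    exact integral_fintype_prod_volume_eq_prod (fun w p => ‖mc (tp K w) (θ.1 w) (θ.2 w) p *
        Wl ‖lamK K w (vc (du A) ζ)‖ p‖)

lemma Fz_zero (θ : Par (InfinitePlace K)) (v0 : EK K)
    (A : Matrix (Fin (dg K)) (Fin (dg K)) ℝ) (P : InfinitePlace K → ℝ × ℝ) :
    Fz K θ v0 A 0 P = 0 := by
  unfold Fz
  obtain ⟨w⟩ := (inferInstance : Nonempty (InfinitePlace K))
  rw [Wt_zero K _ _ ⟨w, ?_⟩]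
  · ring
  · have h1 : vc (aP K A P) 0 = 0 := by
      have := vc_add' K (aP K A P) 0 0
      rw [add_zero] at this
      simpa using this
    rw [h1, add_zero, map_zero]

/-- exchange of sum and integral -/
lemma exch {B : ℝ} {θ : Par (InfinitePlace K)} {T : ℝ}
    (hL : ∀ w, LC (tp K w) T (θ.1 w) (θ.2 w)) (v0 : EK K)
    {A : Matrix (Fin (dg K)) (Fin (dg K)) ℝ} (hA : GB K B A) :
    ∑' ζ : Fin (dg K) → ℤ, ∫ P, Fz K θ v0 A ζ P = ∫ P, ∑' ζ : Fin (dg K) → ℤ, Fz K θ v0 A ζ P := by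
  have hdA : GB K B (du A) := GB_du K hA
  obtain ⟨w0⟩ := (inferInstance : Nonempty (InfinitePlace K))
  have hT0 : 0 < T := by linarith [(hL w0).1]
  have hT10 : 0 < T ^ ((1 : ℝ) + 1) := Real.rpow_pos_of_pos hT0 _
  obtain ⟨C', -, hC'⟩ := sum_dec K B (dg K + 1) le_rfl
  obtain ⟨hs, -⟩ := hC' (du A) hdA 0 (fun _ => T ^ ((1 : ℝ) + 1)) (fun _ => hT10)
  have hex : ∀ w, ∃ C : ℝ, 0 < C ∧ ∀ s : ℝ, 0 < s →
      ∫ p, ‖mc (tp K w) (θ.1 w) (θ.2 w) p * Wl s p‖ ≤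
        C * ((1 + s / T ^ ((1 : ℝ) + 1)) ^ (dg K + 1))⁻¹ := by
    intro w
    obtain ⟨C, hC0, hC⟩ := Wl_int (tp K w) one_pos (dg K + 1)
    exact ⟨C, hC0, fun s hs => (hC T _ _ (hL w) s hs).2⟩
  choose C hC0 hC using hex
  refine (hasSum_integral_of_summable_integral_norm (F := fun ζ P => Fz K θ v0 A ζ P) ?_ ?_).tsum_eq
  · intro ζ
    by_cases hζ : ζ = 0
    · rw [hζ]
      have : (fun P => Fz K θ v0 A 0 P) = fun _ => 0 := funext fun P => Fz_zero K θ v0 A P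
      rw [this]
      exact integrable_zero _ _ _
    · exact (Fz_int K hL v0 A fun w => lam_ne K B hdA hζ w).1
  · refine Summable.of_nonneg_of_le (fun ζ => integral_nonneg fun P => norm_nonneg _) (fun ζ => ?_)
      (hs.mul_left (∏ w, C w))
    by_cases hζ : ζ = 0
    · rw [hζ]
      simp only [Fz_zero, norm_zero, integral_zero]
      refine mul_nonneg (prod_nonneg fun w _ => (hC0 w).le) (prod_nonneg fun w _ => ?_)
      positivity
    · have hne := fun w => lam_ne K B hdA hζ w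
      rw [(Fz_int K hL v0 A hne).2.2, ← prod_mul_distrib]
      refine prod_le_prod (fun w _ => integral_nonneg fun p => norm_nonneg _) fun w _ => ?_
      rw [zero_add]
      exact hC w _ (norm_pos_iff.2 (hne w))

end A11

end Pool.Agent.T2H29.TA
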