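import Pool.Agent.T2H29.TA.A11d

/-!
# Duality: the bound of the inner sum and the integrals
-/

set_option autoImplicit false
set_option linter.unusedSectionVars false

namespace Pool.Agent.T2H29.TA

open Finset NumberField NumberField.InfinitePlace Module MeasureTheory
open Pool.Agent.T2H29.SW
open scoped RealInnerProductSpace ContDiff

namespace A11

variable (K : Type) [Field K] [NumberField K]

/-- the inner sum -/
noncomputable def Xi (θ : Par (InfinitePlace K)) (v0 : EK K)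
    (A : Matrix (Fin (dg K)) (Fin (dg K)) ℝ) (P : InfinitePlace K → ℝ × ℝ) : ℂ :=
  ∑' ζ : Fin (dg K) → ℤ, Wt (lamK K) (tP K θ P) (0 + vc (aP K A P) ζ) *
    e ⟪nP K v0 P, vc (aP K A P) ζ⟫

lemma Fz_sum (θ : Par (InfinitePlace K)) (v0 : EK K)
    (A : Matrix (Fin (dg K)) (Fin (dg K)) ℝ) (P : InfinitePlace K → ℝ × ℝ) :
    ∑' ζ : Fin (dg K) → ℤ, Fz K θ v0 A ζ P = cP K θ P * Xi K θ v0 A P := by
  unfold Xi Fz
  exact tsum_mul_left

/-- the trivial bound -/
lemma Xi_triv (B : ℝ) : ∃ C : ℝ, 0 < C ∧ ∀ A, GB K B A → ∀ (θ : Par (InfinitePlace K))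
    (v0 : EK K) (P : InfinitePlace K → ℝ × ℝ), Xi K θ v0 A P = 0 ∨
      (‖Xi K θ v0 A P‖ ≤ C * Mv (aP K A P) ∧ 1 ≤ C * Mv (aP K A P)) := by
  obtain ⟨C, hC0, hC⟩ := cnt_ne K B
  refine ⟨C * ∏ w : InfinitePlace K, (2 : ℝ) ^ mult w, by positivity, fun A hA θ v0 P => ?_⟩
  have hA' : GB K B (aP K A P) := GB_Ds K (GB_du K hA) _
  have hfin := cnt_fin K hA'.1 0 2
  set S0 : Finset (Fin (dg K) → ℤ) := hfin.toFinset.filter fun z => z ≠ 0 with hS0
  have hS : ∀ z ∈ S0, z ≠ 0 ∧ ∀ w, ‖lamK K w (vc (aP K A P) z)‖ ≤ 2 := by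
    intro z hz
    rw [hS0, mem_filter, Set.Finite.mem_toFinset] at hz
    refine ⟨hz.2, fun w => ?_⟩
    have := hz.1 w
    rwa [zero_add] at this
  have hout : ∀ z ∉ S0, Wt (lamK K) (tP K θ P) (0 + vc (aP K A P) z) *
      e ⟪nP K v0 P, vc (aP K A P) z⟫ = 0 := by
    intro z hz
    by_cases h0 : Wt (lamK K) (tP K θ P) (0 + vc (aP K A P) z) = 0
    · rw [h0, zero_mul]
    · exfalso
      apply hz
      rw [hS0, mem_filter, Set.Finite.mem_toFinset]
      refine ⟨fun w => ?_, fun hz0 => ?_⟩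
      · have h1 := (Wt_supp h0 w).2
        nlinarith [norm_nonneg (lamK K w (0 + vc (aP K A P) z))]
      · have h2 : vc (aP K A P) 0 = 0 := by
          have := vc_add' K (aP K A P) 0 0
          rw [add_zero] at this
          simpa using this
        obtain ⟨w⟩ := (inferInstance : Nonempty (InfinitePlace K))
        have h1 := (Wt_supp h0 w).1
        rw [hz0, h2, add_zero, map_zero] at h1
        norm_num at h1
  have hX : Xi K θ v0 A P = ∑ z ∈ S0, Wt (lamK K) (tP K θ P) (0 + vc (aP K A P) z) *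
      e ⟪nP K v0 P, vc (aP K A P) z⟫ := tsum_eq_sum hout
  have hcard : (S0.card : ℝ) ≤ C * (∏ w : InfinitePlace K, (2 : ℝ) ^ mult w) * Mv (aP K A P) := by
    have := hC _ hA' (fun _ => 2) (fun _ => two_pos) S0 hS
    linarith
  have hn : ‖Xi K θ v0 A P‖ ≤ S0.card := by
    rw [hX]
    refine (norm_sum_le _ _).trans ?_
    have : ∀ z ∈ S0, ‖Wt (lamK K) (tP K θ P) (0 + vc (aP K A P) z) *
      e ⟪nP K v0 P, vc (aP K A P) z⟫‖ ≤ 1 := by
      intro z _
      rw [norm_mul, e_norm, mul_one]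
      exact Wt_norm _ _
    refine (sum_le_card_nsmul _ _ 1 this).trans (le_of_eq ?_)
    simp
  rcases S0.eq_empty_or_nonempty with h0 | h0
  · left
    rw [hX, h0, sum_empty]
  · right
    have h1 : (1 : ℝ) ≤ S0.card := by exact_mod_cast h0.card_pos
    exact ⟨hn.trans hcard, h1.trans hcard⟩

/-- the bound -/
lemma Xi_bound {B : ℝ} (h : CoreT K B) (A1 : ℕ) : ∃ C T0 : ℝ, 0 < C ∧ 2 ≤ T0 ∧ ∀ A, GB K B A →
    ∀ (θ : Par (InfinitePlace K)) (T : ℝ), T0 ≤ T →
    (∀ w, LC (tp K w) T (θ.1 w) (θ.2 w)) → ∀ (v0 : EK K) (P : InfinitePlace K → ℝ × ℝ),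
    ‖Xi K θ v0 A P‖ ≤ C * (√(Mv (aP K A P)) * T ^ ((dg K : ℝ) / 6 - 1 / 3000) +
      Mv (aP K A P) * ((8 * Real.pi / T) ^ A1 * ∏ w, (1 + |(P w).2|) ^ A1) +
      Mv (aP K A P) ^ 501 * ((T ^ ((dg K : ℝ) * (1 / 2 + 1 / 1000))) ^ 500)⁻¹) := by
  obtain ⟨C1, T1, hC10, hT1, hC1⟩ := h
  obtain ⟨C2, hC20, hC2⟩ := Xi_triv K B
  refine ⟨C1 * (√C2 + 1) + C2, max T1 2, by positivity, le_max_right _ _, ?_⟩
  intro A hA θ T hT hL v0 P
  have hTT1 : T1 ≤ T := (le_max_left _ _).trans hT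
  have hT2 : 2 ≤ T := (le_max_right _ _).trans hT
  have hT0 : 0 < T := by linarith
  have hA' : GB K B (aP K A P) := GB_Ds K (GB_du K hA) _
  set X := Mv (aP K A P) with hX
  have hX0 : 0 < X := Mv_pos hA'.1
  set κ := (dg K : ℝ) * (1 / 2 + 1 / 1000) with hκ
  set t1 := √X * T ^ ((dg K : ℝ) / 6 - 1 / 3000) with ht1
  set t2 := X * ((8 * Real.pi / T) ^ A1 * ∏ w, (1 + |(P w).2|) ^ A1) with ht2
  set t3 := X ^ 501 * ((T ^ κ) ^ 500)⁻¹ with ht3
  have ht10 : 0 ≤ t1 := by positivity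
  have ht20 : 0 ≤ t2 := by positivity
  have ht30 : 0 ≤ t3 := by positivity
  have hc0 : 0 ≤ C1 * (√C2 + 1) := by positivity
  rcases hC2 A hA θ v0 P with h0 | ⟨h1, h2⟩
  · rw [h0, norm_zero]
    positivity
  · by_cases hσ : ∀ w, 2 * Real.pi * |(P w).2| ≤ T / 4
    · by_cases hXT : X ≤ T ^ κ
      · have h3 := hC1 (aP K A P) hA' 0 (nP K v0 P) (tP K θ P) T hTT1 (fun w => ?_) hXT
        · have h4 : 1 ≤ √C2 * √X := by
            rw [← Real.sqrt_mul hC20.le]
            exact Real.one_le_sqrt.2 h2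
          have h5 : C1 * (1 + √X) * T ^ ((dg K : ℝ) / 6 - 1 / 3000) ≤ C1 * (√C2 + 1) * t1 := by
            have h6 : 1 + √X ≤ (√C2 + 1) * √X := by linarith
            calc C1 * (1 + √X) * T ^ ((dg K : ℝ) / 6 - 1 / 3000) ≤
                C1 * ((√C2 + 1) * √X) * T ^ ((dg K : ℝ) / 6 - 1 / 3000) := by gcongr
              _ = _ := by rw [ht1]; ring
          refine (h3.trans h5).trans ?_
          have : C1 * (√C2 + 1) * t1 ≤ (C1 * (√C2 + 1) + C2) * t1 :=
            mul_le_mul_of_nonneg_right (by linarith) ht10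
          refine this.trans (mul_le_mul_of_nonneg_left (by linarith) (by positivity))
        · obtain ⟨-, hτ, hcp⟩ := hL w
          have h4 : |2 * Real.pi * (P w).2| ≤ T / 4 := by
            rw [abs_mul, abs_of_pos (by positivity)]
            exact hσ w
          have h5 : (tP K θ P).2 w = -θ.2 w + 2 * Real.pi * (P w).2 := rfl
          rw [h5]
          constructor
          · have h6 := abs_sub_abs_le_abs_sub (-θ.2 w) (-(2 * Real.pi * (P w).2))
            rw [abs_neg, abs_neg, sub_neg_eq_add] at h6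
            linarith
          · have h7 : ‖cp (tp K w) ((tP K θ P).1 w) (-θ.2 w + 2 * Real.pi * (P w).2)‖ ≤
                ‖cp (tp K w) (θ.1 w) (θ.2 w)‖ + |2 * Real.pi * (P w).2| := by
              have h8 : (tP K θ P).1 w = θ.1 w := rfl
              rw [h8]
              generalize 2 * Real.pi * (P w).2 = y
              cases tp K w
              · show ‖((-θ.2 w + y : ℝ) : ℂ) - (θ.1 w : ℂ) * Complex.I‖ ≤
                  ‖((θ.2 w : ℝ) : ℂ) - (θ.1 w : ℂ) * Complex.I‖ + |y|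
                have h9 : ‖((θ.2 w : ℝ) : ℂ) - (θ.1 w : ℂ) * Complex.I‖ =
                    ‖((-θ.2 w : ℝ) : ℂ) - (θ.1 w : ℂ) * Complex.I‖ := by
                  rw [Complex.norm_def, Complex.norm_def, Complex.normSq_apply,
                    Complex.normSq_apply]
                  simp
                rw [h9]
                have h10 : ((-θ.2 w + y : ℝ) : ℂ) - (θ.1 w : ℂ) * Complex.I =
                    (((-θ.2 w : ℝ) : ℂ) - (θ.1 w : ℂ) * Complex.I) + (y : ℂ) := by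
                  push_cast
                  ring
                rw [h10]
                refine (norm_add_le _ _).trans (le_of_eq ?_)
                rw [Complex.norm_real, Real.norm_eq_abs]
              · show ‖((-θ.2 w + y : ℝ) : ℂ)‖ ≤ ‖((θ.2 w : ℝ) : ℂ)‖ + |y|
                rw [Complex.norm_real, Complex.norm_real, Real.norm_eq_abs, Real.norm_eq_abs]
                refine (abs_add_le _ _).trans (le_of_eq ?_)
                rw [abs_neg]
            linarith
      · rw [not_le] at hXT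
        have hTk : 0 < T ^ κ := Real.rpow_pos_of_pos hT0 _
        have h3 : X ≤ t3 := by
          rw [ht3, ← div_eq_mul_inv, le_div_iff₀ (by positivity), pow_succ' X 500]
          exact mul_le_mul_of_nonneg_left (pow_le_pow_left₀ hTk.le hXT.le _) hX0.le
        calc ‖Xi K θ v0 A P‖ ≤ C2 * X := h1
          _ ≤ C2 * t3 := mul_le_mul_of_nonneg_left h3 hC20.le
          _ ≤ (C1 * (√C2 + 1) + C2) * t3 := mul_le_mul_of_nonneg_right (by linarith) ht30
          _ ≤ _ := mul_le_mul_of_nonneg_left (by linarith) (by positivity)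
    · push Not at hσ
      obtain ⟨w, hw⟩ := hσ
      have h3 : X ≤ t2 := by
        rw [ht2]
        refine le_mul_of_one_le_right hX0.le ?_
        have h4 : (1 + |(P w).2|) ^ A1 ≤ ∏ w, (1 + |(P w).2|) ^ A1 := by
          have h5 : ∀ w', (1 : ℝ) ≤ (1 + |(P w').2|) ^ A1 := fun w' =>
            one_le_pow₀ (by linarith [abs_nonneg (P w').2])
          classical
          rw [← prod_erase_mul _ _ (mem_univ w)]
          refine le_mul_of_one_le_left (by positivity) ?_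
          exact prod_induction (fun w' => (1 + |(P w').2|) ^ A1) (fun x => (1 : ℝ) ≤ x)
            (fun a b ha hb => one_le_mul_of_one_le_of_one_le ha hb) le_rfl (fun w' _ => h5 w')
        have h6 : 1 ≤ 8 * Real.pi / T * (1 + |(P w).2|) := by
          rw [div_mul_eq_mul_div, le_div_iff₀ hT0]
          have := Real.pi_pos
          nlinarith
        calc (1 : ℝ) ≤ (8 * Real.pi / T * (1 + |(P w).2|)) ^ A1 := one_le_pow₀ h6
          _ = (8 * Real.pi / T) ^ A1 * (1 + |(P w).2|) ^ A1 := mul_pow _ _ _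
          _ ≤ _ := mul_le_mul_of_nonneg_left h4 (by positivity)
      calc ‖Xi K θ v0 A P‖ ≤ C2 * X := h1
        _ ≤ C2 * t2 := mul_le_mul_of_nonneg_left h3 hC20.le
        _ ≤ (C1 * (√C2 + 1) + C2) * t2 := mul_le_mul_of_nonneg_right (by linarith) ht20
        _ ≤ _ := mul_le_mul_of_nonneg_left (by linarith) (by positivity)

/-- the weighted integrals -/
lemma int_wt {ε : ℝ} (hε : 0 < ε) {a : ℝ} (ha : 0 < a) (A1 : ℕ) : ∃ C : ℝ, 0 < C ∧
    ∀ (θ : Par (InfinitePlace K)) (T : ℝ), (∀ w, LC (tp K w) T (θ.1 w) (θ.2 w)) →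
      Integrable (fun P : InfinitePlace K → ℝ × ℝ => ∏ w, (‖mc (tp K w) (θ.1 w) (θ.2 w) (P w)‖ *
        (Real.exp (a * mult w * (P w).1) * (1 + |(P w).2|) ^ A1))) ∧
      ∫ P : InfinitePlace K → ℝ × ℝ, ∏ w, (‖mc (tp K w) (θ.1 w) (θ.2 w) (P w)‖ *
        (Real.exp (a * mult w * (P w).1) * (1 + |(P w).2|) ^ A1)) ≤
        C * T ^ (-((dg K : ℝ) / 2) + (1 + ε) * a * dg K) := by
  have hex : ∀ w : InfinitePlace K, ∃ C : ℝ, 0 < C ∧ ∀ T k τ, LC (tp K w) T k τ →
      Integrable (fun p : ℝ × ℝ => ‖mc (tp K w) k τ p‖ *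
        (Real.exp (a * mult w * p.1) * (1 + |p.2|) ^ A1)) ∧
      ∫ p : ℝ × ℝ, ‖mc (tp K w) k τ p‖ * (Real.exp (a * mult w * p.1) * (1 + |p.2|) ^ A1) ≤
        C * (√(T ^ nr (tp K w)))⁻¹ * (T ^ (1 + ε)) ^ (a * mult w) := by
    intro w
    have hm : (0 : ℝ) < mult w := by
      have := nr_pos (tp K w)
      rw [← mult_nr] at this
      exact_mod_cast this
    exact mc_wt (tp K w) hε (mul_pos ha hm) A1
  choose C hC0 hC using hex
  refine ⟨∏ w, C w, prod_pos fun w _ => hC0 w, fun θ T hL => ?_⟩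
  have hi := fun w => (hC w T _ _ (hL w)).1
  obtain ⟨w0⟩ := (inferInstance : Nonempty (InfinitePlace K))
  have hT0 : 0 < T := by linarith [(hL w0).1]
  refine ⟨Integrable.fintype_prod hi, ?_⟩
  rw [integral_fintype_prod_volume_eq_prod (fun w (p : ℝ × ℝ) => ‖mc (tp K w) (θ.1 w) (θ.2 w) p‖ *
        (Real.exp (a * mult w * p.1) * (1 + |p.2|) ^ A1))]
  have h1 : ∀ w, (√(T ^ nr (tp K w)))⁻¹ * (T ^ (1 + ε)) ^ (a * mult w) =
      T ^ ((-(1 / 2) + (1 + ε) * a) * mult w) := by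
    intro w
    rw [← mult_nr, Real.sqrt_eq_rpow, ← Real.rpow_natCast, ← Real.rpow_mul hT0.le,
      ← Real.rpow_neg hT0.le, ← Real.rpow_mul hT0.le, ← Real.rpow_add hT0]
    congr 1
    ring
  calc ∏ w, ∫ p : ℝ × ℝ, ‖mc (tp K w) (θ.1 w) (θ.2 w) p‖ *
        (Real.exp (a * mult w * p.1) * (1 + |p.2|) ^ A1) ≤
      ∏ w, (C w * T ^ ((-(1 / 2) + (1 + ε) * a) * mult w)) := by
        refine prod_le_prod (fun w _ => integral_nonneg fun p => by positivity) fun w _ => ?_
        rw [← h1 w, ← mul_assoc]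
        exact (hC w T _ _ (hL w)).2
    _ = (∏ w, C w) * T ^ (∑ w : InfinitePlace K, (-(1 / 2) + (1 + ε) * a) * mult w) := by
        rw [prod_mul_distrib, Real.rpow_sum_of_pos hT0]
    _ = _ := by
        rw [← mul_sum, sum_mult_real]
        congr 2
        ring

end A11

end Pool.Agent.T2H29.TA
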