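import Pool.Agent.T2H29.TA.A12b

/-!
# The final assembly
-/

set_option autoImplicit false
set_option linter.unusedSectionVars false

namespace Pool.Agent.T2H29.TA

open Finset NumberField NumberField.InfinitePlace Module MeasureTheory
open Pool.Agent.T2H29.SW
open scoped RealInnerProductSpace ContDiff

variable (K : Type) [Field K] [NumberField K]

theorem final_T (K : Type) [Field K] [NumberField K] {B : ℝ} (hB1 : 1 ≤ B) (hB : CBI K B)
    (h : CoreD K B) : ∃ (C : ℝ) (a : ℕ), 0 < C ∧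
    ∀ (f : Ideal (𝓞 K)) (θ : Par (InfinitePlace K)) (χ : Ideal (𝓞 K) →* ℂ),
    f ≠ ⊥ → f ≠ ⊤ → HeckeM f θ χ →
    ∃ L : ℂ → ℂ, Differentiable ℂ L ∧
    (∀ s : ℂ, 1 < s.re →
      HasSum (fun I : Ideal (𝓞 K) => χ I * (Ideal.absNorm I : ℂ) ^ (-s)) (L s)) ∧
    ∀ t : ℝ, ‖L (1 / 2 + t * Complex.I)‖ ≤ C * (Tp θ * Ideal.absNorm f) ^ a *
        (1 + |t|) ^ ((dg K : ℝ) / 6 - 1 / 4000) := by
  choose Ct hCt0 hCt using fun N => tailI (K := K) (B := B) hB N
  obtain ⟨C0, hC00, hC0⟩ := main_absV K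
  obtain ⟨C1, hC10, hC1⟩ := class_big K hB h (Ct := Ct) (fun N => (hCt0 N).le)
  obtain ⟨C2, hC20, hC2⟩ := LamT_bdU K B Ct (fun N => (hCt0 N).le)
  have hn1 : 1 ≤ dg K := NeZero.one_le
  have hn1' : (1 : ℝ) ≤ dg K := by exact_mod_cast hn1
  set A : ℝ := 1 + 2 * Fintype.card (InfinitePlace K) with hA
  have hA0 : 0 < A := by positivity
  set D : ℝ := C2 * (A * (1 + C1)) ^ (3 * dg K + 1) * (2 * B + 1) with hD
  have hD0 : 0 < D := by positivity
  refine ⟨C0 * (C1 + D), 6 * dg K + 4, by positivity, fun f θ χ hf hft hH => ?_⟩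
  set F := FF f θ χ with hF
  have hFm : PM f F := FF_PM hft hH
  choose I hI hco hCl using fun C : ClassGroup (𝓞 K) => exists_rep2 hf hft C⁻¹
  have hb : ∀ C, Nonempty (Basis (Fin (dg K)) ℤ (I C)) := fun C => exists_bas (I C) (hI C)
  set b : ∀ C, Basis (Fin (dg K)) ℤ (I C) := fun C => Classical.choice (hb C) with hbdef
  have hS : ∀ C, SetU B Ct (Ideal.absNorm f) (2 * B ^ 2 * Ideal.absNorm f) (I C) (b C)
      (fun z => F (el (b C) z)) := fun C =>
    data_V hB hCt0 hCt (hI C) hf hft (hco C) (b C) hFm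
  obtain ⟨L, hL1, hL2, hL3⟩ := hC0 B Ct f θ χ _ _ hft hH.zero hH.norm I hI b
    (fun C z => F (el (b C) z)) hco hCl hS
    (fun C z => by beta_reduce; rw [FF_rel hft hH, one_mul])
  refine ⟨L, hL1, hL2, fun t => ?_⟩
  have hNN1 : (1 : ℝ) ≤ Ideal.absNorm f := by exact_mod_cast nrm_pos hf
  set NN : ℝ := ((Ideal.absNorm f : ℕ) : ℝ) with hNN
  have hW1 := Tp_one θ
  set W := Tp θ with hW
  set Z := W * NN with hZ
  have hZ1 : 1 ≤ Z := one_le_mul_of_one_le_of_one_le hW1 hNN1
  have hWZ : W ≤ Z := le_mul_of_one_le_right (by linarith) hNN1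
  have hNZ : NN ≤ Z := le_mul_of_one_le_left (by linarith) hW1
  have ht0 := abs_nonneg t
  set R : ℝ := (1 + |t|) ^ ((dg K : ℝ) / 6 - 1 / 4000) with hR
  have hexp : 0 ≤ (dg K : ℝ) / 6 - 1 / 4000 := by linarith
  have hR1 : 1 ≤ R := Real.one_le_rpow (by linarith) hexp
  have hre : ((1 : ℂ) / 2 + t * Complex.I).re = 1 / 2 := by simp
  have key : ∀ C, √(Ideal.absNorm (I C)) *
      ‖LamT θ.2 (ThW (b C) (shp θ t) (fun z => F (el (b C) z))) (1 / 2 + t * Complex.I)‖ ≤
      (C1 + D) * Z ^ (6 * dg K + 4) * R := by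
    intro C
    rcases le_total (C1 * Z) |t| with hlt | hlt
    · have h1 := hC1 (I C) f (b C) F θ _ t (1 / 2 + t * Complex.I) hf hft (hco C) hFm (hS C) hlt hre
      refine h1.trans ?_
      have h2 : |t| ^ ((dg K : ℝ) / 6 - 1 / 4000) ≤ R :=
        Real.rpow_le_rpow ht0 (by linarith) hexp
      have h3 : Z ^ (3 * dg K + 3) ≤ Z ^ (6 * dg K + 4) := pow_le_pow_right₀ hZ1 (by omega)
      calc C1 * Z ^ (3 * dg K + 3) * |t| ^ ((dg K : ℝ) / 6 - 1 / 4000) ≤
          C1 * Z ^ (6 * dg K + 4) * R := by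
            refine mul_le_mul ?_ h2 (by positivity) (by positivity)
            exact mul_le_mul_of_nonneg_left h3 hC10.le
        _ ≤ _ := by
            refine mul_le_mul_of_nonneg_right ?_ (by positivity)
            exact mul_le_mul_of_nonneg_right (by linarith) (by positivity)
    · have h1 := hC2 NN (2 * B ^ 2 * NN) (I C) (b C) (fun z => F (el (b C) z)) (shp θ t) θ.2
        (1 / 2 + t * Complex.I) (hS C) hre
      refine h1.trans ?_
      have h2 := Tp_shp θ t
      rw [← hA, ← hW] at h2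
      have h3 : Tp (shp θ t) ≤ A * (1 + C1) * Z ^ 2 := by
        refine h2.trans ?_
        have h4 : 1 + |t| ≤ (1 + C1) * Z := by nlinarith
        calc A * (W * (1 + |t|)) ≤ A * (Z * ((1 + C1) * Z)) := by
              refine mul_le_mul_of_nonneg_left ?_ hA0.le
              exact mul_le_mul hWZ h4 (by positivity) (by linarith)
          _ = _ := by ring
      have h5 : Tp (shp θ t) ^ (3 * dg K + 1) ≤
          (A * (1 + C1)) ^ (3 * dg K + 1) * Z ^ (6 * dg K + 2) := by
        refine (pow_le_pow_left₀ (by linarith [Tp_one (shp θ t)]) h3 _).trans (le_of_eq ?_)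
        rw [mul_pow, ← pow_mul]
        congr 2
        ring
      have h6 : √(2 * B ^ 2 * NN) * (Real.log NN + 1) + 1 ≤ (2 * B + 1) * Z ^ 2 := by
        have e1 : √(2 * B ^ 2 * NN) ≤ 2 * B * Z := by
          refine Real.sqrt_le_iff.2 ⟨by positivity, ?_⟩
          have e2 : (2 * B * Z) ^ 2 = 4 * B ^ 2 * Z ^ 2 := by ring
          rw [e2]
          have e3 : NN ≤ Z ^ 2 := by nlinarith
          have e4 : 0 ≤ B ^ 2 := by positivity
          nlinarith [mul_le_mul_of_nonneg_left e3 e4, mul_nonneg e4 (by positivity : 0 ≤ Z ^ 2)]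
        have e5 : Real.log NN + 1 ≤ Z := by
          have := Real.log_le_sub_one_of_pos (by linarith : 0 < NN)
          linarith
        have e6 : 0 ≤ Real.log NN + 1 := by
          have := Real.log_nonneg hNN1
          linarith
        have e7 : √(2 * B ^ 2 * NN) * (Real.log NN + 1) ≤ 2 * B * Z * Z :=
          mul_le_mul e1 e5 e6 (by positivity)
        have e8 : 1 ≤ Z ^ 2 := one_le_pow₀ hZ1
        nlinarith
      have h7 : 0 ≤ √(2 * B ^ 2 * NN) * (Real.log NN + 1) + 1 := by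
        have := Real.log_nonneg hNN1
        positivity
      calc C2 * Tp (shp θ t) ^ (3 * dg K + 1) * (√(2 * B ^ 2 * NN) * (Real.log NN + 1) + 1) ≤
          C2 * ((A * (1 + C1)) ^ (3 * dg K + 1) * Z ^ (6 * dg K + 2)) * ((2 * B + 1) * Z ^ 2) := by
            refine mul_le_mul ?_ h6 h7 (by positivity)
            exact mul_le_mul_of_nonneg_left h5 hC20.le
        _ = D * Z ^ (6 * dg K + 4) * 1 := by rw [hD]; ring
        _ ≤ (C1 + D) * Z ^ (6 * dg K + 4) * R := by
            refine mul_le_mul ?_ hR1 (by norm_num) (by positivity)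
            exact mul_le_mul_of_nonneg_right (by linarith) (by positivity)
  have h1 := hL3 t _ key
  refine h1.trans (le_of_eq ?_)
  ring

end Pool.Agent.T2H29.TA
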