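import Pool.Agent.T2H29.TA.Props
import Pool.Agent.T2H29.TA.A1
import Pool.Agent.T2H29.SW.U15
import Pool.Agent.T2H29.SW.B13

/-!
# The final assembly: the bounds for the classes
-/

set_option autoImplicit false
set_option linter.unusedSectionVars false

namespace Pool.Agent.T2H29.TA

open Finset NumberField NumberField.InfinitePlace Module MeasureTheory NumberField.Units
open Pool.Agent.T2H29.SW
open scoped RealInnerProductSpace ContDiff nonZeroDivisors

/-- sums over the cosets of a sublattice -/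
lemma SubL_tsum {ι : Type} [Fintype ι] [DecidableEq ι] {Qt : Type} [Fintype Qt] [DecidableEq Qt]
    {cls : (ι → ℤ) → Qt} {τ : (ι → ℤ) → (ι → ℤ)} (h : SubL cls τ) {rep : Qt → (ι → ℤ)}
    (hrep : ∀ k, cls (rep k) = k) {H : (ι → ℤ) → ℂ} (hH : Summable H) :
    ∑' z, H z = ∑ k, ∑' t, H (rep k + τ t) := by
  have hbij : Function.Bijective (fun kt : Qt × (ι → ℤ) => rep kt.1 + τ kt.2) := by
    constructor
    · rintro ⟨k, t⟩ ⟨k', t'⟩ h0
      simp only at h0
      have h1 : k = k' := by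
        have := congrArg cls h0
        rwa [h.cls_add, h.cls_add, hrep, hrep] at this
      subst h1
      have h2 := h.inj (add_left_cancel h0)
      rw [h2]
    · intro z
      obtain ⟨t, ht⟩ := (h.iff z (rep (cls z))).1 (by rw [hrep])
      exact ⟨(cls z, t), ht.symm⟩
  have h1 := (Equiv.ofBijective _ hbij).tsum_eq H
  have h2 : Summable (fun kt : Qt × (ι → ℤ) => H (rep kt.1 + τ kt.2)) :=
    ((Equiv.ofBijective _ hbij).summable_iff).2 hH
  rw [← h1]
  show ∑' kt : Qt × (ι → ℤ), H (rep kt.1 + τ kt.2) = _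
  rw [h2.tsum_prod, tsum_fintype]

variable {K : Type} [Field K] [NumberField K]

/-- the sum over a lattice as a sum over the cosets of the multiples of the modulus -/
theorem ThW_cosets {B : ℝ} (hB : CBI K B) {I m : Ideal (𝓞 K)} (hI : I ≠ ⊥) (hm : m ≠ ⊥)
    (hmt : m ≠ ⊤) (hc : IsCoprime I m) (b : Basis (Fin (dg K)) ℤ I) {F : 𝓞 K → ℂ} (hF : PM m F)
    (θ : Par (InfinitePlace K)) (x : LS K) (b2 : Basis (Fin (dg K)) ℤ (I * m : Ideal (𝓞 K)))
    {S : ℝ} (hS : ∀ v0 : EK K, ‖∑' t : Fin (dg K) → ℤ,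
      Wt (lamK K) θ (v0 + vc (AX b2 x) t)‖ ≤ S) :
    ‖ThW b θ (fun z => F (el b z)) x‖ ≤ Ideal.absNorm m * S := by
  classical
  haveI : Finite (𝓞 K ⧸ m) := Ideal.finiteQuotientOfFreeOfNeBot m hm
  haveI : Fintype (𝓞 K ⧸ m) := Fintype.ofFinite _
  have hcard : Ideal.absNorm m = Fintype.card (𝓞 K ⧸ m) := by
    rw [Ideal.absNorm_apply, Submodule.cardQuot_apply, Nat.card_eq_fintype_card]
  have hle : I * m ≤ I := Ideal.mul_le_left
  obtain ⟨e0, he0, he1⟩ := exists_e0 hc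
  have hsub := subLI b hc b2 rfl hle
  have hgp : PerO m F := fun x y hxy => hF.per x y hxy
  have hF0 : F (el b 0) = 0 := by
    rw [el_zero]
    refine hF.zero _ fun h1 => ?_
    rw [Ideal.isCoprime_iff_sup_eq] at h1
    apply hmt
    simpa using h1
  have hsm := (ThW_triv (θ := θ) (b := b) (F := fun z => F (el b z)) hI (hB I hI b) hF0
    (fun z => hF.le_one _) x).1
  set rp : 𝓞 K ⧸ m → (Fin (dg K) → ℤ) := repI m b ⟨e0, he0⟩ with hrp
  have hmain : ThW b θ (fun z => F (el b z)) x = ∑ k : 𝓞 K ⧸ m, ∑' t : Fin (dg K) → ℤ,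
      Wt (lamK K) θ (vc (AX b x) (rp k + tauI b b2 hle t)) *
        F (el b (rp k + tauI b b2 hle t)) := by
    unfold ThW TW
    exact SubL_tsum hsub (rep := rp) (cls_repI b he1) hsm
  rw [hmain]
  refine (norm_sum_le _ _).trans ?_
  have h1 : ∀ k ∈ (univ : Finset (𝓞 K ⧸ m)), ‖∑' t : Fin (dg K) → ℤ,
      Wt (lamK K) θ (vc (AX b x) (rp k + tauI b b2 hle t)) *
        F (el b (rp k + tauI b b2 hle t))‖ ≤ S := by
    intro k _
    have h2 : ∀ t, Wt (lamK K) θ (vc (AX b x) (rp k + tauI b b2 hle t)) *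
        F (el b (rp k + tauI b b2 hle t)) =
        Wt (lamK K) θ (vc (AX b x) (rp k) + vc (AX b2 x) t) * F (el b (rp k)) := by
      intro t
      have h3 : vc (AX b x) (rp k + tauI b b2 hle t) = vc (AX b x) (rp k) + vc (AX b2 x) t := by
        rw [vc_add']
        congr 1
        unfold vc
        rw [AX_tau]
      have h4 : F (el b (rp k + tauI b b2 hle t)) = F (el b (rp k)) := by
        refine hgp _ _ ?_
        rw [el_addd, el_tauI, add_sub_cancel_left]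
        exact Ideal.mul_le_right (el_mem b2 t)
      rw [h3, h4]
    simp_rw [h2]
    rw [tsum_mul_right, norm_mul]
    refine (mul_le_mul_of_nonneg_left (hF.le_one (el b (rp k))) (norm_nonneg _)).trans ?_
    rw [mul_one]
    exact hS (vc (AX b x) (rp k))
  refine (sum_le_sum h1).trans ?_
  rw [sum_const, card_univ, nsmul_eq_mul, hcard]

/-- the abstract main theorem -/
theorem main_absV (K : Type) [Field K] [NumberField K] : ∃ C0 : ℝ, 0 < C0 ∧
    ∀ (B : ℝ) (Ct : ℕ → ℝ) (m : Ideal (𝓞 K)) (θ : Par (InfinitePlace K))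
    (χ : Ideal (𝓞 K) →* ℂ) (Q k : ℝ), m ≠ ⊤ → (∀ I, ¬ IsCoprime I m → χ I = 0) →
    (∀ I, IsCoprime I m → ‖χ I‖ = 1) →
    ∀ (I : ClassGroup (𝓞 K) → Ideal (𝓞 K)) (hI : ∀ C, I C ≠ ⊥)
    (b : ∀ C, Basis (Fin (dg K)) ℤ (I C)) (G : ClassGroup (𝓞 K) → (Fin (dg K) → ℤ) → ℂ),
    (∀ C, IsCoprime (I C) m) → (∀ C, ClassGroup.mk0 ⟨I C, nzd (hI C)⟩ = C⁻¹) →
    (∀ C, SetU B Ct Q k (I C) (b C) (G C)) →
    (∀ C z, χ (Ideal.span {el (b C) z}) = 1 * G C z * infK θ (el (b C) z : K)) →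
    ∃ L : ℂ → ℂ, Differentiable ℂ L ∧
    (∀ s : ℂ, 1 < s.re →
      HasSum (fun I : Ideal (𝓞 K) => χ I * (Ideal.absNorm I : ℂ) ^ (-s)) (L s)) ∧
    ∀ t X : ℝ, (∀ C, √(Ideal.absNorm (I C)) *
      ‖LamT θ.2 (ThW (b C) (shp θ t) (G C)) (1 / 2 + t * Complex.I)‖ ≤ X) →
      ‖L (1 / 2 + t * Complex.I)‖ ≤ C0 * X := by
  haveI : Nonempty (Fin (dg K)) := ⟨0⟩
  obtain ⟨c, hc0, hc⟩ := UU_int K
  have hwc : 0 < (torsionOrder K : ℝ) * c := by
    have : (0 : ℝ) < torsionOrder K := by exact_mod_cast torsionOrder_pos K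
    positivity
  have hcard : (0 : ℝ) < Fintype.card (ClassGroup (𝓞 K)) := by
    exact_mod_cast Fintype.card_pos
  have hZ0 : Zf K (1 / 2) ≠ 0 := Zf_ne K (by norm_num)
  have hZn : 0 < ‖Zf K (1 / 2)‖ := norm_pos_iff.2 hZ0
  refine ⟨Fintype.card (ClassGroup (𝓞 K)) * (((torsionOrder K : ℝ) * c)⁻¹ *
    ‖Zf K (1 / 2)‖⁻¹), by positivity,
    fun B Ct m θ χ Q k hm hχz hχnn I hI b G hco hC hS hrel => ?_⟩
  have hχn : ∀ C, ‖χ (I C)‖ = 1 := fun C => hχnn _ (hco C)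
  have hχ0 : ∀ C, χ (I C) ≠ 0 := by
    intro C h1
    have := hχn C
    rw [h1, norm_zero] at this
    exact zero_ne_one this
  have hbot : χ ⊥ = 0 := by
    refine hχz _ fun h1 => ?_
    rw [Ideal.isCoprime_iff_sup_eq, bot_sup_eq] at h1
    exact hm h1
  set Lt : ℝ → ℂ → ℂ := fun t0 s => ∑ C : ClassGroup (𝓞 K), ((χ (I C))⁻¹ *
    (Ideal.absNorm (I C) : ℂ) ^ s * (((torsionOrder K : ℂ) * c)⁻¹ *
      (Zf K (s - Complex.I * t0))⁻¹ * ((1 : ℂ) * LamT θ.2 (ThW (b C) (shp θ t0) (G C)) s))) with hLt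
  have hd : ∀ t0, DifferentiableOn ℂ (Lt t0) {s | |s.im - t0| < 1} := by
    intro t0
    rw [hLt]
    beta_reduce
    refine DifferentiableOn.fun_sum fun C _ => ?_
    have h1 := ((hS C).td (shp θ t0)).diff θ.2
    have h2 : DifferentiableOn ℂ (fun s => (Zf K (s - Complex.I * t0))⁻¹) {s | |s.im - t0| < 1} := by
      refine DifferentiableOn.inv ?_ fun s hs => ?_
      · exact ((Zf_diff K).comp (by fun_prop :
          Differentiable ℂ fun s : ℂ => s - Complex.I * t0)).differentiableOn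
      · refine Zf_ne K ?_
        have e1 : (s - Complex.I * t0).im = s.im - t0 := by simp
        rw [e1]
        exact le_of_lt hs
    have h3 : Differentiable ℂ fun s : ℂ => (Ideal.absNorm (I C) : ℂ) ^ s := by
      refine Differentiable.const_cpow differentiable_id (Or.inl ?_)
      have := absNorm_pos' (hI C)
      exact_mod_cast this.ne'
    refine DifferentiableOn.mul ((h3.differentiableOn).const_mul _) ?_
    refine DifferentiableOn.mul (h2.const_mul _) ?_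
    exact (h1.differentiableOn).const_mul _
  have hsum : ∀ t0 s, 1 < s.re → |s.im - t0| < 1 →
      HasSum (fun I : Ideal (𝓞 K) => χ I * (Ideal.absNorm I : ℂ) ^ (-s)) (Lt t0 s) := by
    intro t0 s hs ht
    refine all_hasSum (f := fun J : Ideal (𝓞 K) => χ J * (Ideal.absNorm J : ℂ) ^ (-s)) ?_
      fun C => ?_
    · rw [hbot, zero_mul]
    · exact class_LGU (hS C) (hrel C) (hχ0 C) hc0 hc (hI C) (hC C) hs ht
  obtain ⟨L, hL1, hL2, hL3⟩ := glue hd
    (g := fun s => ∑' I : Ideal (𝓞 K), χ I * (Ideal.absNorm I : ℂ) ^ (-s))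
    (fun t0 s hs ht => ((hsum t0 s hs ht).tsum_eq).symm)
  refine ⟨L, hL1, fun s hs => ?_, fun t X hX => ?_⟩
  · rw [hL3 s.im s (by simp)]
    exact hsum s.im s hs (by simp)
  · set s : ℂ := 1 / 2 + t * Complex.I with hs
    have hsi : s.im = t := by simp [hs]
    have hre : s.re = 1 / 2 := by simp [hs]
    rw [hL3 t s (by rw [hsi]; simp)]
    have hsub : s - Complex.I * t = 1 / 2 := by rw [hs]; ring
    rw [hLt]
    beta_reduce
    refine (norm_sum_le _ _).trans ?_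
    have h1 : ∀ C : ClassGroup (𝓞 K), ‖(χ (I C))⁻¹ * (Ideal.absNorm (I C) : ℂ) ^ s *
        (((torsionOrder K : ℂ) * c)⁻¹ * (Zf K (s - Complex.I * t))⁻¹ *
        ((1 : ℂ) * LamT θ.2 (ThW (b C) (shp θ t) (G C)) s))‖ ≤
        ((torsionOrder K : ℝ) * c)⁻¹ * ‖Zf K (1 / 2)‖⁻¹ * X := by
      intro C
      have h2 := hX C
      have hI0 := absNorm_pos' (hI C)
      have e1 : ‖(Ideal.absNorm (I C) : ℂ) ^ s‖ = √(Ideal.absNorm (I C)) := by
        have e2 : ((Ideal.absNorm (I C) : ℕ) : ℂ) = (((Ideal.absNorm (I C) : ℕ) : ℝ) : ℂ) := by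
          push_cast; rfl
        rw [e2, Complex.norm_cpow_eq_rpow_re_of_pos hI0, hre, Real.sqrt_eq_rpow]
      have e3 : ‖((torsionOrder K : ℂ) * c)⁻¹‖ = ((torsionOrder K : ℝ) * c)⁻¹ := by
        rw [norm_inv]
        congr 1
        have : ((torsionOrder K : ℂ) * c) = (((torsionOrder K : ℝ) * c : ℝ) : ℂ) := by
          push_cast; rfl
        rw [this, Complex.norm_real, Real.norm_of_nonneg hwc.le]
      rw [norm_mul, norm_mul, norm_inv, hχn, inv_one, one_mul, norm_mul, norm_mul, one_mul, e1, e3,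
        hsub, norm_inv]
      set Λ := ‖LamT θ.2 (ThW (b C) (shp θ t) (G C)) s‖ with hΛ
      have hΛ0 : 0 ≤ Λ := norm_nonneg _
      calc √(Ideal.absNorm (I C)) * (((torsionOrder K : ℝ) * c)⁻¹ * ‖Zf K (1 / 2)‖⁻¹ * Λ) =
            ((torsionOrder K : ℝ) * c)⁻¹ * ‖Zf K (1 / 2)‖⁻¹ * (√(Ideal.absNorm (I C)) * Λ) := by ring
        _ ≤ _ := mul_le_mul_of_nonneg_left h2 (by positivity)
    refine (sum_le_sum fun C _ => h1 C).trans ?_
    rw [sum_const, card_univ, nsmul_eq_mul]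
    exact le_of_eq (by ring)

/-- the class data -/
theorem data_V {B : ℝ} (hB : CBI K B) {Ct : ℕ → ℝ} (hCt0 : ∀ N, 0 < Ct N)
    (hCt : ∀ N, TailP K N (Ct N)) {I m : Ideal (𝓞 K)} (hI : I ≠ ⊥) (hm : m ≠ ⊥) (hmt : m ≠ ⊤)
    (hc : IsCoprime I m) (b : Basis (Fin (dg K)) ℤ I) {F : 𝓞 K → ℂ} (hF : PM m F) :
    SetU B Ct (Ideal.absNorm m) (2 * B ^ 2 * Ideal.absNorm m) I b (fun z => F (el b z)) := by
  have hQ1 : (1 : ℝ) ≤ Ideal.absNorm m := by exact_mod_cast nrm_pos hm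
  refine ⟨hI, hB I hI b, fun z => hF.le_one _, ?_, hQ1, by positivity, fun N => (hCt0 N).le,
    fun x ξ => ?_, fun N x hx ξ => ?_⟩
  · beta_reduce
    rw [el_zero]
    refine hF.zero _ fun h1 => ?_
    rw [Ideal.isCoprime_iff_sup_eq] at h1
    apply hmt
    simpa using h1
  · have h1 := pvI hB hI hm hc b hF x 0 ((AX b x).transpose.mulVec ξ.ofLp)
    set Q : ℝ := ((Ideal.absNorm m : ℕ) : ℝ) with hQ
    have hmm := mm_pos hI x.2
    have hQ0 : 0 < Q := by linarith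
    have h2 := pow_le_pow_left₀ (norm_nonneg _) h1 2
    refine h2.trans ?_
    have h3 : (√Q * (B * (1 + mm I x.2 / Q))) ^ 2 = B ^ 2 * (Q * (1 + mm I x.2 / Q) ^ 2) := by
      rw [mul_pow, mul_pow, Real.sq_sqrt hQ0.le]
      ring
    have h4 : Q * (1 + mm I x.2 / Q) ^ 2 ≤ 2 * Q * (1 + mm I x.2 + mm I x.2 ^ 2 / Q) := by
      have e1 : Q * (1 + mm I x.2 / Q) ^ 2 = Q + 2 * mm I x.2 + mm I x.2 ^ 2 / Q := by
        field_simp
        ring
      have e2 : mm I x.2 ≤ Q * mm I x.2 := le_mul_of_one_le_left hmm.le hQ1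
      have e3 : mm I x.2 ^ 2 / Q ≤ Q * (mm I x.2 ^ 2 / Q) :=
        le_mul_of_one_le_left (by positivity) hQ1
      have e4 : 0 ≤ mm I x.2 ^ 2 / Q := by positivity
      rw [e1]
      nlinarith
    have h5 : 1 ≤ ((1 + ‖ξ‖) ^ (dg K + 1)) ^ 2 :=
      one_le_pow₀ (one_le_pow₀ (by linarith [norm_nonneg ξ]))
    rw [h3]
    calc B ^ 2 * (Q * (1 + mm I x.2 / Q) ^ 2) ≤
        B ^ 2 * (2 * Q * (1 + mm I x.2 + mm I x.2 ^ 2 / Q)) :=
          mul_le_mul_of_nonneg_left h4 (by positivity)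
      _ = 2 * B ^ 2 * Q * (1 + mm I x.2 + mm I x.2 ^ 2 / Q) * 1 := by ring
      _ ≤ _ := mul_le_mul_of_nonneg_left h5 (by positivity)
  · exact hCt N I m b F x hI hm hmt hc hF hx ξ

end Pool.Agent.T2H29.TA
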