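import Pool.Agent.T2H29.TA.A12a

/-!
# The final assembly: the bound for large heights
-/

set_option autoImplicit false
set_option linter.unusedSectionVars false

namespace Pool.Agent.T2H29.TA

open Finset NumberField NumberField.InfinitePlace Module MeasureTheory NumberField.Units
open Pool.Agent.T2H29.SW
open scoped RealInnerProductSpace ContDiff nonZeroDivisors

variable {K : Type} [Field K] [NumberField K]

lemma Tp_coord (θ : Par (InfinitePlace K)) (w : InfinitePlace K) :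
    |(θ.1 w : ℝ)| + |θ.2 w| ≤ Tp θ - 1 := by
  have h1 := single_le_sum (f := fun w => |(θ.1 w : ℝ)| + |θ.2 w|) (fun w _ => by positivity)
    (mem_univ w)
  unfold Tp
  beta_reduce at h1
  linarith

/-- the parameters for large heights -/
lemma shp_cond (θ : Par (InfinitePlace K)) {t : ℝ} (ht : 2 * Tp θ ≤ |t|) (w : InfinitePlace K) :
    |t| / 2 ≤ |(shp θ t).2 w| ∧
      ‖cp (tp K w) ((shp θ t).1 w) ((shp θ t).2 w)‖ ≤ 4 * |t| := by
  have hmul : (1 : ℝ) ≤ mult w ∧ (mult w : ℝ) ≤ 2 := by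
    unfold InfinitePlace.mult
    split_ifs <;> norm_num
  obtain ⟨h1, h2⟩ := hmul
  have h3 := Tp_coord θ w
  have h4 : |(mult w : ℝ) * t| = mult w * |t| := by
    rw [abs_mul, abs_of_nonneg (by linarith : (0 : ℝ) ≤ mult w)]
  have h5 : (shp θ t).2 w = θ.2 w - mult w * t := rfl
  have h6 : (shp θ t).1 w = θ.1 w := rfl
  have h7 : mult w * |t| - |θ.2 w| ≤ |(shp θ t).2 w| := by
    rw [h5, ← h4, abs_sub_comm]
    exact abs_sub_abs_le_abs_sub _ _
  have h8 : |(shp θ t).2 w| ≤ |θ.2 w| + mult w * |t| := by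
    rw [h5, ← h4]
    exact abs_sub _ _
  have h9 := abs_nonneg (θ.2 w)
  have h10 := abs_nonneg ((θ.1 w : ℝ))
  have hT0' : 0 ≤ |t| := abs_nonneg t
  have h11 : |t| ≤ mult w * |t| := le_mul_of_one_le_left hT0' h1
  have h12 : mult w * |t| ≤ 2 * |t| := mul_le_mul_of_nonneg_right h2 hT0'
  constructor
  · linarith
  · rcases hb : tp K w with _ | _
    · show ‖(((shp θ t).2 w : ℝ) : ℂ) - ((shp θ t).1 w : ℂ) * Complex.I‖ ≤ 4 * |t|
      refine (norm_sub_le _ _).trans ?_
      rw [norm_mul, Complex.norm_I, mul_one, Complex.norm_real, Real.norm_eq_abs, h6,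
        Complex.norm_intCast]
      linarith
    · show ‖(((shp θ t).2 w : ℝ) : ℂ)‖ ≤ 4 * |t|
      rw [Complex.norm_real, Real.norm_eq_abs]
      linarith

/-- the bound for large heights -/
theorem class_big (K : Type) [Field K] [NumberField K] {B : ℝ} (hB : CBI K B)
    (h : CoreD K B) {Ct : ℕ → ℝ} (hCt : ∀ N, 0 ≤ Ct N) : ∃ C : ℝ, 0 < C ∧
    ∀ (I m : Ideal (𝓞 K)) (b : Basis (Fin (dg K)) ℤ I) (F : 𝓞 K → ℂ) (θ : Par (InfinitePlace K))
    (k t : ℝ) (s : ℂ), m ≠ ⊥ → m ≠ ⊤ → IsCoprime I m → PM m F →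
    SetU B Ct (Ideal.absNorm m) k I b (fun z => F (el b z)) →
    C * (Tp θ * Ideal.absNorm m) ≤ |t| → s.re = 1 / 2 →
    √(Ideal.absNorm I) * ‖LamT θ.2 (ThW b (shp θ t) (fun z => F (el b z))) s‖ ≤
      C * (Tp θ * Ideal.absNorm m) ^ (3 * dg K + 3) * |t| ^ ((dg K : ℝ) / 6 - 1 / 4000) := by
  obtain ⟨C1, T0, hC10, hT0, hD⟩ := h
  obtain ⟨C2, hC20, hC2⟩ := TW_tailU K 1
  have hct := hCt 1
  have hn1 : 1 ≤ dg K := NeZero.one_le
  have hn1' : (1 : ℝ) ≤ dg K := by exact_mod_cast hn1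
  have hn : (0 : ℝ) < dg K := by linarith
  have hcK := cK_pos K
  have hscK : 0 < √(cK K) := Real.sqrt_pos.2 hcK
  have hm0 := m0_pos (K := K)
  set c1 := √((m0 K)⁻¹) + 1 with hc1
  have hc10 : 0 < c1 := by positivity
  set A : ℝ := 1 + 2 * Fintype.card (InfinitePlace K) with hA
  have hA0 : 0 < A := by positivity
  set c4 : ℝ := 10 + 2 * |Real.log (m0 K)| with hc4
  have hc40 : 0 < c4 := by positivity
  set D1 : ℝ := C1 * c1 * c4 * 28001 with hD1
  set D2 : ℝ := 8 * (C2 * Ct 1 * (2 * A) ^ (3 * dg K + 1)) with hD2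
  have hD10 : 0 < D1 := by positivity
  have hD20 : 0 ≤ D2 := by positivity
  set D : ℝ := (√(cK K))⁻¹ * (D1 + D2) with hD'
  have hD0 : 0 < D := by positivity
  refine ⟨T0 + 2 + D, by linarith, fun I m b F θ k t s hm hmt hc hF hS ht hs => ?_⟩
  have hcond0 := shp_cond (K := K) θ (t := t)
  have hTp0 := Tp_shp θ t
  rw [← hA] at hTp0
  set W := Tp θ with hW
  have hW1 : 1 ≤ W := Tp_one θ
  have hS1 := hS.Q1
  set NN : ℝ := ((Ideal.absNorm m : ℕ) : ℝ) with hNN
  have hN1 : 1 ≤ NN := hS1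
  set Z := W * NN with hZ
  have hZ1 : 1 ≤ Z := one_le_mul_of_one_le_of_one_le hW1 hN1
  set T := |t| with hT
  have hWZ : W ≤ Z := le_mul_of_one_le_right (by linarith) hN1
  have hNZ : NN ≤ Z := le_mul_of_one_le_left (by linarith) hW1
  have hTZ : (T0 + 2) * Z ≤ T := by
    refine le_trans ?_ ht
    exact mul_le_mul_of_nonneg_right (by linarith) (by linarith)
  have hZ0 : 0 ≤ Z := by linarith
  have hTT0 : T0 ≤ T := by
    have h1 : T0 + 2 ≤ (T0 + 2) * Z := le_mul_of_one_le_right (by linarith) hZ1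
    linarith
  have hT2W : 2 * W ≤ T := by
    have h1 : 2 * W ≤ (T0 + 2) * Z := mul_le_mul (by linarith) hWZ (by linarith) (by linarith)
    linarith
  have hTN : NN ≤ T := by
    have h1 : Z ≤ (T0 + 2) * Z := le_mul_of_one_le_left hZ0 (by linarith)
    linarith
  have hT1 : 1 ≤ T := by linarith
  have hT0' : 0 < T := by linarith
  have hcond := hcond0 hT2W
  have hTp : Tp (shp θ t) ≤ 2 * A * W * T := by
    have h2 : A * (W * (1 + T)) ≤ 2 * A * W * T := by
      have h3 : 0 ≤ A * W := mul_nonneg hA0.le (by linarith)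
      calc A * (W * (1 + T)) = (A * W) * (1 + T) := by ring
        _ ≤ (A * W) * (2 * T) := mul_le_mul_of_nonneg_left (by linarith) h3
        _ = _ := by ring
    exact hTp0.trans h2
  set Q1 : ℝ := T ^ (5 * dg K) with hQ1
  have hQ11 : 1 ≤ Q1 := one_le_pow₀ hT1
  have hTQ : T ≤ Q1 := le_self_pow₀ hT1 (by omega)
  have hQr : Q1 = T ^ (5 * (dg K : ℝ)) := by
    rw [hQ1, ← Real.rpow_natCast]
    push_cast
    rfl
  set P : ℝ := T ^ ((dg K : ℝ) / 6 - 1 / 3500) with hP
  have hP0 : 0 < P := by positivity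
  set G : ℝ := NN * (C1 * c1 * P) with hG
  set E : ℝ := C2 * Ct 1 * (2 * A * W) ^ (3 * dg K + 1) * NN ^ 2 with hE
  have hG0 : 0 ≤ G := by positivity
  have hE0 : 0 ≤ E := by positivity
  have hcr := LamT_crit hG0 hE0 hQ11 hS.ne (hS.td (shp θ t))
    (fun x hx => ThW_zero hS.ne hS.zero hx) (fun x hx1 hx2 => ?_) (fun x hx => ?_) θ.2 hs
  · refine hcr.trans ?_
    have hlT : 0 ≤ Real.log T := Real.log_nonneg hT1
    have hlQ : Real.log Q1 = 5 * dg K * Real.log T := by
      rw [hQ1, Real.log_pow]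
      push_cast
      ring
    set Tδ : ℝ := T ^ (1 / 28000 : ℝ) with hTδ'
    have hTδ : 1 ≤ Tδ := Real.one_le_rpow hT1 (by norm_num)
    have hlT2 : Real.log T + 1 ≤ 28001 * Tδ := by
      have h1 := Real.log_le_rpow_div hT0'.le (by norm_num : (0 : ℝ) < 1 / 28000)
      rw [← hTδ'] at h1
      have h2 : Tδ / (1 / 28000) = 28000 * Tδ := by ring
      rw [h2] at h1
      linarith
    set R : ℝ := T ^ ((dg K : ℝ) / 6 - 1 / 4000) with hR
    have hPR : P * Tδ = R := by
      rw [hP, hTδ', hR, ← Real.rpow_add hT0']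
      congr 1
      ring
    have hR1 : 1 ≤ R := Real.one_le_rpow hT1 (by linarith)
    have h4 : 2 / (dg K : ℝ) * Real.log Q1 + 2 / dg K * |Real.log (m0 K)| ≤
        c4 * (28001 * Tδ) := by
      have h5 : 2 / (dg K : ℝ) * Real.log Q1 + 2 / dg K * |Real.log (m0 K)| ≤
          c4 * (Real.log T + 1) := by
        rw [hlQ]
        have e1 : 2 / (dg K : ℝ) * (5 * dg K * Real.log T) = 10 * Real.log T := by
          field_simp
          ring
        have e2 : 2 / (dg K : ℝ) * |Real.log (m0 K)| ≤ 2 * |Real.log (m0 K)| := by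
          refine mul_le_mul_of_nonneg_right ?_ (abs_nonneg _)
          rw [div_le_iff₀ hn]
          linarith
        have e3 : 0 ≤ |Real.log (m0 K)| * Real.log T := by positivity
        have e4 : (10 + 2 * |Real.log (m0 K)|) * (Real.log T + 1) =
            10 * Real.log T + 10 + 2 * (|Real.log (m0 K)| * Real.log T) +
            2 * |Real.log (m0 K)| := by ring
        rw [e1, hc4, e4]
        linarith
      exact h5.trans (mul_le_mul_of_nonneg_left hlT2 hc40.le)
    have hZp : 1 ≤ Z ^ (3 * dg K + 3) := one_le_pow₀ hZ1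
    have hZself : Z ≤ Z ^ (3 * dg K + 3) := le_self_pow₀ hZ1 (by omega)
    have h5 : G * (2 / (dg K : ℝ) * Real.log Q1 + 2 / dg K * |Real.log (m0 K)|) ≤
        Z ^ (3 * dg K + 3) * (D1 * R) := by
      calc G * (2 / (dg K : ℝ) * Real.log Q1 + 2 / dg K * |Real.log (m0 K)|) ≤
          G * (c4 * (28001 * Tδ)) := mul_le_mul_of_nonneg_left h4 hG0
        _ = NN * (D1 * (P * Tδ)) := by rw [hG, hD1]; ring
        _ = NN * (D1 * R) := by rw [hPR]
        _ ≤ _ := mul_le_mul_of_nonneg_right (hNZ.trans hZself) (by positivity)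
    have h6 : E * (8 / dg K) ≤ Z ^ (3 * dg K + 3) * (D2 * R) := by
      have e1 : E * (8 / dg K) ≤ E * 8 := by
        refine mul_le_mul_of_nonneg_left ?_ hE0
        rw [div_le_iff₀ hn]
        linarith
      have e2 : E * 8 = D2 * (W ^ (3 * dg K + 1) * NN ^ 2) := by
        rw [hE, hD2, mul_pow (2 * A) W]
        ring
      have e3 : W ^ (3 * dg K + 1) * NN ^ 2 ≤ Z ^ (3 * dg K + 3) := by
        calc W ^ (3 * dg K + 1) * NN ^ 2 ≤ Z ^ (3 * dg K + 1) * Z ^ 2 :=
              mul_le_mul (pow_le_pow_left₀ (by linarith) hWZ _)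
                (pow_le_pow_left₀ (by linarith) hNZ _) (by positivity) (by positivity)
          _ = _ := by rw [← pow_add]
      calc E * (8 / dg K) ≤ E * 8 := e1
        _ = D2 * (W ^ (3 * dg K + 1) * NN ^ 2) := e2
        _ ≤ D2 * Z ^ (3 * dg K + 3) := mul_le_mul_of_nonneg_left e3 hD20
        _ = Z ^ (3 * dg K + 3) * (D2 * 1) := by ring
        _ ≤ _ := by
            refine mul_le_mul_of_nonneg_left ?_ (by positivity)
            exact mul_le_mul_of_nonneg_left hR1 hD20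
    calc (√(cK K))⁻¹ * (G * (2 / (dg K : ℝ) * Real.log Q1 + 2 / dg K * |Real.log (m0 K)|) +
          E * (8 / dg K)) ≤
        (√(cK K))⁻¹ * (Z ^ (3 * dg K + 3) * (D1 * R) + Z ^ (3 * dg K + 3) * (D2 * R)) :=
          mul_le_mul_of_nonneg_left (add_le_add h5 h6) (by positivity)
      _ = D * (Z ^ (3 * dg K + 3) * R) := by rw [hD']; ring
      _ ≤ (T0 + 2 + D) * (Z ^ (3 * dg K + 3) * R) :=
          mul_le_mul_of_nonneg_right (by linarith) (by positivity)
      _ = _ := by ring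
  · -- middle range
    have hIm : I * m ≠ ⊥ := by
      intro h
      rcases Ideal.mul_eq_bot.1 h with h1 | h1
      · exact hS.ne h1
      · exact hm h1
    obtain ⟨b2⟩ := exists_bas (I * m) hIm
    have hMv : Mv (AX b2 x) = mm I x.2 / NN := by rw [Mv_AX, mm_mul hS.ne hm]
    have hmm := mm_pos hS.ne x.2
    have hMle : Mv (AX b2 x) ≤ mm I x.2 := by
      rw [hMv]
      exact div_le_self hmm.le hN1
    have h1 := ThW_cosets hB hS.ne hm hmt hc b hF (shp θ t) x b2
      (fun v0 => hD (AX b2 x) (GB_AX K hB hIm b2 x) v0 (shp θ t) T hTT0 hcond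
        (by rw [← hQr]; exact hMle.trans hx2))
    refine h1.trans ?_
    have h2 : √(Mv (AX b2 x)) ≤ √(mm I x.2) := Real.sqrt_le_sqrt hMle
    have h3 : 1 ≤ √((m0 K)⁻¹) * √(mm I x.2) := by
      rw [← Real.sqrt_mul (by positivity), Real.one_le_sqrt, le_inv_mul_iff₀ hm0, mul_one]
      exact hx1
    have h4 : 1 + √(Mv (AX b2 x)) ≤ c1 * √(mm I x.2) := by
      rw [hc1, add_mul, one_mul]
      linarith
    have h5 : C1 * (1 + √(Mv (AX b2 x))) * P ≤ C1 * c1 * P * √(mm I x.2) := by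
      calc C1 * (1 + √(Mv (AX b2 x))) * P ≤ C1 * (c1 * √(mm I x.2)) * P := by
            refine mul_le_mul_of_nonneg_right ?_ hP0.le
            exact mul_le_mul_of_nonneg_left h4 hC10.le
        _ = C1 * c1 * P * √(mm I x.2) := by ring
    calc NN * (C1 * (1 + √(Mv (AX b2 x))) * P) ≤ NN * (C1 * c1 * P * √(mm I x.2)) :=
          mul_le_mul_of_nonneg_left h5 (by linarith)
      _ = G * √(mm I x.2) := by rw [hG]; ring
  · -- tail
    have hQx : NN ≤ mm I x.2 := by linarith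
    have h1 := hC2 B Ct NN k I b _ (shp θ t) x hS hQx
    refine h1.trans ?_
    have hmm := mm_pos hS.ne x.2
    have e1 : 2 * (dg K * 1) + dg K + 1 = 3 * dg K + 1 := by omega
    rw [e1]
    have hQ10 : 0 < Q1 := by linarith
    have h2 : Tp (shp θ t) ^ (3 * dg K + 1) ≤ (2 * A * W) ^ (3 * dg K + 1) * Q1 := by
      calc Tp (shp θ t) ^ (3 * dg K + 1) ≤ (2 * A * W * T) ^ (3 * dg K + 1) :=
            pow_le_pow_left₀ (by linarith [Tp_one (shp θ t)]) hTp _
        _ = (2 * A * W) ^ (3 * dg K + 1) * T ^ (3 * dg K + 1) := mul_pow _ _ _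
        _ ≤ _ := by
            refine mul_le_mul_of_nonneg_left ?_ (by positivity)
            exact pow_le_pow_right₀ hT1 (by omega)
    have h3 : mm I x.2 / √NN * (NN / mm I x.2) ^ (2 * 1) ≤ NN ^ 2 / mm I x.2 := by
      have hsN : 1 ≤ √NN := by rw [Real.one_le_sqrt]; exact hN1
      calc mm I x.2 / √NN * (NN / mm I x.2) ^ (2 * 1) ≤
            mm I x.2 * (NN / mm I x.2) ^ (2 * 1) :=
              mul_le_mul_of_nonneg_right (div_le_self hmm.le hsN) (by positivity)
        _ = NN ^ 2 / mm I x.2 := by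
            have e2 : (NN / mm I x.2) ^ (2 * 1) = (NN / mm I x.2) ^ 2 := by norm_num
            rw [e2]
            field_simp
    have h4 : Q1 / mm I x.2 ≤ mm I x.2 / √Q1 * (Q1 / mm I x.2) ^ 2 := by
      have hsQ0 : 0 < √Q1 := Real.sqrt_pos.2 hQ10
      have hsQ : √Q1 ≤ Q1 := by
        have h7 : √Q1 * √Q1 = Q1 := Real.mul_self_sqrt hQ10.le
        have h8 : 1 ≤ √Q1 := by rw [Real.one_le_sqrt]; exact hQ11
        have h9 : √Q1 * 1 ≤ √Q1 * √Q1 := mul_le_mul_of_nonneg_left h8 hsQ0.le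
        rw [mul_one, h7] at h9
        exact h9
      have e2 : mm I x.2 / √Q1 * (Q1 / mm I x.2) ^ 2 = Q1 / mm I x.2 * (Q1 / √Q1) := by
        field_simp
      rw [e2]
      refine le_mul_of_one_le_right (by positivity) ?_
      rw [le_div_iff₀ hsQ0, one_mul]
      exact hsQ
    calc C2 * Ct 1 * Tp (shp θ t) ^ (3 * dg K + 1) *
          (mm I x.2 / √NN * (NN / mm I x.2) ^ (2 * 1)) ≤
        C2 * Ct 1 * ((2 * A * W) ^ (3 * dg K + 1) * Q1) * (NN ^ 2 / mm I x.2) := by
          refine mul_le_mul ?_ h3 (by positivity) (by positivity)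
          exact mul_le_mul_of_nonneg_left h2 (by positivity)
      _ = E * (Q1 / mm I x.2) := by rw [hE]; ring
      _ ≤ _ := mul_le_mul_of_nonneg_left h4 hE0

end Pool.Agent.T2H29.TA
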