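import Pool.Agent.T2H29.TA.L10

/-!
# The local integrals of the differenced sum

`exists_chi` is in `L4`, `loc_sup` in `L5`, `loc_ns` in `L6` and `loc_am` in `L10`.
-/
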