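import Pool.Agent.T2H29.TA.A14e

/-!
# Good shifts: the two parts of the sum
-/

set_option autoImplicit false
set_option linter.unusedSectionVars false

namespace Pool.Agent.T2H29.TA

open Finset NumberField NumberField.InfinitePlace Module MeasureTheory
open Pool.Agent.T2H29.SW
open scoped RealInnerProductSpace ContDiff

variable (K : Type) [Field K] [NumberField K]

/-- the terms far from the stationary points -/
lemma far_sum (B : ℝ) {β : Bool → ℂ → ℂ} (hβ : ∀ r, CIg S0 (β r)) {χ : ℂ → ℝ} (hχ : Chi χ)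
    (N' : ℕ) : ∃ C h0 : ℝ, 0 < C ∧ 0 < h0 ∧ ∀ A, GB K B A → ∀ (o : InfinitePlace K → ℂ)
    (θ : Par (InfinitePlace K)) (y : Fin (dg K) → ℤ) (δ : ℝ), Rot K o → 0 ≤ δ →
    (∀ w, ‖lamK K w (vc A y)‖ ≤ h0) →
    (∀ w, ((1 + ‖Cc (tp K w) (θ.1 w) (θ.2 w) ((starRingEnd ℂ) (o w) *
      lamK K w (vc A y))‖) ^ N')⁻¹ ≤ δ) →
    (Summable fun ζ : Fin (dg K) → ℤ => ‖∏ w, I1 (tp K w) (θ.1 w) (θ.2 w) (β (tp K w))
        ((starRingEnd ℂ) (o w) * lamK K w (vc A y))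
        ((starRingEnd ℂ) (o w) * lamK K w (vc (du A) ζ)) -
      ∏ w, ((χ (Cc (tp K w) (θ.1 w) (θ.2 w) ((starRingEnd ℂ) (o w) * lamK K w (vc A y)) /
        Zz (tp K w) ((starRingEnd ℂ) (o w) * lamK K w (vc (du A) ζ))) : ℂ) *
        I1 (tp K w) (θ.1 w) (θ.2 w) (β (tp K w))
        ((starRingEnd ℂ) (o w) * lamK K w (vc A y))
        ((starRingEnd ℂ) (o w) * lamK K w (vc (du A) ζ)))‖) ∧
    ∑' ζ : Fin (dg K) → ℤ, ‖∏ w, I1 (tp K w) (θ.1 w) (θ.2 w) (β (tp K w))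
        ((starRingEnd ℂ) (o w) * lamK K w (vc A y))
        ((starRingEnd ℂ) (o w) * lamK K w (vc (du A) ζ)) -
      ∏ w, ((χ (Cc (tp K w) (θ.1 w) (θ.2 w) ((starRingEnd ℂ) (o w) * lamK K w (vc A y)) /
        Zz (tp K w) ((starRingEnd ℂ) (o w) * lamK K w (vc (du A) ζ))) : ℂ) *
        I1 (tp K w) (θ.1 w) (θ.2 w) (β (tp K w))
        ((starRingEnd ℂ) (o w) * lamK K w (vc A y))
        ((starRingEnd ℂ) (o w) * lamK K w (vc (du A) ζ)))‖ ≤
      C * δ * (1 + Mv (du A) * ∏ w, (1 + ‖Cc (tp K w) (θ.1 w) (θ.2 w)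
        ((starRingEnd ℂ) (o w) * lamK K w (vc A y))‖) ^ mult w) := by
  obtain ⟨Cl, h0, hCl, hh0, hloc⟩ := loc_all hβ hχ (dg K + 1) N'
  obtain ⟨Cd, hCd, hdec⟩ := sum_dec K B (dg K + 1) le_rfl
  have w0 : InfinitePlace K := Classical.arbitrary _
  have hcard : 0 < Fintype.card (InfinitePlace K) := Fintype.card_pos
  refine ⟨Fintype.card (InfinitePlace K) * Cl ^ Fintype.card (InfinitePlace K) * Cd, h0,
    by positivity, hh0, ?_⟩
  intro A hA o θ y δ ho hδ hy hδ2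
  set h : InfinitePlace K → ℂ := fun w => (starRingEnd ℂ) (o w) * lamK K w (vc A y) with hh
  set Cv : InfinitePlace K → ℂ := fun w => Cc (tp K w) (θ.1 w) (θ.2 w) (h w) with hCv
  set z : InfinitePlace K → (Fin (dg K) → ℤ) → ℂ := fun w ζ =>
    (starRingEnd ℂ) (o w) * lamK K w (vc (du A) ζ) with hz
  have hRh : ∀ w, Rl (tp K w) (h w) := fun w => Rl_mul (Rl_conj (ho w).2) (lamK_Rl K _ w)
  have hRz : ∀ w ζ, Rl (tp K w) (z w ζ) := fun w ζ => Rl_mul (Rl_conj (ho w).2) (lamK_Rl K _ w)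
  have hhn : ∀ w, ‖h w‖ ≤ h0 := by
    intro w
    rw [hh]
    beta_reduce
    rw [norm_mul, RCLike.norm_conj, (ho w).1, one_mul]
    exact hy w
  set R : InfinitePlace K → ℝ := fun w => (1 + ‖Cv w‖) / (2 * Real.pi * nr (tp K w)) with hR
  have hnr : ∀ w : InfinitePlace K, (1 : ℝ) ≤ nr (tp K w) := fun w => by
    rw [← mult_nr]; exact mult_one_le w
  have hpi := Real.pi_gt_three
  have hRpos : ∀ w, 0 < R w := fun w => by
    have := hnr w
    have := Real.pi_pos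
    rw [hR]
    positivity
  have hR1 : ∀ w, R w ≤ 1 + ‖Cv w‖ := fun w => by
    have := hnr w
    refine div_le_self (by positivity) ?_
    nlinarith
  obtain ⟨hs1, hs2⟩ := hdec (du A) (GB_du K hA) 0 R hRpos
  have hD : ∀ w ζ, ((1 + ‖Zz (tp K w) (z w ζ)‖ / (1 + ‖Cv w‖)) ^ (dg K + 1))⁻¹ =
      ((1 + ‖lamK K w (0 + vc (du A) ζ)‖ / R w) ^ (dg K + 1))⁻¹ := by
    intro w ζ
    congr 3
    rw [Zz_norm, hz, hR]
    beta_reduce
    rw [norm_mul, RCLike.norm_conj, (ho w).1, one_mul, zero_add]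
    have := hnr w
    have := Real.pi_pos
    field_simp
  have hmain : ∀ ζ, ‖∏ w, I1 (tp K w) (θ.1 w) (θ.2 w) (β (tp K w)) (h w) (z w ζ) -
      ∏ w, ((χ (Cv w / Zz (tp K w) (z w ζ)) : ℂ) *
        I1 (tp K w) (θ.1 w) (θ.2 w) (β (tp K w)) (h w) (z w ζ))‖ ≤
      Fintype.card (InfinitePlace K) * Cl ^ Fintype.card (InfinitePlace K) * δ *
      ∏ w, ((1 + ‖lamK K w (0 + vc (du A) ζ)‖ / R w) ^ (dg K + 1))⁻¹ := by
    intro ζ
    have h1 := prod_sub_prod (Finset.univ : Finset (InfinitePlace K)) (C := Cl) (δ := δ)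
      (by linarith) hδ (fun w => χ (Cv w / Zz (tp K w) (z w ζ)))
      (fun w => ((1 + ‖lamK K w (0 + vc (du A) ζ)‖ / R w) ^ (dg K + 1))⁻¹)
      (fun w => I1 (tp K w) (θ.1 w) (θ.2 w) (β (tp K w)) (h w) (z w ζ))
      (fun w => hχ.nn _) (fun w => hχ.le _) (fun w => by
        have := hRpos w
        positivity) (fun w => by
        beta_reduce
        rw [← hD]
        exact (hloc _ _ _ _ _ (hRh w) (hRz w ζ) (hhn w)).1) (fun w => by
        beta_reduce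
        rw [← hD]
        refine (hloc _ _ _ _ _ (hRh w) (hRz w ζ) (hhn w)).2.trans ?_
        refine mul_le_mul_of_nonneg_right ?_ (by positivity)
        exact mul_le_mul_of_nonneg_left (hδ2 w) (by linarith))
    exact h1.2
  have hsum2 : Summable fun ζ : Fin (dg K) → ℤ =>
      Fintype.card (InfinitePlace K) * Cl ^ Fintype.card (InfinitePlace K) * δ *
      ∏ w, ((1 + ‖lamK K w (0 + vc (du A) ζ)‖ / R w) ^ (dg K + 1))⁻¹ := hs1.mul_left _
  have hsum : Summable fun ζ : Fin (dg K) → ℤ =>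
      ‖∏ w, I1 (tp K w) (θ.1 w) (θ.2 w) (β (tp K w)) (h w) (z w ζ) -
      ∏ w, ((χ (Cv w / Zz (tp K w) (z w ζ)) : ℂ) *
        I1 (tp K w) (θ.1 w) (θ.2 w) (β (tp K w)) (h w) (z w ζ))‖ :=
    Summable.of_nonneg_of_le (fun _ => norm_nonneg _) hmain hsum2
  refine ⟨hsum, ?_⟩
  refine (hsum.tsum_le_tsum hmain hsum2).trans ?_
  rw [tsum_mul_left]
  have hMv : 0 ≤ Mv (du A) := (Mv_pos (GB_du K hA).1).le
  have h2 : ∑' ζ : Fin (dg K) → ℤ, ∏ w, ((1 + ‖lamK K w (0 + vc (du A) ζ)‖ / R w) ^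
      (dg K + 1))⁻¹ ≤ Cd * (1 + Mv (du A) * ∏ w, (1 + ‖Cv w‖) ^ mult w) := by
    refine hs2.trans ?_
    refine mul_le_mul_of_nonneg_left ?_ hCd.le
    have h3 : ∏ w, R w ^ mult w ≤ ∏ w, (1 + ‖Cv w‖) ^ mult w :=
      Finset.prod_le_prod (fun w _ => by have := hRpos w; positivity) fun w _ =>
        pow_le_pow_left₀ (hRpos w).le (hR1 w) _
    have := mul_le_mul_of_nonneg_left h3 hMv
    linarith
  have h4 : 0 ≤ Fintype.card (InfinitePlace K) * Cl ^ Fintype.card (InfinitePlace K) * δ := by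
    positivity
  refine (mul_le_mul_of_nonneg_left h2 h4).trans (le_of_eq ?_)
  rw [hCv]
  ring

/-- the size of the parameters -/
lemma Cv_size {o : InfinitePlace K → ℂ} {θ : Par (InfinitePlace K)}
    {A : Matrix (Fin (dg K)) (Fin (dg K)) ℝ} {y : Fin (dg K) → ℤ} {T lam : ℝ} (hT : 0 < T)
    (hlam : lam = T ^ (2 / 3 + 2 / 3000 / (dg K : ℝ))) (ho : Rot K o) (hθ : TT K θ T)
    (hy : ∀ w, rho K T * T ^ (-(1 / 1000 : ℝ)) ≤ ‖lamK K w (vc A y)‖ ∧
      ‖lamK K w (vc A y)‖ ≤ rho K T) (w : InfinitePlace K) :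
    1 / 2 * lam * T ^ (-(1 / 1000 : ℝ)) ≤
      ‖Cc (tp K w) (θ.1 w) (θ.2 w) ((starRingEnd ℂ) (o w) * lamK K w (vc A y))‖ ∧
    ‖Cc (tp K w) (θ.1 w) (θ.2 w) ((starRingEnd ℂ) (o w) * lamK K w (vc A y))‖ ≤ 16 * lam := by
  have h1 : lam = T * rho K T := by
    unfold rho
    have h0 : T * T ^ (-(1 / 3 : ℝ) + 2 / 3000 / (dg K : ℝ)) =
        T ^ (1 + (-(1 / 3 : ℝ) + 2 / 3000 / (dg K : ℝ))) := by
      rw [Real.rpow_add hT 1, Real.rpow_one]
    rw [h0, hlam]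
    congr 1
    ring
  have hρ : 0 < rho K T := Real.rpow_pos_of_pos hT _
  have ht : 0 < T ^ (-(1 / 1000 : ℝ)) := Real.rpow_pos_of_pos hT _
  rw [Cc_norm, norm_mul, RCLike.norm_conj, (ho w).1, one_mul, h1]
  have h2 := cp_ge (tp K w) (θ.1 w) (θ.2 w)
  have h3 := (hθ w).1
  have h4 := (hθ w).2
  constructor
  · have h5 : 2 * (T / 4) * (rho K T * T ^ (-(1 / 1000 : ℝ))) ≤
        2 * ‖cp (tp K w) (θ.1 w) (θ.2 w)‖ * ‖lamK K w (vc A y)‖ :=
      mul_le_mul (by linarith) (hy w).1 (by positivity) (by positivity)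
    linarith
  · have h5 : 2 * ‖cp (tp K w) (θ.1 w) (θ.2 w)‖ * ‖lamK K w (vc A y)‖ ≤
        2 * (8 * T) * rho K T :=
      mul_le_mul (by linarith) (hy w).2 (norm_nonneg _) (by positivity)
    linarith

/-- the terms near the stationary points -/
lemma near_sum (B : ℝ) {β : Bool → ℂ → ℂ} (hβ : ∀ r, CIg S0 (β r)) {χ : ℂ → ℝ} (hχ : Chi χ) :
    ∃ h0 C K1 : ℝ, 0 < h0 ∧ 0 < C ∧ 1 ≤ K1 ∧ ∀ A, GB K B A → ∀ (o : InfinitePlace K → ℂ)
    (θ : Par (InfinitePlace K)) (v0 : EK K) (y : Fin (dg K) → ℤ) (T lam : ℝ), 0 < T →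
    K1 ≤ T ^ (1 / 1000 : ℝ) → lam = T ^ (2 / 3 + 2 / 3000 / (dg K : ℝ)) → Rot K o → TT K θ T →
    1 ≤ Mv A → Mv A ≤ T ^ ((dg K : ℝ) * (1 / 2 + 1 / 1000)) →
    (∀ w, ‖lamK K w (vc A y)‖ ≤ h0) →
    (∀ w, rho K T * T ^ (-(1 / 1000 : ℝ)) ≤ ‖lamK K w (vc A y)‖ ∧
      ‖lamK K w (vc A y)‖ ≤ rho K T) →
    (Summable fun ζ : Fin (dg K) → ℤ => e ⟪v0, vc (du A) ζ⟫ *
      ∏ w, ((χ (Cc (tp K w) (θ.1 w) (θ.2 w) ((starRingEnd ℂ) (o w) * lamK K w (vc A y)) /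
        Zz (tp K w) ((starRingEnd ℂ) (o w) * lamK K w (vc (du A) ζ))) : ℂ) *
        I1 (tp K w) (θ.1 w) (θ.2 w) (β (tp K w))
        ((starRingEnd ℂ) (o w) * lamK K w (vc A y))
        ((starRingEnd ℂ) (o w) * lamK K w (vc (du A) ζ)))) ∧
    Mv A * ‖∑' ζ : Fin (dg K) → ℤ, e ⟪v0, vc (du A) ζ⟫ *
      ∏ w, ((χ (Cc (tp K w) (θ.1 w) (θ.2 w) ((starRingEnd ℂ) (o w) * lamK K w (vc A y)) /
        Zz (tp K w) ((starRingEnd ℂ) (o w) * lamK K w (vc (du A) ζ))) : ℂ) *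
        I1 (tp K w) (θ.1 w) (θ.2 w) (β (tp K w))
        ((starRingEnd ℂ) (o w) * lamK K w (vc A y))
        ((starRingEnd ℂ) (o w) * lamK K w (vc (du A) ζ)))‖ ≤
      C * T ^ ((dg K : ℝ) / 3 - 2 / 3000) := by
  classical
  choose Ca ha hCa hha hA using fun r => loc_am r (hβ r) hχ
  set C0 : ℝ := Ca true + Ca false with hC0
  have hC0p : 0 < C0 := add_pos (hCa _) (hCa _)
  have hCar : ∀ r, Ca r ≤ C0 := by
    intro r
    have h1 := hCa true
    have h2 := hCa false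
    cases r
    · rw [hC0]; linarith
    · rw [hC0]; linarith
  have hn : dg K ≠ 0 := (inferInstance : NeZero (dg K)).out
  have hn1 : (1 : ℝ) ≤ dg K := by exact_mod_cast Nat.one_le_iff_ne_zero.2 hn
  have hcard : 0 < Fintype.card (InfinitePlace K) := Fintype.card_pos
  have hcard1 : (1 : ℝ) ≤ Fintype.card (InfinitePlace K) := by exact_mod_cast hcard
  have hpi := Real.pi_pos
  have hpi3 := Real.pi_gt_three
  obtain ⟨ho0, Co, K1, hho0, hCo, hK1, hosc⟩ := osc_bound K B (R0 := 2 * dg K)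
    (L0 := Fintype.card (InfinitePlace K)) (by positivity) hcard1
  refine ⟨min ho0 (min (ha true) (ha false)),
    C0 ^ Fintype.card (InfinitePlace K) * Co * √(16 ^ dg K), K1 + 2,
    lt_min hho0 (lt_min (hha _) (hha _)), by positivity, by linarith, ?_⟩
  intro A hGB o θ v0 y T lam hT hKT hlam ho hθ hM1 hM2 hyh hy
  have hMA : 0 < Mv A := by linarith
  have tpos : ∀ a : ℝ, 0 < T ^ a := fun a => Real.rpow_pos_of_pos hT a
  have hT1 : 1 ≤ T := by
    by_contra h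
    push Not at h
    have := Real.rpow_lt_one hT.le h (show (0 : ℝ) < 1 / 1000 by norm_num)
    linarith
  have tle : ∀ a b : ℝ, a ≤ b → T ^ a ≤ T ^ b := fun a b h =>
    Real.rpow_le_rpow_of_exponent_le hT1 h
  have tadd : ∀ a b : ℝ, T ^ a * T ^ b = T ^ (a + b) := fun a b => (Real.rpow_add hT a b).symm
  have tpow : ∀ (a : ℝ) (k : ℕ), (T ^ a) ^ k = T ^ (a * k) := fun a k => by
    rw [Real.rpow_mul hT.le, Real.rpow_natCast]
  have hlam0 : 0 < lam := by rw [hlam]; exact tpos _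
  have hlamge : T ^ (2 / 3 : ℝ) ≤ lam := by
    rw [hlam]
    refine tle _ _ ?_
    have : 0 ≤ 2 / 3000 / (dg K : ℝ) := by positivity
    linarith
  set h : InfinitePlace K → ℂ := fun w => (starRingEnd ℂ) (o w) * lamK K w (vc A y) with hh
  set Cv : InfinitePlace K → ℂ := fun w => Cc (tp K w) (θ.1 w) (θ.2 w) (h w) with hCv
  have hsz : ∀ w, 1 / 2 * lam * T ^ (-(1 / 1000 : ℝ)) ≤ ‖Cv w‖ ∧ ‖Cv w‖ ≤ 16 * lam :=
    fun w => Cv_size K hT hlam ho hθ hy w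
  have hC1 : ∀ w, 1 ≤ ‖Cv w‖ := by
    intro w
    refine le_trans ?_ (hsz w).1
    have h1 : T ^ (2 / 3 - 1 / 1000 : ℝ) ≤ lam * T ^ (-(1 / 1000 : ℝ)) := by
      have := mul_le_mul_of_nonneg_right hlamge (tpos (-(1 / 1000 : ℝ))).le
      rwa [tadd, ← sub_eq_add_neg] at this
    have h2 := tle (1 / 1000) (2 / 3 - 1 / 1000) (by norm_num)
    linarith
  have hCpos : ∀ w, 0 < ‖Cv w‖ := fun w => lt_of_lt_of_le one_pos (hC1 w)
  have hCne : ∀ w, Cv w ≠ 0 := fun w => norm_pos_iff.1 (hCpos w)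
  have hRh : ∀ w, Rl (tp K w) (h w) := fun w => Rl_mul (Rl_conj (ho w).2) (lamK_Rl K _ w)
  have hhne : ∀ w, h w ≠ 0 := by
    intro w h0
    apply hCne w
    rw [hCv]
    beta_reduce
    rw [h0]
    unfold Cc
    ring
  have hhn : ∀ w, ‖h w‖ = ‖lamK K w (vc A y)‖ := by
    intro w
    rw [hh]
    beta_reduce
    rw [norm_mul, RCLike.norm_conj, (ho w).1, one_mul]
  have hRC : ∀ w, Rl (tp K w) (Cv w) := fun w => Cc_Rl _ _ _ (hRh w)
  -- the lattice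
  set s : InfinitePlace K → ℝ := fun w => -Real.log ‖Cv w‖ with hs
  set Bm := Ds K s * du A with hBm
  have hGBm : GB K B Bm := GB_Ds K (GB_du K hGB) s
  have hexp : ∀ w, Real.exp (s w) = ‖Cv w‖⁻¹ := by
    intro w
    rw [hs]
    beta_reduce
    rw [Real.exp_neg, Real.exp_log (hCpos w)]
  have hlamB : ∀ w ζ, lamK K w (vc (du A) ζ) = (‖Cv w‖ : ℂ) * lamK K w (vc Bm ζ) := by
    intro w ζ
    rw [hBm, lam_Ds, hexp, ← mul_assoc]
    push_cast
    rw [mul_inv_cancel₀ (by exact_mod_cast (hCpos w).ne'), one_mul]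
  have hMvB : Mv A * Mv Bm = ∏ w, ‖Cv w‖ ^ mult w := by
    rw [hBm, Mv_Ds, Mv_du]
    have h1 : Real.exp (-(∑ w, (mult w : ℝ) * s w)) = ∏ w, ‖Cv w‖ ^ mult w := by
      rw [← Finset.sum_neg_distrib, Real.exp_sum]
      refine Finset.prod_congr rfl fun w _ => ?_
      rw [hs]
      beta_reduce
      rw [mul_neg, neg_neg, Real.exp_nat_mul, Real.exp_log (hCpos w)]
    rw [h1]
    field_simp
  have hMB : 0 < Mv Bm := Mv_pos hGBm.1
  -- the size of the lattice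
  have hup : Mv Bm ≤ (16 * lam) ^ dg K := by
    have h1 : Mv Bm ≤ Mv A * Mv Bm := le_mul_of_one_le_left hMB.le hM1
    refine h1.trans ?_
    rw [hMvB, ← prod_pow_mult K (16 * lam)]
    exact Finset.prod_le_prod (fun w _ => by have := hCpos w; positivity) fun w _ =>
      pow_le_pow_left₀ (hCpos w).le (hsz w).2 _
  have hlow : (1 / 2 * T ^ (1 / 6 - 2 / 1000 : ℝ)) ^ dg K ≤ Mv Bm := by
    have h1 : (1 / 2 * lam * T ^ (-(1 / 1000 : ℝ))) ^ dg K ≤ Mv A * Mv Bm := by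
      rw [hMvB, ← prod_pow_mult K (1 / 2 * lam * T ^ (-(1 / 1000 : ℝ)))]
      have := tpos (-(1 / 1000 : ℝ))
      exact Finset.prod_le_prod (fun w _ => by positivity) fun w _ =>
        pow_le_pow_left₀ (by positivity) (hsz w).1 _
    have h2 : Mv A ≤ (T ^ (1 / 2 + 1 / 1000 : ℝ)) ^ dg K := by
      rw [tpow, mul_comm]
      exact hM2
    have h3 : (1 / 2 * T ^ (1 / 6 - 2 / 1000 : ℝ)) ^ dg K * (T ^ (1 / 2 + 1 / 1000 : ℝ)) ^ dg K ≤
        (1 / 2 * lam * T ^ (-(1 / 1000 : ℝ))) ^ dg K := by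
      rw [← mul_pow]
      refine pow_le_pow_left₀ (by have := tpos (1 / 6 - 2 / 1000 : ℝ); have := tpos (1 / 2 + 1 / 1000 : ℝ); positivity) ?_ _
      rw [mul_assoc, tadd, mul_assoc]
      refine mul_le_mul_of_nonneg_left ?_ (by norm_num)
      have h4 := mul_le_mul_of_nonneg_right hlamge (tpos (-(1 / 1000 : ℝ))).le
      rw [tadd] at h4
      refine le_trans (tle _ _ (by norm_num)) h4
    have h5 : (1 / 2 * T ^ (1 / 6 - 2 / 1000 : ℝ)) ^ dg K * Mv A ≤ Mv A * Mv Bm := by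
      refine le_trans ?_ (h3.trans h1)
      exact mul_le_mul_of_nonneg_left h2 (by have := tpos (1 / 6 - 2 / 1000 : ℝ); positivity)
    rw [mul_comm (Mv A)] at h5
    exact le_of_mul_le_mul_right h5 hMA
  -- the amplitude
  set κ : InfinitePlace K → ℂ := fun w => ((2 * Real.pi * mult w : ℝ) : ℂ) * o w *
    (‖Cv w‖ : ℂ) * (Cv w)⁻¹ with hκ
  have hκR : ∀ w, Rl (tp K w) (κ w) := fun w =>
    Rl_mul (Rl_mul (Rl_mul (Rl_real _ _) (ho w).2) (Rl_real _ _)) (Rl_inv (hRC w))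
  have hκn : ∀ w, ‖κ w‖ = 2 * Real.pi * mult w := by
    intro w
    rw [hκ]
    beta_reduce
    rw [norm_mul, norm_mul, norm_mul, norm_inv, (ho w).1, Complex.norm_real, Complex.norm_real,
      norm_norm, Real.norm_of_nonneg (by positivity), mul_one, mul_assoc,
      mul_inv_cancel₀ (hCpos w).ne', mul_one]
  have hZY : ∀ w (x : EK K), Zz (tp K w) ((‖Cv w‖ : ℂ) * ((starRingEnd ℂ) (o w) *
      lamK K w x)) / Cv w = YY κ w x := by
    intro w x
    unfold Zz YY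
    rw [hκ, map_mul, map_mul, Complex.conj_conj, Complex.conj_ofReal, ← mult_nr]
    beta_reduce
    push_cast
    rw [div_eq_mul_inv]
    ring
  set F : InfinitePlace K → EK K → ℂ := fun w x => (C0 : ℂ)⁻¹ *
    ((√(‖Cv w‖ ^ nr (tp K w)) : ℂ) * Am (tp K w) (θ.1 w) (θ.2 w) (β (tp K w)) χ (h w)
      ((‖Cv w‖ : ℂ) * ((starRingEnd ℂ) (o w) * lamK K w x))) with hF
  have hle : ∀ w, ‖h w‖ ≤ ha (tp K w) := by
    intro w
    rw [hhn]
    refine (hyh w).trans ((min_le_right _ _).trans ?_)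
    cases tp K w
    · exact min_le_right _ _
    · exact min_le_left _ _
  have hRx : ∀ w (x : EK K), Rl (tp K w) ((starRingEnd ℂ) (o w) * lamK K w x) := fun w x =>
    Rl_mul (Rl_conj (ho w).2) (lamK_Rl K _ w)
  have hBL : ∀ w, BL 1 (F w) := by
    intro w
    obtain ⟨g1, g2⟩ := hA (tp K w) (θ.1 w) (θ.2 w) (h w) (hRh w) (hhne w) (hle w) (hC1 w)
    refine ⟨fun x => ?_, fun x x' => ?_⟩
    · rw [hF]
      beta_reduce
      rw [norm_mul, norm_inv, Complex.norm_real, Real.norm_of_nonneg hC0p.le,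
        inv_mul_le_iff₀ hC0p, mul_one]
      exact (g1 _ (hRx w x)).trans (hCar _)
    · rw [hF]
      beta_reduce
      rw [← mul_sub, norm_mul, norm_inv, Complex.norm_real, Real.norm_of_nonneg hC0p.le,
        inv_mul_le_iff₀ hC0p, one_mul]
      refine (g2 _ _ (hRx w x) (hRx w x')).trans ?_
      rw [← mul_sub, norm_mul, RCLike.norm_conj, (ho w).1, one_mul, ← map_sub]
      exact mul_le_mul (hCar _) (lamK_norm_le K _ w) (norm_nonneg _) hC0p.le
  set f : EK K → ℂ := fun x => ∏ w, F w x with hf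
  have hfBL : BL (Fintype.card (InfinitePlace K)) f := by
    have := BL_prod (Finset.univ : Finset (InfinitePlace K)) zero_le_one hBL
    rw [Finset.card_univ, mul_one] at this
    exact this
  have hfQ : ∀ x, f x ≠ 0 → ∀ w, 1 / YY κ w x ∈ Q0 := by
    intro x hx w
    have h1 : F w x ≠ 0 := Finset.prod_ne_zero_iff.1 hx w (Finset.mem_univ w)
    rw [← hZY, one_div_div]
    refine Q0_of_chi hχ fun h0 => h1 ?_
    rw [hF]
    beta_reduce
    unfold Am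
    rw [show Cc (tp K w) (θ.1 w) (θ.2 w) (h w) = Cv w from rfl, h0]
    simp
  have hfR : ∀ x, 2 * (dg K : ℝ) < ‖x‖ → f x = 0 := by
    intro x hx
    by_contra h0
    have h1 := hfQ x h0
    have h2 : ∀ w, ‖lamK K w x‖ ≤ 2 := by
      intro w
      have h3 := (h1 w).1
      have hY0 : 0 < ‖YY κ w x‖ := by
        rcases (norm_nonneg (YY κ w x)).lt_or_eq with h4 | h4
        · exact h4
        · rw [norm_div, ← h4] at h3
          simp at h3
          linarith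
      rw [norm_div, norm_one, lt_div_iff₀ hY0, YY_norm (hκn w)] at h3
      have h4 := mult_one_le w
      have h5 := norm_nonneg (lamK K w x)
      by_contra h6
      push Not at h6
      have h7 : 6 * 2 < 2 * Real.pi * mult w * ‖lamK K w x‖ := by
        have h8 : 6 ≤ 2 * Real.pi * mult w := by nlinarith
        calc (6 : ℝ) * 2 < 6 * ‖lamK K w x‖ := by linarith
          _ ≤ _ := mul_le_mul_of_nonneg_right h8 h5
      linarith
    have h3 := norm_le_lamK K h2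
    have h4 : ‖x‖ ^ 2 ≤ (2 * (dg K : ℝ)) ^ 2 := by
      refine h3.trans ?_
      nlinarith
    have h5 := abs_le_of_sq_le_sq h4 (by positivity)
    have h6 := le_abs_self ‖x‖
    linarith [(le_abs_self ‖x‖).trans h5]
  -- the identity
  set ψ : (Fin (dg K) → ℤ) → ℂ := fun ζ => e ⟪v0, vc (du A) ζ⟫ with hψ
  have hψ1 : ∀ ζ, ‖ψ ζ‖ = 1 := fun ζ => e_norm _
  have hψ2 : ∀ ζ ζ', ψ (ζ + ζ') = ψ ζ * ψ ζ' := by
    intro ζ ζ'
    rw [hψ]
    beta_reduce
    rw [vc_add14, inner_add_right, e_add]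
  set P : EK K → ℝ := PF Cv κ (fun w => TH (h w)) with hP
  set Kc : ℂ := ∏ w : InfinitePlace K, ((C0 : ℂ) * ((√(‖Cv w‖ ^ nr (tp K w)) : ℂ))⁻¹) with hKc
  have hsq : ∀ w, 0 < √(‖Cv w‖ ^ nr (tp K w)) := fun w =>
    Real.sqrt_pos.2 (pow_pos (hCpos w) _)
  have hid : ∀ ζ, ∏ w, ((χ (Cv w / Zz (tp K w) ((starRingEnd ℂ) (o w) *
      lamK K w (vc (du A) ζ))) : ℂ) * I1 (tp K w) (θ.1 w) (θ.2 w) (β (tp K w)) (h w)
        ((starRingEnd ℂ) (o w) * lamK K w (vc (du A) ζ))) = Kc * Gt Bm f P ζ := by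
    intro ζ
    unfold Gt
    have h1 : e (P (vc Bm ζ)) = ∏ w, Complex.exp (Complex.I *
        ((Cv w * TH (h w) (YY κ w (vc Bm ζ))).re : ℝ)) := by
      rw [← Complex.exp_sum]
      unfold e
      congr 1
      rw [← Finset.mul_sum, hP]
      unfold PF
      have hpi' : (Real.pi : ℂ) ≠ 0 := by exact_mod_cast hpi.ne'
      push_cast
      field_simp
    rw [h1, hf, hKc, ← Finset.prod_mul_distrib, ← Finset.prod_mul_distrib]
    refine Finset.prod_congr rfl fun w _ => ?_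
    have h2 : (starRingEnd ℂ) (o w) * lamK K w (vc (du A) ζ) = (‖Cv w‖ : ℂ) *
        ((starRingEnd ℂ) (o w) * lamK K w (vc Bm ζ)) := by
      rw [hlamB]; ring
    rw [h2]
    have h3 := chiI_eq (tp K w) (θ.1 w) (θ.2 w) (β (tp K w)) χ (h w)
      ((‖Cv w‖ : ℂ) * ((starRingEnd ℂ) (o w) * lamK K w (vc Bm ζ)))
    rw [show Cc (tp K w) (θ.1 w) (θ.2 w) (h w) = Cv w from rfl, hZY] at h3
    rw [h3, hF]
    beta_reduce
    have h4 : (C0 : ℂ) ≠ 0 := by exact_mod_cast hC0p.ne'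
    have h5 : (√(‖Cv w‖ ^ nr (tp K w)) : ℂ) ≠ 0 := by exact_mod_cast (hsq w).ne'
    field_simp
  have hfun : (fun ζ : Fin (dg K) → ℤ => e ⟪v0, vc (du A) ζ⟫ *
      ∏ w, ((χ (Cv w / Zz (tp K w) ((starRingEnd ℂ) (o w) *
      lamK K w (vc (du A) ζ))) : ℂ) * I1 (tp K w) (θ.1 w) (θ.2 w) (β (tp K w)) (h w)
        ((starRingEnd ℂ) (o w) * lamK K w (vc (du A) ζ)))) =
      fun ζ => Kc * (ψ ζ * Gt Bm f P ζ) := by
    funext ζ
    rw [hid ζ, hψ]
    ring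
  have hfin := cnt_fin K hGBm.1 0 (2 * dg K)
  have hsummable : Summable fun ζ => Kc * (ψ ζ * Gt Bm f P ζ) := by
    refine summable_of_ne_finset_zero (s := hfin.toFinset) fun ζ hζ => ?_
    by_contra h0
    apply hζ
    rw [Set.Finite.mem_toFinset, Set.mem_ofPred_eq]
    intro w
    rw [zero_add]
    have h1 : f (vc Bm ζ) ≠ 0 := by
      intro h2
      apply h0
      unfold Gt
      rw [h2]
      ring
    have h2 : ‖vc Bm ζ‖ ≤ 2 * dg K := by
      by_contra h3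
      push Not at h3
      exact h1 (hfR _ h3)
    exact (lamK_norm_le K _ w).trans h2
  rw [hfun]
  refine ⟨hsummable, ?_⟩
  rw [tsum_mul_left, norm_mul]
  have hmain := hosc Bm hGBm ψ f Cv κ h T lam hT (by linarith) hlam hlow hup hψ1 hψ2 hfBL hfR hfQ
    (fun w => ⟨hRh w, hhne w, by rw [hhn]; exact (hyh w).trans (min_le_left _ _)⟩)
    (fun w => ⟨hκR w, hκn w⟩) (fun w => ⟨hRC w, hsz w⟩)
  have hKn : ‖Kc‖ = C0 ^ Fintype.card (InfinitePlace K) *
      ∏ w, (√(‖Cv w‖ ^ mult w))⁻¹ := by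
    rw [hKc, norm_prod]
    have h1 : ∀ w : InfinitePlace K, ‖(C0 : ℂ) * ((√(‖Cv w‖ ^ nr (tp K w)) : ℂ))⁻¹‖ =
        C0 * (√(‖Cv w‖ ^ mult w))⁻¹ := by
      intro w
      rw [norm_mul, norm_inv, Complex.norm_real, Complex.norm_real,
        Real.norm_of_nonneg hC0p.le, Real.norm_of_nonneg (hsq w).le, mult_nr]
    rw [Finset.prod_congr rfl fun w _ => h1 w, Finset.prod_mul_distrib, Finset.prod_const,
      Finset.card_univ]
  have hprodsq : (∏ w, (√(‖Cv w‖ ^ mult w))⁻¹) * (Mv A * Mv Bm) ≤ √((16 * lam) ^ dg K) := by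
    rw [hMvB, ← Finset.prod_mul_distrib, ← prod_pow_mult K (16 * lam), Real.sqrt_prod _ fun w _ => by positivity]
    refine Finset.prod_le_prod (fun w _ => by have := hCpos w; positivity) fun w _ => ?_
    have h1 : (√(‖Cv w‖ ^ mult w))⁻¹ * ‖Cv w‖ ^ mult w = √(‖Cv w‖ ^ mult w) := by
      have h2 : 0 < ‖Cv w‖ ^ mult w := pow_pos (hCpos w) _
      rw [inv_mul_eq_div, Real.div_sqrt]
    rw [h1]
    exact Real.sqrt_le_sqrt (pow_le_pow_left₀ (hCpos w).le (hsz w).2 _)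
  have hlamsq : √((16 * lam) ^ dg K) * T ^ (-(1 / 1000 : ℝ)) =
      √(16 ^ dg K) * T ^ ((dg K : ℝ) / 3 - 2 / 3000) := by
    rw [mul_pow, Real.sqrt_mul (by positivity), mul_assoc]
    congr 1
    rw [hlam, tpow, Real.sqrt_eq_rpow, ← Real.rpow_mul hT.le, tadd]
    congr 1
    field_simp
    ring
  calc Mv A * (‖Kc‖ * ‖∑' ζ, ψ ζ * Gt Bm f P ζ‖) ≤
      Mv A * (‖Kc‖ * (Co * Mv Bm * T ^ (-(1 / 1000 : ℝ)))) := by
        refine mul_le_mul_of_nonneg_left ?_ hMA.le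
        exact mul_le_mul_of_nonneg_left hmain (norm_nonneg _)
    _ = C0 ^ Fintype.card (InfinitePlace K) * Co * (((∏ w, (√(‖Cv w‖ ^ mult w))⁻¹) *
        (Mv A * Mv Bm)) * T ^ (-(1 / 1000 : ℝ))) := by
        rw [hKn]; ring
    _ ≤ C0 ^ Fintype.card (InfinitePlace K) * Co * (√((16 * lam) ^ dg K) *
        T ^ (-(1 / 1000 : ℝ))) := by
        refine mul_le_mul_of_nonneg_left ?_ (by positivity)
        exact mul_le_mul_of_nonneg_right hprodsq (tpos _).le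
    _ = _ := by rw [hlamsq]; ring

end Pool.Agent.T2H29.TA
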