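import Pool.Agent.T2H29.TA.Base

/-!
# The phase function
-/

set_option autoImplicit false
set_option linter.unusedSectionVars false

namespace Pool.Agent.T2H29.TA

open Metric

namespace A7

/-- iterated differences -/
noncomputable def Dl : List ℂ → (ℂ → ℂ) → ℂ → ℂ
  | [], f => f
  | a :: l, f => Dl l (Df a f)

theorem fd (l : List ℂ) : ∀ (g : ℕ → ℂ → ℂ) (y0 : ℂ) (R : ℝ) (w : ℂ) (ε : ℝ),
    (∀ j < l.length, ∀ z ∈ ball y0 R, HasDerivAt (g j) (g (j + 1) z) z) →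
    (∀ z ∈ ball y0 R, ‖g l.length z - w‖ ≤ ε) →
    ∀ z, ‖z - y0‖ + (l.map fun a => ‖a‖).sum < R →
      ‖Dl l (g 0) z - l.prod * w‖ ≤ ε * (l.map fun a => ‖a‖).prod := by
  induction l with
  | nil =>
    intro g y0 R w ε _ h2 z hz
    simp only [Dl, List.prod_nil, one_mul, List.map_nil, mul_one]
    apply h2
    simpa [dist_eq_norm] using hz
  | cons a l ih =>
    intro g y0 R w ε h1 h2 z hz
    have hb : ∀ z ∈ ball y0 (R - ‖a‖), z ∈ ball y0 R ∧ z + a ∈ ball y0 R := by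
      intro z hz
      rw [mem_ball, dist_eq_norm] at hz
      constructor
      · rw [mem_ball, dist_eq_norm]
        linarith [norm_nonneg a]
      · rw [mem_ball, dist_eq_norm]
        have : z + a - y0 = (z - y0) + a := by ring
        rw [this]
        linarith [norm_add_le (z - y0) a]
    have key := ih (fun j => Df a (g j)) y0 (R - ‖a‖) (a * w) (ε * ‖a‖) (by
      intro j hj z hz
      obtain ⟨hz1, hz2⟩ := hb z hz
      have e1 := h1 j (by simp; omega) z hz1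
      have e2 := (h1 j (by simp; omega) (z + a) hz2).comp_add_const z a
      exact e2.sub e1) (by
      intro z hz
      obtain ⟨hz1, hz2⟩ := hb z hz
      have e1 : ∀ ζ ∈ ball y0 R, HasDerivWithinAt (fun ζ => g l.length ζ - ζ * w)
          (g (l.length + 1) ζ - w) (ball y0 R) ζ := by
        intro ζ hζ
        have e0 : HasDerivAt (fun ζ => g l.length ζ - ζ * w) (g (l.length + 1) ζ - 1 * w) ζ :=
          (h1 l.length (by simp) ζ hζ).sub ((hasDerivAt_id ζ).mul_const w)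
        rw [one_mul] at e0
        exact e0.hasDerivWithinAt
      have e2 := Convex.norm_image_sub_le_of_norm_hasDerivWithin_le e1
        (fun ζ hζ => by simpa using h2 ζ hζ) (convex_ball y0 R) hz1 hz2
      have e3 : (g l.length (z + a) - (z + a) * w) - (g l.length z - z * w) =
          Df a (g l.length) z - a * w := by
        simp only [Df]; ring
      rw [e3, add_sub_cancel_left] at e2
      exact e2) z (by
      simp only [List.map_cons, List.sum_cons] at hz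
      linarith)
    have e4 : l.prod * (a * w) = (a :: l).prod * w := by
      rw [List.prod_cons]; ring
    have e5 : ε * ‖a‖ * (l.map fun a => ‖a‖).prod = ε * ((a :: l).map fun a => ‖a‖).prod := by
      rw [List.map_cons, List.prod_cons]; ring
    rw [e4, e5] at key
    exact key

theorem ce (l : List ℂ) (f : ℂ → ℂ) (y0 : ℂ) (r M : ℝ) (hr : 0 < r)
    (hf : DifferentiableOn ℂ f (ball y0 r)) (hM : ∀ z ∈ ball y0 r, ‖f z‖ ≤ M) (z : ℂ)
    (hz : ‖z - y0‖ + (l.map fun a => ‖a‖).sum < r / 2) :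
    ‖Dl l f z‖ ≤ (l.length.factorial * M / (r / 4) ^ l.length) * (l.map fun a => ‖a‖).prod := by
  have hA : AnalyticOnNhd ℂ f (ball y0 r) := hf.analyticOnNhd isOpen_ball
  have h := fd l (fun j => iteratedDeriv j f) y0 (r / 2) 0
    (l.length.factorial * M / (r / 4) ^ l.length) (by
      intro j _ z hz
      have hz' : z ∈ ball y0 r := ball_subset_ball (by linarith) hz
      have h1 := (hA.iterated_deriv j z hz').differentiableAt.hasDerivAt
      rw [← iteratedDeriv_eq_iterate] at h1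
      rw [iteratedDeriv_succ]
      exact h1) (by
      intro z hz
      rw [sub_zero]
      rw [mem_ball, dist_eq_norm] at hz
      apply Complex.norm_iteratedDeriv_le_of_forall_mem_sphere_norm_le l.length (by positivity)
      · apply DifferentiableOn.diffContOnCl
        apply hf.mono
        refine closure_ball_subset_closedBall.trans ?_
        intro w hw
        rw [mem_closedBall, dist_eq_norm] at hw
        rw [mem_ball, dist_eq_norm]
        have : w - y0 = (w - z) + (z - y0) := by ring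
        rw [this]
        linarith [norm_add_le (w - z) (z - y0)]
      · intro w hw
        apply hM
        rw [mem_sphere, dist_eq_norm] at hw
        rw [mem_ball, dist_eq_norm]
        have : w - y0 = (w - z) + (z - y0) := by ring
        rw [this]
        linarith [norm_add_le (w - z) (z - y0)]) z hz
  simpa using h

theorem dl_neg (l : List ℂ) : ∀ (f : ℂ → ℂ) (z : ℂ), Dl l (fun z => -f z) z = -Dl l f z := by
  induction l with
  | nil => intro f z; rfl
  | cons a l ih =>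
    intro f z
    have : Df a (fun z => -f z) = fun z => -Df a f z := by
      funext z; simp only [Df]; ring
    simp only [Dl]
    rw [this, ih]

theorem dl_sub (l : List ℂ) : ∀ (f g : ℂ → ℂ) (z : ℂ),
    Dl l (fun z => f z - g z) z = Dl l f z - Dl l g z := by
  induction l with
  | nil => intro f g z; rfl
  | cons a l ih =>
    intro f g z
    have : Df a (fun z => f z - g z) = fun z => Df a f z - Df a g z := by
      funext z; simp only [Df]; ring
    simp only [Dl]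
    rw [this, ih]

theorem dl_deriv (l : List ℂ) : ∀ (f f' : ℂ → ℂ) (y0 : ℂ) (R : ℝ),
    (∀ z ∈ ball y0 R, HasDerivAt f (f' z) z) →
    ∀ z, ‖z - y0‖ + (l.map fun a => ‖a‖).sum < R → HasDerivAt (Dl l f) (Dl l f' z) z := by
  induction l with
  | nil =>
    intro f f' y0 R h z hz
    apply h
    simpa [dist_eq_norm] using hz
  | cons a l ih =>
    intro f f' y0 R h z hz
    simp only [List.map_cons, List.sum_cons] at hz
    apply ih (Df a f) (Df a f') y0 (R - ‖a‖) _ z (by linarith)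
    intro z hz
    rw [mem_ball, dist_eq_norm] at hz
    have h1 := h z (by rw [mem_ball, dist_eq_norm]; linarith [norm_nonneg a])
    have h2 := (h (z + a) (by
      rw [mem_ball, dist_eq_norm]
      have : z + a - y0 = (z - y0) + a := by ring
      rw [this]
      linarith [norm_add_le (z - y0) a])).comp_add_const z a
    exact h2.sub h1

/-! ### the square root -/

theorem re_sqrt {q s : ℂ} (h : s ^ 2 = q) : ‖q‖ + q.re = 2 * s.re ^ 2 := by
  have h1 : ‖q‖ = s.re ^ 2 + s.im ^ 2 := by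
    rw [← h, norm_pow, ← Complex.normSq_eq_norm_sq, Complex.normSq_apply]; ring
  have h2 : q.re = s.re ^ 2 - s.im ^ 2 := by
    rw [← h, pow_two, Complex.mul_re]; ring
  rw [h1, h2]; ring

theorem cpow_sq (q : ℂ) : (q ^ (1 / 2 : ℂ)) ^ 2 = q := by
  have h := Complex.cpow_nat_inv_pow q (n := 2) two_ne_zero
  have e : (1 / 2 : ℂ) = ((2 : ℕ) : ℂ)⁻¹ := by norm_num
  rw [e]
  exact h

theorem cpow_re {q : ℂ} (hq : q ∈ Complex.slitPlane) : 0 < (q ^ (1 / 2 : ℂ)).re := by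
  have h0 : q ≠ 0 := Complex.slitPlane_ne_zero hq
  rw [Complex.cpow_def_of_ne_zero h0, Complex.exp_re]
  apply mul_pos (Real.exp_pos _)
  apply Real.cos_pos_of_mem_Ioo
  have h1 : (Complex.log q * (1 / 2)).im = q.arg / 2 := by
    have : (1 / 2 : ℂ) = ((1 / 2 : ℝ) : ℂ) := by push_cast; rfl
    rw [this, Complex.im_mul_ofReal, Complex.log_im]; ring
  rw [h1]
  have h2 := Complex.neg_pi_lt_arg q
  have h3 := Complex.arg_le_pi q
  have h4 : q.arg ≠ Real.pi := by
    rw [Complex.mem_slitPlane_iff_arg] at hq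
    exact hq.1
  have h5 : q.arg < Real.pi := lt_of_le_of_ne h3 h4
  constructor <;> linarith

/-- the region -/
def Om : Set ℂ := {y | 1 / 40 < ‖y‖ ∧ ‖y‖ < 40 ∧ 0 < y.re}

theorem slit {h y : ℂ} (hh : ‖h‖ ≤ 1 / 10 ^ 9) (hy : y ∈ Om) :
    h ^ 2 + 1 / y ∈ Complex.slitPlane ∧ ‖h ^ 2 + 1 / y‖ ≤ 41 ∧ 1 / 100 ≤ ‖h ^ 2 + 1 / y‖ := by
  obtain ⟨h1, h2, h3⟩ := hy
  have hy0 : 0 < ‖y‖ := by linarith
  have e1 : ‖1 / y‖ = 1 / ‖y‖ := by rw [norm_div, norm_one]
  have e2 : 1 / 40 < ‖1 / y‖ := by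
    rw [e1, lt_div_iff₀ hy0]; linarith
  have e3 : ‖1 / y‖ < 40 := by
    rw [e1, div_lt_iff₀ hy0]; linarith
  have e4 : ‖h ^ 2‖ ≤ 1 / 1000 := by
    rw [norm_pow]
    calc ‖h‖ ^ 2 ≤ (1 / 10 ^ 9) ^ 2 := by gcongr
      _ ≤ 1 / 1000 := by norm_num
  have e5 : 0 < (1 / y).re := by
    rw [one_div, Complex.inv_re]
    have : 0 < Complex.normSq y := by
      rw [Complex.normSq_eq_norm_sq]; positivity
    positivity
  refine ⟨?_, ?_, ?_⟩
  · rw [Complex.mem_slitPlane_iff]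
    by_contra hcon
    push Not at hcon
    obtain ⟨c1, c2⟩ := hcon
    rw [Complex.add_re] at c1
    rw [Complex.add_im] at c2
    have f1 : |(h ^ 2).re| ≤ 1 / 1000 := (Complex.abs_re_le_norm _).trans e4
    have f2 : |(h ^ 2).im| ≤ 1 / 1000 := (Complex.abs_im_le_norm _).trans e4
    have f3 : ‖1 / y‖ ≤ |(1 / y).re| + |(1 / y).im| := Complex.norm_le_abs_re_add_abs_im _
    have f4 : |(1 / y).re| ≤ 1 / 1000 := by
      rw [abs_of_pos e5]
      have := (abs_le.1 f1).1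
      linarith
    have f5 : |(1 / y).im| ≤ 1 / 1000 := by
      have : (1 / y).im = -(h ^ 2).im := by linarith
      rw [this, abs_neg]; exact f2
    linarith
  · have := norm_add_le (h ^ 2) (1 / y)
    linarith
  · have : ‖1 / y‖ ≤ ‖h ^ 2 + 1 / y‖ + ‖h ^ 2‖ := by
      have := norm_sub_le (h ^ 2 + 1 / y) (h ^ 2)
      rwa [add_sub_cancel_left] at this
    linarith

theorem sH_sq (h y : ℂ) : sH h y ^ 2 = h ^ 2 + 1 / y := cpow_sq _

theorem sH_re {h y : ℂ} (hh : ‖h‖ ≤ 1 / 10 ^ 9) (hy : y ∈ Om) : 0 < (sH h y).re :=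
  cpow_re (slit hh hy).1

theorem sH_norm {h y : ℂ} (hh : ‖h‖ ≤ 1 / 10 ^ 9) (hy : y ∈ Om) : ‖sH h y‖ ≤ 7 := by
  have h1 : ‖sH h y‖ ^ 2 ≤ 41 := by
    rw [← norm_pow, sH_sq]; exact (slit hh hy).2.1
  nlinarith [norm_nonneg (sH h y)]

theorem sH_norm' {h y : ℂ} (hh : ‖h‖ ≤ 1 / 10 ^ 9) (hy : y ∈ Om) : 1 / 10 ≤ ‖sH h y‖ := by
  have h1 : 1 / 100 ≤ ‖sH h y‖ ^ 2 := by
    rw [← norm_pow, sH_sq]; exact (slit hh hy).2.2
  nlinarith [norm_nonneg (sH h y)]

theorem sH_diff {h y : ℂ} (hh : ‖h‖ ≤ 1 / 10 ^ 9) (hy : y ∈ Om) :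
    DifferentiableAt ℂ (sH h) y := by
  have hy0 : y ≠ 0 := by
    intro h0
    have := hy.1
    rw [h0, norm_zero] at this
    linarith
  have h1 : DifferentiableAt ℂ (fun y : ℂ => h ^ 2 + 1 / y) y := by
    apply DifferentiableAt.add (differentiableAt_const _)
    exact (differentiableAt_const _).div differentiableAt_id hy0
  exact h1.cpow_const (slit hh hy).1

theorem ball_Om {y : ℂ} (hy : 1 / y ∈ Q0) : ball y (1 / 40) ⊆ Om := by
  obtain ⟨h1, h2, h3⟩ := hy
  have hy0 : y ≠ 0 := by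
    intro h0
    rw [h0, div_zero, norm_zero] at h1
    linarith
  have hyp : 0 < ‖y‖ := norm_pos_iff.2 hy0
  rw [norm_div, norm_one] at h1 h2 h3
  have e1 : ‖y‖ < 10 := by
    rw [lt_div_iff₀ hyp] at h1; linarith
  have e2 : 1 / 10 < ‖y‖ := by
    rw [div_lt_iff₀ hyp] at h2; linarith
  have e3 : 1 / 2 * ‖y‖ < y.re := by
    have h30 : (1 / y).re = y.re / Complex.normSq y := by rw [one_div, Complex.inv_re]
    rw [h30, Complex.normSq_eq_norm_sq, lt_div_iff₀ (by positivity)] at h3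
    have e0 : 1 / 2 * (1 / ‖y‖) * ‖y‖ ^ 2 = 1 / 2 * ‖y‖ := by field_simp
    rw [e0] at h3
    exact h3
  intro z hz
  rw [mem_ball, dist_eq_norm] at hz
  have f1 : |(z - y).re| ≤ ‖z - y‖ := Complex.abs_re_le_norm _
  rw [Complex.sub_re] at f1
  have f2 := (abs_le.1 f1).1
  have f3 : 1 / 40 < z.re := by linarith
  refine ⟨?_, ?_, by linarith⟩
  · exact f3.trans_le ((le_abs_self _).trans (Complex.abs_re_le_norm z))
  · have : z = (z - y) + y := by ring
    rw [this]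
    linarith [norm_add_le (z - y) y]

theorem sH_close {h y : ℂ} (hh : ‖h‖ ≤ 1 / 10 ^ 9) (hy : y ∈ Om) :
    ‖sH h y - sH 0 y‖ ≤ 9 / 10 ^ 18 := by
  have h00 : ‖(0 : ℂ)‖ ≤ 1 / 10 ^ 9 := by rw [norm_zero]; positivity
  have h1 := sH_re hh hy
  have h2 := sH_re h00 hy
  have h3 : 1 / 9 ≤ (sH 0 y).re := by
    have := re_sqrt (sH_sq 0 y)
    have e1 : 1 / 40 < ‖(0 : ℂ) ^ 2 + 1 / y‖ := by
      have hy0 : 0 < ‖y‖ := by linarith [hy.1]
      rw [zero_pow two_ne_zero, zero_add, norm_div, norm_one, lt_div_iff₀ hy0]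
      linarith [hy.2.1]
    have e2 : 0 < ((0 : ℂ) ^ 2 + 1 / y).re := by
      rw [zero_pow two_ne_zero, zero_add, one_div, Complex.inv_re]
      have : 0 < Complex.normSq y := by
        rw [Complex.normSq_eq_norm_sq]
        have hy0 : 0 < ‖y‖ := by linarith [hy.1]
        positivity
      have := hy.2.2
      positivity
    nlinarith
  have h4 : 1 / 9 ≤ ‖sH h y + sH 0 y‖ := by
    have := (le_abs_self _).trans (Complex.abs_re_le_norm (sH h y + sH 0 y))
    rw [Complex.add_re] at this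
    linarith
  have h5 : (sH h y - sH 0 y) * (sH h y + sH 0 y) = h ^ 2 := by
    have e1 := sH_sq h y
    have e2 := sH_sq 0 y
    linear_combination e1 - e2
  have h6 : ‖sH h y - sH 0 y‖ * ‖sH h y + sH 0 y‖ ≤ 1 / 10 ^ 18 := by
    rw [← norm_mul, h5, norm_pow]
    calc ‖h‖ ^ 2 ≤ (1 / 10 ^ 9) ^ 2 := by gcongr
      _ = 1 / 10 ^ 18 := by norm_num
  have h7 : ‖sH h y - sH 0 y‖ * (1 / 9) ≤ 1 / 10 ^ 18 :=
    (mul_le_mul_of_nonneg_left h4 (norm_nonneg _)).trans h6
  linarith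

/-- derivative of the square root at `h = 0` -/
theorem s0_deriv {y : ℂ} (hy : y ∈ Om) : HasDerivAt (sH 0) (-(sH 0 y / (2 * y))) y := by
  have h00 : ‖(0 : ℂ)‖ ≤ 1 / 10 ^ 9 := by rw [norm_zero]; positivity
  have hy0 : y ≠ 0 := by
    intro h0
    have := hy.1
    rw [h0, norm_zero] at this
    linarith
  have hs0 : sH 0 y ≠ 0 := by
    intro h0
    have := sH_re h00 hy
    rw [h0] at this
    simp at this
  have h1 := (sH_diff h00 hy).hasDerivAt
  have h2 : HasDerivAt (fun z => sH 0 z ^ 2) (2 * sH 0 y * deriv (sH 0) y) y := by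
    have h20 := h1.fun_pow 2
    simpa using h20
  have h3 : HasDerivAt (fun z : ℂ => (0 : ℂ) ^ 2 + 1 / z) (-(1 / y ^ 2)) y := by
    have := (hasDerivAt_inv hy0).const_add ((0 : ℂ) ^ 2)
    simp only [one_div]
    convert this using 1
  have h4 : (fun z => sH 0 z ^ 2) = fun z : ℂ => (0 : ℂ) ^ 2 + 1 / z := by
    funext z; exact sH_sq 0 z
  rw [h4] at h2
  have h5 := h2.unique h3
  have h6 : sH 0 y ^ 2 = 1 / y := by rw [sH_sq]; simp
  have h7 : deriv (sH 0) y = -(sH 0 y / (2 * y)) := by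
    have : sH 0 y * deriv (sH 0) y = sH 0 y * (-(sH 0 y / (2 * y))) := by
      have e : sH 0 y * (-(sH 0 y / (2 * y))) = -(sH 0 y ^ 2 / (2 * y)) := by ring
      rw [e, h6]
      have e2 : -(1 / y / (2 * y)) = -(1 / y ^ 2) / 2 := by field_simp
      rw [e2, ← h5]; ring
    exact mul_left_cancel₀ hs0 this
  rw [← h7]
  exact h1

theorem TH_der {h y : ℂ} (h0 : h ≠ 0) (hh : ‖h‖ ≤ 1 / 10 ^ 9) (hy : y ∈ Om) :
    HasDerivAt (TH h) (-sH h y) y := by
  have hy0 : y ≠ 0 := by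
    intro h0
    have := hy.1
    rw [h0, norm_zero] at this
    linarith
  have hs := (sH_diff hh hy).hasDerivAt
  set s := sH h y with hsdef
  set s' := deriv (sH h) y with hs'
  have hn : 1 / 10 ≤ ‖s‖ := sH_norm' hh hy
  have hsq : s ^ 2 = h ^ 2 + 1 / y := sH_sq h y
  have hprod : (s + h) * (s - h) = 1 / y := by
    linear_combination hsq
  have hne : (s + h) * (s - h) ≠ 0 := by
    rw [hprod]; exact one_div_ne_zero hy0
  have hp : s + h ≠ 0 := left_ne_zero_of_mul hne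
  have hm : s - h ≠ 0 := right_ne_zero_of_mul hne
  have hslit : (s + h) / (s - h) ∈ Complex.slitPlane := by
    rw [Complex.mem_slitPlane_iff]
    by_contra hcon
    push Not at hcon
    obtain ⟨c1, c2⟩ := hcon
    obtain ⟨t, ht⟩ : ∃ t : ℝ, t = -((s + h) / (s - h)).re := ⟨_, rfl⟩
    have ht0 : 0 ≤ t := by rw [ht]; linarith
    have e1 : (s + h) / (s - h) = -(t : ℂ) := by
      apply Complex.ext
      · simp [ht]
      · simp [c2]
    have e2 : s + h = -(t : ℂ) * (s - h) := by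
      rw [← e1]; field_simp
    have e3 : s * (1 + t) = h * (t - 1) := by linear_combination e2
    have e4 : ‖s‖ * (1 + t) = ‖h‖ * |t - 1| := by
      have := congrArg norm e3
      rw [norm_mul, norm_mul] at this
      have f1 : ‖(1 + t : ℂ)‖ = 1 + t := by
        have : (1 + t : ℂ) = ((1 + t : ℝ) : ℂ) := by push_cast; rfl
        rw [this, Complex.norm_real, Real.norm_eq_abs, abs_of_nonneg (by linarith)]
      have f2 : ‖(t - 1 : ℂ)‖ = |t - 1| := by
        have : (t - 1 : ℂ) = ((t - 1 : ℝ) : ℂ) := by push_cast; rfl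
        rw [this, Complex.norm_real, Real.norm_eq_abs]
      rw [f1, f2] at this
      exact this
    have e5 : |t - 1| ≤ 1 + t := by
      rw [abs_le]; constructor <;> linarith
    have e6 : ‖h‖ * |t - 1| ≤ 1 / 10 ^ 9 * (1 + t) :=
      mul_le_mul hh e5 (abs_nonneg _) (by positivity)
    have e7 : 1 / 10 * (1 + t) ≤ ‖s‖ * (1 + t) := mul_le_mul_of_nonneg_right hn (by linarith)
    nlinarith
  have d1 : HasDerivAt (fun z => (sH h z + h) / (sH h z - h))
      ((s' * (s - h) - (s + h) * s') / (s - h) ^ 2) y := by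
    have := (hs.add_const h).fun_div (hs.sub_const h) hm
    exact this
  have d2 := d1.clog hslit
  have d3 := d2.const_mul (-(1 / (2 * h)))
  have d4 : HasDerivAt (fun z => z * sH h z) (1 * s + y * s') y := (hasDerivAt_id y).fun_mul hs
  have d5 := d3.fun_sub d4
  have e : -(1 / (2 * h)) * ((s' * (s - h) - (s + h) * s') / (s - h) ^ 2 /
      ((s + h) / (s - h))) - (1 * s + y * s') = -s := by
    have e1 : (s' * (s - h) - (s + h) * s') / (s - h) ^ 2 / ((s + h) / (s - h)) =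
        -(2 * h * s') / ((s + h) * (s - h)) := by
      field_simp
      ring
    rw [e1, hprod]
    field_simp
    ring
  rw [e] at d5
  exact d5

/-- the derivatives of the square root at `h = 0` -/
noncomputable def gj (c : ℂ) (j : ℕ) (z : ℂ) : ℂ := c * (sH 0 z * (z⁻¹) ^ j)

theorem gj_deriv (c : ℂ) (j : ℕ) {y : ℂ} (hy : y ∈ Om) :
    HasDerivAt (gj c j) (gj (-(c * (1 / 2 + j))) (j + 1) y) y := by
  have hy0 : y ≠ 0 := by
    intro h0
    have := hy.1
    rw [h0, norm_zero] at this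
    linarith
  have h1 := s0_deriv hy
  have h2 : HasDerivAt (fun z : ℂ => (z⁻¹) ^ j) ((j : ℂ) * (y⁻¹) ^ (j - 1) * (-(y ^ 2)⁻¹)) y :=
    (hasDerivAt_inv hy0).fun_pow j
  have h3 := (h1.fun_mul h2).const_mul c
  have e : c * (-(sH 0 y / (2 * y)) * (y⁻¹) ^ j + sH 0 y * ((j : ℂ) * (y⁻¹) ^ (j - 1) *
      (-(y ^ 2)⁻¹))) = gj (-(c * (1 / 2 + j))) (j + 1) y := by
    unfold gj
    have e1 : (j : ℂ) * (y⁻¹) ^ (j - 1) * (-(y ^ 2)⁻¹) = -((j : ℂ) * (y⁻¹) ^ (j + 1)) := by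
      cases j with
      | zero => simp
      | succ j =>
        have : j + 1 - 1 = j := rfl
        rw [this, ← inv_pow]
        ring
    rw [e1]
    have e2 : sH 0 y / (2 * y) = sH 0 y * y⁻¹ / 2 := by field_simp
    rw [e2]
    ring
  rw [e] at h3
  exact h3

theorem gj_norm (c : ℂ) (j : ℕ) {y : ℂ} (hy : y ∈ Om) : ‖gj c j y‖ ≤ ‖c‖ * (7 * 40 ^ j) := by
  have h00 : ‖(0 : ℂ)‖ ≤ 1 / 10 ^ 9 := by rw [norm_zero]; positivity
  unfold gj
  rw [norm_mul, norm_mul, norm_pow, norm_inv]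
  have h1 := sH_norm h00 hy
  have hy0 : 0 < ‖y‖ := by linarith [hy.1]
  have h2 : ‖y‖⁻¹ ≤ 40 := by
    rw [inv_le_comm₀ hy0 (by norm_num)]
    have := hy.1
    norm_num at this ⊢
    linarith
  gcongr

theorem lower {h y a b c d : ℂ} (hh : ‖h‖ ≤ 1 / 10 ^ 9) (hy : 1 / y ∈ Q0)
    (ha : ‖a‖ ≤ 1 / 10 ^ 18) (hb : ‖b‖ ≤ 1 / 10 ^ 18) (hc : ‖c‖ ≤ 1 / 10 ^ 18)
    (hd : ‖d‖ ≤ 1 / 10 ^ 18) :
    1 / 20000 * (‖a‖ * ‖b‖ * ‖c‖ * ‖d‖) ≤ ‖Dl [a, b, c, d] (sH h) y‖ := by
  have h00 : ‖(0 : ℂ)‖ ≤ 1 / 10 ^ 9 := by rw [norm_zero]; positivity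
  have hB := ball_Om hy
  have hyO : y ∈ Om := hB (mem_ball_self (by norm_num))
  -- the main term
  have m1 := fd [a, b, c, d] (fun j => gj (match j with
      | 0 => 1
      | 1 => -(1 / 2)
      | 2 => 3 / 4
      | 3 => -(15 / 8)
      | _ => 105 / 16) j) y (5 / 10 ^ 18) (gj (105 / 16) 4 y) (1 / 100000) (by
    intro j hj z hz
    have hzO : z ∈ Om := hB (ball_subset_ball (by norm_num) hz)
    simp only [List.length_cons, List.length_nil] at hj
    interval_cases j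
    · have := gj_deriv 1 0 hzO
      norm_num at this ⊢
      exact this
    · have := gj_deriv (-(1 / 2)) 1 hzO
      norm_num at this ⊢
      exact this
    · have := gj_deriv (3 / 4) 2 hzO
      norm_num at this ⊢
      exact this
    · have := gj_deriv (-(15 / 8)) 3 hzO
      norm_num at this ⊢
      exact this) (by
    intro z hz
    have h5 : ∀ ζ ∈ ball y (5 / 10 ^ 18), HasDerivWithinAt (gj (105 / 16) 4)
        (gj (-((105 / 16) * (1 / 2 + (4 : ℕ)))) 5 ζ) (ball y (5 / 10 ^ 18)) ζ := fun ζ hζ =>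
      (gj_deriv (105 / 16) 4 (hB (ball_subset_ball (by norm_num) hζ))).hasDerivWithinAt
    have h6 : ∀ ζ ∈ ball y (5 / 10 ^ 18),
        ‖gj (-((105 / 16) * (1 / 2 + (4 : ℕ)))) 5 ζ‖ ≤ 30 * (7 * 40 ^ 5) := by
      intro ζ hζ
      refine (gj_norm _ 5 (hB (ball_subset_ball (by norm_num) hζ))).trans ?_
      have : ‖(-((105 / 16) * (1 / 2 + (4 : ℕ))) : ℂ)‖ ≤ 30 := by
        have e : (-((105 / 16) * (1 / 2 + (4 : ℕ))) : ℂ) = ((-(945 / 32) : ℝ) : ℂ) := by
          push_cast; norm_num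
        rw [e, Complex.norm_real, Real.norm_eq_abs, abs_neg, abs_of_pos (by norm_num)]
        norm_num
      gcongr
    have h7 := Convex.norm_image_sub_le_of_norm_hasDerivWithin_le h5 h6 (convex_ball y _)
      (mem_ball_self (by norm_num)) hz
    have h8 : ‖z - y‖ ≤ 5 / 10 ^ 18 := by
      rw [mem_ball, dist_eq_norm] at hz; exact hz.le
    calc _ = ‖gj (105 / 16) 4 z - gj (105 / 16) 4 y‖ := rfl
      _ ≤ 30 * (7 * 40 ^ 5) * ‖z - y‖ := h7
      _ ≤ 30 * (7 * 40 ^ 5) * (5 / 10 ^ 18) := by gcongr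
      _ ≤ _ := by norm_num) y (by
    simp only [sub_self, norm_zero, List.map_cons, List.map_nil, List.sum_cons, List.sum_nil]
    linarith)
  -- the error
  have m2 := ce [a, b, c, d] (fun z => sH h z - sH 0 z) y (1 / 40) (9 / 10 ^ 18) (by norm_num)
    (fun z hz => ((sH_diff hh (hB hz)).sub (sH_diff h00 (hB hz))).differentiableWithinAt)
    (fun z hz => sH_close hh (hB hz)) y (by
    simp only [sub_self, norm_zero, List.map_cons, List.map_nil, List.sum_cons, List.sum_nil]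
    linarith)
  rw [dl_sub] at m2
  have e0 : Dl [a, b, c, d] ((fun j => gj (match j with
      | 0 => 1
      | 1 => -(1 / 2)
      | 2 => 3 / 4
      | 3 => -(15 / 8)
      | _ => 105 / 16) j) 0) y = Dl [a, b, c, d] (sH 0) y := by
    congr 1
    funext z
    simp [gj]
  rw [e0] at m1
  have e1 : ([a, b, c, d].map fun a => ‖a‖).prod = ‖a‖ * ‖b‖ * ‖c‖ * ‖d‖ := by
    simp only [List.map_cons, List.map_nil, List.prod_cons, List.prod_nil]; ring
  have e2 : ‖[a, b, c, d].prod‖ = ‖a‖ * ‖b‖ * ‖c‖ * ‖d‖ := by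
    simp only [List.prod_cons, List.prod_nil, norm_mul, norm_one]; ring
  rw [e1] at m1 m2
  set p := ‖a‖ * ‖b‖ * ‖c‖ * ‖d‖ with hp
  have hp0 : 0 ≤ p := by positivity
  have m3 : 16 / 100000 ≤ ‖gj (105 / 16) 4 y‖ := by
    obtain ⟨q1, q2, q3⟩ := hy
    have hy0 : 0 < ‖y‖ := by linarith [hyO.1]
    rw [norm_div, norm_one] at q1
    have f1 : 1 / 16 ≤ ‖sH 0 y‖ ^ 2 := by
      rw [← norm_pow, sH_sq, zero_pow two_ne_zero, zero_add, norm_div, norm_one]
      linarith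
    have f2 : 1 / 4 ≤ ‖sH 0 y‖ := by nlinarith [norm_nonneg (sH 0 y)]
    have f3 : 1 / 10 ≤ ‖y‖⁻¹ := by rw [← one_div]; exact q1.le
    unfold gj
    rw [norm_mul, norm_mul, norm_pow, norm_inv]
    have f4 : ‖(105 / 16 : ℂ)‖ = 105 / 16 := by
      have : (105 / 16 : ℂ) = ((105 / 16 : ℝ) : ℂ) := by push_cast; rfl
      rw [this, Complex.norm_real, Real.norm_eq_abs, abs_of_pos (by norm_num)]
    rw [f4]
    calc (16 / 100000 : ℝ) ≤ 105 / 16 * (1 / 4 * (1 / 10) ^ 4) := by norm_num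
      _ ≤ _ := by gcongr
  have m4 : ‖[a, b, c, d].prod * gj (105 / 16) 4 y‖ = p * ‖gj (105 / 16) 4 y‖ := by
    rw [norm_mul, e2]
  have m5 : ‖[a, b, c, d].prod * gj (105 / 16) 4 y‖ ≤
      ‖Dl [a, b, c, d] (sH 0) y‖ + ‖Dl [a, b, c, d] (sH 0) y -
        [a, b, c, d].prod * gj (105 / 16) 4 y‖ := by
    have := norm_sub_le (Dl [a, b, c, d] (sH 0) y) (Dl [a, b, c, d] (sH 0) y -
        [a, b, c, d].prod * gj (105 / 16) 4 y)
    rwa [sub_sub_cancel] at this
  have m6 : ‖Dl [a, b, c, d] (sH 0) y‖ ≤ ‖Dl [a, b, c, d] (sH h) y‖ +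
      ‖Dl [a, b, c, d] (sH h) y - Dl [a, b, c, d] (sH 0) y‖ := by
    have := norm_sub_le (Dl [a, b, c, d] (sH h) y) (Dl [a, b, c, d] (sH h) y -
      Dl [a, b, c, d] (sH 0) y)
    rwa [sub_sub_cancel] at this
  have m7 : ([a, b, c, d].length.factorial * (9 / 10 ^ 18) / (1 / 40 / 4) ^ [a, b, c, d].length : ℝ)
      ≤ 1 / 100000 := by
    simp only [List.length_cons, List.length_nil]
    norm_num [Nat.factorial]
  have m8 : ‖Dl [a, b, c, d] (sH h) y - Dl [a, b, c, d] (sH 0) y‖ ≤ 1 / 100000 * p :=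
    m2.trans (mul_le_mul_of_nonneg_right m7 hp0)
  have m9 : p * (16 / 100000) ≤ p * ‖gj (105 / 16) 4 y‖ := mul_le_mul_of_nonneg_left m3 hp0
  rw [m4] at m5
  linarith

theorem upper (l : List ℂ) {h y z : ℂ} (hh : ‖h‖ ≤ 1 / 10 ^ 9) (hy : 1 / y ∈ Q0)
    (hz : ‖z - y‖ + (l.map fun a => ‖a‖).sum < 1 / 80) :
    ‖Dl l (sH h) z‖ ≤ (l.length.factorial * 7 / (1 / 160) ^ l.length) *
      (l.map fun a => ‖a‖).prod := by
  have hB := ball_Om hy
  have := ce l (sH h) y (1 / 40) 7 (by norm_num)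
    (fun z hz => (sH_diff hh (hB hz)).differentiableWithinAt)
    (fun z hz => sH_norm hh (hB hz)) z (by linarith)
  have e : (1 / 40 / 4 : ℝ) = 1 / 160 := by norm_num
  rw [e] at this
  exact this

end A7

open A7

theorem TH_deriv : ∃ h0 : ℝ, 0 < h0 ∧ ∀ h y : ℂ, h ≠ 0 → ‖h‖ ≤ h0 → 1 / 40 < ‖y‖ → ‖y‖ < 40 →
    0 < y.re → HasDerivAt (TH h) (-sH h y) y ∧ sH h y ^ 2 = h ^ 2 + 1 / y ∧
      0 < (sH h y).re := by
  refine ⟨1 / 10 ^ 9, by positivity, fun h y h0 hh h1 h2 h3 => ?_⟩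
  have hy : y ∈ Om := ⟨h1, h2, h3⟩
  exact ⟨TH_der h0 hh hy, sH_sq h y, sH_re hh hy⟩

theorem TH_diff : ∃ h0 ρ0 c0 C0 : ℝ, 0 < h0 ∧ 0 < ρ0 ∧ 0 < c0 ∧ 0 < C0 ∧
    ∀ h y a b c d : ℂ, h ≠ 0 → ‖h‖ ≤ h0 → 1 / y ∈ Q0 → ‖a‖ ≤ ρ0 → ‖b‖ ≤ ρ0 → ‖c‖ ≤ ρ0 →
    ‖d‖ ≤ ρ0 →
    c0 * (‖a‖ * ‖b‖ * ‖c‖ * ‖d‖) ≤ ‖Df d (Df c (Df b (Df a (sH h)))) y‖ ∧
    ‖Df d (Df c (Df b (Df a (sH h)))) y‖ ≤ C0 * (‖a‖ * ‖b‖ * ‖c‖ * ‖d‖) ∧
    ∀ y' : ℂ, ‖y' - y‖ ≤ ρ0 →
      ‖Df d (Df c (Df b (Df a (TH h)))) y' - Df d (Df c (Df b (Df a (TH h)))) y +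
        (y' - y) * Df d (Df c (Df b (Df a (sH h)))) y‖ ≤
      C0 * (‖a‖ * ‖b‖ * ‖c‖ * ‖d‖) * ‖y' - y‖ ^ 2 := by
  refine ⟨1 / 10 ^ 9, 1 / 10 ^ 18, 1 / 20000, 10 ^ 15, by positivity, by positivity,
    by positivity, by positivity, fun h y a b c d h0 hh hy ha hb hc hd => ?_⟩
  have hB := ball_Om hy
  have e1 : ([a, b, c, d].map fun a => ‖a‖).prod = ‖a‖ * ‖b‖ * ‖c‖ * ‖d‖ := by
    simp only [List.map_cons, List.map_nil, List.prod_cons, List.prod_nil]; ring
  have hp0 : 0 ≤ ‖a‖ * ‖b‖ * ‖c‖ * ‖d‖ := by positivity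
  refine ⟨lower hh hy ha hb hc hd, ?_, ?_⟩
  · have := upper [a, b, c, d] (z := y) hh hy (by
      simp only [sub_self, norm_zero, List.map_cons, List.map_nil, List.sum_cons, List.sum_nil]
      linarith)
    rw [e1] at this
    refine this.trans (mul_le_mul_of_nonneg_right ?_ hp0)
    simp only [List.length_cons, List.length_nil]
    norm_num [Nat.factorial]
  · intro y' hy'
    change ‖Dl [a, b, c, d] (TH h) y' - Dl [a, b, c, d] (TH h) y +
      (y' - y) * Dl [a, b, c, d] (sH h) y‖ ≤ _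
    have d1 : ∀ ζ ∈ closedBall y ‖y' - y‖, HasDerivWithinAt
        (fun ζ => Dl [a, b, c, d] (TH h) ζ + ζ * Dl [a, b, c, d] (sH h) y)
        (Dl [a, b, c, d] (fun z => -sH h z) ζ + 1 * Dl [a, b, c, d] (sH h) y)
        (closedBall y ‖y' - y‖) ζ := by
      intro ζ hζ
      rw [mem_closedBall, dist_eq_norm] at hζ
      have f1 := dl_deriv [a, b, c, d] (TH h) (fun z => -sH h z) y (1 / 40)
        (fun z hz => TH_der h0 hh (hB hz)) ζ (by
          simp only [List.map_cons, List.map_nil, List.sum_cons, List.sum_nil]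
          linarith)
      exact (f1.fun_add ((hasDerivAt_id ζ).mul_const _)).hasDerivWithinAt
    have d2 : ∀ ζ ∈ closedBall y ‖y' - y‖,
        ‖Dl [a, b, c, d] (fun z => -sH h z) ζ + 1 * Dl [a, b, c, d] (sH h) y‖ ≤
        10 ^ 15 * (‖a‖ * ‖b‖ * ‖c‖ * ‖d‖) * ‖y' - y‖ := by
      intro ζ hζ
      rw [mem_closedBall, dist_eq_norm] at hζ
      have f1 := upper [a, b, c, d, ζ - y] (z := y) hh hy (by
        simp only [sub_self, norm_zero, List.map_cons, List.map_nil, List.sum_cons, List.sum_nil]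
        linarith)
      have f2 : Dl [a, b, c, d, ζ - y] (sH h) y =
          Dl [a, b, c, d] (sH h) (y + (ζ - y)) - Dl [a, b, c, d] (sH h) y := rfl
      rw [f2, add_sub_cancel] at f1
      rw [dl_neg, one_mul, ← norm_neg]
      have f3 : -(-Dl [a, b, c, d] (sH h) ζ + Dl [a, b, c, d] (sH h) y) =
          Dl [a, b, c, d] (sH h) ζ - Dl [a, b, c, d] (sH h) y := by ring
      rw [f3]
      refine f1.trans ?_
      have f4 : ([a, b, c, d, ζ - y].map fun a => ‖a‖).prod =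
          (‖a‖ * ‖b‖ * ‖c‖ * ‖d‖) * ‖ζ - y‖ := by
        simp only [List.map_cons, List.map_nil, List.prod_cons, List.prod_nil]; ring
      rw [f4]
      have f5 : ([a, b, c, d, ζ - y].length.factorial * 7 /
          (1 / 160) ^ [a, b, c, d, ζ - y].length : ℝ) ≤ 10 ^ 15 := by
        simp only [List.length_cons, List.length_nil]
        norm_num [Nat.factorial]
      calc _ ≤ 10 ^ 15 * ((‖a‖ * ‖b‖ * ‖c‖ * ‖d‖) * ‖ζ - y‖) :=
            mul_le_mul_of_nonneg_right f5 (by positivity)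
        _ ≤ 10 ^ 15 * ((‖a‖ * ‖b‖ * ‖c‖ * ‖d‖) * ‖y' - y‖) := by gcongr
        _ = _ := by ring
    have d3 := Convex.norm_image_sub_le_of_norm_hasDerivWithin_le d1 d2
      (convex_closedBall y _) (mem_closedBall_self (norm_nonneg _)) (y := y') (by
        rw [mem_closedBall, dist_eq_norm])
    have d4 : (Dl [a, b, c, d] (TH h) y' + y' * Dl [a, b, c, d] (sH h) y) -
        (Dl [a, b, c, d] (TH h) y + y * Dl [a, b, c, d] (sH h) y) =
        Dl [a, b, c, d] (TH h) y' - Dl [a, b, c, d] (TH h) y +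
      (y' - y) * Dl [a, b, c, d] (sH h) y := by ring
    rw [d4] at d3
    refine d3.trans (le_of_eq ?_)
    ring

end Pool.Agent.T2H29.TA
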