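import Pool.Agent.T2H29.TA.Base

/-!
# Differencing
-/

set_option autoImplicit false
set_option linter.unusedSectionVars false

namespace Pool.Agent.T2H29.TA

open Finset NumberField NumberField.InfinitePlace Module MeasureTheory
open Pool.Agent.T2H29.SW
open scoped RealInnerProductSpace ContDiff

variable (K : Type) [Field K] [NumberField K]

section
variable {ι : Type} [Fintype ι] [DecidableEq ι]

lemma a8_shift (F : (ι → ℤ) → ℂ) (a : ι → ℤ) : ∑' z, F (z + a) = ∑' z, F z :=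
  (Equiv.addRight a).tsum_eq F

lemma a8_tsum (F : (ι → ℤ) → ℂ) (Z1 : Finset (ι → ℤ)) (h : ∀ z, F z ≠ 0 → z ∈ Z1) :
    ∑' z, F z = ∑ z ∈ Z1, F z := by
  refine tsum_eq_sum fun z hz => ?_
  by_contra h1
  exact hz (h z h1)

/-- the general step: `T` is the translation vector attached to `y` -/
lemma a8_step (H : (ι → ℤ) → ℂ) (T : (ι → ℤ) → (ι → ℤ)) (Y Z1 : Finset (ι → ℤ))
    (hZ : ∀ y ∈ Y, ∀ z, H (z + T y) ≠ 0 → z ∈ Z1) :
    (Y.card : ℝ) ^ 2 * ‖∑' z, H z‖ ^ 2 ≤ Z1.card * ∑ y1 ∈ Y, ∑ y2 ∈ Y,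
      ‖∑' z, H (z + T y1) * (starRingEnd ℂ) (H (z + T y2))‖ := by
  have h1 : (Y.card : ℂ) * ∑' z, H z = ∑ z ∈ Z1, ∑ y ∈ Y, H (z + T y) := by
    rw [Finset.sum_comm, ← nsmul_eq_mul, ← Finset.sum_const]
    refine Finset.sum_congr rfl fun y hy => ?_
    rw [← a8_tsum _ Z1 (hZ y hy), a8_shift]
  have h2 : (Y.card : ℝ) ^ 2 * ‖∑' z, H z‖ ^ 2 = ‖∑ z ∈ Z1, ∑ y ∈ Y, H (z + T y)‖ ^ 2 := by
    rw [← h1, norm_mul, Complex.norm_natCast, mul_pow]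
  rw [h2]
  have h3 : ‖∑ z ∈ Z1, ∑ y ∈ Y, H (z + T y)‖ ^ 2 ≤
      Z1.card * ∑ z ∈ Z1, ‖∑ y ∈ Y, H (z + T y)‖ ^ 2 :=
    (pow_le_pow_left₀ (norm_nonneg _) (norm_sum_le _ _) 2).trans sq_sum_le_card_mul_sum_sq
  refine h3.trans (mul_le_mul_of_nonneg_left ?_ (Nat.cast_nonneg _))
  have h4 : ((∑ z ∈ Z1, ‖∑ y ∈ Y, H (z + T y)‖ ^ 2 : ℝ) : ℂ) = ∑ y1 ∈ Y, ∑ y2 ∈ Y,
      ∑' z, H (z + T y1) * (starRingEnd ℂ) (H (z + T y2)) := by
    push_cast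
    have h5 : ∀ z ∈ Z1, ((‖∑ y ∈ Y, H (z + T y)‖ : ℝ) : ℂ) ^ 2 = ∑ y1 ∈ Y, ∑ y2 ∈ Y,
        H (z + T y1) * (starRingEnd ℂ) (H (z + T y2)) := by
      intro z _
      rw [← Complex.mul_conj', map_sum, Finset.sum_mul_sum]
    rw [Finset.sum_congr rfl h5, Finset.sum_comm]
    refine Finset.sum_congr rfl fun y1 hy1 => ?_
    rw [Finset.sum_comm]
    refine Finset.sum_congr rfl fun y2 hy2 => ?_
    symm
    refine a8_tsum _ Z1 fun z hz => ?_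
    exact hZ y1 hy1 z (left_ne_zero_of_mul hz)
  have h6 : (0 : ℝ) ≤ ∑ z ∈ Z1, ‖∑ y ∈ Y, H (z + T y)‖ ^ 2 :=
    Finset.sum_nonneg fun _ _ => sq_nonneg _
  calc ∑ z ∈ Z1, ‖∑ y ∈ Y, H (z + T y)‖ ^ 2
      = ‖((∑ z ∈ Z1, ‖∑ y ∈ Y, H (z + T y)‖ ^ 2 : ℝ) : ℂ)‖ := by
        rw [Complex.norm_real, Real.norm_of_nonneg h6]
    _ ≤ _ := by
        rw [h4]
        refine (norm_sum_le _ _).trans (Finset.sum_le_sum fun y1 _ => ?_)
        exact norm_sum_le _ _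

theorem vdc_sym (H : (ι → ℤ) → ℂ)
    (hH : (Function.support H).Finite) (Y Z1 : Finset (ι → ℤ))
    (hZ : ∀ y ∈ Y, ∀ z, H (z + 2 • y) ≠ 0 → z ∈ Z1) :
    (Y.card : ℝ) ^ 2 * ‖∑' z, H z‖ ^ 2 ≤ Z1.card * ∑ y1 ∈ Y, ∑ y2 ∈ Y,
      ‖∑' z, H (z + (y1 - y2)) * (starRingEnd ℂ) (H (z - (y1 - y2)))‖ := by
  refine (a8_step H (fun y => 2 • y) Y Z1 hZ).trans (le_of_eq ?_)
  congr 1
  refine Finset.sum_congr rfl fun y1 _ => Finset.sum_congr rfl fun y2 _ => ?_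
  congr 1
  rw [← a8_shift (fun z => H (z + (y1 - y2)) * (starRingEnd ℂ) (H (z - (y1 - y2)))) (y1 + y2)]
  refine tsum_congr fun z => ?_
  have e1 : z + 2 • y1 = z + (y1 + y2) + (y1 - y2) := by
    rw [two_nsmul]; abel
  have e2 : z + 2 • y2 = z + (y1 + y2) - (y1 - y2) := by
    rw [two_nsmul]; abel
  rw [e1, e2]

/-- differencing -/
noncomputable def DD {ι : Type} (a : ι → ℤ) (H : (ι → ℤ) → ℂ) (z : ι → ℤ) : ℂ :=
  H (z + a) * (starRingEnd ℂ) (H z)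

lemma a8_one (H : (ι → ℤ) → ℂ) (Y Z1 : Finset (ι → ℤ))
    (hZ : ∀ y ∈ Y, ∀ z, H (z + y) ≠ 0 → z ∈ Z1) :
    (Y.card : ℝ) ^ 2 * ‖∑' z, H z‖ ^ 2 ≤ Z1.card * ∑ p ∈ Y ×ˢ Y, ‖∑' z, DD (p.1 - p.2) H z‖ := by
  refine (a8_step H (fun y => y) Y Z1 hZ).trans (le_of_eq ?_)
  rw [Finset.sum_product]
  congr 1
  refine Finset.sum_congr rfl fun y1 _ => Finset.sum_congr rfl fun y2 _ => ?_
  congr 1
  rw [← a8_shift (DD (y1 - y2) H) y2]
  refine tsum_congr fun z => ?_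
  unfold DD
  have e1 : z + y1 = z + y2 + (y1 - y2) := by abel
  rw [e1]

/-- the iterated sums -/
noncomputable def a8_it (Y : Finset (ι → ℤ)) : ℕ → ((ι → ℤ) → ℂ) → ℝ
  | 0, H => ‖∑' z, H z‖
  | k + 1, H => ∑ p ∈ Y ×ˢ Y, a8_it Y k (DD (p.1 - p.2) H)

lemma a8_nonneg (Y : Finset (ι → ℤ)) (k : ℕ) : ∀ H : (ι → ℤ) → ℂ, 0 ≤ a8_it Y k H := by
  induction k with
  | zero => intro H; exact norm_nonneg _
  | succ k ih => intro H; exact Finset.sum_nonneg fun p _ => ih _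

lemma a8_main (Y Z1 : Finset (ι → ℤ)) (hY : Y.Nonempty) (k : ℕ) : ∀ H : (ι → ℤ) → ℂ,
    (∀ y ∈ Y, ∀ z, H (z + y) ≠ 0 → z ∈ Z1) →
    (Y.card : ℝ) ^ (2 * k) * ‖∑' z, H z‖ ^ (2 ^ k) ≤ (Z1.card : ℝ) ^ (2 ^ k - 1) * a8_it Y k H := by
  have hN : (0 : ℝ) < Y.card := by exact_mod_cast hY.card_pos
  have hM : (0 : ℝ) ≤ Z1.card := Nat.cast_nonneg _
  induction k with
  | zero => intro H _; simp [a8_it]
  | succ k ih =>
    intro H hZ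
    have h1 := a8_one H Y Z1 hZ
    obtain ⟨m, hm⟩ : ∃ m, 2 ^ k = m + 1 := ⟨2 ^ k - 1, by have := Nat.one_le_two_pow (n := k); omega⟩
    -- power mean
    have h2 : (∑ p ∈ Y ×ˢ Y, ‖∑' z, DD (p.1 - p.2) H z‖) ^ (m + 1) ≤
        ((Y.card : ℝ) ^ 2) ^ m * ∑ p ∈ Y ×ˢ Y, ‖∑' z, DD (p.1 - p.2) H z‖ ^ (m + 1) := by
      have h4 := pow_sum_le_card_mul_sum_pow (s := Y ×ˢ Y)
        (f := fun p => ‖∑' z, DD (p.1 - p.2) H z‖) (fun _ _ => norm_nonneg _) m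
      rw [card_product] at h4
      push_cast at h4
      rw [← pow_two] at h4
      exact h4
    have h3 : ((Y.card : ℝ) ^ 2 * ‖∑' z, H z‖ ^ 2) ^ (m + 1) ≤
        (Z1.card : ℝ) ^ (m + 1) * (((Y.card : ℝ) ^ 2) ^ m *
          ∑ p ∈ Y ×ˢ Y, ‖∑' z, DD (p.1 - p.2) H z‖ ^ (m + 1)) := by
      refine (pow_le_pow_left₀ (by positivity) h1 (m + 1)).trans ?_
      rw [mul_pow]
      exact mul_le_mul_of_nonneg_left h2 (by positivity)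
    have h4 : (Y.card : ℝ) ^ 2 * ‖∑' z, H z‖ ^ (2 ^ (k + 1)) ≤
        (Z1.card : ℝ) ^ (m + 1) * ∑ p ∈ Y ×ˢ Y, ‖∑' z, DD (p.1 - p.2) H z‖ ^ (m + 1) := by
      have h5 : (0 : ℝ) < ((Y.card : ℝ) ^ 2) ^ m := by positivity
      refine le_of_mul_le_mul_left ?_ h5
      calc ((Y.card : ℝ) ^ 2) ^ m * ((Y.card : ℝ) ^ 2 * ‖∑' z, H z‖ ^ (2 ^ (k + 1))) =
          ((Y.card : ℝ) ^ 2 * ‖∑' z, H z‖ ^ 2) ^ (m + 1) := by
            rw [mul_pow, ← pow_mul, ← pow_mul, pow_succ 2 k, hm]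
            ring
        _ ≤ _ := h3
        _ = _ := by ring
    have h6 : (Y.card : ℝ) ^ (2 * (k + 1)) * ‖∑' z, H z‖ ^ (2 ^ (k + 1)) ≤
        (Z1.card : ℝ) ^ (m + 1) * ∑ p ∈ Y ×ˢ Y,
          ((Y.card : ℝ) ^ (2 * k) * ‖∑' z, DD (p.1 - p.2) H z‖ ^ (2 ^ k)) := by
      have h7 := mul_le_mul_of_nonneg_left h4 (show 0 ≤ (Y.card : ℝ) ^ (2 * k) by positivity)
      refine le_trans (le_of_eq ?_) (h7.trans (le_of_eq ?_))
      · ring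
      · rw [hm, ← Finset.mul_sum]; ring
    refine h6.trans ?_
    have h8 : (2 : ℕ) ^ (k + 1) - 1 = (m + 1) + m := by rw [pow_succ, hm]; omega
    have h9 : (2 : ℕ) ^ k - 1 = m := by omega
    rw [h8, pow_add (Z1.card : ℝ) (m + 1) m, mul_assoc]
    refine mul_le_mul_of_nonneg_left (a := (Z1.card : ℝ) ^ (m + 1)) ?_ (pow_nonneg hM _)
    show _ ≤ (Z1.card : ℝ) ^ m * ∑ p ∈ Y ×ˢ Y, a8_it Y k (DD (p.1 - p.2) H)
    rw [Finset.mul_sum]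
    refine Finset.sum_le_sum fun p _ => ?_
    have h10 := ih (DD (p.1 - p.2) H) (by
      intro y hy z hz
      apply hZ y hy z
      intro h0
      apply hz
      show H (z + y + (p.1 - p.2)) * (starRingEnd ℂ) (H (z + y)) = 0
      rw [h0, map_zero, mul_zero])
    rwa [h9] at h10

lemma a8_pi {α M : Type} [DecidableEq α] [AddCommMonoid M] (S : Finset α) (k : ℕ)
    (F : (Fin (k + 1) → α) → M) :
    ∑ f ∈ Fintype.piFinset (fun _ : Fin (k + 1) => S), F f =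
      ∑ a ∈ S, ∑ g ∈ Fintype.piFinset (fun _ : Fin k => S), F (Fin.cons a g) := by
  rw [← Finset.sum_product']
  refine Finset.sum_bij' (fun f _ => (f 0, Fin.tail f)) (fun p _ => Fin.cons p.1 p.2) ?_ ?_ ?_ ?_ ?_
  · intro f hf
    rw [Fintype.mem_piFinset] at hf
    rw [Finset.mem_product, Fintype.mem_piFinset]
    exact ⟨hf 0, fun i => hf i.succ⟩
  · intro p hp
    rw [Finset.mem_product, Fintype.mem_piFinset] at hp
    rw [Fintype.mem_piFinset]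
    intro i
    refine Fin.cases ?_ (fun j => ?_) i
    · simpa using hp.1
    · simpa using hp.2 j
  · intro f _; exact Fin.cons_self_tail f
  · intro p _; simp
  · intro f _; rw [Fin.cons_self_tail]

theorem vdc_four (H : (ι → ℤ) → ℂ)
    (hH : (Function.support H).Finite) (Y Z1 : Finset (ι → ℤ))
    (hZ : ∀ y ∈ Y, ∀ z, H (z + y) ≠ 0 → z ∈ Z1) :
    (Y.card : ℝ) ^ 8 * ‖∑' z, H z‖ ^ 16 ≤ (Z1.card : ℝ) ^ 15 *
      ∑ y ∈ Fintype.piFinset (fun _ : Fin 4 => Y ×ˢ Y),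
      ‖∑' z, DD ((y 3).1 - (y 3).2) (DD ((y 2).1 - (y 2).2) (DD ((y 1).1 - (y 1).2)
        (DD ((y 0).1 - (y 0).2) H))) z‖ := by
  rcases Y.eq_empty_or_nonempty with rfl | hY
  · simp
  · have h := a8_main Y Z1 hY 4 H hZ
    norm_num at h
    refine h.trans (le_of_eq ?_)
    congr 1
    rw [a8_pi]
    simp only [a8_pi, a8_it]
    refine Finset.sum_congr rfl fun p0 _ => Finset.sum_congr rfl fun p1 _ =>
      Finset.sum_congr rfl fun p2 _ => Finset.sum_congr rfl fun p3 _ => ?_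
    rw [Fintype.piFinset_of_isEmpty, Finset.univ_unique, Finset.sum_singleton]
    rfl

end

end Pool.Agent.T2H29.TA
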