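import Pool.Agent.T2H29.SW.L17
import Pool.Agent.T2H29.SW.X3

/-!
# The window lemma for lattices with the counting bound
-/

set_option autoImplicit false
set_option linter.unusedSectionVars false

namespace Pool.Agent.T2H29.TA

open Finset MeasureTheory Matrix
open Pool.Agent.T2H29.SW
open scoped RealInnerProductSpace

variable {ι : Type} [Fintype ι] [DecidableEq ι]

/-! ## Gaussians -/

lemma gauI {b : ℝ} (hb : 0 < b) :
    Integrable (fun x : EuclideanSpace ℝ ι => Real.exp (-(b * ‖x‖ ^ 2))) ∧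
    ∫ x : EuclideanSpace ℝ ι, Real.exp (-(b * ‖x‖ ^ 2)) = √(Real.pi / b) ^ Fintype.card ι := by
  have h1 := GaussianFourier.integral_rexp_neg_mul_sq_norm (V := EuclideanSpace ℝ ι) hb
  rw [finrank_euclideanSpace] at h1
  have h2 : (Real.pi / b) ^ ((Fintype.card ι : ℝ) / 2) = √(Real.pi / b) ^ Fintype.card ι := by
    rw [Real.sqrt_eq_rpow, ← Real.rpow_natCast, ← Real.rpow_mul (by positivity)]
    congr 1
    ring
  rw [h2] at h1
  have h3 : ∫ x : EuclideanSpace ℝ ι, Real.exp (-(b * ‖x‖ ^ 2)) = √(Real.pi / b) ^ Fintype.card ι := by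
    rw [← h1]
    refine integral_congr_ae (Filter.Eventually.of_forall fun x => ?_)
    simp only [neg_mul]
  refine ⟨?_, h3⟩
  by_contra hn
  have h4 := integral_undef hn
  rw [h3] at h4
  have h5 : 0 < √(Real.pi / b) ^ Fintype.card ι := by positivity
  exact h5.ne' h4

/-- the Gaussian of mass one -/
noncomputable def gam (r : ℝ) (x : EuclideanSpace ℝ ι) : ℝ :=
  (r ^ Fintype.card ι)⁻¹ * Real.exp (-(Real.pi / r ^ 2 * ‖x‖ ^ 2))

/-- the wider Gaussian -/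
noncomputable def eta (r : ℝ) (x : EuclideanSpace ℝ ι) : ℝ :=
  (r ^ Fintype.card ι)⁻¹ * Real.exp (-(1 / r ^ 2 * ‖x‖ ^ 2))

lemma gam_nonneg {r : ℝ} (hr : 0 < r) (x : EuclideanSpace ℝ ι) : 0 ≤ gam r x := by
  unfold gam; positivity

lemma eta_nonneg {r : ℝ} (hr : 0 < r) (x : EuclideanSpace ℝ ι) : 0 ≤ eta r x := by
  unfold eta; positivity

lemma gam_cont (r : ℝ) : Continuous (gam (ι := ι) r) := by
  unfold gam
  fun_prop

lemma gam_int {r : ℝ} (hr : 0 < r) : Integrable (gam (ι := ι) r) ∧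
    ∫ x : EuclideanSpace ℝ ι, gam r x = 1 := by
  obtain ⟨h1, h2⟩ := gauI (ι := ι) (b := Real.pi / r ^ 2) (by positivity)
  refine ⟨h1.const_mul _, ?_⟩
  unfold gam
  rw [integral_const_mul, h2]
  have h3 : √(Real.pi / (Real.pi / r ^ 2)) = r := by
    rw [div_div_cancel₀ Real.pi_ne_zero]
    exact Real.sqrt_sq hr.le
  rw [h3]
  exact inv_mul_cancel₀ (by positivity)

lemma eta_int {r : ℝ} (hr : 0 < r) : Integrable (eta (ι := ι) r) ∧
    ∫ x : EuclideanSpace ℝ ι, eta r x = √Real.pi ^ Fintype.card ι := by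
  obtain ⟨h1, h2⟩ := gauI (ι := ι) (b := 1 / r ^ 2) (by positivity)
  refine ⟨h1.const_mul _, ?_⟩
  unfold eta
  rw [integral_const_mul, h2]
  have h3 : √(Real.pi / (1 / r ^ 2)) = √Real.pi * r := by
    rw [div_div_eq_mul_div, div_one, Real.sqrt_mul Real.pi_pos.le, Real.sqrt_sq hr.le]
  rw [h3, mul_pow]
  field_simp

lemma u_one (u : ℝ) : u * Real.exp (-(Real.pi * u ^ 2)) ≤
    Real.exp (-(u ^ 2)) * Real.exp (-(u ^ 2)) := by
  have hp := Real.pi_gt_three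
  have h1 : u ≤ Real.exp (u ^ 2) := by
    have := Real.add_one_le_exp (u ^ 2)
    nlinarith [sq_nonneg (u - 1)]
  calc u * Real.exp (-(Real.pi * u ^ 2)) ≤ Real.exp (u ^ 2) * Real.exp (-(Real.pi * u ^ 2)) :=
        mul_le_mul_of_nonneg_right h1 (Real.exp_pos _).le
    _ ≤ _ := by
        rw [← Real.exp_add, ← Real.exp_add]
        apply Real.exp_le_exp.2
        nlinarith [sq_nonneg u]

lemma u_two (u : ℝ) : u ^ 2 * Real.exp (-(Real.pi * u ^ 2)) ≤ Real.exp (-(u ^ 2)) := by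
  have hp := Real.pi_gt_three
  have h1 : u ^ 2 ≤ Real.exp (u ^ 2) := by
    have := Real.add_one_le_exp (u ^ 2)
    linarith
  calc u ^ 2 * Real.exp (-(Real.pi * u ^ 2)) ≤ Real.exp (u ^ 2) * Real.exp (-(Real.pi * u ^ 2)) :=
        mul_le_mul_of_nonneg_right h1 (Real.exp_pos _).le
    _ ≤ _ := by
        rw [← Real.exp_add]
        apply Real.exp_le_exp.2
        nlinarith [sq_nonneg u]

lemma gam_eq {r : ℝ} (x : EuclideanSpace ℝ ι) : gam r x =
    (r ^ Fintype.card ι)⁻¹ * Real.exp (-(Real.pi * (‖x‖ / r) ^ 2)) := by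
  unfold gam
  congr 3
  rw [div_pow]; ring

lemma eta_eq {r : ℝ} (x : EuclideanSpace ℝ ι) : eta r x =
    (r ^ Fintype.card ι)⁻¹ * Real.exp (-((‖x‖ / r) ^ 2)) := by
  unfold eta
  congr 3
  rw [div_pow]; ring

lemma gam_one {r : ℝ} (hr : 0 < r) (hr1 : r ≤ 1) (x : EuclideanSpace ℝ ι) :
    gam r x * ‖x‖ ≤ r * eta r x * Real.exp (-‖x‖ ^ 2) := by
  rw [gam_eq, eta_eq]
  set u := ‖x‖ / r with hu
  have hx : ‖x‖ = r * u := by rw [hu]; field_simp
  have h1 := u_one u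
  have h2 : Real.exp (-(u ^ 2)) ≤ Real.exp (-‖x‖ ^ 2) := by
    apply Real.exp_le_exp.2
    rw [hx, mul_pow]
    have h4 : r ^ 2 ≤ 1 := pow_le_one₀ hr.le hr1
    nlinarith [mul_nonneg (sub_nonneg.2 h4) (sq_nonneg u)]
  have h3 : 0 < (r ^ Fintype.card ι)⁻¹ := by positivity
  calc (r ^ Fintype.card ι)⁻¹ * Real.exp (-(Real.pi * u ^ 2)) * ‖x‖ =
        r * (r ^ Fintype.card ι)⁻¹ * (u * Real.exp (-(Real.pi * u ^ 2))) := by rw [hx]; ring
    _ ≤ r * (r ^ Fintype.card ι)⁻¹ * (Real.exp (-(u ^ 2)) * Real.exp (-‖x‖ ^ 2)) := by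
        refine mul_le_mul_of_nonneg_left ?_ (by positivity)
        exact h1.trans (mul_le_mul_of_nonneg_left h2 (Real.exp_pos _).le)
    _ = _ := by ring

lemma gam_two {r : ℝ} (hr : 0 < r) (x : EuclideanSpace ℝ ι) :
    gam r x * ‖x‖ ^ 2 ≤ r ^ 2 * eta r x := by
  rw [gam_eq, eta_eq]
  set u := ‖x‖ / r with hu
  have hx : ‖x‖ = r * u := by rw [hu]; field_simp
  have h1 := u_two u
  calc (r ^ Fintype.card ι)⁻¹ * Real.exp (-(Real.pi * u ^ 2)) * ‖x‖ ^ 2 =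
        r ^ 2 * (r ^ Fintype.card ι)⁻¹ * (u ^ 2 * Real.exp (-(Real.pi * u ^ 2))) := by rw [hx]; ring
    _ ≤ r ^ 2 * (r ^ Fintype.card ι)⁻¹ * Real.exp (-(u ^ 2)) :=
        mul_le_mul_of_nonneg_left h1 (by positivity)
    _ = _ := by ring

lemma gam_three {r ρ : ℝ} (hr : 0 < r) (hρ : 0 < ρ) {x : EuclideanSpace ℝ ι} (hx : ρ ≤ ‖x‖) :
    gam r x ≤ Real.exp (-(ρ / r) ^ 2) * eta r x := by
  rw [gam_eq, eta_eq]
  set u := ‖x‖ / r with hu
  have h1 : ρ / r ≤ u := by rw [hu]; gcongr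
  have h2 : (ρ / r) ^ 2 ≤ u ^ 2 := by gcongr
  have hp := Real.pi_gt_three
  calc (r ^ Fintype.card ι)⁻¹ * Real.exp (-(Real.pi * u ^ 2)) ≤
      (r ^ Fintype.card ι)⁻¹ * (Real.exp (-(ρ / r) ^ 2) * Real.exp (-(u ^ 2))) := by
        refine mul_le_mul_of_nonneg_left ?_ (by positivity)
        rw [← Real.exp_add]
        apply Real.exp_le_exp.2
        nlinarith [sq_nonneg u]
    _ = _ := by ring

lemma e_diff (a b : ℝ) : ‖e a - e b‖ ≤ 2 * Real.pi * |a - b| := by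
  have h1 : e a - e b = e b * (e (a - b) - 1) := by
    rw [mul_sub, mul_one, ← e_add]
    congr 2
    ring
  rw [h1, norm_mul, e_norm, one_mul]
  have h2 := Real.norm_exp_I_mul_ofReal_sub_one_le (x := 2 * Real.pi * (a - b))
  have h3 : e (a - b) = Complex.exp (Complex.I * ((2 * Real.pi * (a - b) : ℝ) : ℂ)) := by
    unfold e
    congr 1
    push_cast
    ring
  rw [h3]
  refine h2.trans (le_of_eq ?_)
  rw [Real.norm_eq_abs, abs_mul, abs_of_pos (by positivity : (0 : ℝ) < 2 * Real.pi)]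

/-! ## sums over the lattice -/

lemma qv {A : Matrix ι ι ℝ} (hA : A.det ≠ 0) (y : EuclideanSpace ℝ ι) (z : ι → ℤ) :
    q A (cz z - A⁻¹ *ᵥ y.ofLp) = ‖vc A z - y‖ ^ 2 := by
  have hu : IsUnit A.det := isUnit_iff_ne_zero.2 hA
  rw [EuclideanSpace.norm_sq_eq]
  unfold q vc
  refine sum_congr rfl fun i _ => ?_
  rw [Matrix.mulVec_sub, Matrix.mulVec_mulVec, Matrix.mul_nonsing_inv _ hu, Matrix.one_mulVec]
  simp

lemma gsv {A : Matrix ι ι ℝ} (hA : A.det ≠ 0) (t : ℝ) (y : EuclideanSpace ℝ ι) (z : ι → ℤ) :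
    gs (t • A) (A⁻¹ *ᵥ y.ofLp) z = Real.exp (-(Real.pi * t ^ 2 * ‖vc A z - y‖ ^ 2)) := by
  unfold gs
  rw [q_smul, qv hA]
  congr 2
  ring

lemma sumW {A : Matrix ι ι ℝ} (hA : A.det ≠ 0) {b : ℝ} (hb : 0 < b) (y : EuclideanSpace ℝ ι) :
    Summable (fun z : ι → ℤ => Real.exp (-(b * ‖vc A z - y‖ ^ 2))) ∧ ∀ B, CB B A →
    ∑' z : ι → ℤ, Real.exp (-(b * ‖vc A z - y‖ ^ 2)) ≤
      B * (1 + Mv A * √(Real.pi / b) ^ Fintype.card ι) := by
  set t := √(b / Real.pi) with ht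
  have ht0 : 0 < t := by positivity
  have ht2 : Real.pi * t ^ 2 = b := by
    rw [ht, Real.sq_sqrt (by positivity)]
    have := Real.pi_ne_zero
    field_simp
  have h1 : ∀ z, gs (t • A) (A⁻¹ *ᵥ y.ofLp) z = Real.exp (-(b * ‖vc A z - y‖ ^ 2)) := by
    intro z
    rw [gsv hA, ht2]
  have h2 := gs_summable (smul_det_ne ht0.ne' hA) (A⁻¹ *ᵥ y.ofLp)
  refine ⟨h2.congr h1, fun B hB => ?_⟩
  have h3 := hB t ht0 (A⁻¹ *ᵥ y.ofLp)
  simp_rw [h1] at h3
  refine h3.trans (le_of_eq ?_)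
  rw [Mv_smul ht0, div_eq_mul_inv, ← inv_pow]
  congr 4
  rw [ht, ← Real.sqrt_inv, inv_div]

/-- Poisson summation -/
lemma pois9 {A : Matrix ι ι ℝ} (hA : A.det ≠ 0) {r : ℝ} (hr : 0 < r) (y g : EuclideanSpace ℝ ι) :
    ‖∑' z : ι → ℤ, ((gam r (vc A z - y) : ℝ) : ℂ) * e ⟪g, vc A z - y⟫‖ ≤
      Mv A * ∑' ζ : ι → ℤ, Real.exp (-(Real.pi * r ^ 2 * ‖vc (du A) ζ - g‖ ^ 2)) := by
  have hu : IsUnit A.det := isUnit_iff_ne_zero.2 hA
  have hri : (r⁻¹ : ℝ) ≠ 0 := by positivity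
  have hA0 := smul_det_ne hri hA
  have h1 := gs_poisson hA0 (A⁻¹ *ᵥ y.ofLp) (Aᵀ *ᵥ g.ofLp)
  -- the left side
  have h2 : ∀ z : ι → ℤ, ((gam r (vc A z - y) : ℝ) : ℂ) * e ⟪g, vc A z - y⟫ =
      ((((r ^ Fintype.card ι)⁻¹ : ℝ) : ℂ) * e (-⟪g, y⟫)) *
        ((gs (r⁻¹ • A) (A⁻¹ *ᵥ y.ofLp) z : ℂ) * e (∑ i, (Aᵀ *ᵥ g.ofLp) i * z i)) := by
    intro z
    have e1 : e ⟪g, vc A z - y⟫ = e (∑ i, (Aᵀ *ᵥ g.ofLp) i * z i) * e (-⟪g, y⟫) := by
      have e2 := vc_inner A z g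
      unfold ee at e2
      rw [inner_sub_right, sub_eq_add_neg, e_add, e2]
    have e3 : gam r (vc A z - y) = (r ^ Fintype.card ι)⁻¹ * gs (r⁻¹ • A) (A⁻¹ *ᵥ y.ofLp) z := by
      rw [gsv hA]
      unfold gam
      congr 3
      rw [inv_pow]; ring
    rw [e1, e3]
    push_cast
    ring
  simp_rw [h2]
  rw [tsum_mul_left, h1, norm_mul, norm_mul, norm_mul, e_norm, mul_one, Complex.norm_real,
    Complex.norm_real, Real.norm_of_nonneg (by positivity), Real.norm_of_nonneg (by positivity)]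
  have hdu : du (r⁻¹ • A) = r • du A := by rw [du_smul hri hA, inv_inv]
  have hduA := du_det_ne hA
  have h3 : ∀ ζ : ι → ℤ, gs (du (r⁻¹ • A)) (Aᵀ *ᵥ g.ofLp) ζ =
      Real.exp (-(Real.pi * r ^ 2 * ‖vc (du A) ζ - g‖ ^ 2)) := by
    intro ζ
    rw [hdu, ← gsv hduA]
    congr 1
    have e4 : (du A)⁻¹ = Aᵀ := by
      unfold du
      rw [← Matrix.transpose_nonsing_inv, Matrix.nonsing_inv_nonsing_inv _ hu]
    rw [e4]
  have h4 := norm_gs_sum_le (du_det_ne hA0) (Aᵀ *ᵥ g.ofLp)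
    (F := fun ζ => e (∑ i, (A⁻¹ *ᵥ y.ofLp) i * ((Aᵀ *ᵥ g.ofLp) i - ζ i))) (b := 1)
    (fun z => by rw [e_norm])
  have h5 : |(r⁻¹ • A).det|⁻¹ = Mv A * r ^ Fintype.card ι := by
    have := Mv_smul (inv_pos.2 hr) A
    unfold Mv at this ⊢
    rw [this, inv_pow, div_inv_eq_mul]
  rw [h5]
  have h6 : (r ^ Fintype.card ι)⁻¹ * (Mv A * r ^ Fintype.card ι *
      ‖∑' ζ : ι → ℤ, (gs (du (r⁻¹ • A)) (Aᵀ *ᵥ g.ofLp) ζ : ℂ) *
        e (∑ i, (A⁻¹ *ᵥ y.ofLp) i * ((Aᵀ *ᵥ g.ofLp) i - ζ i))‖) =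
      Mv A * ‖∑' ζ : ι → ℤ, (gs (du (r⁻¹ • A)) (Aᵀ *ᵥ g.ofLp) ζ : ℂ) *
        e (∑ i, (A⁻¹ *ᵥ y.ofLp) i * ((Aᵀ *ᵥ g.ofLp) i - ζ i))‖ := by
    field_simp
  rw [h6]
  refine mul_le_mul_of_nonneg_left ?_ (Mv_pos hA).le
  refine h4.2.trans (le_of_eq ?_)
  rw [one_mul]
  exact tsum_congr h3

/-! ## the data -/

/-- the hypotheses on the weight and on the phase -/
structure Dat (R0 ρ1 L D : ℝ) (f : EuclideanSpace ℝ ι → ℂ) (P : EuclideanSpace ℝ ι → ℝ)
    (g : EuclideanSpace ℝ ι → EuclideanSpace ℝ ι) : Prop where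
  mP : Measurable P
  mg : Measurable g
  f1 : ∀ x, ‖f x‖ ≤ 1
  f0 : ∀ x, R0 < ‖x‖ → f x = 0
  lf : ∀ x y, ‖f x - f y‖ ≤ L * ‖x - y‖
  ph : ∀ y x, f y ≠ 0 → ‖x - y‖ ≤ ρ1 → |P x - P y - ⟪g y, x - y⟫| ≤ D * ‖x - y‖ ^ 2

/-- the linearised term -/
noncomputable def kk (f : EuclideanSpace ℝ ι → ℂ) (P : EuclideanSpace ℝ ι → ℝ)
    (g : EuclideanSpace ℝ ι → EuclideanSpace ℝ ι) (r : ℝ) (v y : EuclideanSpace ℝ ι) : ℂ :=
  f y * e (P y) * (((gam r (v - y) : ℝ) : ℂ) * e ⟪g y, v - y⟫)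

section data

variable {R0 ρ1 L D : ℝ} {f : EuclideanSpace ℝ ι → ℂ} {P : EuclideanSpace ℝ ι → ℝ}
  {g : EuclideanSpace ℝ ι → EuclideanSpace ℝ ι}

lemma kk_norm {r : ℝ} (hr : 0 < r) (v y : EuclideanSpace ℝ ι) :
    ‖kk f P g r v y‖ = ‖f y‖ * gam r (v - y) := by
  unfold kk
  rw [norm_mul, norm_mul, norm_mul, e_norm, e_norm, mul_one, mul_one, Complex.norm_real,
    Real.norm_of_nonneg (gam_nonneg hr _)]

lemma Dat.cont (H : Dat R0 ρ1 L D f P g) (hL : 0 ≤ L) : Continuous f := by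
  have : LipschitzWith ⟨L, hL⟩ f := LipschitzWith.of_dist_le_mul fun x y => by
    rw [dist_eq_norm, dist_eq_norm]
    exact H.lf x y
  exact this.continuous

lemma Dat.fle (H : Dat R0 ρ1 L D f P g) (v : EuclideanSpace ℝ ι) {t : ℝ} (ht : t ≤ 1) :
    ‖f v‖ ≤ Real.exp (R0 ^ 2) * Real.exp (-(t * ‖v‖ ^ 2)) := by
  rcases lt_or_ge R0 ‖v‖ with h | h
  · rw [H.f0 v h, norm_zero]
    positivity
  · refine (H.f1 v).trans ?_
    rw [← Real.exp_add]
    apply Real.one_le_exp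
    have h1 : ‖v‖ ^ 2 ≤ R0 ^ 2 := by gcongr
    nlinarith [sq_nonneg ‖v‖]

lemma kk_meas (H : Dat R0 ρ1 L D f P g) (hL : 0 ≤ L) (r : ℝ) (v : EuclideanSpace ℝ ι) :
    Measurable (kk f P g r v) := by
  have h1 : Measurable f := (H.cont hL).measurable
  have h2 : Measurable fun y => e (P y) := e_continuous.measurable.comp H.mP
  have h3 : Measurable fun y : EuclideanSpace ℝ ι => ((gam r (v - y) : ℝ) : ℂ) :=
    (Complex.continuous_ofReal.comp ((gam_cont r).comp (continuous_const.sub continuous_id))).measurable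
  have h4 : Measurable fun y : EuclideanSpace ℝ ι => e ⟪g y, v - y⟫ :=
    e_continuous.measurable.comp (Measurable.inner H.mg (measurable_const.sub measurable_id))
  exact (h1.mul h2).mul (h3.mul h4)

lemma gam_sub_int {r : ℝ} (hr : 0 < r) (v : EuclideanSpace ℝ ι) :
    Integrable (fun y : EuclideanSpace ℝ ι => gam r (v - y)) ∧
    ∫ y : EuclideanSpace ℝ ι, gam r (v - y) = 1 := by
  obtain ⟨h1, h2⟩ := gam_int (ι := ι) hr
  refine ⟨h1.comp_sub_left v, ?_⟩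
  rw [integral_sub_left_eq_self (fun y => gam r y)]
  exact h2

lemma eta_sub_int {r : ℝ} (hr : 0 < r) (v : EuclideanSpace ℝ ι) :
    Integrable (fun y : EuclideanSpace ℝ ι => eta r (v - y)) ∧
    ∫ y : EuclideanSpace ℝ ι, eta r (v - y) = √Real.pi ^ Fintype.card ι := by
  obtain ⟨h1, h2⟩ := eta_int (ι := ι) hr
  refine ⟨h1.comp_sub_left v, ?_⟩
  rw [integral_sub_left_eq_self (fun y => eta r y)]
  exact h2

lemma kk_int (H : Dat R0 ρ1 L D f P g) (hL : 0 ≤ L) {r : ℝ} (hr : 0 < r)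
    (v : EuclideanSpace ℝ ι) : Integrable (kk f P g r v) := by
  refine (gam_sub_int hr v).1.mono' (kk_meas H hL r v).aestronglyMeasurable
    (Filter.Eventually.of_forall fun y => ?_)
  rw [kk_norm hr]
  exact mul_le_of_le_one_left (gam_nonneg hr _) (H.f1 y)

/-- the pointwise error -/
lemma hh_le (hL : 0 ≤ L) (hD : 0 ≤ D) (hρ1 : 0 < ρ1)
    (H : Dat R0 ρ1 L D f P g) {r : ℝ} (hr : 0 < r) (hr1 : r ≤ 1) (v y : EuclideanSpace ℝ ι) :
    ‖((gam r (v - y) : ℝ) : ℂ) * (f v * e (P v)) - kk f P g r v y‖ ≤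
      2 * Real.pi * Real.exp (R0 ^ 2) * (L * r + D * r ^ 2 + Real.exp (-(ρ1 / r) ^ 2)) *
        Real.exp (-(1 / 2 * ‖v‖ ^ 2)) * eta r (v - y) := by
  set x := v - y with hx
  have hpi := Real.pi_gt_three
  have hg0 := gam_nonneg (ι := ι) hr x
  have he0 := eta_nonneg (ι := ι) hr x
  have hE : 0 < Real.exp (-(ρ1 / r) ^ 2) := Real.exp_pos _
  have g1 := gam_one hr hr1 x
  rcases lt_or_ge R0 ‖v‖ with hv | hv
  · have hfv := H.f0 v hv
    have e1 : ‖((gam r x : ℝ) : ℂ) * (f v * e (P v)) - kk f P g r v y‖ = ‖f y‖ * gam r x := by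
      rw [hfv, zero_mul, mul_zero, zero_sub, norm_neg, kk_norm hr]
    rw [e1]
    rcases lt_or_ge R0 ‖y‖ with hy | hy
    · rw [H.f0 y hy, norm_zero, zero_mul]
      positivity
    · have h1 : ‖f y‖ ≤ L * ‖x‖ := by
        have := H.lf v y
        rwa [hfv, zero_sub, norm_neg] at this
      have h2 : Real.exp (-‖x‖ ^ 2) ≤ Real.exp (R0 ^ 2) * Real.exp (-(1 / 2 * ‖v‖ ^ 2)) := by
        rw [← Real.exp_add]
        apply Real.exp_le_exp.2
        have h3 : ‖v‖ ≤ ‖x‖ + ‖y‖ := by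
          have : v = x + y := by rw [hx]; abel
          conv_lhs => rw [this]
          exact norm_add_le _ _
        have h4 : ‖v‖ ^ 2 ≤ (‖x‖ + ‖y‖) ^ 2 := by gcongr
        have h5 : ‖y‖ ^ 2 ≤ R0 ^ 2 := by gcongr
        nlinarith [sq_nonneg (‖x‖ - ‖y‖)]
      calc ‖f y‖ * gam r x ≤ L * ‖x‖ * gam r x := mul_le_mul_of_nonneg_right h1 hg0
        _ = L * (gam r x * ‖x‖) := by ring
        _ ≤ L * (r * eta r x * Real.exp (-‖x‖ ^ 2)) := mul_le_mul_of_nonneg_left g1 hL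
        _ ≤ L * (r * eta r x * (Real.exp (R0 ^ 2) * Real.exp (-(1 / 2 * ‖v‖ ^ 2)))) := by
            gcongr
        _ = 1 * Real.exp (R0 ^ 2) * (L * r) * Real.exp (-(1 / 2 * ‖v‖ ^ 2)) * eta r x := by ring
        _ ≤ _ := by
            gcongr
            · linarith
            · nlinarith [mul_nonneg hD (sq_nonneg r)]
  · have e1 : ((gam r x : ℝ) : ℂ) * (f v * e (P v)) - kk f P g r v y =
        ((gam r x : ℝ) : ℂ) * ((f v - f y) * e (P v)) +
        ((gam r x : ℝ) : ℂ) * (f y * (e (P v) - e (P y + ⟪g y, x⟫))) := by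
      unfold kk
      rw [e_add]
      ring
    have h1 : ‖((gam r x : ℝ) : ℂ) * ((f v - f y) * e (P v))‖ ≤ L * r * eta r x := by
      rw [norm_mul, norm_mul, e_norm, mul_one, Complex.norm_real, Real.norm_of_nonneg hg0]
      calc gam r x * ‖f v - f y‖ ≤ gam r x * (L * ‖x‖) :=
            mul_le_mul_of_nonneg_left (H.lf v y) hg0
        _ = L * (gam r x * ‖x‖) := by ring
        _ ≤ L * (r * eta r x * Real.exp (-‖x‖ ^ 2)) := mul_le_mul_of_nonneg_left g1 hL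
        _ ≤ L * (r * eta r x * 1) := by
            gcongr
            apply Real.exp_le_one_iff.2
            nlinarith [sq_nonneg ‖x‖]
        _ = _ := by ring
    have h2 : ‖((gam r x : ℝ) : ℂ) * (f y * (e (P v) - e (P y + ⟪g y, x⟫)))‖ ≤
        2 * Real.pi * (D * r ^ 2 + Real.exp (-(ρ1 / r) ^ 2)) * eta r x := by
      by_cases hfy : f y = 0
      · rw [hfy, zero_mul, mul_zero, norm_zero]
        positivity
      rw [norm_mul, norm_mul, Complex.norm_real, Real.norm_of_nonneg hg0]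
      have h3 : gam r x * (‖f y‖ * ‖e (P v) - e (P y + ⟪g y, x⟫)‖) ≤
          gam r x * ‖e (P v) - e (P y + ⟪g y, x⟫)‖ := by
        refine mul_le_mul_of_nonneg_left ?_ hg0
        exact mul_le_of_le_one_left (norm_nonneg _) (H.f1 y)
      refine h3.trans ?_
      rcases le_or_gt ‖x‖ ρ1 with hxr | hxr
      · have h4 := e_diff (P v) (P y + ⟪g y, x⟫)
        have h5 := H.ph y v hfy hxr
        have h6 : ‖e (P v) - e (P y + ⟪g y, x⟫)‖ ≤ 2 * Real.pi * (D * ‖x‖ ^ 2) := by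
          refine h4.trans ?_
          refine mul_le_mul_of_nonneg_left ?_ (by positivity)
          rw [← sub_sub]
          exact h5
        calc gam r x * ‖e (P v) - e (P y + ⟪g y, x⟫)‖ ≤ gam r x * (2 * Real.pi * (D * ‖x‖ ^ 2)) :=
              mul_le_mul_of_nonneg_left h6 hg0
          _ = 2 * Real.pi * D * (gam r x * ‖x‖ ^ 2) := by ring
          _ ≤ 2 * Real.pi * D * (r ^ 2 * eta r x) :=
              mul_le_mul_of_nonneg_left (gam_two hr x) (by positivity)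
          _ = 2 * Real.pi * (D * r ^ 2) * eta r x := by ring
          _ ≤ _ := by
              gcongr
              linarith
      · have h4 : ‖e (P v) - e (P y + ⟪g y, x⟫)‖ ≤ 2 := by
          refine (norm_sub_le _ _).trans ?_
          rw [e_norm, e_norm]
          norm_num
        calc gam r x * ‖e (P v) - e (P y + ⟪g y, x⟫)‖ ≤
              (Real.exp (-(ρ1 / r) ^ 2) * eta r x) * 2 :=
              mul_le_mul (gam_three hr hρ1 hxr.le) h4 (norm_nonneg _) (by positivity)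
          _ = 2 * 1 * Real.exp (-(ρ1 / r) ^ 2) * eta r x := by ring
          _ ≤ _ := by
              gcongr
              · linarith
              · nlinarith [mul_nonneg hD (sq_nonneg r)]
    rw [e1]
    refine (norm_add_le _ _).trans ((add_le_add h1 h2).trans ?_)
    have h7 : 1 ≤ Real.exp (R0 ^ 2) * Real.exp (-(1 / 2 * ‖v‖ ^ 2)) := by
      rw [← Real.exp_add]
      apply Real.one_le_exp
      have h1 : ‖v‖ ^ 2 ≤ R0 ^ 2 := by gcongr
      nlinarith [sq_nonneg ‖v‖]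
    set Q := L * r + D * r ^ 2 + Real.exp (-(ρ1 / r) ^ 2) with hQ
    have hQ0 : 0 ≤ Q := by positivity
    have h8 : L * r ≤ 2 * Real.pi * (L * r) := by nlinarith [mul_nonneg hL hr.le]
    calc L * r * eta r x + 2 * Real.pi * (D * r ^ 2 + Real.exp (-(ρ1 / r) ^ 2)) * eta r x ≤
        2 * Real.pi * (L * r) * eta r x +
          2 * Real.pi * (D * r ^ 2 + Real.exp (-(ρ1 / r) ^ 2)) * eta r x :=
          add_le_add (mul_le_mul_of_nonneg_right h8 he0) le_rfl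
      _ = 2 * Real.pi * Q * eta r x * 1 := by rw [hQ]; ring
      _ ≤ 2 * Real.pi * Q * eta r x * (Real.exp (R0 ^ 2) * Real.exp (-(1 / 2 * ‖v‖ ^ 2))) :=
          mul_le_mul_of_nonneg_left h7 (by positivity)
      _ = _ := by ring

/-- the integrated error -/
lemma hh_int (hL : 0 ≤ L) (hD : 0 ≤ D) (hρ1 : 0 < ρ1)
    (H : Dat R0 ρ1 L D f P g) {r : ℝ} (hr : 0 < r) (hr1 : r ≤ 1) (v : EuclideanSpace ℝ ι) :
    ‖f v * e (P v) - ∫ y, kk f P g r v y‖ ≤
      2 * Real.pi * Real.exp (R0 ^ 2) * √Real.pi ^ Fintype.card ι *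
        (L * r + D * r ^ 2 + Real.exp (-(ρ1 / r) ^ 2)) * Real.exp (-(1 / 2 * ‖v‖ ^ 2)) := by
  obtain ⟨g1, g2⟩ := gam_sub_int (ι := ι) hr v
  obtain ⟨e1, e2⟩ := eta_sub_int (ι := ι) hr v
  have h1 : f v * e (P v) = ∫ y, ((gam r (v - y) : ℝ) : ℂ) * (f v * e (P v)) := by
    rw [integral_mul_const, integral_complex_ofReal, g2]
    simp
  have g3 : Integrable (fun y => ((gam r (v - y) : ℝ) : ℂ)) := g1.ofReal
  have g4 : Integrable (fun y => ((gam r (v - y) : ℝ) : ℂ) * (f v * e (P v))) := g3.mul_const _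
  rw [h1, ← integral_sub g4 (kk_int H hL hr v)]
  refine (norm_integral_le_of_norm_le (e1.const_mul _)
    (Filter.Eventually.of_forall fun y => hh_le hL hD hρ1 H hr hr1 v y)).trans (le_of_eq ?_)
  rw [integral_const_mul, e2]
  ring

end data

/-! ## the dual sum -/

lemma CBmono {B B' : ℝ} {A : Matrix ι ι ℝ} (h : CB B A) (hB : B ≤ B') : CB B' A := by
  intro t ht c
  refine (h t ht c).trans (mul_le_mul_of_nonneg_right hB ?_)
  have : 0 ≤ Mv (t • A) := inv_nonneg.2 (abs_nonneg _)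
  linarith

/-- the separation constant -/
noncomputable def kap (B : ℝ) : ℝ := Real.exp (-(2 * Real.pi)) / (4 * B ^ 2)

lemma dual_le [Nonempty ι] {B : ℝ} (hB1 : 1 ≤ B) {A : Matrix ι ι ℝ} (hA : A.det ≠ 0) (hB : CB B A)
    {r m c1 Λ : ℝ} (hr : 0 < r) (hm : 0 < m) (hmM : m ^ Fintype.card ι = Mv A) (hrm : 1 ≤ r * m)
    (hc2 : 4 * c1 ^ 2 ≤ kap B) (hc3 : 4 * c1 ≤ kap B) (hΛ : 0 ≤ Λ)
    {g : EuclideanSpace ℝ ι} (h1 : Λ ≤ r * ‖g‖) (h2 : ‖g‖ ≤ c1 * m) :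
    ∑' ζ : ι → ℤ, Real.exp (-(Real.pi * r ^ 2 * ‖vc (du A) ζ - g‖ ^ 2)) ≤
      Real.exp (-Λ ^ 2) + B * (1 + √8 ^ Fintype.card ι) * Real.exp (-(c1 * (r * m) ^ 2)) := by
  have hpi := Real.pi_gt_three
  have hduA := du_det_ne hA
  have hduB : CB B (du A) := CB.du hA hB
  have hκ0 : 0 < kap B := by unfold kap; positivity
  -- the majorant
  obtain ⟨s1, s2⟩ := sumW hduA (b := Real.pi * r ^ 2) (by positivity) g
  obtain ⟨t1, t2⟩ := sumW hduA (b := Real.pi * r ^ 2 / 8) (by positivity) (0 : EuclideanSpace ℝ ι)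
  have t3 := t2 B hduB
  have e1 : √(Real.pi / (Real.pi * r ^ 2 / 8)) = √8 / r := by
    have : Real.pi / (Real.pi * r ^ 2 / 8) = 8 / r ^ 2 := by
      have := Real.pi_ne_zero
      field_simp
    rw [this, Real.sqrt_div (by norm_num), Real.sqrt_sq hr.le]
  have e2 : Mv (du A) * (√8 / r) ^ Fintype.card ι ≤ √8 ^ Fintype.card ι := by
    rw [Mv_du, ← hmM, div_pow, ← div_eq_inv_mul, div_div, ← mul_pow]
    exact div_le_self (by positivity) (one_le_pow₀ hrm)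
  have t4 : ∑' ζ : ι → ℤ, Real.exp (-(Real.pi * r ^ 2 / 8 * ‖vc (du A) ζ - 0‖ ^ 2)) ≤
      B * (1 + √8 ^ Fintype.card ι) := by
    refine t3.trans ?_
    rw [e1]
    exact mul_le_mul_of_nonneg_left (by linarith) (by linarith)
  have hmi : 0 < m⁻¹ := inv_pos.2 hm
  have hmi2 : m⁻¹ ^ Fintype.card ι = Mv (du A) := by rw [inv_pow, hmM, Mv_du]
  -- the terms
  have hterm : ∀ ζ : ι → ℤ, Real.exp (-(Real.pi * r ^ 2 * ‖vc (du A) ζ - g‖ ^ 2)) ≤
      (if ζ = 0 then Real.exp (-Λ ^ 2) else 0) + Real.exp (-(c1 * (r * m) ^ 2)) *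
        Real.exp (-(Real.pi * r ^ 2 / 8 * ‖vc (du A) ζ - 0‖ ^ 2)) := by
    intro ζ
    split_ifs with h0
    · have h3 : vc (du A) ζ = 0 := by
        rw [h0]
        have h4 := vc_norm (du A) (0 : ι → ℤ)
        have h5 : cz (0 : ι → ℤ) = 0 := by funext i; simp [cz]
        have h6 : q (du A) (0 : ι → ℝ) = 0 := by unfold q; simp
        rw [h5, h6] at h4
        exact norm_eq_zero.1 (pow_eq_zero_iff (two_ne_zero)|>.1 h4)
      rw [h3, zero_sub, norm_neg]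
      have h4 : Real.exp (-(Real.pi * r ^ 2 * ‖g‖ ^ 2)) ≤ Real.exp (-Λ ^ 2) := by
        apply Real.exp_le_exp.2
        have h5 : Λ ^ 2 ≤ (r * ‖g‖) ^ 2 := by gcongr
        nlinarith [sq_nonneg (r * ‖g‖)]
      have h5 : 0 ≤ Real.exp (-(c1 * (r * m) ^ 2)) *
        Real.exp (-(Real.pi * r ^ 2 / 8 * ‖(0 : EuclideanSpace ℝ ι) - 0‖ ^ 2)) := by positivity
      linarith
    · rw [zero_add, sub_zero, ← Real.exp_add]
      apply Real.exp_le_exp.2
      set w := vc (du A) ζ with hw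
      have h3 := sep hduA hduB h0 hmi hmi2
      rw [← vc_norm, ← hw] at h3
      have h4 : kap B * m ^ 2 ≤ ‖w‖ ^ 2 := by
        refine le_trans (le_of_eq ?_) h3
        unfold kap
        rw [inv_pow, div_inv_eq_mul]
      have h5 : ‖g‖ ≤ ‖w‖ / 2 := by
        refine h2.trans ?_
        refine le_of_sq_le_sq ?_ (by positivity)
        nlinarith [sq_nonneg m]
      have h6 : ‖w‖ / 2 ≤ ‖w - g‖ := by
        have := norm_sub_norm_le w g
        linarith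
      have h7 : ‖w‖ ^ 2 / 4 ≤ ‖w - g‖ ^ 2 := by
        have : (‖w‖ / 2) ^ 2 ≤ ‖w - g‖ ^ 2 := by gcongr
        nlinarith
      have h8 : c1 * (r * m) ^ 2 ≤ Real.pi * r ^ 2 / 8 * ‖w‖ ^ 2 := by
        have h9 : r ^ 2 * (4 * c1 * m ^ 2) ≤ r ^ 2 * ‖w‖ ^ 2 := by
          refine mul_le_mul_of_nonneg_left ?_ (by positivity)
          exact (mul_le_mul_of_nonneg_right hc3 (by positivity)).trans h4
        have h10 : 0 ≤ r ^ 2 * ‖w‖ ^ 2 := by positivity
        nlinarith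
      have h9 : Real.pi * r ^ 2 * (‖w‖ ^ 2 / 4) ≤ Real.pi * r ^ 2 * ‖w - g‖ ^ 2 :=
        mul_le_mul_of_nonneg_left h7 (by positivity)
      nlinarith
  have hs0 : HasSum (fun ζ : ι → ℤ => if ζ = 0 then Real.exp (-Λ ^ 2) else 0) (Real.exp (-Λ ^ 2)) :=
    hasSum_ite_eq 0 _
  have hs2 := hs0.add (t1.hasSum.mul_left (Real.exp (-(c1 * (r * m) ^ 2))))
  refine (s1.tsum_le_tsum hterm hs2.summable).trans ?_
  rw [hs2.tsum_eq]
  have : Real.exp (-(c1 * (r * m) ^ 2)) *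
      ∑' ζ : ι → ℤ, Real.exp (-(Real.pi * r ^ 2 / 8 * ‖vc (du A) ζ - 0‖ ^ 2)) ≤
      Real.exp (-(c1 * (r * m) ^ 2)) * (B * (1 + √8 ^ Fintype.card ι)) :=
    mul_le_mul_of_nonneg_left t4 (Real.exp_pos _).le
  linarith

/-! ## the window lemma -/

theorem window0 [Nonempty ι] (B R0 ρ1 : ℝ) (hρ1 : 0 < ρ1) : ∃ C c1 : ℝ, 0 < C ∧ 0 < c1 ∧
    ∀ A : Matrix ι ι ℝ, A.det ≠ 0 → CB B A → ∀ (f : EuclideanSpace ℝ ι → ℂ)
    (P : EuclideanSpace ℝ ι → ℝ) (g : EuclideanSpace ℝ ι → EuclideanSpace ℝ ι) (L D r Λ : ℝ),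
    1 ≤ Mv A → 0 < r → r ≤ 1 → 0 ≤ L → 0 ≤ D → 0 ≤ Λ → Dat R0 ρ1 L D f P g →
    (∀ y, f y ≠ 0 → Λ ≤ r * ‖g y‖ ∧ ‖g y‖ ≤ c1 * Mv A ^ ((Fintype.card ι : ℝ)⁻¹)) →
    ‖∑' z : ι → ℤ, f (vc A z) * e (P (vc A z))‖ ≤ C * Mv A * (L * r + D * r ^ 2 +
      Real.exp (-(ρ1 / r) ^ 2) + Real.exp (-Λ ^ 2) +
      Real.exp (-(c1 * (r * Mv A ^ ((Fintype.card ι : ℝ)⁻¹)) ^ 2))) := by
  set n := Fintype.card ι with hn
  set B1 := max B 1 with hB1
  have hB11 : 1 ≤ B1 := le_max_right _ _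
  have hκ0 : 0 < kap B1 := by unfold kap; positivity
  set c1 := min (√(kap B1) / 2) (kap B1 / 4) with hc1
  have hc10 : 0 < c1 := lt_min (by positivity) (by positivity)
  have hc2 : 4 * c1 ^ 2 ≤ kap B1 := by
    have h1 : c1 ≤ √(kap B1) / 2 := min_le_left _ _
    have h2 : c1 ^ 2 ≤ (√(kap B1) / 2) ^ 2 := by gcongr
    rw [div_pow, Real.sq_sqrt hκ0.le] at h2
    linarith
  have hc3 : 4 * c1 ≤ kap B1 := by
    have h1 : c1 ≤ kap B1 / 4 := min_le_right _ _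
    linarith
  set CW := B1 * (1 + √(2 * Real.pi) ^ n) with hCW
  have hCW0 : 0 < CW := by positivity
  set C3 := 2 * Real.pi * Real.exp (R0 ^ 2) * √Real.pi ^ n with hC3
  have hC30 : 0 < C3 := by positivity
  set C8 := B1 * (1 + √8 ^ n) with hC8
  have hC80 : 0 < C8 := by positivity
  set Cf := Real.exp (R0 ^ 2) * √Real.pi ^ n with hCf
  have hCf0 : 0 < Cf := by positivity
  refine ⟨CW * C3 + (1 + C8) * Cf + Real.exp (R0 ^ 2) * CW * Real.exp c1, c1, by positivity, hc10,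
    ?_⟩
  intro A hA hCB f P g L D r Λ hM hr hr1 hL hD hΛ H hg
  have hCB1 : CB B1 A := CBmono hCB (le_max_left _ _)
  set M := Mv A with hMdef
  have hM0 : 0 < M := by linarith
  set m := M ^ ((n : ℝ)⁻¹) with hm
  have hm0 : 0 < m := by positivity
  have hn0 : n ≠ 0 := Fintype.card_ne_zero
  have hmM : m ^ n = M := by
    rw [hm, ← Real.rpow_natCast, ← Real.rpow_mul hM0.le, inv_mul_cancel₀ (by exact_mod_cast hn0),
      Real.rpow_one]
  -- the sum of the weights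
  obtain ⟨w1, w2⟩ := sumW hA (b := 1 / 2) (by norm_num) (0 : EuclideanSpace ℝ ι)
  simp only [sub_zero] at w1 w2
  have w3 : ∑' z : ι → ℤ, Real.exp (-(1 / 2 * ‖vc A z‖ ^ 2)) ≤ CW * M := by
    refine (w2 B1 hCB1).trans ?_
    have : Real.pi / (1 / 2) = 2 * Real.pi := by ring
    rw [this, hCW, mul_assoc]
    refine mul_le_mul_of_nonneg_left ?_ (by positivity)
    have : 0 ≤ √(2 * Real.pi) ^ n := by positivity
    nlinarith
  set T := ∑' z : ι → ℤ, Real.exp (-(1 / 2 * ‖vc A z‖ ^ 2)) with hT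
  have hT0 : 0 ≤ T := tsum_nonneg fun z => (Real.exp_pos _).le
  have hFle : ∀ z : ι → ℤ, ‖f (vc A z) * e (P (vc A z))‖ ≤
      Real.exp (R0 ^ 2) * Real.exp (-(1 / 2 * ‖vc A z‖ ^ 2)) := by
    intro z
    rw [norm_mul, e_norm, mul_one]
    exact H.fle _ (by norm_num)
  set Q := L * r + D * r ^ 2 + Real.exp (-(ρ1 / r) ^ 2) with hQ
  have hQ0 : 0 ≤ Q := by positivity
  have hEΛ : 0 < Real.exp (-Λ ^ 2) := Real.exp_pos _
  have hEc : 0 < Real.exp (-(c1 * (r * m) ^ 2)) := Real.exp_pos _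
  rcases lt_or_ge (r * m) 1 with hrm | hrm
  · -- the trivial bound
    have h1 : ‖∑' z : ι → ℤ, f (vc A z) * e (P (vc A z))‖ ≤ Real.exp (R0 ^ 2) * T :=
      tsum_of_norm_bounded (w1.hasSum.mul_left _) hFle
    have h2 : Real.exp (-c1) ≤ Real.exp (-(c1 * (r * m) ^ 2)) := by
      apply Real.exp_le_exp.2
      have : (r * m) ^ 2 ≤ 1 := pow_le_one₀ (by positivity) hrm.le
      nlinarith
    calc _ ≤ Real.exp (R0 ^ 2) * T := h1
      _ ≤ Real.exp (R0 ^ 2) * (CW * M) := mul_le_mul_of_nonneg_left w3 (Real.exp_pos _).le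
      _ = Real.exp (R0 ^ 2) * CW * Real.exp c1 * M * Real.exp (-c1) := by
          rw [Real.exp_neg]
          have := Real.exp_pos c1
          field_simp
      _ ≤ Real.exp (R0 ^ 2) * CW * Real.exp c1 * M * (Q + Real.exp (-Λ ^ 2) +
            Real.exp (-(c1 * (r * m) ^ 2))) := by
          refine mul_le_mul_of_nonneg_left ?_ (by positivity)
          linarith
      _ ≤ _ := by
          refine mul_le_mul_of_nonneg_right ?_ (by positivity)
          refine mul_le_mul_of_nonneg_right ?_ hM0.le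
          have : 0 ≤ CW * C3 + (1 + C8) * Cf := by positivity
          linarith
  -- the linearised sums
  have hki : ∀ z : ι → ℤ, Integrable (kk f P g r (vc A z)) := fun z => kk_int H hL hr _
  have hks : Summable fun z : ι → ℤ => ∫ y, ‖kk f P g r (vc A z) y‖ := by
    obtain ⟨x1, -⟩ := sumW hA (b := Real.pi / (4 * r ^ 2)) (by positivity)
      (0 : EuclideanSpace ℝ ι)
    simp only [sub_zero] at x1
    have h2r : 0 < √2 * r := by positivity
    obtain ⟨y1, y2⟩ := gam_sub_int (ι := ι) h2r (0 : EuclideanSpace ℝ ι)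
    refine Summable.of_nonneg_of_le (fun z => integral_nonneg fun y => norm_nonneg _)
      (fun z => ?_) (x1.mul_left (Real.exp (Real.pi * R0 ^ 2 / (2 * r ^ 2)) * √2 ^ n))
    obtain ⟨z1, z2⟩ := gam_sub_int (ι := ι) h2r (vc A z)
    have h1 : ∀ y, ‖kk f P g r (vc A z) y‖ ≤ (Real.exp (Real.pi * R0 ^ 2 / (2 * r ^ 2)) * √2 ^ n *
        Real.exp (-(Real.pi / (4 * r ^ 2) * ‖vc A z‖ ^ 2))) * gam (√2 * r) (vc A z - y) := by
      intro y
      rw [kk_norm hr]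
      rcases lt_or_ge R0 ‖y‖ with hy | hy
      · rw [H.f0 y hy, norm_zero, zero_mul]
        have := gam_nonneg (ι := ι) h2r (vc A z - y)
        positivity
      · refine (mul_le_of_le_one_left (gam_nonneg hr _) (H.f1 y)).trans ?_
        unfold gam
        have hs2 : (√2 * r) ^ 2 = 2 * r ^ 2 := by
          rw [mul_pow, Real.sq_sqrt (by norm_num)]
        rw [hs2, mul_pow √2]
        have h3 : Real.exp (-(Real.pi / r ^ 2 * ‖vc A z - y‖ ^ 2)) ≤
            Real.exp (Real.pi * R0 ^ 2 / (2 * r ^ 2)) *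
            Real.exp (-(Real.pi / (4 * r ^ 2) * ‖vc A z‖ ^ 2)) *
            Real.exp (-(Real.pi / (2 * r ^ 2) * ‖vc A z - y‖ ^ 2)) := by
          rw [← Real.exp_add, ← Real.exp_add]
          apply Real.exp_le_exp.2
          have h3 : ‖vc A z‖ ≤ ‖vc A z - y‖ + ‖y‖ := by
            have : vc A z = (vc A z - y) + y := by abel
            conv_lhs => rw [this]
            exact norm_add_le _ _
          have h4 : ‖vc A z‖ ^ 2 ≤ (‖vc A z - y‖ + ‖y‖) ^ 2 := by gcongr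
          have h5 : ‖y‖ ^ 2 ≤ R0 ^ 2 := by gcongr
          have h6 : ‖vc A z‖ ^ 2 ≤ 2 * ‖vc A z - y‖ ^ 2 + 2 * R0 ^ 2 := by
            nlinarith [sq_nonneg (‖vc A z - y‖ - ‖y‖)]
          have h7 : Real.pi / (4 * r ^ 2) * ‖vc A z‖ ^ 2 ≤
              Real.pi / (4 * r ^ 2) * (2 * ‖vc A z - y‖ ^ 2 + 2 * R0 ^ 2) :=
            mul_le_mul_of_nonneg_left h6 (by positivity)
          have h8 : Real.pi / (4 * r ^ 2) * (2 * ‖vc A z - y‖ ^ 2 + 2 * R0 ^ 2) =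
              Real.pi / (2 * r ^ 2) * ‖vc A z - y‖ ^ 2 + Real.pi * R0 ^ 2 / (2 * r ^ 2) := by
            field_simp
            ring
          have h9 : Real.pi / r ^ 2 * ‖vc A z - y‖ ^ 2 =
              Real.pi / (2 * r ^ 2) * ‖vc A z - y‖ ^ 2 +
              Real.pi / (2 * r ^ 2) * ‖vc A z - y‖ ^ 2 := by
            field_simp
            ring
          linarith
        refine (mul_le_mul_of_nonneg_left h3 (by positivity)).trans (le_of_eq ?_)
        rw [← hn, mul_inv]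
        have : 0 < √2 ^ n := by positivity
        field_simp
    calc ∫ y, ‖kk f P g r (vc A z) y‖ ≤ ∫ y, (Real.exp (Real.pi * R0 ^ 2 / (2 * r ^ 2)) * √2 ^ n *
        Real.exp (-(Real.pi / (4 * r ^ 2) * ‖vc A z‖ ^ 2))) * gam (√2 * r) (vc A z - y) :=
          integral_mono (hki z).norm (z1.const_mul _) h1
      _ = _ := by rw [integral_const_mul, z2, mul_one]
  have hsum := hasSum_integral_of_summable_integral_norm hki hks
  -- the difference
  have hd : ∀ z : ι → ℤ, ‖f (vc A z) * e (P (vc A z)) - ∫ y, kk f P g r (vc A z) y‖ ≤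
      C3 * Q * Real.exp (-(1 / 2 * ‖vc A z‖ ^ 2)) := fun z =>
    hh_int hL hD hρ1 H hr hr1 (vc A z)
  have hds : Summable fun z : ι → ℤ => f (vc A z) * e (P (vc A z)) - ∫ y, kk f P g r (vc A z) y :=
    Summable.of_norm_bounded (w1.mul_left _) hd
  have hd1 : ‖∑' z : ι → ℤ, (f (vc A z) * e (P (vc A z)) - ∫ y, kk f P g r (vc A z) y)‖ ≤
      C3 * Q * T := tsum_of_norm_bounded (w1.hasSum.mul_left _) hd
  have hsplit : ∑' z : ι → ℤ, f (vc A z) * e (P (vc A z)) =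
      ∑' z : ι → ℤ, (f (vc A z) * e (P (vc A z)) - ∫ y, kk f P g r (vc A z) y) +
      ∫ y, ∑' z : ι → ℤ, kk f P g r (vc A z) y := by
    rw [← hsum.tsum_eq, ← hds.tsum_add hsum.summable]
    refine tsum_congr fun z => ?_
    ring
  -- the main term
  set W := Real.exp (-Λ ^ 2) + C8 * Real.exp (-(c1 * (r * m) ^ 2)) with hW
  have hW0 : 0 ≤ W := by positivity
  have hmain : ∀ y, ‖∑' z : ι → ℤ, kk f P g r (vc A z) y‖ ≤
      M * W * Real.exp (R0 ^ 2) * Real.exp (-(1 * ‖y‖ ^ 2)) := by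
    intro y
    have h1 : ∑' z : ι → ℤ, kk f P g r (vc A z) y = f y * e (P y) *
        ∑' z : ι → ℤ, ((gam r (vc A z - y) : ℝ) : ℂ) * e ⟪g y, vc A z - y⟫ := by
      rw [← tsum_mul_left]
      rfl
    rw [h1, norm_mul, norm_mul, e_norm, mul_one]
    by_cases hfy : f y = 0
    · rw [hfy, norm_zero, zero_mul]
      positivity
    · obtain ⟨h2, h3⟩ := hg y hfy
      have h4 := pois9 hA hr y (g y)
      have h5 := dual_le hB11 hA hCB1 hr hm0 hmM hrm hc2 hc3 hΛ h2 h3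
      calc _ ≤ (Real.exp (R0 ^ 2) * Real.exp (-(1 * ‖y‖ ^ 2))) * (M * W) := by
            refine mul_le_mul (H.fle y le_rfl) ?_ (norm_nonneg _) (by positivity)
            exact h4.trans (mul_le_mul_of_nonneg_left h5 hM0.le)
        _ = _ := by ring
  obtain ⟨i1, i2⟩ := gauI (ι := ι) (b := 1) one_pos
  have hint : ‖∫ y, ∑' z : ι → ℤ, kk f P g r (vc A z) y‖ ≤ M * W * Cf := by
    refine (norm_integral_le_of_norm_le (i1.const_mul _)
      (Filter.Eventually.of_forall hmain)).trans (le_of_eq ?_)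
    rw [integral_const_mul, i2, div_one, hCf]
    ring
  rw [hsplit]
  refine (norm_add_le _ _).trans ((add_le_add hd1 hint).trans ?_)
  have k1 : C3 * Q * T ≤ C3 * Q * (CW * M) := mul_le_mul_of_nonneg_left w3 (by positivity)
  set X := Real.exp (-Λ ^ 2) with hX
  set Y := Real.exp (-(c1 * (r * m) ^ 2)) with hY
  have k2 : W ≤ (1 + C8) * (X + Y) := by
    rw [hW]
    nlinarith [mul_nonneg hC80.le hEΛ.le]
  have k3 : M * W * Cf ≤ M * ((1 + C8) * (X + Y)) * Cf := by gcongr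
  have k4 : 0 ≤ CW * C3 * M * (X + Y) := by positivity
  have k5 : 0 ≤ (1 + C8) * Cf * M * Q := by positivity
  have k6 : 0 ≤ Real.exp (R0 ^ 2) * CW * Real.exp c1 * M * (Q + X + Y) := by positivity
  nlinarith

end Pool.Agent.T2H29.TA
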