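import Pool.Agent.T2H29.TA.A2
import Pool.Agent.T2H29.TA.A9a

/-!
# The window lemma
-/

set_option autoImplicit false
set_option linter.unusedSectionVars false

namespace Pool.Agent.T2H29.TA

open Finset NumberField NumberField.InfinitePlace Module MeasureTheory
open Pool.Agent.T2H29.SW
open scoped RealInnerProductSpace ContDiff

variable (K : Type) [Field K] [NumberField K]

theorem window (B R0 ρ1 : ℝ) (hR0 : 0 < R0) (hρ1 : 0 < ρ1) : ∃ C c1 : ℝ, 0 < C ∧ 0 < c1 ∧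
    ∀ A, GB K B A → ∀ (f : EK K → ℂ) (P : EK K → ℝ) (g : EK K → EK K) (L D r Λ : ℝ),
    1 ≤ Mv A → 0 < r → r ≤ 1 → 0 ≤ L → 0 ≤ D → 0 ≤ Λ →
    Measurable P → Measurable g → (∀ x, ‖f x‖ ≤ 1) → (∀ x, R0 < ‖x‖ → f x = 0) →
    (∀ x y, ‖f x - f y‖ ≤ L * ‖x - y‖) →
    (∀ y x, f y ≠ 0 → ‖x - y‖ ≤ ρ1 → |P x - P y - ⟪g y, x - y⟫| ≤ D * ‖x - y‖ ^ 2) →
    (∀ y, f y ≠ 0 → Λ ≤ r * ‖g y‖ ∧ ‖g y‖ ≤ c1 * Mv A ^ ((dg K : ℝ)⁻¹)) →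
    ‖∑' z : Fin (dg K) → ℤ, f (vc A z) * e (P (vc A z))‖ ≤ C * Mv A * (L * r + D * r ^ 2 +
      Real.exp (-(ρ1 / r) ^ 2) + Real.exp (-Λ ^ 2) +
      Real.exp (-(c1 * (r * Mv A ^ ((dg K : ℝ)⁻¹)) ^ 2))) := by
  have hdg : 0 < dg K := finrank_pos
  haveI : Nonempty (Fin (dg K)) := ⟨⟨0, hdg⟩⟩
  obtain ⟨C, c1, hC, hc1, h⟩ := window0 (ι := Fin (dg K)) B R0 ρ1 hρ1
  rw [Fintype.card_fin] at h
  refine ⟨C, c1, hC, hc1, ?_⟩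
  intro A hA f P g L D r Λ hM hr hr1 hL hD hΛ hP hg hf1 hf0 hlf hph hgb
  have hCB : CB B A := by
    have h1 := hA.2 0
    have h2 : Ds K 0 = 1 := by
      unfold Ds
      simp
    rwa [h2, Matrix.one_mul] at h1
  exact h A hA.1 hCB f P g L D r Λ hM hr hr1 hL hD hΛ ⟨hP, hg, hf1, hf0, hlf, hph⟩ hgb

end Pool.Agent.T2H29.TA
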