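import Pool.Agent.T2H29.TA.A16
import Pool.Agent.T2H29.TA.A7
import Pool.Agent.T2H29.TA.A8
import Pool.Agent.T2H29.TA.A9
import Pool.Agent.T2H29.TA.A14f

/-!
# Good shifts
-/

set_option autoImplicit false
set_option linter.unusedSectionVars false

namespace Pool.Agent.T2H29.TA

open Finset NumberField NumberField.InfinitePlace Module MeasureTheory
open Pool.Agent.T2H29.SW
open scoped RealInnerProductSpace ContDiff

variable (K : Type) [Field K] [NumberField K]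

/-- the bound for good shifts -/
theorem good_shift (B : ℝ) {β : Bool → ℂ → ℂ} (hβ : ∀ r, CIg S0 (β r)) : ∃ C T0 : ℝ, 0 < C ∧
    1 ≤ T0 ∧ ∀ A, GB K B A → ∀ (o : InfinitePlace K → ℂ) (θ : Par (InfinitePlace K)) (v0 : EK K)
    (y : Fin (dg K) → ℤ) (T : ℝ), T0 ≤ T → Rot K o → TT K θ T → 1 ≤ Mv A →
    Mv A ≤ T ^ ((dg K : ℝ) * (1 / 2 + 1 / 1000)) →
    (∀ w, rho K T * T ^ (-(1 / 1000 : ℝ)) ≤ ‖lamK K w (vc A y)‖ ∧
      ‖lamK K w (vc A y)‖ ≤ rho K T) →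
    ‖Sy K β o θ A v0 y‖ ≤ C * T ^ ((dg K : ℝ) / 3 - 2 / 3000) := by
  obtain ⟨χ, hχ⟩ := exists_chi
  obtain ⟨c, hc, hSy⟩ := Sy_form K hβ
  obtain ⟨Cf, hf0, hCf, hhf0, hfar⟩ := far_sum K B hβ hχ (4 * dg K)
  obtain ⟨hn0, Cn, K1, hhn0, hCn, hK1, hnear⟩ := near_sum K B hβ hχ
  have hn : dg K ≠ 0 := (inferInstance : NeZero (dg K)).out
  have hn1 : (1 : ℝ) ≤ dg K := by exact_mod_cast Nat.one_le_iff_ne_zero.2 hn
  set hm : ℝ := min (min hf0 hn0) (1 / 10) with hhm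
  have hm0 : 0 < hm := lt_min (lt_min hhf0 hhn0) (by norm_num)
  obtain ⟨K2, hK2⟩ : ∃ K2 : ℝ, K2 = K1 + 1 / hm + 2 := ⟨_, rfl⟩
  have hK2p : 1 ≤ K2 := by
    have : 0 ≤ 1 / hm := by positivity
    rw [hK2]; linarith
  obtain ⟨T0, hT0d⟩ : ∃ T0 : ℝ, T0 = K2 ^ (1000 : ℝ) := ⟨_, rfl⟩
  have hT01 : 1 ≤ T0 := by
    rw [hT0d]
    exact Real.one_le_rpow hK2p (by norm_num)
  refine ⟨c * (Cn + Cf * (1 + 17 ^ dg K)), T0, by positivity, hT01, ?_⟩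
  intro A hA o θ v0 y T hT0 ho hθ hM1 hM2 hy
  have hT1 : 1 ≤ T := hT01.trans hT0
  have hT : 0 < T := by linarith
  have hKT : K2 ≤ T ^ (1 / 1000 : ℝ) := by
    have h1 : T0 ^ (1 / 1000 : ℝ) = K2 := by
      rw [hT0d, ← Real.rpow_mul (by linarith)]
      norm_num
    calc K2 = T0 ^ (1 / 1000 : ℝ) := h1.symm
      _ ≤ T ^ (1 / 1000 : ℝ) := Real.rpow_le_rpow (by linarith) hT0 (by norm_num)
  have tpos : ∀ a : ℝ, 0 < T ^ a := fun a => Real.rpow_pos_of_pos hT a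
  have tle : ∀ a b : ℝ, a ≤ b → T ^ a ≤ T ^ b := fun a b h =>
    Real.rpow_le_rpow_of_exponent_le hT1 h
  have tadd : ∀ a b : ℝ, T ^ a * T ^ b = T ^ (a + b) := fun a b => (Real.rpow_add hT a b).symm
  have tpow : ∀ (a : ℝ) (k : ℕ), (T ^ a) ^ k = T ^ (a * k) := fun a k => by
    rw [Real.rpow_mul hT.le, Real.rpow_natCast]
  have h1hm : 0 ≤ 1 / hm := by positivity
  have hdiv : 2 / 3000 / (dg K : ℝ) ≤ 2 / 3000 := div_le_self (by norm_num) hn1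
  have hdiv0 : 0 ≤ 2 / 3000 / (dg K : ℝ) := by positivity
  have hρ : rho K T ≤ hm := by
    have h1 : rho K T ≤ T ^ (-(1 / 1000 : ℝ)) := by
      unfold rho
      refine tle _ _ ?_
      linarith
    refine h1.trans ?_
    rw [Real.rpow_neg hT.le]
    refine inv_le_of_inv_le₀ hm0 ?_
    refine le_trans ?_ hKT
    rw [hK2, ← one_div]
    linarith
  have hyh : ∀ w, ‖lamK K w (vc A y)‖ ≤ hm := fun w => (hy w).2.trans hρ
  set lam : ℝ := T ^ (2 / 3 + 2 / 3000 / (dg K : ℝ)) with hlam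
  have hlam0 : 0 < lam := tpos _
  have hlamge : T ^ (2 / 3 : ℝ) ≤ lam := tle _ _ (by linarith)
  have hlamle : lam ≤ T := by
    have := tle (2 / 3 + 2 / 3000 / (dg K : ℝ)) 1 (by linarith)
    rwa [Real.rpow_one] at this
  have hsz := Cv_size K hT hlam ho hθ hy
  obtain ⟨g1, g2⟩ := hSy A o θ v0 y hA.1 ho fun w => (hyh w).trans (min_le_right _ _)
  obtain ⟨g3, g4⟩ := hnear A hA o θ v0 y T lam hT (by rw [hK2] at hKT; linarith) hlam ho hθ hM1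
    hM2 (fun w => (hyh w).trans ((min_le_left _ _).trans (min_le_right _ _))) hy
  have hMA : 0 < Mv A := by linarith
  have hδ : ∀ w, ((1 + ‖Cc (tp K w) (θ.1 w) (θ.2 w) ((starRingEnd ℂ) (o w) *
      lamK K w (vc A y))‖) ^ (4 * dg K))⁻¹ ≤ (T ^ (2 * dg K))⁻¹ := by
    intro w
    refine inv_anti₀ (by positivity) ?_
    have h1 := (hsz w).1
    set a := ‖Cc (tp K w) (θ.1 w) (θ.2 w) ((starRingEnd ℂ) (o w) * lamK K w (vc A y))‖ with ha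
    have h2 : T ^ (1 / 2 : ℝ) ≤ a := by
      refine le_trans ?_ h1
      have h3 := mul_le_mul_of_nonneg_right hlamge (tpos (-(1 / 1000 : ℝ))).le
      rw [tadd] at h3
      have h4 : T ^ (2 / 3 + -(1 / 1000) : ℝ) = T ^ (1 / 2 : ℝ) * T ^ (1 / 6 - 1 / 1000 : ℝ) := by
        rw [tadd]; norm_num
      have h5 := tle (1 / 1000) (1 / 6 - 1 / 1000) (by norm_num)
      have h6 : 2 ≤ T ^ (1 / 6 - 1 / 1000 : ℝ) := by
        rw [hK2] at hKT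
        linarith
      have h7 := mul_le_mul_of_nonneg_left h6 (tpos (1 / 2 : ℝ)).le
      rw [h4] at h3
      linarith
    have h3 : T ≤ (1 + a) ^ 2 := by
      have h4 : (T ^ (1 / 2 : ℝ)) ^ 2 ≤ a ^ 2 := pow_le_pow_left₀ (tpos _).le h2 2
      rw [tpow] at h4
      norm_num at h4
      have h5 : 0 ≤ a := (tpos _).le.trans h2
      nlinarith
    calc T ^ (2 * dg K) ≤ ((1 + a) ^ 2) ^ (2 * dg K) := pow_le_pow_left₀ hT.le h3 _
      _ = (1 + a) ^ (4 * dg K) := by rw [← pow_mul]; congr 1; ring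
  obtain ⟨g5, g6⟩ := hfar A hA o θ y (T ^ (2 * dg K))⁻¹ ho (by positivity)
    (fun w => (hyh w).trans ((min_le_left _ _).trans (min_le_left _ _))) hδ
  set I : (Fin (dg K) → ℤ) → ℂ := fun ζ => ∏ w, I1 (tp K w) (θ.1 w) (θ.2 w) (β (tp K w))
        ((starRingEnd ℂ) (o w) * lamK K w (vc A y))
        ((starRingEnd ℂ) (o w) * lamK K w (vc (du A) ζ)) with hI
  set J : (Fin (dg K) → ℤ) → ℂ := fun ζ => ∏ w,
      ((χ (Cc (tp K w) (θ.1 w) (θ.2 w) ((starRingEnd ℂ) (o w) * lamK K w (vc A y)) /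
        Zz (tp K w) ((starRingEnd ℂ) (o w) * lamK K w (vc (du A) ζ))) : ℂ) *
        I1 (tp K w) (θ.1 w) (θ.2 w) (β (tp K w))
        ((starRingEnd ℂ) (o w) * lamK K w (vc A y))
        ((starRingEnd ℂ) (o w) * lamK K w (vc (du A) ζ))) with hJ
  change Summable (fun ζ => ‖I ζ‖) at g1
  change Sy K β o θ A v0 y = (Mv A * c : ℝ) * ∑' ζ, e ⟪v0, vc (du A) ζ⟫ * I ζ at g2
  change Summable (fun ζ => e ⟪v0, vc (du A) ζ⟫ * J ζ) at g3
  change Mv A * ‖∑' ζ, e ⟪v0, vc (du A) ζ⟫ * J ζ‖ ≤ _ at g4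
  change Summable (fun ζ => ‖I ζ - J ζ‖) at g5
  change ∑' ζ, ‖I ζ - J ζ‖ ≤ _ at g6
  have hsd : Summable fun ζ => e ⟪v0, vc (du A) ζ⟫ * (I ζ - J ζ) := by
    refine Summable.of_norm ?_
    refine g5.congr fun ζ => ?_
    rw [norm_mul, e_norm, one_mul]
  have hsplit : ∑' ζ, e ⟪v0, vc (du A) ζ⟫ * I ζ = ∑' ζ, e ⟪v0, vc (du A) ζ⟫ * J ζ +
      ∑' ζ, e ⟪v0, vc (du A) ζ⟫ * (I ζ - J ζ) := by
    rw [← g3.tsum_add hsd]
    refine tsum_congr fun ζ => ?_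
    ring
  have hfarn : ‖∑' ζ, e ⟪v0, vc (du A) ζ⟫ * (I ζ - J ζ)‖ ≤ ∑' ζ, ‖I ζ - J ζ‖ := by
    have h1 : ∀ ζ, ‖e ⟪v0, vc (du A) ζ⟫ * (I ζ - J ζ)‖ = ‖I ζ - J ζ‖ := fun ζ => by
      rw [norm_mul, e_norm, one_mul]
    refine (norm_tsum_le_tsum_norm (by simpa only [h1] using g5)).trans (le_of_eq ?_)
    exact tsum_congr h1
  have hfar2 : Mv A * ‖∑' ζ, e ⟪v0, vc (du A) ζ⟫ * (I ζ - J ζ)‖ ≤ Cf * (1 + 17 ^ dg K) := by
    have h1 : 1 + Mv (du A) * ∏ w, (1 + ‖Cc (tp K w) (θ.1 w) (θ.2 w)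
        ((starRingEnd ℂ) (o w) * lamK K w (vc A y))‖) ^ mult w ≤
        (1 + 17 ^ dg K) * T ^ dg K := by
      have h2 : ∏ w, (1 + ‖Cc (tp K w) (θ.1 w) (θ.2 w)
        ((starRingEnd ℂ) (o w) * lamK K w (vc A y))‖) ^ mult w ≤ (17 * T) ^ dg K := by
        rw [← prod_pow_mult K (17 * T)]
        refine Finset.prod_le_prod (fun w _ => by positivity) fun w _ => ?_
        refine pow_le_pow_left₀ (by positivity) ?_ _
        have := (hsz w).2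
        linarith
      have h3 : Mv (du A) ≤ 1 := by
        rw [Mv_du]
        exact inv_le_one_of_one_le₀ hM1
      have h4 : 1 ≤ T ^ dg K := one_le_pow₀ hT1
      have h5 : Mv (du A) * ∏ w, (1 + ‖Cc (tp K w) (θ.1 w) (θ.2 w)
        ((starRingEnd ℂ) (o w) * lamK K w (vc A y))‖) ^ mult w ≤ 1 * (17 * T) ^ dg K :=
        mul_le_mul h3 h2 (Finset.prod_nonneg fun w _ => by positivity) zero_le_one
      rw [mul_pow] at h5
      linarith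
    have h2 : Mv A ≤ T ^ dg K := by
      refine hM2.trans ?_
      rw [← Real.rpow_natCast]
      refine tle _ _ ?_
      nlinarith
    have h3 : Mv A * ‖∑' ζ, e ⟪v0, vc (du A) ζ⟫ * (I ζ - J ζ)‖ ≤
        T ^ dg K * (Cf * (T ^ (2 * dg K))⁻¹ * ((1 + 17 ^ dg K) * T ^ dg K)) := by
      refine mul_le_mul h2 ((hfarn.trans g6).trans ?_) (norm_nonneg _) (by positivity)
      exact mul_le_mul_of_nonneg_left h1 (by positivity)
    refine h3.trans (le_of_eq ?_)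
    rw [two_mul, pow_add]
    have : T ^ dg K ≠ 0 := by positivity
    field_simp
  have hone : 1 ≤ T ^ ((dg K : ℝ) / 3 - 2 / 3000) := by
    refine Real.one_le_rpow hT1 ?_
    linarith
  rw [g2, norm_mul, Complex.norm_real, Real.norm_of_nonneg (by positivity), hsplit]
  calc Mv A * c * ‖∑' ζ, e ⟪v0, vc (du A) ζ⟫ * J ζ +
      ∑' ζ, e ⟪v0, vc (du A) ζ⟫ * (I ζ - J ζ)‖ ≤
      Mv A * c * (‖∑' ζ, e ⟪v0, vc (du A) ζ⟫ * J ζ‖ +
      ‖∑' ζ, e ⟪v0, vc (du A) ζ⟫ * (I ζ - J ζ)‖) :=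
        mul_le_mul_of_nonneg_left (norm_add_le _ _) (by positivity)
    _ = c * (Mv A * ‖∑' ζ, e ⟪v0, vc (du A) ζ⟫ * J ζ‖ +
      Mv A * ‖∑' ζ, e ⟪v0, vc (du A) ζ⟫ * (I ζ - J ζ)‖) := by ring
    _ ≤ c * (Cn * T ^ ((dg K : ℝ) / 3 - 2 / 3000) + Cf * (1 + 17 ^ dg K) * 1) := by
        refine mul_le_mul_of_nonneg_left ?_ hc.le
        linarith
    _ ≤ c * (Cn * T ^ ((dg K : ℝ) / 3 - 2 / 3000) + Cf * (1 + 17 ^ dg K) *
        T ^ ((dg K : ℝ) / 3 - 2 / 3000)) := by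
        refine mul_le_mul_of_nonneg_left ?_ hc.le
        have := mul_le_mul_of_nonneg_left hone (show 0 ≤ Cf * (1 + 17 ^ dg K) by positivity)
        linarith
    _ = _ := by ring

end Pool.Agent.T2H29.TA
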