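import Pool.Agent.T2H29.TA.A8
import Pool.Agent.T2H29.TA.A9

/-!
# Good shifts: four differencings of a lattice sum
-/

set_option autoImplicit false
set_option linter.unusedSectionVars false

namespace Pool.Agent.T2H29.TA

open Finset NumberField NumberField.InfinitePlace Module MeasureTheory
open Pool.Agent.T2H29.SW
open scoped RealInnerProductSpace ContDiff

/-- differencing of an amplitude -/
noncomputable def Dc {E : Type} [Add E] (a : E) (f : E → ℂ) (x : E) : ℂ :=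
  f (x + a) * (starRingEnd ℂ) (f x)

/-- differencing of a phase -/
noncomputable def Dr {E : Type} [Add E] (a : E) (P : E → ℝ) (x : E) : ℝ := P (x + a) - P x

/-- four differencings of an amplitude -/
noncomputable def D4c {E : Type} [Add E] (a : Fin 4 → E) (f : E → ℂ) : E → ℂ :=
  Dc (a 3) (Dc (a 2) (Dc (a 1) (Dc (a 0) f)))

/-- four differencings of a phase -/
noncomputable def D4r {E : Type} [Add E] (a : Fin 4 → E) (P : E → ℝ) : E → ℝ :=
  Dr (a 3) (Dr (a 2) (Dr (a 1) (Dr (a 0) P)))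

section
variable {E : Type} [NormedAddCommGroup E]

/-- bounded by one and Lipschitz -/
def BL (L : ℝ) (f : E → ℂ) : Prop := (∀ x, ‖f x‖ ≤ 1) ∧ ∀ x y, ‖f x - f y‖ ≤ L * ‖x - y‖

lemma BL_Dc {L : ℝ} {f : E → ℂ} (h : BL L f) (a : E) : BL (2 * L) (Dc a f) := by
  refine ⟨fun x => ?_, fun x y => ?_⟩
  · unfold Dc
    rw [norm_mul, RCLike.norm_conj]
    exact mul_le_one₀ (h.1 _) (norm_nonneg _) (h.1 _)
  · unfold Dc
    have e1 : f (x + a) * (starRingEnd ℂ) (f x) - f (y + a) * (starRingEnd ℂ) (f y) =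
        (f (x + a) - f (y + a)) * (starRingEnd ℂ) (f x) +
          f (y + a) * (starRingEnd ℂ) (f x - f y) := by
      rw [map_sub]; ring
    rw [e1]
    refine (norm_add_le _ _).trans ?_
    rw [norm_mul, norm_mul, RCLike.norm_conj, RCLike.norm_conj]
    have h1 : ‖f (x + a) - f (y + a)‖ ≤ L * ‖x - y‖ := by
      have := h.2 (x + a) (y + a)
      rwa [add_sub_add_right_eq_sub] at this
    have h2 := h.2 x y
    have h3 : ‖f (x + a) - f (y + a)‖ * ‖f x‖ ≤ ‖f (x + a) - f (y + a)‖ :=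
      mul_le_of_le_one_right (norm_nonneg _) (h.1 _)
    have h4 : ‖f (y + a)‖ * ‖f x - f y‖ ≤ ‖f x - f y‖ :=
      mul_le_of_le_one_left (norm_nonneg _) (h.1 _)
    linarith

lemma BL_D4c {L : ℝ} {f : E → ℂ} (h : BL L f) (a : Fin 4 → E) : BL (16 * L) (D4c a f) := by
  have := BL_Dc (BL_Dc (BL_Dc (BL_Dc h (a 0)) (a 1)) (a 2)) (a 3)
  have e1 : 2 * (2 * (2 * (2 * L))) = 16 * L := by ring
  rw [e1] at this
  exact this

lemma Dc_ne {f : E → ℂ} {a x : E} (h : Dc a f x ≠ 0) : f x ≠ 0 := by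
  intro h0
  apply h
  simp [Dc, h0]

lemma D4c_ne {f : E → ℂ} {a : Fin 4 → E} {x : E} (h : D4c a f x ≠ 0) : f x ≠ 0 :=
  Dc_ne (Dc_ne (Dc_ne (Dc_ne h)))

end

section
variable {n : ℕ}

/-- the terms of the lattice sum -/
noncomputable def Gt (A : Matrix (Fin n) (Fin n) ℝ) (f : EuclideanSpace ℝ (Fin n) → ℂ)
    (P : EuclideanSpace ℝ (Fin n) → ℝ) (z : Fin n → ℤ) : ℂ := f (vc A z) * e (P (vc A z))

lemma vc_add14 (A : Matrix (Fin n) (Fin n) ℝ) (z z' : Fin n → ℤ) :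
    vc A (z + z') = vc A z + vc A z' := by
  ext i
  simp only [vc, PiLp.add_apply]
  simp only [Matrix.mulVec, dotProduct, cz]
  rw [← Finset.sum_add_distrib]
  refine Finset.sum_congr rfl fun j _ => ?_
  push_cast [Pi.add_apply]
  ring

lemma DD_Gt (A : Matrix (Fin n) (Fin n) ℝ) (f : EuclideanSpace ℝ (Fin n) → ℂ)
    (P : EuclideanSpace ℝ (Fin n) → ℝ) (a : Fin n → ℤ) :
    DD a (Gt A f P) = Gt A (Dc (vc A a) f) (Dr (vc A a) P) := by
  funext z
  unfold DD Gt Dc Dr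
  rw [vc_add14, map_mul, e_conj, sub_eq_add_neg, e_add]
  ring

lemma DD_smul (a : Fin n → ℤ) (c : ℂ) (H : (Fin n → ℤ) → ℂ) :
    DD a (fun z => c * H z) = fun z => ((‖c‖ ^ 2 : ℝ) : ℂ) * DD a H z := by
  funext z
  unfold DD
  rw [map_mul]
  have : c * (starRingEnd ℂ) c = ((‖c‖ ^ 2 : ℝ) : ℂ) := by
    rw [Complex.mul_conj, Complex.normSq_eq_norm_sq]
  calc _ = c * (starRingEnd ℂ) c * (H (z + a) * (starRingEnd ℂ) (H z)) := by ring
    _ = _ := by rw [this]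

lemma DD_char (a : Fin n → ℤ) {ψ : (Fin n → ℤ) → ℂ} (h1 : ∀ z, ‖ψ z‖ = 1)
    (h2 : ∀ z z', ψ (z + z') = ψ z * ψ z') (H : (Fin n → ℤ) → ℂ) :
    DD a (fun z => ψ z * H z) = fun z => ψ a * DD a H z := by
  funext z
  unfold DD
  beta_reduce
  rw [map_mul, h2]
  have : ψ z * (starRingEnd ℂ) (ψ z) = 1 := by
    rw [Complex.mul_conj, Complex.normSq_eq_norm_sq, h1]; simp
  calc _ = ψ z * (starRingEnd ℂ) (ψ z) * (ψ a * (H (z + a) * (starRingEnd ℂ) (H z))) := by ring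
    _ = _ := by rw [this, one_mul]

lemma DD4 (A : Matrix (Fin n) (Fin n) ℝ) (f : EuclideanSpace ℝ (Fin n) → ℂ)
    (P : EuclideanSpace ℝ (Fin n) → ℝ) {ψ : (Fin n → ℤ) → ℂ} (h1 : ∀ z, ‖ψ z‖ = 1)
    (h2 : ∀ z z', ψ (z + z') = ψ z * ψ z') (a : Fin 4 → Fin n → ℤ) :
    DD (a 3) (DD (a 2) (DD (a 1) (DD (a 0) (fun z => ψ z * Gt A f P z)))) =
      Gt A (D4c (fun i => vc A (a i)) f) (D4r (fun i => vc A (a i)) P) := by
  rw [DD_char (a 0) h1 h2, DD_Gt, DD_smul, h1]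
  simp only [one_pow, Complex.ofReal_one, one_mul]
  rw [show (fun z => DD (a 1) (Gt A (Dc (vc A (a 0)) f) (Dr (vc A (a 0)) P)) z) =
    DD (a 1) (Gt A (Dc (vc A (a 0)) f) (Dr (vc A (a 0)) P)) from rfl, DD_Gt, DD_Gt, DD_Gt]
  rfl

end

end Pool.Agent.T2H29.TA
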