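import Pool.Agent.T2H29.TA.A14a

/-!
# Good shifts: the bound for a sum with four times differenced phase
-/

set_option autoImplicit false
set_option linter.unusedSectionVars false

namespace Pool.Agent.T2H29.TA

open Finset NumberField NumberField.InfinitePlace Module MeasureTheory
open Pool.Agent.T2H29.SW
open scoped RealInnerProductSpace ContDiff

lemma sum_pi_le {κ : Type} [DecidableEq κ] (X : Finset κ) (bad : κ → Prop) [DecidablePred bad]
    (S : (Fin 4 → κ) → ℝ) {G T1 : ℝ} (hG : 0 ≤ G) (hT : 0 ≤ T1)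
    (h1 : ∀ y ∈ Fintype.piFinset (fun _ : Fin 4 => X), S y ≤ T1)
    (h2 : ∀ y ∈ Fintype.piFinset (fun _ : Fin 4 => X), (∀ i, ¬ bad (y i)) → S y ≤ G) :
    ∑ y ∈ Fintype.piFinset (fun _ : Fin 4 => X), S y ≤
      (X.card : ℝ) ^ 4 * G + 4 * ((X.card : ℝ) ^ 3 * (X.filter bad).card * T1) := by
  have h3 : ∀ y ∈ Fintype.piFinset (fun _ : Fin 4 => X), S y ≤
      G + ∑ i : Fin 4, (if bad (y i) then T1 else 0) := by
    intro y hy
    by_cases hb : ∀ i, ¬ bad (y i)
    · have : ∑ i : Fin 4, (if bad (y i) then T1 else 0) = 0 := by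
        refine Finset.sum_eq_zero fun i _ => ?_
        rw [if_neg (hb i)]
      rw [this, add_zero]
      exact h2 y hy hb
    · push Not at hb
      obtain ⟨i, hi⟩ := hb
      have h4 : T1 ≤ ∑ i : Fin 4, (if bad (y i) then T1 else 0) := by
        have := Finset.single_le_sum (f := fun i : Fin 4 => (if bad (y i) then T1 else 0))
          (fun j _ => by beta_reduce; split_ifs <;> simp [hT]) (Finset.mem_univ i)
        rwa [if_pos hi] at this
      linarith [h1 y hy]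
  refine (Finset.sum_le_sum h3).trans ?_
  rw [Finset.sum_add_distrib, Finset.sum_const, Fintype.card_piFinset, nsmul_eq_mul,
    Finset.sum_comm]
  have h5 : ∀ i : Fin 4, ∑ y ∈ Fintype.piFinset (fun _ : Fin 4 => X),
      (if bad (y i) then T1 else 0) ≤ (X.card : ℝ) ^ 3 * (X.filter bad).card * T1 := by
    intro i
    rw [← Finset.sum_filter, Finset.sum_const, nsmul_eq_mul]
    refine mul_le_mul_of_nonneg_right ?_ hT
    have h6 : (Fintype.piFinset (fun _ : Fin 4 => X)).filter (fun y => bad (y i)) ⊆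
        Fintype.piFinset (Function.update (fun _ : Fin 4 => X) i (X.filter bad)) := by
      intro y hy
      rw [Finset.mem_filter, Fintype.mem_piFinset] at hy
      rw [Fintype.mem_piFinset]
      intro j
      by_cases hj : j = i
      · subst hj
        rw [Function.update_self, Finset.mem_filter]
        exact ⟨hy.1 j, hy.2⟩
      · rw [Function.update_of_ne hj]
        exact hy.1 j
    have h7 := Finset.card_le_card h6
    rw [Fintype.card_piFinset] at h7
    have h8 : ∏ j : Fin 4, (Function.update (fun _ : Fin 4 => X) i (X.filter bad) j).card =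
        X.card ^ 3 * (X.filter bad).card := by
      rw [Fin.prod_univ_four]
      fin_cases i <;> simp [Function.update] <;> first | exact Or.inl (by ring) | ring
    rw [h8] at h7
    exact_mod_cast h7
  have h9 : ∑ i : Fin 4, ∑ y ∈ Fintype.piFinset (fun _ : Fin 4 => X),
      (if bad (y i) then T1 else 0) ≤
      ∑ _i : Fin 4, (X.card : ℝ) ^ 3 * (X.filter bad).card * T1 :=
    Finset.sum_le_sum fun i _ => h5 i
  rw [Finset.sum_const, nsmul_eq_mul] at h9
  simp only [Finset.prod_const, Finset.card_univ, Fintype.card_fin, Nat.cast_pow,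
    Nat.cast_ofNat] at h9 ⊢
  linarith

lemma tsum_triv {n : ℕ} (S : Finset (Fin n → ℤ)) (G : (Fin n → ℤ) → ℂ) (h1 : ∀ z, ‖G z‖ ≤ 1)
    (h2 : ∀ z, G z ≠ 0 → z ∈ S) : ‖∑' z, G z‖ ≤ S.card := by
  rw [tsum_eq_sum (s := S) fun z hz => by
    by_contra h
    exact hz (h2 z h)]
  refine (norm_sum_le _ _).trans ?_
  refine (Finset.sum_le_sum fun z _ => h1 z).trans ?_
  simp

variable (K : Type) [Field K] [NumberField K]

lemma prod_pow_mult (t : ℝ) : ∏ w : InfinitePlace K, t ^ mult w = t ^ dg K := by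
  rw [Finset.prod_pow_eq_pow_sum, sum_mult_eq]

variable {K}

lemma mult_ge (w : InfinitePlace K) : 1 ≤ mult w := by
  unfold InfinitePlace.mult
  split_ifs <;> norm_num

/-- the number of pairs with a small difference -/
lemma bad_pairs (B : ℝ) : ∃ C : ℝ, 0 < C ∧ ∀ A, GB K B A → ∀ (l σ : ℝ), 0 < l → 0 < σ → σ ≤ 1 →
    ∀ Y : Finset (Fin (dg K) → ℤ), (∀ z ∈ Y, ∀ w, ‖lamK K w (vc A z)‖ ≤ l / 2) →
    ∀ X : Finset ((Fin (dg K) → ℤ) × (Fin (dg K) → ℤ)), X ⊆ Y ×ˢ Y →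
    (∀ p ∈ X, ∃ w, ‖lamK K w (vc A (p.1 - p.2))‖ < l * σ) →
    (X.card : ℝ) ≤ Y.card * (1 + C * (Mv A * l ^ dg K) * σ) := by
  classical
  obtain ⟨C, hC, h⟩ := cnt_ne K B
  refine ⟨Fintype.card (InfinitePlace K) * C, by positivity, ?_⟩
  intro A hA l σ hl hσ hσ1 Y hY X hX hX2
  have hMv : 0 < Mv A := Mv_pos hA.1
  set D := X.image (fun p => p.1 - p.2) with hD
  have h1 : X.card ≤ (Y ×ˢ D).card := by
    refine Finset.card_le_card_of_injOn (fun p => (p.1, p.1 - p.2)) ?_ ?_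
    · intro p hp
      have hp' : p ∈ X := hp
      have := Finset.mem_product.1 (hX hp')
      refine Finset.mem_coe.2 (Finset.mem_product.2 ⟨this.1, ?_⟩)
      exact Finset.mem_image.2 ⟨p, hp', rfl⟩
    · intro p _ q _ hpq
      simp only [Prod.mk.injEq] at hpq
      obtain ⟨h1, h2⟩ := hpq
      refine Prod.ext h1 ?_
      rw [h1] at h2
      exact sub_right_injective h2
  rw [Finset.card_product] at h1
  have h2 : D ⊆ {0} ∪ Finset.univ.biUnion (fun w : InfinitePlace K =>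
      D.filter (fun d => d ≠ 0 ∧ ‖lamK K w (vc A d)‖ < l * σ)) := by
    intro d hd
    rw [Finset.mem_union, Finset.mem_singleton, Finset.mem_biUnion]
    by_cases h0 : d = 0
    · exact Or.inl h0
    · right
      obtain ⟨p, hp, rfl⟩ := Finset.mem_image.1 hd
      obtain ⟨w, hw⟩ := hX2 p hp
      exact ⟨w, Finset.mem_univ _, Finset.mem_filter.2 ⟨hd, h0, hw⟩⟩
  have h3 : ∀ w : InfinitePlace K,
      ((D.filter (fun d => d ≠ 0 ∧ ‖lamK K w (vc A d)‖ < l * σ)).card : ℝ) ≤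
      C * (Mv A * l ^ dg K) * σ := by
    intro w
    have h4 := h A hA (fun v => if v = w then l * σ else l) (by
      intro v; beta_reduce; split_ifs <;> positivity)
      (D.filter (fun d => d ≠ 0 ∧ ‖lamK K w (vc A d)‖ < l * σ)) (by
        intro z hz
        obtain ⟨hz1, hz2, hz3⟩ := Finset.mem_filter.1 hz
        refine ⟨hz2, fun v => ?_⟩
        beta_reduce
        split_ifs with hv
        · rw [hv]; exact hz3.le
        · obtain ⟨p, hp, rfl⟩ := Finset.mem_image.1 hz1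
          have hpY := Finset.mem_product.1 (hX hp)
          have e1 : vc A p.1 = vc A (p.1 - p.2) + vc A p.2 := by
            rw [← vc_add14, sub_add_cancel]
          have e2 : lamK K v (vc A (p.1 - p.2)) = lamK K v (vc A p.1) - lamK K v (vc A p.2) := by
            rw [e1, map_add]; ring
          rw [e2]
          have h5 := hY _ hpY.1 v
          have h6 := hY _ hpY.2 v
          have h7 := norm_sub_le (lamK K v (vc A p.1)) (lamK K v (vc A p.2))
          linarith)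
    refine h4.trans ?_
    rw [mul_assoc C]
    refine mul_le_mul_of_nonneg_left ?_ hC.le
    rw [mul_assoc]
    refine mul_le_mul_of_nonneg_left ?_ hMv.le
    have e3 : ∏ v, (if v = w then l * σ else l) ^ mult v =
        l ^ dg K * σ ^ mult w := by
      rw [← prod_pow_mult K l]
      have e4 : ∀ v : InfinitePlace K, (if v = w then l * σ else l) ^ mult v =
          l ^ mult v * (if v = w then σ ^ mult w else 1) := by
        intro v
        split_ifs with hv
        · rw [hv, mul_pow]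
        · rw [mul_one]
      rw [Finset.prod_congr rfl fun v _ => e4 v, Finset.prod_mul_distrib]
      congr 1
      rw [Finset.prod_ite_eq' Finset.univ w (fun _ => σ ^ mult w), if_pos (Finset.mem_univ w)]
    rw [e3]
    refine mul_le_mul_of_nonneg_left ?_ (by positivity)
    calc σ ^ mult w ≤ σ ^ 1 := pow_le_pow_of_le_one hσ.le hσ1 (mult_ge w)
      _ = σ := pow_one σ
  have h4 : (D.card : ℝ) ≤ 1 + Fintype.card (InfinitePlace K) * (C * (Mv A * l ^ dg K) * σ) := by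
    have h5 := (Finset.card_le_card h2).trans (Finset.card_union_le _ _)
    rw [Finset.card_singleton] at h5
    have h6 := h5.trans (Nat.add_le_add_left Finset.card_biUnion_le 1)
    have h7 : (D.card : ℝ) ≤ 1 + ∑ w : InfinitePlace K,
        ((D.filter (fun d => d ≠ 0 ∧ ‖lamK K w (vc A d)‖ < l * σ)).card : ℝ) := by
      exact_mod_cast h6
    have h8 := Finset.sum_le_sum fun (w : InfinitePlace K) (_ : w ∈ Finset.univ) => h3 w
    rw [Finset.sum_const, nsmul_eq_mul, Finset.card_univ] at h8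
    linarith
  calc (X.card : ℝ) ≤ Y.card * D.card := by exact_mod_cast h1
    _ ≤ Y.card * (1 + Fintype.card (InfinitePlace K) * (C * (Mv A * l ^ dg K) * σ)) :=
      mul_le_mul_of_nonneg_left h4 (by positivity)
    _ = _ := by ring

lemma lam_le_norm (v : EK K) (w : InfinitePlace K) : ‖lamK K w v‖ ≤ ‖v‖ := lamK_norm_le K v w

/-- the error terms of the window lemma -/
noncomputable def Er (ρ1 c1 D r Λ M1 : ℝ) : ℝ := r + D * r ^ 2 + Real.exp (-(ρ1 / r) ^ 2) +
  Real.exp (-Λ ^ 2) + Real.exp (-(c1 * (r * M1) ^ 2))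

/-- the bound for a sum with four times differenced phase -/
theorem core4 (B : ℝ) {R0 ρ1 L0 : ℝ} (hR0 : 0 < R0) (hρ1 : 0 < ρ1) (hL0 : 1 ≤ L0) :
    ∃ C c1 : ℝ, 0 < C ∧ 0 < c1 ∧
    ∀ A, GB K B A → ∀ (ψ : (Fin (dg K) → ℤ) → ℂ) (f : EK K → ℂ) (P : EK K → ℝ)
    (l σ D r Λ : ℝ), 1 ≤ Mv A → 0 < l → l ≤ 1 → 0 < σ → σ ≤ 1 → 0 < r → r ≤ 1 → 0 ≤ D → 0 ≤ Λ →
    C ≤ Mv A * l ^ dg K → (∀ z, ‖ψ z‖ = 1) → (∀ z z', ψ (z + z') = ψ z * ψ z') →
    Measurable P → BL L0 f → (∀ x, R0 < ‖x‖ → f x = 0) →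
    (∀ a : Fin 4 → EK K, (∀ i w, l * σ ≤ ‖lamK K w (a i)‖ ∧ ‖lamK K w (a i)‖ ≤ l) →
      ∃ g : EK K → EK K, Measurable g ∧
      (∀ y x, f y ≠ 0 → ‖x - y‖ ≤ ρ1 →
        |D4r a P x - D4r a P y - ⟪g y, x - y⟫| ≤ D * ‖x - y‖ ^ 2) ∧
      (∀ y, f y ≠ 0 → Λ ≤ r * ‖g y‖ ∧ ‖g y‖ ≤ c1 * Mv A ^ ((dg K : ℝ)⁻¹))) →
    ‖∑' z : Fin (dg K) → ℤ, ψ z * Gt A f P z‖ ^ 16 ≤ C * Mv A ^ 16 *
      (Er ρ1 c1 D r Λ (Mv A ^ ((dg K : ℝ)⁻¹)) + σ + (Mv A * l ^ dg K)⁻¹) := by
  classical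
  obtain ⟨C2, hC2, hcle⟩ := cnt_le K B
  obtain ⟨C3, hC3, hbad⟩ := bad_pairs (K := K) B
  obtain ⟨c4, C4, hc4, hC4, hcge⟩ := cnt_ge K B
  obtain ⟨Cw, c1, hCw, hc1, hwin⟩ := window K B R0 ρ1 hR0 hρ1
  set n := dg K with hn
  have hn0 : n ≠ 0 := (inferInstance : NeZero (dg K)).out
  -- the constants
  set Z0 : ℝ := C2 * (1 + (R0 + 1) ^ n) with hZ0
  have hZ0' : 0 < Z0 := by positivity
  set Q : ℝ := 16 * L0 * Cw + 4 * Z0 * (C3 + 1) * (2 ^ n / c4) with hQ
  have hQ' : 0 < Q := by positivity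
  refine ⟨max (2 ^ n * C4) (Z0 ^ 15 * Q), c1, by positivity, hc1, ?_⟩
  intro A hA ψ f P l σ D r Λ hM hl hl1 hσ hσ1 hr hr1 hD hΛ hCM hψ1 hψ2 hP hf hfR hg
  have hM0 : 0 < Mv A := lt_of_lt_of_le one_pos hM
  have hln : 0 < l ^ n := by positivity
  -- the shifts
  have hY0 : C4 ≤ Mv A * ∏ w : InfinitePlace K, (l / 2) ^ mult w := by
    rw [prod_pow_mult, div_pow, ← mul_div_assoc, le_div_iff₀ (by positivity), mul_comm]
    exact (le_max_left _ _).trans hCM
  obtain ⟨Y, hY1, hY2⟩ := hcge A hA (fun _ => l / 2) (fun _ => by positivity) hY0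
  rw [prod_pow_mult] at hY2
  -- the support
  have hsup : ∀ z, ψ z * Gt A f P z ≠ 0 → ‖vc A z‖ ≤ R0 := by
    intro z hz
    by_contra h
    push Not at h
    apply hz
    unfold Gt
    rw [hfR _ h]
    ring
  have hfin := cnt_fin K hA.1 0 (R0 + 1)
  set Z1 := hfin.toFinset with hZ1
  have hZ1m : ∀ z, (∀ w, ‖lamK K w (vc A z)‖ ≤ R0 + 1) → z ∈ Z1 := by
    intro z hz
    rw [hZ1, Set.Finite.mem_toFinset, Set.mem_ofPred_eq]
    intro w
    rw [zero_add]
    exact hz w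
  have hZ1c : (Z1.card : ℝ) ≤ Z0 * Mv A := by
    have h1 := hcle A hA 0 (fun _ => R0 + 1) (fun _ => by positivity) Z1 (by
      intro z hz w
      rw [hZ1, Set.Finite.mem_toFinset, Set.mem_ofPred_eq] at hz
      exact hz w)
    rw [prod_pow_mult] at h1
    refine h1.trans ?_
    rw [hZ0, mul_assoc]
    refine mul_le_mul_of_nonneg_left ?_ hC2.le
    have e1 : (1 + (R0 + 1) ^ n) * Mv A = Mv A + Mv A * (R0 + 1) ^ n := by ring
    rw [e1]
    linarith
  have hH : (Function.support fun z => ψ z * Gt A f P z).Finite := by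
    refine hfin.subset fun z hz => ?_
    rw [Set.mem_ofPred_eq]
    intro w
    rw [zero_add]
    have h1 := hsup z hz
    have h2 := lam_le_norm (vc A z) w
    linarith
  have hZY : ∀ y ∈ Y, ∀ z, ψ (z + y) * Gt A f P (z + y) ≠ 0 → z ∈ Z1 := by
    intro y hy z hz
    refine hZ1m z fun w => ?_
    have h1 := hsup _ hz
    have h2 := lam_le_norm (vc A (z + y)) w
    rw [vc_add14, map_add] at h2
    have h3 := hY1 y hy w
    have h4 : lamK K w (vc A z) = (lamK K w (vc A z) + lamK K w (vc A y)) -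
      lamK K w (vc A y) := by ring
    rw [h4]
    rw [vc_add14] at h1
    have h5 := norm_sub_le (lamK K w (vc A z) + lamK K w (vc A y)) (lamK K w (vc A y))
    linarith
  have hv := vdc_four (fun z => ψ z * Gt A f P z) hH Y Z1 hZY
  -- the sums
  set bad : (Fin n → ℤ) × (Fin n → ℤ) → Prop := fun p =>
    ∃ w, ‖lamK K w (vc A (p.1 - p.2))‖ < l * σ with hbadd
  set S : (Fin 4 → (Fin n → ℤ) × (Fin n → ℤ)) → ℝ := fun y =>
    ‖∑' z, DD ((y 3).1 - (y 3).2) (DD ((y 2).1 - (y 2).2) (DD ((y 1).1 - (y 1).2)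
        (DD ((y 0).1 - (y 0).2) (fun z => ψ z * Gt A f P z)))) z‖ with hS
  have hSe : ∀ y, S y = ‖∑' z, Gt A (D4c (fun i => vc A ((y i).1 - (y i).2)) f)
      (D4r (fun i => vc A ((y i).1 - (y i).2)) P) z‖ := by
    intro y
    have := DD4 A f P hψ1 hψ2 (fun i => (y i).1 - (y i).2)
    rw [hS]
    beta_reduce
    rw [this]
  have hbl : ∀ y : Fin 4 → (Fin n → ℤ) × (Fin n → ℤ),
      BL (16 * L0) (D4c (fun i => vc A ((y i).1 - (y i).2)) f) := fun y => BL_D4c hf _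
  have hE0 : 0 ≤ Er ρ1 c1 D r Λ (Mv A ^ ((dg K : ℝ)⁻¹)) := by
    unfold Er
    positivity
  set E := Er ρ1 c1 D r Λ (Mv A ^ ((dg K : ℝ)⁻¹)) with hEd
  have hgood : ∀ y ∈ Fintype.piFinset (fun _ : Fin 4 => Y ×ˢ Y), (∀ i, ¬ bad (y i)) →
      S y ≤ 16 * L0 * Cw * Mv A * E := by
    intro y hy hb
    rw [hSe]
    obtain ⟨g, hg1, hg2, hg3⟩ := hg (fun i => vc A ((y i).1 - (y i).2)) (by
      intro i w
      constructor
      · have := hb i
        rw [hbadd] at this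
        push Not at this
        exact this w
      · have h1 := Finset.mem_product.1 (Fintype.mem_piFinset.1 hy i)
        have h2 := hY1 _ h1.1 w
        have h3 := hY1 _ h1.2 w
        have e1 : vc A (y i).1 = vc A ((y i).1 - (y i).2) + vc A (y i).2 := by
          rw [← vc_add14, sub_add_cancel]
        have e2 : lamK K w (vc A ((y i).1 - (y i).2)) =
            lamK K w (vc A (y i).1) - lamK K w (vc A (y i).2) := by
          rw [e1, map_add]; ring
        rw [e2]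
        have h4 := norm_sub_le (lamK K w (vc A (y i).1)) (lamK K w (vc A (y i).2))
        linarith)
    have h1 := hwin A hA (D4c (fun i => vc A ((y i).1 - (y i).2)) f)
      (D4r (fun i => vc A ((y i).1 - (y i).2)) P) g (16 * L0) D r Λ hM hr hr1 (by positivity)
      hD hΛ (by
        unfold D4r Dr
        fun_prop) hg1 (hbl y).1 (by
        intro x hx
        by_contra h
        exact D4c_ne h (hfR x hx)) (hbl y).2 (by
        intro y' x hy' hx
        exact hg2 y' x (D4c_ne hy') hx) (by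
        intro y' hy'
        exact hg3 y' (D4c_ne hy'))
    refine h1.trans ?_
    have h2 : 16 * L0 * r + D * r ^ 2 + Real.exp (-(ρ1 / r) ^ 2) + Real.exp (-Λ ^ 2) +
      Real.exp (-(c1 * (r * Mv A ^ ((dg K : ℝ)⁻¹)) ^ 2)) ≤ 16 * L0 * E := by
      rw [hEd]
      unfold Er
      have h3 : (1 : ℝ) ≤ 16 * L0 := by linarith
      have h4 : ∀ x : ℝ, 0 ≤ x → x ≤ 16 * L0 * x := fun x hx => le_mul_of_one_le_left hx h3
      have h5 := h4 (D * r ^ 2) (by positivity)
      have h6 := h4 _ (Real.exp_pos (-(ρ1 / r) ^ 2)).le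
      have h7 := h4 _ (Real.exp_pos (-Λ ^ 2)).le
      have h8 := h4 _ (Real.exp_pos (-(c1 * (r * Mv A ^ ((dg K : ℝ)⁻¹)) ^ 2))).le
      generalize D * r ^ 2 = x1 at *
      generalize Real.exp (-(ρ1 / r) ^ 2) = x2 at *
      generalize Real.exp (-Λ ^ 2) = x3 at *
      generalize Real.exp (-(c1 * (r * Mv A ^ ((dg K : ℝ)⁻¹)) ^ 2)) = x4 at *
      have e1 : 16 * L0 * (r + x1 + x2 + x3 + x4) = 16 * L0 * r + 16 * L0 * x1 + 16 * L0 * x2 +
        16 * L0 * x3 + 16 * L0 * x4 := by ring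
      rw [e1]
      linarith
    calc Cw * Mv A * _ ≤ Cw * Mv A * (16 * L0 * E) :=
          mul_le_mul_of_nonneg_left h2 (by positivity)
      _ = _ := by ring
  have htriv : ∀ y ∈ Fintype.piFinset (fun _ : Fin 4 => Y ×ˢ Y), S y ≤ Z0 * Mv A := by
    intro y _
    rw [hSe]
    refine (tsum_triv Z1 _ ?_ ?_).trans hZ1c
    · intro z
      unfold Gt
      rw [norm_mul, e_norm, mul_one]
      exact (hbl y).1 _
    · intro z hz
      refine hZ1m z fun w => ?_
      have h1 : f (vc A z) ≠ 0 := by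
        refine D4c_ne (a := (fun i => vc A ((y i).1 - (y i).2))) fun h => hz ?_
        unfold Gt
        rw [h, zero_mul]
      have h2 : ‖vc A z‖ ≤ R0 := by
        by_contra h
        push Not at h
        exact h1 (hfR _ h)
      have h3 := lam_le_norm (vc A z) w
      linarith
  have hsum := sum_pi_le (Y ×ˢ Y) bad S (G := 16 * L0 * Cw * Mv A * E) (T1 := Z0 * Mv A)
    (by positivity) (by positivity) htriv hgood
  have hbc := hbad A hA l σ hl hσ hσ1 Y hY1 ((Y ×ˢ Y).filter bad) (Finset.filter_subset _ _)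
    (fun p hp => (Finset.mem_filter.1 hp).2)
  rw [Finset.card_product] at hsum
  push_cast at hsum
  -- conclusion
  set y0 : ℝ := (Y.card : ℝ) with hy0
  set X16 := ‖∑' z : Fin n → ℤ, ψ z * Gt A f P z‖ ^ 16 with hX16
  have hML : 0 < Mv A * l ^ n := by positivity
  have hy0' : c4 / 2 ^ n * (Mv A * l ^ n) ≤ y0 := by
    refine le_trans (le_of_eq ?_) hY2
    rw [div_pow]; ring
  have hy0p : 0 < y0 := lt_of_lt_of_le (by positivity) hy0'
  have h1 : y0 ^ 8 * X16 ≤ (Z0 * Mv A) ^ 15 * (y0 ^ 8 * (16 * L0 * Cw * Mv A * E) +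
      4 * (y0 ^ 6 * (y0 * (1 + C3 * (Mv A * l ^ n) * σ)) * (Z0 * Mv A))) := by
    refine hv.trans ?_
    refine mul_le_mul (pow_le_pow_left₀ (by positivity) hZ1c 15) ?_
      (Finset.sum_nonneg fun _ _ => norm_nonneg _) (by positivity)
    refine hsum.trans ?_
    have e1 : (y0 * y0) ^ 4 = y0 ^ 8 := by ring
    have e2 : (y0 * y0) ^ 3 = y0 ^ 6 := by ring
    rw [e1, e2]
    have h2 : y0 ^ 6 * ((Y ×ˢ Y).filter bad).card ≤
        y0 ^ 6 * (y0 * (1 + C3 * (Mv A * l ^ n) * σ)) :=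
      mul_le_mul_of_nonneg_left hbc (by positivity)
    have h3 := mul_le_mul_of_nonneg_right h2 (show 0 ≤ Z0 * Mv A by positivity)
    linarith
  have h2 : 1 + C3 * (Mv A * l ^ n) * σ ≤
      y0 * (2 ^ n / c4 * ((C3 + 1) * (σ + (Mv A * l ^ n)⁻¹))) := by
    have h3 : c4 / 2 ^ n * (Mv A * l ^ n) * (2 ^ n / c4 * ((C3 + 1) *
        (σ + (Mv A * l ^ n)⁻¹))) ≤ y0 * (2 ^ n / c4 * ((C3 + 1) *
        (σ + (Mv A * l ^ n)⁻¹))) :=
      mul_le_mul_of_nonneg_right hy0' (by positivity)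
    refine le_trans ?_ h3
    have e1 : c4 / 2 ^ n * (Mv A * l ^ n) * (2 ^ n / c4 * ((C3 + 1) *
        (σ + (Mv A * l ^ n)⁻¹))) = (C3 + 1) * ((Mv A * l ^ n) * σ + 1) := by
      field_simp
    rw [e1]
    have h5 : 0 ≤ Mv A * l ^ n * σ := by positivity
    have e2 : (C3 + 1) * (Mv A * l ^ n * σ + 1) = 1 + C3 * (Mv A * l ^ n) * σ + C3 +
      Mv A * l ^ n * σ := by ring
    rw [e2]
    linarith
  have h3 : y0 ^ 8 * X16 ≤ y0 ^ 8 * (Z0 ^ 15 * Mv A ^ 16 * (16 * L0 * Cw * E +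
      4 * Z0 * (2 ^ n / c4 * ((C3 + 1) * (σ + (Mv A * l ^ n)⁻¹))))) := by
    refine h1.trans ?_
    have h4 : y0 ^ 6 * (y0 * (1 + C3 * (Mv A * l ^ n) * σ)) * (Z0 * Mv A) ≤
        y0 ^ 6 * (y0 * (y0 * (2 ^ n / c4 * ((C3 + 1) * (σ + (Mv A * l ^ n)⁻¹))))) *
        (Z0 * Mv A) := by
      refine mul_le_mul_of_nonneg_right ?_ (by positivity)
      refine mul_le_mul_of_nonneg_left ?_ (by positivity)
      exact mul_le_mul_of_nonneg_left h2 hy0p.le
    calc _ ≤ (Z0 * Mv A) ^ 15 * (y0 ^ 8 * (16 * L0 * Cw * Mv A * E) +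
      4 * (y0 ^ 6 * (y0 * (y0 * (2 ^ n / c4 * ((C3 + 1) * (σ + (Mv A * l ^ n)⁻¹))))) *
        (Z0 * Mv A))) := by
          refine mul_le_mul_of_nonneg_left ?_ (by positivity)
          linarith
      _ = _ := by ring
  have h4 := le_of_mul_le_mul_left h3 (by positivity)
  refine h4.trans ?_
  have h5 : Z0 ^ 15 * Mv A ^ 16 * (16 * L0 * Cw * E +
      4 * Z0 * (2 ^ n / c4 * ((C3 + 1) * (σ + (Mv A * l ^ n)⁻¹)))) ≤
      Z0 ^ 15 * Mv A ^ 16 * (Q * (E + σ + (Mv A * l ^ n)⁻¹)) := by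
    refine mul_le_mul_of_nonneg_left ?_ (by positivity)
    rw [hQ]
    have h6 : 0 ≤ 16 * L0 * Cw := by positivity
    have h7 : 0 ≤ 4 * Z0 * (C3 + 1) * (2 ^ n / c4) := by positivity
    have h8 : 0 ≤ (Mv A * l ^ n)⁻¹ := by positivity
    have h9 := mul_nonneg h6 (show 0 ≤ σ + (Mv A * l ^ n)⁻¹ by positivity)
    have h10 := mul_nonneg h7 hE0
    generalize (Mv A * l ^ n)⁻¹ = x1 at *
    have e1 : 4 * Z0 * (2 ^ n / c4 * ((C3 + 1) * (σ + x1))) =
      4 * Z0 * (C3 + 1) * (2 ^ n / c4) * (σ + x1) := by ring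
    have e2 : (16 * L0 * Cw + 4 * Z0 * (C3 + 1) * (2 ^ n / c4)) * (E + σ + x1) =
      16 * L0 * Cw * E + 4 * Z0 * (C3 + 1) * (2 ^ n / c4) * (σ + x1) +
      16 * L0 * Cw * (σ + x1) + 4 * Z0 * (C3 + 1) * (2 ^ n / c4) * E := by ring
    rw [e1, e2]
    linarith
  refine h5.trans ?_
  have h6 : Z0 ^ 15 * Q ≤ max (2 ^ n * C4) (Z0 ^ 15 * Q) := le_max_right _ _
  calc Z0 ^ 15 * Mv A ^ 16 * (Q * (E + σ + (Mv A * l ^ n)⁻¹)) =
      (Z0 ^ 15 * Q) * (Mv A ^ 16 * (E + σ + (Mv A * l ^ n)⁻¹)) := by ring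
    _ ≤ max (2 ^ n * C4) (Z0 ^ 15 * Q) * (Mv A ^ 16 * (E + σ + (Mv A * l ^ n)⁻¹)) :=
      mul_le_mul_of_nonneg_right h6 (by positivity)
    _ = _ := by ring

end Pool.Agent.T2H29.TA
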