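import Pool.Agent.T2H29.TA.A14a
import Pool.Agent.T2H29.TA.A7
import Pool.Agent.T2H29.TA.A1

/-!
# Good shifts: the phase
-/

set_option autoImplicit false
set_option linter.unusedSectionVars false

namespace Pool.Agent.T2H29.TA

open Finset NumberField NumberField.InfinitePlace Module MeasureTheory
open Pool.Agent.T2H29.SW
open scoped RealInnerProductSpace ContDiff

variable {K : Type} [Field K] [NumberField K]

/-- the argument of the phase -/
noncomputable def YY (κ : InfinitePlace K → ℂ) (w : InfinitePlace K) (x : EK K) : ℂ :=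
  κ w * (starRingEnd ℂ) (lamK K w x)

/-- phases -/
noncomputable def PF (Cw κ : InfinitePlace K → ℂ) (F : InfinitePlace K → ℂ → ℂ) (x : EK K) : ℝ :=
  (2 * Real.pi)⁻¹ * ∑ w, (Cw w * F w (YY κ w x)).re

lemma YY_add (κ : InfinitePlace K → ℂ) (w : InfinitePlace K) (x a : EK K) :
    YY κ w (x + a) = YY κ w x + YY κ w a := by
  unfold YY
  rw [map_add, map_add]; ring

lemma YY_sub (κ : InfinitePlace K → ℂ) (w : InfinitePlace K) (x a : EK K) :
    YY κ w x - YY κ w a = κ w * (starRingEnd ℂ) (lamK K w (x - a)) := by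
  unfold YY
  rw [map_sub, map_sub]; ring

lemma Dr_PF (Cw κ : InfinitePlace K → ℂ) (F : InfinitePlace K → ℂ → ℂ) (a : EK K) :
    Dr a (PF Cw κ F) = PF Cw κ (fun w => Df (YY κ w a) (F w)) := by
  funext x
  unfold Dr PF Df
  rw [← mul_sub, ← Finset.sum_sub_distrib]
  congr 1
  refine Finset.sum_congr rfl fun w _ => ?_
  rw [YY_add, mul_sub, Complex.sub_re]

lemma D4r_PF (Cw κ : InfinitePlace K → ℂ) (F : InfinitePlace K → ℂ → ℂ) (a : Fin 4 → EK K) :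
    D4r a (PF Cw κ F) = PF Cw κ (fun w => Df (YY κ w (a 3)) (Df (YY κ w (a 2))
      (Df (YY κ w (a 1)) (Df (YY κ w (a 0)) (F w))))) := by
  unfold D4r
  rw [Dr_PF, Dr_PF, Dr_PF, Dr_PF]

lemma YY_meas (κ : InfinitePlace K → ℂ) (w : InfinitePlace K) : Measurable (YY (K := K) κ w) := by
  have : Continuous (YY (K := K) κ w) := by
    unfold YY
    fun_prop
  exact this.measurable

lemma sH_meas (h : ℂ) : Measurable (sH h) := by
  unfold sH
  refine Measurable.pow_const ?_ _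
  fun_prop

lemma TH_meas (h : ℂ) : Measurable (TH h) := by
  have h1 := sH_meas h
  unfold TH
  refine Measurable.sub ?_ (measurable_id.mul h1)
  refine measurable_const.mul ?_
  exact Complex.measurable_log.comp ((h1.add_const _).div (h1.sub_const _))

lemma Df_meas {F : ℂ → ℂ} (hF : Measurable F) (a : ℂ) : Measurable (Df a F) := by
  unfold Df
  exact (hF.comp (measurable_id.add_const a)).sub hF

lemma PF_meas (Cw κ : InfinitePlace K → ℂ) {F : InfinitePlace K → ℂ → ℂ}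
    (hF : ∀ w, Measurable (F w)) : Measurable (PF Cw κ F) := by
  unfold PF
  refine measurable_const.mul (Finset.measurable_sum _ fun w _ => ?_)
  exact Complex.measurable_re.comp (measurable_const.mul ((hF w).comp (YY_meas κ w)))

/-- real on the real half line from `s` on -/
def RealOn (s : ℝ) (F : ℂ → ℂ) : Prop := ∀ y : ℂ, y.im = 0 → s < y.re → (F y).im = 0

lemma RealOn_Df {s t : ℝ} {F : ℂ → ℂ} (hF : RealOn s F) {a : ℂ} (ha : a.im = 0) (hat : ‖a‖ ≤ t) :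
    RealOn (s + t) (Df a F) := by
  intro y hy hs
  unfold Df
  have h1 : |a.re| ≤ ‖a‖ := Complex.abs_re_le_norm a
  have h2 := neg_abs_le a.re
  have h3 := norm_nonneg a
  rw [Complex.sub_im, hF (y + a) (by rw [Complex.add_im, hy, ha, add_zero]) (by
    rw [Complex.add_re]; linarith), hF y hy (by linarith), sub_zero]

lemma RealOn_sH {h : ℂ} (hh : h.im = 0) : RealOn 0 (sH h) := by
  intro y hy hs
  unfold sH
  have e1 : h = ((h.re : ℝ) : ℂ) := by apply Complex.ext <;> simp [hh]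
  have e2 : y = ((y.re : ℝ) : ℂ) := by apply Complex.ext <;> simp [hy]
  have e3 : h ^ 2 + 1 / y = ((h.re ^ 2 + 1 / y.re : ℝ) : ℂ) := by
    rw [e1, e2]
    push_cast
    simp
  have e4 : (1 / 2 : ℂ) = ((1 / 2 : ℝ) : ℂ) := by push_cast; rfl
  rw [e3, e4, ← Complex.ofReal_cpow (by positivity)]
  exact Complex.ofReal_im _

lemma Q0_re {y : ℂ} (h : 1 / y ∈ Q0) : 1 / 20 < y.re := by
  obtain ⟨h1, h2, h3⟩ := h
  have hy : y ≠ 0 := by
    rintro rfl
    simp at h1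
    linarith
  have hn : 0 < ‖y‖ := norm_pos_iff.2 hy
  rw [norm_div, norm_one] at h1 h2 h3
  have h4 : (1 / y).re = y.re / ‖y‖ ^ 2 := by
    rw [one_div, Complex.inv_re, Complex.normSq_eq_norm_sq]
  rw [h4] at h3
  rw [div_lt_iff₀ hn] at h2
  have h5 : 1 / 2 * ‖y‖ < y.re := by
    have := mul_lt_mul_of_pos_right h3 (pow_pos hn 2)
    rw [div_mul_cancel₀ _ (pow_pos hn 2).ne'] at this
    calc 1 / 2 * ‖y‖ = 1 / 2 * (1 / ‖y‖) * ‖y‖ ^ 2 := by field_simp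
      _ < _ := this
  linarith

/-- the derivative of the four times differenced phase -/
noncomputable def S4 (κ h : InfinitePlace K → ℂ) (a : Fin 4 → EK K) (w : InfinitePlace K) :
    ℂ → ℂ :=
  Df (YY κ w (a 3)) (Df (YY κ w (a 2)) (Df (YY κ w (a 1)) (Df (YY κ w (a 0)) (sH (h w)))))

/-- the four times differenced phase -/
noncomputable def T4 (κ h : InfinitePlace K → ℂ) (a : Fin 4 → EK K) (w : InfinitePlace K) :
    ℂ → ℂ :=
  Df (YY κ w (a 3)) (Df (YY κ w (a 2)) (Df (YY κ w (a 1)) (Df (YY κ w (a 0)) (TH (h w)))))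

lemma Rl_mul {r : Bool} {x y : ℂ} (hx : Rl r x) (hy : Rl r y) : Rl r (x * y) := by
  intro hr
  rw [Complex.mul_im, hx hr, hy hr]; ring

lemma Rl_conj {r : Bool} {x : ℂ} (hx : Rl r x) : Rl r ((starRingEnd ℂ) x) := by
  intro hr
  rw [Complex.conj_im, hx hr, neg_zero]

lemma S4_Rl {κ h : InfinitePlace K → ℂ} {a : Fin 4 → EK K} {w : InfinitePlace K}
    (hκ : Rl (tp K w) (κ w)) (hh : Rl (tp K w) (h w)) {y : ℂ} (hy : Rl (tp K w) y)
    (hy2 : 1 / y ∈ Q0) (ha : ∀ i, ‖YY κ w (a i)‖ ≤ 1 / 80) : Rl (tp K w) (S4 κ h a w y) := by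
  intro hr
  have h1 : ∀ i, (YY κ w (a i)).im = 0 := fun i =>
    Rl_mul hκ (Rl_conj (lamK_Rl K (a i) w)) hr
  have h2 := RealOn_Df (RealOn_Df (RealOn_Df (RealOn_Df (RealOn_sH (hh hr)) (h1 0) (ha 0))
    (h1 1) (ha 1)) (h1 2) (ha 2)) (h1 3) (ha 3)
  refine h2 y (hy hr) ?_
  have := Q0_re hy2
  linarith

lemma mult_le_two (w : InfinitePlace K) : (mult w : ℝ) ≤ 2 := by
  unfold InfinitePlace.mult
  split_ifs <;> norm_num

lemma mult_one_le (w : InfinitePlace K) : (1 : ℝ) ≤ (mult w : ℝ) := by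
  unfold InfinitePlace.mult
  split_ifs <;> norm_num

lemma YY_norm {κ : InfinitePlace K → ℂ} {w : InfinitePlace K}
    (hκ : ‖κ w‖ = 2 * Real.pi * mult w) (x : EK K) :
    ‖YY κ w x‖ = 2 * Real.pi * mult w * ‖lamK K w x‖ := by
  unfold YY
  rw [norm_mul, hκ, RCLike.norm_conj]

lemma YY_le {κ : InfinitePlace K → ℂ} {w : InfinitePlace K}
    (hκ : ‖κ w‖ = 2 * Real.pi * mult w) {x : EK K} {l : ℝ} (hx : ‖lamK K w x‖ ≤ l) :
    ‖YY κ w x‖ ≤ 4 * Real.pi * l := by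
  rw [YY_norm hκ]
  have h1 := mult_le_two w
  have h2 := Real.pi_pos
  have h3 := norm_nonneg (lamK K w x)
  calc 2 * Real.pi * mult w * ‖lamK K w x‖ ≤ 2 * Real.pi * 2 * ‖lamK K w x‖ := by gcongr
    _ ≤ 2 * Real.pi * 2 * l := by gcongr
    _ = _ := by ring

lemma YY_ge {κ : InfinitePlace K → ℂ} {w : InfinitePlace K}
    (hκ : ‖κ w‖ = 2 * Real.pi * mult w) {x : EK K} {l : ℝ} (hx : l ≤ ‖lamK K w x‖) :
    l ≤ ‖YY κ w x‖ := by
  rw [YY_norm hκ]
  have h1 := mult_one_le w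
  have h2 := Real.pi_gt_three
  have h3 := norm_nonneg (lamK K w x)
  have h4 : 1 ≤ 2 * Real.pi * mult w := by nlinarith
  calc l ≤ ‖lamK K w x‖ := hx
    _ ≤ 2 * Real.pi * mult w * ‖lamK K w x‖ := le_mul_of_one_le_left h3 h4

variable (K)

theorem phase4 : ∃ h0 l0 ρ1 c C : ℝ, 0 < h0 ∧ 0 < l0 ∧ 0 < ρ1 ∧ 0 < c ∧ 0 < C ∧
    ∀ (Cw κ h : InfinitePlace K → ℂ) (a : Fin 4 → EK K) (l1 l μ1 μ2 : ℝ),
    (∀ w, Rl (tp K w) (h w) ∧ h w ≠ 0 ∧ ‖h w‖ ≤ h0) →
    (∀ w, Rl (tp K w) (κ w) ∧ ‖κ w‖ = 2 * Real.pi * mult w) →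
    (∀ w, Rl (tp K w) (Cw w) ∧ μ1 ≤ ‖Cw w‖ ∧ ‖Cw w‖ ≤ μ2) → 0 < μ1 →
    0 ≤ l1 → l ≤ l0 → (∀ i w, l1 ≤ ‖lamK K w (a i)‖ ∧ ‖lamK K w (a i)‖ ≤ l) →
    ∃ g : EK K → EK K, Measurable g ∧ ∀ y, (∀ w, 1 / YY κ w y ∈ Q0) →
      (∀ x, ‖x - y‖ ≤ ρ1 → |D4r a (PF Cw κ fun w => TH (h w)) x -
        D4r a (PF Cw κ fun w => TH (h w)) y - ⟪g y, x - y⟫| ≤
        C * (μ2 * l ^ 4) * ‖x - y‖ ^ 2) ∧
      c * (μ1 * l1 ^ 4) ≤ ‖g y‖ ∧ ‖g y‖ ≤ C * (μ2 * l ^ 4) := by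
  obtain ⟨h0, ρ0, c0, C0, hh0, hρ0, hc0, hC0, hTH⟩ := TH_diff
  obtain ⟨G, hG1, hG2⟩ := exists_ofL K
  have hpi := Real.pi_pos
  have hpi3 := Real.pi_gt_three
  set n := dg K with hn
  have hn0 : (1 : ℝ) ≤ n := by
    have : n ≠ 0 := (inferInstance : NeZero (dg K)).out
    exact_mod_cast Nat.one_le_iff_ne_zero.2 this
  set m : ℝ := ((Fintype.card (InfinitePlace K) : ℕ) : ℝ) with hm
  set Ct : ℝ := m * (C0 * (4 * Real.pi) ^ 4 * (4 * Real.pi) ^ 2) + n * (C0 * (4 * Real.pi) ^ 4)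
    with hCt
  refine ⟨h0, min (ρ0 / (4 * Real.pi)) (1 / (320 * Real.pi)), ρ0 / (4 * Real.pi), c0, Ct, hh0,
    by positivity, by positivity, hc0, by positivity, ?_⟩
  intro Cw κ h a l1 l μ1 μ2 hh hκ hC hμ1 hl1 hl hal
  have w0 : InfinitePlace K := Classical.arbitrary _
  have hl0 : 0 ≤ l := (norm_nonneg _).trans (hal 0 w0).2
  have hμ2 : 0 < μ2 := lt_of_lt_of_le hμ1 ((hC w0).2.1.trans (hC w0).2.2)
  have hα : ∀ i w, ‖YY κ w (a i)‖ ≤ 4 * Real.pi * l := fun i w => YY_le (hκ w).2 (hal i w).2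
  have hα0 : ∀ i w, ‖YY κ w (a i)‖ ≤ ρ0 := by
    intro i w
    refine (hα i w).trans ?_
    have : l ≤ ρ0 / (4 * Real.pi) := hl.trans (min_le_left _ _)
    rw [le_div_iff₀ (by positivity)] at this
    linarith
  have hα1 : ∀ i w, ‖YY κ w (a i)‖ ≤ 1 / 80 := by
    intro i w
    refine (hα i w).trans ?_
    have : l ≤ 1 / (320 * Real.pi) := hl.trans (min_le_right _ _)
    rw [le_div_iff₀ (by positivity)] at this
    linarith
  set u : EK K → InfinitePlace K → ℂ := fun y w =>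
    -(Cw w * κ w * S4 κ h a w (YY κ w y)) / ((2 * Real.pi * mult w : ℝ) : ℂ) with hu
  have hmw : ∀ w : InfinitePlace K, (0 : ℝ) < 2 * Real.pi * mult w := fun w => by
    have := mult_one_le w
    positivity
  refine ⟨fun y => G (u y), ?_, ?_⟩
  · refine hG1.measurable.comp (measurable_pi_lambda _ fun w => ?_)
    rw [hu]
    have h1 : Measurable (S4 κ h a w) := Df_meas (Df_meas (Df_meas (Df_meas (sH_meas _) _) _) _) _
    have h2 : Measurable fun y : EK K => S4 κ h a w (YY κ w y) := h1.comp (YY_meas κ w)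
    exact ((measurable_const.mul h2).neg).div_const _
  intro y hy
  have hur : ∀ w, Rl (tp K w) (u y w) := by
    intro w hr
    have h1 : Rl (tp K w) (Cw w * κ w * S4 κ h a w (YY κ w y)) :=
      Rl_mul (Rl_mul (hC w).1 (hκ w).1) (S4_Rl (hκ w).1 (hh w).1
        (Rl_mul (hκ w).1 (Rl_conj (lamK_Rl K y w))) (hy w) fun i => hα1 i w)
    rw [hu]
    beta_reduce
    rw [Complex.div_ofReal_im, Complex.neg_im, h1 hr]
    simp
  have hlam : ∀ w, lamK K w (G (u y)) = u y w := hG2 (u y) hur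
  have hTw : ∀ w, c0 * (‖YY κ w (a 0)‖ * ‖YY κ w (a 1)‖ * ‖YY κ w (a 2)‖ * ‖YY κ w (a 3)‖) ≤
      ‖S4 κ h a w (YY κ w y)‖ ∧ ‖S4 κ h a w (YY κ w y)‖ ≤
      C0 * (‖YY κ w (a 0)‖ * ‖YY κ w (a 1)‖ * ‖YY κ w (a 2)‖ * ‖YY κ w (a 3)‖) ∧
      ∀ y' : ℂ, ‖y' - YY κ w y‖ ≤ ρ0 →
        ‖T4 κ h a w y' - T4 κ h a w (YY κ w y) + (y' - YY κ w y) * S4 κ h a w (YY κ w y)‖ ≤
        C0 * (‖YY κ w (a 0)‖ * ‖YY κ w (a 1)‖ * ‖YY κ w (a 2)‖ * ‖YY κ w (a 3)‖) *
        ‖y' - YY κ w y‖ ^ 2 := fun w =>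
    hTH (h w) (YY κ w y) _ _ _ _ (hh w).2.1 (hh w).2.2 (hy w) (hα0 0 w) (hα0 1 w) (hα0 2 w)
      (hα0 3 w)
  have hprod : ∀ w, ‖YY κ w (a 0)‖ * ‖YY κ w (a 1)‖ * ‖YY κ w (a 2)‖ * ‖YY κ w (a 3)‖ ≤
      (4 * Real.pi) ^ 4 * l ^ 4 := by
    intro w
    calc _ ≤ (4 * Real.pi * l) * (4 * Real.pi * l) * (4 * Real.pi * l) * (4 * Real.pi * l) := by
          gcongr
          · exact hα 0 w
          · exact hα 1 w
          · exact hα 2 w
          · exact hα 3 w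
      _ = _ := by ring
  have hprod2 : ∀ w, l1 ^ 4 ≤
      ‖YY κ w (a 0)‖ * ‖YY κ w (a 1)‖ * ‖YY κ w (a 2)‖ * ‖YY κ w (a 3)‖ := by
    intro w
    calc l1 ^ 4 = l1 * l1 * l1 * l1 := by ring
      _ ≤ _ := by
          gcongr
          · exact YY_ge (hκ w).2 (hal 0 w).1
          · exact YY_ge (hκ w).2 (hal 1 w).1
          · exact YY_ge (hκ w).2 (hal 2 w).1
          · exact YY_ge (hκ w).2 (hal 3 w).1
  have hun : ∀ w, ‖u y w‖ = ‖Cw w‖ * ‖S4 κ h a w (YY κ w y)‖ := by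
    intro w
    rw [hu]
    beta_reduce
    rw [norm_div, norm_neg, norm_mul, norm_mul, (hκ w).2, Complex.norm_real,
      Real.norm_of_nonneg (hmw w).le]
    field_simp
  refine ⟨?_, ?_, ?_⟩
  · intro x hx
    rw [D4r_PF]
    change |PF Cw κ (T4 κ h a) x - PF Cw κ (T4 κ h a) y - ⟪G (u y), x - y⟫| ≤ _
    have e1 : PF Cw κ (T4 κ h a) x - PF Cw κ (T4 κ h a) y - ⟪G (u y), x - y⟫ =
        (2 * Real.pi)⁻¹ * ∑ w, (Cw w * (T4 κ h a w (YY κ w x) - T4 κ h a w (YY κ w y) +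
          (YY κ w x - YY κ w y) * S4 κ h a w (YY κ w y))).re := by
      rw [lamK_inner]
      unfold PF
      rw [← mul_sub, ← Finset.sum_sub_distrib, sub_eq_iff_eq_add, Finset.mul_sum, Finset.mul_sum,
        ← Finset.sum_add_distrib]
      refine Finset.sum_congr rfl fun w _ => ?_
      rw [hlam w, YY_sub]
      have e2 : (mult w : ℝ) * ((starRingEnd ℂ) (u y w) * lamK K w (x - y)).re =
          -((2 * Real.pi)⁻¹ * (Cw w * ((κ w * (starRingEnd ℂ) (lamK K w (x - y))) *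
            S4 κ h a w (YY κ w y))).re) := by
        have e3 : ((starRingEnd ℂ) (u y w) * lamK K w (x - y)).re =
            (u y w * (starRingEnd ℂ) (lamK K w (x - y))).re := by
          rw [Complex.mul_re, Complex.mul_re, Complex.conj_re, Complex.conj_im, Complex.conj_re,
            Complex.conj_im]
          ring
        rw [e3, hu]
        beta_reduce
        have e4 : -(Cw w * κ w * S4 κ h a w (YY κ w y)) / ((2 * Real.pi * mult w : ℝ) : ℂ) *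
            (starRingEnd ℂ) (lamK K w (x - y)) = -(Cw w * ((κ w * (starRingEnd ℂ)
            (lamK K w (x - y))) * S4 κ h a w (YY κ w y))) / ((2 * Real.pi * mult w : ℝ) : ℂ) := by
          ring
        rw [e4, Complex.div_ofReal_re, Complex.neg_re]
        have := mult_one_le w
        field_simp
      rw [e2, mul_add (Cw w), Complex.add_re, mul_sub (Cw w), Complex.sub_re]
      ring
    rw [e1, abs_mul, abs_of_pos (by positivity)]
    have h1 : |∑ w, (Cw w * (T4 κ h a w (YY κ w x) - T4 κ h a w (YY κ w y) +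
          (YY κ w x - YY κ w y) * S4 κ h a w (YY κ w y))).re| ≤
        ∑ _w : InfinitePlace K, μ2 * (C0 * ((4 * Real.pi) ^ 4 * l ^ 4) *
          (4 * Real.pi * ‖x - y‖) ^ 2) := by
      refine (Finset.abs_sum_le_sum_abs _ _).trans (Finset.sum_le_sum fun w _ => ?_)
      refine (Complex.abs_re_le_norm _).trans ?_
      rw [norm_mul]
      have h2 : ‖YY κ w x - YY κ w y‖ ≤ 4 * Real.pi * ‖x - y‖ := by
        rw [YY_sub]
        exact YY_le (hκ w).2 (lamK_norm_le K (x - y) w)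
      have h3 : ‖YY κ w x - YY κ w y‖ ≤ ρ0 := by
        refine h2.trans ?_
        rw [le_div_iff₀ (by positivity)] at hx
        linarith
      refine mul_le_mul (hC w).2.2 (((hTw w).2.2 _ h3).trans ?_) (norm_nonneg _) hμ2.le
      exact mul_le_mul (mul_le_mul_of_nonneg_left (hprod w) hC0.le)
        (pow_le_pow_left₀ (norm_nonneg _) h2 2) (by positivity) (by positivity)
    rw [Finset.sum_const, nsmul_eq_mul, Finset.card_univ] at h1
    have h2 : (2 * Real.pi)⁻¹ ≤ 1 := inv_le_one_of_one_le₀ (by linarith)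
    refine (mul_le_mul h2 h1 (abs_nonneg _) zero_le_one).trans ?_
    rw [one_mul, ← hm, hCt]
    have h3 : 0 ≤ (n : ℝ) * (C0 * (4 * Real.pi) ^ 4) * (μ2 * l ^ 4) * ‖x - y‖ ^ 2 := by
      positivity
    calc m * (μ2 * (C0 * ((4 * Real.pi) ^ 4 * l ^ 4) * (4 * Real.pi * ‖x - y‖) ^ 2)) =
        m * (C0 * (4 * Real.pi) ^ 4 * (4 * Real.pi) ^ 2) * (μ2 * l ^ 4) * ‖x - y‖ ^ 2 := by ring
      _ ≤ m * (C0 * (4 * Real.pi) ^ 4 * (4 * Real.pi) ^ 2) * (μ2 * l ^ 4) * ‖x - y‖ ^ 2 +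
        (n : ℝ) * (C0 * (4 * Real.pi) ^ 4) * (μ2 * l ^ 4) * ‖x - y‖ ^ 2 := by linarith
      _ = _ := by ring
  · have h1 := lamK_norm_le K (G (u y)) w0
    rw [hlam, hun] at h1
    refine le_trans ?_ h1
    calc c0 * (μ1 * l1 ^ 4) = μ1 * (c0 * l1 ^ 4) := by ring
      _ ≤ ‖Cw w0‖ * ‖S4 κ h a w0 (YY κ w0 y)‖ := by
        refine mul_le_mul (hC w0).2.1 ?_ (by positivity) (norm_nonneg _)
        exact (mul_le_mul_of_nonneg_left (hprod2 w0) hc0.le).trans (hTw w0).1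
  · have h1 : ∀ w, ‖lamK K w (G (u y))‖ ≤ μ2 * (C0 * ((4 * Real.pi) ^ 4 * l ^ 4)) := by
      intro w
      rw [hlam, hun]
      refine mul_le_mul (hC w).2.2 ?_ (norm_nonneg _) hμ2.le
      exact (hTw w).2.1.trans (mul_le_mul_of_nonneg_left (hprod w) hC0.le)
    have h2 := norm_le_lamK K h1
    have h3 : ‖G (u y)‖ ^ 2 ≤ (n * (μ2 * (C0 * ((4 * Real.pi) ^ 4 * l ^ 4)))) ^ 2 := by
      refine h2.trans ?_
      rw [mul_pow (n : ℝ)]
      refine mul_le_mul_of_nonneg_right ?_ (sq_nonneg _)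
      calc (n : ℝ) = n * 1 := by ring
        _ ≤ n * n := by gcongr
        _ = _ := by ring
    have h4 := abs_le_of_sq_le_sq h3 (by positivity)
    refine ((le_abs_self _).trans h4).trans ?_
    rw [hCt]
    have h5 : 0 ≤ m * (C0 * (4 * Real.pi) ^ 4 * (4 * Real.pi) ^ 2) * (μ2 * l ^ 4) := by
      positivity
    calc n * (μ2 * (C0 * ((4 * Real.pi) ^ 4 * l ^ 4))) ≤
        m * (C0 * (4 * Real.pi) ^ 4 * (4 * Real.pi) ^ 2) * (μ2 * l ^ 4) +
        n * (μ2 * (C0 * ((4 * Real.pi) ^ 4 * l ^ 4))) := by linarith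
      _ = _ := by ring

end Pool.Agent.T2H29.TA
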