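import Pool.Agent.T2H29.TA.A14b
import Pool.Agent.T2H29.TA.A14c

/-!
# Good shifts: choice of the parameters
-/

set_option autoImplicit false
set_option linter.unusedSectionVars false

namespace Pool.Agent.T2H29.TA

open Finset NumberField NumberField.InfinitePlace Module MeasureTheory
open Pool.Agent.T2H29.SW
open scoped RealInnerProductSpace ContDiff

lemma exp_neg_le_inv {u : ℝ} (hu : 0 < u) : Real.exp (-u) ≤ u⁻¹ := by
  rw [Real.exp_neg]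
  exact inv_anti₀ hu (by linarith [Real.add_one_le_exp u])

/-- the parameters -/
lemma params {n : ℕ} (hn : n ≠ 0) {Cc0 c1 ρ1 cp Cp l0 : ℝ} (hC : 0 < Cc0) (hc1 : 0 < c1)
    (hρ1 : 0 < ρ1) (hcp : 0 < cp) (hCp : 0 < Cp) (hl0 : 0 < l0) :
    ∃ C K1 : ℝ, 0 < C ∧ 1 ≤ K1 ∧ ∀ T lam M1 : ℝ, 0 < T → K1 ≤ T ^ (1 / 1000 : ℝ) →
      lam = T ^ (2 / 3 + 2 / 3000 / (n : ℝ)) → 1 / 2 * T ^ (1 / 6 - 2 / 1000 : ℝ) ≤ M1 →
      M1 ≤ 16 * lam →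
      ∃ l r D Λ : ℝ, 0 < l ∧ l ≤ 1 ∧ l ≤ l0 ∧ 0 < r ∧ r ≤ 1 ∧ 0 ≤ D ∧ 0 ≤ Λ ∧ 1 ≤ M1 ∧
      Cc0 ≤ M1 ^ n * l ^ n ∧
      Cp * (16 * lam * l ^ 4) ≤ D ∧
      Λ ≤ r * (cp * (1 / 2 * lam * T ^ (-(1 / 1000 : ℝ)) * (l * T ^ (-(16 / 1000 : ℝ))) ^ 4)) ∧
      Cp * (16 * lam * l ^ 4) ≤ c1 * M1 ∧
      Er ρ1 c1 D r Λ M1 + T ^ (-(16 / 1000 : ℝ)) + (M1 ^ n * l ^ n)⁻¹ ≤
        C * T ^ (-(16 / 1000 : ℝ)) := by
  set K1 : ℝ := 32 + 16 * Cp / c1 + 16 / (min l0 1) ^ 4 + Cc0 with hK1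
  have hm0 : 0 < min l0 1 := lt_min hl0 one_pos
  have hK32 : 32 ≤ K1 := by
    have h1 : 0 ≤ 16 * Cp / c1 := by positivity
    have h2 : 0 ≤ 16 / (min l0 1) ^ 4 := by positivity
    rw [hK1]; linarith
  refine ⟨1 + 16 * Cp + (ρ1 ^ 2)⁻¹ + 8 / cp ^ 2 + c1⁻¹ + 1 + 1, K1, by positivity,
    by linarith, ?_⟩
  intro T lam M1 hT hKT hlam hM1 hM2
  have hTe : 1 ≤ T ^ (1 / 1000 : ℝ) := by linarith
  have hT1 : 1 ≤ T := by
    by_contra h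
    push Not at h
    have := Real.rpow_lt_one hT.le h (show (0 : ℝ) < 1 / 1000 by norm_num)
    linarith
  have tpos : ∀ a : ℝ, 0 < T ^ a := fun a => Real.rpow_pos_of_pos hT a
  have tle : ∀ a b : ℝ, a ≤ b → T ^ a ≤ T ^ b := fun a b h =>
    Real.rpow_le_rpow_of_exponent_le hT1 h
  have tadd : ∀ a b : ℝ, T ^ a * T ^ b = T ^ (a + b) := fun a b => (Real.rpow_add hT a b).symm
  have tpow : ∀ (a : ℝ) (k : ℕ), (T ^ a) ^ k = T ^ (a * k) := fun a k => by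
    rw [Real.rpow_mul hT.le, Real.rpow_natCast]
  have tinv : ∀ a : ℝ, (T ^ a)⁻¹ = T ^ (-a) := fun a => (Real.rpow_neg hT.le a).symm
  have hlam0 : 0 < lam := by rw [hlam]; exact tpos _
  have hn1 : (1 : ℝ) ≤ n := by exact_mod_cast Nat.one_le_iff_ne_zero.2 hn
  have hlamle : lam ≤ T ^ (2 / 3 + 2 / 3000 : ℝ) := by
    rw [hlam]
    refine tle _ _ ?_
    have : 2 / 3000 / (n : ℝ) ≤ 2 / 3000 := div_le_self (by norm_num) hn1
    linarith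
  -- M1 is large
  have hM16 : T ^ (16 / 1000 : ℝ) ≤ M1 := by
    refine le_trans ?_ hM1
    have h1 : T ^ (1 / 6 - 2 / 1000 : ℝ) = T ^ (16 / 1000 : ℝ) * T ^ (1 / 6 - 18 / 1000 : ℝ) := by
      rw [tadd]; norm_num
    have h2 : T ^ (1 / 1000 : ℝ) ≤ T ^ (1 / 6 - 18 / 1000 : ℝ) := tle _ _ (by norm_num)
    rw [h1]
    have h3 : 2 ≤ T ^ (1 / 6 - 18 / 1000 : ℝ) := by linarith
    have h4 := mul_le_mul_of_nonneg_left h3 (tpos (16 / 1000)).le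
    linarith
  have hM0 : 0 < M1 := lt_of_lt_of_le (tpos _) hM16
  have hM11 : 1 ≤ M1 := by
    refine le_trans ?_ hM16
    exact Real.one_le_rpow hT1 (by norm_num)
  -- l
  set q := M1 * T ^ (-(1 / 1000 : ℝ)) / lam with hq
  have hq0 : 0 < q := by
    have := tpos (-(1 / 1000 : ℝ))
    positivity
  set l := q ^ (1 / 4 : ℝ) with hl
  have hl_pos : 0 < l := Real.rpow_pos_of_pos hq0 _
  have hl4 : l ^ 4 = q := by
    rw [hl, ← Real.rpow_natCast, ← Real.rpow_mul hq0.le]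
    norm_num
  have hq16 : q ≤ 16 * T ^ (-(1 / 1000 : ℝ)) := by
    rw [hq, div_le_iff₀ hlam0]
    have := mul_le_mul_of_nonneg_right hM2 (tpos (-(1 / 1000 : ℝ))).le
    linarith
  have hqm : q ≤ (min l0 1) ^ 4 := by
    refine hq16.trans ?_
    rw [← tinv, ← div_eq_mul_inv, div_le_iff₀ (tpos _)]
    have h1 : 16 / (min l0 1) ^ 4 ≤ T ^ (1 / 1000 : ℝ) := by
      refine le_trans ?_ hKT
      rw [hK1]
      have : 0 ≤ 16 * Cp / c1 := by positivity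
      linarith
    rw [div_le_iff₀ (by positivity)] at h1
    linarith
  have hlm : l ≤ min l0 1 := by
    rw [← hl4] at hqm
    exact le_of_pow_le_pow_left₀ (by norm_num) hm0.le hqm
  -- r
  set r2 := M1⁻¹ * T ^ (-(16 / 1000 : ℝ)) with hr2
  have hr20 : 0 < r2 := mul_pos (inv_pos.2 hM0) (tpos _)
  set r := √r2 with hr
  have hr0 : 0 < r := Real.sqrt_pos.2 hr20
  have hrr : r ^ 2 = r2 := Real.sq_sqrt hr20.le
  have hr16 : r ≤ T ^ (-(16 / 1000 : ℝ)) := by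
    refine le_of_sq_le_sq ?_ (tpos _).le
    rw [hrr, hr2, tpow, ← div_eq_inv_mul, div_le_iff₀ hM0]
    have h1 := mul_le_mul_of_nonneg_left hM16 (tpos (-(16 / 1000 : ℝ) * (2 : ℕ))).le
    rw [tadd] at h1
    refine le_trans (le_of_eq ?_) h1
    congr 1
    norm_num
  have ht16 : T ^ (-(16 / 1000 : ℝ)) ≤ 1 := by
    rw [← Real.rpow_zero T]
    exact tle _ _ (by norm_num)
  have hr1 : r ≤ 1 := hr16.trans ht16
  -- D
  have hD1 : Cp * (16 * lam * l ^ 4) = 16 * Cp * M1 * T ^ (-(1 / 1000 : ℝ)) := by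
    rw [hl4, hq]
    field_simp
  set D := 16 * Cp * M1 * T ^ (-(1 / 1000 : ℝ)) with hD
  have hD0 : 0 < D := by
    have := tpos (-(1 / 1000 : ℝ))
    positivity
  -- Λ
  set Λ := r * (cp * (1 / 2 * lam * T ^ (-(1 / 1000 : ℝ)) * (l * T ^ (-(16 / 1000 : ℝ))) ^ 4))
    with hΛ
  have hΛ1 : Λ = cp / 2 * (r * M1 * T ^ (-(66 / 1000 : ℝ))) := by
    rw [hΛ, mul_pow, hl4, hq, tpow]
    have h1 : T ^ (-(66 / 1000 : ℝ)) = T ^ (-(1 / 1000 : ℝ)) * T ^ (-(1 / 1000 : ℝ)) *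
        T ^ (-(16 / 1000 : ℝ) * (4 : ℕ)) := by
      rw [tadd, tadd]; norm_num
    rw [h1]
    field_simp
  have hΛ0 : 0 < Λ := by
    rw [hΛ1]
    have := tpos (-(66 / 1000 : ℝ))
    positivity
  have hΛ2 : Λ ^ 2 = cp ^ 2 / 4 * (M1 * T ^ (-(148 / 1000 : ℝ))) := by
    rw [hΛ1]
    have h1 : (cp / 2 * (r * M1 * T ^ (-(66 / 1000 : ℝ)))) ^ 2 =
        cp ^ 2 / 4 * (r ^ 2 * M1 ^ 2 * (T ^ (-(66 / 1000 : ℝ))) ^ 2) := by ring
    rw [h1, hrr, hr2, tpow]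
    have h2 : T ^ (-(148 / 1000 : ℝ)) = T ^ (-(16 / 1000 : ℝ)) *
        T ^ (-(66 / 1000 : ℝ) * (2 : ℕ)) := by
      rw [tadd]; norm_num
    rw [h2]
    field_simp
  -- the number of points
  have hMl : T ^ (30 / 1000 : ℝ) ≤ M1 * l := by
    refine le_of_pow_le_pow_left₀ (n := 4) (by norm_num) (by positivity) ?_
    rw [mul_pow, hl4, tpow, hq]
    have h1 : (1 / 2 * T ^ (1 / 6 - 2 / 1000 : ℝ)) ^ 5 ≤ M1 ^ 5 :=
      pow_le_pow_left₀ (by have := tpos (1 / 6 - 2 / 1000); positivity) hM1 5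
    rw [mul_pow, tpow] at h1
    have h2 : T ^ ((30 / 1000 : ℝ) * (4 : ℕ)) * lam ≤ M1 ^ 5 * T ^ (-(1 / 1000 : ℝ)) := by
      have h3 := mul_le_mul_of_nonneg_right h1 (tpos (-(1 / 1000 : ℝ))).le
      refine le_trans ?_ h3
      have h4 := mul_le_mul_of_nonneg_left hlamle (tpos ((30 / 1000 : ℝ) * (4 : ℕ))).le
      refine h4.trans ?_
      rw [mul_assoc, tadd, tadd]
      have h5 : T ^ ((1 / 6 - 2 / 1000 : ℝ) * (5 : ℕ) + -(1 / 1000)) =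
          T ^ ((30 / 1000 : ℝ) * (4 : ℕ) + (2 / 3 + 2 / 3000)) *
          T ^ (1 / 6 - 131 / 1000 - 2 / 3000 : ℝ) := by
        rw [tadd]; congr 1; push_cast; ring
      rw [h5]
      have h6 : T ^ (1 / 1000 : ℝ) ≤ T ^ (1 / 6 - 131 / 1000 - 2 / 3000 : ℝ) :=
        tle _ _ (by norm_num)
      have h7 : (32 : ℝ) ≤ T ^ (1 / 6 - 131 / 1000 - 2 / 3000 : ℝ) := by linarith
      have h8 := mul_le_mul_of_nonneg_left h7
        (tpos ((30 / 1000 : ℝ) * (4 : ℕ) + (2 / 3 + 2 / 3000))).le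
      linarith
    rw [← le_div_iff₀ hlam0] at h2
    refine h2.trans (le_of_eq ?_)
    ring
  have hMl1 : 1 ≤ M1 * l := by
    refine le_trans ?_ hMl
    exact Real.one_le_rpow hT1 (by norm_num)
  have hMln : T ^ (30 / 1000 : ℝ) ≤ M1 ^ n * l ^ n := by
    rw [← mul_pow]
    exact hMl.trans (le_self_pow₀ hMl1 hn)
  refine ⟨l, r, D, Λ, hl_pos, hlm.trans (min_le_right _ _), hlm.trans (min_le_left _ _), hr0, hr1,
    hD0.le, hΛ0.le, hM11, ?_, hD1.le, le_refl _, ?_, ?_⟩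
  · refine le_trans ?_ hMln
    refine le_trans ?_ (tle (1 / 1000) (30 / 1000) (by norm_num))
    refine le_trans ?_ hKT
    rw [hK1]
    have h1 : 0 ≤ 16 * Cp / c1 := by positivity
    have h2 : 0 ≤ 16 / (min l0 1) ^ 4 := by positivity
    linarith
  · rw [hD1, hD, ← tinv]
    have h1 : 16 * Cp / c1 ≤ T ^ (1 / 1000 : ℝ) := by
      refine le_trans ?_ hKT
      rw [hK1]
      have h2 : 0 ≤ 16 / (min l0 1) ^ 4 := by positivity
      linarith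
    rw [← div_eq_mul_inv, div_le_iff₀ (tpos _)]
    rw [div_le_iff₀ hc1] at h1
    have := mul_le_mul_of_nonneg_right h1 hM0.le
    linarith
  · unfold Er
    have g1 : D * r ^ 2 ≤ 16 * Cp * T ^ (-(16 / 1000 : ℝ)) := by
      rw [hrr, hr2, hD]
      have h1 : 16 * Cp * M1 * T ^ (-(1 / 1000 : ℝ)) * (M1⁻¹ * T ^ (-(16 / 1000 : ℝ))) =
          16 * Cp * T ^ (-(16 / 1000 : ℝ)) * T ^ (-(1 / 1000 : ℝ)) := by
        field_simp
      rw [h1]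
      refine mul_le_of_le_one_right (by have := tpos (-(16 / 1000 : ℝ)); positivity) ?_
      rw [← Real.rpow_zero T]
      exact tle _ _ (by norm_num)
    have g2 : Real.exp (-(ρ1 / r) ^ 2) ≤ (ρ1 ^ 2)⁻¹ * T ^ (-(16 / 1000 : ℝ)) := by
      refine (exp_neg_le_inv (by positivity)).trans ?_
      rw [div_pow, inv_div, hrr, hr2, div_eq_inv_mul]
      refine mul_le_mul_of_nonneg_left ?_ (by positivity)
      refine mul_le_of_le_one_left (tpos _).le (inv_le_one_of_one_le₀ hM11)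
    have g3 : Real.exp (-Λ ^ 2) ≤ 8 / cp ^ 2 * T ^ (-(16 / 1000 : ℝ)) := by
      refine (exp_neg_le_inv (by positivity)).trans ?_
      rw [hΛ2]
      have h1 : cp ^ 2 / 8 * T ^ (16 / 1000 : ℝ) ≤ cp ^ 2 / 4 * (M1 * T ^ (-(148 / 1000 : ℝ))) := by
        have h2 := mul_le_mul_of_nonneg_right hM1 (tpos (-(148 / 1000 : ℝ))).le
        rw [mul_assoc, tadd] at h2
        have h3 := tle (16 / 1000) (1 / 6 - 2 / 1000 + -(148 / 1000)) (by norm_num)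
        have h4 : 1 / 2 * T ^ (16 / 1000 : ℝ) ≤ M1 * T ^ (-(148 / 1000 : ℝ)) := by linarith
        have h5 := mul_le_mul_of_nonneg_left h4 (show 0 ≤ cp ^ 2 / 4 by positivity)
        linarith
      refine (inv_anti₀ (by have := tpos (16 / 1000 : ℝ); positivity) h1).trans (le_of_eq ?_)
      rw [← tinv]
      field_simp
    have g4 : Real.exp (-(c1 * (r * M1) ^ 2)) ≤ c1⁻¹ * T ^ (-(16 / 1000 : ℝ)) := by
      refine (exp_neg_le_inv (by positivity)).trans ?_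
      rw [mul_inv]
      refine mul_le_mul_of_nonneg_left ?_ (by positivity)
      rw [mul_pow, hrr, hr2, ← tinv (16 / 1000)]
      refine inv_anti₀ (tpos _) ?_
      have h1 : M1⁻¹ * (T ^ (16 / 1000 : ℝ))⁻¹ * M1 ^ 2 = M1 * (T ^ (16 / 1000 : ℝ))⁻¹ := by
        field_simp
      rw [h1, tinv]
      have h2 := mul_le_mul_of_nonneg_right hM1 (tpos (-(16 / 1000 : ℝ))).le
      refine le_trans ?_ h2
      rw [mul_assoc, tadd]
      have h3 : T ^ (1 / 6 - 2 / 1000 + -(16 / 1000) : ℝ) = T ^ (16 / 1000 : ℝ) *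
          T ^ (1 / 6 - 34 / 1000 : ℝ) := by
        rw [tadd]; norm_num
      rw [h3]
      have h4 := tle (1 / 1000) (1 / 6 - 34 / 1000) (by norm_num)
      have h5 : 2 ≤ T ^ (1 / 6 - 34 / 1000 : ℝ) := by linarith
      have h6 := mul_le_mul_of_nonneg_left h5 (tpos (16 / 1000)).le
      linarith
    have g5 : (M1 ^ n * l ^ n)⁻¹ ≤ T ^ (-(16 / 1000 : ℝ)) := by
      rw [← tinv]
      refine inv_anti₀ (tpos _) ?_
      exact (tle _ _ (by norm_num)).trans hMln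
    have e1 : (1 + 16 * Cp + (ρ1 ^ 2)⁻¹ + 8 / cp ^ 2 + c1⁻¹ + 1 + 1) * T ^ (-(16 / 1000 : ℝ)) =
        T ^ (-(16 / 1000 : ℝ)) + 16 * Cp * T ^ (-(16 / 1000 : ℝ)) +
        (ρ1 ^ 2)⁻¹ * T ^ (-(16 / 1000 : ℝ)) + 8 / cp ^ 2 * T ^ (-(16 / 1000 : ℝ)) +
        c1⁻¹ * T ^ (-(16 / 1000 : ℝ)) + T ^ (-(16 / 1000 : ℝ)) + T ^ (-(16 / 1000 : ℝ)) := by
      ring
    rw [e1]
    linarith

variable (K : Type) [Field K] [NumberField K]

/-- the bound for the oscillating sum -/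
theorem osc_bound (B : ℝ) {R0 L0 : ℝ} (hR0 : 0 < R0) (hL0 : 1 ≤ L0) :
    ∃ h0 C K1 : ℝ, 0 < h0 ∧ 0 < C ∧ 1 ≤ K1 ∧ ∀ A, GB K B A → ∀ (ψ : (Fin (dg K) → ℤ) → ℂ)
    (f : EK K → ℂ) (Cw κ h : InfinitePlace K → ℂ) (T lam : ℝ), 0 < T → K1 ≤ T ^ (1 / 1000 : ℝ) →
    lam = T ^ (2 / 3 + 2 / 3000 / (dg K : ℝ)) →
    (1 / 2 * T ^ (1 / 6 - 2 / 1000 : ℝ)) ^ dg K ≤ Mv A → Mv A ≤ (16 * lam) ^ dg K →
    (∀ z, ‖ψ z‖ = 1) → (∀ z z', ψ (z + z') = ψ z * ψ z') →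
    BL L0 f → (∀ x, R0 < ‖x‖ → f x = 0) → (∀ y, f y ≠ 0 → ∀ w, 1 / YY κ w y ∈ Q0) →
    (∀ w, Rl (tp K w) (h w) ∧ h w ≠ 0 ∧ ‖h w‖ ≤ h0) →
    (∀ w, Rl (tp K w) (κ w) ∧ ‖κ w‖ = 2 * Real.pi * mult w) →
    (∀ w, Rl (tp K w) (Cw w) ∧ 1 / 2 * lam * T ^ (-(1 / 1000 : ℝ)) ≤ ‖Cw w‖ ∧
      ‖Cw w‖ ≤ 16 * lam) →
    ‖∑' z : Fin (dg K) → ℤ, ψ z * Gt A f (PF Cw κ fun w => TH (h w)) z‖ ≤
      C * Mv A * T ^ (-(1 / 1000 : ℝ)) := by
  obtain ⟨h0, l0, ρ1, cp, Cp, hh0, hl0, hρ1, hcp, hCp, hph⟩ := phase4 K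
  obtain ⟨Cc0, c1, hCc0, hc1, hcore⟩ := core4 (K := K) B hR0 hρ1 hL0
  have hn : dg K ≠ 0 := (inferInstance : NeZero (dg K)).out
  obtain ⟨C', K1, hC', hK1, hpar⟩ := params hn hCc0 hc1 hρ1 hcp hCp hl0
  set C2 : ℝ := max 1 (Cc0 * C') with hC2
  refine ⟨h0, C2, K1, hh0, by positivity, hK1, ?_⟩
  intro A hA ψ f Cw κ h T lam hT hKT hlam hM1 hM2 hψ1 hψ2 hf hfR hfQ hh hκ hC
  have hMv : 0 < Mv A := Mv_pos hA.1
  have tpos : ∀ a : ℝ, 0 < T ^ a := fun a => Real.rpow_pos_of_pos hT a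
  set M1 := Mv A ^ ((dg K : ℝ)⁻¹) with hM1d
  have hMn : M1 ^ dg K = Mv A := Real.rpow_inv_natCast_pow hMv.le hn
  have hM10 : 0 < M1 := Real.rpow_pos_of_pos hMv _
  have hlam0 : 0 < lam := by rw [hlam]; exact tpos _
  have h1 : 1 / 2 * T ^ (1 / 6 - 2 / 1000 : ℝ) ≤ M1 := by
    rw [← hMn] at hM1
    exact le_of_pow_le_pow_left₀ hn hM10.le hM1
  have h2 : M1 ≤ 16 * lam := by
    rw [← hMn] at hM2
    exact le_of_pow_le_pow_left₀ hn (by positivity) hM2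
  obtain ⟨l, r, D, Λ, hl, hl1, hll0, hr, hr1, hD, hΛ, hM11, hCM, hDl, hΛl, hcl, hE⟩ :=
    hpar T lam M1 hT hKT hlam h1 h2
  have hMv1 : 1 ≤ Mv A := by rw [← hMn]; exact one_le_pow₀ hM11
  rw [hMn] at hCM hE
  have ht16 : T ^ (-(16 / 1000 : ℝ)) ≤ 1 := by
    have hT1 : 1 ≤ T := by
      by_contra hh
      push Not at hh
      have := Real.rpow_lt_one hT.le hh (show (0 : ℝ) < 1 / 1000 by norm_num)
      linarith
    rw [← Real.rpow_zero T]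
    exact Real.rpow_le_rpow_of_exponent_le hT1 (by norm_num)
  have hmain := hcore A hA ψ f (PF Cw κ fun w => TH (h w)) l (T ^ (-(16 / 1000 : ℝ))) D r Λ hMv1
    hl hl1 (tpos _) ht16 hr hr1 hD hΛ hCM hψ1 hψ2 (PF_meas _ _ fun w => TH_meas _) hf hfR (by
      intro a ha
      obtain ⟨g, hg1, hg2⟩ := hph Cw κ h a (l * T ^ (-(16 / 1000 : ℝ))) l
        (1 / 2 * lam * T ^ (-(1 / 1000 : ℝ))) (16 * lam) hh hκ hC
        (by have := tpos (-(1 / 1000 : ℝ)); positivity)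
        (by have := tpos (-(16 / 1000 : ℝ)); positivity) hll0 ha
      refine ⟨g, hg1, fun y x hy hx => ?_, fun y hy => ?_⟩
      · refine ((hg2 y (hfQ y hy)).1 x hx).trans ?_
        exact mul_le_mul_of_nonneg_right hDl (sq_nonneg _)
      · have h3 := (hg2 y (hfQ y hy)).2
        exact ⟨hΛl.trans (mul_le_mul_of_nonneg_left h3.1 hr.le), h3.2.trans hcl⟩)
  set X := ‖∑' z : Fin (dg K) → ℤ, ψ z * Gt A f (PF Cw κ fun w => TH (h w)) z‖ with hX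
  refine le_of_pow_le_pow_left₀ (n := 16) (by norm_num)
    (by have := tpos (-(1 / 1000 : ℝ)); positivity) ?_
  refine hmain.trans ?_
  have h3 : (T ^ (-(1 / 1000 : ℝ))) ^ 16 = T ^ (-(16 / 1000 : ℝ)) := by
    rw [← Real.rpow_natCast, ← Real.rpow_mul hT.le]
    norm_num
  rw [mul_pow, mul_pow, h3]
  have h4 : Cc0 * C' ≤ C2 ^ 16 := by
    refine (le_max_right 1 _).trans ?_
    exact le_self_pow₀ (le_max_left _ _) (by norm_num)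
  calc Cc0 * Mv A ^ 16 * (Er ρ1 c1 D r Λ M1 + T ^ (-(16 / 1000 : ℝ)) +
        (Mv A * l ^ dg K)⁻¹) ≤ Cc0 * Mv A ^ 16 * (C' * T ^ (-(16 / 1000 : ℝ))) :=
        mul_le_mul_of_nonneg_left hE (by positivity)
    _ = (Cc0 * C') * (Mv A ^ 16 * T ^ (-(16 / 1000 : ℝ))) := by ring
    _ ≤ C2 ^ 16 * (Mv A ^ 16 * T ^ (-(16 / 1000 : ℝ))) :=
        mul_le_mul_of_nonneg_right h4 (by have := tpos (-(16 / 1000 : ℝ)); positivity)
    _ = _ := by ring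

end Pool.Agent.T2H29.TA
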