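import Pool.Agent.T2H29.TA.Phi
import Pool.Agent.T2H29.TA.A2
import Pool.Agent.T2H29.TA.A3
import Pool.Agent.T2H29.TA.A4
import Pool.Agent.T2H29.TA.A13

/-!
# The differenced sum after Poisson summation
-/

set_option autoImplicit false
set_option linter.unusedSectionVars false

namespace Pool.Agent.T2H29.TA

open Finset NumberField NumberField.InfinitePlace Module MeasureTheory
open Pool.Agent.T2H29.SW
open scoped RealInnerProductSpace ContDiff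

/-! ## local facts -/

lemma A16_zero {β : ℂ → ℂ} (hβ : CIg S0 β) : β 0 = 0 := by
  by_contra h
  have h1 : (0 : ℂ) ∈ S0 := hβ.ts (subset_tsupport _ h)
  have h2 := h1.1
  rw [norm_zero] at h2
  norm_num at h2

lemma A16_supp {β : ℂ → ℂ} (hβ : CIg S0 β) {z : ℂ} (h : β z ≠ 0) : ‖z‖ < 3 / 2 :=
  (hβ.ts (subset_tsupport _ h)).2.1

lemma A16_conj_mul {o : ℂ} (ho : ‖o‖ = 1) : o * (starRingEnd ℂ) o = 1 := by
  rw [Complex.mul_conj, Complex.normSq_eq_norm_sq, ho]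
  norm_num

lemma A16_LI_rot (r : Bool) {o : ℂ} (ho : ‖o‖ = 1) (hr : Rl r o) (f : ℂ → ℂ) :
    LI r (fun z => f (o * z)) = LI r f := by
  cases r with
  | true =>
    have him : o.im = 0 := hr rfl
    have hre : o = (o.re : ℂ) := Complex.ext rfl (by simp [him])
    have h1 : o.re = 1 ∨ o.re = -1 := by
      have h2 : |o.re| = 1 := by
        rw [hre, Complex.norm_real] at ho
        exact ho
      exact (abs_eq (by norm_num)).1 h2
    change ∫ x : ℝ, f (o * x) = ∫ x : ℝ, f x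
    rcases h1 with h | h
    · rw [hre, h]
      simp
    · rw [hre, h]
      have h3 : ∀ x : ℝ, f (((-1 : ℝ) : ℂ) * x) = (fun x : ℝ => f x) (-x) := by
        intro x
        simp
      simp_rw [h3]
      exact integral_neg_eq_self (fun x : ℝ => f x) volume
  | false =>
    change ∫ z : ℂ, f (o * z) = ∫ z : ℂ, f z
    set a : Circle := ⟨o, mem_sphere_zero_iff_norm.2 ho⟩ with ha
    have hmp : MeasurePreserving (rotation a) volume volume :=
      LinearIsometryEquiv.measurePreserving _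
    have h1 := hmp.integral_comp (rotation a).toHomeomorph.measurableEmbedding f
    rw [← h1]
    rfl

lemma A16_FL_rot (r : Bool) {o : ℂ} (ho : ‖o‖ = 1) (hr : Rl r o) (f : ℂ → ℂ) (ζ : ℂ) :
    FL r f ζ = FL r (fun z => f (o * z)) ((starRingEnd ℂ) o * ζ) := by
  unfold FL
  rw [← A16_LI_rot r ho hr]
  congr 1
  funext z
  congr 3
  rw [map_mul, Complex.conj_conj]
  ring_nf

lemma A16_uu_rot (k : ℤ) (τ : ℝ) {o h z : ℂ} (ho : ‖o‖ = 1) 
    (h1 : z + (starRingEnd ℂ) o * h ≠ 0) (h2 : z - (starRingEnd ℂ) o * h ≠ 0) :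
    U1 k τ h (o * z) = U1 k τ ((starRingEnd ℂ) o * h) z := by
  have ho0 : o ≠ 0 := by
    intro h3
    rw [h3, norm_zero] at ho
    exact zero_ne_one ho
  have hoo := A16_conj_mul ho
  have e1 : o * z + h = o * (z + (starRingEnd ℂ) o * h) := by
    rw [mul_add, ← mul_assoc, hoo, one_mul]
  have e2 : o * z - h = o * (z - (starRingEnd ℂ) o * h) := by
    rw [mul_sub, ← mul_assoc, hoo, one_mul]
  unfold U1
  rw [e1, e2, uu_mul ho0 h1, uu_mul ho0 h2, map_mul]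
  have e3 : uu k τ o * (starRingEnd ℂ) (uu k τ o) = 1 := A16_conj_mul (uu_norm_of ho0)
  calc _ = (uu k τ o * (starRingEnd ℂ) (uu k τ o)) * (uu k τ (z + (starRingEnd ℂ) o * h) *
        (starRingEnd ℂ) (uu k τ (z - (starRingEnd ℂ) o * h))) := by ring
    _ = _ := by rw [e3, one_mul]

lemma A16_I1_rot (r : Bool) (k : ℤ) (τ : ℝ) {β : ℂ → ℂ} (h0 : β 0 = 0) {o : ℂ} (ho : ‖o‖ = 1)
    (hr : Rl r o) (h ζ : ℂ) :
    FL r (fun z => U1 k τ h z * (β ((starRingEnd ℂ) o * (z + h)) *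
      (starRingEnd ℂ) (β ((starRingEnd ℂ) o * (z - h))))) ζ =
      I1 r k τ β ((starRingEnd ℂ) o * h) ((starRingEnd ℂ) o * ζ) := by
  rw [A16_FL_rot r ho hr]
  unfold I1
  congr 1
  funext z
  have hoo : (starRingEnd ℂ) o * o = 1 := by rw [mul_comm, A16_conj_mul ho]
  have e1 : (starRingEnd ℂ) o * (o * z + h) = z + (starRingEnd ℂ) o * h := by
    rw [mul_add, ← mul_assoc, hoo, one_mul]
  have e2 : (starRingEnd ℂ) o * (o * z - h) = z - (starRingEnd ℂ) o * h := by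
    rw [mul_sub, ← mul_assoc, hoo, one_mul]
  simp only [e1, e2]
  unfold B1
  by_cases h1 : z + (starRingEnd ℂ) o * h = 0
  · rw [h1, h0]
    ring
  by_cases h2 : z - (starRingEnd ℂ) o * h = 0
  · rw [h2, h0, map_zero]
    ring
  rw [A16_uu_rot k τ ho h1 h2]

lemma A16_uu_smooth (k : ℤ) (τ : ℝ) {z : ℂ} (hz : z ≠ 0) : ContDiffAt ℝ ∞ (uu k τ) z := by
  have hq : z.re ^ 2 + z.im ^ 2 ≠ 0 := by
    have h1 : z.re ^ 2 + z.im ^ 2 = ‖z‖ ^ 2 := by
      rw [Complex.sq_norm, Complex.normSq_apply]; ring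
    rw [h1]
    exact pow_ne_zero _ (norm_ne_zero_iff.2 hz)
  have h1 : ContDiffAt ℝ ∞ (fun z : ℂ => z ^ k) z := by
    cases k with
    | ofNat n => 
      simp only [Int.ofNat_eq_natCast, zpow_natCast]
      exact (contDiff_id.pow n).contDiffAt
    | negSucc n =>
      simp only [zpow_negSucc]
      exact ((contDiff_id.pow (n + 1)).contDiffAt).inv (pow_ne_zero _ hz)
  have h2 : ContDiffAt ℝ ∞ (fun z : ℂ => Real.log (z.re ^ 2 + z.im ^ 2) / 2) z := by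
    refine ContDiffAt.div_const ?_ _
    refine ContDiffAt.log ?_ hq
    exact ((Complex.reCLM.contDiff.pow 2).add (Complex.imCLM.contDiff.pow 2)).contDiffAt
  have h3 : ContDiffAt ℝ ∞ (fun z : ℂ => ((Real.log (z.re ^ 2 + z.im ^ 2) / 2 : ℝ) : ℂ)) z :=
    Complex.ofRealCLM.contDiff.contDiffAt.comp z h2
  exact h1.mul (contDiffAt_const.mul h3).cexp

lemma A16_phi_smooth (k : ℤ) (τ : ℝ) {β : ℂ → ℂ} (hβ : CIg S0 β) (o : ℂ) :
    ContDiff ℝ ∞ fun z : ℂ => uu k τ z * β (o * z) := by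
  rw [contDiff_iff_contDiffAt]
  intro z
  by_cases hz : z = 0
  · subst hz
    have h0 : (0 : ℂ) ∉ tsupport β := by
      intro h1
      have h2 := (hβ.ts h1).1
      rw [norm_zero] at h2
      norm_num at h2
    have h1 : (tsupport β)ᶜ ∈ nhds ((fun z : ℂ => o * z) 0) := by
      have e : (fun z : ℂ => o * z) 0 = 0 := by simp
      rw [e]
      exact (isClosed_tsupport β).isOpen_compl.mem_nhds h0
    have h2 : ∀ᶠ z : ℂ in nhds 0, o * z ∈ (tsupport β)ᶜ :=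
      (continuous_const.mul continuous_id).continuousAt.eventually h1
    have h3 : (fun z : ℂ => uu k τ z * β (o * z)) =ᶠ[nhds 0] fun _ => 0 := by
      filter_upwards [h2] with z hz'
      rw [image_eq_zero_of_notMem_tsupport hz', mul_zero]
    exact contDiffAt_const.congr_of_eventuallyEq h3
  · refine (A16_uu_smooth k τ hz).mul ?_
    exact (hβ.sm.comp (contDiff_const.mul contDiff_id)).contDiffAt

/-- the local bound -/
lemma A16_loc (r : Bool) {β : ℂ → ℂ} (hβ : CIg S0 β) (N : ℕ) :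
    ∃ C h0 : ℝ, 0 < C ∧ 0 < h0 ∧ ∀ (k : ℤ) (τ : ℝ) (h ζ : ℂ), Rl r h → Rl r ζ → ‖h‖ ≤ h0 →
    ‖I1 r k τ β h ζ‖ ≤ C * ((√((1 + ‖Cc r k τ h‖) ^ nr r))⁻¹ *
      ((1 + ‖ζ‖ / (1 + ‖Cc r k τ h‖)) ^ N)⁻¹) := by
  obtain ⟨χ, hχ⟩ := exists_chi
  obtain ⟨C1, h1, hC1, hh1, H1⟩ := loc_sup r hβ
  obtain ⟨C2, h2, hC2, hh2, H2⟩ := loc_ns r hβ hχ (N + 1)
  refine ⟨C1 * 11 ^ N + C2, min h1 h2, by positivity, lt_min hh1 hh2, ?_⟩
  intro k τ h ζ hh hζ hle
  have b1 := H1 k τ h ζ hh hζ (hle.trans (min_le_left _ _))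
  have b2 := H2 k τ h ζ hh hζ (hle.trans (min_le_right _ _))
  set a : ℝ := 1 + ‖Cc r k τ h‖ with ha
  have ha1 : 1 ≤ a := by
    have := norm_nonneg (Cc r k τ h)
    linarith
  have ha0 : 0 < a := by linarith
  have hnr : (1 : ℝ) ≤ nr r ∧ nr r ≤ 2 := by
    cases r
    · simp [nr]
    · simp [nr]
  have hZ : ‖Zz r ζ‖ = 2 * Real.pi * nr r * ‖ζ‖ := by
    unfold Zz
    rw [norm_mul, Complex.norm_conj]
    congr 1
    rw [norm_mul, norm_mul, Complex.norm_real, Complex.norm_natCast, Real.norm_of_nonneg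
      Real.pi_pos.le]
    norm_num
  have hζZ : ‖ζ‖ ≤ ‖Zz r ζ‖ := by
    rw [hZ]
    have h3 : 1 ≤ 2 * Real.pi * nr r := by
      have := Real.pi_gt_three
      nlinarith [hnr.1]
    have := norm_nonneg ζ
    nlinarith
  set x : ℝ := 1 + ‖ζ‖ / a with hx
  have hx1 : 1 ≤ x := by
    have : 0 ≤ ‖ζ‖ / a := by positivity
    linarith
  have hx0 : 0 < x := by linarith
  have hs0 : 0 < √(a ^ nr r) := Real.sqrt_pos.2 (by positivity)
  have hsa : √(a ^ nr r) ≤ a := by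
    rw [Real.sqrt_le_left ha0.le]
    exact pow_le_pow_right₀ ha1 hnr.2
  have hP : 0 < (√(a ^ nr r))⁻¹ * (x ^ N)⁻¹ := by positivity
  by_cases hc : ‖Zz r ζ‖ ≤ 10 * a
  · have h4 : x ≤ 11 := by
      have : ‖ζ‖ / a ≤ 10 := by
        rw [div_le_iff₀ ha0]
        exact hζZ.trans hc
      linarith
    have h5 : x ^ N ≤ 11 ^ N := pow_le_pow_left₀ hx0.le h4 N
    calc ‖I1 r k τ β h ζ‖ ≤ C1 * (√(a ^ nr r))⁻¹ := b1
      _ = C1 * x ^ N * ((√(a ^ nr r))⁻¹ * (x ^ N)⁻¹) := by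
          field_simp
      _ ≤ C1 * 11 ^ N * ((√(a ^ nr r))⁻¹ * (x ^ N)⁻¹) := by gcongr
      _ ≤ (C1 * 11 ^ N + C2) * ((√(a ^ nr r))⁻¹ * (x ^ N)⁻¹) := by
          gcongr
          linarith
  · push Not at hc
    have hZ0 : 0 < ‖Zz r ζ‖ := by linarith
    have hχ0 : χ (Cc r k τ h / Zz r ζ) = 0 := by
      by_contra h4
      have h5 := (hχ.ts (subset_tsupport _ h4)).1
      rw [norm_div, lt_div_iff₀ hZ0] at h5
      have h6 : ‖Cc r k τ h‖ ≤ a := by linarith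
      linarith
    rw [hχ0, sub_zero, one_mul] at b2
    have h4 : 1 + ‖Cc r k τ h‖ + ‖Zz r ζ‖ = a + ‖Zz r ζ‖ := rfl
    rw [h4] at b2
    have h5 : x ≤ a + ‖Zz r ζ‖ := by
      have : ‖ζ‖ / a ≤ ‖Zz r ζ‖ := by
        rw [div_le_iff₀ ha0]
        nlinarith
      linarith
    have h6 : √(a ^ nr r) * x ^ N ≤ (a + ‖Zz r ζ‖) ^ (N + 1) := by
      rw [pow_succ, mul_comm]
      exact mul_le_mul (pow_le_pow_left₀ hx0.le h5 N) (hsa.trans (by linarith)) hs0.le (by positivity)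
    have h7 : ‖I1 r k τ β h ζ‖ * (√(a ^ nr r) * x ^ N) ≤ C2 :=
      (mul_le_mul_of_nonneg_left h6 (norm_nonneg _)).trans b2
    calc ‖I1 r k τ β h ζ‖ = ‖I1 r k τ β h ζ‖ * (√(a ^ nr r) * x ^ N) *
          ((√(a ^ nr r))⁻¹ * (x ^ N)⁻¹) := by field_simp
      _ ≤ C2 * ((√(a ^ nr r))⁻¹ * (x ^ N)⁻¹) := by gcongr
      _ ≤ (C1 * 11 ^ N + C2) * ((√(a ^ nr r))⁻¹ * (x ^ N)⁻¹) := by
          gcongr
          have : 0 < C1 * 11 ^ N := by positivity
          linarith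

variable (K : Type) [Field K] [NumberField K]

lemma A16_Phi_smooth {β : Bool → ℂ → ℂ} (hβ : ∀ r, CIg S0 (β r)) (o : InfinitePlace K → ℂ)
    (θ : Par (InfinitePlace K)) : ContDiff ℝ ∞ (Phi K β o θ) := by
  unfold Phi
  refine contDiff_prod fun w _ => ?_
  exact (A16_phi_smooth (θ.1 w) (θ.2 w) (hβ (tp K w)) ((starRingEnd ℂ) (o w))).comp
    (lamK K w).contDiff

lemma A16_Phi_supp {β : Bool → ℂ → ℂ} (hβ : ∀ r, CIg S0 (β r)) {o : InfinitePlace K → ℂ}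
    (ho : Rot K o) (θ : Par (InfinitePlace K)) {v : EK K} (hv : Phi K β o θ v ≠ 0) :
    ‖v‖ ^ 2 ≤ dg K * (3 / 2) ^ 2 := by
  refine norm_le_lamK K fun w => ?_
  have h1 := Finset.prod_ne_zero_iff.1 hv w (Finset.mem_univ _)
  have h2 := A16_supp (hβ (tp K w)) (right_ne_zero_of_mul h1)
  rw [norm_mul, Complex.norm_conj, (ho w).1, one_mul] at h2
  exact h2.le

/-- Poisson summation for the differenced sum -/
theorem Sy_form {β : Bool → ℂ → ℂ} (hβ : ∀ r, CIg S0 (β r)) : ∃ c : ℝ, 0 < c ∧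
    ∀ (A : Matrix (Fin (dg K)) (Fin (dg K)) ℝ) (o : InfinitePlace K → ℂ)
    (θ : Par (InfinitePlace K)) (v0 : EK K) (y : Fin (dg K) → ℤ), A.det ≠ 0 → Rot K o →
    (∀ w, ‖lamK K w (vc A y)‖ ≤ 1 / 10) →
    (Summable fun ζ : Fin (dg K) → ℤ => ‖∏ w, I1 (tp K w) (θ.1 w) (θ.2 w) (β (tp K w))
      ((starRingEnd ℂ) (o w) * lamK K w (vc A y))
      ((starRingEnd ℂ) (o w) * lamK K w (vc (du A) ζ))‖) ∧
    Sy K β o θ A v0 y = (Mv A * c : ℝ) * ∑' ζ : Fin (dg K) → ℤ, e ⟪v0, vc (du A) ζ⟫ *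
      ∏ w, I1 (tp K w) (θ.1 w) (θ.2 w) (β (tp K w))
      ((starRingEnd ℂ) (o w) * lamK K w (vc A y))
      ((starRingEnd ℂ) (o w) * lamK K w (vc (du A) ζ)) := by
  obtain ⟨c, hc, hFT⟩ := FT_prod K
  refine ⟨c, hc, ?_⟩
  intro A o θ v0 y hA ho _
  set h : EK K := vc A y with hh
  set f : EK K → ℂ := fun v => Phi K β o θ (v + h) * (starRingEnd ℂ) (Phi K β o θ (v - h)) with hf
  have hsm := A16_Phi_smooth K hβ o θ
  have hfs : ContDiff ℝ ∞ f := by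
    refine (hsm.comp (contDiff_id.add contDiff_const)).mul ?_
    exact Complex.conjCLE.contDiff.comp (hsm.comp (contDiff_id.sub contDiff_const))
  have hfc : HasCompactSupport f := by
    refine HasCompactSupport.intro (isCompact_closedBall (-h) (√(dg K * (3 / 2) ^ 2))) ?_
    intro v hv
    by_contra h1
    apply hv
    have h2 := A16_Phi_supp K hβ ho θ (left_ne_zero_of_mul h1)
    rw [mem_closedBall_iff_norm, sub_neg_eq_add]
    exact Real.le_sqrt_of_sq_le h2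
  set g : InfinitePlace K → ℂ → ℂ := fun w z => U1 (θ.1 w) (θ.2 w) (lamK K w h) z *
      (β (tp K w) ((starRingEnd ℂ) (o w) * (z + lamK K w h)) *
        (starRingEnd ℂ) (β (tp K w) ((starRingEnd ℂ) (o w) * (z - lamK K w h)))) with hg
  have hform : f = fun v : EK K => ∏ w, g w (lamK K w v) := by
    funext v
    simp only [hf, hg, Phi, map_prod, ← Finset.prod_mul_distrib]
    refine Finset.prod_congr rfl fun w _ => ?_
    unfold U1
    rw [map_add, map_sub, map_mul]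
    ring
  have hFTf : ∀ ξ : EK K, FT f ξ = (c : ℂ) * ∏ w, I1 (tp K w) (θ.1 w) (θ.2 w) (β (tp K w))
      ((starRingEnd ℂ) (o w) * lamK K w h) ((starRingEnd ℂ) (o w) * lamK K w ξ) := by
    intro ξ
    rw [hform, hFT g ξ]
    congr 1
    refine Finset.prod_congr rfl fun w _ => ?_
    exact A16_I1_rot (tp K w) (θ.1 w) (θ.2 w) (A16_zero (hβ _)) (ho w).1 (ho w).2 _ _
  obtain ⟨hs, ht⟩ := pois K hA hfs hfc v0
  simp only [hFTf] at hs ht
  constructor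
  · simp only [norm_mul] at hs ⊢
    rw [Complex.norm_real, Real.norm_of_nonneg hc.le] at hs
    exact (summable_mul_left_iff hc.ne').1 hs
  · unfold Sy
    have e1 : ∀ z : Fin (dg K) → ℤ, Phi K β o θ (v0 + vc A z + vc A y) *
        (starRingEnd ℂ) (Phi K β o θ (v0 + vc A z - vc A y)) = f (v0 + vc A z) := fun z => rfl
    rw [tsum_congr e1, ht]
    have e2 : ∀ ζ : Fin (dg K) → ℤ, e ⟪v0, vc (du A) ζ⟫ * ((c : ℂ) *
        ∏ w, I1 (tp K w) (θ.1 w) (θ.2 w) (β (tp K w)) ((starRingEnd ℂ) (o w) * lamK K w h)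
          ((starRingEnd ℂ) (o w) * lamK K w (vc (du A) ζ))) = (c : ℂ) *
        (e ⟪v0, vc (du A) ζ⟫ * ∏ w, I1 (tp K w) (θ.1 w) (θ.2 w) (β (tp K w))
          ((starRingEnd ℂ) (o w) * lamK K w h)
          ((starRingEnd ℂ) (o w) * lamK K w (vc (du A) ζ))) := fun ζ => by ring
    rw [tsum_congr e2, tsum_mul_left]
    push_cast
    ring

/-- the trivial (Weyl) bound -/
theorem weylS (B : ℝ) {β : Bool → ℂ → ℂ} (hβ : ∀ r, CIg S0 (β r)) : ∃ C h0 : ℝ, 0 < C ∧ 0 < h0 ∧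
    ∀ A, GB K B A → ∀ (o : InfinitePlace K → ℂ) (θ : Par (InfinitePlace K)) (v0 : EK K)
    (y : Fin (dg K) → ℤ), Rot K o → (∀ w, ‖lamK K w (vc A y)‖ ≤ h0) →
    ‖Sy K β o θ A v0 y‖ ≤ C * (Mv A * ∏ w, (√((1 + ‖Cc (tp K w) (θ.1 w) (θ.2 w)
        (lamK K w (vc A y))‖) ^ mult w))⁻¹ +
      ∏ w, √((1 + ‖Cc (tp K w) (θ.1 w) (θ.2 w) (lamK K w (vc A y))‖) ^ mult w)) := by
  obtain ⟨c, hc, HS⟩ := Sy_form K hβ
  obtain ⟨C3, hC3, H3⟩ := sum_dec K B (dg K + 1) le_rfl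
  have hloc : ∀ r, ∃ C h0 : ℝ, 0 < C ∧ 0 < h0 ∧ ∀ (k : ℤ) (τ : ℝ) (h ζ : ℂ), Rl r h → Rl r ζ →
      ‖h‖ ≤ h0 → ‖I1 r k τ (β r) h ζ‖ ≤ C * ((√((1 + ‖Cc r k τ h‖) ^ nr r))⁻¹ *
      ((1 + ‖ζ‖ / (1 + ‖Cc r k τ h‖)) ^ (dg K + 1))⁻¹) := fun r => A16_loc r (hβ r) _
  choose CL hL hCL hhL HL using hloc
  refine ⟨c * (∏ w : InfinitePlace K, CL (tp K w)) * C3, min (1 / 10) (min (hL true) (hL false)),
    by
      have : 0 < ∏ w : InfinitePlace K, CL (tp K w) := Finset.prod_pos fun w _ => hCL _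
      positivity,
    lt_min (by norm_num) (lt_min (hhL _) (hhL _)), ?_⟩
  intro A hA o θ v0 y ho hy
  obtain ⟨hsum, hSy⟩ := HS A o θ v0 y hA.1 ho fun w => (hy w).trans (min_le_left _ _)
  set P : InfinitePlace K → ℝ := fun w =>
    1 + ‖Cc (tp K w) (θ.1 w) (θ.2 w) (lamK K w (vc A y))‖ with hP
  have hP1 : ∀ w, 1 ≤ P w := fun w => by
    have := norm_nonneg (Cc (tp K w) (θ.1 w) (θ.2 w) (lamK K w (vc A y)))
    simp only [hP]
    linarith
  have hP0 : ∀ w, 0 < P w := fun w => by linarith [hP1 w]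
  have hCrot : ∀ w, ‖Cc (tp K w) (θ.1 w) (θ.2 w) ((starRingEnd ℂ) (o w) * lamK K w (vc A y))‖ =
      ‖Cc (tp K w) (θ.1 w) (θ.2 w) (lamK K w (vc A y))‖ := by
    intro w
    unfold Cc
    simp only [norm_mul, Complex.norm_conj, (ho w).1, one_mul]
  have hterm : ∀ (ζ : Fin (dg K) → ℤ), ‖∏ w, I1 (tp K w) (θ.1 w) (θ.2 w) (β (tp K w))
      ((starRingEnd ℂ) (o w) * lamK K w (vc A y))
      ((starRingEnd ℂ) (o w) * lamK K w (vc (du A) ζ))‖ ≤
      ((∏ w, CL (tp K w)) * ∏ w, (√(P w ^ mult w))⁻¹) *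
        ∏ w, ((1 + ‖lamK K w (0 + vc (du A) ζ)‖ / P w) ^ (dg K + 1))⁻¹ := by
    intro ζ
    rw [norm_prod, ← Finset.prod_mul_distrib, ← Finset.prod_mul_distrib]
    refine Finset.prod_le_prod (fun w _ => norm_nonneg _) fun w _ => ?_
    have hle : ‖(starRingEnd ℂ) (o w) * lamK K w (vc A y)‖ ≤ hL (tp K w) := by
      rw [norm_mul, Complex.norm_conj, (ho w).1, one_mul]
      have h1 := (hy w).trans (min_le_right _ _)
      cases hr : tp K w
      · exact h1.trans (min_le_right _ _)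
      · exact h1.trans (min_le_left _ _)
    have h1 := HL (tp K w) (θ.1 w) (θ.2 w) _ ((starRingEnd ℂ) (o w) * lamK K w (vc (du A) ζ))
      ((ho w).2.conj.mul (lamK_Rl K _ w)) ((ho w).2.conj.mul (lamK_Rl K _ w)) hle
    rw [hCrot w, norm_mul, Complex.norm_conj, (ho w).1, one_mul] at h1
    rw [zero_add, mult_nr K w]
    refine h1.trans (le_of_eq ?_)
    ring
  obtain ⟨hs4, ht4⟩ := H3 (du A) (GB_du K hA) 0 P hP0
  have hD : 0 ≤ (∏ w, CL (tp K w)) * ∏ w, (√(P w ^ mult w))⁻¹ := by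
    refine mul_nonneg (Finset.prod_nonneg fun w _ => (hCL _).le) (Finset.prod_nonneg fun w _ => ?_)
    positivity
  have hMv : 0 < Mv A := Mv_pos hA.1
  have hS : ‖∑' ζ : Fin (dg K) → ℤ, e ⟪v0, vc (du A) ζ⟫ *
      ∏ w, I1 (tp K w) (θ.1 w) (θ.2 w) (β (tp K w))
      ((starRingEnd ℂ) (o w) * lamK K w (vc A y))
      ((starRingEnd ℂ) (o w) * lamK K w (vc (du A) ζ))‖ ≤
      ((∏ w, CL (tp K w)) * ∏ w, (√(P w ^ mult w))⁻¹) *
        (C3 * (1 + Mv (du A) * ∏ w, P w ^ mult w)) := by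
    have hn : ∀ ζ : Fin (dg K) → ℤ, ‖e ⟪v0, vc (du A) ζ⟫ *
      ∏ w, I1 (tp K w) (θ.1 w) (θ.2 w) (β (tp K w))
      ((starRingEnd ℂ) (o w) * lamK K w (vc A y))
      ((starRingEnd ℂ) (o w) * lamK K w (vc (du A) ζ))‖ =
      ‖∏ w, I1 (tp K w) (θ.1 w) (θ.2 w) (β (tp K w))
      ((starRingEnd ℂ) (o w) * lamK K w (vc A y))
      ((starRingEnd ℂ) (o w) * lamK K w (vc (du A) ζ))‖ := fun ζ => by
      rw [norm_mul, e_norm, one_mul]
    have hsum' : Summable fun ζ : Fin (dg K) → ℤ => ‖e ⟪v0, vc (du A) ζ⟫ *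
      ∏ w, I1 (tp K w) (θ.1 w) (θ.2 w) (β (tp K w))
      ((starRingEnd ℂ) (o w) * lamK K w (vc A y))
      ((starRingEnd ℂ) (o w) * lamK K w (vc (du A) ζ))‖ := by
      simp only [hn]
      exact hsum
    refine (norm_tsum_le_tsum_norm hsum').trans ?_
    simp only [hn]
    refine (hsum.tsum_le_tsum hterm (hs4.mul_left _)).trans ?_
    rw [tsum_mul_left]
    exact mul_le_mul_of_nonneg_left ht4 hD
  rw [hSy, norm_mul, Complex.norm_real, Real.norm_of_nonneg (by positivity)]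
  refine (mul_le_mul_of_nonneg_left hS (by positivity)).trans (le_of_eq ?_)
  rw [Mv_du]
  have e1 : ∏ w, P w ^ mult w = (∏ w, √(P w ^ mult w)) * ∏ w, √(P w ^ mult w) := by
    rw [← Finset.prod_mul_distrib]
    refine Finset.prod_congr rfl fun w _ => ?_
    rw [Real.mul_self_sqrt]
    have := hP0 w
    positivity
  have e2 : (∏ w, (√(P w ^ mult w))⁻¹) * ∏ w, √(P w ^ mult w) = 1 := by
    rw [← Finset.prod_mul_distrib]
    refine Finset.prod_eq_one fun w _ => ?_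
    have : 0 < √(P w ^ mult w) := Real.sqrt_pos.2 (by have := hP0 w; positivity)
    exact inv_mul_cancel₀ this.ne'
  rw [e1]
  set S1 := ∏ w, √(P w ^ mult w) with hS1
  set S2 := ∏ w, (√(P w ^ mult w))⁻¹ with hS2
  have e3 : Mv A * (Mv A)⁻¹ = 1 := mul_inv_cancel₀ hMv.ne'
  change Mv A * c * ((∏ w, CL (tp K w)) * S2 * (C3 * (1 + (Mv A)⁻¹ * (S1 * S1)))) =
    c * (∏ w, CL (tp K w)) * C3 * (Mv A * S2 + S1)
  calc _ = c * (∏ w, CL (tp K w)) * C3 * (Mv A * S2 + (Mv A * (Mv A)⁻¹) * (S2 * S1) * S1) := by ring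
    _ = _ := by rw [e3, e2]; ring

end Pool.Agent.T2H29.TA
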