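import Pool.Agent.T2H29.TA.A14d
import Pool.Agent.T2H29.TA.A16

/-!
# Good shifts: the terms far from the stationary points
-/

set_option autoImplicit false
set_option linter.unusedSectionVars false

namespace Pool.Agent.T2H29.TA

open Finset NumberField NumberField.InfinitePlace Module MeasureTheory
open Pool.Agent.T2H29.SW
open scoped RealInnerProductSpace ContDiff

lemma prod_sub_prod {κ : Type} (s : Finset κ) {C δ : ℝ} (hC : 0 ≤ C) (hδ : 0 ≤ δ)
    (x D : κ → ℝ) (b : κ → ℂ) (hx0 : ∀ w, 0 ≤ x w) (hx1 : ∀ w, x w ≤ 1) (hD : ∀ w, 0 ≤ D w)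
    (h1 : ∀ w, ‖b w‖ ≤ C * D w) (h2 : ∀ w, (1 - x w) * ‖b w‖ ≤ C * δ * D w) :
    ‖∏ w ∈ s, b w‖ ≤ C ^ s.card * ∏ w ∈ s, D w ∧
    ‖∏ w ∈ s, b w - ∏ w ∈ s, ((x w : ℂ) * b w)‖ ≤ s.card * C ^ s.card * δ * ∏ w ∈ s, D w := by
  classical
  induction s using Finset.induction_on with
  | empty => simp
  | insert w s hw ih =>
    rw [Finset.prod_insert hw, Finset.prod_insert hw, Finset.prod_insert hw,
      Finset.card_insert_of_notMem hw]
    have hP : 0 ≤ ∏ w ∈ s, D w := Finset.prod_nonneg fun w _ => hD w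
    constructor
    · rw [norm_mul]
      calc ‖b w‖ * ‖∏ w ∈ s, b w‖ ≤ (C * D w) * (C ^ s.card * ∏ w ∈ s, D w) :=
            mul_le_mul (h1 w) ih.1 (norm_nonneg _) (mul_nonneg hC (hD w))
        _ = _ := by ring
    · have e1 : b w * ∏ w ∈ s, b w - (x w : ℂ) * b w * ∏ w ∈ s, ((x w : ℂ) * b w) =
          ((1 - x w : ℝ) : ℂ) * b w * ∏ w ∈ s, b w +
          (x w : ℂ) * b w * (∏ w ∈ s, b w - ∏ w ∈ s, ((x w : ℂ) * b w)) := by
        push_cast; ring
      rw [e1]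
      refine (norm_add_le _ _).trans ?_
      rw [norm_mul, norm_mul, norm_mul, norm_mul, Complex.norm_real, Complex.norm_real,
        Real.norm_of_nonneg (by linarith [hx1 w]), Real.norm_of_nonneg (hx0 w)]
      have g1 : (1 - x w) * ‖b w‖ * ‖∏ w ∈ s, b w‖ ≤
          (C * δ * D w) * (C ^ s.card * ∏ w ∈ s, D w) :=
        mul_le_mul (h2 w) ih.1 (norm_nonneg _) (by have := hD w; positivity)
      have g2 : x w * ‖b w‖ ≤ C * D w :=
        (mul_le_of_le_one_left (norm_nonneg _) (hx1 w)).trans (h1 w)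
      have g3 : x w * ‖b w‖ * ‖∏ w ∈ s, b w - ∏ w ∈ s, ((x w : ℂ) * b w)‖ ≤
          (C * D w) * (s.card * C ^ s.card * δ * ∏ w ∈ s, D w) :=
        mul_le_mul g2 ih.2 (norm_nonneg _) (by have := hD w; positivity)
      refine (add_le_add g1 g3).trans (le_of_eq ?_)
      push_cast
      ring

lemma BL_prod {E κ : Type} [NormedAddCommGroup E] (s : Finset κ) {L : ℝ} (hL : 0 ≤ L)
    {F : κ → E → ℂ} (h : ∀ w, BL L (F w)) : BL (s.card * L) (fun x => ∏ w ∈ s, F w x) := by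
  classical
  induction s using Finset.induction_on with
  | empty =>
    refine ⟨fun x => by simp, fun x y => by simp⟩
  | insert w s hw ih =>
    refine ⟨fun x => ?_, fun x y => ?_⟩
    · beta_reduce
      rw [Finset.prod_insert hw, norm_mul]
      exact mul_le_one₀ ((h w).1 x) (norm_nonneg _) (ih.1 x)
    · beta_reduce
      rw [Finset.prod_insert hw, Finset.prod_insert hw, Finset.card_insert_of_notMem hw]
      have e1 : F w x * ∏ w ∈ s, F w x - F w y * ∏ w ∈ s, F w y =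
          (F w x - F w y) * ∏ w ∈ s, F w x + F w y * (∏ w ∈ s, F w x - ∏ w ∈ s, F w y) := by
        ring
      rw [e1]
      refine (norm_add_le _ _).trans ?_
      rw [norm_mul, norm_mul]
      have g1 : ‖F w x - F w y‖ * ‖∏ w ∈ s, F w x‖ ≤ L * ‖x - y‖ :=
        (mul_le_of_le_one_right (norm_nonneg _) (ih.1 x)).trans ((h w).2 x y)
      have g2 : ‖F w y‖ * ‖∏ w ∈ s, F w x - ∏ w ∈ s, F w y‖ ≤ s.card * L * ‖x - y‖ :=
        (mul_le_of_le_one_left (norm_nonneg _) ((h w).1 y)).trans (ih.2 x y)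
      push_cast
      linarith

lemma Q0_of_chi {χ : ℂ → ℝ} (hχ : Chi χ) {q : ℂ} (h : χ q ≠ 0) : q ∈ Q0 :=
  hχ.ts (subset_tsupport _ h)

/-- the local bounds -/
lemma loc_all {β : Bool → ℂ → ℂ} (hβ : ∀ r, CIg S0 (β r)) {χ : ℂ → ℝ} (hχ : Chi χ) (N N' : ℕ) :
    ∃ C h0 : ℝ, 1 ≤ C ∧ 0 < h0 ∧ ∀ (r : Bool) (k : ℤ) (τ : ℝ) (h ζ : ℂ), Rl r h → Rl r ζ →
      ‖h‖ ≤ h0 →
      ‖I1 r k τ (β r) h ζ‖ ≤ C * ((1 + ‖Zz r ζ‖ / (1 + ‖Cc r k τ h‖)) ^ N)⁻¹ ∧
      (1 - χ (Cc r k τ h / Zz r ζ)) * ‖I1 r k τ (β r) h ζ‖ ≤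
        C * ((1 + ‖Cc r k τ h‖) ^ N')⁻¹ * ((1 + ‖Zz r ζ‖ / (1 + ‖Cc r k τ h‖)) ^ N)⁻¹ := by
  choose Ca ha hCa hha hA using fun r => loc_sup r (hβ r)
  choose Cb hb hCb hhb hB using fun r => loc_ns r (hβ r) hχ (N + N')
  have e0 : ∀ (f : Bool → ℝ) (hf : ∀ r, 0 < f r) (r : Bool), f r ≤ f true + f false := by
    intro f hf r
    cases r
    · linarith [hf true]
    · linarith [hf false]
  refine ⟨1 + (Ca true + Ca false) * 11 ^ N + (Cb true + Cb false),
    min (min (ha true) (ha false)) (min (hb true) (hb false)), ?_, ?_, ?_⟩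
  · have h1 := hCa true
    have h2 := hCa false
    have h3 := hCb true
    have h4 := hCb false
    have h5 : 0 ≤ (Ca true + Ca false) * 11 ^ N := by positivity
    linarith
  · exact lt_min (lt_min (hha _) (hha _)) (lt_min (hhb _) (hhb _))
  intro r k τ h ζ hh hζ hle
  have h1a : ‖h‖ ≤ ha r := by
    cases r
    · exact hle.trans ((min_le_left _ _).trans (min_le_right _ _))
    · exact hle.trans ((min_le_left _ _).trans (min_le_left _ _))
  have h1b : ‖h‖ ≤ hb r := by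
    cases r
    · exact hle.trans ((min_le_right _ _).trans (min_le_right _ _))
    · exact hle.trans ((min_le_right _ _).trans (min_le_left _ _))
  have g1 := hA r k τ h ζ hh hζ h1a
  have g2 := hB r k τ h ζ hh hζ h1b
  set c := ‖Cc r k τ h‖ with hc
  set z := ‖Zz r ζ‖ with hz
  set b := ‖I1 r k τ (β r) h ζ‖ with hb'
  have hc0 : 0 ≤ c := norm_nonneg _
  have hz0 : 0 ≤ z := norm_nonneg _
  have hb0 : 0 ≤ b := norm_nonneg _
  have hCa0 := hCa true
  have hCa1 := hCa false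
  have hCb0 := hCb true
  have hCb1 := hCb false
  have hu0 : 0 ≤ z / (1 + c) := by positivity
  have e1 : 1 + c + z = (1 + c) * (1 + z / (1 + c)) := by field_simp
  have g3 : (1 - χ (Cc r k τ h / Zz r ζ)) * b ≤
      Cb r * ((1 + c) ^ N')⁻¹ * ((1 + z / (1 + c)) ^ N)⁻¹ := by
    have h3 : (1 - χ (Cc r k τ h / Zz r ζ)) * b ≤ Cb r * ((1 + c + z) ^ (N + N'))⁻¹ := by
      rw [← div_eq_mul_inv, le_div_iff₀ (by positivity)]
      exact g2
    refine h3.trans ?_
    rw [mul_assoc]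
    refine mul_le_mul_of_nonneg_left ?_ (hCb r).le
    rw [← mul_inv]
    refine inv_anti₀ (by positivity) ?_
    rw [e1, mul_pow, pow_add, pow_add]
    have h4 : 1 ≤ (1 + c) ^ N := one_le_pow₀ (by linarith)
    have h5 : 1 ≤ (1 + z / (1 + c)) ^ N' := one_le_pow₀ (by linarith)
    have h6 : 1 ≤ (1 + c) ^ N * (1 + z / (1 + c)) ^ N' := one_le_mul_of_one_le_of_one_le h4 h5
    have h7 : 0 ≤ (1 + c) ^ N' * (1 + z / (1 + c)) ^ N := by positivity
    calc (1 + c) ^ N' * (1 + z / (1 + c)) ^ N = (1 + c) ^ N' * (1 + z / (1 + c)) ^ N * 1 := by ring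
      _ ≤ (1 + c) ^ N' * (1 + z / (1 + c)) ^ N * ((1 + c) ^ N * (1 + z / (1 + c)) ^ N') :=
        mul_le_mul_of_nonneg_left h6 h7
      _ = _ := by ring
  have hCbr := e0 Cb hCb r
  have hCar := e0 Ca hCa r
  have hC11 : 0 ≤ (Ca true + Ca false) * 11 ^ N := by positivity
  constructor
  · by_cases hzc : z ≤ 10 * (1 + c)
    · have h3 : b ≤ Ca r := by
        refine g1.trans ?_
        refine mul_le_of_le_one_right (hCa r).le ?_
        refine inv_le_one_of_one_le₀ ?_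
        rw [Real.one_le_sqrt]
        exact one_le_pow₀ (by linarith)
      have h4 : z / (1 + c) ≤ 10 := by
        rw [div_le_iff₀ (by positivity)]
        exact hzc
      have h5 : (1 + z / (1 + c)) ^ N ≤ 11 ^ N := pow_le_pow_left₀ (by positivity) (by linarith) N
      have h6 : 1 ≤ 11 ^ N * ((1 + z / (1 + c)) ^ N)⁻¹ := by
        rw [← div_eq_mul_inv, one_le_div (by positivity)]
        exact h5
      calc b ≤ Ca r * 1 := by linarith
        _ ≤ Ca r * (11 ^ N * ((1 + z / (1 + c)) ^ N)⁻¹) :=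
          mul_le_mul_of_nonneg_left h6 (hCa r).le
        _ ≤ (Ca true + Ca false) * (11 ^ N * ((1 + z / (1 + c)) ^ N)⁻¹) :=
          mul_le_mul_of_nonneg_right hCar (by positivity)
        _ = (Ca true + Ca false) * 11 ^ N * ((1 + z / (1 + c)) ^ N)⁻¹ := by ring
        _ ≤ _ := mul_le_mul_of_nonneg_right (by linarith) (by positivity)
    · push Not at hzc
      have hχ0 : χ (Cc r k τ h / Zz r ζ) = 0 := by
        by_contra h0
        have h4 := (Q0_of_chi hχ h0).1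
        have hzpos : 0 < z := by linarith
        rw [norm_div, lt_div_iff₀ hzpos] at h4
        change 1 / 10 * z < c at h4
        linarith
      rw [hχ0, sub_zero, one_mul] at g3
      refine g3.trans ?_
      refine mul_le_mul_of_nonneg_right ?_ (by positivity)
      have h3 : ((1 + c) ^ N')⁻¹ ≤ 1 := inv_le_one_of_one_le₀ (one_le_pow₀ (by linarith))
      have h4 : Cb r * ((1 + c) ^ N')⁻¹ ≤ Cb r := mul_le_of_le_one_right (hCb r).le h3
      linarith
  · refine g3.trans ?_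
    refine mul_le_mul_of_nonneg_right ?_ (by positivity)
    exact mul_le_mul_of_nonneg_right (by linarith) (by positivity)

lemma chiI_eq (r : Bool) (k : ℤ) (τ : ℝ) (β : ℂ → ℂ) (χ : ℂ → ℝ) (h ζ : ℂ) :
    (χ (Cc r k τ h / Zz r ζ) : ℂ) * I1 r k τ β h ζ = Am r k τ β χ h ζ *
      Complex.exp (Complex.I * ((Cc r k τ h * TH h (Zz r ζ / Cc r k τ h)).re : ℝ)) := by
  unfold Am
  have : Complex.exp (-(Complex.I * ((Cc r k τ h * TH h (Zz r ζ / Cc r k τ h)).re : ℝ))) *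
      Complex.exp (Complex.I * ((Cc r k τ h * TH h (Zz r ζ / Cc r k τ h)).re : ℝ)) = 1 := by
    rw [← Complex.exp_add, neg_add_cancel, Complex.exp_zero]
  calc _ = (χ (Cc r k τ h / Zz r ζ) : ℂ) * I1 r k τ β h ζ * 1 := by ring
    _ = _ := by rw [← this]; ring

lemma cp_ge (r : Bool) (k : ℤ) (τ : ℝ) : |τ| ≤ ‖cp r k τ‖ := by
  cases r
  · unfold cp
    refine le_trans ?_ (Complex.abs_re_le_norm _)
    simp
  · unfold cp
    simp

lemma cp_Rl (r : Bool) (k : ℤ) (τ : ℝ) : Rl r (cp r k τ) := by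
  intro hr
  subst hr
  unfold cp
  simp

lemma Cc_norm (r : Bool) (k : ℤ) (τ : ℝ) (h : ℂ) : ‖Cc r k τ h‖ = 2 * ‖cp r k τ‖ * ‖h‖ := by
  unfold Cc
  rw [norm_mul, norm_mul, norm_neg]
  simp

lemma Rl_real (r : Bool) (x : ℝ) : Rl r (x : ℂ) := fun _ => Complex.ofReal_im x

lemma Rl_inv {r : Bool} {x : ℂ} (hx : Rl r x) : Rl r x⁻¹ := by
  intro hr
  rw [Complex.inv_im, hx hr]; simp

lemma Cc_Rl (r : Bool) (k : ℤ) (τ : ℝ) {h : ℂ} (hh : Rl r h) : Rl r (Cc r k τ h) := by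
  unfold Cc
  refine Rl_mul (Rl_mul ?_ (cp_Rl r k τ)) hh
  intro _
  simp

lemma Zz_norm (r : Bool) (ζ : ℂ) : ‖Zz r ζ‖ = 2 * Real.pi * nr r * ‖ζ‖ := by
  unfold Zz
  rw [norm_mul, norm_mul, norm_mul, RCLike.norm_conj, Complex.norm_real, Complex.norm_natCast,
    Real.norm_of_nonneg Real.pi_pos.le]
  simp

end Pool.Agent.T2H29.TA
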