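import Pool.Agent.T2H29.TA.Phi
import Pool.Agent.T2H29.TA.A1

/-!
# Decomposition into sectors
-/

set_option autoImplicit false
set_option linter.unusedSectionVars false

namespace Pool.Agent.T2H29.TA

open Finset NumberField NumberField.InfinitePlace Module MeasureTheory
open Pool.Agent.T2H29.SW
open scoped RealInnerProductSpace ContDiff

/-! ### sectors -/

lemma A17_sq (z : ℂ) : ‖z‖ ^ 2 = z.re ^ 2 + z.im ^ 2 := by
  rw [Complex.sq_norm, Complex.normSq_apply]
  ring

/-- a smooth function supported in a sector -/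
noncomputable def A17a (z : ℂ) : ℝ :=
  expNegInvGlue z.re * expNegInvGlue (z.re ^ 2 - 41 / 50 * (z.re ^ 2 + z.im ^ 2))

lemma A17_re : ContDiff ℝ ∞ fun z : ℂ => z.re := Complex.reCLM.contDiff
lemma A17_im : ContDiff ℝ ∞ fun z : ℂ => z.im := Complex.imCLM.contDiff

lemma A17a_sm : ContDiff ℝ ∞ A17a := by
  unfold A17a
  refine ContDiff.mul (expNegInvGlue.contDiff.comp A17_re) (expNegInvGlue.contDiff.comp ?_)
  exact (A17_re.pow 2).sub (contDiff_const.mul ((A17_re.pow 2).add (A17_im.pow 2)))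

lemma A17a_nonneg (z : ℂ) : 0 ≤ A17a z :=
  mul_nonneg (expNegInvGlue.nonneg _) (expNegInvGlue.nonneg _)

lemma A17a_pos {z : ℂ} (h1 : 0 < z.re) (h2 : 41 / 50 * (z.re ^ 2 + z.im ^ 2) < z.re ^ 2) :
    0 < A17a z :=
  mul_pos (expNegInvGlue.pos_of_pos h1) (expNegInvGlue.pos_of_pos (by linarith))

lemma A17a_supp {z : ℂ} (h : A17a z ≠ 0) :
    0 < z.re ∧ 41 / 50 * (z.re ^ 2 + z.im ^ 2) < z.re ^ 2 := by
  unfold A17a at h
  constructor
  · by_contra hc
    exact h (by rw [expNegInvGlue.zero_of_nonpos (not_lt.1 hc), zero_mul])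
  · by_contra hc
    exact h (by rw [expNegInvGlue.zero_of_nonpos (x := z.re ^ 2 - _)
      (by linarith [not_lt.1 hc]), mul_zero])

/-- a smooth function positive near the origin and zero where the weight is not zero -/
noncomputable def A17g (z : ℂ) : ℝ := expNegInvGlue (1 / 2 - (z.re ^ 2 + z.im ^ 2))

lemma A17g_sm : ContDiff ℝ ∞ A17g := by
  unfold A17g
  exact expNegInvGlue.contDiff.comp (contDiff_const.sub ((A17_re.pow 2).add (A17_im.pow 2)))

lemma A17_bmp_sm : ContDiff ℝ ∞ fun z : ℂ => bmp (‖z‖ ^ 2) := by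
  have h : (fun z : ℂ => bmp (‖z‖ ^ 2)) = fun z : ℂ => bmp (z.re ^ 2 + z.im ^ 2) := by
    funext z
    rw [A17_sq]
  rw [h]
  exact bmp.contDiff.comp ((A17_re.pow 2).add (A17_im.pow 2))

/-- roots of unity -/
noncomputable def A17R (n : ℕ) : Finset ℂ := Polynomial.nthRootsFinset n (1 : ℂ)

lemma A17R_mem {n : ℕ} (hn : 0 < n) (o : ℂ) : o ∈ A17R n ↔ o ^ n = 1 := by
  unfold A17R
  rw [Polynomial.mem_nthRootsFinset hn]

lemma A17R_norm {n : ℕ} (hn : 0 < n) {o : ℂ} (ho : o ∈ A17R n) : ‖o‖ = 1 :=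
  Complex.norm_eq_one_of_pow_eq_one ((A17R_mem hn o).1 ho) hn.ne'

lemma A17_conj_mul {o : ℂ} (ho : ‖o‖ = 1) : (starRingEnd ℂ) o * o = 1 := by
  rw [← Complex.normSq_eq_conj_mul_self, Complex.normSq_eq_norm_sq, ho]
  norm_num

/-- the denominator -/
noncomputable def A17D (n : ℕ) (b : ℂ → ℝ) (z : ℂ) : ℝ :=
  ∑ o ∈ A17R n, A17a ((starRingEnd ℂ) o * z) + b z + A17g z

lemma A17D_rot {n : ℕ} (hn : 0 < n) (b : ℂ → ℝ)
    (hb : ∀ o ∈ A17R n, ∀ z, b ((starRingEnd ℂ) o * z) = b z) (o : ℂ) (ho : o ∈ A17R n) (z : ℂ) :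
    A17D n b ((starRingEnd ℂ) o * z) = A17D n b z := by
  unfold A17D
  have ho1 := A17R_norm hn ho
  congr 1
  · congr 1
    · refine Finset.sum_bij' (fun u _ => u * o) (fun u _ => u * (starRingEnd ℂ) o) ?_ ?_ ?_ ?_ ?_
      · intro u hu
        rw [A17R_mem hn] at hu ho ⊢
        rw [mul_pow, hu, ho, one_mul]
      · intro u hu
        rw [A17R_mem hn] at hu ho ⊢
        rw [mul_pow, hu, ← map_pow, ho, map_one, one_mul]
      · intro u _
        rw [mul_assoc, mul_comm o, A17_conj_mul ho1, mul_one]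
      · intro u _
        rw [mul_assoc, A17_conj_mul ho1, mul_one]
      · intro u _
        rw [map_mul, mul_assoc]
    · exact hb o ho z
  · unfold A17g
    rw [← A17_sq, ← A17_sq, norm_mul, Complex.norm_conj, ho1, one_mul]

/-- the weight in one sector -/
noncomputable def A17b (n : ℕ) (b : ℂ → ℝ) (z : ℂ) : ℂ :=
  ((bmp (‖z‖ ^ 2) * A17a z / A17D n b z : ℝ) : ℂ)

lemma A17_closed : IsClosed {z : ℂ | 1 / 2 ≤ z.re ^ 2 + z.im ^ 2 ∧ z.re ^ 2 + z.im ^ 2 ≤ 3 / 2 ∧
    0 ≤ z.re ∧ 41 / 50 * (z.re ^ 2 + z.im ^ 2) ≤ z.re ^ 2} := by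
  have h1 : Continuous fun z : ℂ => z.re ^ 2 + z.im ^ 2 :=
    (Complex.continuous_re.pow 2).add (Complex.continuous_im.pow 2)
  refine (isClosed_le continuous_const h1).inter ((isClosed_le h1 continuous_const).inter
    ((isClosed_le continuous_const Complex.continuous_re).inter
      (isClosed_le (continuous_const.mul h1) (Complex.continuous_re.pow 2))))

lemma A17_gen {n : ℕ} (hn : 0 < n) (b : ℂ → ℝ) (hbs : ContDiff ℝ ∞ b) (hb0 : ∀ z, 0 ≤ b z)
    (hb : ∀ o ∈ A17R n, ∀ z, b ((starRingEnd ℂ) o * z) = b z)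
    (hp : ∀ z, z ≠ 0 → 0 < ∑ o ∈ A17R n, A17a ((starRingEnd ℂ) o * z) + b z) :
    CIg S0 (A17b n b) ∧ ∀ z, b z = 0 →
      ((bmp (‖z‖ ^ 2) : ℝ) : ℂ) = ∑ o ∈ A17R n, A17b n b ((starRingEnd ℂ) o * z) := by
  have hs0 : ∀ z, 0 ≤ ∑ o ∈ A17R n, A17a ((starRingEnd ℂ) o * z) := fun z =>
    sum_nonneg fun _ _ => A17a_nonneg _
  have hD : ∀ z, 0 < A17D n b z := by
    intro z
    unfold A17D
    by_cases hz : z = 0
    · have h1 : 0 < A17g z := by
        unfold A17g
        rw [hz]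
        refine expNegInvGlue.pos_of_pos ?_
        norm_num
      linarith [hs0 z, hb0 z]
    · have h1 : 0 ≤ A17g z := expNegInvGlue.nonneg _
      linarith [hp z hz]
  have hDs : ContDiff ℝ ∞ (A17D n b) := by
    unfold A17D
    refine ((ContDiff.sum fun o _ => A17a_sm.comp ?_).add hbs).add A17g_sm
    exact contDiff_const.mul contDiff_id
  have hsup : Function.support (A17b n b) ⊆ {z : ℂ | 1 / 2 ≤ z.re ^ 2 + z.im ^ 2 ∧
      z.re ^ 2 + z.im ^ 2 ≤ 3 / 2 ∧ 0 ≤ z.re ∧ 41 / 50 * (z.re ^ 2 + z.im ^ 2) ≤ z.re ^ 2} := by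
    intro z hz
    have h1 : bmp (‖z‖ ^ 2) ≠ 0 := by
      intro h0
      refine hz ?_
      unfold A17b
      rw [h0, zero_mul, zero_div, Complex.ofReal_zero]
    have h2 : A17a z ≠ 0 := by
      intro h0
      refine hz ?_
      unfold A17b
      rw [h0, mul_zero, zero_div, Complex.ofReal_zero]
    have h3 := bmp_supp h1
    have h4 := A17a_supp h2
    rw [A17_sq] at h3
    exact ⟨h3.1.le, h3.2.le, h4.1.le, h4.2.le⟩
  have hts : tsupport (A17b n b) ⊆ _ := closure_minimal hsup A17_closed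
  refine ⟨⟨?_, ?_, ?_⟩, ?_⟩
  · unfold A17b
    refine Complex.ofRealCLM.contDiff.comp ?_
    exact (A17_bmp_sm.mul A17a_sm).div hDs fun z => (hD z).ne'
  · refine HasCompactSupport.of_support_subset_isCompact (isCompact_closedBall (0 : ℂ) 2) ?_
    intro z hz
    obtain ⟨-, h2, -⟩ := hsup hz
    rw [mem_closedBall_zero_iff]
    rw [← A17_sq] at h2
    nlinarith [norm_nonneg z]
  · intro z hz
    obtain ⟨h1, h2, h3, h4⟩ := hts hz
    rw [← A17_sq] at h1 h2 h4
    refine ⟨?_, ?_, ?_⟩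
    · nlinarith [norm_nonneg z]
    · nlinarith [norm_nonneg z]
    · refine lt_of_pow_lt_pow_left₀ 2 h3 ?_
      nlinarith
  · intro z hz
    have e1 : ∀ o ∈ A17R n, A17b n b ((starRingEnd ℂ) o * z) =
        ((bmp (‖z‖ ^ 2) / A17D n b z * A17a ((starRingEnd ℂ) o * z) : ℝ) : ℂ) := by
      intro o ho
      unfold A17b
      rw [A17D_rot hn b hb o ho z, norm_mul, Complex.norm_conj, A17R_norm hn ho, one_mul]
      congr 1
      ring
    rw [sum_congr rfl e1, ← Complex.ofReal_sum, ← mul_sum]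
    congr 1
    by_cases h0 : bmp (‖z‖ ^ 2) = 0
    · rw [h0, zero_div, zero_mul]
    · have h1 := bmp_supp h0
      have h2 : A17g z = 0 := by
        unfold A17g
        refine expNegInvGlue.zero_of_nonpos ?_
        rw [← A17_sq]
        linarith [h1.1]
      have h3 : ∑ o ∈ A17R n, A17a ((starRingEnd ℂ) o * z) = A17D n b z := by
        unfold A17D
        rw [hz, h2]
        ring
      rw [h3, div_mul_cancel₀ _ (hD z).ne']

/-- twelve sectors cover the plane -/
lemma A17_cover (z : ℂ) (hz : z ≠ 0) : ∃ o ∈ A17R 12, 0 < A17a ((starRingEnd ℂ) o * z) := by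
  set k : ℤ := round (6 * z.arg / Real.pi) with hk
  have hk1 := abs_sub_round (6 * z.arg / Real.pi)
  rw [← hk] at hk1
  set o : ℂ := Complex.exp (((Real.pi * k / 6 : ℝ) : ℂ) * Complex.I) with ho
  have hmem : o ∈ A17R 12 := by
    rw [A17R_mem (by norm_num), ho, ← Complex.exp_nat_mul]
    rw [Complex.exp_eq_one_iff]
    refine ⟨k, ?_⟩
    push_cast
    ring
  refine ⟨o, hmem, ?_⟩
  set φ : ℝ := z.arg - Real.pi * k / 6 with hφ
  have hpi := Real.pi_pos
  have hφ1 : |φ| ≤ Real.pi / 12 := by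
    have e1 : φ = Real.pi / 6 * (6 * z.arg / Real.pi - k) := by
      rw [hφ]
      field_simp
    rw [e1, abs_mul, abs_of_pos (by positivity)]
    calc Real.pi / 6 * |6 * z.arg / Real.pi - k| ≤ Real.pi / 6 * (1 / 2) :=
          mul_le_mul_of_nonneg_left hk1 (by positivity)
      _ = Real.pi / 12 := by ring
  have hw : (starRingEnd ℂ) o * z = (‖z‖ : ℂ) * Complex.exp ((φ : ℂ) * Complex.I) := by
    have e2 := Complex.norm_mul_exp_arg_mul_I z
    have e3 : (starRingEnd ℂ) o = Complex.exp (-(((Real.pi * k / 6 : ℝ) : ℂ) * Complex.I)) := by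
      rw [ho, ← Complex.exp_conj, map_mul, Complex.conj_ofReal, Complex.conj_I]
      ring_nf
    calc (starRingEnd ℂ) o * z = (starRingEnd ℂ) o * (‖z‖ * Complex.exp (z.arg * Complex.I)) := by
          rw [e2]
      _ = ‖z‖ * (Complex.exp (-(((Real.pi * k / 6 : ℝ) : ℂ) * Complex.I)) *
            Complex.exp (z.arg * Complex.I)) := by
          rw [e3]
          ring
      _ = _ := by
          rw [← Complex.exp_add, hφ]
          congr 2
          push_cast
          ring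
  have hre : ((starRingEnd ℂ) o * z).re = ‖z‖ * Real.cos φ := by
    rw [hw, Complex.re_ofReal_mul, Complex.exp_ofReal_mul_I_re]
  have him : ((starRingEnd ℂ) o * z).im = ‖z‖ * Real.sin φ := by
    rw [hw, Complex.im_ofReal_mul, Complex.exp_ofReal_mul_I_im]
  have hz0 : 0 < ‖z‖ := norm_pos_iff.2 hz
  have hφ2 : |φ| ≤ 0.27 := hφ1.trans (by linarith [Real.pi_lt_d2])
  have hcos : 0.96 ≤ Real.cos φ := by
    have h1 := Real.one_sub_sq_div_two_le_cos (x := φ)
    have h2 : φ ^ 2 ≤ 0.27 ^ 2 := by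
      rw [← sq_abs]
      exact pow_le_pow_left₀ (abs_nonneg _) hφ2 2
    linarith
  apply A17a_pos
  · rw [hre]
    positivity
  · rw [hre, him, mul_pow, mul_pow, ← mul_add, Real.cos_sq_add_sin_sq, mul_one]
    have h3 : 41 / 50 < Real.cos φ ^ 2 := by nlinarith
    have h4 : 0 < ‖z‖ ^ 2 := by positivity
    nlinarith

lemma A17R_two {o : ℂ} (ho : o ∈ A17R 2) : o = 1 ∨ o = -1 := by
  have h1 := (A17R_mem (by norm_num) o).1 ho
  have h2 : (o - 1) * (o + 1) = 0 := by linear_combination h1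
  rcases mul_eq_zero.1 h2 with h | h
  · exact Or.inl (by linear_combination h)
  · exact Or.inr (by linear_combination h)

/-- decomposition of the weight into sectors -/
theorem sectors : ∃ (β : Bool → ℂ → ℂ) (Om : Bool → Finset ℂ), (∀ r, CIg S0 (β r)) ∧
    (∀ r, ∀ o ∈ Om r, ‖o‖ = 1 ∧ Rl r o) ∧
    ∀ (r : Bool) (z : ℂ), Rl r z → ((bmp (‖z‖ ^ 2) : ℝ) : ℂ) =
      ∑ o ∈ Om r, β r ((starRingEnd ℂ) o * z) := by
  have g2 := A17_gen (n := 2) (by norm_num) (fun z => z.im ^ 2) (A17_im.pow 2)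
    (fun z => sq_nonneg _) (by
      intro o ho z
      rcases A17R_two ho with h | h
      · rw [h]; simp
      · rw [h]; simp) (by
      intro z hz
      have hn : 0 ≤ ∑ o ∈ A17R 2, A17a ((starRingEnd ℂ) o * z) :=
        sum_nonneg fun _ _ => A17a_nonneg _
      by_cases him : z.im = 0
      · have hre : z.re ≠ 0 := fun h => hz (Complex.ext h him)
        have h1 : (1 : ℂ) ∈ A17R 2 := (A17R_mem (by norm_num) 1).2 (by norm_num)
        have h2 : (-1 : ℂ) ∈ A17R 2 := (A17R_mem (by norm_num) (-1)).2 (by norm_num)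
        have hsq : 0 < z.re ^ 2 := by positivity
        have h3 : 0 < ∑ o ∈ A17R 2, A17a ((starRingEnd ℂ) o * z) := by
          rcases lt_or_gt_of_ne hre with h | h
          · refine sum_pos' (fun _ _ => A17a_nonneg _) ⟨-1, h2, A17a_pos ?_ ?_⟩
            · simpa using h
            · simp [him]
              nlinarith
          · refine sum_pos' (fun _ _ => A17a_nonneg _) ⟨1, h1, A17a_pos ?_ ?_⟩
            · simpa using h
            · simp [him]
              nlinarith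
        positivity
      · positivity)
  have g12 := A17_gen (n := 12) (by norm_num) (fun _ => 0) contDiff_const (fun _ => le_rfl)
    (fun _ _ _ => rfl) (by
      intro z hz
      obtain ⟨o, ho, h1⟩ := A17_cover z hz
      rw [add_zero]
      exact sum_pos' (fun _ _ => A17a_nonneg _) ⟨o, ho, h1⟩)
  refine ⟨fun r => match r with
    | true => A17b 2 fun z => z.im ^ 2
    | false => A17b 12 fun _ => 0, fun r => match r with
    | true => A17R 2
    | false => A17R 12, ?_, ?_, ?_⟩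
  · rintro (_ | _)
    · exact g12.1
    · exact g2.1
  · rintro (_ | _) o ho
    · exact ⟨A17R_norm (by norm_num) ho, fun h => by simp at h⟩
    · refine ⟨A17R_norm (by norm_num) ho, fun _ => ?_⟩
      rcases A17R_two ho with h | h <;> simp [h]
  · rintro (_ | _) z hz
    · exact g12.2 z rfl
    · exact g2.2 z (by rw [hz rfl]; norm_num)


variable (K : Type) [Field K] [NumberField K]

/-- the weight as a sum over rotations -/
theorem Wt_sectors : ∃ (β : Bool → ℂ → ℂ) (S : Finset (InfinitePlace K → ℂ)),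
    (∀ r, CIg S0 (β r)) ∧ (∀ o ∈ S, Rot K o) ∧
    ∀ (θ : Par (InfinitePlace K)) (v : EK K), Wt (lamK K) θ v = ∑ o ∈ S, Phi K β o θ v := by
  classical
  obtain ⟨β, Om, h1, h2, h3⟩ := sectors
  refine ⟨β, Fintype.piFinset fun w => Om (tp K w), h1, ?_, ?_⟩
  · intro o ho w
    exact h2 _ _ (Fintype.mem_piFinset.1 ho w)
  · intro θ v
    unfold Wt Phi
    have e1 : ∀ w : InfinitePlace K, uu (θ.1 w) (θ.2 w) (lamK K w v) *
        ((bmp (‖lamK K w v‖ ^ 2) : ℝ) : ℂ) = ∑ o ∈ Om (tp K w),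
          uu (θ.1 w) (θ.2 w) (lamK K w v) * β (tp K w) ((starRingEnd ℂ) o * lamK K w v) := by
      intro w
      rw [h3 (tp K w) _ (lamK_Rl K v w), mul_sum]
    rw [prod_congr rfl fun w _ => e1 w]
    exact Finset.prod_univ_sum (fun w => Om (tp K w)) fun w o =>
      uu (θ.1 w) (θ.2 w) (lamK K w v) * β (tp K w) ((starRingEnd ℂ) o * lamK K w v)

end Pool.Agent.T2H29.TA
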