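import Pool.Agent.T2H29.TA.A14
import Pool.Agent.T2H29.TA.A17

/-!
# The main bound for short sums
-/

set_option autoImplicit false
set_option linter.unusedSectionVars false

namespace Pool.Agent.T2H29.TA

open Finset NumberField NumberField.InfinitePlace Module MeasureTheory
open Pool.Agent.T2H29.SW
open scoped RealInnerProductSpace ContDiff

section pw

variable {n : ℕ} {T : ℝ}

theorem a15_rn (hn : 1 ≤ n) (hT : 1 ≤ T) :
    (T ^ (-(1 / 3 : ℝ) + 2 / 3000 / (n : ℝ))) ^ n = T ^ (-(n : ℝ) / 3 + 2 / 3000) := by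
  have h0 : (0 : ℝ) ≤ T := by linarith
  have hn0 : (n : ℝ) ≠ 0 := by positivity
  rw [← Real.rpow_natCast, ← Real.rpow_mul h0]
  congr 1
  field_simp

theorem a15_le_one (hn : 1 ≤ n) (hT : 1 ≤ T) :
    T ^ (-(1 / 3 : ℝ) + 2 / 3000 / (n : ℝ)) ≤ 1 := by
  refine Real.rpow_le_one_of_one_le_of_nonpos hT ?_
  have hn1 : (1 : ℝ) ≤ n := by exact_mod_cast hn
  have : (2 : ℝ) / 3000 / n ≤ 2 / 3000 := div_le_self (by norm_num) hn1
  linarith

theorem a15_inv (hn : 1 ≤ n) (hT : 1 ≤ T) :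
    (T ^ (-(1 / 3 : ℝ) + 2 / 3000 / (n : ℝ))) ^ n * T ^ ((n : ℝ) / 3 - 2 / 3000) = 1 := by
  rw [a15_rn hn hT, ← Real.rpow_add (by linarith)]
  have : -(n : ℝ) / 3 + 2 / 3000 + ((n : ℝ) / 3 - 2 / 3000) = 0 := by ring
  rw [this, Real.rpow_zero]

theorem a15_Tr (hn : 1 ≤ n) (hT : 1 ≤ T) :
    1 ≤ T * T ^ (-(1 / 3 : ℝ) + 2 / 3000 / (n : ℝ)) := by
  have h0 : (0 : ℝ) < T := by linarith
  have h1 : T * T ^ (-(1 / 3 : ℝ) + 2 / 3000 / (n : ℝ)) =
      T ^ (1 + (-(1 / 3 : ℝ) + 2 / 3000 / (n : ℝ))) := by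
    rw [Real.rpow_add h0 1, Real.rpow_one]
  rw [h1]
  refine Real.one_le_rpow hT ?_
  have : (0 : ℝ) ≤ 2 / 3000 / (n : ℝ) := by positivity
  linarith

theorem a15_sqrt (y : ℝ) (hT : 1 ≤ T) : √(T ^ y) = T ^ (y / 2) := by
  rw [Real.sqrt_eq_rpow, ← Real.rpow_mul (by linarith)]
  congr 1
  ring

theorem a15_sqrtP (hT : 1 ≤ T) :
    √(T ^ ((n : ℝ) / 3 - 2 / 3000)) = T ^ ((n : ℝ) / 6 - 1 / 3000) := by
  rw [a15_sqrt _ hT]
  congr 1
  ring

theorem a15_P (hn : 1 ≤ n) (hT : 1 ≤ T) : 1 ≤ T ^ ((n : ℝ) / 3 - 2 / 3000) := by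
  refine Real.one_le_rpow hT ?_
  have hn1 : (1 : ℝ) ≤ n := by exact_mod_cast hn
  linarith

theorem a15_f6 (hn : 1 ≤ n) (hT : 1 ≤ T) {M : ℝ}
    (hM : M ≤ T ^ ((n : ℝ) * (1 / 2 + 1 / 1000))) :
    M * (√(T ^ n))⁻¹ * √((T ^ (-(1 / 3 : ℝ) + 2 / 3000 / (n : ℝ))) ^ n) ≤ 1 := by
  have h0 : (0 : ℝ) < T := by linarith
  have hn1 : (1 : ℝ) ≤ n := by exact_mod_cast hn
  have e1 : (√(T ^ n))⁻¹ = T ^ (-(n : ℝ) / 2) := by
    rw [← Real.rpow_natCast, a15_sqrt _ hT, ← Real.rpow_neg h0.le]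
    congr 1
    ring
  rw [e1, a15_rn hn hT, a15_sqrt _ hT]
  calc M * T ^ (-(n : ℝ) / 2) * T ^ ((-(n : ℝ) / 3 + 2 / 3000) / 2)
      ≤ T ^ ((n : ℝ) * (1 / 2 + 1 / 1000)) * T ^ (-(n : ℝ) / 2) *
        T ^ ((-(n : ℝ) / 3 + 2 / 3000) / 2) := by gcongr
    _ = T ^ ((n : ℝ) * (1 / 2 + 1 / 1000) + -(n : ℝ) / 2 + (-(n : ℝ) / 3 + 2 / 3000) / 2) := by
        rw [Real.rpow_add h0, Real.rpow_add h0]
    _ ≤ 1 := by
        refine Real.rpow_le_one_of_one_le_of_nonpos hT ?_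
        linarith

theorem a15_f7 (hn : 1 ≤ n) (hT : 1 ≤ T) :
    √((T * T ^ (-(1 / 3 : ℝ) + 2 / 3000 / (n : ℝ))) ^ n) *
      ((T ^ (-(1 / 3 : ℝ) + 2 / 3000 / (n : ℝ))) ^ n * T ^ (-(1 / 1000 : ℝ))) = 1 := by
  have h0 : (0 : ℝ) < T := by linarith
  rw [mul_pow, a15_rn hn hT, ← Real.rpow_natCast, ← Real.rpow_add h0, a15_sqrt _ hT,
    ← Real.rpow_add h0, ← Real.rpow_add h0]
  have : ((n : ℝ) + (-(n : ℝ) / 3 + 2 / 3000)) / 2 + (-(n : ℝ) / 3 + 2 / 3000 + -(1 / 1000 : ℝ)) = 0 := by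
    ring
  rw [this, Real.rpow_zero]

theorem a15_small (hn : 1 ≤ n) {h : ℝ} (hh : 0 < h) : ∃ T1 : ℝ, ∀ T, T1 ≤ T →
    T ^ (-(1 / 3 : ℝ) + 2 / 3000 / (n : ℝ)) ≤ h := by
  have hn1 : (1 : ℝ) ≤ n := by exact_mod_cast hn
  have h2 : (2 : ℝ) / 3000 / n ≤ 2 / 3000 := div_le_self (by norm_num) hn1
  have h1 := tendsto_rpow_neg_atTop (y := 1 / 3 - 2 / 3000 / (n : ℝ)) (by linarith)
  obtain ⟨T1, hT1⟩ := Filter.eventually_atTop.1 (h1.eventually (ge_mem_nhds hh))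
  refine ⟨T1, fun T hT => ?_⟩
  have := hT1 T hT
  have e : -(1 / 3 - 2 / 3000 / (n : ℝ)) = -(1 / 3 : ℝ) + 2 / 3000 / (n : ℝ) := by ring
  rwa [e] at this

theorem a15_sqrt_pow {x : ℝ} (hx : 0 ≤ x) (k : ℕ) : √(x ^ k) = √x ^ k := by
  rw [Real.sqrt_eq_iff_mul_self_eq (by positivity) (by positivity), ← mul_pow, Real.mul_self_sqrt hx]

theorem a15_tsum_le {α : Type} {F : α → ℂ} {b : ℝ} {Z : Finset α} (hb : ∀ z, ‖F z‖ ≤ b)
    (hs : ∀ z, F z ≠ 0 → z ∈ Z) : ‖∑' z, F z‖ ≤ b * Z.card := by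
  rw [tsum_eq_sum (s := Z) (fun z hz => by
    by_contra h
    exact hz (hs z h))]
  refine (norm_sum_le_of_le _ fun z _ => hb z).trans (le_of_eq ?_)
  rw [Finset.sum_const, nsmul_eq_mul, mul_comm]

end pw

variable (K : Type) [Field K] [NumberField K]

theorem a15_phi_bound {β : Bool → ℂ → ℂ} (hβ : ∀ r, CIg S0 (β r)) : ∃ b : ℝ, 0 < b ∧
    ∀ (o : InfinitePlace K → ℂ) (θ : Par (InfinitePlace K)) (v : EK K), ‖Phi K β o θ v‖ ≤ b := by
  have h1 : ∀ r, ∃ c, ∀ z, ‖β r z‖ ≤ c := fun r =>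
    (hβ r).sm.continuous.bounded_above_of_compact_support (hβ r).cs
  choose c hc using h1
  set m := max 1 (max (c true) (c false)) with hm
  have hm1 : 1 ≤ m := le_max_left _ _
  have hcm : ∀ r z, ‖β r z‖ ≤ m := by
    intro r z
    refine (hc r z).trans ?_
    cases r
    · exact (le_max_right _ _).trans (le_max_right _ _)
    · exact (le_max_left _ _).trans (le_max_right _ _)
  refine ⟨∏ w : InfinitePlace K, m, by positivity, fun o θ v => ?_⟩
  unfold Phi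
  rw [norm_prod]
  refine prod_le_prod (fun w _ => norm_nonneg _) fun w _ => ?_
  rw [norm_mul]
  calc ‖uu (θ.1 w) (θ.2 w) (lamK K w v)‖ * ‖β (tp K w) ((starRingEnd ℂ) (o w) * lamK K w v)‖
      ≤ 1 * m := mul_le_mul (uu_norm _ _ _) (hcm _ _) (norm_nonneg _) zero_le_one
    _ = m := one_mul m

theorem a15_phi_supp {β : Bool → ℂ → ℂ} (hβ : ∀ r, CIg S0 (β r)) {o : InfinitePlace K → ℂ}
    (ho : Rot K o) {θ : Par (InfinitePlace K)} {v : EK K} (h : Phi K β o θ v ≠ 0)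
    (w : InfinitePlace K) : ‖lamK K w v‖ ≤ 3 / 2 := by
  unfold Phi at h
  rw [prod_ne_zero_iff] at h
  have h1 := right_ne_zero_of_mul (h w (mem_univ w))
  have h2 : (starRingEnd ℂ) (o w) * lamK K w v ∈ S0 :=
    (hβ (tp K w)).ts (subset_tsupport _ h1)
  have h3 := h2.2.1
  rw [norm_mul, RCLike.norm_conj, (ho w).1, one_mul] at h3
  exact h3.le

theorem a15_prod_mult (x : ℝ) : ∏ w : InfinitePlace K, x ^ mult w = x ^ dg K := by
  rw [prod_pow_eq_pow_sum, sum_mult_eq]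

theorem a15_dg : 1 ≤ dg K := Nat.one_le_iff_ne_zero.2 (NeZero.ne _)

theorem a15_vc_sub (A : Matrix (Fin (dg K)) (Fin (dg K)) ℝ) (z z' : Fin (dg K) → ℤ) :
    vc A (z - z') = vc A z - vc A z' := by
  have h := vc_add' K A (z - z') z'
  rw [sub_add_cancel] at h
  rw [h, add_sub_cancel_right]

theorem a15_vc_zero (A : Matrix (Fin (dg K)) (Fin (dg K)) ℝ) :
    vc A (0 : Fin (dg K) → ℤ) = 0 := by
  have h := a15_vc_sub K A 0 0
  rw [sub_self, sub_self] at h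
  exact h

theorem a15_cp_ge (r : Bool) (k : ℤ) (τ : ℝ) : |τ| ≤ ‖cp r k τ‖ := by
  cases r
  · have h := Complex.abs_re_le_norm (cp false k τ)
    have e : (cp false k τ).re = τ := by simp [cp]
    rwa [e] at h
  · have e : cp true k τ = (τ : ℂ) := rfl
    rw [e, Complex.norm_real, Real.norm_eq_abs]

theorem a15_Cc (r : Bool) (k : ℤ) (τ : ℝ) (h : ℂ) : ‖Cc r k τ h‖ = 2 * ‖cp r k τ‖ * ‖h‖ := by
  unfold Cc
  rw [norm_mul, norm_mul, norm_neg]
  norm_num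

/-- the sum over the shifts -/
theorem a15_off (B : ℝ) {β : Bool → ℂ → ℂ} (hβ : ∀ r, CIg S0 (β r)) : ∃ C T0 : ℝ, 0 < C ∧
    1 ≤ T0 ∧ ∀ A, GB K B A → ∀ (o : InfinitePlace K → ℂ) (θ : Par (InfinitePlace K)) (v0 : EK K)
    (T : ℝ), T0 ≤ T → Rot K o → TT K θ T → 1 ≤ Mv A →
    Mv A ≤ T ^ ((dg K : ℝ) * (1 / 2 + 1 / 1000)) →
    ∀ E : Finset (Fin (dg K) → ℤ), (∀ a ∈ E, a ≠ 0 ∧ ∀ w, ‖lamK K w (vc A a)‖ ≤ rho K T) →
    ∑ a ∈ E, ‖Sy K β o θ A v0 a‖ ≤ C * Mv A := by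
  classical
  obtain ⟨C2, hC2, H2⟩ := cnt_ne K B
  obtain ⟨C4, hC4, H4⟩ := sum_sing K B
  obtain ⟨C5, h0, hC5, hh0, H5⟩ := weylS K B hβ
  obtain ⟨C6, T6, hC6, hT6, H6⟩ := good_shift K B hβ
  obtain ⟨T1, hTs⟩ := a15_small (a15_dg K) hh0
  have hn := a15_dg K
  set n := dg K with hnd
  refine ⟨C6 * C2 + C5 * C4 * √((2 : ℝ) ^ n) +
    C5 * √((20 : ℝ) ^ n) * (Fintype.card (InfinitePlace K) * C2), max T6 T1,
    by positivity, hT6.trans (le_max_left _ _), ?_⟩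
  intro A hA o θ v0 T hT ho hθ hM1 hM E hE
  have hT6' : T6 ≤ T := (le_max_left _ _).trans hT
  have hT1' : T1 ≤ T := (le_max_right _ _).trans hT
  have hT1 : 1 ≤ T := hT6.trans hT6'
  have hT0 : 0 < T := by linarith
  have hM0 : 0 < Mv A := by linarith
  have hρd : rho K T = T ^ (-(1 / 3 : ℝ) + 2 / 3000 / (n : ℝ)) := rfl
  set ρ := rho K T with hρ
  have hρ0 : 0 < ρ := by rw [hρd]; positivity
  have hρh : ρ ≤ h0 := by rw [hρd]; exact hTs T hT1'
  have hinv := a15_inv hn hT1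
  have hTr := a15_Tr hn hT1
  have hf6 := a15_f6 hn hT1 hM
  have hf7 := a15_f7 hn hT1
  rw [← hρd] at hinv hTr hf6 hf7
  set P := T ^ ((n : ℝ) / 3 - 2 / 3000) with hP
  have hP0 : 0 < P := by positivity
  set s := T ^ (-(1 / 1000 : ℝ)) with hs
  have hs0 : 0 < s := by positivity
  have hs1 : s ≤ 1 := Real.rpow_le_one_of_one_le_of_nonpos hT1 (by norm_num)
  set bad := fun a : Fin n → ℤ => ∃ w, ‖lamK K w (vc A a)‖ < ρ * s with hbad
  set G := √((20 * (T * ρ)) ^ n) with hG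
  -- the bound of one term
  have hpt : ∀ a ∈ E, ‖Sy K β o θ A v0 a‖ ≤ C6 * P +
      C5 * (Mv A * ((√((T / 2) ^ n))⁻¹ * ∏ w, (√(‖lamK K w (vc A a)‖ ^ mult w))⁻¹)) +
      (if bad a then C5 * G else 0) := by
    intro a ha
    obtain ⟨ha0, haρ⟩ := hE a ha
    have hq : 0 ≤ C5 * (Mv A * ((√((T / 2) ^ n))⁻¹ *
        ∏ w, (√(‖lamK K w (vc A a)‖ ^ mult w))⁻¹)) := by positivity
    by_cases hb : bad a
    · rw [if_pos hb]
      have h1 := H5 A hA o θ v0 a ho (fun w => (haρ w).trans hρh)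
      have h2 : ∏ w, (√((1 + ‖Cc (tp K w) (θ.1 w) (θ.2 w) (lamK K w (vc A a))‖) ^ mult w))⁻¹ ≤
          (√((T / 2) ^ n))⁻¹ * ∏ w, (√(‖lamK K w (vc A a)‖ ^ mult w))⁻¹ := by
        have e1 : (√((T / 2) ^ n))⁻¹ = ∏ w : InfinitePlace K, (√((T / 2) ^ mult w))⁻¹ := by
          rw [prod_inv_distrib]
          congr 1
          rw [a15_sqrt_pow (by positivity), ← a15_prod_mult K]
          exact prod_congr rfl fun w _ => (a15_sqrt_pow (by positivity) _).symm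
        rw [e1, ← prod_mul_distrib]
        refine prod_le_prod (fun w _ => by positivity) fun w _ => ?_
        rw [← mul_inv, ← Real.sqrt_mul (by positivity), ← mul_pow]
        have hne : 0 < ‖lamK K w (vc A a)‖ := norm_pos_iff.2 (lam_ne K B hA ha0 w)
        refine inv_anti₀ (by positivity) (Real.sqrt_le_sqrt ?_)
        refine pow_le_pow_left₀ (by positivity) ?_ _
        rw [a15_Cc]
        have h3 := (hθ w).1.trans (a15_cp_ge (tp K w) (θ.1 w) (θ.2 w))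
        nlinarith [norm_nonneg (lamK K w (vc A a))]
      have h3 : ∏ w, √((1 + ‖Cc (tp K w) (θ.1 w) (θ.2 w) (lamK K w (vc A a))‖) ^ mult w) ≤ G := by
        have e1 : G = ∏ w : InfinitePlace K, √((20 * (T * ρ)) ^ mult w) := by
          rw [hG, a15_sqrt_pow (by positivity), ← a15_prod_mult K]
          exact prod_congr rfl fun w _ => (a15_sqrt_pow (by positivity) _).symm
        rw [e1]
        refine prod_le_prod (fun w _ => by positivity) fun w _ => Real.sqrt_le_sqrt ?_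
        refine pow_le_pow_left₀ (by positivity) ?_ _
        rw [a15_Cc]
        have h4 := (hθ w).2
        have h5 : 2 * ‖cp (tp K w) (θ.1 w) (θ.2 w)‖ * ‖lamK K w (vc A a)‖ ≤ 2 * (8 * T) * ρ := by
          gcongr
          exact haρ w
        linarith
      calc ‖Sy K β o θ A v0 a‖ ≤ C5 * (Mv A * ((√((T / 2) ^ n))⁻¹ *
            ∏ w, (√(‖lamK K w (vc A a)‖ ^ mult w))⁻¹) + G) := by
            refine h1.trans ?_
            gcongr
        _ ≤ _ := by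
            rw [mul_add]
            have : 0 ≤ C6 * P := by positivity
            linarith
    · rw [if_neg hb]
      simp only [hbad, not_exists, not_lt] at hb
      have h1 : ‖Sy K β o θ A v0 a‖ ≤ C6 * P :=
        H6 A hA o θ v0 a T hT6' ho hθ hM1 hM (fun w => ⟨hb w, haρ w⟩)
      linarith
  -- the number of shifts
  have hcard : (E.card : ℝ) ≤ C2 * (Mv A * ρ ^ n) := by
    have h1 := H2 A hA (fun _ => ρ) (fun _ => hρ0) E hE
    rwa [a15_prod_mult K] at h1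
  -- the number of bad shifts
  have hbadc : ((E.filter bad).card : ℝ) ≤
      Fintype.card (InfinitePlace K) * (C2 * (Mv A * (ρ ^ n * s))) := by
    have h1 : E.filter bad ⊆ univ.biUnion fun w : InfinitePlace K =>
        E.filter fun a => ‖lamK K w (vc A a)‖ < ρ * s := by
      intro a ha
      rw [mem_filter] at ha
      obtain ⟨ha1, w, hw⟩ := ha
      exact mem_biUnion.2 ⟨w, mem_univ w, mem_filter.2 ⟨ha1, hw⟩⟩
    have h2 : ∀ w0 : InfinitePlace K,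
        ((E.filter fun a => ‖lamK K w0 (vc A a)‖ < ρ * s).card : ℝ) ≤
        C2 * (Mv A * (ρ ^ n * s)) := by
      intro w0
      have h3 := H2 A hA (fun w => ρ * (if w = w0 then s else 1))
        (fun w => by split_ifs <;> positivity) (E.filter fun a => ‖lamK K w0 (vc A a)‖ < ρ * s)
        (fun a ha => by
          rw [mem_filter] at ha
          refine ⟨(hE a ha.1).1, fun w => ?_⟩
          split_ifs with hw
          · rw [hw]; exact ha.2.le
          · rw [mul_one]; exact (hE a ha.1).2 w)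
      refine h3.trans ?_
      have h4 : ∏ w : InfinitePlace K, (ρ * (if w = w0 then s else 1)) ^ mult w ≤ ρ ^ n * s := by
        have e1 : ∏ w : InfinitePlace K, (ρ * (if w = w0 then s else 1)) ^ mult w =
            ρ ^ n * s ^ mult w0 := by
          have e2 : ∀ w : InfinitePlace K, (ρ * (if w = w0 then s else 1)) ^ mult w =
              ρ ^ mult w * (if w = w0 then s ^ mult w0 else 1) := by
            intro w
            rw [mul_pow]
            split_ifs with hw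
            · rw [hw]
            · rw [one_pow]
          rw [prod_congr rfl fun w _ => e2 w, prod_mul_distrib, a15_prod_mult K, prod_ite_eq' univ w0,
            if_pos (mem_univ w0)]
        rw [e1]
        gcongr
        exact pow_le_of_le_one hs0.le hs1 (mult_ne_zero)
      gcongr
    calc ((E.filter bad).card : ℝ) ≤ ((univ.biUnion fun w : InfinitePlace K =>
          E.filter fun a => ‖lamK K w (vc A a)‖ < ρ * s).card : ℝ) := by
          exact_mod_cast card_le_card h1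
      _ ≤ ∑ w : InfinitePlace K, ((E.filter fun a => ‖lamK K w (vc A a)‖ < ρ * s).card : ℝ) := by
          exact_mod_cast card_biUnion_le
      _ ≤ ∑ w : InfinitePlace K, C2 * (Mv A * (ρ ^ n * s)) := sum_le_sum fun w _ => h2 w
      _ = _ := by rw [sum_const, card_univ, nsmul_eq_mul]
  have hsing := H4 A hA (fun _ => ρ) (fun _ => hρ0) E hE
  have e3 : ∏ w : InfinitePlace K, √(ρ ^ mult w) = √(ρ ^ n) := by
    rw [a15_sqrt_pow hρ0.le, ← a15_prod_mult K]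
    exact prod_congr rfl fun w _ => a15_sqrt_pow hρ0.le _
  rw [e3] at hsing
  calc ∑ a ∈ E, ‖Sy K β o θ A v0 a‖ ≤ ∑ a ∈ E, (C6 * P +
        C5 * (Mv A * ((√((T / 2) ^ n))⁻¹ * ∏ w, (√(‖lamK K w (vc A a)‖ ^ mult w))⁻¹)) +
        (if bad a then C5 * G else 0)) := sum_le_sum hpt
    _ = E.card * (C6 * P) + C5 * (Mv A * ((√((T / 2) ^ n))⁻¹ *
        ∑ a ∈ E, ∏ w, (√(‖lamK K w (vc A a)‖ ^ mult w))⁻¹)) +
        (E.filter bad).card * (C5 * G) := by
        rw [sum_add_distrib, sum_add_distrib, sum_const, nsmul_eq_mul, ← mul_sum, ← mul_sum,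
          ← mul_sum, ← sum_filter, sum_const, nsmul_eq_mul]
    _ ≤ (C2 * (Mv A * ρ ^ n)) * (C6 * P) + C5 * (Mv A * ((√((T / 2) ^ n))⁻¹ *
        (C4 * (Mv A * √(ρ ^ n))))) +
        (Fintype.card (InfinitePlace K) * (C2 * (Mv A * (ρ ^ n * s)))) * (C5 * G) := by
        gcongr
    _ = C6 * C2 * Mv A * (ρ ^ n * P) + C5 * C4 * √((2 : ℝ) ^ n) * Mv A *
        (Mv A * (√(T ^ n))⁻¹ * √(ρ ^ n)) +
        C5 * √((20 : ℝ) ^ n) * (Fintype.card (InfinitePlace K) * C2) * Mv A *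
        (√((T * ρ) ^ n) * (ρ ^ n * s)) := by
        have e4 : (√((T / 2) ^ n))⁻¹ = √((2 : ℝ) ^ n) * (√(T ^ n))⁻¹ := by
          rw [div_pow, Real.sqrt_div (by positivity), inv_div, div_eq_mul_inv]
        have e5 : G = √((20 : ℝ) ^ n) * √((T * ρ) ^ n) := by
          rw [hG, mul_pow, Real.sqrt_mul (by positivity)]
        rw [e4, e5]
        ring
    _ ≤ C6 * C2 * Mv A * 1 + C5 * C4 * √((2 : ℝ) ^ n) * Mv A * 1 +
        C5 * √((20 : ℝ) ^ n) * (Fintype.card (InfinitePlace K) * C2) * Mv A * 1 := by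
        gcongr
        · exact hinv.le
        · exact hf7.le
    _ = _ := by ring

/-- the differencing step -/
theorem a15_H {β : Bool → ℂ → ℂ} {o : InfinitePlace K → ℂ} {θ : Par (InfinitePlace K)}
    (A : Matrix (Fin (dg K)) (Fin (dg K)) ℝ) (v0 ν : EK K) (a : Fin (dg K) → ℤ) :
    ‖∑' z : Fin (dg K) → ℤ, (Phi K β o θ (v0 + vc A (z + a)) * e ⟪ν, vc A (z + a)⟫) *
      (starRingEnd ℂ) (Phi K β o θ (v0 + vc A (z - a)) * e ⟪ν, vc A (z - a)⟫)‖ =
      ‖Sy K β o θ A v0 a‖ := by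
  have h1 : ∀ z : Fin (dg K) → ℤ,
      (Phi K β o θ (v0 + vc A (z + a)) * e ⟪ν, vc A (z + a)⟫) *
      (starRingEnd ℂ) (Phi K β o θ (v0 + vc A (z - a)) * e ⟪ν, vc A (z - a)⟫) =
      (Phi K β o θ (v0 + vc A z + vc A a) * (starRingEnd ℂ) (Phi K β o θ (v0 + vc A z - vc A a))) *
        e (2 * ⟪ν, vc A a⟫) := by
    intro z
    have e1 : e ⟪ν, vc A (z + a)⟫ * (starRingEnd ℂ) (e ⟪ν, vc A (z - a)⟫) = e (2 * ⟪ν, vc A a⟫) := by
      have e2 : ⟪ν, vc A (z + a)⟫ = 2 * ⟪ν, vc A a⟫ + ⟪ν, vc A (z - a)⟫ := by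
        rw [vc_add', a15_vc_sub, inner_add_right, inner_sub_right]
        ring
      rw [e2, e_add, mul_assoc, Complex.mul_conj, Complex.normSq_eq_norm_sq, e_norm]
      simp
    rw [← e1, map_mul, vc_add', a15_vc_sub, add_assoc, add_sub_assoc]
    ring
  simp only [h1]
  rw [tsum_mul_right, norm_mul, e_norm, mul_one]
  rfl

/-- the bound for one rotation -/
theorem a15_one {B : ℝ} {β : Bool → ℂ → ℂ} (hβ : ∀ r, CIg S0 (β r)) : ∃ C T0 : ℝ, 0 < C ∧
    1 ≤ T0 ∧ ∀ A, GB K B A → ∀ (o : InfinitePlace K → ℂ) (v0 ν : EK K)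
    (θ : Par (InfinitePlace K)) (T : ℝ), T0 ≤ T → Rot K o → TT K θ T →
    Mv A ≤ T ^ ((dg K : ℝ) * (1 / 2 + 1 / 1000)) →
    ‖∑' z : Fin (dg K) → ℤ, Phi K β o θ (v0 + vc A z) * e ⟪ν, vc A z⟫‖ ≤
      C * (1 + √(Mv A)) * T ^ ((dg K : ℝ) / 6 - 1 / 3000) := by
  classical
  obtain ⟨b, hb, hPb⟩ := a15_phi_bound K hβ
  obtain ⟨C1, hC1, H1⟩ := cnt_le K B
  obtain ⟨c3, C3, hc3, hC3, H3⟩ := cnt_ge K B
  obtain ⟨Co, To, hCo, hTo, Ho⟩ := a15_off K B hβ
  have hn := a15_dg K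
  set n := dg K with hnd
  set C7 := max 1 (C3 * 2 ^ n) with hC7
  have hC71 : 1 ≤ C7 := le_max_left _ _
  set D1 := 2 * C1 * 3 ^ n with hD1
  have hD10 : 0 < D1 := by positivity
  set D := D1 * (b ^ 2 * D1 + Co) * 2 ^ n / c3 with hD
  have hD0 : 0 < D := by positivity
  refine ⟨b * (C1 * 2 ^ n * (1 + √C7)) + √D, To, by positivity, hTo, ?_⟩
  intro A hA o v0 ν θ T hT ho hθ hM
  have hT1 : 1 ≤ T := hTo.trans hT
  have hT0 : 0 < T := by linarith
  have hM0 : 0 < Mv A := Mv_pos hA.1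
  have hρd : rho K T = T ^ (-(1 / 3 : ℝ) + 2 / 3000 / (n : ℝ)) := rfl
  have hρ1 : rho K T ≤ 1 := by rw [hρd]; exact a15_le_one hn hT1
  have hinv := a15_inv hn hT1
  rw [← hρd] at hinv
  set ρ := rho K T with hρ
  have hρ0 : 0 < ρ := by rw [hρd]; positivity
  have hsP := a15_sqrtP (n := n) hT1
  have hP1 := a15_P hn hT1
  set P := T ^ ((n : ℝ) / 3 - 2 / 3000) with hP
  have hP0 : 0 < P := by linarith
  have hsP1 : 1 ≤ √P := by
    rw [show (1 : ℝ) = √1 by simp]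
    exact Real.sqrt_le_sqrt hP1
  rw [← hsP]
  set F := fun z : Fin n → ℤ => Phi K β o θ (v0 + vc A z) * e ⟪ν, vc A z⟫ with hF
  have hFb : ∀ z, ‖F z‖ ≤ b := by
    intro z
    rw [hF, norm_mul, e_norm, mul_one]
    exact hPb _ _ _
  have hFs : ∀ z, F z ≠ 0 → ∀ w, ‖lamK K w (v0 + vc A z)‖ ≤ 3 / 2 := by
    intro z hz w
    exact a15_phi_supp K hβ ho (left_ne_zero_of_mul hz) w
  have hfin := cnt_fin K hA.1 v0 3
  set Z1 := hfin.toFinset with hZ1
  have hZ1m : ∀ z, z ∈ Z1 ↔ ∀ w, ‖lamK K w (v0 + vc A z)‖ ≤ 3 := by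
    intro z
    rw [hZ1, Set.Finite.mem_toFinset]
    rfl
  have hFZ : ∀ z, F z ≠ 0 → z ∈ Z1 := by
    intro z hz
    rw [hZ1m]
    intro w
    exact (hFs z hz w).trans (by norm_num)
  have hZc : (Z1.card : ℝ) ≤ C1 * (1 + Mv A * 3 ^ n) := by
    have h1 := H1 A hA v0 (fun _ => 3) (fun _ => by norm_num) Z1 (fun z hz => (hZ1m z).1 hz)
    rwa [a15_prod_mult K] at h1
  show ‖∑' z, F z‖ ≤ _
  by_cases hcase : Mv A * ρ ^ n < C7
  · -- the trivial bound
    have hfin2 := cnt_fin K hA.1 v0 (3 / 2)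
    have h2 : ‖∑' z, F z‖ ≤ b * hfin2.toFinset.card :=
      a15_tsum_le hFb (fun z hz => by
        rw [Set.Finite.mem_toFinset]
        exact hFs z hz)
    have h3 := H1 A hA v0 (fun _ => 3 / 2) (fun _ => by norm_num) hfin2.toFinset (fun z hz => by
      rw [Set.Finite.mem_toFinset] at hz
      exact hz)
    rw [a15_prod_mult K] at h3
    have h4 : Mv A ≤ C7 * P := by
      calc Mv A = Mv A * (ρ ^ n * P) := by rw [hinv, mul_one]
        _ = Mv A * ρ ^ n * P := by ring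
        _ ≤ C7 * P := by gcongr
    have h5 : Mv A ≤ √C7 * √(Mv A) * √P := by
      calc Mv A = √(Mv A) * √(Mv A) := (Real.mul_self_sqrt hM0.le).symm
        _ ≤ √(Mv A) * √(C7 * P) := by
            gcongr
        _ = √C7 * √(Mv A) * √P := by
            rw [Real.sqrt_mul (by positivity)]
            ring
    have h6 : 1 + Mv A ≤ (1 + √C7) * ((1 + √(Mv A)) * √P) := by
      have g1 : 0 ≤ √(Mv A) := Real.sqrt_nonneg _
      have g2 : 0 ≤ √C7 := Real.sqrt_nonneg _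
      have g3 : 0 ≤ √P := Real.sqrt_nonneg _
      have g4 : 0 ≤ √(Mv A) * √P := by positivity
      have g5 : 0 ≤ √C7 * √P := by positivity
      nlinarith
    have h7 : 1 + Mv A * (3 / 2 : ℝ) ^ n ≤ 2 ^ n * (1 + Mv A) := by
      have g1 : (3 / 2 : ℝ) ^ n ≤ 2 ^ n := pow_le_pow_left₀ (by norm_num) (by norm_num) _
      have g2 : (1 : ℝ) ≤ 2 ^ n := one_le_pow₀ (by norm_num)
      nlinarith
    calc ‖∑' z, F z‖ ≤ b * hfin2.toFinset.card := h2
      _ ≤ b * (C1 * (1 + Mv A * (3 / 2 : ℝ) ^ n)) := by gcongr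
      _ ≤ b * (C1 * (2 ^ n * ((1 + √C7) * ((1 + √(Mv A)) * √P)))) := by
          gcongr
          exact h7.trans (by gcongr)
      _ = b * (C1 * 2 ^ n * (1 + √C7)) * ((1 + √(Mv A)) * √P) := by ring
      _ ≤ (b * (C1 * 2 ^ n * (1 + √C7)) + √D) * ((1 + √(Mv A)) * √P) := by
          gcongr
          exact le_add_of_nonneg_right (Real.sqrt_nonneg _)
      _ = _ := by ring
  · -- differencing
    rw [not_lt] at hcase
    have hρn1 : ρ ^ n ≤ 1 := pow_le_one₀ hρ0.le hρ1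
    have hMA1 : 1 ≤ Mv A := by
      by_contra hlt
      rw [not_le] at hlt
      have : Mv A * ρ ^ n < 1 := by
        calc Mv A * ρ ^ n ≤ Mv A * 1 := by gcongr
          _ < 1 := by rw [mul_one]; exact hlt
      linarith
    have h2n : (0 : ℝ) < 2 ^ n := by positivity
    have hge : C3 ≤ Mv A * ∏ w : InfinitePlace K, (ρ / 2) ^ mult w := by
      rw [a15_prod_mult K, div_pow, ← mul_div_assoc, le_div_iff₀ h2n]
      exact (le_max_right _ _).trans hcase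
    obtain ⟨Y, hY, hYc⟩ := H3 A hA (fun _ => ρ / 2) (fun _ => by positivity) hge
    rw [a15_prod_mult K] at hYc
    have hY0 : (0 : ℝ) < Y.card := lt_of_lt_of_le (by positivity) hYc
    have hZc' : (Z1.card : ℝ) ≤ D1 * Mv A := by
      refine hZc.trans ?_
      have g2 : (1 : ℝ) ≤ 3 ^ n := one_le_pow₀ (by norm_num)
      have g3 : 1 + Mv A * 3 ^ n ≤ 2 * (Mv A * 3 ^ n) := by nlinarith
      calc C1 * (1 + Mv A * 3 ^ n) ≤ C1 * (2 * (Mv A * 3 ^ n)) := by gcongr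
        _ = D1 * Mv A := by rw [hD1]; ring
    have hsupp : (Function.support F).Finite := Z1.finite_toSet.subset fun z hz => hFZ z hz
    have hvdc := vdc_sym F hsupp Y Z1 (by
      intro y hy z hz
      rw [hZ1m]
      intro w
      have g1 := hFs _ hz w
      have g2 : v0 + vc A z = v0 + vc A (z + 2 • y) - (vc A y + vc A y) := by
        rw [two_nsmul, vc_add', vc_add']
        abel
      rw [g2, map_sub, map_add (lamK K w) (vc A y) (vc A y)]
      have g3 := hY y hy w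
      calc ‖lamK K w (v0 + vc A (z + 2 • y)) - (lamK K w (vc A y) + lamK K w (vc A y))‖
          ≤ ‖lamK K w (v0 + vc A (z + 2 • y))‖ + ‖lamK K w (vc A y) + lamK K w (vc A y)‖ :=
            norm_sub_le _ _
        _ ≤ ‖lamK K w (v0 + vc A (z + 2 • y))‖ + (‖lamK K w (vc A y)‖ + ‖lamK K w (vc A y)‖) := by
            gcongr
            exact norm_add_le _ _
        _ ≤ 3 := by linarith)
    have hin : ∀ y2 ∈ Y, ∑ y1 ∈ Y, ‖∑' z, F (z + (y1 - y2)) *
        (starRingEnd ℂ) (F (z - (y1 - y2)))‖ ≤ b ^ 2 * Z1.card + Co * Mv A := by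
      intro y2 hy2
      have g1 : ∀ y1, ‖∑' z, F (z + (y1 - y2)) * (starRingEnd ℂ) (F (z - (y1 - y2)))‖ =
          ‖Sy K β o θ A v0 (y1 - y2)‖ := fun y1 => a15_H K A v0 ν (y1 - y2)
      rw [← add_sum_erase Y _ hy2]
      have g2 : ‖∑' z, F (z + (y2 - y2)) * (starRingEnd ℂ) (F (z - (y2 - y2)))‖ ≤
          b ^ 2 * Z1.card := by
        refine a15_tsum_le (fun z => ?_) (fun z hz => ?_)
        · rw [norm_mul, RCLike.norm_conj, sq]
          exact mul_le_mul (hFb _) (hFb _) (norm_nonneg _) hb.le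
        · have := left_ne_zero_of_mul hz
          rw [sub_self, add_zero] at this
          exact hFZ z this
      have g3 : ∑ y1 ∈ Y.erase y2, ‖∑' z, F (z + (y1 - y2)) *
          (starRingEnd ℂ) (F (z - (y1 - y2)))‖ ≤ Co * Mv A := by
        simp only [g1]
        have g4 : ∑ y1 ∈ Y.erase y2, ‖Sy K β o θ A v0 (y1 - y2)‖ =
            ∑ a ∈ (Y.erase y2).image (fun y1 => y1 - y2), ‖Sy K β o θ A v0 a‖ := by
          rw [sum_image]
          intro x _ y _ hxy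
          exact sub_left_injective hxy
        rw [g4]
        refine Ho A hA o θ v0 T hT ho hθ hMA1 hM _ (fun a ha => ?_)
        obtain ⟨y1, hy1, rfl⟩ := mem_image.1 ha
        rw [mem_erase] at hy1
        refine ⟨sub_ne_zero.2 hy1.1, fun w => ?_⟩
        rw [a15_vc_sub, map_sub]
        refine (norm_sub_le _ _).trans ?_
        have g5 := hY y1 hy1.2 w
        have g6 := hY y2 hy2 w
        linarith
      exact add_le_add g2 g3
    have hdbl : ∑ y1 ∈ Y, ∑ y2 ∈ Y, ‖∑' z, F (z + (y1 - y2)) *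
        (starRingEnd ℂ) (F (z - (y1 - y2)))‖ ≤ Y.card * (b ^ 2 * Z1.card + Co * Mv A) := by
      rw [sum_comm]
      calc _ ≤ ∑ y2 ∈ Y, (b ^ 2 * Z1.card + Co * Mv A) := sum_le_sum hin
        _ = _ := by rw [sum_const, nsmul_eq_mul]
    have hmain : (Y.card : ℝ) * ‖∑' z, F z‖ ^ 2 ≤ D1 * (b ^ 2 * D1 + Co) * Mv A ^ 2 := by
      have g1 : (Y.card : ℝ) * ((Y.card : ℝ) * ‖∑' z, F z‖ ^ 2) ≤
          Y.card * (D1 * (b ^ 2 * D1 + Co) * Mv A ^ 2) := by
        calc (Y.card : ℝ) * ((Y.card : ℝ) * ‖∑' z, F z‖ ^ 2)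
            = (Y.card : ℝ) ^ 2 * ‖∑' z, F z‖ ^ 2 := by ring
          _ ≤ Z1.card * (Y.card * (b ^ 2 * Z1.card + Co * Mv A)) :=
              hvdc.trans (by gcongr)
          _ ≤ (D1 * Mv A) * (Y.card * (b ^ 2 * (D1 * Mv A) + Co * Mv A)) := by gcongr
          _ = _ := by ring
      exact le_of_mul_le_mul_left g1 hY0
    have hsq : ‖∑' z, F z‖ ^ 2 ≤ D * Mv A * P := by
      have g1 : c3 * (Mv A * (ρ / 2) ^ n) * ‖∑' z, F z‖ ^ 2 ≤
          D1 * (b ^ 2 * D1 + Co) * Mv A ^ 2 := by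
        refine le_trans ?_ hmain
        gcongr
      have g2 : c3 * (Mv A * (ρ / 2) ^ n) * (D * Mv A * P) =
          D1 * (b ^ 2 * D1 + Co) * Mv A ^ 2 := by
        rw [hD, div_pow]
        calc _ = D1 * (b ^ 2 * D1 + Co) * Mv A ^ 2 * (ρ ^ n * P) * (c3 / c3) * (2 ^ n / 2 ^ n) := by
              ring
          _ = _ := by rw [hinv, div_self hc3.ne', div_self h2n.ne']; ring
      rw [← g2] at g1
      exact le_of_mul_le_mul_left g1 (by positivity)
    have hfinal : ‖∑' z, F z‖ ≤ √D * (√(Mv A) * √P) := by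
      rw [← Real.sqrt_mul hM0.le, ← Real.sqrt_mul hD0.le]
      refine Real.le_sqrt_of_sq_le ?_
      rw [← mul_assoc]
      exact hsq
    calc ‖∑' z, F z‖ ≤ √D * (√(Mv A) * √P) := hfinal
      _ ≤ √D * ((1 + √(Mv A)) * √P) := by
          gcongr
          linarith
      _ ≤ (b * (C1 * 2 ^ n * (1 + √C7)) + √D) * ((1 + √(Mv A)) * √P) := by
          gcongr
          exact le_add_of_nonneg_left (by positivity)
      _ = _ := by ring

/-- the main bound for short sums -/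
theorem coreT {B : ℝ} (_ : 1 ≤ B) : CoreT K B := by
  classical
  obtain ⟨β, S, hβ, hS, hW⟩ := Wt_sectors K
  obtain ⟨C, T0, hC, hT0, H⟩ := a15_one K (B := B) hβ
  refine ⟨(S.card + 1) * C, T0, by positivity, hT0, ?_⟩
  intro A hA v0 ν θ T hT hθ hM
  have hsupp : ∀ o ∈ S, Summable fun z : Fin (dg K) → ℤ =>
      Phi K β o θ (v0 + vc A z) * e ⟪ν, vc A z⟫ := by
    intro o ho
    refine summable_of_hasFiniteSupport ((cnt_fin K hA.1 v0 (3 / 2)).subset fun z hz => ?_)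
    exact fun w => a15_phi_supp K hβ (hS o ho) (left_ne_zero_of_mul hz) w
  have h1 : ∑' z : Fin (dg K) → ℤ, Wt (lamK K) θ (v0 + vc A z) * e ⟪ν, vc A z⟫ =
      ∑ o ∈ S, ∑' z : Fin (dg K) → ℤ, Phi K β o θ (v0 + vc A z) * e ⟪ν, vc A z⟫ := by
    rw [← Summable.tsum_finsetSum hsupp]
    refine tsum_congr fun z => ?_
    rw [hW, sum_mul]
  rw [h1]
  refine (norm_sum_le_of_le S fun o ho => H A hA o v0 ν θ T hT (hS o ho) hθ hM).trans ?_
  rw [sum_const, nsmul_eq_mul]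
  have h2 : 0 ≤ C * (1 + √(Mv A)) * T ^ ((dg K : ℝ) / 6 - 1 / 3000) := by
    have : (0 : ℝ) < T := by linarith
    positivity
  calc (S.card : ℝ) * (C * (1 + √(Mv A)) * T ^ ((dg K : ℝ) / 6 - 1 / 3000))
      ≤ (S.card + 1) * (C * (1 + √(Mv A)) * T ^ ((dg K : ℝ) / 6 - 1 / 3000)) := by
        gcongr
        linarith
    _ = _ := by ring

end Pool.Agent.T2H29.TA
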