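import Pool.Agent.T2H29.TA.Base

/-!
# Non-stationary phase
-/

set_option autoImplicit false
set_option linter.unusedSectionVars false

namespace Pool.Agent.T2H29.TA

open Finset NumberField NumberField.InfinitePlace Module MeasureTheory
open Pool.Agent.T2H29.SW
open scoped RealInnerProductSpace ContDiff

variable (K : Type) [Field K] [NumberField K]

/-- a divergence of a compactly supported field has integral zero (coordinates) -/
lemma A5_div_pi (m : ℕ) (H : (Fin (m + 1) → ℝ) → ℂ)
    (H' : (Fin (m + 1) → ℝ) → (Fin (m + 1) → ℝ) →L[ℝ] ℂ) (hH : ∀ x, HasFDerivAt H (H' x) x)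
    (hc : HasCompactSupport H) (A : Fin (m + 1) → ℂ)
    (hi : Integrable fun x => ∑ i, A i * H' x (Pi.single i 1)) :
    ∫ x, ∑ i, A i * H' x (Pi.single i 1) = 0 := by
  have hcont : Continuous H := continuous_iff_continuousAt.2 fun x => (hH x).continuousAt
  obtain ⟨M, hM⟩ := hc.isCompact.isBounded.subset_closedBall (0 : Fin (m + 1) → ℝ)
  set M' : ℝ := max M 0 + 1 with hM'
  have hM'0 : 0 < M' := by positivity
  have hout : ∀ x : Fin (m + 1) → ℝ, (∃ i, M' ≤ |x i|) → x ∉ tsupport H := by
    rintro x ⟨i, hi⟩ hx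
    have h1 := hM hx
    rw [mem_closedBall_zero_iff] at h1
    have h2 := norm_le_pi_norm x i
    rw [Real.norm_eq_abs] at h2
    have h3 : M ≤ max M 0 := le_max_left _ _
    linarith
  have hH0 : ∀ x : Fin (m + 1) → ℝ, (∃ i, M' ≤ |x i|) → H x = 0 := fun x hx =>
    image_eq_zero_of_notMem_tsupport (hout x hx)
  have hD0 : ∀ x : Fin (m + 1) → ℝ, (∃ i, M' ≤ |x i|) → H' x = 0 := by
    intro x hx
    have h2 := notMem_tsupport_iff_eventuallyEq.1 (hout x hx)
    have h3 : HasFDerivAt H (0 : (Fin (m + 1) → ℝ) →L[ℝ] ℂ) x :=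
      (hasFDerivAt_const (0 : ℂ) x).congr_of_eventuallyEq h2
    exact (hH x).unique h3
  set a : Fin (m + 1) → ℝ := fun _ => -M' with ha
  set b : Fin (m + 1) → ℝ := fun _ => M' with hb
  have hab : a ≤ b := fun i => by simp only [ha, hb]; linarith
  have key := integral_divergence_of_hasFDerivAt_off_countable' a b hab
    (fun i x => A i * H x) (fun i x => A i • H' x) ∅ Set.countable_empty
    (fun i => (continuous_const.mul hcont).continuousOn)
    (fun x _ i => (hH x).const_mul (A i)) (by
      simp only [_root_.smul_apply, smul_eq_mul]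
      exact hi.integrableOn)
  simp only [_root_.smul_apply, smul_eq_mul] at key
  have e1 : ∫ x in Set.Icc a b, ∑ i, A i * H' x (Pi.single i 1) =
      ∫ x, ∑ i, A i * H' x (Pi.single i 1) := by
    apply setIntegral_eq_integral_of_forall_compl_eq_zero
    intro x hx
    have h1 : ∃ i, M' ≤ |x i| := by
      by_contra h
      push Not at h
      apply hx
      rw [Set.mem_Icc]
      constructor
      · intro i
        have := (abs_lt.1 (h i)).1
        simp only [ha]
        exact this.le
      · intro i
        have := (abs_lt.1 (h i)).2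
        simp only [hb]
        exact this.le
    rw [hD0 x h1]
    simp
  rw [e1] at key
  rw [key]
  apply Finset.sum_eq_zero
  intro i _
  have h1 : ∀ x : Fin m → ℝ, H (i.insertNth (b i) x) = 0 := fun x => hH0 _ ⟨i, by
    rw [Fin.insertNth_apply_same]
    simp only [hb]
    exact le_abs_self _⟩
  have h2 : ∀ x : Fin m → ℝ, H (i.insertNth (a i) x) = 0 := fun x => hH0 _ ⟨i, by
    rw [Fin.insertNth_apply_same]
    simp only [ha]
    rw [abs_neg]
    exact le_abs_self _⟩
  simp only [h1, h2, mul_zero, integral_zero, sub_self]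

/-- a divergence of a compactly supported field has integral zero -/
lemma A5_div {E : Type} [NormedAddCommGroup E] [NormedSpace ℝ E] [FiniteDimensional ℝ E]
    [MeasurableSpace E] [BorelSpace E] (μ : Measure E) [μ.IsAddHaarMeasure] {J : Type} [Fintype J]
    (v : J → E) (a : J → ℂ) (F : E → ℂ) (F' : E → E →L[ℝ] ℂ) (hF : ∀ z, HasFDerivAt F (F' z) z)
    (hc : HasCompactSupport F) (hi : Integrable (fun z => ∑ j, a j * F' z (v j)) μ) :
    ∫ z, ∑ j, a j * F' z (v j) ∂μ = 0 := by
  rcases Nat.eq_zero_or_pos (finrank ℝ E) with hn | hn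
  · have hs : Subsingleton E := finrank_zero_iff.1 hn
    have h1 : ∀ j, v j = 0 := fun j => Subsingleton.elim _ _
    simp only [h1, map_zero, mul_zero, Finset.sum_const_zero, integral_zero]
  · obtain ⟨m, hm⟩ : ∃ m, finrank ℝ E = m + 1 := ⟨finrank ℝ E - 1, by omega⟩
    let L : E ≃L[ℝ] (Fin (m + 1) → ℝ) := (finBasisOfFinrankEq ℝ E hm).equivFunL
    set ν : Measure (Fin (m + 1) → ℝ) := μ.map L with hν
    have hνH : ν.IsAddHaarMeasure := L.isAddHaarMeasure_map μ
    have e1 := Measure.isAddLeftInvariant_eq_smul ν (volume : Measure (Fin (m + 1) → ℝ))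
    set c := Measure.addHaarScalarFactor ν (volume : Measure (Fin (m + 1) → ℝ)) with hc'
    have hc0 : c ≠ 0 := (Measure.addHaarScalarFactor_pos_of_isAddHaarMeasure _ _).ne'
    set h : E → ℂ := fun z => ∑ j, a j * F' z (v j) with hh
    have hme : MeasurableEmbedding L := L.toHomeomorph.measurableEmbedding
    have e2 : ∫ z, h z ∂μ = ∫ x, h (L.symm x) ∂ν := by
      rw [hν, hme.integral_map]
      congr 1
      funext z
      rw [L.symm_apply_apply]
    have hi2 : Integrable (fun x => h (L.symm x)) ν := by
      rw [hν, hme.integrable_map_iff]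
      refine hi.congr (Filter.Eventually.of_forall fun z => ?_)
      simp only [Function.comp, L.symm_apply_apply]
    set A : Fin (m + 1) → ℂ := fun i => ∑ j, a j * ((L (v j) i : ℝ) : ℂ) with hA
    have e3 : ∀ x, h (L.symm x) = ∑ i, A i *
        ((F' (L.symm x)).comp (L.symm : (Fin (m + 1) → ℝ) →L[ℝ] E)) (Pi.single i 1) := by
      intro x
      simp only [hh, hA, Finset.sum_mul]
      rw [Finset.sum_comm]
      apply Finset.sum_congr rfl
      intro j _
      have h1 : v j = L.symm (∑ i, (L (v j) i) • (Pi.single i (1 : ℝ) : Fin (m + 1) → ℝ)) := by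
        rw [ContinuousLinearEquiv.eq_symm_apply]
        ext i
        rw [Finset.sum_apply]
        simp [Pi.single_apply]
      conv_lhs => rw [h1]
      rw [map_sum, map_sum, Finset.mul_sum]
      apply Finset.sum_congr rfl
      intro i _
      simp only [map_smul, ContinuousLinearMap.comp_apply, ContinuousLinearEquiv.coe_coe]
      rw [Complex.real_smul]
      ring
    have hcompF : ∀ x, HasFDerivAt (fun x => F (L.symm x))
        ((F' (L.symm x)).comp (L.symm : (Fin (m + 1) → ℝ) →L[ℝ] E)) x := fun x =>
      (hF (L.symm x)).comp x L.symm.hasFDerivAt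
    have hcs : HasCompactSupport (fun x => F (L.symm x)) :=
      hc.comp_homeomorph L.symm.toHomeomorph
    rw [e1] at hi2
    have hi3 : Integrable (fun x => h (L.symm x)) (volume : Measure (Fin (m + 1) → ℝ)) := by
      have h5 : ((c : ENNReal)) ≠ 0 := by exact_mod_cast hc0
      have h6 : (c • (volume : Measure (Fin (m + 1) → ℝ))) =
        (c : ENNReal) • (volume : Measure (Fin (m + 1) → ℝ)) := rfl
      rw [h6] at hi2
      exact (integrable_smul_measure h5 ENNReal.coe_ne_top).1 hi2
    simp_rw [e3] at hi3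
    have key := A5_div_pi m (fun x => F (L.symm x)) _ hcompF hcs A hi3
    rw [e2, e1, integral_smul_nnreal_measure]
    simp_rw [e3]
    rw [key, smul_zero]

/-- multiplication by a function smooth on `Ω` -/
lemma A5_mul {X : Type} [NormedAddCommGroup X] [NormedSpace ℝ X] {U : Set X} (hU : IsOpen U)
    {b G : X → ℂ} (hb : ContDiffOn ℝ ∞ b U) (hG : CIg U G) : CIg U (fun x => b x * G x) := by
  refine ⟨?_, hG.cs.mul_left, (tsupport_mul_subset_right).trans hG.ts⟩
  rw [contDiff_iff_contDiffAt]
  intro x
  by_cases hx : x ∈ tsupport G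
  · exact (hb.contDiffAt (hU.mem_nhds (hG.ts hx))).mul hG.sm.contDiffAt
  · have h1 : (fun x => b x * G x) =ᶠ[nhds x] fun _ => 0 := by
      have h2 := notMem_tsupport_iff_eventuallyEq.1 hx
      filter_upwards [h2] with y hy
      rw [hy]
      simp
    exact contDiffAt_const.congr_of_eventuallyEq h1

lemma A5_fderiv {X : Type} [NormedAddCommGroup X] [NormedSpace ℝ X] {U : Set X} {G : X → ℂ}
    (hG : CIg U G) (v : X) : CIg U (fun x => fderiv ℝ G x v) := by
  refine ⟨?_, hG.cs.fderiv_apply (𝕜 := ℝ) v, ?_⟩
  · exact (hG.sm.fderiv_right (m := ∞) (by norm_cast)).clm_apply contDiff_const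
  · exact (tsupport_fderiv_apply_subset ℝ v).trans hG.ts

lemma A5_zero {X : Type} [NormedAddCommGroup X] [NormedSpace ℝ X] {U : Set X} :
    CIg U (fun _ : X => (0 : ℂ)) := by
  refine ⟨contDiff_const, HasCompactSupport.zero, ?_⟩
  have : tsupport (fun _ : X => (0 : ℂ)) = ∅ := tsupport_eq_empty_iff.2 rfl
  rw [this]
  exact Set.empty_subset _

lemma A5_add {X : Type} [NormedAddCommGroup X] [NormedSpace ℝ X] {U : Set X} {G H : X → ℂ}
    (hG : CIg U G) (hH : CIg U H) : CIg U (fun x => G x + H x) := by
  refine ⟨hG.sm.add hH.sm, hG.cs.add hH.cs, ?_⟩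
  exact (tsupport_add _ _).trans (Set.union_subset hG.ts hH.ts)

lemma A5_smul {X : Type} [NormedAddCommGroup X] [NormedSpace ℝ X] {U : Set X} {G : X → ℂ}
    (hG : CIg U G) (c : ℂ) : CIg U (fun x => c * G x) :=
  ⟨contDiff_const.mul hG.sm, hG.cs.mul_left, (tsupport_mul_subset_right).trans hG.ts⟩

lemma A5_sum {X : Type} [NormedAddCommGroup X] [NormedSpace ℝ X] {U : Set X} {J : Type}
    (s : Finset J) {G : J → X → ℂ} (hG : ∀ j, CIg U (G j)) : CIg U (fun x => ∑ j ∈ s, G j x) := by
  classical
  induction s using Finset.induction_on with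
  | empty => simpa using A5_zero
  | insert j s hj ih =>
    have : (fun x => ∑ j ∈ insert j s, G j x) = fun x => G j x + ∑ j ∈ s, G j x := by
      funext x
      rw [Finset.sum_insert hj]
    rw [this]
    exact A5_add (hG j) ih

theorem NS {P E : Type} [NormedAddCommGroup P] [NormedSpace ℝ P] [FiniteDimensional ℝ P]
    [NormedAddCommGroup E] [NormedSpace ℝ E] [FiniteDimensional ℝ E] [MeasurableSpace E]
    [BorelSpace E] (μ : Measure E) [μ.IsAddHaarMeasure] {J : Type} [Fintype J] (v : J → E)
    (a : J → ℂ) {Ω : Set (P × E)} (hΩ : IsOpen Ω) {R : P × E → ℂ} (hR : ContDiffOn ℝ ∞ R Ω)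
    (hR0 : ∀ x ∈ Ω, R x ≠ 0) (N : ℕ) {G : P × E → ℂ} (hG : CIg Ω G) :
    ∃ C : ℝ, 0 ≤ C ∧ ∀ (p : P) (lam : ℝ) (u : E → ℂ), 0 < lam → (∀ z, ‖u z‖ ≤ 1) →
    (∀ z, (p, z) ∈ Ω → ∃ u' : E →L[ℝ] ℂ, HasFDerivAt u u' z ∧
      ∑ j, a j * u' (v j) = Complex.I * lam * R (p, z) * u z) →
    lam ^ N * ‖∫ z, u z * G (p, z) ∂μ‖ ≤ C := by
  classical
  induction N generalizing G with
  | zero =>
    obtain ⟨M, hM⟩ := hG.cs.exists_bound_of_continuous hG.sm.continuous
    have hK : IsCompact (Prod.snd '' tsupport G) := hG.cs.isCompact.image continuous_snd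
    have hMn : ∀ x, 0 ≤ max M 0 := fun _ : P => le_max_right _ _
    set g : E → ℝ := (Prod.snd '' tsupport G).indicator fun _ => max M 0 with hg
    have hgi : Integrable g μ := by
      rw [hg, integrable_indicator_iff hK.measurableSet]
      exact integrableOn_const hK.measure_ne_top
    refine ⟨∫ z, g z ∂μ, ?_, fun p lam u _ hu _ => ?_⟩
    · apply integral_nonneg
      intro z
      exact Set.indicator_nonneg (fun _ _ => le_max_right _ _) z
    · rw [pow_zero, one_mul]
      apply norm_integral_le_of_norm_le hgi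
      refine Filter.Eventually.of_forall fun z => ?_
      by_cases hz : (p, z) ∈ tsupport G
      · have h1 : z ∈ Prod.snd '' tsupport G := ⟨(p, z), hz, rfl⟩
        rw [hg, Set.indicator_of_mem h1, norm_mul]
        calc ‖u z‖ * ‖G (p, z)‖ ≤ 1 * M :=
              mul_le_mul (hu z) (hM _) (norm_nonneg _) zero_le_one
          _ ≤ _ := by rw [one_mul]; exact le_max_left _ _
      · rw [image_eq_zero_of_notMem_tsupport hz, mul_zero, norm_zero]
        exact Set.indicator_nonneg (fun _ _ => le_max_right _ _) z
  | succ N ih =>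
    -- the transposed operator
    set G1 : P × E → ℂ := fun x => (Complex.I * R x)⁻¹ * G x with hG1
    have hG1c : CIg Ω G1 := A5_mul hΩ ((contDiffOn_const.mul hR).inv fun x hx =>
      mul_ne_zero Complex.I_ne_zero (hR0 x hx)) hG
    set G2 : P × E → ℂ := fun x => ∑ j, a j * fderiv ℝ G1 x (0, v j) with hG2
    have hG2c : CIg Ω G2 := A5_sum _ fun j => A5_smul (A5_fderiv hG1c (0, v j)) (a j)
    obtain ⟨C, hC0, hC⟩ := ih hG2c
    refine ⟨C, hC0, fun p lam u hlam hu hder => ?_⟩
    have h1 := hC p lam u hlam hu hder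
    -- the derivative of the product
    have hprod : ∀ z, ∃ F' : E →L[ℝ] ℂ, HasFDerivAt (fun z => u z * G1 (p, z)) F' z ∧
        ∑ j, a j * F' (v j) = lam * (u z * G (p, z)) + u z * G2 (p, z) := by
      intro z
      by_cases hz : (p, z) ∈ tsupport G1
      · have hzΩ := hG1c.ts hz
        obtain ⟨u', hu', hsum⟩ := hder z hzΩ
        have h3 : HasFDerivAt G1 (fderiv ℝ G1 (p, z)) (p, z) :=
          (hG1c.sm.differentiable (by norm_num)).differentiableAt.hasFDerivAt
        have h4 : HasFDerivAt (fun z : E => (p, z)) (ContinuousLinearMap.inr ℝ P E) z :=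
          hasFDerivAt_prodMk_right p z
        have h5 : HasFDerivAt (fun z => G1 (p, z))
            ((fderiv ℝ G1 (p, z)).comp (ContinuousLinearMap.inr ℝ P E)) z := h3.comp z h4
        refine ⟨_, hu'.mul h5, ?_⟩
        have h6 : Complex.I * R (p, z) ≠ 0 := mul_ne_zero Complex.I_ne_zero (hR0 _ hzΩ)
        have h7 : G (p, z) = Complex.I * R (p, z) * G1 (p, z) := by
          simp only [hG1]
          rw [← mul_assoc, mul_inv_cancel₀ h6, one_mul]
        have h8 : ∀ j, (u z • ((fderiv ℝ G1 (p, z)).comp (ContinuousLinearMap.inr ℝ P E)) +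
            G1 (p, z) • u') (v j) = u z * fderiv ℝ G1 (p, z) (0, v j) + G1 (p, z) * u' (v j) := by
          intro j
          simp only [_root_.add_apply, _root_.smul_apply, smul_eq_mul,
            ContinuousLinearMap.comp_apply, ContinuousLinearMap.inr_apply]
        simp only [h8, mul_add, Finset.sum_add_distrib]
        have h9 : ∑ j, a j * (G1 (p, z) * u' (v j)) = G1 (p, z) * ∑ j, a j * u' (v j) := by
          rw [Finset.mul_sum]
          refine Finset.sum_congr rfl fun j _ => ?_
          ring
        have h10 : ∑ j, a j * (u z * fderiv ℝ G1 (p, z) (0, v j)) = u z * G2 (p, z) := by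
          simp only [hG2]
          rw [Finset.mul_sum]
          refine Finset.sum_congr rfl fun j _ => ?_
          ring
        rw [h9, h10, hsum, h7]
        ring
      · have h2 := notMem_tsupport_iff_eventuallyEq.1 hz
        have h3 : (fun z => u z * G1 (p, z)) =ᶠ[nhds z] fun _ => 0 := by
          have h4 : Filter.Tendsto (fun z : E => (p, z)) (nhds z) (nhds (p, z)) :=
            (Continuous.prodMk_right p).continuousAt
          filter_upwards [h4.eventually h2] with y hy
          rw [hy]
          simp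
        refine ⟨0, (hasFDerivAt_const (0 : ℂ) z).congr_of_eventuallyEq h3, ?_⟩
        have h5 : fderiv ℝ G1 (p, z) = 0 := by
          rw [Filter.EventuallyEq.fderiv_eq h2]
          simp
        have h6 : G2 (p, z) = 0 := by
          simp only [hG2, h5]
          simp
        have h7 : G (p, z) = 0 := by
          by_contra hne
          have h8 : (p, z) ∈ Ω := hG.ts (subset_tsupport _ hne)
          have h9 : G1 (p, z) = 0 := image_eq_zero_of_notMem_tsupport hz
          simp only [hG1] at h9
          rcases mul_eq_zero.1 h9 with h10 | h10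
          · exact mul_ne_zero Complex.I_ne_zero (hR0 _ h8) (inv_eq_zero.1 h10)
          · exact hne h10
        rw [h6, h7]
        simp
    -- continuity and integrability
    have hcont : ∀ {H : P × E → ℂ}, CIg Ω H → Integrable (fun z => u z * H (p, z)) μ := by
      intro H hH
      have hc1 : Continuous fun z => u z * H (p, z) := by
        rw [continuous_iff_continuousAt]
        intro z
        by_cases hz : (p, z) ∈ tsupport H
        · obtain ⟨u', hu', _⟩ := hder z (hH.ts hz)
          exact hu'.continuousAt.mul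
            (hH.sm.continuous.comp (Continuous.prodMk_right p)).continuousAt
        · have h2 := notMem_tsupport_iff_eventuallyEq.1 hz
          have h3 : (fun z => u z * H (p, z)) =ᶠ[nhds z] fun _ => 0 := by
            have h4 : Filter.Tendsto (fun z : E => (p, z)) (nhds z) (nhds (p, z)) :=
              (Continuous.prodMk_right p).continuousAt
            filter_upwards [h4.eventually h2] with y hy
            rw [hy]
            simp
          exact (continuousAt_const (y := (0 : ℂ))).congr h3.symm
      refine hc1.integrable_of_hasCompactSupport ?_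
      have hK : IsCompact (Prod.snd '' tsupport H) := hH.cs.isCompact.image continuous_snd
      refine HasCompactSupport.intro hK fun z hz => ?_
      have : (p, z) ∉ tsupport H := fun h => hz ⟨(p, z), h, rfl⟩
      rw [image_eq_zero_of_notMem_tsupport this, mul_zero]
    choose F' hF' hF'sum using hprod
    have hcs : HasCompactSupport (fun z => u z * G1 (p, z)) := by
      have hK : IsCompact (Prod.snd '' tsupport G1) := hG1c.cs.isCompact.image continuous_snd
      refine HasCompactSupport.intro hK fun z hz => ?_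
      have : (p, z) ∉ tsupport G1 := fun h => hz ⟨(p, z), h, rfl⟩
      rw [image_eq_zero_of_notMem_tsupport this, mul_zero]
    have iG := (hcont hG).const_mul (lam : ℂ)
    have iG2 := hcont hG2c
    have hi : Integrable (fun z => ∑ j, a j * F' z (v j)) μ := by
      simp only [hF'sum]
      exact iG.add iG2
    have hzero := A5_div μ v a _ F' hF' hcs hi
    simp only [hF'sum] at hzero
    rw [integral_add iG iG2, integral_const_mul] at hzero
    have h2 : ‖(lam : ℂ) * ∫ z, u z * G (p, z) ∂μ‖ = ‖∫ z, u z * G2 (p, z) ∂μ‖ := by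
      have : (lam : ℂ) * ∫ z, u z * G (p, z) ∂μ = - ∫ z, u z * G2 (p, z) ∂μ := by
        linear_combination hzero
      rw [this, norm_neg]
    rw [norm_mul, Complex.norm_real, Real.norm_of_nonneg hlam.le] at h2
    calc lam ^ (N + 1) * ‖∫ z, u z * G (p, z) ∂μ‖ =
        lam ^ N * (lam * ‖∫ z, u z * G (p, z) ∂μ‖) := by ring
      _ ≤ C := by rw [h2]; exact h1

end Pool.Agent.T2H29.TA
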