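import Pool.Agent.T2H29.SW.U8
import Pool.Agent.T2H29.SW.U10

/-!
# Definitions for the bound in the archimedean aspect
-/

set_option autoImplicit false
set_option linter.unusedSectionVars false

namespace Pool.Agent.T2H29.TA

open Finset NumberField NumberField.InfinitePlace Module MeasureTheory
open Pool.Agent.T2H29.SW
open scoped RealInnerProductSpace ContDiff

/-- smooth functions with compact support in `Ω` -/
structure CIg {X : Type} [NormedAddCommGroup X] [NormedSpace ℝ X] (Ω : Set X) (G : X → ℂ) :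
    Prop where
  sm : ContDiff ℝ ∞ G
  cs : HasCompactSupport G
  ts : tsupport G ⊆ Ω

/-! ## local objects: `r = true` for real places, `r = false` for complex places -/

/-- local integral -/
noncomputable def LI (r : Bool) (f : ℂ → ℂ) : ℂ :=
  match r with
  | true => ∫ x : ℝ, f (x : ℂ)
  | false => ∫ z : ℂ, f z

/-- local degree -/
def nr (r : Bool) : ℕ := match r with
  | true => 1
  | false => 2

/-- elements of the local field -/
def Rl (r : Bool) (z : ℂ) : Prop := r = true → z.im = 0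

/-- the parameter of the character -/
noncomputable def cp (r : Bool) (k : ℤ) (τ : ℝ) : ℂ := match r with
  | true => (τ : ℂ)
  | false => (τ : ℂ) - k * Complex.I

/-- the local Fourier integral -/
noncomputable def FL (r : Bool) (f : ℂ → ℂ) (ζ : ℂ) : ℂ :=
  LI r fun z => f z * e (-(nr r * ((starRingEnd ℂ) ζ * z).re))

/-- the product of the characters -/
noncomputable def U1 (k : ℤ) (τ : ℝ) (h z : ℂ) : ℂ :=
  uu k τ (z + h) * (starRingEnd ℂ) (uu k τ (z - h))

/-- the product of the weights -/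
def B1 (β : ℂ → ℂ) (h z : ℂ) : ℂ := β (z + h) * (starRingEnd ℂ) (β (z - h))

/-- the local integral of the differenced sum -/
noncomputable def I1 (r : Bool) (k : ℤ) (τ : ℝ) (β : ℂ → ℂ) (h ζ : ℂ) : ℂ :=
  FL r (fun z => U1 k τ h z * B1 β h z) ζ

/-- `C` -/
noncomputable def Cc (r : Bool) (k : ℤ) (τ : ℝ) (h : ℂ) : ℂ := -2 * cp r k τ * h

/-- `Z` -/
noncomputable def Zz (r : Bool) (ζ : ℂ) : ℂ := 2 * Real.pi * nr r * (starRingEnd ℂ) ζ

/-- the support of the weights -/
def S0 : Set ℂ := {z | 1 / 2 < ‖z‖ ∧ ‖z‖ < 3 / 2 ∧ 9 / 10 * ‖z‖ < z.re}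

/-- the cut-off for the stationary points: the compact set -/
def K0 : Set ℂ := {q | 1 / 5 ≤ ‖q‖ ∧ ‖q‖ ≤ 5 / 2 ∧ 3 / 5 * ‖q‖ ≤ q.re}

/-- the cut-off for the stationary points: the open set -/
def Q0 : Set ℂ := {q | 1 / 10 < ‖q‖ ∧ ‖q‖ < 10 ∧ 1 / 2 * ‖q‖ < q.re}

/-- the cut-off -/
structure Chi (χ : ℂ → ℝ) : Prop where
  sm : ContDiff ℝ ∞ χ
  cs : HasCompactSupport χ
  ts : tsupport χ ⊆ Q0
  one : ∀ q ∈ K0, χ q = 1
  nn : ∀ q, 0 ≤ χ q
  le : ∀ q, χ q ≤ 1

/-- the stationary point -/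
noncomputable def sH (h y : ℂ) : ℂ := (h ^ 2 + 1 / y) ^ (1 / 2 : ℂ)

/-- the phase -/
noncomputable def TH (h y : ℂ) : ℂ :=
  -(1 / (2 * h)) * Complex.log ((sH h y + h) / (sH h y - h)) - y * sH h y

/-- the difference -/
def Df (a : ℂ) (f : ℂ → ℂ) (y : ℂ) : ℂ := f (y + a) - f y

/-- the normalised local amplitude -/
noncomputable def Am (r : Bool) (k : ℤ) (τ : ℝ) (β : ℂ → ℂ) (χ : ℂ → ℝ) (h ζ : ℂ) : ℂ :=
  (χ (Cc r k τ h / Zz r ζ) : ℂ) *
    Complex.exp (-(Complex.I * ((Cc r k τ h * TH h (Zz r ζ / Cc r k τ h)).re : ℝ))) *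
    I1 r k τ β h ζ

/-! ## lattices -/

variable (K : Type) [Field K] [NumberField K]

open scoped Classical in
/-- the type of a place -/
noncomputable def tp (w : InfinitePlace K) : Bool := decide (IsReal w)

/-- scaling of the places -/
noncomputable def Ds (s : InfinitePlace K → ℝ) : Matrix (Fin (dg K)) (Fin (dg K)) ℝ :=
  Matrix.diagonal fun i => Real.exp (s (plc K i))

/-- lattices balanced under all scalings of the places -/
def GB (B : ℝ) (A : Matrix (Fin (dg K)) (Fin (dg K)) ℝ) : Prop :=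
  A.det ≠ 0 ∧ ∀ s : InfinitePlace K → ℝ, CB B (Ds K s * A)

end Pool.Agent.T2H29.TA
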