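import Pool.Agent.T2H29.TA.A5
import Pool.Agent.T2H29.TA.A6
import Pool.Agent.T2H29.TA.A7

/-!
# Local spaces
-/

set_option autoImplicit false
set_option linter.unusedSectionVars false

namespace Pool.Agent.T2H29.TA

open Finset Module MeasureTheory
open Pool.Agent.T2H29.SW
open scoped RealInnerProductSpace ContDiff

/-- a local space -/
structure LocE (r : Bool) (E : Type) [NormedAddCommGroup E] [InnerProductSpace ℝ E]
    [FiniteDimensional ℝ E] [MeasurableSpace E] [BorelSpace E] where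
  ι : E →L[ℝ] ℂ
  v : Fin 2 → E
  inn : ∀ x y, ⟪x, y⟫ = ((starRingEnd ℂ) (ι x) * ι y).re
  rl : ∀ x, Rl r (ι x)
  sur : ∀ z, Rl r z → ∃ x, ι x = z
  vv : ∀ z, Rl r z → z = (z.re : ℂ) * ι (v 0) + (z.im : ℂ) * ι (v 1)
  comb : ∀ R, Rl r R → (((R * ι (v 0)).re : ℝ) : ℂ) + (-Complex.I) * (((R * ι (v 1)).re : ℝ) : ℂ) = R
  li : ∀ f, LI r f = ∫ x : E, f (ι x)
  dim : finrank ℝ E = nr r

/-- the real line -/
noncomputable def locR : LocE true ℝ where
  ι := Complex.ofRealCLM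
  v := ![1, 0]
  inn := by
    intro x y
    simp [mul_comm]
  rl := by
    intro x _
    simp
  sur := by
    intro z hz
    refine ⟨z.re, ?_⟩
    have := hz rfl
    apply Complex.ext
    · simp
    · simp [this]
  vv := by
    intro z hz
    have := hz rfl
    apply Complex.ext
    · simp
    · simp [this]
  comb := by
    intro R hR
    have := hR rfl
    apply Complex.ext
    · simp
    · simp [this]
  li := fun f => rfl
  dim := by simp [nr]

/-- the complex plane -/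
noncomputable def locC : LocE false ℂ where
  ι := ContinuousLinearMap.id ℝ ℂ
  v := ![1, Complex.I]
  inn := by
    intro x y
    rw [Complex.inner, mul_comm]
    rfl
  rl := by
    intro x h
    exact absurd h (by decide)
  sur := fun z _ => ⟨z, rfl⟩
  vv := by
    intro z _
    simp
  comb := by
    intro R _
    apply Complex.ext
    · simp
    · simp
  li := fun f => rfl
  dim := by simp [nr]

variable {r : Bool} {E : Type} [NormedAddCommGroup E] [InnerProductSpace ℝ E]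
    [FiniteDimensional ℝ E] [MeasurableSpace E] [BorelSpace E]

lemma LocE.norm (l : LocE r E) (x : E) : ‖l.ι x‖ = ‖x‖ := by
  have h1 := l.inn x x
  rw [real_inner_self_eq_norm_sq] at h1
  have h2 : ((starRingEnd ℂ) (l.ι x) * l.ι x).re = ‖l.ι x‖ ^ 2 := by
    rw [mul_comm, Complex.mul_conj, Complex.ofReal_re, Complex.normSq_eq_norm_sq]
  rw [h2] at h1
  exact ((sq_eq_sq₀ (norm_nonneg _) (norm_nonneg _)).1 h1).symm

lemma LocE.FL (l : LocE r E) (f : ℂ → ℂ) (ξ : E) :
    FL r f (l.ι ξ) = FT (fun x => f (l.ι x)) ((nr r : ℝ) • ξ) := by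
  unfold TA.FL FT
  rw [l.li]
  refine integral_congr_ae (Filter.Eventually.of_forall fun x => ?_)
  beta_reduce
  rw [inner_smul_right, l.inn x ξ]
  congr 3
  have : ((starRingEnd ℂ) (l.ι x) * l.ι ξ).re = ((starRingEnd ℂ) (l.ι ξ) * l.ι x).re := by
    simp only [Complex.mul_re, Complex.conj_re, Complex.conj_im]
    ring
  rw [this]

/-! ### closure properties -/

lemma Rl.add {z w : ℂ} (hz : Rl r z) (hw : Rl r w) : Rl r (z + w) := fun h => by
  rw [Complex.add_im, hz h, hw h, add_zero]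

lemma Rl.neg {z : ℂ} (hz : Rl r z) : Rl r (-z) := fun h => by
  rw [Complex.neg_im, hz h, neg_zero]

lemma Rl.sub {z w : ℂ} (hz : Rl r z) (hw : Rl r w) : Rl r (z - w) := by
  rw [sub_eq_add_neg]; exact hz.add hw.neg

lemma Rl.mul {z w : ℂ} (hz : Rl r z) (hw : Rl r w) : Rl r (z * w) := fun h => by
  rw [Complex.mul_im, hz h, hw h]; ring

lemma Rl.inv {z : ℂ} (hz : Rl r z) : Rl r z⁻¹ := fun h => by
  rw [Complex.inv_im, hz h, neg_zero, zero_div]

lemma Rl.div {z w : ℂ} (hz : Rl r z) (hw : Rl r w) : Rl r (z / w) := by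
  rw [div_eq_mul_inv]; exact hz.mul hw.inv

lemma Rl.pow {z : ℂ} (hz : Rl r z) (n : ℕ) : Rl r (z ^ n) := by
  induction n with
  | zero => intro _; simp
  | succ n ih => rw [pow_succ]; exact ih.mul hz

lemma Rl.ofReal (x : ℝ) : Rl r (x : ℂ) := fun _ => Complex.ofReal_im x

lemma Rl.conj {z : ℂ} (hz : Rl r z) : Rl r ((starRingEnd ℂ) z) := fun h => by
  rw [Complex.conj_im, hz h, neg_zero]

lemma Rl.nat (n : ℕ) : Rl r (n : ℂ) := fun _ => by simp

lemma Rl.cp (k : ℤ) (τ : ℝ) : Rl r (cp r k τ) := by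
  intro h
  subst h
  exact Complex.ofReal_im τ

lemma Rl.Cc {h : ℂ} (hh : Rl r h) (k : ℤ) (τ : ℝ) : Rl r (Cc r k τ h) := by
  unfold TA.Cc
  have h2 : Rl r (-2 : ℂ) := by
    have := (Rl.nat (r := r) 2).neg
    simpa using this
  exact (h2.mul (Rl.cp k τ)).mul hh

lemma Rl.Zz {ζ : ℂ} (hh : Rl r ζ) : Rl r (Zz r ζ) := by
  unfold TA.Zz
  have h2 : Rl r (2 * Real.pi : ℂ) := by
    have := (Rl.ofReal (r := r) (2 * Real.pi))
    push_cast at this
    exact this
  exact (h2.mul (Rl.nat _)).mul hh.conj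

/-! ### derivatives -/

/-- the derivative of the character in the local direction -/
lemma uu_der (k : ℤ) (τ : ℝ) {z : ℂ} (hz : z ≠ 0) (hzr : Rl r z) : ∃ u' : ℂ →L[ℝ] ℂ,
    HasFDerivAt (uu k τ) u' z ∧ ∀ w, Rl r w →
      u' w = Complex.I * (((cp r k τ * (w / z)).re : ℝ) : ℂ) * uu k τ z := by
  obtain ⟨u', h1, h2⟩ := uu_deriv k τ hz
  refine ⟨u', h1, fun w hw => ?_⟩
  rw [h2, mul_comm _ (uu k τ z)]
  congr 1
  set q := w / z with hq
  have hqr : Rl r q := hw.div hzr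
  cases r with
  | true =>
    have h3 : q.im = 0 := hqr rfl
    have h4 : ((q.re : ℝ) : ℂ) = q := by
      apply Complex.ext
      · simp
      · simp [h3]
    have h5 : (cp true k τ * q).re = τ * q.re := by
      show ((τ : ℂ) * q).re = _
      rw [Complex.re_ofReal_mul]
    rw [h5]
    push_cast
    rw [h4]
    ring
  | false =>
    have h5 : (cp false k τ * q).re = τ * q.re + k * q.im := by
      show (((τ : ℂ) - k * Complex.I) * q).re = _
      simp
    rw [h5]
    conv_lhs => rw [← Complex.re_add_im q]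
    simp only [Complex.add_re, Complex.ofReal_re, Complex.mul_re, Complex.ofReal_im, Complex.I_re,
      mul_zero, Complex.I_im, zero_mul, sub_self, add_zero]
    push_cast
    linear_combination (k : ℂ) * (q.im : ℂ) * Complex.I * 0

/-- unimodular functions with a given logarithmic derivative, in the local directions -/
def LD (l : LocE r E) (u : E → ℂ) (R : ℂ) (x : E) : Prop :=
  ∃ u' : E →L[ℝ] ℂ, HasFDerivAt u u' x ∧ ∀ w, u' w = Complex.I * (((R * l.ι w).re : ℝ) : ℂ) * u x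

lemma LD.mul {l : LocE r E} {u u2 : E → ℂ} {R R2 : ℂ} {x : E} (h : LD l u R x) (h2 : LD l u2 R2 x) :
    LD l (fun y => u y * u2 y) (R + R2) x := by
  obtain ⟨u', h3, h4⟩ := h
  obtain ⟨u2', h5, h6⟩ := h2
  refine ⟨_, h3.mul h5, fun w => ?_⟩
  simp only [ContinuousLinearMap.add_apply, ContinuousLinearMap.smul_apply, smul_eq_mul, h4, h6]
  rw [add_mul, Complex.add_re]
  push_cast
  ring

lemma LD.conj {l : LocE r E} {u : E → ℂ} {R : ℂ} {x : E} (h : LD l u R x) :
    LD l (fun y => (starRingEnd ℂ) (u y)) (-R) x := by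
  obtain ⟨u', h3, h4⟩ := h
  refine ⟨_, (Complex.conjCLE : ℂ →L[ℝ] ℂ).hasFDerivAt.comp x h3, fun w => ?_⟩
  show (starRingEnd ℂ) (u' w) = Complex.I * (((-R * l.ι w).re : ℝ) : ℂ) * (starRingEnd ℂ) (u x)
  have e1 : (-R * l.ι w).re = -(R * l.ι w).re := by rw [neg_mul, Complex.neg_re]
  rw [h4, map_mul, map_mul, Complex.conj_I, Complex.conj_ofReal, e1]
  push_cast
  ring

lemma LD.shift {l : LocE r E} {u : E → ℂ} {R : ℂ} {x a : E} (h : LD l u R (x + a)) :
    LD l (fun y => u (y + a)) R x := by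
  obtain ⟨u', h3, h4⟩ := h
  refine ⟨u', ?_, h4⟩
  have h5 : HasFDerivAt (fun y : E => y + a) (ContinuousLinearMap.id ℝ E) x :=
    (hasFDerivAt_id x).add_const a
  exact h3.comp x h5

lemma LD.comb {l : LocE r E} {u : E → ℂ} {R : ℂ} (hR : Rl r R) {x : E} (h : LD l u R x) :
    ∃ u' : E →L[ℝ] ℂ, HasFDerivAt u u' x ∧
      ∑ j : Fin 2, (![1, -Complex.I] j : ℂ) * u' (l.v j) = Complex.I * R * u x := by
  obtain ⟨u', h3, h4⟩ := h
  refine ⟨u', h3, ?_⟩
  rw [Fin.sum_univ_two, h4, h4]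
  have := l.comb R hR
  simp only [Matrix.cons_val_zero, Matrix.cons_val_one]
  calc _ = Complex.I * ((((R * l.ι (l.v 0)).re : ℝ) : ℂ) + (-Complex.I) *
        (((R * l.ι (l.v 1)).re : ℝ) : ℂ)) * u x := by ring
    _ = _ := by rw [this]

lemma LD.uu (l : LocE r E) (k : ℤ) (τ : ℝ) {a : ℂ} (ha : Rl r a) {x : E} (hx : l.ι x + a ≠ 0) :
    LD l (fun y => SW.uu k τ (l.ι y + a)) (cp r k τ / (l.ι x + a)) x := by
  obtain ⟨u', h1, h2⟩ := uu_der (r := r) k τ hx ((l.rl x).add ha)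
  have h3 : HasFDerivAt (fun y => l.ι y + a) (l.ι) x := l.ι.hasFDerivAt.add_const a
  have h4 : HasFDerivAt (fun y => SW.uu k τ (l.ι y + a)) (u'.comp l.ι) x :=
    HasFDerivAt.comp (g := SW.uu k τ) (f := fun y => l.ι y + a) x h1 h3
  refine ⟨_, h4, fun w => ?_⟩
  rw [ContinuousLinearMap.comp_apply, h2 _ (l.rl w)]
  congr 4
  field_simp

/-- the exponential -/
lemma LD.e (l : LocE r E) (ζ : ℂ) (x : E) :
    LD l (fun y => SW.e (-(nr r * ((starRingEnd ℂ) ζ * l.ι y).re))) (-Zz r ζ) x := by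
  have h1 : HasFDerivAt (fun y => (starRingEnd ℂ) ζ * l.ι y)
      ((starRingEnd ℂ) ζ • l.ι) x := l.ι.hasFDerivAt.const_mul _
  have h2 := Complex.reCLM.hasFDerivAt.comp x h1
  have h3 : HasFDerivAt (fun y => ((((starRingEnd ℂ) ζ * l.ι y).re : ℝ) : ℂ)) _ x :=
    Complex.ofRealCLM.hasFDerivAt.comp x h2
  have h4 := (h3.const_mul (-(2 * Real.pi * Complex.I * nr r))).cexp
  refine ⟨_, h4.congr_of_eventuallyEq ?_, fun w => ?_⟩
  · refine Filter.Eventually.of_forall fun y => ?_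
    show SW.e _ = Complex.exp (_ * (((starRingEnd ℂ) ζ * l.ι y).re : ℝ))
    unfold SW.e
    congr 1
    push_cast
    ring
  · have e1 : SW.e (-(nr r * ((starRingEnd ℂ) ζ * l.ι x).re)) =
        Complex.exp (-(2 * Real.pi * Complex.I * nr r) * (((starRingEnd ℂ) ζ * l.ι x).re : ℝ)) := by
      unfold SW.e
      congr 1
      push_cast
      ring
    beta_reduce
    rw [e1]
    have e2 : (-Zz r ζ * l.ι w).re = -(2 * Real.pi * nr r) * ((starRingEnd ℂ) ζ * l.ι w).re := by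
      unfold Zz
      have : -(2 * (Real.pi : ℂ) * (nr r : ℂ) * (starRingEnd ℂ) ζ) * l.ι w =
          ((-(2 * Real.pi * nr r) : ℝ) : ℂ) * ((starRingEnd ℂ) ζ * l.ι w) := by
        push_cast; ring
      rw [this, Complex.re_ofReal_mul]
    rw [e2]
    simp only [ContinuousLinearMap.smul_apply, ContinuousLinearMap.comp_apply, smul_eq_mul,
      Complex.reCLM_apply, Complex.ofRealCLM_apply, Function.comp_apply]
    push_cast
    ring

/-- the differenced character -/
lemma LD.U1 (l : LocE r E) (k : ℤ) (τ : ℝ) {h : ℂ} (hh : Rl r h) {x : E} (h1 : l.ι x + h ≠ 0)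
    (h2 : l.ι x - h ≠ 0) :
    LD l (fun y => TA.U1 k τ h (l.ι y)) (Cc r k τ h / ((l.ι x) ^ 2 - h ^ 2)) x := by
  have h3 := LD.uu l k τ hh h1
  have h4 := (LD.uu l k τ hh.neg (x := x) (by rwa [← sub_eq_add_neg])).conj
  have h5 := h3.mul h4
  have e1 : cp r k τ / (l.ι x + h) + -(cp r k τ / (l.ι x + -h)) =
      Cc r k τ h / ((l.ι x) ^ 2 - h ^ 2) := by
    unfold Cc
    have h6 : l.ι x + -h ≠ 0 := by rwa [← sub_eq_add_neg]
    have h7 : (l.ι x) ^ 2 - h ^ 2 ≠ 0 := by
      have : (l.ι x) ^ 2 - h ^ 2 = (l.ι x + h) * (l.ι x - h) := by ring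
      rw [this]
      exact mul_ne_zero h1 h2
    field_simp
    ring
  rw [e1] at h5
  have e2 : (fun y => TA.U1 k τ h (l.ι y)) = fun y => SW.uu k τ (l.ι y + h) *
      (starRingEnd ℂ) (SW.uu k τ (l.ι y + -h)) := by
    funext y
    unfold TA.U1
    rw [← sub_eq_add_neg]
  rw [e2]
  exact h5

lemma U1_norm (k : ℤ) (τ : ℝ) (h z : ℂ) : ‖U1 k τ h z‖ ≤ 1 := by
  unfold U1
  rw [norm_mul, RCLike.norm_conj]
  exact mul_le_one₀ (uu_norm _ _ _) (norm_nonneg _) (uu_norm _ _ _)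

end Pool.Agent.T2H29.TA
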