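import Pool.Agent.T2H29.TA.L9

/-!
# The local amplitude is bounded and Lipschitz
-/

set_option autoImplicit false
set_option linter.unusedSectionVars false

namespace Pool.Agent.T2H29.TA

open Finset Module MeasureTheory
open Pool.Agent.T2H29.SW
open scoped RealInnerProductSpace ContDiff

variable {r : Bool} {E : Type} [NormedAddCommGroup E] [InnerProductSpace ℝ E]
    [FiniteDimensional ℝ E] [MeasurableSpace E] [BorelSpace E]

lemma nr_pos (r : Bool) : (1 : ℝ) ≤ nr r := by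
  cases r <;> simp [nr]

lemma nr_le (r : Bool) : (nr r : ℝ) ≤ 2 := by
  cases r <;> simp [nr]

/-- the cut-off of the stationary point -/
lemma F1_der (l : LocE r E) {χ : ℂ → ℝ} (hχ : Chi χ) : ∃ C : ℝ, 0 ≤ C ∧
    ∀ (k : ℤ) (τ : ℝ) (h : ℂ), Cc r k τ h ≠ 0 → ∀ x : E, (LY l k τ h x)⁻¹ ∈ Q0 →
    ∃ D : E →L[ℝ] ℂ, HasFDerivAt (fun x : E => ((χ ((LY l k τ h x)⁻¹) : ℝ) : ℂ)) D x ∧
      ∀ η, ‖D η‖ ≤ C * ‖η‖ := by
  have h1 : Continuous (fderiv ℝ χ) := hχ.sm.continuous_fderiv (by simp)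
  obtain ⟨C, hC⟩ := h1.bounded_above_of_compact_support (hχ.cs.fderiv (𝕜 := ℝ))
  have hC0 : 0 ≤ C := (norm_nonneg _).trans (hC 0)
  refine ⟨C * (100 * (2 * Real.pi * nr r)), by positivity, fun k τ h hc x hx => ?_⟩
  have hx0 : LY l k τ h x ≠ 0 := by
    intro h0
    have := hx.1
    rw [h0, inv_zero, norm_zero] at this
    linarith
  have h2 : HasFDerivAt (fun y : ℂ => y⁻¹) _ (LY l k τ h x) :=
    (hasDerivAt_inv hx0).hasFDerivAt.restrictScalars ℝ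
  have h3 : HasFDerivAt (fun x : E => (LY l k τ h x)⁻¹) _ x :=
    HasFDerivAt.comp (g := fun y : ℂ => y⁻¹) (f := fun x : E => LY l k τ h x) x h2
      (LY l k τ h).hasFDerivAt
  have h4 : HasFDerivAt (fun x : E => χ ((LY l k τ h x)⁻¹)) _ x :=
    HasFDerivAt.comp (g := χ) (f := fun x : E => (LY l k τ h x)⁻¹) x
      (hχ.sm.differentiable (by simp) _).hasFDerivAt h3
  have h5 : HasFDerivAt (fun x : E => ((χ ((LY l k τ h x)⁻¹) : ℝ) : ℂ)) _ x :=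
    Complex.ofRealCLM.hasFDerivAt.comp x h4
  refine ⟨_, h5, fun η => ?_⟩
  show ‖(((fderiv ℝ χ ((LY l k τ h x)⁻¹)) (LY l k τ h η * -((LY l k τ h x) ^ 2)⁻¹) : ℝ) : ℂ)‖ ≤ _
  rw [Complex.norm_real]
  refine (ContinuousLinearMap.le_opNorm _ _).trans ?_
  rw [norm_mul, norm_neg, norm_inv, norm_pow, LY_norm l k τ hc η]
  have h6 : (‖LY l k τ h x‖ ^ 2)⁻¹ ≤ 100 := by
    have h7 := hx.2.1
    rw [norm_inv] at h7
    rw [← inv_pow]
    calc _ ≤ (10 : ℝ) ^ 2 := pow_le_pow_left₀ (by positivity) h7.le 2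
      _ = 100 := by norm_num
  calc _ ≤ C * (2 * Real.pi * nr r * ‖η‖ * 100) := by
        refine mul_le_mul (hC _) ?_ (by positivity) hC0
        exact mul_le_mul_of_nonneg_left h6 (by positivity)
    _ = _ := by ring

/-- the stationary point is real if everything is -/
lemma sH_Rl {h y : ℂ} (hh : Rl r h) (hy : Rl r y) (h1 : sH h y ^ 2 = h ^ 2 + 1 / y)
    (h2 : 0 < (sH h y).re) : Rl r (sH h y) := by
  intro hr
  have h3 : Rl r (h ^ 2 + 1 / y) := (hh.pow 2).add (by rw [one_div]; exact hy.inv)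
  have h4 := h3 hr
  rw [← h1, pow_two, Complex.mul_im] at h4
  have h5 : (sH h y).re * (sH h y).im = 0 := by linarith
  exact (mul_eq_zero.1 h5).resolve_left h2.ne'

lemma id23 (l : LocE r E) {F : E → ℂ} (hF : Continuous F) (hFc : HasCompactSupport F)
    (Z z0 : ℂ) : (((Z * z0).re : ℝ) : ℂ) * (∫ y, F y) - ∫ y, (((Z * l.ι y).re : ℝ) : ℂ) * F y =
      ∫ y, (((Z * (z0 - l.ι y)).re : ℝ) : ℂ) * F y := by
  have h12 : Continuous fun y : E => (((Z * l.ι y).re : ℝ) : ℂ) :=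
    Complex.continuous_ofReal.comp (Complex.continuous_re.comp (by fun_prop))
  have i1 : Integrable F := hF.integrable_of_hasCompactSupport hFc
  have i2 : Integrable fun y : E => (((Z * l.ι y).re : ℝ) : ℂ) * F y :=
    (h12.mul hF).integrable_of_hasCompactSupport hFc.mul_left
  rw [← integral_const_mul, ← integral_sub (i1.const_mul _) i2]
  refine integral_congr_ae (Filter.Eventually.of_forall fun y => ?_)
  beta_reduce
  rw [mul_sub, Complex.sub_re]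
  push_cast
  ring

lemma phB_cont (l : LocE r E) {β : ℂ → ℂ} (hβ : CIg S0 β) (k : ℤ) (τ : ℝ) {h : ℂ} (hh : Rl r h)
    (hn : ‖h‖ ≤ 1 / 16) (ζ : ℂ) : Continuous (fun y : E => ph l k τ h ζ y * B1 β h (l.ι y)) ∧
      HasCompactSupport (fun y : E => ph l k τ h ζ y * B1 β h (l.ι y)) := by
  obtain ⟨hcx, hcs⟩ := UB_cont l hβ k τ hh hn
  have e1 : (fun y : E => ph l k τ h ζ y * B1 β h (l.ι y)) = fun y : E =>
      (U1 k τ h (l.ι y) * B1 β h (l.ι y)) * e (-(nr r * ((starRingEnd ℂ) ζ * l.ι y).re)) := by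
    funext y
    unfold ph
    ring
  rw [e1]
  refine ⟨hcx.mul ?_, hcs.mul_right⟩
  unfold e
  have : Continuous fun y : E => ((starRingEnd ℂ) ζ * l.ι y).re :=
    Complex.continuous_re.comp (by fun_prop)
  fun_prop

/-- the product of the phase and the integral -/
lemma F23_der (l : LocE r E) {β : ℂ → ℂ} (hβ : CIg S0 β) : ∃ C h0 : ℝ, 0 ≤ C ∧ 0 < h0 ∧
    ∀ (k : ℤ) (τ : ℝ) (h : ℂ), Rl r h → h ≠ 0 → ‖h‖ ≤ h0 →
    1 ≤ ‖Cc r k τ h‖ → ∀ x : E, (LY l k τ h x)⁻¹ ∈ Q0 →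
    ∃ D : E →L[ℝ] ℂ, HasFDerivAt (fun x : E => Complex.exp (-(Complex.I *
      ((Cc r k τ h * TH h (LY l k τ h x)).re : ℝ))) * I1 r k τ β h ((‖Cc r k τ h‖ : ℂ) * l.ι x)) D x ∧
      ∀ η, ‖D η‖ ≤ C * (√((1 + ‖Cc r k τ h‖) ^ nr r))⁻¹ * ‖η‖ := by
  obtain ⟨C, hC0, hC⟩ := der_bd l hβ
  obtain ⟨h0, hh0, hT⟩ := TH_deriv
  refine ⟨10 * (2 * Real.pi * nr r) * C, min h0 (1 / 16), by positivity, by positivity,
    fun k τ h hh hne hn hc x hx => ?_⟩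
  have hn1 : ‖h‖ ≤ h0 := hn.trans (min_le_left _ _)
  have hn2 : ‖h‖ ≤ 1 / 16 := hn.trans (min_le_right _ _)
  have hc0 : Cc r k τ h ≠ 0 := by
    intro h1
    rw [h1, norm_zero] at hc
    linarith
  have hcp : 0 < ‖Cc r k τ h‖ := by linarith
  obtain ⟨Y, hY⟩ : ∃ Y : ℂ, Y = LY l k τ h x := ⟨_, rfl⟩
  have hYp : 0 < ‖Y‖ := by
    rw [norm_pos_iff]
    intro h0
    have := hx.1
    rw [← hY, h0, inv_zero, norm_zero] at this
    linarith
  have hY1 : 1 / 10 < ‖Y‖ := by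
    have h7 := hx.2.1
    rw [norm_inv, ← hY] at h7
    rw [inv_lt_iff_one_lt_mul₀ hYp] at h7
    linarith
  have hY2 : ‖Y‖ < 10 := by
    have h7 := hx.1
    rw [norm_inv, ← hY, lt_inv_comm₀ (by norm_num) hYp] at h7
    norm_num at h7
    exact h7
  have hY0 : Y ≠ 0 := norm_pos_iff.1 hYp
  have hYre : 0 < Y.re := by
    have h7 := hx.2.2
    rw [← hY, Complex.inv_re] at h7
    have h8 : 0 < Y.re / Complex.normSq Y := lt_of_le_of_lt (by positivity) h7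
    exact (div_pos_iff_of_pos_right (Complex.normSq_pos.2 hY0)).1 h8
  obtain ⟨t1, t2, t3⟩ := hT h Y hne hn1 (by linarith) (by linarith) hYre
  obtain ⟨D2, d1, d2⟩ := F2_der l k τ hc0 (x := x) (by rw [← hY]; exact t1)
  obtain ⟨D3, d3, d4⟩ := I1_der l hβ k τ hh hn2 ‖Cc r k τ h‖ x
  have hx0 : x ≠ 0 := by
    intro h1
    apply hY0
    rw [hY, h1, map_zero]
  have hxp : 0 < ‖x‖ := norm_pos_iff.2 hx0
  refine ⟨_, HasFDerivAt.mul d1 d3, fun η => ?_⟩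
  by_cases hη : η = 0
  · rw [hη, map_zero, norm_zero]
    positivity
  have hηp : 0 < ‖η‖ := norm_pos_iff.2 hη
  -- the values
  obtain ⟨ζ, hζ⟩ : ∃ ζ : ℂ, ζ = (‖Cc r k τ h‖ : ℂ) * l.ι x := ⟨_, rfl⟩
  have hζr : Rl r ζ := by rw [hζ]; exact (Rl.ofReal _).mul (l.rl x)
  have hZ : Zz r ζ = Cc r k τ h * Y := by
    rw [hY, LY_apply, ← hζ]
    field_simp
  obtain ⟨z0, hz0⟩ : ∃ z0 : ℂ, z0 = sH h Y := ⟨_, rfl⟩
  obtain ⟨κ, hκ⟩ : ∃ κ : ℂ, κ = ((starRingEnd ℂ) (l.ι η) / (‖η‖ : ℂ)) /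
    ((starRingEnd ℂ) (l.ι x) / (‖x‖ : ℂ)) := ⟨_, rfl⟩
  have hYr : Rl r Y := by
    rw [hY, LY_apply, ← hζ]
    exact hζr.Zz.div (hh.Cc k τ)
  have hz0r : Rl r z0 := by rw [hz0]; exact sH_Rl hh hYr t2 t3
  have hκr : Rl r κ := by
    rw [hκ]
    exact ((l.rl η).conj.div (Rl.ofReal _)).div ((l.rl x).conj.div (Rl.ofReal _))
  have hκ1 : ‖κ‖ ≤ 1 := by
    rw [hκ, norm_div, norm_div, norm_div, RCLike.norm_conj, RCLike.norm_conj, l.norm, l.norm,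
      Complex.norm_real, Complex.norm_real, norm_norm, norm_norm, div_self hηp.ne',
      div_self hxp.ne', div_one]
  have hz4 : ‖z0‖ ≤ 4 := by
    have h7 : ‖z0‖ ^ 2 ≤ 16 := by
      rw [← norm_pow, hz0, t2]
      refine (norm_add_le _ _).trans ?_
      rw [norm_pow, norm_div, norm_one]
      have h8 : ‖h‖ ^ 2 ≤ 1 := pow_le_one₀ (norm_nonneg _) (by linarith)
      have h9 : 1 / ‖Y‖ ≤ 10 := by
        rw [div_le_iff₀ hYp]
        linarith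
      linarith
    nlinarith [norm_nonneg z0]
  have hst : Cc r k τ h = Zz r ζ * (z0 ^ 2 - h ^ 2) := by
    rw [hz0, t2, hZ]
    field_simp
    ring
  have h10 := hC k τ h z0 κ ζ hh hz0r hκr hζr hn2 (by rw [hz0]; exact t3.le) hz4 hκ1 hst
  obtain ⟨hcx, hcs⟩ := phB_cont l hβ k τ hh hn2 ζ
  -- the identity
  obtain ⟨Ev, hEv⟩ : ∃ Ev : ℂ, Ev = Complex.exp (-(Complex.I *
    ((Cc r k τ h * TH h (LY l k τ h x)).re : ℝ))) := ⟨_, rfl⟩
  have hEn : ‖Ev‖ = 1 := by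
    rw [hEv, Complex.norm_exp]
    simp
  have hZκ : ((‖η‖ / ‖x‖ : ℝ) : ℂ) * (Zz r ζ * κ) = (‖Cc r k τ h‖ : ℂ) * Zz r (l.ι η) := by
    have b1 : (starRingEnd ℂ) (l.ι x) ≠ 0 := by
      rw [ne_eq, map_eq_zero]
      intro h
      apply hx0
      rw [← norm_eq_zero, ← l.norm, h, norm_zero]
    have b2 : (‖x‖ : ℂ) ≠ 0 := by exact_mod_cast hxp.ne'
    have b3 : (‖η‖ : ℂ) ≠ 0 := by exact_mod_cast hηp.ne'
    rw [hκ, hζ]
    unfold Zz
    rw [map_mul, Complex.conj_ofReal]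
    push_cast
    field_simp
  have e0 : (‖Cc r k τ h‖ : ℂ) * (∫ y : E, ((((Zz r (l.ι η) * (z0 - l.ι y)).re : ℝ) : ℂ)) *
      (ph l k τ h ζ y * B1 β h (l.ι y))) = ((‖η‖ / ‖x‖ : ℝ) : ℂ) *
        ∫ y : E, ((((Zz r ζ * κ * (z0 - l.ι y)).re : ℝ) : ℂ)) *
          (ph l k τ h ζ y * B1 β h (l.ι y)) := by
    rw [← integral_const_mul, ← integral_const_mul]
    refine integral_congr_ae (Filter.Eventually.of_forall fun y => ?_)
    beta_reduce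
    have e5 : ‖Cc r k τ h‖ * (Zz r (l.ι η) * (z0 - l.ι y)).re =
        ‖η‖ / ‖x‖ * (Zz r ζ * κ * (z0 - l.ι y)).re := by
      rw [← Complex.re_ofReal_mul, ← Complex.re_ofReal_mul, ← mul_assoc, ← mul_assoc, ← hZκ]
    have e6 : (‖Cc r k τ h‖ : ℂ) * (((Zz r (l.ι η) * (z0 - l.ι y)).re : ℝ) : ℂ) =
        ((‖η‖ / ‖x‖ : ℝ) : ℂ) * (((Zz r ζ * κ * (z0 - l.ι y)).re : ℝ) : ℂ) := by
      rw [← Complex.ofReal_mul, ← Complex.ofReal_mul, e5]
    rw [← mul_assoc, e6]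
    ring
  have e1 : (Complex.exp (-(Complex.I * ((Cc r k τ h * TH h (LY l k τ h x)).re : ℝ))) • D3 +
      I1 r k τ β h ((‖Cc r k τ h‖ : ℂ) * l.ι x) • D2) η =
      Ev * (Complex.I * (((‖η‖ / ‖x‖ : ℝ) : ℂ) *
        ∫ y : E, ((((Zz r ζ * κ * (z0 - l.ι y)).re : ℝ) : ℂ)) *
          (ph l k τ h ζ y * B1 β h (l.ι y)))) := by
    rw [← e0, ← id23 l hcx hcs, ← I1_eq]
    rw [ContinuousLinearMap.add_apply, ContinuousLinearMap.smul_apply,
      ContinuousLinearMap.smul_apply, d2, d4, ← hEv, ← hζ, ← hY, ← hz0, smul_eq_mul, smul_eq_mul]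
    have e2 : (∫ y : E, -(Complex.I * (‖Cc r k τ h‖ : ℂ) * (((Zz r (l.ι η) * l.ι y).re : ℝ) : ℂ)) *
        (ph l k τ h ζ y * B1 β h (l.ι y))) = -(Complex.I * (‖Cc r k τ h‖ : ℂ)) *
          ∫ y : E, (((Zz r (l.ι η) * l.ι y).re : ℝ) : ℂ) * (ph l k τ h ζ y * B1 β h (l.ι y)) := by
      rw [← integral_const_mul]
      refine integral_congr_ae (Filter.Eventually.of_forall fun y => ?_)
      beta_reduce
      ring
    rw [e2]
    ring
  rw [e1, norm_mul, norm_mul, norm_mul, hEn, Complex.norm_I, one_mul, one_mul, Complex.norm_real,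
    Real.norm_of_nonneg (by positivity)]
  have h11 : ‖η‖ / ‖x‖ ≤ 10 * (2 * Real.pi * nr r) * ‖η‖ := by
    have h12 := LY_norm l k τ hc0 x
    rw [← hY] at h12
    rw [div_le_iff₀ hxp]
    have h13 : 1 ≤ 10 * (2 * Real.pi * nr r * ‖x‖) := by linarith
    calc ‖η‖ = ‖η‖ * 1 := (mul_one _).symm
      _ ≤ ‖η‖ * (10 * (2 * Real.pi * nr r * ‖x‖)) := mul_le_mul_of_nonneg_left h13 hηp.le
      _ = _ := by ring
  calc _ ≤ (10 * (2 * Real.pi * nr r) * ‖η‖) * (C * (√((1 + ‖Cc r k τ h‖) ^ nr r))⁻¹) :=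
        mul_le_mul h11 h10 (norm_nonneg _) (by positivity)
    _ = _ := by ring

/-- the amplitude is differentiable with a bounded derivative -/
theorem am_loc (l : LocE r E) {β : ℂ → ℂ} (hβ : CIg S0 β) {χ : ℂ → ℝ} (hχ : Chi χ) :
    ∃ C h0 : ℝ, 0 ≤ C ∧ 0 < h0 ∧ ∀ (k : ℤ) (τ : ℝ) (h : ℂ), Rl r h → h ≠ 0 → ‖h‖ ≤ h0 →
    1 ≤ ‖Cc r k τ h‖ → ∀ x : E, ∃ D : E →L[ℝ] ℂ,
      HasFDerivAt (fun x : E => (√(‖Cc r k τ h‖ ^ nr r) : ℂ) *
        Am r k τ β χ h ((‖Cc r k τ h‖ : ℂ) * l.ι x)) D x ∧ ‖D‖ ≤ C := by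
  obtain ⟨C1, hC10, hC1⟩ := F1_der l hχ
  obtain ⟨C2, h0, hC20, hh0, hC2⟩ := F23_der l hβ
  obtain ⟨C3, hC30, hC3⟩ := sup_loc l hβ
  refine ⟨C1 * C3 + C2, min h0 (1 / 16), by positivity, by positivity,
    fun k τ h hh hne hn hc x => ?_⟩
  have hn1 : ‖h‖ ≤ h0 := hn.trans (min_le_left _ _)
  have hn2 : ‖h‖ ≤ 1 / 16 := hn.trans (min_le_right _ _)
  have hc0 : Cc r k τ h ≠ 0 := by
    intro h1
    rw [h1, norm_zero] at hc
    linarith
  have hcp : 0 < ‖Cc r k τ h‖ := by linarith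
  have hAm : ∀ x : E, Am r k τ β χ h ((‖Cc r k τ h‖ : ℂ) * l.ι x) =
      ((χ ((LY l k τ h x)⁻¹) : ℝ) : ℂ) * (Complex.exp (-(Complex.I *
      ((Cc r k τ h * TH h (LY l k τ h x)).re : ℝ))) *
        I1 r k τ β h ((‖Cc r k τ h‖ : ℂ) * l.ι x)) := by
    intro x
    unfold Am
    rw [LY_apply, inv_div]
    ring
  have hsc : √(‖Cc r k τ h‖ ^ nr r) * (√((1 + ‖Cc r k τ h‖) ^ nr r))⁻¹ ≤ 1 := by
    rw [← div_eq_mul_inv, div_le_one (by positivity)]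
    exact Real.sqrt_le_sqrt (pow_le_pow_left₀ (norm_nonneg _) (by linarith) _)
  by_cases hx : (LY l k τ h x)⁻¹ ∈ tsupport χ
  · have hxQ := hχ.ts hx
    obtain ⟨D1, a1, a2⟩ := hC1 k τ h hc0 x hxQ
    obtain ⟨D2, b1, b2⟩ := hC2 k τ h hh hne hn1 hc x hxQ
    have h1 := (HasFDerivAt.mul a1 b1).const_mul (√(‖Cc r k τ h‖ ^ nr r) : ℂ)
    refine ⟨_, h1.congr_of_eventuallyEq (Filter.Eventually.of_forall fun y => ?_), ?_⟩
    · beta_reduce
      rw [hAm]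
      rfl
    · refine ContinuousLinearMap.opNorm_le_bound _ (by positivity) fun η => ?_
      rw [ContinuousLinearMap.smul_apply, ContinuousLinearMap.add_apply,
        ContinuousLinearMap.smul_apply, ContinuousLinearMap.smul_apply, smul_eq_mul, smul_eq_mul,
        smul_eq_mul, norm_mul, Complex.norm_real, Real.norm_of_nonneg (Real.sqrt_nonneg _)]
      have c1 := a2 η
      have c2 := b2 η
      have c3 := hC3 k τ h ((‖Cc r k τ h‖ : ℂ) * l.ι x) hh ((Rl.ofReal _).mul (l.rl x)) hn2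
      have c4 : ‖((χ ((LY l k τ h x)⁻¹) : ℝ) : ℂ)‖ ≤ 1 := by
        rw [Complex.norm_real, Real.norm_of_nonneg (hχ.nn _)]
        exact hχ.le _
      have c5 : ‖Complex.exp (-(Complex.I * ((Cc r k τ h * TH h (LY l k τ h x)).re : ℝ)))‖ = 1 := by
        rw [Complex.norm_exp]
        simp
      have hs0 := Real.sqrt_nonneg (‖Cc r k τ h‖ ^ nr r)
      calc _ ≤ √(‖Cc r k τ h‖ ^ nr r) * (1 * (C2 * (√((1 + ‖Cc r k τ h‖) ^ nr r))⁻¹ * ‖η‖) +
            (1 * (C3 * (√((1 + ‖Cc r k τ h‖) ^ nr r))⁻¹)) * (C1 * ‖η‖)) := by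
            refine mul_le_mul_of_nonneg_left ((norm_add_le _ _).trans (add_le_add ?_ ?_)) hs0
            · rw [norm_mul]
              exact mul_le_mul c4 c2 (norm_nonneg _) zero_le_one
            · rw [norm_mul, norm_mul, c5]
              exact mul_le_mul (mul_le_mul_of_nonneg_left c3 zero_le_one) c1 (norm_nonneg _)
                (by positivity)
        _ = (√(‖Cc r k τ h‖ ^ nr r) * (√((1 + ‖Cc r k τ h‖) ^ nr r))⁻¹) *
            ((C1 * C3 + C2) * ‖η‖) := by ring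
        _ ≤ 1 * ((C1 * C3 + C2) * ‖η‖) := mul_le_mul_of_nonneg_right hsc (by positivity)
        _ = _ := one_mul _
  · have h1 : ∀ᶠ y : E in nhds x, χ ((LY l k τ h y)⁻¹) = 0 := by
      by_cases hY : LY l k τ h x = 0
      · have h2 : ∀ᶠ y : E in nhds x, ‖LY l k τ h y‖ < 1 / 10 := by
          have hcon : ContinuousAt (fun y : E => ‖LY l k τ h y‖) x := by fun_prop
          refine hcon.eventually (gt_mem_nhds ?_)
          beta_reduce
          rw [hY, norm_zero]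
          norm_num
        filter_upwards [h2] with y hy
        refine hχ.zero fun h3 => ?_
        by_cases hy0 : LY l k τ h y = 0
        · have := h3.1
          rw [hy0, inv_zero, norm_zero] at this
          linarith
        · have h4 := h3.2.1
          rw [norm_inv, inv_lt_iff_one_lt_mul₀ (norm_pos_iff.2 hy0)] at h4
          linarith
      · have h2 : ContinuousAt (fun y : E => (LY l k τ h y)⁻¹) x :=
          (LY l k τ h).continuous.continuousAt.inv₀ hY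
        have h3 : ∀ᶠ y : E in nhds x, (LY l k τ h y)⁻¹ ∈ (tsupport χ)ᶜ :=
          h2.eventually ((isClosed_tsupport χ).isOpen_compl.mem_nhds hx)
        filter_upwards [h3] with y hy
        exact image_eq_zero_of_notMem_tsupport hy
    refine ⟨0, ?_, by rw [norm_zero]; positivity⟩
    refine (hasFDerivAt_const (0 : ℂ) x).congr_of_eventuallyEq ?_
    filter_upwards [h1] with y hy
    rw [hAm, hy]
    simp

/-- the amplitude on a local space -/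
theorem am_loc2 (l : LocE r E) {β : ℂ → ℂ} (hβ : CIg S0 β) {χ : ℂ → ℝ} (hχ : Chi χ) :
    ∃ C h0 : ℝ, 0 < C ∧ 0 < h0 ∧ ∀ (k : ℤ) (τ : ℝ) (h : ℂ), Rl r h → h ≠ 0 → ‖h‖ ≤ h0 →
    1 ≤ ‖Cc r k τ h‖ →
    (∀ x : ℂ, Rl r x → ‖(√(‖Cc r k τ h‖ ^ nr r) : ℂ) *
      Am r k τ β χ h (‖Cc r k τ h‖ * x)‖ ≤ C) ∧
    ∀ x y : ℂ, Rl r x → Rl r y → ‖(√(‖Cc r k τ h‖ ^ nr r) : ℂ) *
      Am r k τ β χ h (‖Cc r k τ h‖ * x) - (√(‖Cc r k τ h‖ ^ nr r) : ℂ) *
      Am r k τ β χ h (‖Cc r k τ h‖ * y)‖ ≤ C * ‖x - y‖ := by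
  obtain ⟨C, h0, hC0, hh0, hC⟩ := am_loc l hβ hχ
  obtain ⟨C3, hC30, hC3⟩ := sup_loc l hβ
  refine ⟨C + C3 + 1, min h0 (1 / 16), by positivity, by positivity,
    fun k τ h hh hne hn hc => ⟨fun x hx => ?_, fun x y hx hy => ?_⟩⟩
  · have hn2 : ‖h‖ ≤ 1 / 16 := hn.trans (min_le_right _ _)
    have hsc : √(‖Cc r k τ h‖ ^ nr r) * (√((1 + ‖Cc r k τ h‖) ^ nr r))⁻¹ ≤ 1 := by
      rw [← div_eq_mul_inv, div_le_one (by positivity)]
      exact Real.sqrt_le_sqrt (pow_le_pow_left₀ (norm_nonneg _) (by linarith) _)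
    have c3 := hC3 k τ h ((‖Cc r k τ h‖ : ℂ) * x) hh ((Rl.ofReal _).mul hx) hn2
    unfold Am
    rw [norm_mul, norm_mul, norm_mul, Complex.norm_real, Complex.norm_real,
      Real.norm_of_nonneg (Real.sqrt_nonneg _), Real.norm_of_nonneg (hχ.nn _), Complex.norm_exp]
    have c4 : (-(Complex.I * (((Cc r k τ h * TH h (Zz r ((‖Cc r k τ h‖ : ℂ) * x) / Cc r k τ h)).re : ℝ)
      : ℂ))).re = 0 := by simp
    rw [c4, Real.exp_zero, mul_one]
    have c5 := hχ.le (Cc r k τ h / Zz r ((‖Cc r k τ h‖ : ℂ) * x))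
    calc _ ≤ √(‖Cc r k τ h‖ ^ nr r) * (1 * (C3 * (√((1 + ‖Cc r k τ h‖) ^ nr r))⁻¹)) := by
          refine mul_le_mul_of_nonneg_left ?_ (Real.sqrt_nonneg _)
          exact mul_le_mul c5 c3 (norm_nonneg _) zero_le_one
      _ = (√(‖Cc r k τ h‖ ^ nr r) * (√((1 + ‖Cc r k τ h‖) ^ nr r))⁻¹) * C3 := by ring
      _ ≤ 1 * C3 := mul_le_mul_of_nonneg_right hsc hC30
      _ ≤ _ := by linarith
  · obtain ⟨x', rfl⟩ := l.sur x hx
    obtain ⟨y', rfl⟩ := l.sur y hy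
    choose D hD1 hD2 using hC k τ h hh hne (hn.trans (min_le_left _ _)) hc
    have h1 := (convex_univ (𝕜 := ℝ) (E := E)).norm_image_sub_le_of_norm_hasFDerivWithin_le
      (f := fun x : E => (√(‖Cc r k τ h‖ ^ nr r) : ℂ) *
        Am r k τ β χ h ((‖Cc r k τ h‖ : ℂ) * l.ι x)) (f' := D) (C := C)
      (fun x _ => (hD1 x).hasFDerivWithinAt) (fun x _ => hD2 x) (Set.mem_univ y') (Set.mem_univ x')
    refine h1.trans ?_
    rw [← map_sub, l.norm]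
    exact mul_le_mul_of_nonneg_right (by linarith) (norm_nonneg _)

/-- the normalised amplitude is bounded and Lipschitz -/
theorem loc_am (r : Bool) {β : ℂ → ℂ} (hβ : CIg S0 β) {χ : ℂ → ℝ} (hχ : Chi χ) :
    ∃ C h0 : ℝ, 0 < C ∧ 0 < h0 ∧ ∀ (k : ℤ) (τ : ℝ) (h : ℂ), Rl r h → h ≠ 0 → ‖h‖ ≤ h0 →
    1 ≤ ‖Cc r k τ h‖ →
    (∀ x : ℂ, Rl r x → ‖(√(‖Cc r k τ h‖ ^ nr r) : ℂ) *
      Am r k τ β χ h (‖Cc r k τ h‖ * x)‖ ≤ C) ∧
    ∀ x y : ℂ, Rl r x → Rl r y → ‖(√(‖Cc r k τ h‖ ^ nr r) : ℂ) *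
      Am r k τ β χ h (‖Cc r k τ h‖ * x) - (√(‖Cc r k τ h‖ ^ nr r) : ℂ) *
      Am r k τ β χ h (‖Cc r k τ h‖ * y)‖ ≤ C * ‖x - y‖ := by
  cases r with
  | true => exact am_loc2 locR hβ hχ
  | false => exact am_loc2 locC hβ hχ

end Pool.Agent.T2H29.TA
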