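import Pool.Agent.T2H29.TA.L1

/-!
# The sup bound with parameters
-/

set_option autoImplicit false
set_option linter.unusedSectionVars false

namespace Pool.Agent.T2H29.TA

open Finset Module MeasureTheory
open Pool.Agent.T2H29.SW
open scoped RealInnerProductSpace ContDiff

section
variable {X Y : Type} [NormedAddCommGroup X] [NormedSpace ℝ X] [NormedAddCommGroup Y]
  [NormedSpace ℝ Y]

lemma tsup_comp {f : Y → ℂ} {L : X → Y} (hL : Continuous L) :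
    tsupport (fun x => f (L x)) ⊆ L ⁻¹' (tsupport f) := by
  refine closure_minimal (fun x hx => ?_) ((isClosed_tsupport f).preimage hL)
  exact subset_tsupport f hx

lemma CIg.mul_smooth {Ω : Set X} (hO : IsOpen Ω) {b G : X → ℂ} (hb : ContDiffOn ℝ ∞ b Ω)
    (hG : CIg Ω G) : CIg Ω (fun x => b x * G x) := by
  refine ⟨?_, hG.cs.mul_left, (tsupport_mul_subset_right).trans hG.ts⟩
  rw [contDiff_iff_contDiffAt]
  intro x
  by_cases hx : x ∈ tsupport G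
  · exact (hb.contDiffAt (hO.mem_nhds (hG.ts hx))).mul hG.sm.contDiffAt
  · have h1 : (fun x => b x * G x) =ᶠ[nhds x] fun _ => 0 := by
      have h2 := notMem_tsupport_iff_eventuallyEq.1 hx
      filter_upwards [h2] with y hy
      rw [hy]
      simp
    exact contDiffAt_const.congr_of_eventuallyEq h1

lemma CIg.bdd [FiniteDimensional ℝ X] {Ω : Set X} {G : X → ℂ} (hG : CIg Ω G) :
    ∃ R : ℝ, 0 ≤ R ∧ ∀ x, G x ≠ 0 → ‖x‖ ≤ R := by
  obtain ⟨R, hR⟩ := hG.cs.isCompact.isBounded.exists_norm_le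
  refine ⟨max R 0, le_max_right _ _, fun x hx => (hR x (subset_tsupport G hx)).trans (le_max_left _ _)⟩

lemma CIg.sup [FiniteDimensional ℝ X] {Ω : Set X} {G : X → ℂ} (hG : CIg Ω G) :
    ∃ C : ℝ, 0 ≤ C ∧ ∀ x, ‖G x‖ ≤ C := by
  obtain ⟨C, hC⟩ := hG.sm.continuous.bounded_above_of_compact_support hG.cs
  exact ⟨C, (norm_nonneg _).trans (hC 0), hC⟩

end

lemma bmp_one : bmp (1 : ℝ) = 1 := by
  refine bmp.one_of_mem_closedBall ?_
  rw [Metric.mem_closedBall, dist_self]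
  exact bmp.rIn_pos.le

/-- the cut-off near the unit circle -/
noncomputable def kapH (e : ℂ) : ℂ := ((bmp (‖e‖ ^ 2) : ℝ) : ℂ)

lemma kapH_smooth : ContDiff ℝ ∞ kapH := by
  unfold kapH
  exact Complex.ofRealCLM.contDiff.comp (bmp.contDiff.comp (contDiff_id.norm_sq ℝ))

lemma kapH_ne {e : ℂ} (h : kapH e ≠ 0) : 1 / 2 < ‖e‖ ^ 2 ∧ ‖e‖ ^ 2 < 3 / 2 := by
  refine bmp_supp fun h0 => h ?_
  unfold kapH
  rw [h0]
  simp

lemma kapH_ts : tsupport kapH ⊆ {e | 1 / 2 ≤ ‖e‖ ^ 2 ∧ ‖e‖ ^ 2 ≤ 3 / 2} := by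
  refine closure_minimal (fun e he => ?_) ?_
  · obtain ⟨h1, h2⟩ := kapH_ne he
    exact ⟨h1.le, h2.le⟩
  · exact (isClosed_le (continuous_const (y := (1/2:ℝ))) (continuous_norm.pow 2 : Continuous fun e : ℂ => ‖e‖ ^ 2)).inter
      (isClosed_le (continuous_norm.pow 2 : Continuous fun e : ℂ => ‖e‖ ^ 2) (continuous_const (y := (3/2:ℝ))))

lemma kapH_unit {e : ℂ} (h : ‖e‖ = 1) : kapH e = 1 := by
  unfold kapH
  rw [h, one_pow, bmp_one, Complex.ofReal_one]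

variable {r : Bool} {E : Type} [NormedAddCommGroup E] [InnerProductSpace ℝ E]
    [FiniteDimensional ℝ E] [MeasurableSpace E] [BorelSpace E]
variable {P : Type} [NormedAddCommGroup P] [NormedSpace ℝ P] [FiniteDimensional ℝ P]

/-- the domain of the parameters -/
def Oc (hp : P →L[ℝ] ℂ) : Set (P × ℂ) := {x | 1 / 4 < x.2.re ∧ ‖hp x.1‖ < 1 / 8}

lemma Oc_open (hp : P →L[ℝ] ℂ) : IsOpen (Oc hp) := by
  have h1 : Continuous fun x : P × ℂ => x.2.re := Complex.continuous_re.comp continuous_snd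
  have h2 : Continuous fun x : P × ℂ => ‖hp x.1‖ := (hp.continuous.comp continuous_fst).norm
  exact (isOpen_lt continuous_const h1).inter (isOpen_lt h2 continuous_const)

lemma sq_ne {z h : ℂ} (hz : 1 / 4 < z.re) (hh : ‖h‖ < 1 / 8) : z + h ≠ 0 ∧ z - h ≠ 0 ∧
    z ^ 2 - h ^ 2 ≠ 0 := by
  have h1 : ‖h‖ < ‖z‖ := by
    have := (le_abs_self _).trans (Complex.abs_re_le_norm z)
    linarith
  have h2 : z + h ≠ 0 := by
    intro h0
    have : z = -h := eq_neg_of_add_eq_zero_left h0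
    rw [this, norm_neg] at h1
    exact lt_irrefl _ h1
  have h3 : z - h ≠ 0 := by
    intro h0
    rw [sub_eq_zero.1 h0] at h1
    exact lt_irrefl _ h1
  refine ⟨h2, h3, ?_⟩
  have : z ^ 2 - h ^ 2 = (z + h) * (z - h) := by ring
  rw [this]
  exact mul_ne_zero h2 h3

/-- the function of the inner integral -/
noncomputable def G2 (l : LocE r E) (G : P × ℂ → ℂ) (x : ((P × E) × ℂ) × E) : ℂ :=
  G (x.1.1.1, l.ι (x.2 + x.1.1.2)) * (starRingEnd ℂ) (G (x.1.1.1, l.ι (x.2 - x.1.1.2))) *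
    kapH x.1.2

/-- the domain -/
def Om2 (l : LocE r E) (hp : P →L[ℝ] ℂ) : Set (((P × E) × ℂ) × E) :=
  {x | x.1.2 ≠ 0 ∧ (x.1.1.1, l.ι (x.2 + x.1.1.2)) ∈ Oc hp ∧
    (x.1.1.1, l.ι (x.2 - x.1.1.2)) ∈ Oc hp}

/-- the gradient -/
noncomputable def R2 (l : LocE r E) (hp : P →L[ℝ] ℂ) (x : ((P × E) × ℂ) × E) : ℂ :=
  -(4 * l.ι x.2 * x.1.2) / (((l.ι (x.2 + x.1.1.2)) ^ 2 - (hp x.1.1.1) ^ 2) *
    ((l.ι (x.2 - x.1.1.2)) ^ 2 - (hp x.1.1.1) ^ 2))

lemma Om2_open (l : LocE r E) (hp : P →L[ℝ] ℂ) : IsOpen (Om2 l hp) := by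
  refine IsOpen.inter ?_ (IsOpen.inter ?_ ?_)
  · exact isOpen_ne_fun (by fun_prop) continuous_const
  · exact (Oc_open hp).preimage (by fun_prop)
  · exact (Oc_open hp).preimage (by fun_prop)

lemma R2_ne (l : LocE r E) (hp : P →L[ℝ] ℂ) : ∀ x ∈ Om2 l hp, R2 l hp x ≠ 0 := by
  intro x hx
  obtain ⟨h1, ⟨h2, h3⟩, h4, h5⟩ := hx
  unfold R2
  refine div_ne_zero (neg_ne_zero.2 (mul_ne_zero (mul_ne_zero (by norm_num) ?_) h1))
    (mul_ne_zero (sq_ne h2 h3).2.2 (sq_ne h4 h5).2.2)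
  intro h0
  have h6 : (l.ι (x.2 + x.1.1.2)).re + (l.ι (x.2 - x.1.1.2)).re = 0 := by
    rw [map_add, map_sub, h0]
    simp
  have h7 : 1 / 4 < (l.ι (x.2 + x.1.1.2)).re := h2
  have h8 : 1 / 4 < (l.ι (x.2 - x.1.1.2)).re := h4
  linarith

lemma R2_smooth (l : LocE r E) (hp : P →L[ℝ] ℂ) : ContDiffOn ℝ ∞ (R2 l hp) (Om2 l hp) := by
  have a1 : ContDiff ℝ ∞ fun x : ((P × E) × ℂ) × E => -(4 * l.ι x.2 * x.1.2) := by fun_prop
  have a2 : ContDiff ℝ ∞ fun x : ((P × E) × ℂ) × E =>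
    (((l.ι (x.2 + x.1.1.2)) ^ 2 - (hp x.1.1.1) ^ 2) *
    ((l.ι (x.2 - x.1.1.2)) ^ 2 - (hp x.1.1.1) ^ 2)) := by fun_prop
  unfold R2
  simp only [div_eq_mul_inv]
  refine a1.contDiffOn.mul (a2.contDiffOn.inv fun x hx => ?_)
  obtain ⟨h1, ⟨h2, h3⟩, h4, h5⟩ := hx
  exact mul_ne_zero (sq_ne h2 h3).2.2 (sq_ne h4 h5).2.2

lemma G2_CI (l : LocE r E) {hp : P →L[ℝ] ℂ} {G : P × ℂ → ℂ} (hG : CIg (Oc hp) G) :
    CIg (Om2 l hp) (G2 l G) := by
  obtain ⟨R, hR0, hR⟩ := hG.bdd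
  refine ⟨?_, ?_, ?_⟩
  · unfold G2
    have a1 : ContDiff ℝ ∞ fun x : ((P × E) × ℂ) × E => (x.1.1.1, l.ι (x.2 + x.1.1.2)) := by
      fun_prop
    have a2 : ContDiff ℝ ∞ fun x : ((P × E) × ℂ) × E => (x.1.1.1, l.ι (x.2 - x.1.1.2)) := by
      fun_prop
    have a3 : ContDiff ℝ ∞ fun x : ((P × E) × ℂ) × E => x.1.2 := by fun_prop
    have h1 : ContDiff ℝ ∞ fun x : ((P × E) × ℂ) × E => G (x.1.1.1, l.ι (x.2 + x.1.1.2)) :=
      hG.sm.comp a1
    have h2 : ContDiff ℝ ∞ fun x : ((P × E) × ℂ) × E => G (x.1.1.1, l.ι (x.2 - x.1.1.2)) :=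
      hG.sm.comp a2
    have h3 : ContDiff ℝ ∞ fun x : ((P × E) × ℂ) × E =>
        (starRingEnd ℂ) (G (x.1.1.1, l.ι (x.2 - x.1.1.2))) :=
      (ContinuousLinearMap.contDiff (Complex.conjCLE : ℂ →L[ℝ] ℂ)).comp h2
    exact (h1.mul h3).mul (kapH_smooth.comp a3)
  · refine HasCompactSupport.intro (isCompact_closedBall (0 : ((P × E) × ℂ) × E) (2 * R + 2)) ?_
    intro x hx
    by_contra h0
    apply hx
    unfold G2 at h0
    have h1 : G (x.1.1.1, l.ι (x.2 + x.1.1.2)) ≠ 0 := fun h => h0 (by rw [h]; ring)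
    have h2 : G (x.1.1.1, l.ι (x.2 - x.1.1.2)) ≠ 0 := fun h => h0 (by rw [h]; simp)
    have h3 : kapH x.1.2 ≠ 0 := fun h => h0 (by rw [h]; ring)
    have h4 := hR _ h1
    have h5 := hR _ h2
    obtain ⟨-, h6⟩ := kapH_ne h3
    rw [Prod.norm_def, max_le_iff] at h4 h5
    obtain ⟨h7, h8⟩ := h4
    obtain ⟨-, h9⟩ := h5
    dsimp only at h7 h8 h9
    rw [l.norm] at h8 h9
    have h10 : ‖x.2‖ ≤ R := by
      have e1 : x.2 = (1 / 2 : ℝ) • ((x.2 + x.1.1.2) + (x.2 - x.1.1.2)) := by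
        rw [show (x.2 + x.1.1.2) + (x.2 - x.1.1.2) = (2 : ℝ) • x.2 by rw [two_smul]; abel, smul_smul]
        norm_num
      rw [e1, norm_smul]
      have := norm_add_le (x.2 + x.1.1.2) (x.2 - x.1.1.2)
      rw [Real.norm_of_nonneg (by norm_num : (0:ℝ) ≤ 1 / 2)]
      linarith
    have h11 : ‖x.1.1.2‖ ≤ R := by
      have e1 : x.1.1.2 = (1 / 2 : ℝ) • ((x.2 + x.1.1.2) - (x.2 - x.1.1.2)) := by
        rw [show (x.2 + x.1.1.2) - (x.2 - x.1.1.2) = (2 : ℝ) • x.1.1.2 by rw [two_smul]; abel,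
          smul_smul]
        norm_num
      rw [e1, norm_smul]
      have := norm_sub_le (x.2 + x.1.1.2) (x.2 - x.1.1.2)
      rw [Real.norm_of_nonneg (by norm_num : (0:ℝ) ≤ 1 / 2)]
      linarith
    have h12 : ‖x.1.2‖ ≤ 2 := by nlinarith [norm_nonneg x.1.2]
    rw [Metric.mem_closedBall, dist_zero_right, Prod.norm_def, Prod.norm_def, Prod.norm_def]
    refine max_le (max_le (max_le ?_ ?_) ?_) ?_ <;> linarith
  · intro x hx
    unfold G2 at hx
    have h1 := tsupport_mul_subset_left hx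
    have h2 := tsupport_mul_subset_right hx
    have h3 := tsupport_mul_subset_left h1
    have h4 := tsupport_mul_subset_right h1
    refine ⟨?_, ?_, ?_⟩
    · have h5 : x.1.2 ∈ tsupport kapH := tsup_comp (L := fun x : ((P × E) × ℂ) × E => x.1.2)
        (by fun_prop) h2
      obtain ⟨h6, -⟩ := kapH_ts h5
      intro h0
      rw [h0, norm_zero] at h6
      norm_num at h6
    · exact hG.ts (tsup_comp (L := fun x : ((P × E) × ℂ) × E => (x.1.1.1, l.ι (x.2 + x.1.1.2)))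
        (by fun_prop) h3)
    · have h5 : x ∈ tsupport fun x : ((P × E) × ℂ) × E => G (x.1.1.1, l.ι (x.2 - x.1.1.2)) := by
        have e1 : Function.support (fun x : ((P × E) × ℂ) × E =>
            (starRingEnd ℂ) (G (x.1.1.1, l.ι (x.2 - x.1.1.2)))) =
            Function.support (fun x : ((P × E) × ℂ) × E => G (x.1.1.1, l.ι (x.2 - x.1.1.2))) := by
          ext y
          simp
        unfold tsupport at h4 ⊢
        rw [e1] at h4
        exact h4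
      exact hG.ts (tsup_comp (L := fun x : ((P × E) × ℂ) × E => (x.1.1.1, l.ι (x.2 - x.1.1.2)))
        (by fun_prop) h5)

/-- the inner integral -/
noncomputable def Jn (l : LocE r E) (G : P × ℂ → ℂ) (k : ℤ) (τ : ℝ) (h : ℂ) (p : P) (w : E) : ℂ :=
  ∫ z : E, (U1 k τ h (l.ι (z + w)) * G (p, l.ι (z + w))) *
    (starRingEnd ℂ) (U1 k τ h (l.ι (z - w)) * G (p, l.ι (z - w)))

lemma Jn_triv (l : LocE r E) {hp : P →L[ℝ] ℂ} {G : P × ℂ → ℂ} (hG : CIg (Oc hp) G) :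
    ∃ C : ℝ, 0 ≤ C ∧ ∀ (k : ℤ) (τ : ℝ) (h : ℂ) (p : P) (w : E), ‖Jn l G k τ h p w‖ ≤ C := by
  obtain ⟨R, hR0, hR⟩ := hG.bdd
  obtain ⟨M, hM0, hM⟩ := hG.sup
  refine ⟨M * M * (volume : Measure E).real (Metric.closedBall 0 R), by positivity,
    fun k τ h p w => ?_⟩
  unfold Jn
  have hs : ∀ z : E, z ∉ Metric.closedBall (0 : E) R → (U1 k τ h (l.ι (z + w)) * G (p, l.ι (z + w))) *
      (starRingEnd ℂ) (U1 k τ h (l.ι (z - w)) * G (p, l.ι (z - w))) = 0 := by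
    intro z hz
    by_contra h0
    apply hz
    have h1 : G (p, l.ι (z + w)) ≠ 0 := fun h => h0 (by rw [h]; ring)
    have h2 : G (p, l.ι (z - w)) ≠ 0 := fun h => h0 (by rw [h]; simp)
    have h4 := hR _ h1
    have h5 := hR _ h2
    rw [Prod.norm_def, max_le_iff] at h4 h5
    obtain ⟨-, h8⟩ := h4
    obtain ⟨-, h9⟩ := h5
    dsimp only at h8 h9
    rw [l.norm] at h8 h9
    rw [Metric.mem_closedBall, dist_zero_right]
    have e1 : z = (1 / 2 : ℝ) • ((z + w) + (z - w)) := by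
      rw [show (z + w) + (z - w) = (2 : ℝ) • z by rw [two_smul]; abel, smul_smul]
      norm_num
    rw [e1, norm_smul]
    have := norm_add_le (z + w) (z - w)
    rw [Real.norm_of_nonneg (by norm_num : (0:ℝ) ≤ 1 / 2)]
    linarith
  rw [← setIntegral_eq_integral_of_forall_compl_eq_zero hs]
  refine norm_setIntegral_le_of_norm_le_const ?_ fun z _ => ?_
  · exact (isCompact_closedBall (0 : E) R).measure_lt_top
  · rw [norm_mul, RCLike.norm_conj, norm_mul, norm_mul]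
    have h1 := U1_norm k τ h (l.ι (z + w))
    have h2 := U1_norm k τ h (l.ι (z - w))
    have h3 := hM (p, l.ι (z + w))
    have h4 := hM (p, l.ι (z - w))
    refine mul_le_mul ?_ ?_ (by positivity) hM0
    · calc _ ≤ 1 * M := mul_le_mul h1 h3 (norm_nonneg _) zero_le_one
        _ = M := one_mul _
    · calc _ ≤ 1 * M := mul_le_mul h2 h4 (norm_nonneg _) zero_le_one
        _ = M := one_mul _

lemma Jn_bd (l : LocE r E) {hp : P →L[ℝ] ℂ} {G : P × ℂ → ℂ} (hG : CIg (Oc hp) G) (N : ℕ) :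
    ∃ C : ℝ, 0 ≤ C ∧ ∀ (k : ℤ) (τ : ℝ) (p : P) (w : E), Rl r (hp p) →
      ‖Jn l G k τ (hp p) p w‖ * (‖Cc r k τ (hp p)‖ * ‖w‖) ^ N ≤ C := by
  obtain ⟨C, hC0, hC⟩ := NS (volume : Measure E) l.v ![1, -Complex.I] (Om2_open l hp)
    (R2_smooth l hp) (R2_ne l hp) N (G2_CI l hG)
  obtain ⟨C0, hC00, hC0'⟩ := Jn_triv l hG
  refine ⟨C + C0, by positivity, fun k τ p w hh => ?_⟩
  rcases (mul_nonneg (norm_nonneg (Cc r k τ (hp p))) (norm_nonneg w)).eq_or_lt with h0 | h0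
  · rw [← h0]
    have h1 : (0 : ℝ) ^ N ≤ 1 := pow_le_one₀ le_rfl zero_le_one
    have h2 := hC0' k τ (hp p) p w
    calc _ ≤ C0 * 1 := mul_le_mul h2 h1 (by positivity) hC00
      _ ≤ _ := by linarith
  · have hc : Cc r k τ (hp p) ≠ 0 := by
      intro h1; rw [h1, norm_zero, zero_mul] at h0; exact lt_irrefl _ h0
    have hw : w ≠ 0 := by
      intro h1; rw [h1, norm_zero, mul_zero] at h0; exact lt_irrefl _ h0
    have hc' : 0 < ‖Cc r k τ (hp p)‖ := norm_pos_iff.2 hc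
    have hw' : 0 < ‖w‖ := norm_pos_iff.2 hw
    obtain ⟨e', he⟩ : ∃ e' : ℂ, e' = (Cc r k τ (hp p) * l.ι w) / ((‖Cc r k τ (hp p)‖ * ‖w‖ : ℝ) : ℂ) :=
      ⟨_, rfl⟩
    have he1 : ‖e'‖ = 1 := by
      rw [he, norm_div, norm_mul, l.norm, Complex.norm_real, Real.norm_of_nonneg h0.le]
      exact div_self h0.ne'
    have he2 : ((‖Cc r k τ (hp p)‖ * ‖w‖ : ℝ) : ℂ) * e' = Cc r k τ (hp p) * l.ι w := by
      rw [he]
      refine mul_div_cancel₀ _ ?_
      exact_mod_cast h0.ne'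
    have h3 := hC ((p, w), e') _ (fun z => U1 k τ (hp p) (l.ι (z + w)) *
      (starRingEnd ℂ) (U1 k τ (hp p) (l.ι (z - w)))) h0 (fun z => ?_) (fun z hz => ?_)
    · have h4 : (∫ z, (U1 k τ (hp p) (l.ι (z + w)) *
          (starRingEnd ℂ) (U1 k τ (hp p) (l.ι (z - w)))) * G2 l G (((p, w), e'), z)) =
          Jn l G k τ (hp p) p w := by
        unfold Jn
        refine integral_congr_ae (Filter.Eventually.of_forall fun z => ?_)
        simp only [G2]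
        rw [kapH_unit he1, map_mul]
        ring
      rw [h4, mul_comm] at h3
      linarith
    · beta_reduce
      rw [norm_mul, RCLike.norm_conj]
      exact mul_le_one₀ (U1_norm _ _ _ _) (norm_nonneg _) (U1_norm _ _ _ _)
    · obtain ⟨-, ⟨h5, h6⟩, h7, h8⟩ := hz
      dsimp only at h5 h6 h7 h8
      obtain ⟨a1, a2, a3⟩ := sq_ne h5 h6
      obtain ⟨b1, b2, b3⟩ := sq_ne h7 h8
      have h9 : LD l (fun y => U1 k τ (hp p) (l.ι y))
          (Cc r k τ (hp p) / ((l.ι (z + w)) ^ 2 - (hp p) ^ 2)) (z + w) := LD.U1 l k τ hh a1 a2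
      have h10 : LD l (fun y => U1 k τ (hp p) (l.ι y))
          (Cc r k τ (hp p) / ((l.ι (z - w)) ^ 2 - (hp p) ^ 2)) (z + -w) := by
        rw [← sub_eq_add_neg]
        exact LD.U1 l k τ hh b1 b2
      have h11 := h9.shift.mul h10.shift.conj
      have e1 : Cc r k τ (hp p) / ((l.ι (z + w)) ^ 2 - (hp p) ^ 2) +
          -(Cc r k τ (hp p) / ((l.ι (z - w)) ^ 2 - (hp p) ^ 2)) =
          ((‖Cc r k τ (hp p)‖ * ‖w‖ : ℝ) : ℂ) * R2 l hp (((p, w), e'), z) := by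
        unfold R2
        dsimp only
        have e3 : -(4 * l.ι z * e') / (((l.ι (z + w)) ^ 2 - (hp p) ^ 2) *
            ((l.ι (z - w)) ^ 2 - (hp p) ^ 2)) = e' * (-(4 * l.ι z) / (((l.ι (z + w)) ^ 2 - (hp p) ^ 2) *
            ((l.ι (z - w)) ^ 2 - (hp p) ^ 2))) := by ring
        rw [e3, ← mul_assoc, he2]
        field_simp
        rw [map_add, map_sub]
        ring
      rw [e1] at h11
      have h12 : Rl r (((‖Cc r k τ (hp p)‖ * ‖w‖ : ℝ) : ℂ) * R2 l hp (((p, w), e'), z)) := by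
        rw [← e1]
        exact ((hh.Cc k τ).div (((l.rl _).pow 2).sub (hh.pow 2))).add
          ((hh.Cc k τ).div (((l.rl _).pow 2).sub (hh.pow 2))).neg
      obtain ⟨u', h13, h14⟩ := h11.comb h12
      have e2 : (fun y => U1 k τ (hp p) (l.ι (y + w)) *
          (starRingEnd ℂ) (U1 k τ (hp p) (l.ι (y + -w)))) =
          fun z => U1 k τ (hp p) (l.ι (z + w)) *
            (starRingEnd ℂ) (U1 k τ (hp p) (l.ι (z - w))) := by
        funext y
        rw [← sub_eq_add_neg]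
      rw [e2] at h13
      refine ⟨u', h13, ?_⟩
      rw [h14]
      simp only [← sub_eq_add_neg]
      ring

end Pool.Agent.T2H29.TA
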