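import Pool.Agent.T2H29.TA.L2

/-!
# The sup bound with parameters, the end
-/

set_option autoImplicit false
set_option linter.unusedSectionVars false

namespace Pool.Agent.T2H29.TA

open Finset Module MeasureTheory
open Pool.Agent.T2H29.SW
open scoped RealInnerProductSpace ContDiff

variable {r : Bool} {E : Type} [NormedAddCommGroup E] [InnerProductSpace ℝ E]
    [FiniteDimensional ℝ E] [MeasurableSpace E] [BorelSpace E]
variable {P : Type} [NormedAddCommGroup P] [NormedSpace ℝ P] [FiniteDimensional ℝ P]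

lemma U_cont (l : LocE r E) {hp : P →L[ℝ] ℂ} {G : P × ℂ → ℂ} (hG : CIg (Oc hp) G) (k : ℤ) (τ : ℝ)
    (p : P) (hh : Rl r (hp p)) :
    Continuous fun x : E => U1 k τ (hp p) (l.ι x) * G (p, l.ι x) := by
  rw [continuous_iff_continuousAt]
  intro x
  by_cases hx : (p, l.ι x) ∈ tsupport G
  · obtain ⟨h5, h6⟩ := hG.ts hx
    obtain ⟨a1, a2, -⟩ := sq_ne h5 h6
    obtain ⟨u', h1, -⟩ := LD.U1 l k τ hh a1 a2
    have h2 : Continuous fun x : E => G (p, l.ι x) := hG.sm.continuous.comp (by fun_prop)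
    exact h1.continuousAt.mul h2.continuousAt
  · have h2 := notMem_tsupport_iff_eventuallyEq.1 hx
    have h3 : Filter.Tendsto (fun x : E => (p, l.ι x)) (nhds x) (nhds (p, l.ι x)) :=
      (by fun_prop : Continuous fun x : E => (p, l.ι x)).tendsto x
    have h1 : (fun x : E => U1 k τ (hp p) (l.ι x) * G (p, l.ι x)) =ᶠ[nhds x] fun _ => 0 := by
      filter_upwards [h3.eventually h2] with y hy
      rw [hy]
      simp
    exact continuousAt_const.congr h1.symm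

lemma U_cs (l : LocE r E) {hp : P →L[ℝ] ℂ} {G : P × ℂ → ℂ} (hG : CIg (Oc hp) G) (k : ℤ) (τ : ℝ)
    (p : P) : HasCompactSupport fun x : E => U1 k τ (hp p) (l.ι x) * G (p, l.ι x) := by
  obtain ⟨R, hR0, hR⟩ := hG.bdd
  refine HasCompactSupport.intro (isCompact_closedBall (0 : E) R) ?_
  intro x hx
  by_contra h0
  apply hx
  have h1 : G (p, l.ι x) ≠ 0 := fun h => h0 (by rw [h]; ring)
  have h4 := hR _ h1
  rw [Prod.norm_def, max_le_iff] at h4
  obtain ⟨-, h8⟩ := h4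
  dsimp only at h8
  rw [l.norm] at h8
  rw [Metric.mem_closedBall, dist_zero_right]
  exact h8

lemma Jn_supp (l : LocE r E) {R : ℝ} {G : P × ℂ → ℂ} (hR : ∀ x, G x ≠ 0 → ‖x‖ ≤ R)
    (k : ℤ) (τ : ℝ) (h : ℂ) (p : P) (w : E) (hw : R < ‖w‖) : Jn l G k τ h p w = 0 := by
  unfold Jn
  rw [← integral_zero E ℂ]
  refine integral_congr_ae (Filter.Eventually.of_forall fun z => ?_)
  beta_reduce
  by_contra h0
  have h1 : G (p, l.ι (z + w)) ≠ 0 := fun h => h0 (by rw [h]; ring)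
  have h2 : G (p, l.ι (z - w)) ≠ 0 := fun h => h0 (by rw [h]; simp)
  have h4 := hR _ h1
  have h5 := hR _ h2
  rw [Prod.norm_def, max_le_iff] at h4 h5
  obtain ⟨-, h8⟩ := h4
  obtain ⟨-, h9⟩ := h5
  dsimp only at h8 h9
  rw [l.norm] at h8 h9
  have h11 : ‖w‖ ≤ R := by
    have e1 : w = (1 / 2 : ℝ) • ((z + w) - (z - w)) := by
      rw [show (z + w) - (z - w) = (2 : ℝ) • w by rw [two_smul]; abel, smul_smul]
      norm_num
    rw [e1, norm_smul]
    have := norm_sub_le (z + w) (z - w)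
    rw [Real.norm_of_nonneg (by norm_num : (0:ℝ) ≤ 1 / 2)]
    linarith
  linarith

/-- the sup bound for general weights -/
theorem supG (l : LocE r E) {hp : P →L[ℝ] ℂ} {G : P × ℂ → ℂ} (hG : CIg (Oc hp) G) :
    ∃ C : ℝ, 0 ≤ C ∧ ∀ (k : ℤ) (τ : ℝ) (p : P) (ζ : ℂ), Rl r (hp p) → Rl r ζ →
      ‖FL r (fun z => U1 k τ (hp p) z * G (p, z)) ζ‖ ≤
        C * (√((1 + ‖Cc r k τ (hp p)‖) ^ nr r))⁻¹ := by
  obtain ⟨C0, hC00, hC0⟩ := Jn_triv l hG
  obtain ⟨N, hN⟩ : ∃ N : ℕ, N = nr r + 1 := ⟨_, rfl⟩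
  obtain ⟨C1, hC10, hC1⟩ := Jn_bd l hG N
  obtain ⟨R, hR0, hR⟩ := hG.bdd
  have hint : Integrable (fun x : E => (1 + ‖x‖) ^ (-(N : ℝ))) :=
    integrable_one_add_norm (by rw [l.dim, hN]; push_cast; linarith)
  obtain ⟨I, hI⟩ : ∃ I : ℝ, I = ∫ x : E, (1 + ‖x‖) ^ (-(N : ℝ)) := ⟨_, rfl⟩
  have hI0 : 0 ≤ I := by rw [hI]; exact integral_nonneg fun x => by positivity
  obtain ⟨C2, hC2⟩ : ∃ C2 : ℝ, C2 = 2 ^ (N - 1) * ((1 + R) ^ N * C0 + C1) := ⟨_, rfl⟩
  have hC20 : 0 ≤ C2 := by rw [hC2]; positivity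
  refine ⟨√(2 ^ finrank ℝ E * (C2 * I)), by positivity, fun k τ p ζ hh hζ => ?_⟩
  obtain ⟨ξ, rfl⟩ := l.sur ζ hζ
  obtain ⟨lam, hlam⟩ : ∃ lam : ℝ, lam = ‖Cc r k τ (hp p)‖ := ⟨_, rfl⟩
  have hlam0 : 0 ≤ lam := by rw [hlam]; exact norm_nonneg _
  have h1 : ‖FL r (fun z => U1 k τ (hp p) z * G (p, z)) (l.ι ξ)‖ ^ 2 ≤
      2 ^ finrank ℝ E * (C2 * (((1 + lam) ^ nr r)⁻¹ * I)) := by
    rw [l.FL]
    refine (TTs (U_cont l hG k τ p hh) (U_cs l hG k τ p) _).trans ?_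
    refine mul_le_mul_of_nonneg_left ?_ (by positivity)
    have h2 : ∀ w : E, ‖Jn l G k τ (hp p) p w‖ ≤ C2 * (1 + ‖(1 + lam) • w‖) ^ (-(N : ℝ)) := by
      intro w
      rw [norm_smul, Real.norm_of_nonneg (by positivity : 0 ≤ 1 + lam)]
      have h3 : 0 < 1 + (1 + lam) * ‖w‖ := by positivity
      rw [Real.rpow_neg h3.le, Real.rpow_natCast, ← div_eq_mul_inv, le_div_iff₀ (by positivity)]
      by_cases hw : ‖w‖ ≤ R
      · have h4 : 1 + (1 + lam) * ‖w‖ ≤ (1 + R) + lam * ‖w‖ := by nlinarith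
        have h5 := hC1 k τ p w hh
        have h6 := hC0 k τ (hp p) p w
        rw [← hlam] at h5
        have hJ := norm_nonneg (Jn l G k τ (hp p) p w)
        calc _ ≤ ‖Jn l G k τ (hp p) p w‖ * ((1 + R) + lam * ‖w‖) ^ N := by
              refine mul_le_mul_of_nonneg_left (pow_le_pow_left₀ h3.le h4 N) hJ
          _ ≤ ‖Jn l G k τ (hp p) p w‖ * (2 ^ (N - 1) * ((1 + R) ^ N + (lam * ‖w‖) ^ N)) := by
              refine mul_le_mul_of_nonneg_left (add_pow_le (by positivity) (by positivity) N) hJ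
          _ = 2 ^ (N - 1) * ((1 + R) ^ N * ‖Jn l G k τ (hp p) p w‖ +
              ‖Jn l G k τ (hp p) p w‖ * (lam * ‖w‖) ^ N) := by ring
          _ ≤ 2 ^ (N - 1) * ((1 + R) ^ N * C0 + C1) := by gcongr
          _ = C2 := hC2.symm
      · rw [Jn_supp l hR k τ (hp p) p w (not_le.1 hw), norm_zero, zero_mul]
        exact hC20
    have h3 : (∫ w : E, ‖Jn l G k τ (hp p) p w‖) ≤
        ∫ w : E, C2 * (1 + ‖(1 + lam) • w‖) ^ (-(N : ℝ)) := by
      refine integral_mono_of_nonneg (Filter.Eventually.of_forall fun w => norm_nonneg _) ?_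
        (Filter.Eventually.of_forall h2)
      exact (hint.comp_smul (by positivity : (1 + lam) ≠ 0)).const_mul C2
    have h4 := Measure.integral_comp_smul (volume : Measure E)
      (fun x : E => (1 + ‖x‖) ^ (-(N : ℝ))) (1 + lam)
    rw [integral_const_mul, h4, ← hI, l.dim, abs_of_nonneg (by positivity), smul_eq_mul] at h3
    exact h3
  have h2 : ‖FL r (fun z => U1 k τ (hp p) z * G (p, z)) (l.ι ξ)‖ ≤
      √(2 ^ finrank ℝ E * (C2 * (((1 + lam) ^ nr r)⁻¹ * I))) := Real.le_sqrt_of_sq_le h1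
  refine h2.trans (le_of_eq ?_)
  rw [← hlam, ← Real.sqrt_inv, ← Real.sqrt_mul (by positivity)]
  congr 1
  ring

end Pool.Agent.T2H29.TA
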