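import Pool.Agent.T2H29.TA.L3

/-!
# Cut-offs, integration by parts
-/

set_option autoImplicit false
set_option linter.unusedSectionVars false

namespace Pool.Agent.T2H29.TA

open Finset Module MeasureTheory
open Pool.Agent.T2H29.SW
open scoped RealInnerProductSpace ContDiff Manifold FourierTransform

section
variable {X : Type} [NormedAddCommGroup X] [NormedSpace ℝ X] [FiniteDimensional ℝ X]

/-- cut-off functions -/
lemma cutoff {K U : Set X} (hK : IsCompact K) (hU : IsOpen U) (hKU : K ⊆ U) :
    ∃ χ : X → ℝ, ContDiff ℝ ∞ χ ∧ HasCompactSupport χ ∧ tsupport χ ⊆ U ∧ (∀ q ∈ K, χ q = 1) ∧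
      (∀ q, 0 ≤ χ q) ∧ ∀ q, χ q ≤ 1 := by
  obtain ⟨L, hL, hKL, hLU⟩ := exists_compact_between hK hU hKU
  have hd : Disjoint (interior L)ᶜ K := by
    rw [Set.disjoint_left]
    exact fun x hx hx2 => hx (hKL hx2)
  obtain ⟨f, h1, h2, h3⟩ := exists_contMDiffMap_zero_one_of_isClosed (n := ⊤) (𝓘(ℝ, X))
    (isOpen_interior.isClosed_compl) hK.isClosed hd
  have h4 : tsupport f ⊆ L := by
    refine closure_minimal (fun x hx => ?_) hL.isClosed
    by_contra h5
    exact hx (h1 fun h6 => h5 (interior_subset h6))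
  refine ⟨f, ?_, ?_, h4.trans hLU, fun q hq => h2 hq, fun q => (h3 q).1, fun q => (h3 q).2⟩
  · exact f.contMDiff.contDiff
  · exact hL.of_isClosed_subset (isClosed_tsupport f) h4

lemma CIg.fd {Ω : Set X} {G : X → ℂ} (hG : CIg Ω G) (w : X) :
    CIg Ω (fun x => fderiv ℝ G x w) := by
  refine ⟨?_, ?_, ?_⟩
  · exact (hG.sm.fderiv_right (m := ∞) (by simp)).clm_apply contDiff_const
  · exact hG.cs.fderiv_apply (𝕜 := ℝ) w
  · exact (tsupport_fderiv_apply_subset ℝ w).trans hG.ts

lemma CIg.add' {Ω : Set X} {G H : X → ℂ} (hG : CIg Ω G) (hH : CIg Ω H) :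
    CIg Ω (fun x => G x + H x) := by
  refine ⟨hG.sm.add hH.sm, hG.cs.add hH.cs, ?_⟩
  exact (tsupport_add _ _).trans (Set.union_subset hG.ts hH.ts)

lemma CIg.neg' {Ω : Set X} {G : X → ℂ} (hG : CIg Ω G) : CIg Ω (fun x => -G x) := by
  refine ⟨hG.sm.neg, hG.cs.comp_left (g := fun z : ℂ => -z) neg_zero, ?_⟩
  have : tsupport (fun x => -G x) = tsupport G := by
    unfold tsupport
    congr 1
    ext x
    simp
  rw [this]
  exact hG.ts

end

theorem exists_chi : ∃ χ : ℂ → ℝ, Chi χ := by
  have hK : IsCompact K0 := by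
    refine Metric.isCompact_of_isClosed_isBounded ?_ ?_
    · have h1 : Continuous fun q : ℂ => ‖q‖ := continuous_norm
      have h2 : Continuous fun q : ℂ => q.re := Complex.continuous_re
      exact (isClosed_le continuous_const h1).inter ((isClosed_le h1 continuous_const).inter
        (isClosed_le (continuous_const.mul h1) h2))
    · refine (Metric.isBounded_closedBall (x := (0 : ℂ)) (r := 5 / 2)).subset fun q hq => ?_
      rw [Metric.mem_closedBall, dist_zero_right]
      exact hq.2.1
  have hU : IsOpen Q0 := by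
    have h1 : Continuous fun q : ℂ => ‖q‖ := continuous_norm
    have h2 : Continuous fun q : ℂ => q.re := Complex.continuous_re
    exact (isOpen_lt continuous_const h1).inter ((isOpen_lt h1 continuous_const).inter
      (isOpen_lt (continuous_const.mul h1) h2))
  have hKU : K0 ⊆ Q0 := by
    rintro q ⟨h1, h2, h3⟩
    refine ⟨by linarith, by linarith, by linarith⟩
  obtain ⟨χ, h1, h2, h3, h4, h5, h6⟩ := cutoff hK hU hKU
  exact ⟨χ, ⟨h1, h2, h3, h4, h5, h6⟩⟩

variable {r : Bool} {E : Type} [NormedAddCommGroup E] [InnerProductSpace ℝ E]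
    [FiniteDimensional ℝ E] [MeasurableSpace E] [BorelSpace E]
variable {P : Type} [NormedAddCommGroup P] [NormedSpace ℝ P] [FiniteDimensional ℝ P]

/-- the integral of a derivative -/
lemma int_fd {ψ : E → ℂ} {ψ' : E → (E →L[ℝ] ℂ)} (h1 : ∀ x, HasFDerivAt ψ (ψ' x) x) (v : E)
    (h2 : Integrable ψ) (h3 : Integrable fun x => ψ' x v) : ∫ x, ψ' x v = 0 := by
  have e1 : ∀ x, ψ' x = fderiv ℝ ψ x := fun x => (h1 x).fderiv.symm
  have h4 := integral_mul_fderiv_eq_neg_fderiv_mul_of_integrable (μ := (volume : Measure E))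
    (𝕜 := ℂ) (f := fun _ => (1:ℂ)) (g := ψ) (v := v) (by simp) (by simpa [← e1] using h3)
    (by simpa using h2) (fun x _ => differentiableAt_const _) (fun x _ => (h1 x).differentiableAt)
  simp only [fderiv_fun_const, Pi.zero_apply, ContinuousLinearMap.zero_apply, zero_mul, integral_zero, neg_zero,
    one_mul] at h4
  rw [← h4]
  refine integral_congr_ae (Filter.Eventually.of_forall fun x => ?_)
  simp only [e1]

/-- the derivative of the Fourier transform in a direction -/
lemma FT_der {f : E → ℂ} (h1 : Continuous f) (h2 : HasCompactSupport f) (ξ : E) :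
    ∃ D : E →L[ℝ] ℂ, HasFDerivAt (FT f) D ξ ∧ ∀ η, D η =
      ∫ x, -(2 * Real.pi * Complex.I) * (⟪x, η⟫ : ℝ) * (f x * e (-⟪x, ξ⟫)) := by
  have hi : Integrable f := h1.integrable_of_hasCompactSupport h2
  have hi2 : Integrable (fun v => ‖v‖ * ‖f v‖) :=
    (continuous_norm.mul h1.norm).integrable_of_hasCompactSupport h2.norm.mul_left
  refine ⟨_, FT_eq f ▸ Real.hasFDerivAt_fourier hi hi2 ξ, fun η => ?_⟩
  have h3 : Integrable fun v => (VectorFourier.fourierSMulRight (innerSL ℝ) f v) := by
    refine Continuous.integrable_of_hasCompactSupport ?_ ?_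
    · have : (fun v => (VectorFourier.fourierSMulRight (innerSL ℝ) f v)) =
        fun v => -(2 * Real.pi * Complex.I) • ((innerSL ℝ) v).smulRight (f v) := rfl
      rw [this]
      fun_prop
    · refine h2.mono ?_
      intro v hv
      by_contra h0
      apply hv
      have h4 : f v = 0 := by simpa using h0
      ext w
      rw [VectorFourier.fourierSMulRight_apply, h4]
      simp
  rw [Real.fourier_eq']
  rw [ContinuousLinearMap.integral_apply]
  · refine integral_congr_ae (Filter.Eventually.of_forall fun x => ?_)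
    beta_reduce
    rw [ContinuousLinearMap.smul_apply, VectorFourier.fourierSMulRight_apply]
    have e9 : ((innerSL ℝ) x) η = ⟪x, η⟫ := rfl
    rw [e9]
    simp only [smul_eq_mul, Complex.real_smul]
    unfold e
    push_cast
    ring_nf
  · refine (integrable_norm_iff ?_).1 ?_
    · have h5 : Continuous fun v : E => Complex.exp (((-2 * Real.pi * ⟪v, ξ⟫ : ℝ) : ℂ) * Complex.I) := by
        fun_prop
      exact h5.aestronglyMeasurable.smul h3.aestronglyMeasurable
    · refine h3.norm.congr (Filter.Eventually.of_forall fun x => ?_)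
      beta_reduce
      rw [norm_smul, Complex.norm_exp]
      simp

end Pool.Agent.T2H29.TA
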