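import Pool.Agent.T2H29.TA.L4

/-!
# The sup bound and the bound away from the stationary points
-/

set_option autoImplicit false
set_option linter.unusedSectionVars false

namespace Pool.Agent.T2H29.TA

open Finset Module MeasureTheory
open Pool.Agent.T2H29.SW
open scoped RealInnerProductSpace ContDiff

variable {r : Bool} {E : Type} [NormedAddCommGroup E] [InnerProductSpace ℝ E]
    [FiniteDimensional ℝ E] [MeasurableSpace E] [BorelSpace E]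
variable {P : Type} [NormedAddCommGroup P] [NormedSpace ℝ P] [FiniteDimensional ℝ P]

lemma S0_re {z h : ℂ} (h1 : z + h ∈ S0) (h2 : z - h ∈ S0) : 9 / 20 < z.re ∧ ‖z‖ ≤ 3 / 2 ∧
    ‖h‖ ≤ 3 / 2 := by
  obtain ⟨a1, a2, a3⟩ := h1
  obtain ⟨b1, b2, b3⟩ := h2
  rw [Complex.add_re] at a3
  rw [Complex.sub_re] at b3
  refine ⟨by linarith, ?_, ?_⟩
  · have e1 : z = (1 / 2 : ℂ) * ((z + h) + (z - h)) := by ring
    rw [e1, norm_mul]
    have := norm_add_le (z + h) (z - h)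
    rw [show ‖(1 / 2 : ℂ)‖ = 1 / 2 by simp]
    linarith
  · have e1 : h = (1 / 2 : ℂ) * ((z + h) - (z - h)) := by ring
    rw [e1, norm_mul]
    have := norm_sub_le (z + h) (z - h)
    rw [show ‖(1 / 2 : ℂ)‖ = 1 / 2 by simp]
    linarith

/-- the open cone -/
def K1 : Set ℂ := {q | 1 / 5 < ‖q‖ ∧ ‖q‖ < 5 / 2 ∧ 3 / 5 * ‖q‖ < q.re}

lemma K1_open : IsOpen K1 := by
  have h1 : Continuous fun q : ℂ => ‖q‖ := continuous_norm
  have h2 : Continuous fun q : ℂ => q.re := Complex.continuous_re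
  exact (isOpen_lt continuous_const h1).inter ((isOpen_lt h1 continuous_const).inter
    (isOpen_lt (continuous_const.mul h1) h2))

lemma K1_K0 : K1 ⊆ K0 := fun _ h => ⟨h.1.le, h.2.1.le, h.2.2.le⟩

lemma S0_mul {z w : ℂ} (h1 : z ∈ S0) (h2 : w ∈ S0) : z * w ∈ K1 := by
  obtain ⟨a1, a2, a3⟩ := h1
  obtain ⟨b1, b2, b3⟩ := h2
  refine ⟨?_, ?_, ?_⟩
  · rw [norm_mul]
    nlinarith
  · rw [norm_mul]
    nlinarith
  · rw [norm_mul, Complex.mul_re]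
    have h3 : ‖z‖ ^ 2 = z.re ^ 2 + z.im ^ 2 := by
      rw [← Complex.normSq_eq_norm_sq, Complex.normSq_apply]; ring
    have h4 : ‖w‖ ^ 2 = w.re ^ 2 + w.im ^ 2 := by
      rw [← Complex.normSq_eq_norm_sq, Complex.normSq_apply]; ring
    have h5 : z.im ^ 2 ≤ 19 / 100 * ‖z‖ ^ 2 := by nlinarith
    have h6 : w.im ^ 2 ≤ 19 / 100 * ‖w‖ ^ 2 := by nlinarith
    have h7 : |z.im * w.im| ≤ 19 / 100 * (‖z‖ * ‖w‖) := by
      refine abs_le_of_sq_le_sq ?_ (by positivity)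
      calc (z.im * w.im) ^ 2 = z.im ^ 2 * w.im ^ 2 := by ring
        _ ≤ (19 / 100 * ‖z‖ ^ 2) * (19 / 100 * ‖w‖ ^ 2) :=
            mul_le_mul h5 h6 (by positivity) (by positivity)
        _ = _ := by ring
    have h8 : 81 / 100 * (‖z‖ * ‖w‖) < z.re * w.re := by
      have : (9 / 10 * ‖z‖) * (9 / 10 * ‖w‖) < z.re * w.re :=
        mul_lt_mul'' a3 b3 (by positivity) (by positivity)
      linarith
    have h9 := le_abs_self (z.im * w.im)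
    have h10 : 0 < ‖z‖ * ‖w‖ := by nlinarith
    nlinarith

lemma B1_ts {β : ℂ → ℂ} (hβ : CIg S0 β) {hp : P →L[ℝ] ℂ} {x : P × ℂ}
    (hx : x ∈ tsupport fun x : P × ℂ => B1 β (hp x.1) x.2) :
    x.2 + hp x.1 ∈ S0 ∧ x.2 - hp x.1 ∈ S0 := by
  unfold B1 at hx
  have h1 := tsupport_mul_subset_left hx
  have h2 := tsupport_mul_subset_right hx
  refine ⟨hβ.ts (tsup_comp (L := fun x : P × ℂ => x.2 + hp x.1) (by fun_prop) h1), ?_⟩
  have h5 : x ∈ tsupport fun x : P × ℂ => β (x.2 - hp x.1) := by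
    have e1 : Function.support (fun x : P × ℂ => (starRingEnd ℂ) (β (x.2 - hp x.1))) =
        Function.support (fun x : P × ℂ => β (x.2 - hp x.1)) := by
      ext y
      simp
    unfold tsupport at h2 ⊢
    rw [e1] at h2
    exact h2
  exact hβ.ts (tsup_comp (L := fun x : P × ℂ => x.2 - hp x.1) (by fun_prop) h5)

lemma B1_sm {β : ℂ → ℂ} (hβ : CIg S0 β) (hp : P →L[ℝ] ℂ) :
    ContDiff ℝ ∞ fun x : P × ℂ => B1 β (hp x.1) x.2 := by
  unfold B1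
  have a1 : ContDiff ℝ ∞ fun x : P × ℂ => x.2 + hp x.1 := by fun_prop
  have a2 : ContDiff ℝ ∞ fun x : P × ℂ => x.2 - hp x.1 := by fun_prop
  exact (hβ.sm.comp a1).mul
    ((ContinuousLinearMap.contDiff (Complex.conjCLE : ℂ →L[ℝ] ℂ)).comp (hβ.sm.comp a2))

lemma B1_ne {β : ℂ → ℂ} (hβ : CIg S0 β) {h z : ℂ} (hx : B1 β h z ≠ 0) :
    z + h ∈ S0 ∧ z - h ∈ S0 := by
  unfold B1 at hx
  have h1 : β (z + h) ≠ 0 := fun h0 => hx (by rw [h0]; ring)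
  have h2 : β (z - h) ≠ 0 := fun h0 => hx (by rw [h0]; simp)
  exact ⟨hβ.ts (subset_tsupport _ h1), hβ.ts (subset_tsupport _ h2)⟩

/-- the weights with parameters -/
lemma B1_CI {β : ℂ → ℂ} (hβ : CIg S0 β) {hp : P →L[ℝ] ℂ} {c : P → ℂ}
    (hc : CIg {p | ‖hp p‖ < 1 / 8} c) :
    CIg (Oc hp) (fun x => B1 β (hp x.1) x.2 * c x.1) := by
  obtain ⟨R, hR0, hR⟩ := hc.bdd
  have a3 : ContDiff ℝ ∞ fun x : P × ℂ => x.1 := contDiff_fst
  refine ⟨(B1_sm hβ hp).mul (hc.sm.comp a3), ?_, ?_⟩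
  · refine HasCompactSupport.intro (isCompact_closedBall (0 : P × ℂ) (R + 2)) ?_
    intro x hx
    by_contra h0
    apply hx
    have h1 : B1 β (hp x.1) x.2 ≠ 0 := fun h => h0 (by rw [h]; ring)
    have h2 : c x.1 ≠ 0 := fun h => h0 (by rw [h]; ring)
    obtain ⟨h3, h4⟩ := B1_ne hβ h1
    obtain ⟨-, h5, -⟩ := S0_re h3 h4
    have h6 := hR _ h2
    rw [Metric.mem_closedBall, dist_zero_right, Prod.norm_def]
    refine max_le ?_ ?_ <;> linarith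
  · intro x hx
    have h1 := tsupport_mul_subset_left hx
    have h2 := tsupport_mul_subset_right hx
    obtain ⟨h3, h4⟩ := B1_ts hβ h1
    obtain ⟨h5, -, -⟩ := S0_re h3 h4
    have h6 : x.1 ∈ tsupport c := tsup_comp (L := fun x : P × ℂ => x.1) (by fun_prop) h2
    exact ⟨by linarith, hc.ts h6⟩

/-- the cut-off of `h` -/
lemma exists_ch : ∃ c : ℂ → ℂ, CIg {p : ℂ | ‖p‖ < 1 / 8} c ∧ ∀ h, ‖h‖ ≤ 1 / 16 → c h = 1 := by
  obtain ⟨χ, h1, h2, h3, h4, h5, h6⟩ := cutoff (X := ℂ) (isCompact_closedBall (0:ℂ) (1 / 16))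
    (U := {p : ℂ | ‖p‖ < 1 / 8}) (isOpen_lt continuous_norm continuous_const) (fun x hx => by
      rw [Metric.mem_closedBall, dist_zero_right] at hx
      exact lt_of_le_of_lt hx (by norm_num))
  refine ⟨fun h => (χ h : ℂ), ⟨?_, ?_, ?_⟩, fun h hh => ?_⟩
  · exact Complex.ofRealCLM.contDiff.comp h1
  · exact h2.comp_left (g := fun x : ℝ => (x : ℂ)) Complex.ofReal_zero
  · refine (closure_mono ?_).trans h3
    intro x hx h0
    apply hx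
    beta_reduce
    rw [h0, Complex.ofReal_zero]
  · beta_reduce
    rw [h4 h (by rw [Metric.mem_closedBall, dist_zero_right]; exact hh), Complex.ofReal_one]

/-- the sup bound -/
theorem sup_loc (l : LocE r E) {β : ℂ → ℂ} (hβ : CIg S0 β) : ∃ C : ℝ, 0 ≤ C ∧
    ∀ (k : ℤ) (τ : ℝ) (h ζ : ℂ), Rl r h → Rl r ζ → ‖h‖ ≤ 1 / 16 →
    ‖I1 r k τ β h ζ‖ ≤ C * (√((1 + ‖Cc r k τ h‖) ^ nr r))⁻¹ := by
  obtain ⟨c, hc, hc1⟩ := exists_ch
  obtain ⟨C, hC0, hC⟩ := supG l (hp := ContinuousLinearMap.id ℝ ℂ) (B1_CI hβ hc)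
  refine ⟨C, hC0, fun k τ h ζ hh hζ hn => ?_⟩
  have h1 := hC k τ h ζ hh hζ
  unfold I1
  have e1 : (fun z => U1 k τ h z * B1 β h z) = fun z => U1 k τ ((ContinuousLinearMap.id ℝ ℂ) h) z *
      (B1 β ((ContinuousLinearMap.id ℝ ℂ) h) z * c h) := by
    funext z
    rw [hc1 h hn, mul_one]
    rfl
  rw [e1]
  exact h1

/-- the sup bound -/
theorem loc_sup (r : Bool) {β : ℂ → ℂ} (hβ : CIg S0 β) : ∃ C h0 : ℝ, 0 < C ∧ 0 < h0 ∧
    ∀ (k : ℤ) (τ : ℝ) (h ζ : ℂ), Rl r h → Rl r ζ → ‖h‖ ≤ h0 →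
    ‖I1 r k τ β h ζ‖ ≤ C * (√((1 + ‖Cc r k τ h‖) ^ nr r))⁻¹ := by
  have key : ∃ C : ℝ, 0 ≤ C ∧
      ∀ (k : ℤ) (τ : ℝ) (h ζ : ℂ), Rl r h → Rl r ζ → ‖h‖ ≤ 1 / 16 →
      ‖I1 r k τ β h ζ‖ ≤ C * (√((1 + ‖Cc r k τ h‖) ^ nr r))⁻¹ := by
    cases r with
    | true => exact sup_loc locR hβ
    | false => exact sup_loc locC hβ
  obtain ⟨C, hC0, hC⟩ := key
  refine ⟨C + 1, 1 / 16, by positivity, by norm_num, fun k τ h ζ hh hζ hn => ?_⟩
  refine (hC k τ h ζ hh hζ hn).trans ?_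
  refine mul_le_mul_of_nonneg_right (by linarith) (by positivity)

end Pool.Agent.T2H29.TA
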