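import Pool.Agent.T2H29.TA.L5

/-!
# The bound away from the stationary points
-/

set_option autoImplicit false
set_option linter.unusedSectionVars false

namespace Pool.Agent.T2H29.TA

open Finset Module MeasureTheory
open Pool.Agent.T2H29.SW
open scoped RealInnerProductSpace ContDiff

variable {r : Bool} {E : Type} [NormedAddCommGroup E] [InnerProductSpace ℝ E]
    [FiniteDimensional ℝ E] [MeasurableSpace E] [BorelSpace E]
variable {P : Type} [NormedAddCommGroup P] [NormedSpace ℝ P] [FiniteDimensional ℝ P]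

lemma Chi.zero {χ : ℂ → ℝ} (hχ : Chi χ) {q : ℂ} (hq : q ∉ Q0) : χ q = 0 := by
  by_contra h
  exact hq (hχ.ts (subset_tsupport _ h))

/-- the function of the ratio -/
noncomputable def gg (χ : ℂ → ℝ) (c2 : ℂ × ℂ → ℂ) (q : ℂ × ℂ) : ℂ :=
  (1 - (χ (q.1 / q.2) : ℂ)) * c2 q

lemma gg_smooth {χ : ℂ → ℝ} (hχ : Chi χ) {c2 : ℂ × ℂ → ℂ} (hc2 : CIg {q | q ≠ 0} c2) :
    ContDiff ℝ ∞ (gg χ c2) := by
  rw [contDiff_iff_contDiffAt]
  intro q0
  by_cases hb : q0.2 = 0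
  · by_cases ha : q0.1 = 0
    · have h0 : q0 ∉ tsupport c2 := by
        intro h1
        exact hc2.ts h1 (Prod.ext ha hb)
      have h2 := notMem_tsupport_iff_eventuallyEq.1 h0
      have h1 : gg χ c2 =ᶠ[nhds q0] fun _ => 0 := by
        filter_upwards [h2] with y hy
        unfold gg
        rw [hy]
        simp
      exact contDiffAt_const.congr_of_eventuallyEq h1
    · have ha' : 0 < ‖q0.1‖ := norm_pos_iff.2 ha
      have h1 : ∀ᶠ q : ℂ × ℂ in nhds q0, ‖q0.1‖ / 2 < ‖q.1‖ := by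
        have hc : ContinuousAt (fun q : ℂ × ℂ => ‖q.1‖) q0 := by fun_prop
        exact hc.eventually (lt_mem_nhds (by beta_reduce; linarith))
      have h2 : ∀ᶠ q : ℂ × ℂ in nhds q0, ‖q.2‖ < ‖q0.1‖ / 20 := by
        have hc : ContinuousAt (fun q : ℂ × ℂ => ‖q.2‖) q0 := by fun_prop
        refine hc.eventually (gt_mem_nhds ?_)
        beta_reduce
        rw [hb, norm_zero]
        positivity
      have h3 : gg χ c2 =ᶠ[nhds q0] c2 := by
        filter_upwards [h1, h2] with q hq1 hq2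
        have h4 : χ (q.1 / q.2) = 0 := by
          refine hχ.zero fun h5 => ?_
          by_cases h6 : q.2 = 0
          · rw [h6, div_zero] at h5
            have := h5.1
            rw [norm_zero] at this
            linarith
          · have h7 := h5.2.1
            rw [norm_div, div_lt_iff₀ (norm_pos_iff.2 h6)] at h7
            linarith
        unfold gg
        rw [h4]
        simp
      exact hc2.sm.contDiffAt.congr_of_eventuallyEq h3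
  · have h1 : ContDiffAt ℝ ∞ (fun q : ℂ × ℂ => q.1 / q.2) q0 := by
      simp only [div_eq_mul_inv]
      exact contDiffAt_fst.mul (contDiffAt_snd.inv hb)
    have h2 : ContDiffAt ℝ ∞ (fun q : ℂ × ℂ => ((χ (q.1 / q.2) : ℝ) : ℂ)) q0 :=
      Complex.ofRealCLM.contDiff.contDiffAt.comp q0 (hχ.sm.contDiffAt.comp q0 h1)
    exact (contDiffAt_const.sub h2).mul hc2.sm.contDiffAt

lemma gg_ts {χ : ℂ → ℝ} (hχ : Chi χ) {c2 : ℂ × ℂ → ℂ} (hc2 : CIg {q | q ≠ 0} c2) {q0 : ℂ × ℂ}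
    (hq : q0 ∈ tsupport (gg χ c2)) {z : ℂ} (hz : z ∈ K1) : q0.1 ≠ q0.2 * z := by
  intro h0
  have h1 : q0 ∈ tsupport c2 := tsupport_mul_subset_right hq
  have h2 : q0 ≠ 0 := hc2.ts h1
  have hb : q0.2 ≠ 0 := by
    intro hb
    apply h2
    refine Prod.ext ?_ hb
    rw [h0, hb, zero_mul]
    rfl
  have h3 : q0.1 / q0.2 = z := by
    rw [h0]
    field_simp
  have h4 : ContinuousAt (fun q : ℂ × ℂ => q.1 / q.2) q0 := by
    exact continuousAt_fst.div continuousAt_snd hb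
  have h5 : ∀ᶠ q : ℂ × ℂ in nhds q0, q.1 / q.2 ∈ K1 :=
    h4.eventually (K1_open.mem_nhds (by beta_reduce; rw [h3]; exact hz))
  have h6 : gg χ c2 =ᶠ[nhds q0] 0 := by
    filter_upwards [h5] with q hq
    unfold gg
    rw [hχ.one _ (K1_K0 hq)]
    simp
  exact notMem_tsupport_iff_eventuallyEq.2 h6 hq

/-- the domain -/
def Om3 (l : LocE r E) : Set (((ℂ × ℂ) × ℂ) × E) :=
  {x | 1 / 4 < (l.ι x.2).re ∧ ‖x.1.1.1‖ < 1 / 8 ∧
    x.1.1.2 - x.1.2 * ((l.ι x.2) ^ 2 - x.1.1.1 ^ 2) ≠ 0}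

/-- the gradient -/
noncomputable def R3 (l : LocE r E) (x : ((ℂ × ℂ) × ℂ) × E) : ℂ :=
  x.1.1.2 / ((l.ι x.2) ^ 2 - x.1.1.1 ^ 2) - x.1.2

/-- the weight -/
noncomputable def G3 (l : LocE r E) (β : ℂ → ℂ) (χ : ℂ → ℝ) (c : ℂ → ℂ) (c2 : ℂ × ℂ → ℂ)
    (x : ((ℂ × ℂ) × ℂ) × E) : ℂ :=
  (B1 β x.1.1.1 (l.ι x.2) * c x.1.1.1) * gg χ c2 (x.1.1.2, x.1.2)

lemma Om3_open (l : LocE r E) : IsOpen (Om3 l) := by
  have h1 : Continuous fun x : ((ℂ × ℂ) × ℂ) × E => (l.ι x.2).re :=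
    Complex.continuous_re.comp (by fun_prop)
  have h2 : Continuous fun x : ((ℂ × ℂ) × ℂ) × E => ‖x.1.1.1‖ := by fun_prop
  have h3 : Continuous fun x : ((ℂ × ℂ) × ℂ) × E =>
    x.1.1.2 - x.1.2 * ((l.ι x.2) ^ 2 - x.1.1.1 ^ 2) := by fun_prop
  exact (isOpen_lt continuous_const h1).inter ((isOpen_lt h2 continuous_const).inter
    (isOpen_ne_fun h3 continuous_const))

lemma R3_smooth (l : LocE r E) : ContDiffOn ℝ ∞ (R3 l) (Om3 l) := by
  have a1 : ContDiff ℝ ∞ fun x : ((ℂ × ℂ) × ℂ) × E => x.1.1.2 := by fun_prop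
  have a2 : ContDiff ℝ ∞ fun x : ((ℂ × ℂ) × ℂ) × E => ((l.ι x.2) ^ 2 - x.1.1.1 ^ 2) := by fun_prop
  have a3 : ContDiff ℝ ∞ fun x : ((ℂ × ℂ) × ℂ) × E => x.1.2 := by fun_prop
  unfold R3
  simp only [div_eq_mul_inv]
  refine (a1.contDiffOn.mul (a2.contDiffOn.inv fun x hx => ?_)).sub a3.contDiffOn
  obtain ⟨h1, h2, h3⟩ := hx
  exact (sq_ne h1 h2).2.2

lemma R3_ne (l : LocE r E) : ∀ x ∈ Om3 l, R3 l x ≠ 0 := by
  rintro x ⟨h1, h2, h3⟩ h0
  apply h3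
  unfold R3 at h0
  have h4 := (sq_ne h1 h2).2.2
  rw [sub_eq_zero, div_eq_iff h4] at h0
  rw [h0]
  ring

lemma G3_CI (l : LocE r E) {β : ℂ → ℂ} (hβ : CIg S0 β) {χ : ℂ → ℝ} (hχ : Chi χ) {c : ℂ → ℂ}
    (hc : CIg {p : ℂ | ‖p‖ < 1 / 8} c) {c2 : ℂ × ℂ → ℂ} (hc2 : CIg {q | q ≠ 0} c2) :
    CIg (Om3 l) (G3 l β χ c c2) := by
  have hB := B1_CI hβ (hp := ContinuousLinearMap.id ℝ ℂ) hc
  have a1 : ContDiff ℝ ∞ fun x : ((ℂ × ℂ) × ℂ) × E => (x.1.1.1, l.ι x.2) := by fun_prop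
  have a2 : ContDiff ℝ ∞ fun x : ((ℂ × ℂ) × ℂ) × E => (x.1.1.2, x.1.2) := by fun_prop
  refine ⟨(hB.sm.comp a1).mul ((gg_smooth hχ hc2).comp a2), ?_, ?_⟩
  · obtain ⟨R, hR0, hR⟩ := hB.bdd
    obtain ⟨R2, hR20, hR2⟩ := hc2.bdd
    refine HasCompactSupport.intro (isCompact_closedBall (0 : ((ℂ × ℂ) × ℂ) × E) (R + R2)) ?_
    intro x hx
    by_contra h0
    apply hx
    unfold G3 at h0
    have h1 : B1 β x.1.1.1 (l.ι x.2) * c x.1.1.1 ≠ 0 := fun h => h0 (by rw [h]; ring)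
    have h2 : c2 (x.1.1.2, x.1.2) ≠ 0 := fun h => h0 (by unfold gg; rw [h]; ring)
    have h4 := hR (x.1.1.1, l.ι x.2) h1
    have h5 := hR2 _ h2
    rw [Prod.norm_def, max_le_iff] at h4 h5
    obtain ⟨h6, h7⟩ := h4
    obtain ⟨h8, h9⟩ := h5
    dsimp only at h6 h7 h8 h9
    rw [l.norm] at h7
    rw [Metric.mem_closedBall, dist_zero_right, Prod.norm_def, Prod.norm_def, Prod.norm_def]
    refine max_le (max_le (max_le ?_ ?_) ?_) ?_ <;> linarith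
  · intro x hx
    unfold G3 at hx
    have h1 := tsupport_mul_subset_left hx
    have h2 := tsupport_mul_subset_right hx
    have h3 : (x.1.1.1, l.ι x.2) ∈ tsupport (fun x : ℂ × ℂ =>
        B1 β ((ContinuousLinearMap.id ℝ ℂ) x.1) x.2 * c x.1) :=
      tsup_comp (f := fun x : ℂ × ℂ => B1 β ((ContinuousLinearMap.id ℝ ℂ) x.1) x.2 * c x.1)
        (L := fun x : ((ℂ × ℂ) × ℂ) × E => (x.1.1.1, l.ι x.2)) (by fun_prop) h1
    have h4 : (x.1.1.2, x.1.2) ∈ tsupport (gg χ c2) :=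
      tsup_comp (L := fun x : ((ℂ × ℂ) × ℂ) × E => (x.1.1.2, x.1.2)) (by fun_prop) h2
    obtain ⟨h5, h6⟩ := hB.ts h3
    obtain ⟨h7, h8⟩ := B1_ts hβ (tsupport_mul_subset_left h3)
    have h9 := S0_mul h7 h8
    refine ⟨h5, h6, ?_⟩
    have h10 := gg_ts hχ hc2 h4 h9
    intro h0
    apply h10
    rw [sub_eq_zero] at h0
    dsimp only
    rw [h0]
    simp only [ContinuousLinearMap.coe_id', id_eq]
    ring

/-- the cut-off of the ratio -/
lemma exists_c2 : ∃ c : ℂ × ℂ → ℂ, CIg {q | q ≠ 0} c ∧ ∀ q, ‖q.1‖ + ‖q.2‖ = 1 → c q = 1 := by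
  have h1 : Continuous fun q : ℂ × ℂ => ‖q.1‖ + ‖q.2‖ := by fun_prop
  have hK : IsCompact {q : ℂ × ℂ | ‖q.1‖ + ‖q.2‖ = 1} := by
    refine Metric.isCompact_of_isClosed_isBounded (isClosed_eq h1 continuous_const) ?_
    refine (Metric.isBounded_closedBall (x := (0 : ℂ × ℂ)) (r := 1)).subset fun q hq => ?_
    rw [Metric.mem_closedBall, dist_zero_right, Prod.norm_def]
    have hq' : ‖q.1‖ + ‖q.2‖ = 1 := hq
    refine max_le ?_ ?_ <;> linarith [norm_nonneg q.1, norm_nonneg q.2]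
  obtain ⟨χ, h1, h2, h3, h4, h5, h6⟩ := cutoff (X := ℂ × ℂ) hK
    (U := {q | q ≠ 0}) isOpen_ne (fun x hx h0 => by
      have hx' : ‖x.1‖ + ‖x.2‖ = 1 := hx
      rw [h0] at hx'
      simp at hx')
  refine ⟨fun h => (χ h : ℂ), ⟨?_, ?_, ?_⟩, fun h hh => ?_⟩
  · exact Complex.ofRealCLM.contDiff.comp h1
  · exact h2.comp_left (g := fun x : ℝ => (x : ℂ)) Complex.ofReal_zero
  · refine (closure_mono ?_).trans h3
    intro x hx h0
    apply hx
    beta_reduce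
    rw [h0, Complex.ofReal_zero]
  · beta_reduce
    rw [h4 h hh, Complex.ofReal_one]

/-- away from the stationary points -/
theorem ns_loc (l : LocE r E) {β : ℂ → ℂ} (hβ : CIg S0 β) {χ : ℂ → ℝ} (hχ : Chi χ) (N : ℕ) :
    ∃ C : ℝ, 0 ≤ C ∧ ∀ (k : ℤ) (τ : ℝ) (h ζ : ℂ), Rl r h → Rl r ζ → ‖h‖ ≤ 1 / 16 →
    (1 - χ (Cc r k τ h / Zz r ζ)) * ‖I1 r k τ β h ζ‖ *
      (1 + ‖Cc r k τ h‖ + ‖Zz r ζ‖) ^ N ≤ C := by
  obtain ⟨c, hc, hc1⟩ := exists_ch
  obtain ⟨c2, hc2, hc21⟩ := exists_c2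
  obtain ⟨C, hC0, hC⟩ := NS (volume : Measure E) l.v ![1, -Complex.I] (Om3_open l)
    (R3_smooth l) (R3_ne l) N (G3_CI l hβ hχ hc hc2)
  obtain ⟨C1, hC10, hC1⟩ := sup_loc l hβ
  refine ⟨2 ^ N * C + 2 ^ N * C1, by positivity, fun k τ h ζ hh hζ hn => ?_⟩
  obtain ⟨lam, hlam⟩ : ∃ lam : ℝ, lam = ‖Cc r k τ h‖ + ‖Zz r ζ‖ := ⟨_, rfl⟩
  rw [show 1 + ‖Cc r k τ h‖ + ‖Zz r ζ‖ = 1 + lam by rw [hlam]; ring]
  have hχ0 : 0 ≤ 1 - χ (Cc r k τ h / Zz r ζ) := by linarith [hχ.le (Cc r k τ h / Zz r ζ)]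
  have hχ1 : 1 - χ (Cc r k τ h / Zz r ζ) ≤ 1 := by linarith [hχ.nn (Cc r k τ h / Zz r ζ)]
  have hl0 : 0 ≤ lam := by rw [hlam]; positivity
  by_cases h1 : lam < 1
  · have h2 := hC1 k τ h ζ hh hζ hn
    have h3 : (√((1 + ‖Cc r k τ h‖) ^ nr r))⁻¹ ≤ 1 := by
      refine inv_le_one_of_one_le₀ ?_
      rw [Real.one_le_sqrt]
      exact one_le_pow₀ (by linarith [norm_nonneg (Cc r k τ h)])
    have h4 : (1 + lam) ^ N ≤ 2 ^ N := pow_le_pow_left₀ (by linarith) (by linarith) N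
    have h5 : ‖I1 r k τ β h ζ‖ ≤ C1 := h2.trans (by
      calc _ ≤ C1 * 1 := mul_le_mul_of_nonneg_left h3 hC10
        _ = C1 := mul_one _)
    calc _ ≤ 1 * C1 * 2 ^ N := by
          refine mul_le_mul (mul_le_mul hχ1 h5 (norm_nonneg _) zero_le_one) h4 (by positivity)
            (by positivity)
      _ = 2 ^ N * C1 := by ring
      _ ≤ _ := by linarith [show 0 ≤ 2 ^ N * C by positivity]
  · have h1 := not_lt.1 h1
    have hl1 : 0 < lam := by linarith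
    have hl2 : (lam : ℂ) ≠ 0 := by exact_mod_cast hl1.ne'
    have h3 := hC ((h, Cc r k τ h / lam), Zz r ζ / lam) lam (fun y => U1 k τ h (l.ι y) *
      e (-(nr r * ((starRingEnd ℂ) ζ * l.ι y).re))) hl1 (fun z => ?_) (fun z hz => ?_)
    · have h4 : (∫ z, (U1 k τ h (l.ι z) * e (-(nr r * ((starRingEnd ℂ) ζ * l.ι z).re))) *
          G3 l β χ c c2 (((h, Cc r k τ h / lam), Zz r ζ / lam), z)) =
          (1 - (χ (Cc r k τ h / Zz r ζ) : ℂ)) * I1 r k τ β h ζ := by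
        unfold I1 FL
        rw [l.li, ← integral_const_mul]
        refine integral_congr_ae (Filter.Eventually.of_forall fun z => ?_)
        simp only [G3, gg]
        rw [hc1 h hn, div_div_div_cancel_right₀ hl2, hc21]
        · ring
        · dsimp only
          rw [norm_div, norm_div, ← add_div, Complex.norm_real, Real.norm_of_nonneg hl0, ← hlam]
          exact div_self hl1.ne'
      rw [h4, norm_mul] at h3
      have h5 : ‖(1 - (χ (Cc r k τ h / Zz r ζ) : ℂ))‖ = 1 - χ (Cc r k τ h / Zz r ζ) := by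
        rw [← Complex.ofReal_one, ← Complex.ofReal_sub, Complex.norm_real,
          Real.norm_of_nonneg hχ0]
      rw [h5] at h3
      have h6 : (1 + lam) ^ N ≤ 2 ^ N * lam ^ N := by
        rw [← mul_pow]
        exact pow_le_pow_left₀ (by linarith) (by linarith) N
      calc _ ≤ (1 - χ (Cc r k τ h / Zz r ζ)) * ‖I1 r k τ β h ζ‖ * (2 ^ N * lam ^ N) :=
            mul_le_mul_of_nonneg_left h6 (by positivity)
        _ = 2 ^ N * (lam ^ N * ((1 - χ (Cc r k τ h / Zz r ζ)) * ‖I1 r k τ β h ζ‖)) := by ring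
        _ ≤ 2 ^ N * C := mul_le_mul_of_nonneg_left h3 (by positivity)
        _ ≤ _ := by linarith [show 0 ≤ 2 ^ N * C1 by positivity]
    · beta_reduce
      rw [norm_mul, e_norm, mul_one]
      exact U1_norm _ _ _ _
    · obtain ⟨h5, h6, h7⟩ := hz
      dsimp only at h5 h6 h7
      obtain ⟨a1, a2, a3⟩ := sq_ne h5 h6
      have h11 := (LD.U1 l k τ hh a1 a2).mul (LD.e l ζ z)
      have e1 : Cc r k τ h / ((l.ι z) ^ 2 - h ^ 2) + -Zz r ζ =
          (lam : ℂ) * R3 l (((h, Cc r k τ h / lam), Zz r ζ / lam), z) := by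
        unfold R3
        dsimp only
        field_simp
        ring
      rw [e1] at h11
      have h12 : Rl r ((lam : ℂ) * R3 l (((h, Cc r k τ h / lam), Zz r ζ / lam), z)) := by
        rw [← e1]
        exact ((hh.Cc k τ).div (((l.rl _).pow 2).sub (hh.pow 2))).add hζ.Zz.neg
      obtain ⟨u', h13, h14⟩ := h11.comb h12
      refine ⟨u', h13, ?_⟩
      rw [h14]
      ring

/-- away from the stationary points -/
theorem loc_ns (r : Bool) {β : ℂ → ℂ} (hβ : CIg S0 β) {χ : ℂ → ℝ} (hχ : Chi χ) (N : ℕ) :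
    ∃ C h0 : ℝ, 0 < C ∧ 0 < h0 ∧ ∀ (k : ℤ) (τ : ℝ) (h ζ : ℂ), Rl r h → Rl r ζ → ‖h‖ ≤ h0 →
    (1 - χ (Cc r k τ h / Zz r ζ)) * ‖I1 r k τ β h ζ‖ *
      (1 + ‖Cc r k τ h‖ + ‖Zz r ζ‖) ^ N ≤ C := by
  have key : ∃ C : ℝ, 0 ≤ C ∧ ∀ (k : ℤ) (τ : ℝ) (h ζ : ℂ), Rl r h → Rl r ζ → ‖h‖ ≤ 1 / 16 →
      (1 - χ (Cc r k τ h / Zz r ζ)) * ‖I1 r k τ β h ζ‖ *
        (1 + ‖Cc r k τ h‖ + ‖Zz r ζ‖) ^ N ≤ C := by
    cases r with
    | true => exact ns_loc locR hβ hχ N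
    | false => exact ns_loc locC hβ hχ N
  obtain ⟨C, hC0, hC⟩ := key
  refine ⟨C + 1, 1 / 16, by positivity, by norm_num, fun k τ h ζ hh hζ hn => ?_⟩
  exact (hC k τ h ζ hh hζ hn).trans (by linarith)

end Pool.Agent.T2H29.TA
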