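import Pool.Agent.T2H29.TA.L6

/-!
# Integration by parts with parameters
-/

set_option autoImplicit false
set_option linter.unusedSectionVars false

namespace Pool.Agent.T2H29.TA

open Finset Module MeasureTheory
open Pool.Agent.T2H29.SW
open scoped RealInnerProductSpace ContDiff

variable {r : Bool} {E : Type} [NormedAddCommGroup E] [InnerProductSpace ℝ E]
    [FiniteDimensional ℝ E] [MeasurableSpace E] [BorelSpace E]
variable {P : Type} [NormedAddCommGroup P] [NormedSpace ℝ P] [FiniteDimensional ℝ P]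

lemma CIg.mono {X : Type} [NormedAddCommGroup X] [NormedSpace ℝ X] {Ω Ω' : Set X} {G : X → ℂ}
    (hG : CIg Ω G) (h : Ω ⊆ Ω') : CIg Ω' G := ⟨hG.sm, hG.cs, hG.ts.trans h⟩

/-- the gradient of the phase -/
noncomputable def RR (l : LocE r E) (k : ℤ) (τ : ℝ) (h ζ : ℂ) (y : E) : ℂ :=
  Cc r k τ h / ((l.ι y) ^ 2 - h ^ 2) + -Zz r ζ

/-- the phase -/
noncomputable def ph (l : LocE r E) (k : ℤ) (τ : ℝ) (h ζ : ℂ) (y : E) : ℂ :=
  U1 k τ h (l.ι y) * e (-(nr r * ((starRingEnd ℂ) ζ * l.ι y).re))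

lemma ph_norm (l : LocE r E) (k : ℤ) (τ : ℝ) (h ζ : ℂ) (y : E) : ‖ph l k τ h ζ y‖ ≤ 1 := by
  unfold ph
  rw [norm_mul, e_norm, mul_one]
  exact U1_norm _ _ _ _

lemma ph_LD (l : LocE r E) {hp : P →L[ℝ] ℂ} (k : ℤ) (τ : ℝ)
    (p : P) (ζ : ℂ) (hh : Rl r (hp p)) {y : E} (hy : (p, l.ι y) ∈ Oc hp) :
    LD l (ph l k τ (hp p) ζ) (RR l k τ (hp p) ζ y) y := by
  obtain ⟨h5, h6⟩ := hy
  obtain ⟨a1, a2, a3⟩ := sq_ne h5 h6
  exact (LD.U1 l k τ hh a1 a2).mul (LD.e l ζ y)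

lemma RR_cont (l : LocE r E) {hp : P →L[ℝ] ℂ} (k : ℤ) (τ : ℝ)
    (p : P) (ζ : ℂ) {y : E} (hy : (p, l.ι y) ∈ Oc hp) :
    ContinuousAt (RR l k τ (hp p) ζ) y := by
  obtain ⟨h5, h6⟩ := hy
  obtain ⟨a1, a2, a3⟩ := sq_ne h5 h6
  unfold RR
  have hc : ContinuousAt (fun y : E => (l.ι y) ^ 2 - (hp p) ^ 2) y := by fun_prop
  exact (continuousAt_const.div hc a3).add continuousAt_const

lemma G_cont (l : LocE r E) {hp : P →L[ℝ] ℂ} {H : P × ℂ → ℂ} (hH : CIg (Oc hp) H) (p : P)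
    {A : E → ℂ} (hA : ∀ y : E, (p, l.ι y) ∈ Oc hp → ContinuousAt A y) :
    Continuous fun y => A y * H (p, l.ι y) := by
  have hcp : Continuous fun y : E => (p, l.ι y) := by fun_prop
  rw [continuous_iff_continuousAt]
  intro x
  by_cases hx : (p, l.ι x) ∈ tsupport H
  · exact (hA x (hH.ts hx)).mul (hH.sm.continuous.comp hcp).continuousAt
  · have h2 := notMem_tsupport_iff_eventuallyEq.1 hx
    have h1 : (fun y => A y * H (p, l.ι y)) =ᶠ[nhds x] fun _ => 0 := by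
      filter_upwards [(hcp.tendsto x).eventually h2] with y hy
      rw [hy]
      simp
    exact continuousAt_const.congr h1.symm

lemma G_cs (l : LocE r E) {hp : P →L[ℝ] ℂ} {H : P × ℂ → ℂ} (hH : CIg (Oc hp) H) (p : P)
    (A : E → ℂ) : HasCompactSupport fun y => A y * H (p, l.ι y) := by
  obtain ⟨R, hR0, hR⟩ := hH.bdd
  refine HasCompactSupport.intro (isCompact_closedBall (0 : E) R) ?_
  intro x hx
  by_contra h0
  apply hx
  have h1 : H (p, l.ι x) ≠ 0 := fun h => h0 (by rw [h]; ring)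
  have h4 := hR _ h1
  rw [Prod.norm_def, max_le_iff] at h4
  obtain ⟨-, h8⟩ := h4
  dsimp only at h8
  rw [l.norm] at h8
  rw [Metric.mem_closedBall, dist_zero_right]
  exact h8

/-- the first integrand -/
noncomputable def T1 (l : LocE r E) (hp : P →L[ℝ] ℂ) (G : P × ℂ → ℂ) (k : ℤ) (τ : ℝ)
    (p : P) (ζ : ℂ) (v : E) (y : E) : ℂ :=
  (ph l k τ (hp p) ζ y * (Complex.I * (((RR l k τ (hp p) ζ y * l.ι v).re : ℝ) : ℂ))) * G (p, l.ι y)

/-- the second integrand -/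
noncomputable def T2 (l : LocE r E) (hp : P →L[ℝ] ℂ) (G : P × ℂ → ℂ) (k : ℤ) (τ : ℝ)
    (p : P) (ζ : ℂ) (v : E) (y : E) : ℂ :=
  ph l k τ (hp p) ζ y * fderiv ℝ G (p, l.ι y) (0, l.ι v)

lemma T1_int (l : LocE r E) {hp : P →L[ℝ] ℂ} {G : P × ℂ → ℂ} (hG : CIg (Oc hp) G) (k : ℤ) (τ : ℝ)
    (p : P) (ζ : ℂ) (hh : Rl r (hp p)) (v : E) : Integrable (T1 l hp G k τ p ζ v) := by
  refine Continuous.integrable_of_hasCompactSupport ?_ (G_cs l hG p _)
  refine G_cont l hG p fun y hy => ?_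
  obtain ⟨u', h1, -⟩ := ph_LD l k τ p ζ hh hy
  have h2 := RR_cont l k τ p ζ hy
  have h3 : ContinuousAt (fun y => (((RR l k τ (hp p) ζ y * l.ι v).re : ℝ) : ℂ)) y :=
    Complex.continuous_ofReal.continuousAt.comp
      (Complex.continuous_re.continuousAt.comp (h2.mul continuousAt_const))
  exact h1.continuousAt.mul (continuousAt_const.mul h3)

lemma T2_int (l : LocE r E) {hp : P →L[ℝ] ℂ} {G : P × ℂ → ℂ} (hG : CIg (Oc hp) G) (k : ℤ) (τ : ℝ)
    (p : P) (ζ : ℂ) (hh : Rl r (hp p)) (v : E) : Integrable (T2 l hp G k τ p ζ v) := by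
  refine Continuous.integrable_of_hasCompactSupport ?_ (G_cs l (hG.fd (0, l.ι v)) p _)
  refine G_cont l (hG.fd (0, l.ι v)) p fun y hy => ?_
  obtain ⟨u', h1, -⟩ := ph_LD l k τ p ζ hh hy
  exact h1.continuousAt

lemma ph_der (l : LocE r E) {hp : P →L[ℝ] ℂ} {G : P × ℂ → ℂ} (hG : CIg (Oc hp) G) (k : ℤ) (τ : ℝ)
    (p : P) (ζ : ℂ) (hh : Rl r (hp p)) (y : E) :
    ∃ D : E →L[ℝ] ℂ, HasFDerivAt (fun y => ph l k τ (hp p) ζ y * G (p, l.ι y)) D y ∧
      ∀ v, D v = T1 l hp G k τ p ζ v y + T2 l hp G k τ p ζ v y := by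
  have hgd : HasFDerivAt (fun y => G (p, l.ι y)) ((fderiv ℝ G (p, l.ι y)).comp
      ((0 : E →L[ℝ] P).prod l.ι)) y := by
    have h1 : HasFDerivAt (fun y : E => (p, l.ι y)) ((0 : E →L[ℝ] P).prod l.ι) y :=
      (hasFDerivAt_const p y).prodMk l.ι.hasFDerivAt
    exact HasFDerivAt.comp (g := G) (f := fun y : E => (p, l.ι y)) y
      (hG.sm.differentiable (by simp) _).hasFDerivAt h1
  have hcp : Continuous fun y : E => (p, l.ι y) := by fun_prop
  by_cases hy : (p, l.ι y) ∈ tsupport G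
  · obtain ⟨u', h1, h2⟩ := ph_LD l k τ p ζ hh (hG.ts hy)
    refine ⟨_, HasFDerivAt.mul h1 hgd, fun v => ?_⟩
    have e1 : ((fderiv ℝ G (p, l.ι y)).comp ((0 : E →L[ℝ] P).prod l.ι)) v =
      fderiv ℝ G (p, l.ι y) (0, l.ι v) := rfl
    rw [ContinuousLinearMap.add_apply, ContinuousLinearMap.smul_apply,
      ContinuousLinearMap.smul_apply, e1, h2 v]
    unfold T1 T2
    simp only [smul_eq_mul]
    ring
  · have h2 := notMem_tsupport_iff_eventuallyEq.1 hy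
    have h1 : (fun y => ph l k τ (hp p) ζ y * G (p, l.ι y)) =ᶠ[nhds y] fun _ => 0 := by
      filter_upwards [(hcp.tendsto y).eventually h2] with y hy
      rw [hy]
      simp
    refine ⟨0, (hasFDerivAt_const (0:ℂ) y).congr_of_eventuallyEq h1, fun v => ?_⟩
    have h3 : G (p, l.ι y) = 0 := h2.self_of_nhds
    have h4 : fderiv ℝ G (p, l.ι y) = 0 := by
      rw [h2.fderiv_eq]
      exact congrFun (fderiv_fun_const (𝕜 := ℝ) (E := P × ℂ) (0 : ℂ)) _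
    unfold T1 T2
    rw [h3, h4]
    simp

/-- integration by parts -/
lemma ibp1 (l : LocE r E) {hp : P →L[ℝ] ℂ} {G : P × ℂ → ℂ} (hG : CIg (Oc hp) G) (k : ℤ) (τ : ℝ)
    (p : P) (ζ : ℂ) (hh : Rl r (hp p)) (v : E) :
    ∫ y, T1 l hp G k τ p ζ v y = -∫ y, T2 l hp G k τ p ζ v y := by
  choose D hD1 hD2 using ph_der l hG k τ p ζ hh
  have i1 := T1_int l hG k τ p ζ hh v
  have i2 := T2_int l hG k τ p ζ hh v
  have c5 : Continuous (fun y => ph l k τ (hp p) ζ y * G (p, l.ι y)) := by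
    refine G_cont l hG p fun y hy => ?_
    obtain ⟨u', h1, -⟩ := ph_LD l k τ p ζ hh hy
    exact h1.continuousAt
  have h1 := int_fd hD1 v (c5.integrable_of_hasCompactSupport (G_cs l hG p _)) (by
    simp only [hD2]
    exact i1.add i2)
  simp only [hD2] at h1
  rw [integral_add i1 i2] at h1
  exact eq_neg_of_add_eq_zero_left h1

/-- the divergence -/
noncomputable def GD (l : LocE r E) (GA GB : P × ℂ → ℂ) (x : P × ℂ) : ℂ :=
  -(fderiv ℝ GA x (0, l.ι (l.v 0)) + fderiv ℝ GB x (0, l.ι (l.v 1)))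

lemma GD_CI (l : LocE r E) {hp : P →L[ℝ] ℂ} {GA GB : P × ℂ → ℂ} (hA : CIg (Oc hp) GA)
    (hB : CIg (Oc hp) GB) : CIg (Oc hp) (GD l GA GB) :=
  ((hA.fd _).add' (hB.fd _)).neg'

/-- integration by parts -/
theorem ibp (l : LocE r E) {hp : P →L[ℝ] ℂ} {GA GB : P × ℂ → ℂ} (hA : CIg (Oc hp) GA)
    (hB : CIg (Oc hp) GB) (k : ℤ) (τ : ℝ) (p : P) (ζ : ℂ) (hh : Rl r (hp p)) :
    ∫ y, (T1 l hp GA k τ p ζ (l.v 0) y + T1 l hp GB k τ p ζ (l.v 1) y) =
      FL r (fun z => U1 k τ (hp p) z * GD l GA GB (p, z)) ζ := by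
  rw [integral_add (T1_int l hA k τ p ζ hh _) (T1_int l hB k τ p ζ hh _), ibp1 l hA k τ p ζ hh,
    ibp1 l hB k τ p ζ hh, ← neg_add, ← integral_add (T2_int l hA k τ p ζ hh _)
    (T2_int l hB k τ p ζ hh _), ← integral_neg]
  unfold FL
  rw [l.li]
  refine integral_congr_ae (Filter.Eventually.of_forall fun z => ?_)
  simp only [T2, ph, GD]
  ring

end Pool.Agent.T2H29.TA
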