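import Pool.Agent.T2H29.TA.L7

/-!
# The local amplitude: the weight of the derivative
-/

set_option autoImplicit false
set_option linter.unusedSectionVars false

namespace Pool.Agent.T2H29.TA

open Finset Module MeasureTheory
open Pool.Agent.T2H29.SW
open scoped RealInnerProductSpace ContDiff

variable {r : Bool} {E : Type} [NormedAddCommGroup E] [InnerProductSpace ℝ E]
    [FiniteDimensional ℝ E] [MeasurableSpace E] [BorelSpace E]

/-- the parameters `((h, z0), κ)` -/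
abbrev P3 : Type := (ℂ × ℂ) × ℂ

/-- the projection to `h` -/
noncomputable def hp3 : P3 →L[ℝ] ℂ :=
  (ContinuousLinearMap.fst ℝ ℂ ℂ).comp (ContinuousLinearMap.fst ℝ (ℂ × ℂ) ℂ)

lemma hp3_apply (p : P3) : hp3 p = p.1.1 := rfl

/-- the domain -/
def Oc3 : Set (P3 × ℂ) := {x | x ∈ Oc hp3 ∧ -(1 / 8) < x.1.1.2.re}

/-- the cut-off of the parameters -/
lemma exists_c3 : ∃ c : P3 → ℂ, CIg {p : P3 | ‖hp3 p‖ < 1 / 8 ∧ -(1 / 8) < p.1.2.re} c ∧
    ∀ p : P3, ‖p.1.1‖ ≤ 1 / 16 → 0 ≤ p.1.2.re → ‖p.1.2‖ ≤ 4 → ‖p.2‖ ≤ 1 → c p = 1 := by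
  have h1 : Continuous fun p : P3 => ‖p.1.1‖ := by fun_prop
  have h2 : Continuous fun p : P3 => p.1.2.re := Complex.continuous_re.comp (by fun_prop)
  have h3 : Continuous fun p : P3 => ‖p.1.2‖ := by fun_prop
  have h4 : Continuous fun p : P3 => ‖p.2‖ := by fun_prop
  have hK : IsCompact {p : P3 | ‖p.1.1‖ ≤ 1 / 16 ∧ 0 ≤ p.1.2.re ∧ ‖p.1.2‖ ≤ 4 ∧ ‖p.2‖ ≤ 1} := by
    refine Metric.isCompact_of_isClosed_isBounded ?_ ?_
    · exact (isClosed_le h1 continuous_const).inter ((isClosed_le continuous_const h2).inter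
        ((isClosed_le h3 continuous_const).inter (isClosed_le h4 continuous_const)))
    · refine (Metric.isBounded_closedBall (x := (0 : P3)) (r := 4)).subset fun q hq => ?_
      obtain ⟨a1, a2, a3, a4⟩ := hq
      rw [Metric.mem_closedBall, dist_zero_right, Prod.norm_def, Prod.norm_def]
      refine max_le (max_le ?_ ?_) ?_ <;> linarith
  have hU : IsOpen {p : P3 | ‖hp3 p‖ < 1 / 8 ∧ -(1 / 8) < p.1.2.re} :=
    (isOpen_lt h1 continuous_const).inter (isOpen_lt continuous_const h2)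
  obtain ⟨χ, h1, h2, h3, h4, h5, h6⟩ := cutoff (X := P3) hK hU (fun x hx => by
      obtain ⟨a1, a2, a3, a4⟩ := hx
      refine ⟨?_, by linarith⟩
      rw [hp3_apply]
      linarith)
  refine ⟨fun h => (χ h : ℂ), ⟨?_, ?_, ?_⟩, fun p a1 a2 a3 a4 => ?_⟩
  · exact Complex.ofRealCLM.contDiff.comp h1
  · exact h2.comp_left (g := fun x : ℝ => (x : ℂ)) Complex.ofReal_zero
  · refine (closure_mono ?_).trans h3
    intro x hx h0
    apply hx
    beta_reduce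
    rw [h0, Complex.ofReal_zero]
  · beta_reduce
    rw [h4 p ⟨a1, a2, a3, a4⟩, Complex.ofReal_one]

/-- the direction -/
noncomputable def W3 (x : P3 × ℂ) : ℂ := x.1.2 * (x.2 ^ 2 - x.1.1.1 ^ 2) / (x.2 + x.1.1.2)

lemma W3_sm : ContDiffOn ℝ ∞ W3 Oc3 := by
  have a1 : ContDiff ℝ ∞ fun x : P3 × ℂ => x.1.2 * (x.2 ^ 2 - x.1.1.1 ^ 2) := by fun_prop
  have a2 : ContDiff ℝ ∞ fun x : P3 × ℂ => x.2 + x.1.1.2 := by fun_prop
  unfold W3
  simp only [div_eq_mul_inv]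
  refine a1.contDiffOn.mul (a2.contDiffOn.inv fun x hx => ?_)
  obtain ⟨⟨h1, h2⟩, h3⟩ := hx
  intro h0
  have h4 : (x.2 + x.1.1.2).re = 0 := by rw [h0]; rfl
  rw [Complex.add_re] at h4
  linarith

lemma Oc3_open : IsOpen Oc3 := by
  have h2 : Continuous fun p : P3 × ℂ => p.1.1.2.re := Complex.continuous_re.comp (by fun_prop)
  exact (Oc_open hp3).inter (isOpen_lt continuous_const h2)

/-- the basic weight -/
noncomputable def B3 (β : ℂ → ℂ) (c : P3 → ℂ) (x : P3 × ℂ) : ℂ := B1 β (hp3 x.1) x.2 * c x.1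

lemma B3_CI {β : ℂ → ℂ} (hβ : CIg S0 β) {c : P3 → ℂ}
    (hc : CIg {p : P3 | ‖hp3 p‖ < 1 / 8 ∧ -(1 / 8) < p.1.2.re} c) : CIg Oc3 (B3 β c) := by
  have h1 := B1_CI hβ (hp := hp3) (hc.mono fun p hp => hp.1)
  refine ⟨h1.sm, h1.cs, fun x hx => ⟨h1.ts hx, ?_⟩⟩
  have h2 : x ∈ tsupport fun x : P3 × ℂ => c x.1 := tsupport_mul_subset_right hx
  have h6 : x.1 ∈ tsupport c := tsup_comp (L := fun x : P3 × ℂ => x.1) (by fun_prop) h2
  exact (hc.ts h6).2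

/-- the real part -/
noncomputable def GA (β : ℂ → ℂ) (c : P3 → ℂ) (x : P3 × ℂ) : ℂ := ((W3 x).re : ℂ) * B3 β c x

/-- the imaginary part -/
noncomputable def GB' (β : ℂ → ℂ) (c : P3 → ℂ) (x : P3 × ℂ) : ℂ := ((W3 x).im : ℂ) * B3 β c x

lemma GA_CI {β : ℂ → ℂ} (hβ : CIg S0 β) {c : P3 → ℂ}
    (hc : CIg {p : P3 | ‖hp3 p‖ < 1 / 8 ∧ -(1 / 8) < p.1.2.re} c) : CIg (Oc hp3) (GA β c) := by
  refine (CIg.mul_smooth Oc3_open ?_ (B3_CI hβ hc)).mono fun x hx => hx.1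
  exact (Complex.ofRealCLM.contDiff.comp Complex.reCLM.contDiff).comp_contDiffOn W3_sm

lemma GB_CI {β : ℂ → ℂ} (hβ : CIg S0 β) {c : P3 → ℂ}
    (hc : CIg {p : P3 | ‖hp3 p‖ < 1 / 8 ∧ -(1 / 8) < p.1.2.re} c) : CIg (Oc hp3) (GB' β c) := by
  refine (CIg.mul_smooth Oc3_open ?_ (B3_CI hβ hc)).mono fun x hx => hx.1
  exact (Complex.ofRealCLM.contDiff.comp Complex.imCLM.contDiff).comp_contDiffOn W3_sm

/-- the weight of the derivative -/
theorem der_bd (l : LocE r E) {β : ℂ → ℂ} (hβ : CIg S0 β) : ∃ C : ℝ, 0 ≤ C ∧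
    ∀ (k : ℤ) (τ : ℝ) (h z0 κ ζ : ℂ), Rl r h → Rl r z0 → Rl r κ → Rl r ζ → ‖h‖ ≤ 1 / 16 →
    0 ≤ z0.re → ‖z0‖ ≤ 4 → ‖κ‖ ≤ 1 → Cc r k τ h = Zz r ζ * (z0 ^ 2 - h ^ 2) →
    ‖∫ y : E, ((((Zz r ζ * κ * (z0 - l.ι y)).re : ℝ) : ℂ)) * (ph l k τ h ζ y * B1 β h (l.ι y))‖ ≤
      C * (√((1 + ‖Cc r k τ h‖) ^ nr r))⁻¹ := by
  obtain ⟨c, hc, hc1⟩ := exists_c3
  have hA := GA_CI hβ hc
  have hB := GB_CI hβ hc
  obtain ⟨C, hC0, hC⟩ := supG l (GD_CI l hA hB)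
  refine ⟨C, hC0, fun k τ h z0 κ ζ hh hz0 hκ hζ hn h1 h2 h3 h4 => ?_⟩
  have h5 := hC k τ ((h, z0), κ) ζ hh hζ
  rw [← ibp l hA hB k τ ((h, z0), κ) ζ hh] at h5
  have e1 : (∫ y, (T1 l hp3 (GA β c) k τ ((h, z0), κ) ζ (l.v 0) y +
      T1 l hp3 (GB' β c) k τ ((h, z0), κ) ζ (l.v 1) y)) =
      Complex.I * ∫ y : E, ((((Zz r ζ * κ * (z0 - l.ι y)).re : ℝ) : ℂ)) *
        (ph l k τ h ζ y * B1 β h (l.ι y)) := by
    rw [← integral_const_mul]
    refine integral_congr_ae (Filter.Eventually.of_forall fun y => ?_)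
    simp only [T1, GA, GB', B3, hp3_apply]
    rw [hc1 ((h, z0), κ) hn h1 h2 h3, mul_one]
    by_cases hb : B1 β h (l.ι y) = 0
    · rw [hb]; ring
    · obtain ⟨b1, b2⟩ := B1_ne hβ hb
      obtain ⟨b3, -, -⟩ := S0_re b1 b2
      obtain ⟨a1, a2, a3⟩ := sq_ne (h := h) (lt_trans (by norm_num) b3) (by linarith)
      have hW : Rl r (W3 (((h, z0), κ), l.ι y)) := by
        unfold W3
        exact (hκ.mul (((l.rl y).pow 2).sub (hh.pow 2))).div ((l.rl y).add hz0)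
      have hv := l.vv _ hW
      have h6 : l.ι y + z0 ≠ 0 := by
        intro h0
        have h7 : (l.ι y + z0).re = 0 := by rw [h0]; rfl
        rw [Complex.add_re] at h7
        linarith
      have e2 : RR l k τ h ζ y * W3 (((h, z0), κ), l.ι y) = Zz r ζ * κ * (z0 - l.ι y) := by
        unfold RR W3
        rw [h4]
        dsimp only
        field_simp
        ring
      have e3 : (Zz r ζ * κ * (z0 - l.ι y)).re =
          (W3 (((h, z0), κ), l.ι y)).re * (RR l k τ h ζ y * l.ι (l.v 0)).re +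
          (W3 (((h, z0), κ), l.ι y)).im * (RR l k τ h ζ y * l.ι (l.v 1)).re := by
        rw [← e2]
        conv_lhs => rw [hv]
        rw [mul_add, Complex.add_re, ← Complex.re_ofReal_mul, ← Complex.re_ofReal_mul]
        congr 2 <;> ring
      rw [e3]
      push_cast
      ring
  rw [e1, norm_mul, Complex.norm_I, one_mul] at h5
  exact h5

end Pool.Agent.T2H29.TA
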