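import Pool.Agent.T2H29.TA.L8

/-!
# The local amplitude
-/

set_option autoImplicit false
set_option linter.unusedSectionVars false

namespace Pool.Agent.T2H29.TA

open Finset Module MeasureTheory
open Pool.Agent.T2H29.SW
open scoped RealInnerProductSpace ContDiff

variable {r : Bool} {E : Type} [NormedAddCommGroup E] [InnerProductSpace ℝ E]
    [FiniteDimensional ℝ E] [MeasurableSpace E] [BorelSpace E]

lemma I1_eq (l : LocE r E) (k : ℤ) (τ : ℝ) (β : ℂ → ℂ) (h : ℂ) (ζ : ℂ) :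
    I1 r k τ β h ζ = ∫ y : E, ph l k τ h ζ y * B1 β h (l.ι y) := by
  unfold I1 FL
  rw [l.li]
  refine integral_congr_ae (Filter.Eventually.of_forall fun y => ?_)
  simp only [ph]
  ring

lemma UB_cont (l : LocE r E) {β : ℂ → ℂ} (hβ : CIg S0 β) (k : ℤ) (τ : ℝ) {h : ℂ} (hh : Rl r h)
    (hn : ‖h‖ ≤ 1 / 16) : Continuous (fun x : E => U1 k τ h (l.ι x) * B1 β h (l.ι x)) ∧
      HasCompactSupport (fun x : E => U1 k τ h (l.ι x) * B1 β h (l.ι x)) := by
  obtain ⟨c, hc, hc1⟩ := exists_ch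
  have hG := B1_CI hβ (hp := ContinuousLinearMap.id ℝ ℂ) hc
  have h1 := U_cont l hG k τ h hh
  have h2 := U_cs l hG k τ h
  have e1 : (fun x : E => U1 k τ h (l.ι x) * B1 β h (l.ι x)) =
      fun x : E => U1 k τ ((ContinuousLinearMap.id ℝ ℂ) h) (l.ι x) *
        (B1 β ((ContinuousLinearMap.id ℝ ℂ) h) (l.ι x) * c h) := by
    funext z
    rw [hc1 h hn, mul_one]
    rfl
  rw [e1]
  exact ⟨h1, h2⟩

/-- the derivative of the integral -/
lemma I1_der (l : LocE r E) {β : ℂ → ℂ} (hβ : CIg S0 β) (k : ℤ) (τ : ℝ) {h : ℂ} (hh : Rl r h)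
    (hn : ‖h‖ ≤ 1 / 16) (c : ℝ) (x : E) :
    ∃ D : E →L[ℝ] ℂ, HasFDerivAt (fun x : E => I1 r k τ β h ((c : ℂ) * l.ι x)) D x ∧
      ∀ η, D η = ∫ y, -(Complex.I * (c : ℂ) * (((Zz r (l.ι η) * l.ι y).re : ℝ) : ℂ)) *
        (ph l k τ h ((c : ℂ) * l.ι x) y * B1 β h (l.ι y)) := by
  obtain ⟨h1, h2⟩ := UB_cont l hβ k τ hh hn
  have e1 : (fun x : E => I1 r k τ β h ((c : ℂ) * l.ι x)) = fun x : E =>
      FT (fun x : E => U1 k τ h (l.ι x) * B1 β h (l.ι x)) (((nr r : ℝ) * c) • x) := by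
    funext x
    unfold I1
    have e2 : (c : ℂ) * l.ι x = l.ι (c • x) := by rw [map_smul, Complex.real_smul]
    rw [e2, l.FL, smul_smul]
  obtain ⟨D0, h3, h4⟩ := FT_der h1 h2 (((nr r : ℝ) * c) • x)
  have h5 : HasFDerivAt (fun x : E => ((nr r : ℝ) * c) • x)
      (((nr r : ℝ) * c) • ContinuousLinearMap.id ℝ E) x := (hasFDerivAt_id x).const_smul _
  rw [e1]
  refine ⟨_, HasFDerivAt.comp (g := FT _) (f := fun x : E => ((nr r : ℝ) * c) • x) x h3 h5,
    fun η => ?_⟩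
  rw [ContinuousLinearMap.comp_apply, h4]
  refine integral_congr_ae (Filter.Eventually.of_forall fun y => ?_)
  have e2 : (((nr r : ℝ) * c) • ContinuousLinearMap.id ℝ E) η = ((nr r : ℝ) * c) • η := rfl
  have e3 : ∀ a : E, ((starRingEnd ℂ) (l.ι y) * l.ι a).re = ((starRingEnd ℂ) (l.ι a) * l.ι y).re := by
    intro a
    simp only [Complex.mul_re, Complex.conj_re, Complex.conj_im]
    ring
  have e4 : (Zz r (l.ι η) * l.ι y).re = 2 * Real.pi * nr r * ((starRingEnd ℂ) (l.ι η) * l.ι y).re := by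
    unfold Zz
    have : (2 * (Real.pi : ℂ) * (nr r : ℂ) * (starRingEnd ℂ) (l.ι η)) * l.ι y =
        ((2 * Real.pi * nr r : ℝ) : ℂ) * ((starRingEnd ℂ) (l.ι η) * l.ι y) := by
      push_cast; ring
    rw [this, Complex.re_ofReal_mul]
  have e5 : ((starRingEnd ℂ) ((c : ℂ) * l.ι x) * l.ι y).re =
      c * ((starRingEnd ℂ) (l.ι x) * l.ι y).re := by
    rw [map_mul, Complex.conj_ofReal, mul_assoc, Complex.re_ofReal_mul]
  beta_reduce
  rw [e2, real_inner_smul_right, real_inner_smul_right, l.inn, l.inn, e3, e3, e4]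
  unfold ph
  rw [e5]
  have e6 : -((nr r : ℝ) * c * ((starRingEnd ℂ) (l.ι x) * l.ι y).re) =
      -((nr r : ℝ) * (c * ((starRingEnd ℂ) (l.ι x) * l.ι y).re)) := by ring
  rw [e6]
  push_cast
  ring

/-- the linear map -/
noncomputable def LY (l : LocE r E) (k : ℤ) (τ : ℝ) (h : ℂ) : E →L[ℝ] ℂ :=
  (2 * Real.pi * nr r * ‖Cc r k τ h‖ / Cc r k τ h : ℂ) •
    ((Complex.conjCLE : ℂ →L[ℝ] ℂ).comp l.ι)

lemma LY_apply (l : LocE r E) (k : ℤ) (τ : ℝ) (h : ℂ) (x : E) :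
    LY l k τ h x = Zz r ((‖Cc r k τ h‖ : ℂ) * l.ι x) / Cc r k τ h := by
  have e1 : LY l k τ h x = (2 * Real.pi * nr r * ‖Cc r k τ h‖ / Cc r k τ h : ℂ) *
    (starRingEnd ℂ) (l.ι x) := rfl
  rw [e1]
  unfold Zz
  rw [map_mul, Complex.conj_ofReal]
  ring

lemma LY_norm (l : LocE r E) (k : ℤ) (τ : ℝ) {h : ℂ} (hc : Cc r k τ h ≠ 0) (x : E) :
    ‖LY l k τ h x‖ = 2 * Real.pi * nr r * ‖x‖ := by
  have e1 : LY l k τ h x = (2 * Real.pi * nr r * ‖Cc r k τ h‖ / Cc r k τ h : ℂ) *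
    (starRingEnd ℂ) (l.ι x) := rfl
  rw [e1, norm_mul, norm_div, RCLike.norm_conj, l.norm]
  have h1 : ‖Cc r k τ h‖ ≠ 0 := norm_ne_zero_iff.2 hc
  have e2 : (2 * (Real.pi : ℂ) * (nr r : ℂ) * (‖Cc r k τ h‖ : ℂ)) =
      ((2 * Real.pi * nr r * ‖Cc r k τ h‖ : ℝ) : ℂ) := by push_cast; ring
  rw [e2, Complex.norm_real, Real.norm_of_nonneg (by positivity)]
  field_simp

/-- the derivative of the phase -/
lemma F2_der (l : LocE r E) (k : ℤ) (τ : ℝ) {h : ℂ} (hc : Cc r k τ h ≠ 0) {x : E}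
    (hT : HasDerivAt (TH h) (-sH h (LY l k τ h x)) (LY l k τ h x)) :
    ∃ D : E →L[ℝ] ℂ, HasFDerivAt (fun x : E => Complex.exp (-(Complex.I *
      ((Cc r k τ h * TH h (LY l k τ h x)).re : ℝ)))) D x ∧
      ∀ η, D η = Complex.I * (‖Cc r k τ h‖ : ℂ) *
        (((Zz r (l.ι η) * sH h (LY l k τ h x)).re : ℝ) : ℂ) *
        Complex.exp (-(Complex.I * ((Cc r k τ h * TH h (LY l k τ h x)).re : ℝ))) := by
  have h1 : HasFDerivAt (fun x : E => TH h (LY l k τ h x)) _ x :=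
    HasFDerivAt.comp (g := TH h) (f := fun x : E => LY l k τ h x) x
      (hT.hasFDerivAt.restrictScalars ℝ) (LY l k τ h).hasFDerivAt
  have h2 := h1.const_mul (Cc r k τ h)
  have h3 := Complex.reCLM.hasFDerivAt.comp x h2
  have h4 : HasFDerivAt (fun y => (((Cc r k τ h * TH h (LY l k τ h y)).re : ℝ) : ℂ)) _ x :=
    Complex.ofRealCLM.hasFDerivAt.comp x h3
  have h5 := (h4.const_mul (-Complex.I)).cexp
  refine ⟨_, h5.congr_of_eventuallyEq ?_, fun η => ?_⟩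
  · refine Filter.Eventually.of_forall fun y => ?_
    beta_reduce
    rw [neg_mul]
  · have e1 : (Zz r (l.ι η) * sH h (LY l k τ h x)).re * ‖Cc r k τ h‖ =
        (Cc r k τ h * (LY l k τ h η * sH h (LY l k τ h x))).re := by
      rw [LY_apply l k τ h η]
      have : Cc r k τ h * (Zz r ((‖Cc r k τ h‖ : ℂ) * l.ι η) / Cc r k τ h *
          sH h (LY l k τ h x)) = (‖Cc r k τ h‖ : ℂ) * (Zz r (l.ι η) * sH h (LY l k τ h x)) := by
        unfold Zz
        rw [map_mul, Complex.conj_ofReal]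
        field_simp
      rw [this, Complex.re_ofReal_mul, mul_comm]
    have e2 : Complex.I * (‖Cc r k τ h‖ : ℂ) * (((Zz r (l.ι η) * sH h (LY l k τ h x)).re : ℝ) : ℂ) =
        Complex.I * (((Cc r k τ h * (LY l k τ h η * sH h (LY l k τ h x))).re : ℝ) : ℂ) := by
      rw [← e1]
      push_cast
      ring
    rw [e2]
    have e3 : (Cc r k τ h * (LY l k τ h η * -sH h (LY l k τ h x))).re =
        -(Cc r k τ h * (LY l k τ h η * sH h (LY l k τ h x))).re := by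
      rw [← Complex.neg_re]
      congr 1
      ring
    rw [neg_mul]
    show Complex.exp _ * (-Complex.I * (((Cc r k τ h * (LY l k τ h η * -sH h (LY l k τ h x))).re : ℝ) : ℂ)) = _
    rw [e3]
    push_cast
    ring

end Pool.Agent.T2H29.TA
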