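import Pool.Agent.T2H29.TA.A11
import Pool.Agent.T2H29.TA.A12
import Pool.Agent.T2H29.TA.A15

/-!
# The main theorem
-/

set_option autoImplicit false
set_option linter.unusedSectionVars false

namespace Pool.Agent.T2H29.TA

open Finset NumberField NumberField.InfinitePlace Module MeasureTheory
open Pool.Agent.T2H29.SW
open scoped RealInnerProductSpace ContDiff

variable (K : Type) [Field K] [NumberField K]

/-- the main theorem -/
theorem main_T (K : Type) [Field K] [NumberField K] : ∃ (C : ℝ) (a : ℕ), 0 < C ∧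
    ∀ (f : Ideal (𝓞 K)) (θ : Par (InfinitePlace K)) (χ : Ideal (𝓞 K) →* ℂ),
    f ≠ ⊥ → f ≠ ⊤ → HeckeM f θ χ →
    ∃ L : ℂ → ℂ, Differentiable ℂ L ∧
    (∀ s : ℂ, 1 < s.re →
      HasSum (fun I : Ideal (𝓞 K) => χ I * (Ideal.absNorm I : ℂ) ^ (-s)) (L s)) ∧
    ∀ t : ℝ, ‖L (1 / 2 + t * Complex.I)‖ ≤ C * (Tp θ * Ideal.absNorm f) ^ a *
        (1 + |t|) ^ ((dg K : ℝ) / 6 - 1 / 4000) := by
  obtain ⟨B, hB1, hB⟩ := exists_CBI K
  exact final_T K hB1 hB (duality K hB1 (coreT K hB1))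

end Pool.Agent.T2H29.TA
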