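import Pool.Agent.T2H29.TA.V0
import Pool.Agent.T2H29.TA.A2
import Pool.Agent.T2H29.TA.A3
import Pool.Agent.T2H29.TA.A4
import Pool.Agent.T2H29.TA.A10
import Pool.Agent.T2H29.TA.A11

/-!
# Unramified characters: long sums
-/

set_option autoImplicit false
set_option linter.unusedSectionVars false

namespace Pool.Agent.T2H29.TA

open Finset NumberField NumberField.InfinitePlace Module MeasureTheory
open Pool.Agent.T2H29.SW
open scoped RealInnerProductSpace ContDiff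

section v2

variable (K : Type) [Field K] [NumberField K]

lemma v2_vc0 (A : Matrix (Fin (dg K)) (Fin (dg K)) ℝ) : vc A (0 : Fin (dg K) → ℤ) = 0 := by
  have h : cz (0 : Fin (dg K) → ℤ) = 0 := by
    funext i
    simp [cz]
  unfold vc
  rw [h, Matrix.mulVec_zero]
  rfl

lemma v2_W0 (θ : Par (InfinitePlace K)) (A : Matrix (Fin (dg K)) (Fin (dg K)) ℝ) :
    Wt (lamK K) θ (vc A (0 : Fin (dg K) → ℤ)) = 0 := by
  refine A11.Wt_zero K θ _ ?_
  obtain ⟨w⟩ := (inferInstance : Nonempty (InfinitePlace K))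
  exact ⟨w, by rw [v2_vc0, map_zero]⟩

lemma v2_fin {A : Matrix (Fin (dg K)) (Fin (dg K)) ℝ} (hA : A.det ≠ 0)
    (θ : Par (InfinitePlace K)) (F : (Fin (dg K) → ℤ) → ℂ) :
    Summable fun z => Wt (lamK K) θ (vc A z) * F z := by
  refine summable_of_hasFiniteSupport ?_
  refine (cnt_fin K hA 0 2).subset fun z hz => ?_
  have h1 : Wt (lamK K) θ (vc A z) ≠ 0 := left_ne_zero_of_mul hz
  intro w
  rw [zero_add]
  have h2 := (Wt_supp h1 w).2
  nlinarith [norm_nonneg (lamK K w (vc A z))]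

lemma v2_vc2 (A : Matrix (Fin (dg K)) (Fin (dg K)) ℝ) (y : Fin (dg K) → ℤ) :
    vc A ((2 : ℤ) • y) = vc ((2 : ℝ) • A) y := by
  unfold vc
  congr 1
  have h : cz ((2 : ℤ) • y) = (2 : ℝ) • cz y := by
    funext i
    simp [cz]
  rw [h, Matrix.mulVec_smul, Matrix.smul_mulVec]

lemma v2_split {A : Matrix (Fin (dg K)) (Fin (dg K)) ℝ} (hA : A.det ≠ 0)
    (θ : Par (InfinitePlace K)) : TW (lamK K) θ A (Fw K) =
      ∑' z : Fin (dg K) → ℤ, Wt (lamK K) θ (vc A z) -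
        2 ^ dg K * ∑' y : Fin (dg K) → ℤ, Wt (lamK K) θ (vc ((2 : ℝ) • A) y) := by
  have h1 : ∀ z, Wt (lamK K) θ (vc A z) * Fw K z = Wt (lamK K) θ (vc A z) * F0 K z -
      2 ^ dg K * (Wt (lamK K) θ (vc A z) * F2 K z) := fun z => by
    unfold Fw
    ring
  have h2 : ∀ z, Wt (lamK K) θ (vc A z) * F0 K z = Wt (lamK K) θ (vc A z) := fun z => by
    unfold F0
    split_ifs with hz
    · rw [hz, v2_W0, mul_zero]
    · rw [mul_one]
  have h3 : ∑' z, Wt (lamK K) θ (vc A z) * F2 K z =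
      ∑' y : Fin (dg K) → ℤ, Wt (lamK K) θ (vc ((2 : ℝ) • A) y) := by
    have hinj : Function.Injective fun y : Fin (dg K) → ℤ => (2 : ℤ) • y := by
      intro y y' h
      funext i
      have := congrFun h i
      simpa using this
    rw [← hinj.tsum_eq]
    · refine tsum_congr fun y => ?_
      rw [v2_vc2]
      by_cases hy : y = 0
      · rw [hy, v2_W0, zero_mul]
      · have h4 : F2 K ((2 : ℤ) • y) = 1 := by
          unfold F2
          refine if_pos ⟨fun h0 => hy ?_, y, rfl⟩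
          refine hinj ?_
          simpa using h0
        rw [h4, mul_one]
    · intro z hz
      have h4 : F2 K z ≠ 0 := right_ne_zero_of_mul hz
      unfold F2 at h4
      split_ifs at h4 with h5
      · obtain ⟨-, y, hy⟩ := h5
        exact ⟨y, hy.symm⟩
      · exact absurd rfl h4
  unfold TW
  simp_rw [h1]
  rw [(v2_fin K hA θ (F0 K)).tsum_sub ((v2_fin K hA θ (F2 K)).mul_left _), tsum_mul_left, h3]
  congr 1
  exact tsum_congr h2

lemma v2_du {A : Matrix (Fin (dg K)) (Fin (dg K)) ℝ} (hA : A.det ≠ 0) :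
    du ((2 : ℝ) • A) = (2 : ℝ)⁻¹ • du A := by
  unfold du
  have h : ((2 : ℝ) • A)⁻¹ = (2 : ℝ)⁻¹ • A⁻¹ := by
    refine Matrix.inv_eq_right_inv ?_
    rw [Matrix.smul_mul, Matrix.mul_smul, smul_smul, Matrix.mul_nonsing_inv _ (Ne.isUnit hA)]
    norm_num
  rw [h, Matrix.transpose_smul]

lemma v2_vcs (c : ℝ) (A : Matrix (Fin (dg K)) (Fin (dg K)) ℝ) (y : Fin (dg K) → ℤ) :
    vc (c • A) y = c • vc A y := by
  unfold vc
  rw [Matrix.smul_mulVec]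
  rfl

lemma v2_det {A : Matrix (Fin (dg K)) (Fin (dg K)) ℝ} (hA : A.det ≠ 0) :
    ((2 : ℝ) • A).det ≠ 0 ∧ 2 ^ dg K * Mv ((2 : ℝ) • A) = Mv A := by
  have h1 : ((2 : ℝ) • A).det = 2 ^ dg K * A.det := by
    rw [Matrix.det_smul, Fintype.card_fin]
  refine ⟨by rw [h1]; positivity, ?_⟩
  unfold Mv
  rw [h1, abs_mul, abs_of_pos (by positivity : (0 : ℝ) < 2 ^ dg K), mul_inv]
  field_simp

lemma v2_pois {A : Matrix (Fin (dg K)) (Fin (dg K)) ℝ} (hA : A.det ≠ 0)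
    (θ : Par (InfinitePlace K)) : TW (lamK K) θ A (Fw K) =
      (Mv A : ℂ) * ∑' ζ : Fin (dg K) → ℤ, (FT (Wt (lamK K) θ) (vc (du A) ζ) -
        FT (Wt (lamK K) θ) ((2 : ℝ)⁻¹ • vc (du A) ζ)) := by
  obtain ⟨h1, h2⟩ := v2_det K hA
  obtain ⟨s1, p1⟩ := pois K hA (A11.Wt_sm K θ) (A11.Wt_cs K θ) 0
  obtain ⟨s2, p2⟩ := pois K h1 (A11.Wt_sm K θ) (A11.Wt_cs K θ) 0
  simp only [zero_add, inner_zero_left, e_zero, one_mul] at p1 p2
  have h3 : ∀ ζ, vc (du ((2 : ℝ) • A)) ζ = (2 : ℝ)⁻¹ • vc (du A) ζ := fun ζ => by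
    rw [v2_du K hA, v2_vcs]
  simp_rw [h3] at s2 p2
  rw [v2_split K hA, p1, p2, (Summable.of_norm s1).tsum_sub (Summable.of_norm s2), mul_sub]
  congr 1
  rw [← mul_assoc, ← h2]
  push_cast
  ring

lemma v2_card : Fintype.card (InfinitePlace K) ≤ dg K := by
  have h := InfinitePlace.sum_mult_eq (K := K)
  unfold dg
  rw [← h, ← Finset.card_univ, Finset.card_eq_sum_ones]
  exact sum_le_sum fun w _ => NumberField.InfinitePlace.mult_pos

lemma v2_cp (θ : Par (InfinitePlace K)) (w : InfinitePlace K) :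
    1 + ‖cp (tp K w) (θ.1 w) (θ.2 w)‖ ≤ Tp θ := by
  unfold Tp
  have h1 : |(θ.1 w : ℝ)| + |θ.2 w| ≤ ∑ w, (|(θ.1 w : ℝ)| + |θ.2 w|) :=
    single_le_sum (f := fun w => |(θ.1 w : ℝ)| + |θ.2 w|) (fun _ _ => by positivity) (mem_univ w)
  have h2 : ‖cp (tp K w) (θ.1 w) (θ.2 w)‖ ≤ |(θ.1 w : ℝ)| + |θ.2 w| := by
    cases tp K w with
    | true =>
      simp only [cp, Complex.norm_real, Real.norm_eq_abs]
      have := abs_nonneg (θ.1 w : ℝ)
      linarith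
    | false =>
      simp only [cp]
      refine (norm_sub_le _ _).trans ?_
      rw [norm_mul, Complex.norm_I, mul_one, Complex.norm_real, Real.norm_eq_abs,
        Complex.norm_intCast]
      linarith
  linarith

/-- the decay of the Fourier transform -/
lemma v2_FT (M : ℕ) : ∃ C : ℝ, 0 < C ∧ ∀ (θ : Par (InfinitePlace K)) (ξ : EK K),
    ‖FT (Wt (lamK K) θ) ξ‖ ≤ C * Tp θ ^ (M * dg K) * ∏ w, ((1 + ‖lamK K w ξ‖) ^ M)⁻¹ := by
  obtain ⟨c, hc, hFT⟩ := FT_prod K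
  have hex := fun w : InfinitePlace K => dec0 (tp K w) A11.b0_TB.CIg M
  choose C hC0 hC using hex
  refine ⟨c * ∏ w, C w, mul_pos hc (prod_pos fun w _ => hC0 w), fun θ ξ => ?_⟩
  have h1 : FT (Wt (lamK K) θ) ξ = (c : ℂ) * ∏ w, FL (tp K w)
      (fun z => uu (θ.1 w) (θ.2 w) z * ((bmp (‖z‖ ^ 2) : ℝ) : ℂ)) (lamK K w ξ) :=
    hFT (fun w z => uu (θ.1 w) (θ.2 w) z * ((bmp (‖z‖ ^ 2) : ℝ) : ℂ)) ξ
  have hT := Tp_one θ
  have h2 : ∀ w, ‖FL (tp K w) (fun z => uu (θ.1 w) (θ.2 w) z * ((bmp (‖z‖ ^ 2) : ℝ) : ℂ))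
      (lamK K w ξ)‖ ≤ C w * Tp θ ^ M * ((1 + ‖lamK K w ξ‖) ^ M)⁻¹ := by
    intro w
    have h3 := hC w (θ.1 w) (θ.2 w) (lamK K w ξ) (lamK_Rl K ξ w)
    have h4 : (1 + ‖cp (tp K w) (θ.1 w) (θ.2 w)‖) ^ M ≤ Tp θ ^ M :=
      pow_le_pow_left₀ (by positivity) (v2_cp K θ w) M
    rw [← div_eq_mul_inv, le_div_iff₀ (by positivity), mul_comm]
    exact h3.trans (mul_le_mul_of_nonneg_left h4 (hC0 w).le)
  rw [h1, norm_mul, norm_prod, Complex.norm_real, Real.norm_of_nonneg hc.le]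
  calc c * ∏ w, ‖FL (tp K w) (fun z => uu (θ.1 w) (θ.2 w) z * ((bmp (‖z‖ ^ 2) : ℝ) : ℂ))
        (lamK K w ξ)‖
      ≤ c * ∏ w, (C w * Tp θ ^ M * ((1 + ‖lamK K w ξ‖) ^ M)⁻¹) :=
        mul_le_mul_of_nonneg_left (prod_le_prod (fun _ _ => norm_nonneg _) fun w _ => h2 w) hc.le
    _ = c * (∏ w, C w) * Tp θ ^ (M * Fintype.card (InfinitePlace K)) *
          ∏ w, ((1 + ‖lamK K w ξ‖) ^ M)⁻¹ := by
        rw [prod_mul_distrib, prod_mul_distrib, prod_const, card_univ, ← pow_mul]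
        ring
    _ ≤ c * (∏ w, C w) * Tp θ ^ (M * dg K) * ∏ w, ((1 + ‖lamK K w ξ‖) ^ M)⁻¹ := by
        refine mul_le_mul_of_nonneg_right (mul_le_mul_of_nonneg_left ?_ ?_) ?_
        · exact pow_le_pow_right₀ hT (Nat.mul_le_mul_left _ (v2_card K))
        · exact (mul_pos hc (prod_pos fun w _ => hC0 w)).le
        · exact prod_nonneg fun w _ => by positivity

/-- the lower bound for the norms of the dual lattice points -/
lemma v2_low (B : ℝ) : ∃ C : ℝ, 0 < C ∧ ∀ A, GB K B A → ∀ (R : ℝ), 1 ≤ R →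
    ∀ ζ : Fin (dg K) → ℤ, ζ ≠ 0 →
    Mv A ≤ C * R ^ dg K * ∏ w, (1 + ‖lamK K w (vc (du A) ζ)‖ / R) ^ 2 := by
  obtain ⟨C, hC, h⟩ := cnt_ne K B
  refine ⟨C, hC, fun A hA R hR ζ hζ => ?_⟩
  have hR0 : 0 < R := by linarith
  have h1 := h (du A) (GB_du K hA) (fun w => ‖lamK K w (vc (du A) ζ)‖)
    (fun w => norm_pos_iff.2 (lam_ne K B (GB_du K hA) hζ w)) {ζ} (fun z hz => by
      rw [mem_singleton] at hz
      rw [hz]
      exact ⟨hζ, fun w => le_rfl⟩)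
  rw [card_singleton, Nat.cast_one, Mv_du] at h1
  have hM := Mv_pos hA.1
  have h2 : Mv A ≤ C * ∏ w, ‖lamK K w (vc (du A) ζ)‖ ^ mult w := by
    have h3 := mul_le_mul_of_nonneg_left h1 hM.le
    rw [mul_one] at h3
    refine h3.trans (le_of_eq ?_)
    field_simp
  refine h2.trans ?_
  rw [mul_assoc]
  refine mul_le_mul_of_nonneg_left ?_ hC.le
  have h4 : R ^ dg K = ∏ w : InfinitePlace K, R ^ mult w := by
    rw [prod_pow_eq_pow_sum, InfinitePlace.sum_mult_eq]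
  rw [h4, ← prod_mul_distrib]
  refine prod_le_prod (fun _ _ => by positivity) fun w _ => ?_
  set x := ‖lamK K w (vc (du A) ζ)‖ with hx
  have hx0 : 0 ≤ x := norm_nonneg _
  have h5 : x ^ mult w = R ^ mult w * (x / R) ^ mult w := by
    rw [← mul_pow]
    congr 1
    field_simp
  rw [h5]
  refine mul_le_mul_of_nonneg_left ?_ (by positivity)
  have h6 : mult w ≤ 2 := by
    unfold mult
    split_ifs <;> norm_num
  calc (x / R) ^ mult w ≤ (1 + x / R) ^ mult w :=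
        pow_le_pow_left₀ (by positivity) (by linarith) _
    _ ≤ (1 + x / R) ^ 2 := pow_le_pow_right₀ (by
        have : 0 ≤ x / R := by positivity
        linarith) h6

/-- the bound for one term -/
lemma v2_term (B : ℝ) (N : ℕ) (R : ℝ) (hR : 1 ≤ R) : ∃ C : ℝ, 0 < C ∧ ∀ A, GB K B A →
    ∀ (θ : Par (InfinitePlace K)) (ζ : Fin (dg K) → ℤ), ζ ≠ 0 →
    ‖FT (Wt (lamK K) θ) (R⁻¹ • vc (du A) ζ)‖ * Mv A ^ (N + 1) ≤
      C * Tp θ ^ ((2 * (N + 1) + (dg K + 1)) * dg K) *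
        ∏ w, ((1 + ‖lamK K w (0 + vc (du A) ζ)‖ / R) ^ (dg K + 1))⁻¹ := by
  obtain ⟨C1, hC1, h1⟩ := v2_FT K (2 * (N + 1) + (dg K + 1))
  obtain ⟨C2, hC2, h2⟩ := v2_low K B
  have hR0 : 0 < R := by linarith
  refine ⟨C1 * (C2 * R ^ dg K) ^ (N + 1), by positivity, fun A hA θ ζ hζ => ?_⟩
  have h3 := h1 θ (R⁻¹ • vc (du A) ζ)
  have h4 := h2 A hA R hR ζ hζ
  have hM := Mv_pos hA.1
  have hT := Tp_one θ
  have h5 : ∀ w, ‖lamK K w (R⁻¹ • vc (du A) ζ)‖ = ‖lamK K w (vc (du A) ζ)‖ / R := fun w => by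
    rw [map_smul, norm_smul, Real.norm_of_nonneg (by positivity)]
    field_simp
  simp_rw [h5] at h3
  have h6 : Mv A ^ (N + 1) ≤ (C2 * R ^ dg K) ^ (N + 1) *
      ∏ w, (1 + ‖lamK K w (vc (du A) ζ)‖ / R) ^ (2 * (N + 1)) := by
    calc Mv A ^ (N + 1) ≤ (C2 * R ^ dg K *
          ∏ w, (1 + ‖lamK K w (vc (du A) ζ)‖ / R) ^ 2) ^ (N + 1) := pow_le_pow_left₀ hM.le h4 _
      _ = _ := by
          rw [mul_pow, ← prod_pow]
          congr 1
          exact prod_congr rfl fun w _ => by rw [pow_mul]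
  simp_rw [zero_add]
  have hp : ∀ k : ℕ, 0 < ∏ w, (1 + ‖lamK K w (vc (du A) ζ)‖ / R) ^ k := fun k =>
    prod_pos fun w _ => by positivity
  have h7 : ∏ w, ((1 + ‖lamK K w (vc (du A) ζ)‖ / R) ^ (2 * (N + 1) + (dg K + 1)))⁻¹ =
      (∏ w, (1 + ‖lamK K w (vc (du A) ζ)‖ / R) ^ (2 * (N + 1)))⁻¹ *
        ∏ w, ((1 + ‖lamK K w (vc (du A) ζ)‖ / R) ^ (dg K + 1))⁻¹ := by
    rw [← prod_inv_distrib, ← prod_mul_distrib]
    refine prod_congr rfl fun w _ => ?_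
    rw [pow_add, mul_inv]
  rw [h7] at h3
  have h8 : 0 ≤ ∏ w, ((1 + ‖lamK K w (vc (du A) ζ)‖ / R) ^ (dg K + 1))⁻¹ :=
    prod_nonneg fun w _ => by positivity
  set X := ∏ w, (1 + ‖lamK K w (vc (du A) ζ)‖ / R) ^ (2 * (N + 1)) with hX
  have hX0 : 0 < X := hp _
  calc ‖FT (Wt (lamK K) θ) (R⁻¹ • vc (du A) ζ)‖ * Mv A ^ (N + 1)
      ≤ (C1 * Tp θ ^ ((2 * (N + 1) + (dg K + 1)) * dg K) * (X⁻¹ *
          ∏ w, ((1 + ‖lamK K w (vc (du A) ζ)‖ / R) ^ (dg K + 1))⁻¹)) *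
          ((C2 * R ^ dg K) ^ (N + 1) * X) :=
        mul_le_mul h3 h6 (by positivity) (by positivity)
    _ = _ := by
        field_simp

end v2

theorem unr_tail (K : Type) [Field K] [NumberField K] {B : ℝ} (hB1 : 1 ≤ B) : ∃ a : ℕ, ∀ N : ℕ,
    ∃ C : ℝ, 0 < C ∧ ∀ A, GB K B A → 1 ≤ Mv A → ∀ θ : Par (InfinitePlace K),
    ‖TW (lamK K) θ A (Fw K)‖ * Mv A ^ N ≤ C * Tp θ ^ (3 * dg K * N + a) := by
  refine ⟨dg K * (dg K + 3), fun N => ?_⟩
  obtain ⟨C1, hC1, h1⟩ := v2_term K B N 1 le_rfl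
  obtain ⟨C2, hC2, h2⟩ := v2_term K B N 2 (by norm_num)
  obtain ⟨C3, hC3, h3⟩ := sum_dec K B (dg K + 1) le_rfl
  refine ⟨(C1 + C2) * (C3 * (1 + 2 ^ dg K) + C3 * (1 + 2 ^ dg K)), by positivity,
    fun A hA hM θ => ?_⟩
  have hT := Tp_one θ
  have hM0 : 0 < Mv A := Mv_pos hA.1
  set E := (2 * (N + 1) + (dg K + 1)) * dg K with hE
  obtain ⟨s1, t1⟩ := h3 (du A) (GB_du K hA) 0 (fun _ => 1) (fun _ => one_pos)
  obtain ⟨s2, t2⟩ := h3 (du A) (GB_du K hA) 0 (fun _ => 2) (fun _ => two_pos)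
  set u : (Fin (dg K) → ℤ) → ℝ := fun ζ => ∏ w, ((1 + ‖lamK K w (0 + vc (du A) ζ)‖ / 1) ^
    (dg K + 1))⁻¹ with hu
  set v : (Fin (dg K) → ℤ) → ℝ := fun ζ => ∏ w, ((1 + ‖lamK K w (0 + vc (du A) ζ)‖ / 2) ^
    (dg K + 1))⁻¹ with hv
  have hu0 : ∀ ζ, 0 ≤ u ζ := fun ζ => prod_nonneg fun w _ => by positivity
  have hv0 : ∀ ζ, 0 ≤ v ζ := fun ζ => prod_nonneg fun w _ => by positivity
  have hMd : Mv (du A) ≤ 1 := by
    rw [Mv_du]
    exact inv_le_one_of_one_le₀ hM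
  have hMd0 : 0 ≤ Mv (du A) := by
    rw [Mv_du]
    positivity
  have hn2 : (1 : ℝ) ≤ 2 ^ dg K := one_le_pow₀ (by norm_num)
  have t1' : ∑' ζ, u ζ ≤ C3 * (1 + 2 ^ dg K) := by
    refine t1.trans (mul_le_mul_of_nonneg_left ?_ hC3.le)
    simp only [one_pow, prod_const_one, mul_one]
    linarith
  have t2' : ∑' ζ, v ζ ≤ C3 * (1 + 2 ^ dg K) := by
    refine t2.trans (mul_le_mul_of_nonneg_left ?_ hC3.le)
    have h4 : ∏ w : InfinitePlace K, (2 : ℝ) ^ mult w = 2 ^ dg K := by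
      rw [prod_pow_eq_pow_sum, InfinitePlace.sum_mult_eq]
    rw [h4]
    nlinarith
  set D := (C1 + C2) * Tp θ ^ E / Mv A ^ (N + 1) with hD
  have hD0 : 0 ≤ D := by positivity
  have hs := ((s1.add s2).mul_left D).hasSum
  have hb : ∀ ζ : Fin (dg K) → ℤ, ‖FT (Wt (lamK K) θ) (vc (du A) ζ) -
      FT (Wt (lamK K) θ) ((2 : ℝ)⁻¹ • vc (du A) ζ)‖ ≤ D * (u ζ + v ζ) := by
    intro ζ
    by_cases hζ : ζ = 0
    · rw [hζ, v2_vc0, smul_zero, sub_self, norm_zero]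
      exact mul_nonneg hD0 (add_nonneg (hu0 _) (hv0 _))
    · refine (norm_sub_le _ _).trans ?_
      have e1 := h1 A hA θ ζ hζ
      have e2 := h2 A hA θ ζ hζ
      rw [inv_one, one_smul] at e1
      have e3 : D * (u ζ + v ζ) = ((C1 + C2) * Tp θ ^ E * (u ζ + v ζ)) / Mv A ^ (N + 1) := by
        rw [hD]; ring
      rw [e3, le_div_iff₀ (by positivity), add_mul]
      have hTE : 0 < Tp θ ^ E := by positivity
      have e4 : C1 * Tp θ ^ E * u ζ ≤ (C1 + C2) * Tp θ ^ E * u ζ :=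
        mul_le_mul_of_nonneg_right (mul_le_mul_of_nonneg_right (by linarith) hTE.le) (hu0 ζ)
      have e5 : C2 * Tp θ ^ E * v ζ ≤ (C1 + C2) * Tp θ ^ E * v ζ :=
        mul_le_mul_of_nonneg_right (mul_le_mul_of_nonneg_right (by linarith) hTE.le) (hv0 ζ)
      have e6 : (C1 + C2) * Tp θ ^ E * (u ζ + v ζ) =
          (C1 + C2) * Tp θ ^ E * u ζ + (C1 + C2) * Tp θ ^ E * v ζ := by ring
      rw [e6]
      exact add_le_add (e1.trans e4) (e2.trans e5)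
  have hnorm := tsum_of_norm_bounded hs hb
  rw [tsum_mul_left, (s1.tsum_add s2)] at hnorm
  rw [v2_pois K hA.1 θ, norm_mul, Complex.norm_real, Real.norm_of_nonneg hM0.le]
  set S := ‖∑' ζ : Fin (dg K) → ℤ, (FT (Wt (lamK K) θ) (vc (du A) ζ) -
        FT (Wt (lamK K) θ) ((2 : ℝ)⁻¹ • vc (du A) ζ))‖ with hS
  have hexp : E ≤ 3 * dg K * N + dg K * (dg K + 3) := by
    rw [hE]
    have : (2 * (N + 1) + (dg K + 1)) * dg K = 2 * (dg K * N) + dg K * (dg K + 3) := by ring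
    rw [this]
    have : 3 * dg K * N = 3 * (dg K * N) := by ring
    rw [this]
    omega
  calc Mv A * S * Mv A ^ N = S * Mv A ^ (N + 1) := by ring
    _ ≤ (D * (∑' ζ, u ζ + ∑' ζ, v ζ)) * Mv A ^ (N + 1) :=
        mul_le_mul_of_nonneg_right hnorm (by positivity)
    _ = (C1 + C2) * Tp θ ^ E * (∑' ζ, u ζ + ∑' ζ, v ζ) := by
        rw [hD]
        field_simp
    _ ≤ (C1 + C2) * Tp θ ^ E * (C3 * (1 + 2 ^ dg K) + C3 * (1 + 2 ^ dg K)) :=
        mul_le_mul_of_nonneg_left (add_le_add t1' t2') (by positivity)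
    _ = (C1 + C2) * (C3 * (1 + 2 ^ dg K) + C3 * (1 + 2 ^ dg K)) * Tp θ ^ E := by ring
    _ ≤ _ := mul_le_mul_of_nonneg_left (pow_le_pow_right₀ hT hexp) (by positivity)

end Pool.Agent.T2H29.TA
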