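import Pool.Agent.T2H29.TA.V1
import Pool.Agent.T2H29.TA.V2

/-!
# Unramified characters: the bound
-/

set_option autoImplicit false
set_option linter.unusedSectionVars false

namespace Pool.Agent.T2H29.TA

open Finset NumberField NumberField.InfinitePlace Module MeasureTheory NumberField.Units
open Pool.Agent.T2H29.SW
open scoped RealInnerProductSpace ContDiff nonZeroDivisors

section
variable {K : Type} [Field K] [NumberField K]

lemma v3_F0_zero : F0 K 0 = 0 := by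
  unfold F0
  simp

lemma v3_F2_zero : F2 K 0 = 0 := by
  unfold F2
  simp

lemma v3_Fw_zero : Fw K 0 = 0 := by
  unfold Fw
  rw [v3_F0_zero, v3_F2_zero]
  simp

lemma v3_F0_le (z : Fin (dg K) → ℤ) : ‖F0 K z‖ ≤ 1 := by
  unfold F0
  split_ifs <;> simp

lemma v3_F2_le (z : Fin (dg K) → ℤ) : ‖F2 K z‖ ≤ 1 := by
  unfold F2
  split_ifs <;> simp

lemma v3_Fw_le (z : Fin (dg K) → ℤ) : ‖Fw K z‖ ≤ 2 ^ dg K := by
  have hn : 1 ≤ dg K := NeZero.one_le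
  have h2 : (2 : ℝ) ≤ 2 ^ dg K := by
    calc (2 : ℝ) = 2 ^ 1 := (pow_one _).symm
      _ ≤ 2 ^ dg K := pow_le_pow_right₀ one_le_two hn
  by_cases h0 : z = 0
  · rw [h0, v3_Fw_zero, norm_zero]
    positivity
  · have e0 : F0 K z = 1 := by
      unfold F0
      rw [if_neg h0]
    by_cases h1 : ∃ y, z = (2 : ℤ) • y
    · have e2 : F2 K z = 1 := by
        unfold F2
        rw [if_pos ⟨h0, h1⟩]
      unfold Fw
      rw [e0, e2, mul_one]
      have e3 : (1 : ℂ) - 2 ^ dg K = (((1 : ℝ) - 2 ^ dg K : ℝ) : ℂ) := by push_cast; rfl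
      rw [e3, Complex.norm_real, Real.norm_eq_abs, abs_of_nonpos (by linarith)]
      linarith
    · have e2 : F2 K z = 0 := by
        unfold F2
        rw [if_neg (fun h => h1 h.2)]
      unfold Fw
      rw [e0, e2, mul_zero, sub_zero, norm_one]
      linarith

lemma v3_Wt0 (θ : Par (InfinitePlace K)) (A : Matrix (Fin (dg K)) (Fin (dg K)) ℝ) :
    Wt (lamK K) θ (vc A 0) = 0 := by
  by_contra h
  have h1 := (Wt_supp h (Classical.arbitrary _)).1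
  have e1 : vc A (0 : Fin (dg K) → ℤ) = 0 := by
    unfold vc
    have : cz (0 : Fin (dg K) → ℤ) = 0 := by
      funext i
      simp [cz]
    rw [this, Matrix.mulVec_zero]
    rfl
  rw [e1, map_zero, norm_zero] at h1
  norm_num at h1

lemma v3_vc2 (A : Matrix (Fin (dg K)) (Fin (dg K)) ℝ) (y : Fin (dg K) → ℤ) :
    vc (Ds K (fun _ => Real.log 2) * A) y = vc A ((2 : ℤ) • y) := by
  unfold vc
  congr 1
  funext i
  rw [A1_Ds_mulVec]
  rw [Real.exp_log two_pos]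
  have : cz ((2 : ℤ) • y) = (2 : ℝ) • cz y := by
    funext j
    simp [cz]
  rw [this, Matrix.mulVec_smul]
  rfl

/-- the two sums -/
lemma v3_split {B : ℝ} (hB : CBI K B) {I : Ideal (𝓞 K)} (hI : I ≠ ⊥)
    (b : Basis (Fin (dg K)) ℤ I) (θ : Par (InfinitePlace K)) (x : LS K) :
    ThW b θ (Fw K) x = (∑' z : Fin (dg K) → ℤ, Wt (lamK K) θ (vc (AX b x) z)) -
      2 ^ dg K * ∑' z : Fin (dg K) → ℤ, Wt (lamK K) θ
        (vc (Ds K (fun _ => Real.log 2) * AX b x) z) := by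
  have hs0 := (ThW_triv (θ := θ) hI (hB I hI b) v3_F0_zero (v3_F0_le (K := K)) x).1
  have hs2 := (ThW_triv (θ := θ) hI (hB I hI b) v3_F2_zero (v3_F2_le (K := K)) x).1
  have e1 : ∀ z : Fin (dg K) → ℤ, Wt (lamK K) θ (vc (AX b x) z) * F0 K z =
      Wt (lamK K) θ (vc (AX b x) z) := by
    intro z
    by_cases h0 : z = 0
    · rw [h0, v3_Wt0, zero_mul]
    · unfold F0
      rw [if_neg h0, mul_one]
  have e2 : ∑' z : Fin (dg K) → ℤ, Wt (lamK K) θ (vc (AX b x) z) * F2 K z =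
      ∑' z : Fin (dg K) → ℤ, Wt (lamK K) θ (vc (Ds K (fun _ => Real.log 2) * AX b x) z) := by
    have hinj : Function.Injective fun y : Fin (dg K) → ℤ => (2 : ℤ) • y := by
      intro y y' h
      funext i
      have := congrFun h i
      simp only [Pi.smul_apply, smul_eq_mul] at this
      omega
    rw [← hinj.tsum_eq (f := fun z => Wt (lamK K) θ (vc (AX b x) z) * F2 K z) ?_]
    · refine tsum_congr fun y => ?_
      rw [v3_vc2]
      by_cases h0 : y = 0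
      · rw [h0, smul_zero, v3_Wt0, zero_mul]
      · unfold F2
        rw [if_pos, mul_one]
        refine ⟨fun h => h0 ?_, y, rfl⟩
        exact hinj (by simpa using h)
    · intro z hz
      rw [Function.mem_support] at hz
      by_contra hcon
      apply hz
      unfold F2
      rw [if_neg, mul_zero]
      rintro ⟨-, y, hy⟩
      exact hcon ⟨y, hy.symm⟩
  have e3 : ThW b θ (Fw K) x = ∑' z : Fin (dg K) → ℤ, (Wt (lamK K) θ (vc (AX b x) z) * F0 K z -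
      2 ^ dg K * (Wt (lamK K) θ (vc (AX b x) z) * F2 K z)) := by
    unfold ThW TW
    refine tsum_congr fun z => ?_
    unfold Fw
    ring
  rw [e3, hs0.tsum_sub (hs2.mul_left _), tsum_mul_left, e2]
  congr 1
  exact tsum_congr e1

/-- trivial bound -/
lemma v3_triv {B : ℝ} (hB : CBI K B) {I : Ideal (𝓞 K)} (hI : I ≠ ⊥)
    (b : Basis (Fin (dg K)) ℤ I) (θ : Par (InfinitePlace K)) (x : LS K) :
    ‖ThW b θ (Fw K) x‖ ≤ 2 ^ dg K * (Real.exp (Real.pi * (3 / 2 * dg K)) * B * ((m0 K)⁻¹ + 1)) *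
      mm I x.2 := by
  have h := (ThW_triv (θ := θ) hI (hB I hI b) v3_Fw_zero (v3_Fw_le (K := K)) x).2
  rwa [← mul_assoc] at h

lemma v3_bd2 {B : ℝ} (hB1 : 1 ≤ B) (hB : CBI K B) {I : Ideal (𝓞 K)} (hI : I ≠ ⊥)
    (b : Basis (Fin (dg K)) ℤ I) (θ : Par (InfinitePlace K)) (N : ℕ) :
    ∃ C : ℝ, 0 ≤ C ∧ ∀ x : LS K, ‖ThW b θ (Fw K) x‖ * mm I x.2 ^ N ≤ C := by
  obtain ⟨a, ha⟩ := unr_tail K hB1
  obtain ⟨C1, hC1, h1⟩ := ha N
  have hm0 := m0_pos (K := K)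
  have hT1 := Tp_one θ
  have hB0 : 0 ≤ B := by linarith
  obtain ⟨C2, hC2⟩ : ∃ C2, C2 = (2 : ℝ) ^ dg K *
      (Real.exp (Real.pi * (3 / 2 * dg K)) * B * ((m0 K)⁻¹ + 1)) := ⟨_, rfl⟩
  have hC20 : 0 ≤ C2 := by rw [hC2]; positivity
  refine ⟨C1 * Tp θ ^ (3 * dg K * N + a) + C2, by positivity, fun x => ?_⟩
  have hmm := mm_pos hI x.2
  rcases le_total 1 (mm I x.2) with h2 | h2
  · have h3 := h1 (AX b x) (GB_AX K hB hI b x) (by rw [Mv_AX]; exact h2) θ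
    rw [Mv_AX] at h3
    have h4 : ‖ThW b θ (Fw K) x‖ * mm I x.2 ^ N ≤ C1 * Tp θ ^ (3 * dg K * N + a) := h3
    linarith
  · have h3 := v3_triv hB hI b θ x
    rw [← hC2] at h3
    have h4 : ‖ThW b θ (Fw K) x‖ ≤ C2 := h3.trans (mul_le_of_le_one_right hC20 h2)
    have h5 : mm I x.2 ^ N ≤ 1 := pow_le_one₀ hmm.le h2
    have h6 : ‖ThW b θ (Fw K) x‖ * mm I x.2 ^ N ≤ C2 * 1 :=
      mul_le_mul h4 h5 (by positivity) hC20
    have h7 : 0 ≤ C1 * Tp θ ^ (3 * dg K * N + a) := by positivity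
    linarith

lemma v3_td {B : ℝ} (hB1 : 1 ≤ B) (hB : CBI K B) {I : Ideal (𝓞 K)} (hI : I ≠ ⊥)
    (b : Basis (Fin (dg K)) ℤ I) (θ : Par (InfinitePlace K)) : TD (ThW b θ (Fw K)) := by
  refine ⟨ThW_meas hI (hB I hI b) v3_Fw_zero (v3_Fw_le (K := K)), fun R => ?_⟩
  refine decay_abs hI (fun N => ?_) (v3_bd2 hB1 hB hI b θ) R
  obtain ⟨C, hC0, hC⟩ := v3_bd2 hB1 hB hI b θ 0
  have hm0 := m0_pos (K := K)
  refine ⟨C / m0 K ^ N, by positivity, fun x => ?_⟩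
  have hmm := mm_pos hI x.2
  have h1 := hC x
  rw [pow_zero, mul_one] at h1
  rcases lt_or_ge (mm I x.2) (m0 K) with h2 | h2
  · rw [ThW_zero hI v3_Fw_zero h2, norm_zero]
    positivity
  · rw [div_mul_eq_mul_div, le_div_iff₀ (by positivity)]
    calc ‖ThW b θ (Fw K) x‖ * m0 K ^ N ≤ C * mm I x.2 ^ N :=
          mul_le_mul h1 (pow_le_pow_left₀ hm0.le h2 N) (by positivity) hC0
      _ = _ := rfl

end

/-- the tail -/
lemma v3_tail (K : Type) [Field K] [NumberField K] {B : ℝ} (hB1 : 1 ≤ B) (hB : CBI K B) :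
    ∃ E : ℝ, 0 < E ∧ ∀ (I : Ideal (𝓞 K)) (_ : I ≠ ⊥) (b : Basis (Fin (dg K)) ℤ I)
    (θ : Par (InfinitePlace K)) (x : LS K), Tp θ ^ (4 * dg K) ≤ mm I x.2 →
    ‖ThW b θ (Fw K) x‖ ≤ E * (mm I x.2 / √(Tp θ ^ (4 * dg K)) *
      (Tp θ ^ (4 * dg K) / mm I x.2) ^ 2) := by
  obtain ⟨a, ha⟩ := unr_tail K hB1
  obtain ⟨C1, hC1, h1⟩ := ha (a + 1)
  refine ⟨C1, hC1, fun I hI b θ x hx => ?_⟩
  have hn : 1 ≤ dg K := NeZero.one_le
  have hT1 := Tp_one θ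
  have hmm := mm_pos hI x.2
  obtain ⟨Q, hQ⟩ : ∃ Q, Q = Tp θ ^ (4 * dg K) := ⟨_, rfl⟩
  have hQ1 : 1 ≤ Q := by rw [hQ]; exact one_le_pow₀ hT1
  rw [← hQ] at hx ⊢
  have hQ0 : 0 < Q := by linarith
  have h2 := h1 (AX b x) (GB_AX K hB hI b x) (by rw [Mv_AX]; linarith) θ
  rw [Mv_AX] at h2
  have h3 : ‖ThW b θ (Fw K) x‖ * mm I x.2 ^ (a + 1) ≤ C1 * Tp θ ^ (3 * dg K * (a + 1) + a) := h2
  obtain ⟨M, hM⟩ : ∃ M, M = mm I x.2 := ⟨_, rfl⟩
  obtain ⟨Y, hY⟩ : ∃ Y, Y = ‖ThW b θ (Fw K) x‖ := ⟨_, rfl⟩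
  have hY0 : 0 ≤ Y := by rw [hY]; positivity
  rw [← hM] at hmm hx h3 ⊢
  rw [← hY] at h3 ⊢
  have h4 : Tp θ ^ (3 * dg K * (a + 1) + a) ≤ Q ^ (a + 1) := by
    rw [hQ, ← pow_mul]
    refine pow_le_pow_right₀ hT1 ?_
    have : a ≤ dg K * (a + 1) := by nlinarith
    nlinarith
  have h5 : Y * (M * Q ^ a) ≤ C1 * (Q ^ a * Q) := by
    have h6 : M * Q ^ a ≤ M ^ (a + 1) := by
      rw [pow_succ, mul_comm]
      exact mul_le_mul_of_nonneg_right (pow_le_pow_left₀ hQ0.le hx a) hmm.le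
    calc Y * (M * Q ^ a) ≤ Y * M ^ (a + 1) := mul_le_mul_of_nonneg_left h6 hY0
      _ ≤ C1 * Tp θ ^ (3 * dg K * (a + 1) + a) := h3
      _ ≤ C1 * Q ^ (a + 1) := mul_le_mul_of_nonneg_left h4 hC1.le
      _ = _ := by rw [pow_succ]
  have h6 : Y * M ≤ C1 * Q := by
    have hQa : 0 < Q ^ a := by positivity
    have h7 : Q ^ a * (Y * M) ≤ Q ^ a * (C1 * Q) := by linarith
    exact le_of_mul_le_mul_left h7 hQa
  have hsQ : 1 ≤ √Q := by rw [Real.one_le_sqrt]; exact hQ1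
  have hss : √Q * √Q = Q := Real.mul_self_sqrt hQ0.le
  have h7 : M / √Q * (Q / M) ^ 2 = Q * √Q / M := by
    have : Q ^ 2 = Q * (√Q * √Q) := by rw [hss]; ring
    rw [div_pow, this]
    field_simp
  rw [h7, mul_div_assoc', le_div_iff₀ hmm]
  calc Y * M ≤ C1 * Q := h6
    _ ≤ C1 * (Q * √Q) := by
        refine mul_le_mul_of_nonneg_left ?_ hC1.le
        exact le_mul_of_one_le_right hQ0.le hsQ

lemma v3_Tp {K : Type} [Field K] [NumberField K] (θ : Par (InfinitePlace K)) (t0 : ℝ) :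
    Tp (shp θ t0) ≤ Tp θ + 2 * Fintype.card (InfinitePlace K) * |t0| := by
  unfold Tp shp
  have h2 : ∑ w : InfinitePlace K, (|(θ.1 w : ℝ)| + |θ.2 w - mult w * t0|) ≤
      ∑ w : InfinitePlace K, ((|(θ.1 w : ℝ)| + |θ.2 w|) + 2 * |t0|) := by
    refine sum_le_sum fun w _ => ?_
    have h3 : |θ.2 w - mult w * t0| ≤ |θ.2 w| + 2 * |t0| := by
      refine (abs_sub _ _).trans ?_
      rw [abs_mul]
      have h4 : |(mult w : ℝ)| ≤ 2 := by
        rw [abs_of_nonneg (by positivity)]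
        unfold InfinitePlace.mult
        split_ifs <;> norm_num
      have := mul_le_mul_of_nonneg_right h4 (abs_nonneg t0)
      linarith
    linarith
  have h3 : ∑ w : InfinitePlace K, ((|(θ.1 w : ℝ)| + |θ.2 w|) + 2 * |t0|) =
      ∑ w : InfinitePlace K, (|(θ.1 w : ℝ)| + |θ.2 w|) +
        2 * Fintype.card (InfinitePlace K) * |t0| := by
    rw [sum_add_distrib, sum_const, card_univ, nsmul_eq_mul]
    ring
  rw [h3] at h2
  linarith

/-- the middle range -/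
lemma v3_mid (K : Type) [Field K] [NumberField K] {B : ℝ} (hB : CBI K B)
    (h : CoreD K B) : ∃ C T0 : ℝ, 0 < C ∧ 1 ≤ T0 ∧ ∀ (I : Ideal (𝓞 K)) (_ : I ≠ ⊥)
    (b : Basis (Fin (dg K)) ℤ I) (θ : Par (InfinitePlace K)) (x : LS K) (T : ℝ), T0 ≤ T →
    (∀ w, T / 2 ≤ |θ.2 w| ∧ ‖cp (tp K w) (θ.1 w) (θ.2 w)‖ ≤ 4 * T) →
    m0 K ≤ mm I x.2 → mm I x.2 ≤ T ^ (5 * (dg K : ℝ)) →
    ‖ThW b θ (Fw K) x‖ ≤ C * T ^ ((dg K : ℝ) / 6 - 1 / 3500) * √(mm I x.2) := by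
  obtain ⟨C, T0, hC0, hT0, hC⟩ := h
  have hm0 := m0_pos (K := K)
  have hsm : 0 < √(m0 K) := Real.sqrt_pos.2 hm0
  obtain ⟨c1, hc1⟩ : ∃ c1, c1 = (√(m0 K))⁻¹ + 1 := ⟨_, rfl⟩
  have hc10 : 0 < c1 := by rw [hc1]; positivity
  refine ⟨(1 + 2 ^ dg K) * (C * c1), T0, by positivity, hT0,
    fun I hI b θ x T hT hθ hx1 hx2 => ?_⟩
  have hmm := mm_pos hI x.2
  have hA := GB_AX K hB hI b x
  have hA2 := GB_Ds K hA (fun _ => Real.log 2)
  have hT00 : 0 < T := by linarith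
  obtain ⟨R, hR⟩ : ∃ R, R = T ^ ((dg K : ℝ) / 6 - 1 / 3500) := ⟨_, rfl⟩
  have hR0 : 0 < R := by rw [hR]; positivity
  have h1 := hC (AX b x) hA 0 θ T hT hθ (by rw [Mv_AX]; exact hx2)
  have hMv2 : Mv (Ds K (fun _ => Real.log 2) * AX b x) ≤ mm I x.2 := by
    rw [Mv_Ds, Mv_AX]
    refine mul_le_of_le_one_right hmm.le ?_
    rw [Real.exp_le_one_iff]
    have : 0 ≤ ∑ w : InfinitePlace K, (mult w : ℝ) * Real.log 2 :=
      sum_nonneg fun w _ => mul_nonneg (by positivity) (Real.log_nonneg one_le_two)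
    linarith
  have h2 := hC (Ds K (fun _ => Real.log 2) * AX b x) hA2 0 θ T hT hθ (hMv2.trans hx2)
  simp only [zero_add] at h1 h2
  rw [Mv_AX] at h1
  rw [← hR] at h1 h2 ⊢
  have hsmm : √(m0 K) ≤ √(mm I x.2) := Real.sqrt_le_sqrt hx1
  have h3 : 1 + √(mm I x.2) ≤ c1 * √(mm I x.2) := by
    have h4 : 1 ≤ (√(m0 K))⁻¹ * √(mm I x.2) := by
      rw [le_inv_mul_iff₀ hsm, mul_one]; exact hsmm
    rw [hc1]
    linarith
  have h4 : 1 + √(Mv (Ds K (fun _ => Real.log 2) * AX b x)) ≤ c1 * √(mm I x.2) := by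
    have := Real.sqrt_le_sqrt hMv2
    linarith
  rw [v3_split hB hI]
  refine (norm_sub_le _ _).trans ?_
  rw [norm_mul]
  have e1 : ‖(2 : ℂ) ^ dg K‖ = 2 ^ dg K := by
    rw [norm_pow]
    norm_num
  rw [e1]
  have h5 := h1.trans (mul_le_mul_of_nonneg_right (mul_le_mul_of_nonneg_left h3 hC0.le) hR0.le)
  have h6 := h2.trans (mul_le_mul_of_nonneg_right (mul_le_mul_of_nonneg_left h4 hC0.le) hR0.le)
  have h7 := mul_le_mul_of_nonneg_left h6 (by positivity : (0 : ℝ) ≤ 2 ^ dg K)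
  calc _ ≤ C * (c1 * √(mm I x.2)) * R + 2 ^ dg K * (C * (c1 * √(mm I x.2)) * R) := add_le_add h5 h7
    _ = _ := by ring

/-- large parameters -/
lemma v3_A (K : Type) [Field K] [NumberField K] {B : ℝ} (hB1 : 1 ≤ B) (hB : CBI K B)
    (h : CoreD K B) : ∃ C T0 : ℝ, 0 < C ∧ 1 ≤ T0 ∧ ∀ (I : Ideal (𝓞 K)) (_ : I ≠ ⊥)
    (b : Basis (Fin (dg K)) ℤ I) (θ : Par (InfinitePlace K)) (t : ℝ)
    (τ : InfinitePlace K → ℝ) (s : ℂ), s.re = 1 / 2 → T0 ≤ |t| → 2 * Tp θ ≤ |t| →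
    √(Ideal.absNorm I) * ‖LamT τ (ThW b (shp θ t) (Fw K)) s‖ ≤
      C * (1 + |t|) ^ ((dg K : ℝ) / 6 - 1 / 4000) := by
  obtain ⟨C1, T1, hC1, hT1, hmid⟩ := v3_mid K hB h
  obtain ⟨E, hE, htail⟩ := v3_tail K hB1 hB
  have hn1 : (1 : ℝ) ≤ dg K := by exact_mod_cast NeZero.pos (dg K)
  have hn0 : (0 : ℝ) < dg K := by linarith
  have hcK := cK_pos K
  have hscK : 0 < √(cK K) := Real.sqrt_pos.2 hcK
  obtain ⟨c0, hc0⟩ : ∃ c0 : ℝ, c0 = 1 + 2 * Fintype.card (InfinitePlace K) := ⟨_, rfl⟩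
  have hc01 : 1 ≤ c0 := by
    rw [hc0]
    have : (0 : ℝ) ≤ Fintype.card (InfinitePlace K) := by positivity
    linarith
  obtain ⟨l0, hl0⟩ : ∃ l0, l0 = |Real.log (m0 K)| := ⟨_, rfl⟩
  have hl00 : 0 ≤ l0 := by rw [hl0]; positivity
  refine ⟨(√(cK K))⁻¹ * (C1 * (280000 + 2 * l0) + E * 8), max T1 (c0 ^ 4), by positivity,
    le_max_of_le_left hT1, fun I hI b θ t τ s hs ht1 ht2 => ?_⟩
  obtain ⟨T, hT⟩ : ∃ T, T = |t| := ⟨_, rfl⟩
  rw [← hT] at ht1 ht2 ⊢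
  have hTT1 : T1 ≤ T := (le_max_left _ _).trans ht1
  have hTc : c0 ^ 4 ≤ T := (le_max_right _ _).trans ht1
  have hT1' : 1 ≤ T := hT1.trans hTT1
  have hT0 : 0 < T := by linarith
  obtain ⟨θ', hθ'⟩ : ∃ θ' : Par (InfinitePlace K), θ' = shp θ t := ⟨_, rfl⟩
  have hTp1 := Tp_one θ
  have hTp' := Tp_one θ'
  have hTps : Tp θ' ≤ c0 * T := by
    rw [hθ']
    refine (v3_Tp θ t).trans ?_
    rw [← hT, hc0]
    have : 0 ≤ 2 * (Fintype.card (InfinitePlace K) : ℝ) * T := by positivity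
    linarith
  obtain ⟨Q, hQ⟩ : ∃ Q, Q = Tp θ' ^ (4 * dg K) := ⟨_, rfl⟩
  have hQ1 : 1 ≤ Q := by rw [hQ]; exact one_le_pow₀ hTp'
  have hQ0 : 0 < Q := by linarith
  have hQT : Q ≤ T ^ (5 * (dg K : ℝ)) := by
    have e1 : T ^ (5 * (dg K : ℝ)) = (T ^ 5) ^ dg K := by
      rw [← pow_mul, ← Real.rpow_natCast]
      push_cast
      rfl
    rw [e1, hQ, pow_mul]
    refine pow_le_pow_left₀ (by positivity) ?_ _
    calc Tp θ' ^ 4 ≤ (c0 * T) ^ 4 := pow_le_pow_left₀ (by linarith) hTps 4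
      _ = c0 ^ 4 * T ^ 4 := by ring
      _ ≤ T * T ^ 4 := mul_le_mul_of_nonneg_right hTc (by positivity)
      _ = T ^ 5 := by ring
  have hcond : ∀ w, T / 2 ≤ |θ'.2 w| ∧ ‖cp (tp K w) (θ'.1 w) (θ'.2 w)‖ ≤ 4 * T := by
    intro w
    have hw : |(θ.1 w : ℝ)| + |θ.2 w| ≤ Tp θ := by
      unfold Tp
      have := single_le_sum (f := fun w => |(θ.1 w : ℝ)| + |θ.2 w|) (fun w _ => by positivity)
        (mem_univ w)
      linarith
    have hk0 := abs_nonneg (θ.1 w : ℝ)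
    have ht0 := abs_nonneg (θ.2 w)
    have e1 : θ'.1 w = θ.1 w := by rw [hθ']; rfl
    have e2 : θ'.2 w = θ.2 w - mult w * t := by rw [hθ']; rfl
    have hm1 : (1 : ℝ) ≤ mult w := by exact_mod_cast (mult_pos (w := w))
    have hm2 : (mult w : ℝ) ≤ 2 := by
      unfold InfinitePlace.mult
      split_ifs <;> norm_num
    have e3 : |(mult w : ℝ) * t| = mult w * T := by
      rw [abs_mul, abs_of_nonneg (by linarith), hT]
    have hlow : T / 2 ≤ |θ'.2 w| := by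
      rw [e2]
      have h3 := abs_sub_abs_le_abs_sub ((mult w : ℝ) * t) (θ.2 w)
      rw [e3, abs_sub_comm] at h3
      have h4 : T ≤ mult w * T := le_mul_of_one_le_left hT0.le hm1
      linarith
    have hup : |θ'.2 w| ≤ |θ.2 w| + 2 * T := by
      rw [e2]
      refine (abs_sub _ _).trans ?_
      rw [e3]
      have := mul_le_mul_of_nonneg_right hm2 hT0.le
      linarith
    refine ⟨hlow, ?_⟩
    have h5 : ‖cp (tp K w) (θ'.1 w) (θ'.2 w)‖ ≤ |(θ'.1 w : ℝ)| + |θ'.2 w| := by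
      cases tp K w
      · show ‖((θ'.2 w : ℝ) : ℂ) - (θ'.1 w : ℂ) * Complex.I‖ ≤ _
        refine (norm_sub_le _ _).trans ?_
        rw [norm_mul, Complex.norm_I, mul_one, Complex.norm_real, Real.norm_eq_abs,
          Complex.norm_intCast]
        linarith
      · show ‖((θ'.2 w : ℝ) : ℂ)‖ ≤ _
        rw [Complex.norm_real, Real.norm_eq_abs]
        have := abs_nonneg (θ'.1 w : ℝ)
        linarith
    rw [e1] at h5
    rw [e1]
    linarith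
  obtain ⟨R, hR⟩ : ∃ R, R = T ^ ((dg K : ℝ) / 6 - 1 / 3500) := ⟨_, rfl⟩
  have hR0 : 0 < R := by rw [hR]; positivity
  have hG0 : 0 ≤ C1 * R := by positivity
  have hcr := LamT_crit hG0 hE.le hQ1 hI (v3_td hB1 hB hI b θ')
    (fun x hx => ThW_zero hI v3_Fw_zero hx)
    (fun x hx1 hx2 => by
      have := hmid I hI b θ' x T hTT1 hcond hx1 (hx2.trans hQT)
      rwa [← hR] at this)
    (fun x hx => by
      have := htail I hI b θ' x (by rw [← hQ]; exact hx)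
      rwa [← hQ] at this) τ hs
  rw [← hθ']
  refine hcr.trans ?_
  rw [mul_assoc ((√(cK K))⁻¹)]
  refine mul_le_mul_of_nonneg_left ?_ (by positivity)
  obtain ⟨S, hS⟩ : ∃ S, S = T ^ ((dg K : ℝ) / 6 - 1 / 4000) := ⟨_, rfl⟩
  have hS0 : 0 < S := by rw [hS]; positivity
  have he : 0 ≤ (dg K : ℝ) / 6 - 1 / 4000 := by linarith
  have hS1 : 1 ≤ S := by rw [hS]; exact Real.one_le_rpow hT1' he
  have hSle : S ≤ (1 + T) ^ ((dg K : ℝ) / 6 - 1 / 4000) := by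
    rw [hS]
    exact Real.rpow_le_rpow hT0.le (by linarith) he
  have hRS : R ≤ S := by
    rw [hR, hS]
    exact Real.rpow_le_rpow_of_exponent_le hT1' (by linarith)
  have hlogT : R * Real.log T ≤ 28000 * S := by
    have h1 := Real.log_le_rpow_div hT0.le (by norm_num : (0 : ℝ) < 1 / 28000)
    have h2 : R * T ^ (1 / 28000 : ℝ) = S := by
      rw [hR, hS, ← Real.rpow_add hT0]
      congr 1
      ring
    calc R * Real.log T ≤ R * (T ^ (1 / 28000 : ℝ) / (1 / 28000)) :=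
          mul_le_mul_of_nonneg_left h1 hR0.le
      _ = 28000 * (R * T ^ (1 / 28000 : ℝ)) := by ring
      _ = _ := by rw [h2]
  have hlogQ : 2 / (dg K : ℝ) * Real.log Q ≤ 10 * Real.log T := by
    have h1 := Real.log_le_log hQ0 hQT
    rw [Real.log_rpow hT0] at h1
    calc 2 / (dg K : ℝ) * Real.log Q ≤ 2 / (dg K : ℝ) * (5 * dg K * Real.log T) :=
          mul_le_mul_of_nonneg_left h1 (by positivity)
      _ = _ := by field_simp; ring
  have hl : 2 / (dg K : ℝ) * |Real.log (m0 K)| ≤ 2 * l0 := by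
    rw [← hl0]
    refine mul_le_mul_of_nonneg_right ?_ hl00
    rw [div_le_iff₀ hn0]
    linarith
  have h8 : E * (8 / (dg K : ℝ)) ≤ E * 8 * S := by
    have h9 : 8 / (dg K : ℝ) ≤ 8 := by
      rw [div_le_iff₀ hn0]
      linarith
    calc E * (8 / (dg K : ℝ)) ≤ E * 8 := mul_le_mul_of_nonneg_left h9 hE.le
      _ ≤ E * 8 * S := le_mul_of_one_le_right (by positivity) hS1
  have h9 : C1 * R * (2 / (dg K : ℝ) * Real.log Q + 2 / (dg K : ℝ) * |Real.log (m0 K)|) ≤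
      C1 * (280000 + 2 * l0) * S := by
    calc C1 * R * (2 / (dg K : ℝ) * Real.log Q + 2 / (dg K : ℝ) * |Real.log (m0 K)|) ≤
        C1 * R * (10 * Real.log T + 2 * l0) :=
          mul_le_mul_of_nonneg_left (add_le_add hlogQ hl) hG0
      _ = C1 * (10 * (R * Real.log T) + 2 * l0 * R) := by ring
      _ ≤ C1 * (10 * (28000 * S) + 2 * l0 * S) := by
          refine mul_le_mul_of_nonneg_left ?_ hC1.le
          refine add_le_add (by linarith) (mul_le_mul_of_nonneg_left hRS (by positivity))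
      _ = _ := by ring
  have h10 : 0 ≤ C1 * (280000 + 2 * l0) + E * 8 := by positivity
  calc C1 * R * (2 / (dg K : ℝ) * Real.log Q + 2 / (dg K : ℝ) * |Real.log (m0 K)|) +
      E * (8 / (dg K : ℝ)) ≤ C1 * (280000 + 2 * l0) * S + E * 8 * S := add_le_add h9 h8
    _ = (C1 * (280000 + 2 * l0) + E * 8) * S := by ring
    _ ≤ _ := mul_le_mul_of_nonneg_left hSle h10

/-- small parameters -/
lemma v3_B (K : Type) [Field K] [NumberField K] {B : ℝ} (hB1 : 1 ≤ B) (hB : CBI K B)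
    {T0 : ℝ} (hT0 : 1 ≤ T0) : ∃ C : ℝ, 0 < C ∧ ∀ (I : Ideal (𝓞 K)) (_ : I ≠ ⊥)
    (b : Basis (Fin (dg K)) ℤ I) (θ : Par (InfinitePlace K)) (t : ℝ)
    (τ : InfinitePlace K → ℝ) (s : ℂ), s.re = 1 / 2 → |t| ≤ T0 + 2 * Tp θ →
    √(Ideal.absNorm I) * ‖LamT τ (ThW b (shp θ t) (Fw K)) s‖ ≤ C * Tp θ ^ (8 * dg K) := by
  obtain ⟨E, hE, htail⟩ := v3_tail K hB1 hB
  have hn1 : (1 : ℝ) ≤ dg K := by exact_mod_cast NeZero.pos (dg K)
  have hn0 : (0 : ℝ) < dg K := by linarith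
  have hcK := cK_pos K
  have hscK : 0 < √(cK K) := Real.sqrt_pos.2 hcK
  have hm0 := m0_pos (K := K)
  have hB0 : 0 ≤ B := by linarith
  obtain ⟨c3, hc3⟩ : ∃ c3 : ℝ, c3 = 1 + 2 * Fintype.card (InfinitePlace K) * (T0 + 2) := ⟨_, rfl⟩
  have hc30 : 0 < c3 := by rw [hc3]; positivity
  obtain ⟨l0, hl0⟩ : ∃ l0, l0 = |Real.log (m0 K)| := ⟨_, rfl⟩
  have hl00 : 0 ≤ l0 := by rw [hl0]; positivity
  obtain ⟨D, hD⟩ : ∃ D, D = (2 : ℝ) ^ dg K *
      (Real.exp (Real.pi * (3 / 2 * dg K)) * B * ((m0 K)⁻¹ + 1)) := ⟨_, rfl⟩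
  have hD0 : 0 ≤ D := by rw [hD]; positivity
  refine ⟨(√(cK K))⁻¹ * (D * (2 + 2 * l0) + E * 8) * c3 ^ (8 * dg K), by positivity,
    fun I hI b θ t τ s hs ht => ?_⟩
  obtain ⟨θ', hθ'⟩ : ∃ θ' : Par (InfinitePlace K), θ' = shp θ t := ⟨_, rfl⟩
  have hTp1 := Tp_one θ
  have hTp' := Tp_one θ'
  have hTps : Tp θ' ≤ c3 * Tp θ := by
    rw [hθ']
    refine (v3_Tp θ t).trans ?_
    have h1 : |t| ≤ (T0 + 2) * Tp θ := by nlinarith
    have h2 := mul_le_mul_of_nonneg_left h1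
      (by positivity : (0 : ℝ) ≤ 2 * Fintype.card (InfinitePlace K))
    rw [hc3]
    linarith
  obtain ⟨Q, hQ⟩ : ∃ Q, Q = Tp θ' ^ (4 * dg K) := ⟨_, rfl⟩
  have hQ1 : 1 ≤ Q := by rw [hQ]; exact one_le_pow₀ hTp'
  have hQ0 : 0 < Q := by linarith
  have hG0 : 0 ≤ D * √Q := by positivity
  have hcr := LamT_crit hG0 hE.le hQ1 hI (v3_td hB1 hB hI b θ')
    (fun x hx => ThW_zero hI v3_Fw_zero hx)
    (fun x hx1 hx2 => by
      have h1 := v3_triv hB hI b θ' x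
      rw [← hD] at h1
      refine h1.trans ?_
      have hmm := mm_pos hI x.2
      have h2 : mm I x.2 = √(mm I x.2) * √(mm I x.2) := (Real.mul_self_sqrt hmm.le).symm
      calc D * mm I x.2 = D * (√(mm I x.2) * √(mm I x.2)) := by rw [← h2]
        _ ≤ D * (√Q * √(mm I x.2)) := by
            refine mul_le_mul_of_nonneg_left ?_ hD0
            exact mul_le_mul_of_nonneg_right (Real.sqrt_le_sqrt hx2) (Real.sqrt_nonneg _)
        _ = _ := by ring)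
    (fun x hx => by
      have := htail I hI b θ' x (by rw [← hQ]; exact hx)
      rwa [← hQ] at this) τ hs
  rw [← hθ']
  refine hcr.trans ?_
  have hQ2 : Q ^ 2 ≤ c3 ^ (8 * dg K) * Tp θ ^ (8 * dg K) := by
    rw [hQ, ← pow_mul, ← mul_pow]
    have e1 : 4 * dg K * 2 = 8 * dg K := by ring
    rw [e1]
    exact pow_le_pow_left₀ (by linarith) hTps _
  have hsQ : √Q ≤ Q := by
    rw [Real.sqrt_le_left hQ0.le]
    nlinarith
  have hlQ : Real.log Q ≤ Q := (Real.log_le_sub_one_of_pos hQ0).trans (by linarith)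
  have hlQ0 : 0 ≤ Real.log Q := Real.log_nonneg hQ1
  have h2n : 2 / (dg K : ℝ) ≤ 2 := by
    rw [div_le_iff₀ hn0]
    linarith
  have h3 : 2 / (dg K : ℝ) * Real.log Q + 2 / (dg K : ℝ) * |Real.log (m0 K)| ≤ (2 + 2 * l0) * Q := by
    rw [← hl0]
    have h4 : 2 / (dg K : ℝ) * Real.log Q ≤ 2 * Q := mul_le_mul h2n hlQ hlQ0 (by norm_num)
    have h5 : 2 / (dg K : ℝ) * l0 ≤ 2 * l0 * Q := by
      calc 2 / (dg K : ℝ) * l0 ≤ 2 * l0 := mul_le_mul_of_nonneg_right h2n hl00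
        _ ≤ 2 * l0 * Q := le_mul_of_one_le_right (by positivity) hQ1
    linarith
  have h6 : E * (8 / (dg K : ℝ)) ≤ E * 8 * Q ^ 2 := by
    have h9 : 8 / (dg K : ℝ) ≤ 8 := by
      rw [div_le_iff₀ hn0]
      linarith
    calc E * (8 / (dg K : ℝ)) ≤ E * 8 := mul_le_mul_of_nonneg_left h9 hE.le
      _ ≤ E * 8 * Q ^ 2 := le_mul_of_one_le_right (by positivity) (one_le_pow₀ hQ1)
  have h7 : D * √Q * (2 / (dg K : ℝ) * Real.log Q + 2 / (dg K : ℝ) * |Real.log (m0 K)|) ≤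
      D * (2 + 2 * l0) * Q ^ 2 := by
    calc D * √Q * (2 / (dg K : ℝ) * Real.log Q + 2 / (dg K : ℝ) * |Real.log (m0 K)|) ≤
        D * Q * ((2 + 2 * l0) * Q) :=
          mul_le_mul (mul_le_mul_of_nonneg_left hsQ hD0) h3 (by positivity) (by positivity)
      _ = _ := by ring
  have h10 : 0 ≤ D * (2 + 2 * l0) + E * 8 := by positivity
  calc (√(cK K))⁻¹ * (D * √Q * (2 / (dg K : ℝ) * Real.log Q +
        2 / (dg K : ℝ) * |Real.log (m0 K)|) + E * (8 / (dg K : ℝ))) ≤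
      (√(cK K))⁻¹ * (D * (2 + 2 * l0) * Q ^ 2 + E * 8 * Q ^ 2) :=
        mul_le_mul_of_nonneg_left (add_le_add h7 h6) (by positivity)
    _ = (√(cK K))⁻¹ * (D * (2 + 2 * l0) + E * 8) * Q ^ 2 := by ring
    _ ≤ (√(cK K))⁻¹ * (D * (2 + 2 * l0) + E * 8) * (c3 ^ (8 * dg K) * Tp θ ^ (8 * dg K)) :=
        mul_le_mul_of_nonneg_left hQ2 (by positivity)
    _ = _ := by ring

/-- both cases -/
lemma v3_all (K : Type) [Field K] [NumberField K] {B : ℝ} (hB1 : 1 ≤ B) (hB : CBI K B)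
    (h : CoreD K B) : ∃ C : ℝ, 0 < C ∧ ∀ (I : Ideal (𝓞 K)) (_ : I ≠ ⊥)
    (b : Basis (Fin (dg K)) ℤ I) (θ : Par (InfinitePlace K)) (t : ℝ)
    (τ : InfinitePlace K → ℝ) (s : ℂ), s.re = 1 / 2 →
    √(Ideal.absNorm I) * ‖LamT τ (ThW b (shp θ t) (Fw K)) s‖ ≤
      C * (Tp θ ^ (8 * dg K) * (1 + |t|) ^ ((dg K : ℝ) / 6 - 1 / 4000)) := by
  obtain ⟨CA, T0, hCA, hT0, hA⟩ := v3_A K hB1 hB h
  obtain ⟨CB', hCB, hBB⟩ := v3_B K hB1 hB hT0
  have hn1 : (1 : ℝ) ≤ dg K := by exact_mod_cast NeZero.pos (dg K)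
  refine ⟨CA + CB', by positivity, fun I hI b θ t τ s hs => ?_⟩
  have hTp1 := Tp_one θ
  obtain ⟨X, hX⟩ : ∃ X, X = Tp θ ^ (8 * dg K) := ⟨_, rfl⟩
  obtain ⟨Y, hY⟩ : ∃ Y, Y = (1 + |t|) ^ ((dg K : ℝ) / 6 - 1 / 4000) := ⟨_, rfl⟩
  have hX1 : 1 ≤ X := by rw [hX]; exact one_le_pow₀ hTp1
  have hY1 : 1 ≤ Y := by
    rw [hY]
    exact Real.one_le_rpow (by linarith [abs_nonneg t]) (by linarith)
  rw [← hX, ← hY]
  have hXY : 0 ≤ X * Y := by positivity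
  by_cases hc : T0 ≤ |t| ∧ 2 * Tp θ ≤ |t|
  · have h1 := hA I hI b θ t τ s hs hc.1 hc.2
    rw [← hY] at h1
    calc _ ≤ CA * Y := h1
      _ ≤ CA * (X * Y) := mul_le_mul_of_nonneg_left (le_mul_of_one_le_left (by linarith) hX1) hCA.le
      _ ≤ (CA + CB') * (X * Y) := by nlinarith
  · have h2 : |t| ≤ T0 + 2 * Tp θ := by
      by_contra hcon
      push Not at hcon
      exact hc ⟨by linarith, by linarith⟩
    have h1 := hBB I hI b θ t τ s hs h2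
    rw [← hX] at h1
    calc _ ≤ CB' * X := h1
      _ ≤ CB' * (X * Y) := mul_le_mul_of_nonneg_left (le_mul_of_one_le_right (by linarith) hY1) hCB.le
      _ ≤ (CA + CB') * (X * Y) := by nlinarith

theorem unram_T (K : Type) [Field K] [NumberField K] {B : ℝ} (hB1 : 1 ≤ B) (hB : CBI K B)
    (h : CoreD K B) : ∃ (C : ℝ) (a : ℕ), 0 < C ∧
    ∀ (θ : Par (InfinitePlace K)) (χ : Ideal (𝓞 K) →* ℂ), HU θ χ →
    ∃ L : ℂ → ℂ, Differentiable ℂ L ∧
    (∀ s : ℂ, 1 < s.re →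
      HasSum (fun I : Ideal (𝓞 K) =>
        (1 - χ (Ideal.span {2}) * (2 : ℂ) ^ ((dg K : ℂ) * (1 - s))) *
          (χ I * (Ideal.absNorm I : ℂ) ^ (-s))) (L s)) ∧
    ∀ t : ℝ, ‖L (1 / 2 + t * Complex.I)‖ ≤ C * Tp θ ^ a *
        (1 + |t|) ^ ((dg K : ℝ) / 6 - 1 / 4000) := by
  have : Nonempty (Fin (dg K)) := ⟨0⟩
  obtain ⟨c, hc0, hc⟩ := UU_int K
  obtain ⟨C0, hC00, hC0⟩ := v3_all K hB1 hB h
  have hwc : 0 < (torsionOrder K : ℝ) * c := by
    have : (0 : ℝ) < torsionOrder K := by exact_mod_cast torsionOrder_pos K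
    positivity
  have hcard : (0 : ℝ) < Fintype.card (ClassGroup (𝓞 K)) := by
    exact_mod_cast Fintype.card_pos
  have hZ0 : Zf K (1 / 2) ≠ 0 := Zf_ne K (by norm_num)
  have hZn : 0 < ‖Zf K (1 / 2)‖ := norm_pos_iff.2 hZ0
  refine ⟨Fintype.card (ClassGroup (𝓞 K)) * (((torsionOrder K : ℝ) * c)⁻¹ *
    ‖Zf K (1 / 2)‖⁻¹ * C0), 8 * dg K, by positivity, fun θ χ hχ => ?_⟩
  have hdata : ∀ C : ClassGroup (𝓞 K), ∃ (I : Ideal (𝓞 K)) (hI : I ≠ ⊥),
      ClassGroup.mk0 ⟨I, nzd hI⟩ = C⁻¹ := by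
    intro C
    obtain ⟨J, hJ⟩ := ClassGroup.mk0_surjective C⁻¹
    refine ⟨J.1, nonZeroDivisors.coe_ne_zero J, ?_⟩
    rw [← hJ]
  choose I hI hC using hdata
  have hbas : ∀ C, Nonempty (Basis (Fin (dg K)) ℤ (I C)) := fun C => exists_bas (I C) (hI C)
  obtain ⟨b⟩ : Nonempty (∀ C, Basis (Fin (dg K)) ℤ (I C)) := ⟨fun C => (hbas C).some⟩
  have hχn : ∀ C, ‖χ (I C)‖ = 1 := fun C => hχ.norm _ (hI C)
  set Lt : ℝ → ℂ → ℂ := fun t0 s => ∑ C : ClassGroup (𝓞 K), ((χ (I C))⁻¹ *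
    (Ideal.absNorm (I C) : ℂ) ^ s * (((torsionOrder K : ℂ) * c)⁻¹ *
      (Zf K (s - Complex.I * t0))⁻¹ * LamT θ.2 (ThW (b C) (shp θ t0) (Fw K)) s)) with hLt
  have hd : ∀ t0, DifferentiableOn ℂ (Lt t0) {s | |s.im - t0| < 1} := by
    intro t0
    rw [hLt]
    beta_reduce
    refine DifferentiableOn.fun_sum fun C _ => ?_
    have h1 := (v3_td hB1 hB (hI C) (b C) (shp θ t0)).diff θ.2
    have h2 : DifferentiableOn ℂ (fun s => (Zf K (s - Complex.I * t0))⁻¹) {s | |s.im - t0| < 1} := by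
      refine DifferentiableOn.inv ?_ fun s hs => ?_
      · exact ((Zf_diff K).comp (by fun_prop :
          Differentiable ℂ fun s : ℂ => s - Complex.I * t0)).differentiableOn
      · refine Zf_ne K ?_
        have e1 : (s - Complex.I * t0).im = s.im - t0 := by simp
        rw [e1]
        exact le_of_lt hs
    have h3 : Differentiable ℂ fun s : ℂ => (Ideal.absNorm (I C) : ℂ) ^ s := by
      refine Differentiable.const_cpow differentiable_id (Or.inl ?_)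
      have := absNorm_pos' (hI C)
      exact_mod_cast this.ne'
    refine DifferentiableOn.mul ((h3.differentiableOn).const_mul _) ?_
    refine DifferentiableOn.mul (h2.const_mul _) ?_
    exact h1.differentiableOn
  have hsum : ∀ t0 s, 1 < s.re → |s.im - t0| < 1 →
      HasSum (fun I : Ideal (𝓞 K) => (1 - χ (Ideal.span {2}) * (2 : ℂ) ^ ((dg K : ℂ) * (1 - s))) *
          (χ I * (Ideal.absNorm I : ℂ) ^ (-s))) (Lt t0 s) := by
    intro t0 s hs ht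
    refine all_hasSum (f := fun J : Ideal (𝓞 K) =>
      (1 - χ (Ideal.span {2}) * (2 : ℂ) ^ ((dg K : ℂ) * (1 - s))) *
          (χ J * (Ideal.absNorm J : ℂ) ^ (-s))) ?_ fun C => ?_
    · rw [hχ.bot, zero_mul, mul_zero]
    · exact unr_series hB hχ hc0 hc (hI C) (hC C) (b C) hs ht
  obtain ⟨L, hL1, hL2, hL3⟩ := glue hd
    (g := fun s => ∑' I : Ideal (𝓞 K),
      (1 - χ (Ideal.span {2}) * (2 : ℂ) ^ ((dg K : ℂ) * (1 - s))) *
          (χ I * (Ideal.absNorm I : ℂ) ^ (-s)))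
    (fun t0 s hs ht => ((hsum t0 s hs ht).tsum_eq).symm)
  refine ⟨L, hL1, fun s hs => ?_, fun t => ?_⟩
  · rw [hL3 s.im s (by simp)]
    exact hsum s.im s hs (by simp)
  · set s : ℂ := 1 / 2 + t * Complex.I with hs
    have hsi : s.im = t := by simp [hs]
    have hre : s.re = 1 / 2 := by simp [hs]
    rw [hL3 t s (by rw [hsi]; simp)]
    have hsub : s - Complex.I * t = 1 / 2 := by rw [hs]; ring
    rw [hLt]
    beta_reduce
    refine (norm_sum_le _ _).trans ?_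
    have hT1 := Tp_one θ
    have h1 : ∀ C : ClassGroup (𝓞 K), ‖(χ (I C))⁻¹ * (Ideal.absNorm (I C) : ℂ) ^ s *
        (((torsionOrder K : ℂ) * c)⁻¹ * (Zf K (s - Complex.I * t))⁻¹ *
        LamT θ.2 (ThW (b C) (shp θ t) (Fw K)) s)‖ ≤
        ((torsionOrder K : ℝ) * c)⁻¹ * ‖Zf K (1 / 2)‖⁻¹ * C0 *
        (Tp θ ^ (8 * dg K) * (1 + |t|) ^ ((dg K : ℝ) / 6 - 1 / 4000)) := by
      intro C
      have h2 := hC0 (I C) (hI C) (b C) θ t θ.2 s hre
      have hI0 := absNorm_pos' (hI C)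
      have e1 : ‖(Ideal.absNorm (I C) : ℂ) ^ s‖ = √(Ideal.absNorm (I C)) := by
        have e2 : ((Ideal.absNorm (I C) : ℕ) : ℂ) = (((Ideal.absNorm (I C) : ℕ) : ℝ) : ℂ) := by
          push_cast; rfl
        rw [e2, Complex.norm_cpow_eq_rpow_re_of_pos hI0, hre, Real.sqrt_eq_rpow]
      have e3 : ‖((torsionOrder K : ℂ) * c)⁻¹‖ = ((torsionOrder K : ℝ) * c)⁻¹ := by
        rw [norm_inv]
        congr 1
        have : ((torsionOrder K : ℂ) * c) = (((torsionOrder K : ℝ) * c : ℝ) : ℂ) := by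
          push_cast; rfl
        rw [this, Complex.norm_real, Real.norm_of_nonneg hwc.le]
      rw [norm_mul, norm_mul, norm_inv, hχn, inv_one, one_mul, norm_mul, norm_mul, e1, e3,
        hsub, norm_inv]
      set Λ := ‖LamT θ.2 (ThW (b C) (shp θ t) (Fw K)) s‖ with hΛ
      have hΛ0 : 0 ≤ Λ := norm_nonneg _
      calc √(Ideal.absNorm (I C)) * (((torsionOrder K : ℝ) * c)⁻¹ * ‖Zf K (1 / 2)‖⁻¹ * Λ) =
            ((torsionOrder K : ℝ) * c)⁻¹ * ‖Zf K (1 / 2)‖⁻¹ * (√(Ideal.absNorm (I C)) * Λ) := by ring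
        _ ≤ ((torsionOrder K : ℝ) * c)⁻¹ * ‖Zf K (1 / 2)‖⁻¹ * (C0 *
            (Tp θ ^ (8 * dg K) * (1 + |t|) ^ ((dg K : ℝ) / 6 - 1 / 4000))) :=
            mul_le_mul_of_nonneg_left h2 (by positivity)
        _ = _ := by ring
    refine (sum_le_sum fun C _ => h1 C).trans ?_
    rw [sum_const, card_univ, nsmul_eq_mul]
    exact le_of_eq (by ring)

end Pool.Agent.T2H29.TA
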