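import Pool.Agent.T2H29.TA.Props

/-!
# The weights in sectors
-/

set_option autoImplicit false
set_option linter.unusedSectionVars false

namespace Pool.Agent.T2H29.TA

open Finset NumberField NumberField.InfinitePlace Module MeasureTheory
open Pool.Agent.T2H29.SW
open scoped RealInnerProductSpace ContDiff

variable (K : Type) [Field K] [NumberField K]

/-- the weight in a sector -/
noncomputable def Phi (β : Bool → ℂ → ℂ) (o : InfinitePlace K → ℂ) (θ : Par (InfinitePlace K))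
    (v : EK K) : ℂ :=
  ∏ w, (uu (θ.1 w) (θ.2 w) (lamK K w v) * β (tp K w) ((starRingEnd ℂ) (o w) * lamK K w v))

/-- admissible rotations -/
def Rot (o : InfinitePlace K → ℂ) : Prop := ∀ w, ‖o w‖ = 1 ∧ Rl (tp K w) (o w)

/-- the differenced sum -/
noncomputable def Sy (β : Bool → ℂ → ℂ) (o : InfinitePlace K → ℂ) (θ : Par (InfinitePlace K))
    (A : Matrix (Fin (dg K)) (Fin (dg K)) ℝ) (v0 : EK K) (y : Fin (dg K) → ℤ) : ℂ :=
  ∑' z : Fin (dg K) → ℤ, Phi K β o θ (v0 + vc A z + vc A y) *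
    (starRingEnd ℂ) (Phi K β o θ (v0 + vc A z - vc A y))

/-- the parameters are of size `T` -/
def TT (θ : Par (InfinitePlace K)) (T : ℝ) : Prop :=
  ∀ w, T / 4 ≤ |θ.2 w| ∧ ‖cp (tp K w) (θ.1 w) (θ.2 w)‖ ≤ 8 * T

/-- the radius of the shifts -/
noncomputable def rho (T : ℝ) : ℝ := T ^ (-(1 / 3 : ℝ) + 2 / 3000 / (dg K : ℝ))

end Pool.Agent.T2H29.TA
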