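import Pool.Agent.T2H29.TA.Base

/-!
# The main bounds
-/

set_option autoImplicit false
set_option linter.unusedSectionVars false

namespace Pool.Agent.T2H29.TA

open Finset NumberField NumberField.InfinitePlace Module MeasureTheory
open Pool.Agent.T2H29.SW
open scoped RealInnerProductSpace ContDiff

variable (K : Type) [Field K] [NumberField K]

/-- the main bound for short sums -/
def CoreT (B : ℝ) : Prop := ∃ C T0 : ℝ, 0 < C ∧ 1 ≤ T0 ∧ ∀ A, GB K B A →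
    ∀ (v0 ν : EK K) (θ : Par (InfinitePlace K)) (T : ℝ), T0 ≤ T →
    (∀ w, T / 4 ≤ |θ.2 w| ∧ ‖cp (tp K w) (θ.1 w) (θ.2 w)‖ ≤ 8 * T) →
    Mv A ≤ T ^ ((dg K : ℝ) * (1 / 2 + 1 / 1000)) →
    ‖∑' z : Fin (dg K) → ℤ, Wt (lamK K) θ (v0 + vc A z) * e ⟪ν, vc A z⟫‖ ≤
      C * (1 + √(Mv A)) * T ^ ((dg K : ℝ) / 6 - 1 / 3000)

/-- the main bound for all sums -/
def CoreD (B : ℝ) : Prop := ∃ C T0 : ℝ, 0 < C ∧ 1 ≤ T0 ∧ ∀ A, GB K B A →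
    ∀ (v0 : EK K) (θ : Par (InfinitePlace K)) (T : ℝ), T0 ≤ T →
    (∀ w, T / 2 ≤ |θ.2 w| ∧ ‖cp (tp K w) (θ.1 w) (θ.2 w)‖ ≤ 4 * T) →
    Mv A ≤ T ^ (5 * (dg K : ℝ)) →
    ‖∑' z : Fin (dg K) → ℤ, Wt (lamK K) θ (v0 + vc A z)‖ ≤
      C * (1 + √(Mv A)) * T ^ ((dg K : ℝ) / 6 - 1 / 3500)


end Pool.Agent.T2H29.TA
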