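import Pool.Agent.T2H29.TA.Props
import Pool.Agent.T2H29.SW.Y8

/-!
# Unramified characters: definitions
-/

set_option autoImplicit false
set_option linter.unusedSectionVars false

namespace Pool.Agent.T2H29.TA

open Finset NumberField NumberField.InfinitePlace Module MeasureTheory
open Pool.Agent.T2H29.SW
open scoped RealInnerProductSpace ContDiff

/-- unramified unitary Hecke characters -/
structure HU {K : Type} [Field K] [NumberField K] (θ : Par (InfinitePlace K))
    (χ : Ideal (𝓞 K) →* ℂ) : Prop where
  bot : χ ⊥ = 0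
  norm : ∀ I, I ≠ ⊥ → ‖χ I‖ = 1
  inf : ∀ α : 𝓞 K, α ≠ 0 → χ (Ideal.span {α}) = infK θ (α : K)

variable (K : Type) [Field K] [NumberField K]

open scoped Classical in
/-- all elements other than `0` -/
noncomputable def F0 (z : Fin (dg K) → ℤ) : ℂ := if z = 0 then 0 else 1

open scoped Classical in
/-- the multiples of `2` other than `0` -/
noncomputable def F2 (z : Fin (dg K) → ℤ) : ℂ := if z ≠ 0 ∧ ∃ y, z = (2 : ℤ) • y then 1 else 0

/-- the weight which kills the pole -/
noncomputable def Fw (z : Fin (dg K) → ℤ) : ℂ := F0 K z - 2 ^ dg K * F2 K z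

end Pool.Agent.T2H29.TA
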