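import Pool.Agent.T2H29.TA.V0

/-!
# Unramified characters: the sum over a class
-/

set_option autoImplicit false
set_option linter.unusedSectionVars false

namespace Pool.Agent.T2H29.TA

open Finset NumberField NumberField.InfinitePlace Module MeasureTheory NumberField.Units
open Pool.Agent.T2H29.SW
open scoped RealInnerProductSpace ContDiff nonZeroDivisors

section copies

variable {K : Type} [Field K] [NumberField K] {B : ℝ} {I : Ideal (𝓞 K)}
  {b : Basis (Fin (dg K)) ℤ I} {F : (Fin (dg K) → ℤ) → ℂ} {θ : Par (InfinitePlace K)}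
  {χ : Ideal (𝓞 K) →* ℂ}

/-- the sum over the elements, absolutely convergent -/
theorem v1_el (hne : I ≠ ⊥) (hbal : ∀ x : LS K, CB B (AX b x)) (hle : ∀ z, ‖F z‖ ≤ 1)
    (hzero : F 0 = 0) {κ : ℂ}
    (hrel : ∀ z, χ (Ideal.span {el b z}) = κ * F z * infK θ (el b z : K)) (t0 : ℝ) {s : ℂ}
    (hs : 1 < s.re) {c : ℝ}
    (hc : ∀ G : (InfinitePlace K → ℝ) → ℂ, (∫ x, G (UU K x) = (c : ℂ) * ∫ u, G u) ∧
      (Integrable G → Integrable fun x => G (UU K x))) :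
    HasSum (fun z => ∫ x in box K, TN s θ t0 χ (el b z) x)
      (κ * LamT θ.2 (ThW b (shp θ t0) F) s) := by
  have hz0 : ∀ x, TN s θ t0 χ (el b 0) x = 0 := by
    intro x
    rw [TN_el hzero hrel, hzero]
    ring
  have hint : ∀ z, Integrable (fun x => TN s θ t0 χ (el b z) x) (volume.restrict (box K)) := by
    intro z
    by_cases hz : z = 0
    · rw [hz]
      have : (fun x => TN s θ t0 χ (el b 0) x) = fun _ => (0 : ℂ) := funext hz0
      rw [this]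
      exact integrable_zero _ _ _
    · exact (TN_int θ t0 s χ hc (el_ne b hz)).1.integrableOn
  set bF := ‖κ‖ with hbF
  have hbF0 : 0 ≤ bF := by positivity
  have hnorm : ∀ z x, ‖TN s θ t0 χ (el b z) x‖ ≤
      bF * (if z = 0 then 0 else ‖Wt (lamK K) (shp θ t0) (vc (AX b x) z)‖) *
        Real.exp (s.re * (dg K * x.2 / 2)) := by
    intro z x
    by_cases hz : z = 0
    · rw [hz, hz0, norm_zero, if_pos rfl, mul_zero, zero_mul]
    · rw [if_neg hz, TN_el hzero hrel, norm_mul, norm_mul, norm_mul, WW_norm]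
      refine mul_le_mul_of_nonneg_right ?_ (Real.exp_pos _).le
      have h2 := hle z
      have h3 := norm_nonneg (Wt (lamK K) (shp θ t0) (vc (AX b x) z))
      calc ‖κ‖ * (‖Wt (lamK K) (shp θ t0) (vc (AX b x) z)‖ * ‖F z‖) ≤
          ‖κ‖ * (‖Wt (lamK K) (shp θ t0) (vc (AX b x) z)‖ * 1) :=
            mul_le_mul_of_nonneg_left (mul_le_mul_of_nonneg_left h2 h3) (norm_nonneg _)
        _ = _ := by rw [hbF]; ring
  obtain ⟨C, δ, hC0, hδ, hC⟩ := S1_bdH (θ := shp θ t0) hne hbal hs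
  have hsum : Summable fun z => ∫ x in box K, ‖TN s θ t0 χ (el b z) x‖ := by
    refine summable_of_sum_le (c := ∫ x in box K, bF * (C * Real.exp (-(δ * |x.2|))))
      (fun z => integral_nonneg fun x => norm_nonneg _) fun t => ?_
    rw [← integral_finsetSum _ (fun z _ => (hint z).norm)]
    refine setIntegral_mono_on (integrable_finsetSum _ fun z _ => (hint z).norm)
      (((box_int K (ea_int hδ)).1.const_mul C).const_mul bF) (box_meas K) fun x _ => ?_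
    refine le_trans ?_ (mul_le_mul_of_nonneg_left (hC x (t.erase 0) (by simp)) hbF0)
    rw [sum_mul, mul_sum]
    calc ∑ z ∈ t, ‖TN s θ t0 χ (el b z) x‖ ≤
          ∑ z ∈ t, bF * (if z = 0 then 0 else ‖Wt (lamK K) (shp θ t0) (vc (AX b x) z)‖) *
          Real.exp (s.re * (dg K * x.2 / 2)) := sum_le_sum fun z _ => hnorm z x
      _ = ∑ z ∈ t.erase 0, bF * (‖Wt (lamK K) (shp θ t0) (vc (AX b x) z)‖ *
            Real.exp (s.re * (dg K * x.2 / 2))) := by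
          rw [← Finset.sum_filter_add_sum_filter_not t (fun z => z = 0)]
          have e1 : ∑ z ∈ t with z = 0, bF * (if z = 0 then 0 else
              ‖Wt (lamK K) (shp θ t0) (vc (AX b x) z)‖) *
              Real.exp (s.re * (dg K * x.2 / 2)) = 0 := by
            refine sum_eq_zero fun z hz => ?_
            rw [if_pos (mem_filter.1 hz).2, mul_zero, zero_mul]
          rw [e1, zero_add]
          have e2 : ({z ∈ t | ¬ z = 0} : Finset _) = t.erase 0 := by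
            ext z
            rw [mem_filter, mem_erase]
            tauto
          rw [e2]
          refine sum_congr rfl fun z hz => ?_
          rw [if_neg (mem_erase.1 hz).1, mul_assoc]
  have h1 := hasSum_integral_of_summable_integral_norm hint hsum
  have h2 : ∫ x in box K, ∑' z, TN s θ t0 χ (el b z) x =
      κ * LamT θ.2 (ThW b (shp θ t0) F) s := by
    unfold LamT
    rw [← integral_const_mul]
    refine setIntegral_congr_fun (box_meas K) fun x _ => ?_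
    beta_reduce
    rw [(TN_sum hne hbal hzero hle hrel s t0 x).tsum_eq, mul_assoc]
  rw [h2] at h1
  exact h1

/-- one class -/
theorem v1_class {B : ℝ} {I : Ideal (𝓞 K)} {b : Basis (Fin (dg K)) ℤ I}
    {F : (Fin (dg K) → ℤ) → ℂ} {θ : Par (InfinitePlace K)} {χ : Ideal (𝓞 K) →* ℂ}
    (hbal : ∀ x : LS K, CB B (AX b x)) (hle : ∀ z, ‖F z‖ ≤ 1) (hzero : F 0 = 0) {κ : ℂ}
    (hrel : ∀ z, χ (Ideal.span {el b z}) = κ * F z * infK θ (el b z : K)) (hχI : χ I ≠ 0)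
    {c : ℝ} (hc0 : 0 < c)
    (hc : ∀ G : (InfinitePlace K → ℝ) → ℂ, (∫ x, G (UU K x) = (c : ℂ) * ∫ u, G u) ∧
      (Integrable G → Integrable fun x => G (UU K x))) {C : ClassGroup (𝓞 K)} (hI : I ≠ ⊥)
    (hC : ClassGroup.mk0 ⟨I, nzd hI⟩ = C⁻¹) {s : ℂ} (hs : 1 < s.re) {t0 : ℝ}
    (ht : |s.im - t0| < 1) :
    HasSum (fun J : clS C => χ J.1 * (Ideal.absNorm J.1 : ℂ) ^ (-s))
      ((χ I)⁻¹ * (Ideal.absNorm I : ℂ) ^ s *
        (((torsionOrder K : ℂ) * c)⁻¹ * (Zf K (s - Complex.I * t0))⁻¹ *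
          (κ * LamT θ.2 (ThW b (shp θ t0) F) s))) := by
  refine cl_hasSum hI hC hχI ?_
  have h1 := v1_el (χ := χ) hI hbal hle hzero hrel t0 hs hc
  have hF0 : (fun α : 𝓞 K => ∫ x in box K, TN s θ t0 χ α x) 0 = 0 := by
    beta_reduce
    have : ∀ x, TN s θ t0 χ 0 x = 0 := by
      intro x
      have h2 := TN_el hzero hrel s t0 0 x
      rw [hzero, el_zero] at h2
      rw [h2]
      ring
    simp_rw [this]
    simp
  have h2 := class_hasSum b (F := fun α : 𝓞 K => ∫ x in box K, TN s θ t0 χ α x) hF0 h1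
    (G := fun J : PrI I => (torsionOrder K : ℂ) * ((c * Zf K (s - Complex.I * t0)) *
      (χ (Ideal.span {J.gen}) * (Ideal.absNorm (Ideal.span {J.gen}) : ℂ) ^ (-s))))
    (fun J => TN_units s θ t0 χ hc J.gen_ne)
  have h3 := h2.mul_left (((torsionOrder K : ℂ) * c)⁻¹ * (Zf K (s - Complex.I * t0))⁻¹)
  refine h3.congr_fun ?_ |> id
  intro J
  rw [J.span]
  have hw : (torsionOrder K : ℂ) ≠ 0 := by exact_mod_cast torsionOrder_ne_zero K
  have hcc : (c : ℂ) ≠ 0 := by exact_mod_cast hc0.ne'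
  have hZ : Zf K (s - Complex.I * t0) ≠ 0 := by
    refine Zf_ne K ?_
    have e1 : (s - Complex.I * t0).im = s.im - t0 := by simp
    rw [e1]
    exact ht.le
  field_simp

end copies

section two

variable {K : Type} [Field K] [NumberField K]

/-- the ideal `2 I` -/
noncomputable def v1_I2 (I : Ideal (𝓞 K)) : Ideal (𝓞 K) := Ideal.span {2} * I

lemma v1_two_ne : (2 : 𝓞 K) ≠ 0 := two_ne_zero

lemma v1_span_ne : (Ideal.span {(2 : 𝓞 K)} : Ideal (𝓞 K)) ≠ ⊥ := by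
  rw [ne_eq, Ideal.span_singleton_eq_bot]
  exact v1_two_ne

lemma v1_I2_ne {I : Ideal (𝓞 K)} (hI : I ≠ ⊥) : v1_I2 I ≠ ⊥ := mul_ne_bot' v1_span_ne hI

lemma v1_mem {I : Ideal (𝓞 K)} (x : I) : 2 * (x : 𝓞 K) ∈ v1_I2 I :=
  Ideal.mul_mem_mul (Ideal.mem_span_singleton_self 2) x.2

/-- multiplication by `2` -/
noncomputable def v1_f (I : Ideal (𝓞 K)) : I →ₗ[ℤ] v1_I2 I where
  toFun x := ⟨2 * (x : 𝓞 K), v1_mem x⟩
  map_add' x y := by
    apply Subtype.ext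
    show 2 * ((x + y : I) : 𝓞 K) = 2 * (x : 𝓞 K) + 2 * (y : 𝓞 K)
    rw [Submodule.coe_add, mul_add]
  map_smul' m x := by
    apply Subtype.ext
    show 2 * ((m • x : I) : 𝓞 K) = m • (2 * (x : 𝓞 K))
    rw [Submodule.coe_smul_of_tower, mul_smul_comm]

lemma v1_f_bij (I : Ideal (𝓞 K)) : Function.Bijective (v1_f I) := by
  constructor
  · intro x y h
    have h1 : 2 * (x : 𝓞 K) = 2 * (y : 𝓞 K) := congrArg Subtype.val h
    exact Subtype.ext (mul_left_cancel₀ v1_two_ne h1)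
  · rintro ⟨y, hy⟩
    obtain ⟨z, hz, hzy⟩ := Ideal.mem_span_singleton_mul.1 hy
    exact ⟨⟨z, hz⟩, Subtype.ext hzy⟩

/-- the basis `2 b` -/
noncomputable def v1_b2 {I : Ideal (𝓞 K)} (b : Basis (Fin (dg K)) ℤ I) :
    Basis (Fin (dg K)) ℤ (v1_I2 I) := b.map (LinearEquiv.ofBijective (v1_f I) (v1_f_bij I))

lemma v1_el_b2 {I : Ideal (𝓞 K)} (b : Basis (Fin (dg K)) ℤ I) (z : Fin (dg K) → ℤ) :
    el (v1_b2 b) z = 2 * el b z := by
  rw [el_eq, el_eq]
  unfold v1_b2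
  rw [Basis.map_equivFun]
  rfl

lemma v1_el_two {I : Ideal (𝓞 K)} (b : Basis (Fin (dg K)) ℤ I) (z : Fin (dg K) → ℤ) :
    el b ((2 : ℤ) • z) = 2 * el b z := by
  rw [el_eq, el_eq, map_smul, Submodule.coe_smul_of_tower, zsmul_eq_mul]
  norm_num

lemma v1_ThW {I : Ideal (𝓞 K)} (b : Basis (Fin (dg K)) ℤ I) (θ : Par (InfinitePlace K)) :
    ThW (v1_b2 b) θ (F0 K) = ThW b θ (F2 K) := by
  funext x
  unfold ThW TW
  have hinj : Function.Injective fun y : Fin (dg K) → ℤ => (2 : ℤ) • y :=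
    smul_right_injective _ (two_ne_zero)
  rw [← hinj.tsum_eq (f := fun z => Wt (lamK K) θ (vc (AX b x) z) * F2 K z)]
  · refine tsum_congr fun z => ?_
    rw [Wt_el, Wt_el, v1_el_b2, v1_el_two]
    congr 1
    unfold F0 F2
    by_cases hz : z = 0
    · rw [if_pos hz, if_neg]
      rintro ⟨h1, -⟩
      apply h1
      rw [hz, smul_zero]
    · rw [if_neg hz, if_pos]
      exact ⟨fun h => hz ((smul_eq_zero.1 h).resolve_left two_ne_zero), z, rfl⟩
  · intro z hz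
    rw [Function.mem_support] at hz
    have h1 : F2 K z ≠ 0 := fun h => hz (by rw [h, mul_zero])
    unfold F2 at h1
    by_cases h2 : z ≠ 0 ∧ ∃ y, z = (2 : ℤ) • y
    · obtain ⟨-, y, hy⟩ := h2
      exact ⟨y, hy.symm⟩
    · rw [if_neg h2] at h1
      exact absurd rfl h1

lemma v1_mk0 {I : Ideal (𝓞 K)} (hI : I ≠ ⊥) {C : ClassGroup (𝓞 K)}
    (hC : ClassGroup.mk0 ⟨I, nzd hI⟩ = C⁻¹) :
    ClassGroup.mk0 ⟨v1_I2 I, nzd (v1_I2_ne hI)⟩ = C⁻¹ := by
  have h1 := mk0_mul v1_span_ne hI (v1_I2_ne hI)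
  have h2 : ClassGroup.mk0 (⟨Ideal.span {(2 : 𝓞 K)}, nzd v1_span_ne⟩ : (Ideal (𝓞 K))⁰) = 1 := by
    rw [ClassGroup.mk0_eq_one_iff]
    exact ⟨⟨2, rfl⟩⟩
  rw [h2, one_mul, hC] at h1
  exact h1

lemma v1_norm2 (I : Ideal (𝓞 K)) : Ideal.absNorm (v1_I2 I) = 2 ^ dg K * Ideal.absNorm I := by
  unfold v1_I2
  rw [map_mul, Ideal.absNorm_span_singleton]
  congr 1
  have h1 : (2 : 𝓞 K) = algebraMap ℤ (𝓞 K) 2 := by simp
  rw [h1, Algebra.norm_algebraMap, RingOfIntegers.rank, Int.natAbs_pow]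
  rfl

lemma v1_F0_le (z : Fin (dg K) → ℤ) : ‖F0 K z‖ ≤ 1 := by
  unfold F0
  split_ifs <;> simp

lemma v1_F2_le (z : Fin (dg K) → ℤ) : ‖F2 K z‖ ≤ 1 := by
  unfold F2
  split_ifs <;> simp

lemma v1_F0_zero : F0 K 0 = 0 := by
  unfold F0
  rw [if_pos rfl]

lemma v1_F2_zero : F2 K 0 = 0 := by
  unfold F2
  rw [if_neg]
  rintro ⟨h, -⟩
  exact h rfl

lemma v1_rel {θ : Par (InfinitePlace K)} {χ : Ideal (𝓞 K) →* ℂ} (h : HU θ χ) {I : Ideal (𝓞 K)}
    (b : Basis (Fin (dg K)) ℤ I) (z : Fin (dg K) → ℤ) :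
    χ (Ideal.span {el b z}) = 1 * F0 K z * infK θ (el b z : K) := by
  by_cases hz : z = 0
  · rw [hz, el_zero, v1_F0_zero, Ideal.span_singleton_zero, h.bot]
    ring
  · rw [h.inf _ (el_ne b hz)]
    unfold F0
    rw [if_neg hz]
    ring

/-- integrability -/
lemma v1_int {B : ℝ} {I : Ideal (𝓞 K)} (hI : I ≠ ⊥) (b : Basis (Fin (dg K)) ℤ I)
    (hbal : ∀ x : LS K, CB B (AX b x)) {F : (Fin (dg K) → ℤ) → ℂ} (hle : ∀ z, ‖F z‖ ≤ 1)
    (hzero : F 0 = 0) (θ : Par (InfinitePlace K)) (τ : InfinitePlace K → ℝ) {s : ℂ}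
    (hs : 1 < s.re) : IntegrableOn (fun x => ThW b θ F x * WW s τ x) (box K) := by
  obtain ⟨C, δ, hC0, hδ, hC⟩ := S1_bdH (θ := θ) hI hbal hs
  refine Integrable.mono' ((box_int K (ea_int hδ)).1.const_mul C) ?_
    (Filter.Eventually.of_forall fun x => ?_)
  · exact ((ThW_meas hI hbal hzero hle).mul (WW_cont s τ).measurable).aestronglyMeasurable
  · rw [norm_mul, WW_norm]
    have hE : 0 < Real.exp (s.re * (dg K * x.2 / 2)) := Real.exp_pos _
    rw [← le_div_iff₀ hE]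
    have h1 : ∀ t : Finset (Fin (dg K) → ℤ), ∑ z ∈ t, ‖Wt (lamK K) θ (vc (AX b x) z) * F z‖ ≤
        C * Real.exp (-(δ * |x.2|)) / Real.exp (s.re * (dg K * x.2 / 2)) := by
      intro t
      rw [le_div_iff₀ hE]
      refine le_trans ?_ (hC x (t.erase 0) (by simp))
      refine mul_le_mul_of_nonneg_right ?_ hE.le
      have h2 : ∑ z ∈ t, ‖Wt (lamK K) θ (vc (AX b x) z) * F z‖ =
          ∑ z ∈ t.erase 0, ‖Wt (lamK K) θ (vc (AX b x) z) * F z‖ := by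
        by_cases h0 : (0 : Fin (dg K) → ℤ) ∈ t
        · rw [← Finset.add_sum_erase t _ h0, hzero, mul_zero, norm_zero, zero_add]
        · rw [Finset.erase_eq_of_notMem h0]
      rw [h2]
      refine sum_le_sum fun z _ => ?_
      rw [norm_mul]
      exact mul_le_of_le_one_right (norm_nonneg _) (hle z)
    have h3 : Summable fun z => ‖Wt (lamK K) θ (vc (AX b x) z) * F z‖ :=
      summable_of_sum_le (fun z => norm_nonneg _) h1
    unfold ThW TW
    exact (norm_tsum_le_tsum_norm h3).trans (Real.tsum_le_of_sum_le (fun z => norm_nonneg _) h1)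

lemma v1_ThW_lin {B : ℝ} {I : Ideal (𝓞 K)} (hI : I ≠ ⊥) (b : Basis (Fin (dg K)) ℤ I)
    (hbal : ∀ x : LS K, CB B (AX b x)) (θ : Par (InfinitePlace K)) (x : LS K) :
    ThW b θ (Fw K) x = ThW b θ (F0 K) x - 2 ^ dg K * ThW b θ (F2 K) x := by
  have h1 := (ThW_triv (θ := θ) hI hbal v1_F0_zero v1_F0_le x).1
  have h2 := (ThW_triv (θ := θ) hI hbal v1_F2_zero v1_F2_le x).1
  unfold ThW TW
  rw [← tsum_mul_left, ← h1.tsum_sub (h2.mul_left _)]
  refine tsum_congr fun z => ?_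
  unfold Fw
  ring

lemma v1_LamT {B : ℝ} {I : Ideal (𝓞 K)} (hI : I ≠ ⊥) (b : Basis (Fin (dg K)) ℤ I)
    (hbal : ∀ x : LS K, CB B (AX b x)) (θ : Par (InfinitePlace K)) (τ : InfinitePlace K → ℝ)
    {s : ℂ} (hs : 1 < s.re) :
    LamT τ (ThW b θ (Fw K)) s =
      LamT τ (ThW b θ (F0 K)) s - 2 ^ dg K * LamT τ (ThW b θ (F2 K)) s := by
  have h1 := v1_int hI b hbal v1_F0_le v1_F0_zero θ τ hs
  have h2 := v1_int hI b hbal v1_F2_le v1_F2_zero θ τ hs
  unfold LamT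
  rw [← integral_const_mul, ← integral_sub h1 (h2.const_mul _)]
  refine setIntegral_congr_fun (box_meas K) fun x _ => ?_
  beta_reduce
  rw [v1_ThW_lin hI b hbal]
  ring

end two

theorem unr_series {K : Type} [Field K] [NumberField K] {B : ℝ} (hB : CBI K B)
    {θ : Par (InfinitePlace K)} {χ : Ideal (𝓞 K) →* ℂ} (h : HU θ χ) {c : ℝ} (hc0 : 0 < c)
    (hc : ∀ G : (InfinitePlace K → ℝ) → ℂ, (∫ x, G (UU K x) = (c : ℂ) * ∫ u, G u) ∧
      (Integrable G → Integrable fun x => G (UU K x)))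
    {C : ClassGroup (𝓞 K)} {I : Ideal (𝓞 K)} (hI : I ≠ ⊥)
    (hC : ClassGroup.mk0 ⟨I, nzd hI⟩ = C⁻¹) (b : Basis (Fin (dg K)) ℤ I) {s : ℂ} (hs : 1 < s.re)
    {t0 : ℝ} (ht : |s.im - t0| < 1) :
    HasSum (fun J : clS C => (1 - χ (Ideal.span {2}) * (2 : ℂ) ^ ((dg K : ℂ) * (1 - s))) *
        (χ J.1 * (Ideal.absNorm J.1 : ℂ) ^ (-s)))
      ((χ I)⁻¹ * (Ideal.absNorm I : ℂ) ^ s *
        (((torsionOrder K : ℂ) * c)⁻¹ * (Zf K (s - Complex.I * t0))⁻¹ *
          LamT θ.2 (ThW b (shp θ t0) (Fw K)) s)) := by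
  have hne : ∀ J : Ideal (𝓞 K), J ≠ ⊥ → χ J ≠ 0 := by
    intro J hJ h0
    have h1 := h.norm J hJ
    rw [h0, norm_zero] at h1
    exact zero_ne_one h1
  have hI2 := v1_I2_ne hI
  have h1 := v1_class (B := B) (hB I hI b) v1_F0_le v1_F0_zero (v1_rel h b) (hne I hI) hc0 hc hI hC
    hs ht
  have h2 := v1_class (B := B) (hB (v1_I2 I) hI2 (v1_b2 b)) v1_F0_le v1_F0_zero
    (v1_rel h (v1_b2 b)) (hne _ hI2) hc0 hc hI2 (v1_mk0 hI hC) hs ht
  rw [v1_ThW] at h2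
  have h3 := h1.sub (h2.mul_left (χ (Ideal.span {2}) * (2 : ℂ) ^ ((dg K : ℂ) * (1 - s))))
  rw [v1_LamT hI b (hB I hI b) (shp θ t0) θ.2 hs]
  have e1 : χ (v1_I2 I) = χ (Ideal.span {2}) * χ I := by
    unfold v1_I2
    rw [map_mul]
  have e2 : (Ideal.absNorm (v1_I2 I) : ℂ) ^ s =
      (2 : ℂ) ^ ((dg K : ℂ) * s) * (Ideal.absNorm I : ℂ) ^ s := by
    rw [v1_norm2, Nat.cast_mul, Complex.natCast_mul_natCast_cpow]
    congr 1
    rw [Nat.cast_pow, ← Complex.natCast_cpow_natCast_mul]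
    norm_num
  have e3 : (2 : ℂ) ^ ((dg K : ℂ) * (1 - s)) * (2 : ℂ) ^ ((dg K : ℂ) * s) = 2 ^ dg K := by
    rw [← Complex.cpow_add _ _ two_ne_zero, ← Complex.cpow_natCast]
    congr 1
    ring
  have hc2 : χ (Ideal.span {(2 : 𝓞 K)}) ≠ 0 := hne _ v1_span_ne
  have hcI := hne I hI
  rw [e1, e2] at h3
  have e4 : χ (Ideal.span {(2 : 𝓞 K)}) * (χ (Ideal.span {(2 : 𝓞 K)}))⁻¹ = 1 :=
    mul_inv_cancel₀ hc2
  have e5 : ∀ X Y P R : ℂ, (χ I)⁻¹ * X * (Y * (P - 2 ^ dg K * R)) =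
      (χ I)⁻¹ * X * (Y * (1 * P)) - χ (Ideal.span {2}) * (2 : ℂ) ^ ((dg K : ℂ) * (1 - s)) *
        ((χ (Ideal.span {2}) * χ I)⁻¹ * ((2 : ℂ) ^ ((dg K : ℂ) * s) * X) * (Y * (1 * R))) := by
    intro X Y P R
    rw [← e3, mul_inv]
    linear_combination (-(χ I)⁻¹ * X * Y * R * (2 : ℂ) ^ ((dg K : ℂ) * (1 - s)) *
      (2 : ℂ) ^ ((dg K : ℂ) * s) * (-1)) * e4
  rw [e5]
  refine h3.congr_fun ?_ |> id
  intro J
  ring

end Pool.Agent.T2H29.TA
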